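import Pool.Agent.Lib.MP_bcfefa_nt.BEul

set_option autoImplicit false

noncomputable section

namespace Pool.Agent.Lib.MP_bcfefa_nt

open Complex Finset MeasureTheory Pool.Agent.Lib.MP_03e5d0_nt
open scoped Real ContDiff

/-! Counting exponent vectors without small primes. -/

theorem bcnt_psi {S : Finset ℕ} (hS : ∀ p ∈ S, p.Prime) (K : ℕ) {x : ℝ} (hx : 0 ≤ x) :
    ∑ q ∈ (S ×ˢ Icc 1 K).filter (fun q => (q.1 : ℝ) ^ q.2 ≤ x), Real.log q.1 ≤ 6 * x := by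
  have h1 : ∑ q ∈ (S ×ˢ Icc 1 K).filter (fun q => (q.1 : ℝ) ^ q.2 ≤ x), Real.log q.1 =
      ∑ n ∈ ((S ×ˢ Icc 1 K).filter (fun q => (q.1 : ℝ) ^ q.2 ≤ x)).image (fun q => q.1 ^ q.2),
        ArithmeticFunction.vonMangoldt n := by
    rw [sum_image]
    · refine sum_congr rfl fun q hq => ?_
      simp only [mem_filter, mem_product, mem_Icc] at hq
      rw [ArithmeticFunction.vonMangoldt_apply_pow (by omega),
        ArithmeticFunction.vonMangoldt_apply_prime (hS _ hq.1.1)]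
    · intro q hq q' hq' h
      simp only [coe_filter, mem_product, mem_Icc, Set.mem_ofPred_eq] at hq hq'
      have := Nat.Prime.pow_inj' (hS _ hq.1.1) (hS _ hq'.1.1) (by omega) (by omega) h
      exact Prod.ext this.1 this.2
  rw [h1]
  have h2 : Real.log 4 ≤ 2 := by
    have : Real.log 4 = 2 * Real.log 2 := by
      rw [show (4 : ℝ) = 2 ^ 2 by norm_num, Real.log_pow]
      norm_num
    linarith [Real.log_two_lt_d9]
  refine le_trans ?_ ((Chebyshev.psi_le_const_mul_self hx).trans (by nlinarith))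
  refine sum_le_sum_of_subset_of_nonneg (fun n hn => ?_) fun _ _ _ =>
    ArithmeticFunction.vonMangoldt_nonneg
  obtain ⟨q, hq, rfl⟩ := mem_image.1 hn
  simp only [mem_filter, mem_product, mem_Icc] at hq
  refine mem_Ioc.2 ⟨pow_pos (hS _ hq.1.1).pos _, Nat.le_floor ?_⟩
  exact_mod_cast hq.2

theorem bcnt_supp {S : Finset ℕ} {e : Xp} {p : ℕ} (he : e.support ⊆ S) (hp : p ∈ S) (j : ℤ) :
    (e - Finsupp.single p j).support ⊆ S :=
  Finsupp.support_sub.trans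
    (union_subset he (Finsupp.support_single_subset.trans (singleton_subset_iff.2 hp)))

theorem bcnt_Nm {S : Finset ℕ} {e : Xp} {p k : ℕ} (he : e.support ⊆ S) (hp : p ∈ S) {j : ℤ}
    (hj : (e p - j).natAbs + k = (e p).natAbs) : Nm (e - Finsupp.single p j) * p ^ k = Nm e := by
  rw [Nm_eq_prod he, Nm_eq_prod (bcnt_supp he hp j), ← mul_prod_erase S _ hp,
    ← mul_prod_erase S _ hp, mul_right_comm, ← pow_add]
  congr 1
  · rw [Finsupp.sub_apply, Finsupp.single_eq_same, hj]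
  · refine prod_congr rfl fun q hq => ?_
    rw [Finsupp.sub_apply, Finsupp.single_eq_of_ne (ne_of_mem_erase hq), sub_zero]

theorem bcnt_card1 {S : Finset ℕ} (hS : ∀ p ∈ S, p.Prime) (Y : ℝ) {p : ℕ} (hp : p ∈ S) (k : ℕ)
    (j : ℤ) : ((EE S Y).filter fun e => (e p - j).natAbs + k = (e p).natAbs).card ≤
      ((EE S Y).filter fun e => (Nm e : ℝ) * (p : ℝ) ^ k ≤ Y).card := by
  refine card_le_card_of_injOn (fun e => e - Finsupp.single p j) (fun e he => ?_)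
    fun e _ e' _ h => sub_left_injective h
  simp only [coe_filter, Set.mem_ofPred_eq, mem_EE hS] at he ⊢
  have h1 : (Nm (e - Finsupp.single p j) : ℝ) * (p : ℝ) ^ k = Nm e := by
    exact_mod_cast bcnt_Nm he.1.1 hp he.2
  have h2 : (1 : ℝ) ≤ (p : ℝ) ^ k := one_le_pow₀ (by exact_mod_cast (hS p hp).one_le)
  refine ⟨⟨bcnt_supp he.1.1 hp j, ?_⟩, h1 ▸ he.1.2⟩
  exact (le_mul_of_one_le_right (Nat.cast_nonneg _) h2).trans (h1 ▸ he.1.2)

theorem bcnt_card2 {S : Finset ℕ} (hS : ∀ p ∈ S, p.Prime) (Y : ℝ) {p : ℕ} (hp : p ∈ S) (k : ℕ) :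
    ((EE S Y).filter fun e => k ≤ (e p).natAbs).card ≤
      2 * ((EE S Y).filter fun e => (Nm e : ℝ) * (p : ℝ) ^ k ≤ Y).card := by
  have h : ((EE S Y).filter fun e => k ≤ (e p).natAbs) ⊆
      ((EE S Y).filter fun e => (e p - k).natAbs + k = (e p).natAbs) ∪
        ((EE S Y).filter fun e => (e p - -(k : ℤ)).natAbs + k = (e p).natAbs) := fun e he => by
    simp only [mem_union, mem_filter] at he ⊢
    obtain ⟨h1, h2⟩ := he
    rcases le_total 0 (e p) with h | h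
    · exact Or.inl ⟨h1, by omega⟩
    · exact Or.inr ⟨h1, by omega⟩
  have h1 := bcnt_card1 hS Y hp k k
  have h2 := bcnt_card1 hS Y hp k (-(k : ℤ))
  have h3 := (card_le_card h).trans (card_union_le _ _)
  omega

theorem bcnt_one_le {S : Finset ℕ} (hS : ∀ p ∈ S, p.Prime) {Y : ℝ} {e : Xp} (he : e ∈ EE S Y) :
    (1 : ℝ) ≤ Nm e := by
  have : Pm e := fun p hp => hS p (((mem_EE hS).1 he).1 hp)
  exact_mod_cast this.one_le

/-- `log (Nm e) = ∑ p, ∑ k ∈ Icc 1 |e p|, log p`. Send `(e, p, k)` to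
`(e - single p (sign (e p) * k), p, k, sign (e p))`; this is injective and the new vector `e'` has
`Nm e' * p ^ k = Nm e`. For fixed `e'` the sum of `log p` over `p ^ k ≤ Y / Nm e'` is at most
`Chebyshev.psi (Y / Nm e') ≤ (log 4 + 4) Y / Nm e'` (`Chebyshev.psi_le_const_mul_self`,
`Chebyshev.psi_eq_sum_mul_log_prime` or `vonMangoldt_apply_pow`). -/
theorem sum_log_Nm_le {S : Finset ℕ} (hS : ∀ p ∈ S, p.Prime) {Y : ℝ} (hY : 0 ≤ Y) :
    ∑ e ∈ EE S Y, Real.log (Nm e) ≤ 12 * Y * ∑ e ∈ EE S Y, (1 : ℝ) / Nm e := by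
  have h1 : ∀ e ∈ EE S Y, Real.log (Nm e) =
      ∑ q ∈ S ×ˢ Icc 1 ⌊Y⌋₊, if q.2 ≤ (e q.1).natAbs then Real.log q.1 else 0 := fun e he => by
    have he' := (mem_EE hS).1 he
    rw [Nm_eq_prod he'.1, sum_product]
    push_cast
    rw [Real.log_prod fun p hp => pow_ne_zero _ (by exact_mod_cast (hS p hp).ne_zero)]
    refine sum_congr rfl fun p hp => ?_
    have hk : (e p).natAbs ≤ ⌊Y⌋₊ := by
      have hpm : Pm e := fun p hp => hS p (he'.1 hp)
      have h2 := (Nat.lt_pow_self (n := (e p).natAbs) (hS p hp).one_lt).le.trans (hpm.pow_le p)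
      exact Nat.le_floor (le_trans (by exact_mod_cast h2) he'.2)
    have h3 : (Icc 1 ⌊Y⌋₊).filter (fun k => k ≤ (e p).natAbs) = Icc 1 (e p).natAbs := by
      ext k
      simp only [mem_filter, mem_Icc]
      omega
    rw [Real.log_pow, ← sum_filter, h3, sum_const, Nat.card_Icc, nsmul_eq_mul, Nat.add_sub_cancel]
  rw [sum_congr rfl h1, sum_comm]
  calc ∑ q ∈ S ×ˢ Icc 1 ⌊Y⌋₊, ∑ e ∈ EE S Y, (if q.2 ≤ (e q.1).natAbs then Real.log q.1 else 0)
      ≤ ∑ q ∈ S ×ˢ Icc 1 ⌊Y⌋₊, 2 * ∑ e ∈ EE S Y,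
          (if (Nm e : ℝ) * (q.1 : ℝ) ^ q.2 ≤ Y then Real.log q.1 else 0) := by
        refine sum_le_sum fun q hq => ?_
        rw [← sum_filter, ← sum_filter, sum_const, sum_const, nsmul_eq_mul, nsmul_eq_mul,
          ← mul_assoc]
        refine mul_le_mul_of_nonneg_right ?_ (Real.log_natCast_nonneg _)
        exact_mod_cast bcnt_card2 hS Y (mem_product.1 hq).1 q.2
    _ = 2 * ∑ e ∈ EE S Y, ∑ q ∈ S ×ˢ Icc 1 ⌊Y⌋₊,
          (if (Nm e : ℝ) * (q.1 : ℝ) ^ q.2 ≤ Y then Real.log q.1 else 0) := by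
        rw [← mul_sum, sum_comm]
    _ ≤ 2 * ∑ e ∈ EE S Y, 6 * (Y / Nm e) := by
        refine mul_le_mul_of_nonneg_left (sum_le_sum fun e he => ?_) zero_le_two
        have h0 : (0 : ℝ) < Nm e := zero_lt_one.trans_le (bcnt_one_le hS he)
        rw [← sum_filter]
        refine le_of_eq_of_le ?_ (bcnt_psi hS ⌊Y⌋₊ (div_nonneg hY h0.le))
        refine sum_congr (filter_congr fun q _ => ?_) fun _ _ => rfl
        rw [le_div_iff₀' h0]
    _ = _ := by
        rw [mul_sum, mul_sum]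
        exact sum_congr rfl fun e _ => by ring

/-- If `log Y ≤ Λ` the set is empty. Otherwise put `S₁ = S ∩ D.pr (log Y)`, so `EE S Y = EE S₁ Y`;
`(1 + log Y) card ≤ ∑ (1 + log (Y / Nm e)) + ∑ log (Nm e) ≤ 13 Y ∑ 1 / Nm e` as `1 + log t ≤ t`;
`sum_inv_Nm_le`, `D.mert` at `log Y` and at `Λ`, `ly (log Y) ≤ 1 + log Y`. -/
theorem Dat.card_EE (D : Dat) : ∃ C : ℝ, 0 ≤ C ∧ ∀ (S : Finset ℕ) (Λ Y : ℝ), 0 ≤ Y →
    (∀ p ∈ S, p ∈ D.P ∧ Λ < Real.log p) → (((EE S Y).erase 0).card : ℝ) ≤ C * Y / ly Λ := by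
  obtain ⟨C, hC⟩ := D.mert
  refine ⟨13 * Real.exp (2 * C + 4), by positivity, fun S Λ Y hY hS => ?_⟩
  have hl : ∀ x : ℝ, 0 < ly x := fun x => zero_lt_one.trans_le (le_max_left _ _)
  have hSp : ∀ p ∈ S, p.Prime := fun p hp => D.prime p (hS p hp).1
  have hlog : ∀ e ∈ EE S Y, ∀ p ∈ e.support, (p : ℝ) ≤ Y ∧ Real.log p ≤ Real.log Y :=
    fun e he p hp => by
    have he' := (mem_EE hSp).1 he
    have hpm : Pm e := fun p hp => hSp p (he'.1 hp)
    have h1 : (p : ℝ) ≤ Y := le_trans (by exact_mod_cast hpm.le_Nm hp) he'.2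
    exact ⟨h1, Real.log_le_log (by exact_mod_cast (hpm p hp).pos) h1⟩
  rcases ((EE S Y).erase 0).eq_empty_or_nonempty with h | ⟨e₀, he₀⟩
  · rw [h, card_empty, Nat.cast_zero]
    have := hl Λ
    positivity
  obtain ⟨p₀, hp₀⟩ := Finsupp.support_nonempty_iff.2 (ne_of_mem_erase he₀)
  have hp₀S := ((mem_EE hSp).1 (mem_of_mem_erase he₀)).1 hp₀
  have hY1 : 1 ≤ Y :=
    le_trans (by exact_mod_cast (hSp _ hp₀S).one_le) (hlog _ (mem_of_mem_erase he₀) _ hp₀).1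
  have hΛ : Λ ≤ Real.log Y := (hS _ hp₀S).2.le.trans (hlog _ (mem_of_mem_erase he₀) _ hp₀).2
  have hL : 0 ≤ Real.log Y := Real.log_nonneg hY1
  set S₁ := D.pr (Real.log Y) \ D.pr Λ with hS₁
  have hS₁p : ∀ p ∈ S₁, p.Prime := fun p hp => D.pr_prime _ p (mem_sdiff.1 hp).1
  have hsub : (EE S Y).erase 0 ⊆ EE S₁ Y := fun e he => by
    have he := mem_of_mem_erase he
    have he' := (mem_EE hSp).1 he
    refine (mem_EE hS₁p).2 ⟨fun p hp => mem_sdiff.2 ⟨D.mem_pr.2 ⟨(hS p (he'.1 hp)).1,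
      (hlog e he p hp).2⟩, fun h => (hS p (he'.1 hp)).2.not_ge (D.mem_pr.1 h).2⟩, he'.2⟩
  have h1 : ((EE S₁ Y).card : ℝ) * (1 + Real.log Y) ≤ 13 * Y * ∑ e ∈ EE S₁ Y, (1 : ℝ) / Nm e := by
    have h2 : ∑ e ∈ EE S₁ Y, (1 + Real.log Y) ≤
        ∑ e ∈ EE S₁ Y, (Y * (1 / Nm e) + Real.log (Nm e)) := sum_le_sum fun e he => by
      have h0 : (0 : ℝ) < Nm e := zero_lt_one.trans_le (bcnt_one_le hS₁p he)
      have h3 := Real.log_le_sub_one_of_pos (div_pos (zero_lt_one.trans_le hY1) h0)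
      rw [Real.log_div (by linarith) h0.ne'] at h3
      rw [mul_one_div]
      linarith
    rw [sum_const, nsmul_eq_mul, sum_add_distrib, ← mul_sum] at h2
    linarith [sum_log_Nm_le hS₁p hY]
  have h2 : ∑ p ∈ S₁, (2 : ℝ) / p + 4 ≤
      Real.log (ly (Real.log Y)) - Real.log (ly Λ) + (2 * C + 4) := by
    have h3 := sum_sdiff (f := fun p : ℕ => (2 : ℝ) / p) (D.pr_mono hΛ)
    have h4 := abs_le.1 (hC (Real.log Y))
    have h5 := abs_le.1 (hC Λ)
    simp only [Dat.pr] at h3 hS₁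
    rw [hS₁]
    linarith [h4.2, h5.1]
  have h3 : ∑ e ∈ EE S₁ Y, (1 : ℝ) / Nm e ≤ (1 + Real.log Y) / ly Λ * Real.exp (2 * C + 4) := by
    refine (sum_inv_Nm_le hS₁p Y).trans ((Real.exp_le_exp.2 h2).trans ?_)
    rw [Real.exp_add, Real.exp_sub, Real.exp_log (hl _), Real.exp_log (hl _)]
    have : ly (Real.log Y) ≤ 1 + Real.log Y := max_le (by linarith) (by linarith)
    have := hl Λ
    gcongr
  refine le_trans (by exact_mod_cast card_le_card hsub : _ ≤ ((EE S₁ Y).card : ℝ)) ?_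
  refine le_of_mul_le_mul_right (h1.trans ?_) (show 0 < 1 + Real.log Y by linarith)
  refine (mul_le_mul_of_nonneg_left h3 (by positivity)).trans (le_of_eq ?_)
  ring

/-- The term `e = 0` is at most one. Group the others by `Y / 2 ^ (k + 1) < Nm e ≤ Y / 2 ^ k`; each group
contributes at most `2 C / ly Λ * 2 ^ (-σ k)`, and `1 - 2 ^ (-σ) ≥ σ / 2`. -/
theorem Dat.cnt (D : Dat) : ∃ C : ℝ, 0 ≤ C ∧ ∀ (S : Finset ℕ) (Λ Y σ : ℝ), 1 ≤ Y → 0 < σ → σ ≤ 1 →
    (∀ p ∈ S, p ∈ D.P ∧ Λ < Real.log p) →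
    ∑ e ∈ EE S Y, Real.exp (-(σ * (Real.log Y - Real.log (Nm e)))) / Nm e ≤
      1 + C / (σ * ly Λ) := by
  obtain ⟨C, hC0, hC⟩ := D.card_EE
  refine ⟨6 * C, by positivity, fun S Λ Y σ hY hσ hσ1 hS => ?_⟩
  have hl : 0 < ly Λ := zero_lt_one.trans_le (le_max_left _ _)
  have hSp : ∀ p ∈ S, p.Prime := fun p hp => D.prime p (hS p hp).1
  have hY0 : 0 < Y := zero_lt_one.trans_le hY
  have h0 : (0 : Xp) ∈ EE S Y := (mem_EE hSp).2 ⟨by simp, by rw [Nm_zero]; exact_mod_cast hY⟩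
  rw [← add_sum_erase _ _ h0]
  refine add_le_add ?_ ?_
  · rw [Nm_zero, Nat.cast_one, Real.log_one, div_one, sub_zero, Real.exp_le_one_iff]
    have := Real.log_nonneg hY
    have := mul_nonneg hσ.le this
    linarith
  obtain ⟨K, hK⟩ := pow_unbounded_of_one_lt Y (one_lt_two (α := ℝ))
  set q := Real.exp (-(σ * Real.log 2)) with hq
  have hq0 : 0 < q := Real.exp_pos _
  have hq1 : σ / 3 ≤ 1 - q := by
    have h1 := Real.add_one_le_exp (σ * Real.log 2)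
    have h2 : q * Real.exp (σ * Real.log 2) = 1 := by rw [hq, ← Real.exp_add]; simp
    have h3 : σ / 2 ≤ σ * Real.log 2 := by nlinarith [Real.log_two_gt_d9]
    have h4 : q * (1 + σ / 2) ≤ 1 := by nlinarith
    nlinarith
  have h1 : ∀ e ∈ (EE S Y).erase 0, Real.exp (-(σ * (Real.log Y - Real.log (Nm e)))) / Nm e ≤
      ∑ k ∈ range K, if (Nm e : ℝ) ≤ Y / 2 ^ k then q ^ k * (2 ^ (k + 1) / Y) else 0 :=
    fun e he => by
    have he := mem_of_mem_erase he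
    have hn := bcnt_one_le hSp he
    have hn0 : (0 : ℝ) < Nm e := zero_lt_one.trans_le hn
    have hle := ((mem_EE hSp).1 he).2
    obtain ⟨k, hk1, hk2⟩ := exists_nat_pow_near ((one_le_div hn0).2 hle) (one_lt_two (α := ℝ))
    have hkK : k < K := by
      refine (pow_lt_pow_iff_right₀ (one_lt_two (α := ℝ))).1 (hk1.trans_lt (lt_of_le_of_lt ?_ hK))
      exact div_le_self hY0.le hn
    refine le_trans ?_ (single_le_sum (f := fun k => if (Nm e : ℝ) ≤ Y / 2 ^ k then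
      q ^ k * (2 ^ (k + 1) / Y) else 0) (fun k _ => by split_ifs <;> positivity) (mem_range.2 hkK))
    rw [if_pos (by rwa [le_div_iff₀ (by positivity), mul_comm, ← le_div_iff₀ hn0]), div_eq_mul_one_div]
    refine mul_le_mul ?_ ?_ (by positivity) (by positivity)
    · rw [hq, ← Real.exp_nat_mul, Real.exp_le_exp, ← Real.log_div hY0.ne' hn0.ne']
      have h2 := Real.log_le_log (by positivity) hk1
      rw [Real.log_pow] at h2
      nlinarith
    · rw [div_lt_iff₀ hn0] at hk2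
      rw [div_le_div_iff₀ hn0 hY0]
      linarith
  refine (sum_le_sum h1).trans ?_
  rw [sum_comm]
  have h2 : ∀ k ∈ range K, (∑ e ∈ (EE S Y).erase 0,
      if (Nm e : ℝ) ≤ Y / 2 ^ k then q ^ k * (2 ^ (k + 1) / Y) else 0) ≤ 2 * C / ly Λ * q ^ k :=
    fun k _ => by
    rw [← sum_filter, sum_const, nsmul_eq_mul]
    have h3 : ((EE S Y).erase 0).filter (fun e => (Nm e : ℝ) ≤ Y / 2 ^ k) ⊆
        (EE S (Y / 2 ^ k)).erase 0 := fun e he => by
      simp only [mem_filter, mem_erase, mem_EE hSp] at he ⊢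
      exact ⟨he.1.1, he.1.2.1, he.2⟩
    have h4 := le_trans (by exact_mod_cast card_le_card h3 : ((((EE S Y).erase 0).filter
      fun e => (Nm e : ℝ) ≤ Y / 2 ^ k).card : ℝ) ≤ _) (hC S Λ (Y / 2 ^ k) (by positivity) hS)
    refine (mul_le_mul_of_nonneg_right h4 (by positivity)).trans (le_of_eq ?_)
    field_simp
    ring
  refine (sum_le_sum h2).trans ?_
  rw [← mul_sum]
  have hq2 : q < 1 := by linarith
  have h3 : ∑ k ∈ range K, q ^ k ≤ 3 / σ := by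
    refine ((summable_geometric_of_lt_one hq0.le hq2).sum_le_tsum _ fun _ _ => by positivity).trans ?_
    rw [tsum_geometric_of_lt_one hq0.le hq2, ← inv_div]
    exact inv_anti₀ (by positivity) hq1
  refine (mul_le_mul_of_nonneg_left h3 (by positivity)).trans (le_of_eq ?_)
  field_simp
  ring

theorem bcnt_pr (D : Dat) (x : ℝ) : ∀ p ∈ D.pr x, p ∈ D.P ∧ 0 < Real.log p := fun p hp =>
  ⟨(D.mem_pr.1 hp).1, Real.log_pos (by exact_mod_cast (D.pr_prime x p hp).one_lt)⟩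

theorem bcnt_ly : ly 0 = 1 := max_eq_left zero_le_one

theorem Dat.card_E (D : Dat) : ∃ C : ℝ, 0 ≤ C ∧ ∀ Y : ℝ, 1 ≤ Y → ((D.E Y).card : ℝ) ≤ C * Y := by
  obtain ⟨C, hC0, hC⟩ := D.card_EE
  refine ⟨1 + C, by positivity, fun Y hY => ?_⟩
  have h1 := hC _ 0 Y (by linarith) (bcnt_pr D (Real.log Y))
  rw [bcnt_ly, div_one] at h1
  have h2 : (D.E Y).card ≤ ((D.E Y).erase 0).card + 1 := by
    have := pred_card_le_card_erase (s := D.E Y) (a := 0)
    omega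
  have h3 : ((D.E Y).card : ℝ) ≤ ((D.E Y).erase 0).card + 1 := by exact_mod_cast h2
  unfold Dat.E at h3 ⊢
  linarith

/-- `cnt` with `Λ = 0`, `σ = 1 / 2`. -/
theorem Dat.sum_sqrt (D : Dat) : ∃ C : ℝ, 0 ≤ C ∧ ∀ Y : ℝ, 1 ≤ Y →
    ∑ e ∈ D.E Y, 1 / √(Nm e) ≤ C * √Y := by
  obtain ⟨C, hC0, hC⟩ := D.cnt
  refine ⟨1 + C / (1 / 2 * 1), by positivity, fun Y hY => ?_⟩
  have h1 := hC _ 0 Y (1 / 2) hY (by norm_num) (by norm_num) (bcnt_pr D (Real.log Y))
  rw [bcnt_ly] at h1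
  refine le_trans (le_of_eq ?_) (mul_le_mul_of_nonneg_right h1 (Real.sqrt_nonneg Y))
  rw [sum_mul]
  refine sum_congr rfl fun e he => ?_
  have hn : (0 : ℝ) < Nm e := zero_lt_one.trans_le (bcnt_one_le (D.pr_prime _) he)
  have hY0 : 0 < Y := by linarith
  have e1 : ∀ x : ℝ, 0 < x → √x = Real.exp (1 / 2 * Real.log x) := fun x hx => by
    rw [Real.sqrt_eq_rpow, Real.rpow_def_of_pos hx, mul_comm]
  rw [e1 _ hn, e1 _ hY0, div_mul_eq_mul_div (Real.exp _), ← Real.exp_add,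
    div_eq_div_iff (Real.exp_pos _).ne' hn.ne', ← Real.exp_add, one_mul]
  conv_lhs => rw [← Real.exp_log hn]
  congr 1
  ring

end Pool.Agent.Lib.MP_bcfefa_nt
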