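import Pool.Agent.Lib.MP_bcfefa_nt.BTor

set_option autoImplicit false

noncomputable section

namespace Pool.Agent.Lib.MP_bcfefa_nt

open Complex Finset MeasureTheory Pool.Agent.Lib.MP_03e5d0_nt
open scoped Real ContDiff

/-! Euler products of Poisson kernels. -/

variable {S : Finset ℕ} {ξ : ℕ → ℂ}

theorem PK_zero (w : ℂ) : PK 0 w = 1 := by
  simp [PK]

theorem beul_congr {ι E : Type} [AddCommMonoid E] [TopologicalSpace E] {f g : ι → E} {a b : E}
    (h : HasSum f a) (h1 : ∀ i, g i = f i) (h2 : b = a) : HasSum g b := by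
  rw [funext h1, h2]
  exact h

theorem beul_den {ξ w : ℂ} (hξ : ‖ξ‖ < 1) (hw : ‖w‖ = 1) : 1 - ξ * w ≠ 0 := by
  intro h
  have h1 : ξ * w = 1 := (sub_eq_zero.1 h).symm
  have h2 := congrArg norm h1
  rw [norm_mul, hw, mul_one, norm_one] at h2
  exact hξ.ne h2

theorem beul_den' {ξ w : ℂ} (hξ : ‖ξ‖ < 1) (hw : ‖w‖ = 1) : 1 - ξ * w⁻¹ ≠ 0 :=
  beul_den hξ (by rw [norm_inv, hw, inv_one])

/-- Two geometric series (`HasSum.of_nat_of_neg_add_one` or `HasSum.nat_add_neg`). -/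
theorem hasSum_PK {ξ w : ℂ} (hξ : ‖ξ‖ < 1) (hw : ‖w‖ = 1) :
    HasSum (fun k : ℤ => ξ ^ k.natAbs * w ^ k) (PK ξ w) := by
  have hw0 : w ≠ 0 := fun h => by simp [h] at hw
  have h1 : ‖ξ * w‖ < 1 := by rwa [norm_mul, hw, mul_one]
  have h2 : ‖ξ * w⁻¹‖ < 1 := by rwa [norm_mul, norm_inv, hw, inv_one, mul_one]
  have a1 : HasSum (fun n : ℕ => ξ ^ (n : ℤ).natAbs * w ^ (n : ℤ)) (1 - ξ * w)⁻¹ := by
    simpa [mul_pow] using hasSum_geometric_of_norm_lt_one h1
  have a2 : HasSum (fun n : ℕ => ξ ^ (-((n : ℤ) + 1)).natAbs * w ^ (-((n : ℤ) + 1)))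
      (ξ * w⁻¹ * (1 - ξ * w⁻¹)⁻¹) := by
    have h3 := (hasSum_geometric_of_norm_lt_one h2).mul_left (ξ * w⁻¹)
    refine beul_congr h3 (fun n => ?_) rfl
    have h4 : (-((n : ℤ) + 1)).natAbs = n + 1 := by omega
    have h5 : w ^ (-((n : ℤ) + 1)) = w⁻¹ ^ (n + 1) := by
      rw [zpow_neg, inv_pow, ← zpow_natCast]
      push_cast
      rfl
    rw [h4, h5, ← mul_pow, pow_succ']
  have a3 := HasSum.of_nat_of_neg_add_one (f := fun k : ℤ => ξ ^ k.natAbs * w ^ k) a1 a2
  refine beul_congr a3 (fun _ => rfl) ?_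
  have d1 := beul_den hξ hw
  have d2 := beul_den' hξ hw
  have h6 : w * w⁻¹ = 1 := mul_inv_cancel₀ hw0
  rw [PK]
  generalize w⁻¹ = v at *
  field_simp
  linear_combination ξ ^ 2 * h6

theorem beul_geo {r : ℝ} (h0 : 0 ≤ r) (h1 : r < 1) :
    HasSum (fun k : ℤ => r ^ k.natAbs) ((1 + r) / (1 - r)) := by
  have h := hasSum_PK (ξ := r) (w := 1) (by rwa [Complex.norm_real, Real.norm_of_nonneg h0]) norm_one
  rw [← Complex.hasSum_ofReal]
  convert h using 1
  · funext k
    simp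
  · have h2 : (1 : ℂ) - r ≠ 0 := by exact_mod_cast (sub_pos.2 h1).ne'
    rw [PK, inv_one, mul_one]
    push_cast
    field_simp
    ring

theorem norm_PK_le {ξ w : ℂ} (hξ : ‖ξ‖ < 1) (hw : ‖w‖ = 1) : ‖PK ξ w‖ ≤ (1 + ‖ξ‖) / (1 - ‖ξ‖) := by
  refine (hasSum_PK hξ hw).norm_le_of_bounded (beul_geo (norm_nonneg ξ) hξ) fun k => ?_
  rw [norm_mul, norm_pow, norm_zpow, hw, one_zpow, mul_one]

/-- For real `ξ` the kernel is a positive real number. -/
theorem PK_real {x : ℝ} {w : ℂ} (hx : |x| < 1) (hw : ‖w‖ = 1) : PK x w = (‖PK x w‖ : ℝ) := by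
  have h1 : w⁻¹ = starRingEnd ℂ w := by
    rw [Complex.inv_def, Complex.normSq_eq_norm_sq, hw]
    simp
  have h2 : PK x w = (((1 - x ^ 2) / normSq (1 - x * w) : ℝ) : ℂ) := by
    rw [PK, h1, ofReal_div, ← Complex.mul_conj]
    simp
  have h3 : 0 ≤ (1 - x ^ 2) / normSq (1 - x * w) := by
    refine div_nonneg ?_ (normSq_nonneg _)
    have := (sq_lt_one_iff_abs_lt_one x).2 hx
    linarith
  rw [h2, Complex.norm_real, Real.norm_of_nonneg h3]

theorem beul_sub (S : Finset ℕ) (G : Xp → ℂ) (s : ℂ) :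
    HasSum (fun e : {e : Xp // e.support ⊆ S} => G e) s ↔
      HasSum (fun e : Xp => if e.support ⊆ S then G e else 0) s := by
  rw [← (Subtype.val_injective (p := fun e : Xp => e.support ⊆ S)).hasSum_iff
    (f := fun e : Xp => if e.support ⊆ S then G e else 0)
    (fun e he => if_neg fun h => he ⟨⟨e, h⟩, rfl⟩)]
  refine Iff.of_eq (congrArg (HasSum · s) (funext fun e => ?_))
  simp only [Function.comp, if_pos e.2]

/-- Induction on `S`; for `insert p S` use `HasSum.mul_of_summable_norm`-type lemmas and the injection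
`(k, e) ↦ single p k + e` on `ℤ × {e // e.support ⊆ S}`, or work with the indicator form throughout. -/
theorem hasSum_prod_Xp (S : Finset ℕ) (g : ℕ → ℤ → ℂ) (s : ℕ → ℂ) (hg : ∀ p ∈ S, HasSum (g p) (s p)) :
    HasSum (fun e : Xp => if e.support ⊆ S then ∏ p ∈ S, g p (e p) else 0) (∏ p ∈ S, s p) := by
  classical
  induction S using Finset.induction_on with
  | empty =>
    rw [prod_empty]
    convert hasSum_ite_eq (0 : Xp) (1 : ℂ) using 2 with e
    simp
  | insert p S hp ih =>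
    have h1 := (beul_sub S _ _).2 (ih fun q hq => hg q (mem_insert_of_mem hq))
    have h2 := hg p (mem_insert_self p S)
    have h3 := h2.mul h1 (summable_mul_of_summable_norm (f := g p)
      (g := fun e : {e : Xp // e.support ⊆ S} => ∏ q ∈ S, g q (e.1 q))
      h2.summable.norm h1.summable.norm)
    have hz : ∀ e : {e : Xp // e.support ⊆ S}, e.1 p = 0 := fun e =>
      Finsupp.notMem_support_iff.1 fun h => hp (e.2 h)
    let i : ℤ × {e : Xp // e.support ⊆ S} → Xp := fun x => Finsupp.single p x.1 + x.2.1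
    have hi : Function.Injective i := by
      rintro ⟨k, e⟩ ⟨k', e'⟩ h
      have h4 : k = k' := by simpa [i, hz] using DFunLike.congr_fun h p
      subst h4
      have h5 : e.1 = e'.1 := add_left_cancel h
      rw [Subtype.ext h5]
    rw [prod_insert hp, ← hi.hasSum_iff]
    · refine beul_congr h3 (fun x => ?_) rfl
      have h6 : (i x).support ⊆ insert p S := fun q hq => by
        rcases mem_union.1 (Finsupp.support_add hq) with h | h
        · rw [mem_singleton.1 (Finsupp.support_single_subset h)]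
          exact mem_insert_self _ _
        · exact mem_insert_of_mem (x.2.2 h)
      simp only [Function.comp, if_pos h6, prod_insert hp]
      congr 1
      · simp [i, hz]
      · refine prod_congr rfl fun q hq => ?_
        have h7 : p ≠ q := fun h => hp (h ▸ hq)
        simp [i, h7]
    · intro e he
      refine if_neg fun h => he ⟨(e p, ⟨e.erase p, fun q hq => ?_⟩), Finsupp.single_add_erase p e⟩
      rw [Finsupp.support_erase, mem_erase] at hq
      exact (mem_insert.1 (h hq.2)).resolve_left hq.1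

theorem beul_xi {p : ℕ} (hp : 0 < p) (α : ℂ) :
    xi α p = cexp (-(α * Real.log p)) / (√p : ℝ) := by
  have h0 : (p : ℂ) ≠ 0 := by exact_mod_cast hp.ne'
  have h1 : (0 : ℝ) < p := by exact_mod_cast hp
  have h2 : √(p : ℝ) = Real.exp (Real.log p * (1 / 2)) := by
    rw [Real.sqrt_eq_rpow, Real.rpow_def_of_pos h1]
  rw [xi, cpow_def_of_ne_zero h0, ← Complex.natCast_log, h2, ofReal_exp, ← Complex.exp_sub]
  congr 1
  push_cast
  ring

theorem beul_xi_mul (α : ℂ) (m n : ℕ) : xi α (m * n) = xi α m * xi α n := by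
  rw [xi, xi, xi, Nat.cast_mul, natCast_mul_natCast_cpow]

theorem beul_xi_one (α : ℂ) : xi α 1 = 1 := by
  simp [xi]

theorem beul_xi_pow (α : ℂ) (m k : ℕ) : xi α (m ^ k) = xi α m ^ k := by
  induction k with
  | zero => simp [beul_xi_one]
  | succ k ih => rw [pow_succ, beul_xi_mul, ih, pow_succ]

theorem beul_xi_prod (α : ℂ) (S : Finset ℕ) (f : ℕ → ℕ) :
    xi α (∏ p ∈ S, f p) = ∏ p ∈ S, xi α (f p) := by
  classical
  induction S using Finset.induction_on with
  | empty => simp [beul_xi_one]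
  | insert p S hp ih => rw [prod_insert hp, prod_insert hp, beul_xi_mul, ih]

theorem beul_norm (α : ℂ) (n : ℕ) : ‖cexp (-(α * Real.log n)) / (√n : ℝ)‖ =
    Real.exp (-(α.re * Real.log n)) / √n := by
  rw [norm_div, Complex.norm_exp, Complex.norm_real, Real.norm_of_nonneg (Real.sqrt_nonneg _),
    neg_re, re_mul_ofReal]

theorem norm_xi {p : ℕ} (hp : 0 < p) (α : ℂ) :
    ‖xi α p‖ = Real.exp (-(α.re * Real.log p)) / √p := by
  rw [beul_xi hp, beul_norm]

theorem norm_xi_lt {p : ℕ} (hp : p.Prime) {α : ℂ} (hα : -1 / 2 < α.re) : ‖xi α p‖ < 1 := by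
  rw [xi, norm_natCast_cpow_of_pos hp.pos]
  refine Real.rpow_lt_one_of_one_lt_of_neg (by exact_mod_cast hp.one_lt) ?_
  have h : ((1 : ℂ) / 2).re = 1 / 2 := by norm_num
  rw [neg_re, add_re, h]
  linarith

theorem xi_zero {p : ℕ} (hp : 0 < p) : xi 0 p = ((1 / √p : ℝ) : ℂ) := by
  rw [beul_xi hp]
  simp

/-- `hasSum_prod_Xp`, `hasSum_PK`, `ch_eq_prod`, `Nm_eq_prod`. -/
theorem hasSum_FF (hS : ∀ p ∈ S, p.Prime) {α : ℂ} (hα : -1 / 2 < α.re) (z : Tor) :
    HasSum (fun e : Xp => if e.support ⊆ S then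
      ch e z * (cexp (-(α * Real.log (Nm e))) / (√(Nm e) : ℝ)) else 0) (FF S (xi α) z) := by
  have h := hasSum_prod_Xp S (fun p k => xi α p ^ k.natAbs * co z p ^ k)
    (fun p => PK (xi α p) (co z p)) fun p hp => hasSum_PK (norm_xi_lt (hS p hp) hα) (norm_co z p)
  convert h using 2 with e
  · split_ifs with he
    · have h1 : Pm e := fun q hq => hS q (he hq)
      rw [prod_mul_distrib, ← ch_eq_prod he, ← beul_xi h1.one_le, Nm_eq_prod he, beul_xi_prod,
        mul_comm]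
      simp only [beul_xi_pow]
    · rfl
  · rfl

/-- `hasSum_FF` at `z = 1` with the real exponent `α.re`. -/
theorem summable_FF (hS : ∀ p ∈ S, p.Prime) {σ : ℝ} (hσ : -1 / 2 < σ) :
    Summable fun e : Xp => if e.support ⊆ S then
      Real.exp (-(σ * Real.log (Nm e))) / √(Nm e) else 0 := by
  have h := (hasSum_FF hS (α := σ) (by simpa using hσ) 1).summable.norm
  convert h using 2 with e
  split_ifs
  · rw [norm_mul, norm_ch, one_mul, beul_norm, ofReal_re]
  · rw [norm_zero]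

theorem beul_cont {X : Type} [TopologicalSpace X] {a w : X → ℂ} (ha : Continuous a)
    (hw : Continuous w) (h1 : ∀ x, ‖a x‖ < 1) (h2 : ∀ x, ‖w x‖ = 1) :
    Continuous fun x => PK (a x) (w x) := by
  have h3 : Continuous fun x => (w x)⁻¹ := hw.inv₀ fun x h => by simpa [h] using h2 x
  unfold PK
  exact (continuous_const.sub (ha.pow 2)).div
    ((continuous_const.sub (ha.mul hw)).mul (continuous_const.sub (ha.mul h3)))
    fun x => mul_ne_zero (beul_den (h1 x) (h2 x)) (beul_den' (h1 x) (h2 x))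

theorem continuous_FF (hξ : ∀ p ∈ S, ‖ξ p‖ < 1) : Continuous (FF S ξ) := by
  unfold FF
  exact continuous_finsetProd _ fun p hp =>
    beul_cont continuous_const (continuous_co p) (fun _ => hξ p hp) fun z => norm_co z p

/-- Joint continuity along a vertical line. -/
theorem continuous_FF₂ (hS : ∀ p ∈ S, p.Prime) {σ : ℝ} (hσ : -1 / 2 < σ) (U : ℝ) :
    Continuous fun q : ℝ × Tor => FF S (xi (σ + I * q.1 / U)) q.2 := by
  unfold FF
  refine continuous_finsetProd _ fun p hp => beul_cont ?_ ((continuous_co p).comp continuous_snd)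
    (fun q => norm_xi_lt (hS p hp) ?_) fun q => norm_co q.2 p
  · unfold xi
    refine Continuous.const_cpow (by fun_prop) (Or.inl ?_)
    exact_mod_cast (hS p hp).ne_zero
  · rw [mul_div_assoc, ← ofReal_div]
    simpa only [add_re, ofReal_re, I_mul_re, ofReal_im, neg_zero, add_zero] using hσ

theorem norm_FF_le (hS : ∀ p ∈ S, p.Prime) {σ : ℝ} (hσ : -1 / 2 < σ) :
    ∃ K : ℝ, ∀ (α : ℂ) (z : Tor), α.re = σ → ‖FF S (xi α) z‖ ≤ K := by
  refine ⟨∏ p ∈ S, (1 + ‖xi σ p‖) / (1 - ‖xi σ p‖), fun α z hα => ?_⟩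
  rw [FF, norm_prod]
  refine prod_le_prod (fun _ _ => norm_nonneg _) fun p hp => ?_
  have h : ‖xi σ p‖ = ‖xi α p‖ := by
    rw [norm_xi (hS p hp).pos, norm_xi (hS p hp).pos, hα, ofReal_re]
  rw [h]
  exact norm_PK_le (norm_xi_lt (hS p hp) (hα ▸ hσ)) (norm_co z p)

theorem dep_FF (S : Finset ℕ) (ξ : ℕ → ℂ) : Dep S (FF S ξ) := by
  intro z z' h
  exact prod_congr rfl fun p hp => by rw [h p hp]

theorem FF_zero (S : Finset ℕ) (z : Tor) : FF S (fun _ => 0) z = 1 := by
  simp [FF, PK_zero]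

/-- Termwise integration (`hasSum_integral_of_summable_integral_norm`), `f` is bounded. -/
theorem int_mul_FF (hS : ∀ p ∈ S, p.Prime) {α : ℂ} (hα : -1 / 2 < α.re) {f : Tor → ℂ}
    (hf : Continuous f) :
    HasSum (fun e : Xp => if e.support ⊆ S then
      (∫ z, ch e z * f z ∂mu) * (cexp (-(α * Real.log (Nm e))) / (√(Nm e) : ℝ)) else 0)
      (∫ z, f z * FF S (xi α) z ∂mu) := by
  let F : Xp → Tor → ℂ := fun e z => if e.support ⊆ S then
    ch e z * f z * (cexp (-(α * Real.log (Nm e))) / (√(Nm e) : ℝ)) else 0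
  have h1 : ∀ e, Integrable (F e) mu := fun e => by
    refine ci ?_
    unfold F
    split_ifs
    · exact ((continuous_ch e).mul hf).mul continuous_const
    · exact continuous_const
  have h2 : Summable fun e => ∫ z, ‖F e z‖ ∂mu := by
    refine ((summable_FF hS hα).mul_left (∫ z, ‖f z‖ ∂mu)).congr fun e => ?_
    unfold F
    split_ifs
    · simp only [norm_mul, norm_ch, one_mul, beul_norm, integral_mul_const]
    · simp
  refine beul_congr (hasSum_integral_of_summable_integral_norm h1 h2) (fun e => ?_) ?_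
  · unfold F
    split_ifs
    · rw [integral_mul_const]
    · simp
  · refine integral_congr_ae (Filter.Eventually.of_forall fun z => ?_)
    refine (HasSum.tsum_eq ?_).symm
    refine beul_congr ((hasSum_FF hS hα z).mul_left (f z)) (fun e => ?_) rfl
    unfold F
    split_ifs
    · ring
    · simp

/-- Termwise integration of `hasSum_PK`, `ch_single`, `int_ch`. -/
theorem int_PK_zpow {ξ : ℂ} (hξ : ‖ξ‖ < 1) (p : ℕ) (k : ℤ) :
    ∫ z, PK ξ (co z p) * co z p ^ k ∂mu = ξ ^ k.natAbs := by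
  let F : ℤ → Tor → ℂ := fun j z => ξ ^ j.natAbs * ch (Finsupp.single p (j + k)) z
  have h1 : ∀ j, Integrable (F j) mu := fun j => ci (continuous_const.mul (continuous_ch _))
  have h2 : Summable fun j => ∫ z, ‖F j z‖ ∂mu := by
    refine (beul_geo (norm_nonneg ξ) hξ).summable.congr fun j => ?_
    simp [F, norm_ch]
  have h3 := hasSum_integral_of_summable_integral_norm h1 h2
  have h4 : ∀ z, ∑' j, F j z = PK ξ (co z p) * co z p ^ k := fun z => by
    refine HasSum.tsum_eq ?_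
    refine beul_congr ((hasSum_PK hξ (norm_co z p)).mul_right (co z p ^ k)) (fun j => ?_) rfl
    simp only [F, ch_single, zpow_add₀ (co_ne z p), mul_assoc]
  simp only [h4] at h3
  refine h3.unique ?_
  refine beul_congr (hasSum_ite_eq (-k) (ξ ^ k.natAbs)) (fun j => ?_) rfl
  simp only [F, integral_const_mul, int_ch, Finsupp.single_eq_zero, add_eq_zero_iff_eq_neg]
  split_ifs with h
  · rw [h, Int.natAbs_neg, mul_one]
  · rw [mul_zero]

theorem beul_sq (hS : ∀ p ∈ S, p.Prime) : ∑ p ∈ S, (1 / (p : ℝ)) ^ 2 ≤ 1 := by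
  have h1 : S ⊆ Ioc 1 (S.sup id + 1) := fun p hp =>
    mem_Ioc.2 ⟨(hS p hp).one_lt, (le_sup (f := id) hp).trans (Nat.le_succ _)⟩
  have h2 := sum_Ioc_inv_sq_le_sub (α := ℝ) (k := 1) (n := S.sup id + 1) one_ne_zero (by omega)
  have h3 : (0 : ℝ) ≤ ((S.sup id + 1 : ℕ) : ℝ)⁻¹ := by positivity
  calc ∑ p ∈ S, (1 / (p : ℝ)) ^ 2 = ∑ p ∈ S, ((p : ℝ) ^ 2)⁻¹ := by simp
    _ ≤ ∑ p ∈ Ioc 1 (S.sup id + 1), ((p : ℝ) ^ 2)⁻¹ :=
      sum_le_sum_of_subset_of_nonneg h1 fun _ _ _ => by positivity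
    _ ≤ 1 := by
      rw [Nat.cast_one, inv_one] at h2
      linarith

theorem beul_exp {x : ℝ} (h1 : x ≤ 1 / 2) :
    (1 + x) / (1 - x) ≤ Real.exp (2 * x + 4 * x ^ 2) := by
  refine le_trans ?_ (Real.add_one_le_exp _)
  rw [div_le_iff₀ (by linarith)]
  nlinarith [mul_nonneg (sq_nonneg x) (by linarith : 0 ≤ 1 - 2 * x)]

/-- `hasSum_FF` with `α = 1 / 2`, `z = 1`: the sum is at most `∏ (1 + 1 / p) / (1 - 1 / p)`, and
`(1 + x) / (1 - x) ≤ exp (2 x + 4 x ^ 2)` for `0 ≤ x ≤ 1 / 2`; `∑ 1 / p ^ 2 ≤ 1`. -/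
theorem sum_inv_Nm_le (hS : ∀ p ∈ S, p.Prime) (Y : ℝ) :
    ∑ e ∈ EE S Y, (1 : ℝ) / Nm e ≤ Real.exp (∑ p ∈ S, (2 : ℝ) / p + 4) := by
  have hh : ∀ p ∈ S, 1 / (p : ℝ) ≤ 1 / 2 := fun p hp =>
    one_div_le_one_div_of_le two_pos (by exact_mod_cast (hS p hp).two_le)
  have h1 := hasSum_prod_Xp S (fun p k => (((1 / (p : ℝ)) ^ k.natAbs : ℝ) : ℂ))
    (fun p => (((1 + 1 / (p : ℝ)) / (1 - 1 / (p : ℝ)) : ℝ) : ℂ)) fun p hp =>
      Complex.hasSum_ofReal.2 (beul_geo (by positivity) ((hh p hp).trans_lt (by norm_num)))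
  have h2 : HasSum (fun e : Xp => if e.support ⊆ S then (1 : ℝ) / Nm e else 0)
      (∏ p ∈ S, (1 + 1 / (p : ℝ)) / (1 - 1 / (p : ℝ))) := by
    rw [← Complex.hasSum_ofReal, ofReal_prod]
    convert h1 using 2 with e
    split_ifs with he
    · rw [← ofReal_prod, Nm_eq_prod he]
      congr 1
      simp
    · rfl
  calc ∑ e ∈ EE S Y, (1 : ℝ) / Nm e
      = ∑ e ∈ EE S Y, if e.support ⊆ S then (1 : ℝ) / Nm e else 0 :=
        sum_congr rfl fun e he => (if_pos ((mem_EE hS).1 he).1).symm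
    _ ≤ _ := sum_le_hasSum _ (fun e _ => by split_ifs <;> positivity) h2
    _ ≤ ∏ p ∈ S, Real.exp (2 * (1 / (p : ℝ)) + 4 * (1 / (p : ℝ)) ^ 2) := by
        refine prod_le_prod (fun p hp => div_nonneg (by positivity) ?_) fun p hp =>
          beul_exp (hh p hp)
        linarith [hh p hp]
    _ ≤ _ := by
        rw [← Real.exp_sum, Real.exp_le_exp, sum_add_distrib, ← mul_sum _ _ (4 : ℝ)]
        simp only [mul_one_div]
        linarith [beul_sq hS]

/-- Split `e` into its parts on `S'` and on `S` (`Finsupp.filter`); `Nm_add_disj`. -/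
theorem split_sum {S S' : Finset ℕ} (hS : ∀ p ∈ S, p.Prime) (hS' : ∀ p ∈ S', p.Prime)
    (hd : Disjoint S' S) (Y : ℝ) (g : Xp → ℂ) (hg : ∀ e : Xp, Y < Nm e → g e = 0) :
    ∑ e ∈ EE (S' ∪ S) Y, g e = ∑ e' ∈ EE S' Y, ∑ e ∈ EE S Y, g (e' + e) := by
  classical
  have hU : ∀ p ∈ S' ∪ S, p.Prime := fun p hp => (mem_union.1 hp).elim (hS' p) (hS p)
  rw [← sum_product' (f := fun e' e => g (e' + e)),
    ← sum_filter_of_ne (s := EE S' Y ×ˢ EE S Y) (p := fun x => (Nm (x.1 + x.2) : ℝ) ≤ Y)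
      fun x _ hx => not_lt.1 fun h => hx (hg _ h)]
  symm
  refine sum_nbij (fun x => x.1 + x.2) (fun x hx => ?_) (fun x hx x' hx' h => ?_)
    (fun e he => ?_) fun _ _ => rfl
  · rw [mem_filter, mem_product, mem_EE hS', mem_EE hS] at hx
    exact (mem_EE hU).2 ⟨Finsupp.support_add.trans (union_subset_union hx.1.1.1 hx.1.2.1), hx.2⟩
  · rw [mem_coe, mem_filter, mem_product, mem_EE hS', mem_EE hS] at hx hx'
    have h1 : x.1 = x'.1 := by
      ext q
      by_cases hq : q ∈ S'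
      · have h2 : q ∉ S := disjoint_left.1 hd hq
        have h3 : x.2 q = 0 := Finsupp.notMem_support_iff.1 fun h => h2 (hx.1.2.1 h)
        have h4 : x'.2 q = 0 := Finsupp.notMem_support_iff.1 fun h => h2 (hx'.1.2.1 h)
        simpa [h3, h4] using DFunLike.congr_fun h q
      · rw [Finsupp.notMem_support_iff.1 fun h => hq (hx.1.1.1 h),
          Finsupp.notMem_support_iff.1 fun h => hq (hx'.1.1.1 h)]
    have h5 : x.1 + x.2 = x'.1 + x'.2 := h
    rw [h1] at h5
    exact Prod.ext h1 (add_left_cancel h5)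
  · rw [mem_coe, mem_EE hU] at he
    have h1 := Finsupp.filter_add_filter_not e (· ∈ S')
    have h2 : (e.filter (· ∈ S')).support ⊆ S' := fun q hq => by
      rw [Finsupp.support_filter, mem_filter] at hq
      exact hq.2
    have h3 : (e.filter fun q => ¬q ∈ S').support ⊆ S := fun q hq => by
      rw [Finsupp.support_filter, mem_filter] at hq
      exact (mem_union.1 (he.1 hq.1)).resolve_left hq.2
    have h4 := Nm_add_disj (hd.mono h2 h3)
    rw [h1] at h4
    have h5 : Pm (e.filter (· ∈ S')) := fun q hq => hS' q (h2 hq)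
    have h6 : Pm (e.filter fun q => ¬q ∈ S') := fun q hq => hS q (h3 hq)
    have h7 : Nm (e.filter (· ∈ S')) ≤ Nm e := h4 ▸ Nat.le_mul_of_pos_right _ h6.one_le
    have h8 : Nm (e.filter fun q => ¬q ∈ S') ≤ Nm e := h4 ▸ Nat.le_mul_of_pos_left _ h5.one_le
    refine ⟨(e.filter (· ∈ S'), e.filter fun q => ¬q ∈ S'), ?_, h1⟩
    rw [mem_coe, mem_filter, mem_product, mem_EE hS', mem_EE hS, h1]
    exact ⟨⟨⟨h2, (Nat.cast_le.2 h7).trans he.2⟩, h3, (Nat.cast_le.2 h8).trans he.2⟩, he.2⟩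

end Pool.Agent.Lib.MP_bcfefa_nt
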