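import Pool.Agent.Lib.MP_bcfefa_nt.BTP

set_option autoImplicit false

noncomputable section

namespace Pool.Agent.Lib.MP_bcfefa_nt

open Complex Finset MeasureTheory Pool.Agent.Lib.MP_03e5d0_nt
open scoped Real ContDiff

/-! Transfer of the first moment along a progression. -/

theorem Dat.T1_ch (D : Dat) (n m H : ℕ) (e : Xp) :
    D.T1 n m H (ch e) = ch e (D.z n) * (∑ i ∈ range H, (ch e D.u ^ m) ^ i) ^ 2 := by
  rw [sq, sum_mul_sum]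
  simp only [Dat.T1, Dat.ch_z, mul_sum]
  refine sum_congr rfl fun i _ => sum_congr rfl fun i' _ => ?_
  ring

theorem bt1_norm (D : Dat) (n m H : ℕ) (e : Xp) :
    ‖D.T1 n m H (ch e)‖ = ‖∑ i ∈ range H, (ch e D.u ^ m) ^ i‖ ^ 2 := by
  rw [D.T1_ch, norm_mul, norm_ch, one_mul, norm_pow]

theorem bt1_sum (D : Dat) (n m H : ℕ) (E : Finset Xp) (g : Xp → Tor → ℂ) (d : Xp → ℂ) :
    D.T1 n m H (fun z => ∑ e ∈ E, g e z * d e) = ∑ e ∈ E, D.T1 n m H (g e) * d e := by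
  simp only [Dat.T1, sum_mul]
  rw [sum_comm (s := E)]
  exact sum_congr rfl fun i _ => sum_comm

theorem bt1_int (E : Finset Xp) (g : Xp → Tor → ℂ) (hg : ∀ e, Continuous (g e)) (d : Xp → ℂ) :
    ∫ z, ∑ e ∈ E, g e z * d e ∂mu = ∑ e ∈ E, (∫ z, g e z ∂mu) * d e := by
  rw [integral_finsetSum (f := fun e z => g e z * d e) _
    fun e _ => ci ((hg e).mul continuous_const)]
  exact sum_congr rfl fun e _ => integral_mul_const _ _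

/-- With `h = D.G.index`: `(m h) • e ∈ D.G` (`AddSubgroup.nsmul_index_mem`), so `D.sep` bounds
`‖w ^ h - 1‖` from below for `w = ch e u ^ m`; `‖w ^ h - 1‖ ≤ h ‖w - 1‖` and
`‖∑ w ^ i‖ ‖w - 1‖ ≤ 2` (`geom_sum_mul`). Take `k = m h`. -/
theorem Dat.T1_short (D : Dat) {m : ℕ} (hm : 0 < m) : ∃ (k : ℕ) (C : ℝ), 0 ≤ C ∧ ∀ (n H : ℕ) (e : Xp),
    D.Ok e → e ≠ 0 → ‖D.T1 n m H (ch e)‖ ≤ C * (Nm e : ℝ) ^ k := by
  obtain ⟨c₀, hc₀, hsep⟩ := D.sep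
  refine ⟨D.G.index * m, (2 * D.G.index / c₀) ^ 2, sq_nonneg _, fun n H e he he0 => ?_⟩
  have h1 := hsep ((D.G.index * m) • e) (by rw [mul_smul]; exact D.G.nsmul_index_mem _)
    (smul_ne_zero (Nat.mul_ne_zero D.idx hm.ne') he0) (he.nsmul _)
  rw [Nm_nsmul, ch_nsmul, pow_mul' (ch e D.u)] at h1
  rw [bt1_norm]
  obtain ⟨w, hw⟩ : ∃ w, w = ch e D.u ^ m := ⟨_, rfl⟩
  have hw1 : ‖w‖ = 1 := by rw [hw, norm_pow, norm_ch, one_pow]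
  rw [← hw] at h1 ⊢
  have h2 : ‖w ^ D.G.index - 1‖ ≤ D.G.index * ‖w - 1‖ := by
    rw [← geom_sum_mul, norm_mul]
    refine mul_le_mul_of_nonneg_right ((norm_sum_le _ _).trans ?_) (norm_nonneg _)
    simp [norm_pow, hw1]
  have h3 : ‖∑ i ∈ range H, w ^ i‖ * ‖w - 1‖ ≤ 2 := by
    rw [← norm_mul, geom_sum_mul]
    refine (norm_sub_le _ _).trans ?_
    rw [norm_pow, hw1]
    norm_num
  obtain ⟨r, hr⟩ : ∃ r, r = √((Nm e ^ (D.G.index * m) : ℕ) : ℝ) := ⟨_, rfl⟩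
  have hr0 : 0 ≤ r := hr ▸ Real.sqrt_nonneg _
  have hr2 : (Nm e : ℝ) ^ (D.G.index * m) = r ^ 2 := by
    rw [hr, Real.sq_sqrt (Nat.cast_nonneg _), Nat.cast_pow]
  rw [← hr] at h1
  rw [hr2, ← mul_pow]
  refine pow_le_pow_left₀ (norm_nonneg _) ?_ 2
  rw [div_mul_eq_mul_div, le_div_iff₀ hc₀]
  calc ‖∑ i ∈ range H, w ^ i‖ * c₀ ≤ ‖∑ i ∈ range H, w ^ i‖ * (r * (D.G.index * ‖w - 1‖)) :=
        mul_le_mul_of_nonneg_left (h1.trans (mul_le_mul_of_nonneg_left h2 hr0)) (norm_nonneg _)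
    _ = (‖∑ i ∈ range H, w ^ i‖ * ‖w - 1‖) * (D.G.index * r) := by ring
    _ ≤ 2 * (D.G.index * r) := mul_le_mul_of_nonneg_right h3 (by positivity)
    _ = _ := by ring

/-- `T1_ch`, `ch_add`, and `dual` with `w = ch e₀ u`, `J = (range H).image (m * ·)`, `a = 1`. -/
theorem Dat.T1_long (D : Dat) {m : ℕ} (hm : 0 < m) : ∃ C : ℝ, 0 ≤ C ∧ ∀ (n H : ℕ) (Y : ℝ) (e₀ : Xp),
    1 ≤ Y → ∑ e ∈ D.E Y, ‖D.T1 n m H (ch (e₀ + e))‖ ≤ C * max ((m : ℝ) * H) Y * H := by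
  obtain ⟨C, hC, hd⟩ := D.dual
  refine ⟨C, hC, fun n H Y e₀ hY => ?_⟩
  have hinj : Set.InjOn (fun i => m * i) (range H : Finset ℕ) := fun i _ j _ h =>
    Nat.eq_of_mul_eq_mul_left hm h
  have h1 := hd Y (D.E Y) (ch e₀ D.u) ((range H).image (m * ·)) 0 (m * H) (fun _ => 1) hY
    subset_rfl (norm_ch _ _) (fun j hj => by
      obtain ⟨i, hi, rfl⟩ := mem_image.1 hj
      exact ⟨Nat.zero_le _, by simpa using Nat.mul_le_mul_left m (mem_range.1 hi).le⟩)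
  simp only [sum_image hinj, one_mul, norm_one, one_pow, sum_const, card_range, nsmul_eq_mul,
    mul_one, Nat.cast_mul] at h1
  refine le_trans (le_of_eq (sum_congr rfl fun e _ => ?_)) h1
  simp only [bt1_norm, ch_add, pow_mul]

/-- For one character `ch e₀` times the sum: the term `e = -e₀` gives the same on both sides. The other
terms with `Nm e ≤ Y₁` number at most `C Y₁` (`card_E`) and are bounded by `T1_short`; those with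
`Nm e > Y₁` have coefficient at most `B / √Y₁`, `T1_long`. -/
theorem Dat.T1_one (D : Dat) {m : ℕ} (hm : 0 < m) : ∃ (k : ℕ) (C : ℝ), 0 ≤ C ∧ ∀ (n H : ℕ)
    (Y Y₀ Y₁ B : ℝ) (e₀ : Xp) (a : Xp → ℂ), 1 ≤ Y → 1 ≤ Y₁ → 0 ≤ B → e₀ ∈ D.E Y₀ →
    (∀ e ∈ D.E Y, ‖a e‖ ≤ B / √(Nm e)) →
    ‖D.T1 n m H (fun z => ch e₀ z * ∑ e ∈ D.E Y, ch e z * a e) -
        (H : ℂ) ^ 2 * ∫ z, ch e₀ z * ∑ e ∈ D.E Y, ch e z * a e ∂mu‖ ≤
      C * B * (Y₁ * (Y₀ * Y₁) ^ k + max ((m : ℝ) * H) Y * H / √Y₁) := by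
  classical
  obtain ⟨k, C₁, hC₁, h1⟩ := D.T1_short hm
  obtain ⟨C₂, hC₂, h2⟩ := D.T1_long hm
  obtain ⟨C₃, hC₃, h3⟩ := D.card_E
  refine ⟨k, C₃ * C₁ + C₂, by positivity, fun n H Y Y₀ Y₁ B e₀ a hY hY₁ hB he₀ ha => ?_⟩
  obtain ⟨ok₀, hN₀⟩ := D.mem_E.1 he₀
  have hY₀ : 0 ≤ Y₀ := (Nat.cast_nonneg _).trans hN₀
  have hs : 0 < √Y₁ := Real.sqrt_pos.2 (by linarith)
  have e1 : ∀ z, ch e₀ z * ∑ e ∈ D.E Y, ch e z * a e = ∑ e ∈ D.E Y, ch (e₀ + e) z * a e := by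
    intro z
    simp only [mul_sum, ch_add, mul_assoc]
  simp only [e1]
  rw [bt1_sum, bt1_int _ _ (fun e => continuous_ch _), mul_sum, ← sum_sub_distrib]
  have key : ∀ e ∈ D.E Y, ‖D.T1 n m H (ch (e₀ + e)) * a e -
      (H : ℂ) ^ 2 * ((∫ z, ch (e₀ + e) z ∂mu) * a e)‖ ≤
      (if e ∈ D.E Y₁ then C₁ * (Y₀ * Y₁) ^ k * B else 0) + B / √Y₁ * ‖D.T1 n m H (ch (e₀ + e))‖ := by
    intro e he
    obtain ⟨ok, -⟩ := D.mem_E.1 he
    have hN1 : (1 : ℝ) ≤ Nm e := by exact_mod_cast ok.pm.one_le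
    have p1 : 0 ≤ B / √Y₁ * ‖D.T1 n m H (ch (e₀ + e))‖ := by positivity
    have p2 : 0 ≤ (if e ∈ D.E Y₁ then C₁ * (Y₀ * Y₁) ^ k * B else 0) := by
      split_ifs <;> positivity
    rw [int_ch]
    by_cases h0 : e₀ + e = 0
    · have : D.T1 n m H (ch (e₀ + e)) = (H : ℂ) ^ 2 := by
        rw [h0, D.T1_ch]; simp [ch_zero]
      rw [if_pos h0, one_mul, ← this, sub_self, norm_zero]
      linarith
    · rw [if_neg h0, zero_mul, mul_zero, sub_zero, norm_mul]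
      by_cases hle : (Nm e : ℝ) ≤ Y₁
      · rw [if_pos (D.mem_E.2 ⟨ok, hle⟩)]
        refine le_trans ?_ (le_add_of_nonneg_right p1)
        have a1 : (Nm (e₀ + e) : ℝ) ≤ Y₀ * Y₁ := by
          have : (Nm (e₀ + e) : ℝ) ≤ Nm e₀ * Nm e := by exact_mod_cast ok₀.pm.Nm_add_le ok.pm
          exact this.trans (mul_le_mul hN₀ hle (by linarith) hY₀)
        refine mul_le_mul ((h1 n H _ (ok₀.add ok) h0).trans (by gcongr))
          ((ha e he).trans (div_le_self hB (Real.one_le_sqrt.2 hN1))) (norm_nonneg _)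
          (by positivity)
      · refine le_trans ?_ (le_add_of_nonneg_left p2)
        rw [mul_comm]
        refine mul_le_mul_of_nonneg_right ((ha e he).trans ?_) (norm_nonneg _)
        exact div_le_div_of_nonneg_left hB hs (Real.sqrt_le_sqrt (not_le.1 hle).le)
  refine (norm_sum_le _ _).trans ((sum_le_sum key).trans ?_)
  rw [sum_add_distrib, ← mul_sum, sum_ite_mem, sum_const, nsmul_eq_mul]
  have a1 : ((D.E Y ∩ D.E Y₁).card : ℝ) ≤ C₃ * Y₁ :=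
    (Nat.cast_le.2 (card_le_card inter_subset_right)).trans (h3 Y₁ hY₁)
  have a3 := mul_le_mul_of_nonneg_right a1 (show 0 ≤ C₁ * (Y₀ * Y₁) ^ k * B by positivity)
  have a4 := mul_le_mul_of_nonneg_left (h2 n H Y e₀ hY) (div_nonneg hB hs.le)
  have a5 : 0 ≤ B * (Y₁ * (Y₀ * Y₁) ^ k) := by positivity
  have a6 : 0 ≤ B * (max ((m : ℝ) * H) Y * H / √Y₁) := by positivity
  calc _ ≤ C₃ * Y₁ * (C₁ * (Y₀ * Y₁) ^ k * B) + B / √Y₁ * (C₂ * max ((m : ℝ) * H) Y * H) :=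
        add_le_add a3 a4
    _ = C₃ * C₁ * (B * (Y₁ * (Y₀ * Y₁) ^ k)) + C₂ * (B * (max ((m : ℝ) * H) Y * H / √Y₁)) := by ring
    _ ≤ (C₃ * C₁ + C₂) * (B * (Y₁ * (Y₀ * Y₁) ^ k)) +
        (C₃ * C₁ + C₂) * (B * (max ((m : ℝ) * H) Y * H / √Y₁)) :=
        add_le_add (mul_le_mul_of_nonneg_right (by linarith) a5)
          (mul_le_mul_of_nonneg_right (by linarith [mul_nonneg hC₃ hC₁]) a6)
    _ = _ := by ring

/-- `rep` for `f`; the sum of the norms of its coefficients is at most `√(card) * √(∫ ‖f‖ ^ 2)`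
(`parseval`, `card_E`). -/
theorem Dat.t1 (D : Dat) {m : ℕ} (hm : 0 < m) : ∃ (k : ℕ) (C : ℝ), 0 ≤ C ∧ ∀ (n H : ℕ)
    (Y Y₀ Y₁ B : ℝ) (f : Tor → ℂ) (a : Xp → ℂ), 1 ≤ Y → 1 ≤ Y₀ → 1 ≤ Y₁ → 0 ≤ B → f ∈ D.TP Y₀ →
    (∀ e ∈ D.E Y, ‖a e‖ ≤ B / √(Nm e)) →
    ‖D.T1 n m H (fun z => f z * ∑ e ∈ D.E Y, ch e z * a e) -
        (H : ℂ) ^ 2 * ∫ z, f z * ∑ e ∈ D.E Y, ch e z * a e ∂mu‖ ≤
      C * B * √(Y₀ * ∫ z, ‖f z‖ ^ 2 ∂mu) *
        (Y₁ * (Y₀ * Y₁) ^ k + max ((m : ℝ) * H) Y * H / √Y₁) := by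
  obtain ⟨k, C₁, hC₁, h1⟩ := D.T1_one hm
  obtain ⟨C₃, hC₃, h3⟩ := D.card_E
  refine ⟨k, C₁ * √C₃, by positivity, fun n H Y Y₀ Y₁ B f a hY hY₀ hY₁ hB hf ha => ?_⟩
  obtain ⟨d, hd⟩ := Dat.rep hf
  have e1 : ∀ z, f z * ∑ e ∈ D.E Y, ch e z * a e =
      ∑ e₀ ∈ D.E Y₀, (ch e₀ z * ∑ e ∈ D.E Y, ch e z * a e) * d e₀ := by
    intro z
    rw [hd z, sum_mul]
    exact sum_congr rfl fun _ _ => by ring
  simp only [e1]
  rw [bt1_sum D n m H _ (fun e₀ z => ch e₀ z * ∑ e ∈ D.E Y, ch e z * a e),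
    bt1_int _ (fun e₀ z => ch e₀ z * ∑ e ∈ D.E Y, ch e z * a e) (fun e₀ => (continuous_ch _).mul
      (continuous_finsetSum _ fun e _ => (continuous_ch _).mul continuous_const)),
    mul_sum, ← sum_sub_distrib]
  obtain ⟨R, hR⟩ : ∃ R, R = Y₁ * (Y₀ * Y₁) ^ k + max ((m : ℝ) * H) Y * H / √Y₁ := ⟨_, rfl⟩
  have hR0 : 0 ≤ R := by rw [hR]; positivity
  rw [← hR]
  have h2 : ∑ e₀ ∈ D.E Y₀, ‖d e₀‖ ≤ √C₃ * √(Y₀ * ∫ z, ‖f z‖ ^ 2 ∂mu) := by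
    rw [← Real.sqrt_mul hC₃]
    refine Real.le_sqrt_of_sq_le (sq_sum_le_card_mul_sum_sq.trans ?_)
    simp only [hd]
    rw [parseval, ← mul_assoc]
    exact mul_le_mul_of_nonneg_right (h3 Y₀ hY₀) (sum_nonneg fun _ _ => sq_nonneg _)
  calc _ ≤ ∑ e₀ ∈ D.E Y₀, C₁ * B * R * ‖d e₀‖ := by
        refine (norm_sum_le _ _).trans (sum_le_sum fun e₀ he₀ => ?_)
        rw [← mul_assoc, ← sub_mul, norm_mul, hR]
        exact mul_le_mul_of_nonneg_right (h1 n H Y Y₀ Y₁ B e₀ a hY hY₁ hB he₀ ha) (norm_nonneg _)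
    _ ≤ C₁ * B * R * (√C₃ * √(Y₀ * ∫ z, ‖f z‖ ^ 2 ∂mu)) := by
        rw [← mul_sum]
        exact mul_le_mul_of_nonneg_left h2 (by positivity)
    _ = _ := by ring

/-- Each `j` is of the form `n + m (i + i')` for at most `H` pairs (`i` determines `i'`). -/
theorem Dat.T1_le (D : Dat) {m : ℕ} (hm : 0 < m) {n H N : ℕ} (h1 : N ≤ n) (h2 : n + 2 * m * H ≤ 2 * N)
    (f : Tor → ℂ) : ‖D.T1 n m H f‖ ≤
      H * ∑ j ∈ (Ico N (2 * N)).filter (fun j => j ≡ n [MOD m]), ‖f (D.z j)‖ := by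
  refine (norm_sum_le _ _).trans ((sum_le_card_nsmul _ _ _ fun i hi => ?_).trans
    (le_of_eq (by rw [card_range, nsmul_eq_mul])))
  refine (norm_sum_le _ _).trans ?_
  have hinj : Set.InjOn (fun i' => n + m * (i + i')) (range H : Finset ℕ) := fun a _ b _ h =>
    Nat.add_left_cancel (Nat.eq_of_mul_eq_mul_left hm (Nat.add_left_cancel h))
  rw [← sum_image (f := fun j => ‖f (D.z j)‖) hinj]
  refine sum_le_sum_of_subset_of_nonneg (fun j hj => ?_) fun _ _ _ => norm_nonneg _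
  obtain ⟨i', hi', rfl⟩ := mem_image.1 hj
  rw [mem_range] at hi hi'
  refine mem_filter.2 ⟨mem_Ico.2 ⟨by omega, ?_⟩, ?_⟩
  · have : m * (i + i') < m * (2 * H) := Nat.mul_lt_mul_of_pos_left (by omega) hm
    nlinarith
  · simp [Nat.ModEq]

end Pool.Agent.Lib.MP_bcfefa_nt
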