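import Pool.Agent.Lib.MP_bcfefa_nt.BCnt
import Pool.Agent.Lib.MP_bcfefa_nt.BLS

set_option autoImplicit false

noncomputable section

namespace Pool.Agent.Lib.MP_bcfefa_nt

open Complex Finset MeasureTheory Pool.Agent.Lib.MP_03e5d0_nt
open scoped Real ContDiff

/-! Trigonometric polynomials and the transfer of second moments. -/

variable {D : Dat} {Y Y' : ℝ} {f g : Tor → ℂ}

theorem Dat.TP_mono (D : Dat) (h : Y ≤ Y') : D.TP Y ≤ D.TP Y' :=
  Submodule.span_mono (Set.image_mono fun _ he => ⟨he.1, he.2.trans h⟩)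

theorem Dat.ch_mem {e : Xp} (he : D.Ok e) (h : (Nm e : ℝ) ≤ Y) : ch e ∈ D.TP Y :=
  Submodule.subset_span ⟨e, ⟨he, h⟩, rfl⟩

theorem Dat.const_mem (D : Dat) (hY : 1 ≤ Y) (c : ℂ) : (fun _ => c) ∈ D.TP Y := by
  have h0 : ch 0 ∈ D.TP Y := Dat.ch_mem (fun p hp => by simp at hp) (by rw [Nm_zero]; simpa using hY)
  have h1 : (fun _ : Tor => c) = c • ch 0 := by
    funext z
    simp [ch_zero]
  rw [h1]
  exact Submodule.smul_mem _ _ h0

/-- `Submodule.span_induction₂` or two inductions; `ch_add`, `Pm.Nm_add_le`. -/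
theorem Dat.mul_mem (hf : f ∈ D.TP Y) (hg : g ∈ D.TP Y') : (fun z => f z * g z) ∈ D.TP (Y * Y') := by
  change f * g ∈ D.TP (Y * Y')
  unfold Dat.TP at hf hg
  induction hf, hg using Submodule.span_induction₂ with
  | mem_mem x y hx hy =>
    obtain ⟨e, ⟨he, hN⟩, rfl⟩ := hx
    obtain ⟨e', ⟨he', hN'⟩, rfl⟩ := hy
    have h1 : ch e * ch e' = ch (e + e') := by
      funext z
      simp [ch_add]
    rw [h1]
    refine Dat.ch_mem (he.add he') ?_
    have h2 : ((Nm (e + e') : ℕ) : ℝ) ≤ (Nm e : ℝ) * Nm e' := by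
      exact_mod_cast he.pm.Nm_add_le he'.pm
    exact h2.trans (mul_le_mul hN hN' (Nat.cast_nonneg _) ((Nat.cast_nonneg _).trans hN))
  | zero_left y hy => simp
  | zero_right x hx => simp
  | add_left x y z hx hy hz h1 h2 => rw [add_mul]; exact Submodule.add_mem _ h1 h2
  | add_right x y z hx hy hz h1 h2 => rw [mul_add]; exact Submodule.add_mem _ h1 h2
  | smul_left r x y hx hy h1 => rw [smul_mul_assoc]; exact Submodule.smul_mem _ _ h1
  | smul_right r x y hx hy h1 => rw [mul_smul_comm]; exact Submodule.smul_mem _ _ h1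

theorem Dat.pow_mem (hf : f ∈ D.TP Y) (n : ℕ) : (fun z => f z ^ n) ∈ D.TP (Y ^ n) := by
  induction n with
  | zero => simpa using D.const_mem le_rfl 1
  | succ n ih => simpa only [pow_succ] using Dat.mul_mem ih hf

theorem Dat.prod_mem {ι : Type} (T : Finset ι) {Y : ι → ℝ} {f : ι → Tor → ℂ}
    (h : ∀ i ∈ T, f i ∈ D.TP (Y i)) : (fun z => ∏ i ∈ T, f i z) ∈ D.TP (∏ i ∈ T, Y i) := by
  classical
  induction T using Finset.induction_on with
  | empty => simpa using D.const_mem le_rfl 1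
  | insert a T ha ih =>
    simp only [prod_insert ha]
    exact Dat.mul_mem (h a (mem_insert_self _ _)) (ih fun i hi => h i (mem_insert_of_mem hi))

theorem Dat.sum_ch_mem (E : Finset Xp) (d : Xp → ℂ)
    (h : ∀ e ∈ E, d e ≠ 0 → D.Ok e ∧ (Nm e : ℝ) ≤ Y) : (fun z => ∑ e ∈ E, ch e z * d e) ∈ D.TP Y := by
  have h1 : (fun z => ∑ e ∈ E, ch e z * d e) = ∑ e ∈ E, d e • ch e := by
    funext z
    simp [Finset.sum_apply, mul_comm]
  rw [h1]
  refine Submodule.sum_mem _ fun e he => ?_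
  by_cases hd : d e = 0
  · rw [hd, zero_smul]
    exact Submodule.zero_mem _
  · exact Submodule.smul_mem _ _ (Dat.ch_mem (h e he hd).1 (h e he hd).2)

/-- Span induction (`mem_E`, `sum_ite_eq`). -/
theorem Dat.rep (hf : f ∈ D.TP Y) : ∃ d : Xp → ℂ, ∀ z, f z = ∑ e ∈ D.E Y, ch e z * d e := by
  classical
  unfold Dat.TP at hf
  induction hf using Submodule.span_induction with
  | mem x hx =>
    obtain ⟨e, he, rfl⟩ := hx
    refine ⟨fun e' => if e' = e then 1 else 0, fun z => ?_⟩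
    have h1 : e ∈ D.E Y := D.mem_E.2 he
    simp [h1]
  | zero => exact ⟨0, fun z => by simp⟩
  | add x y hx hy h1 h2 =>
    obtain ⟨d, hd⟩ := h1
    obtain ⟨d', hd'⟩ := h2
    exact ⟨d + d', fun z => by simp [hd, hd', mul_add, sum_add_distrib]⟩
  | smul r x hx h1 =>
    obtain ⟨d, hd⟩ := h1
    refine ⟨r • d, fun z => ?_⟩
    simp only [Pi.smul_apply, smul_eq_mul, hd, mul_sum]
    exact sum_congr rfl fun e _ => by ring

theorem Dat.continuous_of_mem (hf : f ∈ D.TP Y) : Continuous f := by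
  obtain ⟨d, hd⟩ := Dat.rep hf
  rw [show f = fun z => ∑ e ∈ D.E Y, ch e z * d e from funext hd]
  exact continuous_finsetSum _ fun e _ => (continuous_ch e).mul continuous_const

/-- `rep`, `ch_add`, `int_ch`, `Nm_neg`. -/
theorem Dat.int_ch_eq_zero (hf : f ∈ D.TP Y) {e : Xp} (he : Y < Nm e) : ∫ z, ch e z * f z ∂mu = 0 := by
  obtain ⟨d, hd⟩ := Dat.rep hf
  have h1 : ∀ z, ch e z * f z = ∑ e' ∈ D.E Y, ch (e + e') z * d e' := fun z => by
    rw [hd, mul_sum]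
    exact sum_congr rfl fun e' _ => by rw [ch_add, mul_assoc]
  simp only [h1]
  rw [integral_finsetSum _ fun e' _ => ci (f := fun z => ch (e + e') z * d e')
    ((continuous_ch _).mul continuous_const)]
  refine sum_eq_zero fun e' he' => ?_
  rw [integral_mul_const, int_ch, if_neg, zero_mul]
  intro h0
  have h2 : e = -e' := eq_neg_of_add_eq_zero_left h0
  rw [h2, Nm_neg] at he
  exact absurd (D.mem_E.1 he').2 (not_le.2 he)

/-- Points in the same class modulo `D.G` are well spaced: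
`‖ch e u - ch e' u‖ = ‖ch (e - e') u - 1‖ ≥ c₀ / √(Nm e * Nm e')`. -/
theorem Dat.spaced (D : Dat) : ∃ c₀ : ℝ, 0 < c₀ ∧ ∀ (Y : ℝ) (e e' : Xp), e ∈ D.E Y → e' ∈ D.E Y →
    e ≠ e' → e - e' ∈ D.G → c₀ / Y ≤ ‖ch e D.u - ch e' D.u‖ := by
  obtain ⟨c₀, hc, h⟩ := D.sep
  refine ⟨c₀, hc, fun Y e e' he he' hne hG => ?_⟩
  obtain ⟨he, hN⟩ := D.mem_E.1 he
  obtain ⟨he', hN'⟩ := D.mem_E.1 he'
  have hok : D.Ok (e - e') := by
    rw [sub_eq_add_neg]
    exact he.add he'.neg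
  have h1 := h _ hG (sub_ne_zero.2 hne) hok
  have hY : (1 : ℝ) ≤ Y := le_trans (by exact_mod_cast he.pm.one_le) hN
  have h2 : ((Nm (e - e') : ℕ) : ℝ) ≤ Y ^ 2 := by
    have h3 : Nm (e - e') ≤ Nm e * Nm e' := by
      rw [sub_eq_add_neg, ← Nm_neg e']
      exact he.pm.Nm_add_le he'.pm.neg
    have h4 : ((Nm (e - e') : ℕ) : ℝ) ≤ (Nm e : ℝ) * Nm e' := by exact_mod_cast h3
    rw [sq]
    exact h4.trans (mul_le_mul hN hN' (Nat.cast_nonneg _) (by linarith))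
  have h5 : √(Nm (e - e') : ℝ) ≤ Y := Real.sqrt_le_iff.2 ⟨by linarith, h2⟩
  have h6 : ch e D.u - ch e' D.u = (ch (e - e') D.u - 1) * ch e' D.u := by
    rw [sub_mul, ← ch_add, sub_add_cancel, one_mul]
  rw [h6, norm_mul, norm_ch, mul_one, div_le_iff₀ (by linarith), mul_comm]
  exact h1.trans (mul_le_mul_of_nonneg_right h5 (norm_nonneg _))

/-- The spacing parameter used in the large sieve. -/
theorem btp_delta {c₀ Y : ℝ} (hc : 0 < c₀) (hY : 1 ≤ Y) (H : ℕ) : ∃ δ : ℝ, 0 < δ ∧ δ ≤ 1 ∧ δ ≤ c₀ / Y ∧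
    H * δ ≤ 1 ∧ 60 / δ ≤ 60 * (1 / c₀ + 1) * max (H : ℝ) Y := by
  have hM : Y ≤ max (H : ℝ) Y := le_max_right _ _
  have hM' : (H : ℝ) ≤ max (H : ℝ) Y := le_max_left _ _
  generalize max (H : ℝ) Y = M at hM hM'
  have hM0 : 0 < M := by linarith
  have hc1 : 0 < 1 / c₀ + 1 := by positivity
  have hc2 : 1 ≤ 1 / c₀ + 1 := by
    have : 0 < 1 / c₀ := by positivity
    linarith
  have hK : M ≤ (1 / c₀ + 1) * M := le_mul_of_one_le_left hM0.le hc2
  have hK0 : 0 < (1 / c₀ + 1) * M := by positivity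
  refine ⟨1 / ((1 / c₀ + 1) * M), by positivity, ?_, ?_, ?_, ?_⟩
  · rw [div_le_one hK0]
    linarith
  · rw [div_le_div_iff₀ hK0 (by linarith)]
    have h1 : c₀ * ((1 / c₀ + 1) * M) = M + c₀ * M := by field_simp
    have h2 : 0 ≤ c₀ * M := by positivity
    linarith
  · rw [mul_one_div, div_le_one hK0]
    linarith
  · rw [div_div_eq_mul_div, div_one, mul_assoc]

open Classical in
/-- The fibre of the quotient map. -/
def btp_fib (D : Dat) (E : Finset Xp) (q : Xp ⧸ D.G) : Finset Xp :=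
  E.filter fun e => (QuotientAddGroup.mk e : Xp ⧸ D.G) = q

theorem btp_sub (D : Dat) (E : Finset Xp) (q : Xp ⧸ D.G) : btp_fib D E q ⊆ E := by
  classical
  intro e he
  unfold btp_fib at he
  exact (mem_filter.1 he).1

theorem btp_mem (D : Dat) {E : Finset Xp} {q : Xp ⧸ D.G} {e e' : Xp} (he : e ∈ btp_fib D E q)
    (he' : e' ∈ btp_fib D E q) : e - e' ∈ D.G := by
  classical
  unfold btp_fib at he he'
  have h1 := (mem_filter.1 he).2.trans (mem_filter.1 he').2.symm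
  exact QuotientAddGroup.eq_iff_sub_mem.1 h1

theorem btp_sum (D : Dat) [Fintype (Xp ⧸ D.G)] {M : Type} [AddCommMonoid M] (E : Finset Xp) (F : Xp → M) :
    ∑ e ∈ E, F e = ∑ q : Xp ⧸ D.G, ∑ e ∈ btp_fib D E q, F e := by
  classical
  unfold btp_fib
  convert (sum_fiberwise E (fun e => (QuotientAddGroup.mk e : Xp ⧸ D.G)) F).symm

/-- Split `E` into the fibres of the quotient map to `Xp ⧸ D.G` (a finite type as `D.G.index ≠ 0`);
`ls_dual` on each fibre with `δ = min (c₀ / Y) (1 / max H Y)`, `v e = w * ch e D.u`. -/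
theorem Dat.dual (D : Dat) : ∃ C : ℝ, 0 ≤ C ∧ ∀ (Y : ℝ) (E : Finset Xp) (w : ℂ) (J : Finset ℕ) (N H : ℕ)
    (a : ℕ → ℂ), 1 ≤ Y → E ⊆ D.E Y → ‖w‖ = 1 → (∀ n ∈ J, N ≤ n ∧ n ≤ N + H) →
    ∑ e ∈ E, ‖∑ n ∈ J, a n * (w * ch e D.u) ^ n‖ ^ 2 ≤ C * max (H : ℝ) Y * ∑ n ∈ J, ‖a n‖ ^ 2 := by
  obtain ⟨c₀, hc, h⟩ := D.spaced
  have : Finite (Xp ⧸ D.G) := Nat.finite_of_card_ne_zero D.idx
  let : Fintype (Xp ⧸ D.G) := Fintype.ofFinite _
  refine ⟨Fintype.card (Xp ⧸ D.G) * (60 * (1 / c₀ + 1)), by positivity, ?_⟩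
  intro Y E w J N H a hY hE hw hJ
  obtain ⟨δ, h0, h1, h2, h3, h4⟩ := btp_delta hc hY H
  rw [btp_sum D E]
  have key : ∀ q : Xp ⧸ D.G, ∑ e ∈ btp_fib D E q, ‖∑ n ∈ J, a n * (w * ch e D.u) ^ n‖ ^ 2 ≤
      60 * (1 / c₀ + 1) * max (H : ℝ) Y * ∑ n ∈ J, ‖a n‖ ^ 2 := fun q => by
    refine (ls_dual (btp_fib D E q) (fun e => w * ch e D.u) (fun e _ => by
      rw [norm_mul, hw, norm_ch, mul_one]) h0 h1 (fun e he e' he' hne => ?_) J N H hJ h3 a).trans
      (mul_le_mul_of_nonneg_right h4 (sum_nonneg fun n _ => by positivity))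
    rw [← mul_sub, norm_mul, hw, one_mul]
    exact h2.trans (h Y e e' (hE (btp_sub D E q he)) (hE (btp_sub D E q he')) hne (btp_mem D he he'))
  refine (sum_le_sum fun q _ => key q).trans (le_of_eq ?_)
  rw [sum_const, card_univ, nsmul_eq_mul]
  ring

/-- The same splitting, Cauchy-Schwarz over the classes, `ls_primal`, `ch_z`. (Or duality from `dual`.) -/
theorem Dat.t2_coef (D : Dat) : ∃ C : ℝ, 0 ≤ C ∧ ∀ (Y : ℝ) (N : ℕ) (d : Xp → ℂ), 1 ≤ Y →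
    ∑ j ∈ Ico N (2 * N), ‖∑ e ∈ D.E Y, ch e (D.z j) * d e‖ ^ 2 ≤
      C * max (N : ℝ) Y * ∑ e ∈ D.E Y, ‖d e‖ ^ 2 := by
  obtain ⟨c₀, hc, h⟩ := D.spaced
  have : Finite (Xp ⧸ D.G) := Nat.finite_of_card_ne_zero D.idx
  let : Fintype (Xp ⧸ D.G) := Fintype.ofFinite _
  refine ⟨Fintype.card (Xp ⧸ D.G) * (60 * (1 / c₀ + 1)), by positivity, ?_⟩
  intro Y N d hY
  obtain ⟨δ, h0, h1, h2, h3, h4⟩ := btp_delta hc hY N
  have key : ∀ q : Xp ⧸ D.G, ∑ j ∈ Ico N (2 * N), ‖∑ e ∈ btp_fib D (D.E Y) q, ch e (D.z j) * d e‖ ^ 2 ≤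
      60 * (1 / c₀ + 1) * max (N : ℝ) Y * ∑ e ∈ btp_fib D (D.E Y) q, ‖d e‖ ^ 2 := fun q => by
    have h5 := ls_primal (btp_fib D (D.E Y) q) (fun e => ch e D.u) (fun e _ => norm_ch _ _) h0 h1
      (fun e he e' he' hne => h2.trans
        (h Y e e' (btp_sub D _ q he) (btp_sub D _ q he') hne (btp_mem D he he')))
      (Ico N (2 * N)) N N (fun n hn => by rw [mem_Ico] at hn; omega) h3 (fun e => d e * ch e D.ζ)
    have h6 : ∀ (j : ℕ) (e : Xp), ch e (D.z j) * d e = d e * ch e D.ζ * ch e D.u ^ j := fun j e => by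
      rw [D.ch_z]
      ring
    simp only [norm_mul, norm_ch, mul_one] at h5
    simp only [h6]
    exact h5.trans (mul_le_mul_of_nonneg_right h4 (sum_nonneg fun n _ => by positivity))
  have h7 : ∀ j : ℕ, ‖∑ e ∈ D.E Y, ch e (D.z j) * d e‖ ^ 2 ≤ Fintype.card (Xp ⧸ D.G) *
      ∑ q : Xp ⧸ D.G, ‖∑ e ∈ btp_fib D (D.E Y) q, ch e (D.z j) * d e‖ ^ 2 := fun j => by
    rw [btp_sum D (D.E Y), ← card_univ]
    exact (pow_le_pow_left₀ (norm_nonneg _) (norm_sum_le _ _) 2).trans sq_sum_le_card_mul_sum_sq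
  refine (sum_le_sum fun j _ => h7 j).trans ?_
  rw [← mul_sum, sum_comm, mul_assoc, mul_assoc, btp_sum D (D.E Y) fun e => ‖d e‖ ^ 2, ← mul_assoc (60 * _),
    mul_sum (s := univ) (a := 60 * (1 / c₀ + 1) * max (N : ℝ) Y)]
  exact mul_le_mul_of_nonneg_left (sum_le_sum fun q _ => key q) (Nat.cast_nonneg _)

/-- `rep`, `t2_coef`, `parseval`. -/
theorem Dat.t2 (D : Dat) : ∃ C : ℝ, 0 ≤ C ∧ ∀ (N : ℕ) (f : Tor → ℂ), 1 ≤ N → f ∈ D.TP N →
    ∑ j ∈ Ico N (2 * N), ‖f (D.z j)‖ ^ 2 ≤ C * N * ∫ z, ‖f z‖ ^ 2 ∂mu := by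
  obtain ⟨C, hC, h⟩ := D.t2_coef
  refine ⟨C, hC, fun N f hN hf => ?_⟩
  obtain ⟨d, hd⟩ := Dat.rep hf
  have h1 := h N N d (by exact_mod_cast hN)
  simp only [hd]
  rw [parseval]
  rwa [max_self] at h1

end Pool.Agent.Lib.MP_bcfefa_nt
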