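import Pool.Agent.Lib.MP_bcfefa_nt.Def

set_option autoImplicit false

noncomputable section

namespace Pool.Agent.Lib.MP_bcfefa_nt

open Complex Finset MeasureTheory Pool.Agent.Lib.MP_03e5d0_nt
open scoped Real ContDiff

/-! Characters of the torus, norms of exponent vectors, integration. -/

/-- The support consists of primes. -/
def Pm (e : Xp) : Prop := ∀ p ∈ e.support, p.Prime

variable {e e' : Xp} {z y : Tor} {p : ℕ}

theorem co_mul (z y : Tor) (p : ℕ) : co (z * y) p = co z p * co y p := by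
  exact Circle.coe_mul _ _

theorem co_one (p : ℕ) : co 1 p = 1 := by
  exact Circle.coe_one

theorem norm_co (z : Tor) (p : ℕ) : ‖co z p‖ = 1 := by
  exact Circle.norm_coe _

theorem co_ne (z : Tor) (p : ℕ) : co z p ≠ 0 := by
  exact Circle.coe_ne_zero _

theorem conj_co (z : Tor) (p : ℕ) : starRingEnd ℂ (co z p) = (co z p)⁻¹ := by
  rw [Complex.inv_def, Complex.normSq_eq_norm_sq, norm_co]
  simp

theorem continuous_co (p : ℕ) : Continuous fun z : Tor => co z p := by
  exact continuous_subtype_val.comp (continuous_apply (A := fun _ : ℕ => Circle) p)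

/-- A point with prescribed coordinates. -/
theorem exists_co (w : ℕ → ℂ) (hw : ∀ p, ‖w p‖ = 1) : ∃ z : Tor, ∀ p, co z p = w p := by
  exact ⟨fun p => ⟨w p, mem_sphere_zero_iff_norm.2 (hw p)⟩, fun _ => rfl⟩

theorem ch_eq_prod {S : Finset ℕ} (h : e.support ⊆ S) (z : Tor) : ch e z = ∏ p ∈ S, co z p ^ e p := by
  exact Finsupp.prod_of_support_subset e h _ fun _ _ => zpow_zero _

theorem ch_zero (z : Tor) : ch 0 z = 1 := by
  exact Finsupp.prod_zero_index

theorem ch_add (e e' : Xp) (z : Tor) : ch (e + e') z = ch e z * ch e' z := by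
  exact Finsupp.prod_add_index' (fun _ => zpow_zero _) fun p _ _ => zpow_add₀ (co_ne z p) _ _

theorem ch_single (p : ℕ) (k : ℤ) (z : Tor) : ch (Finsupp.single p k) z = co z p ^ k := by
  exact Finsupp.prod_single_index (zpow_zero _)

theorem norm_ch (e : Xp) (z : Tor) : ‖ch e z‖ = 1 := by
  rw [ch_eq_prod (Subset.refl _), norm_prod]
  exact prod_eq_one fun p _ => by rw [norm_zpow, norm_co, one_zpow]

theorem ch_neg (e : Xp) (z : Tor) : ch (-e) z = starRingEnd ℂ (ch e z) := by
  rw [ch_eq_prod (S := e.support) (by simp), ch_eq_prod (Subset.refl _), map_prod]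
  exact prod_congr rfl fun p _ => by rw [map_zpow₀, conj_co, Finsupp.neg_apply, zpow_neg, inv_zpow]

theorem ch_mul (e : Xp) (z y : Tor) : ch e (z * y) = ch e z * ch e y := by
  simp only [ch_eq_prod (Subset.refl e.support), co_mul, mul_zpow, prod_mul_distrib]

theorem ch_pow (e : Xp) (z : Tor) (n : ℕ) : ch e (z ^ n) = ch e z ^ n := by
  induction n with
  | zero => simp [ch_eq_prod (Subset.refl e.support), co_one]
  | succ n ih => rw [pow_succ, ch_mul, ih, pow_succ]

theorem ch_nsmul (n : ℕ) (e : Xp) (z : Tor) : ch (n • e) z = ch e z ^ n := by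
  induction n with
  | zero => simp [ch_zero]
  | succ n ih => rw [succ_nsmul, ch_add, ih, pow_succ]

theorem continuous_ch (e : Xp) : Continuous (ch e) := by
  have : ch e = fun z => ∏ p ∈ e.support, co z p ^ e p := funext (ch_eq_prod (Subset.refl _))
  rw [this]
  exact continuous_finsetProd _ fun p _ => (continuous_co p).zpow₀ _ fun z => Or.inl (co_ne z p)

theorem dep_ch {S : Set ℕ} (h : ∀ p ∈ e.support, p ∈ S) : Dep S (ch e) := by
  intro z z' hz
  rw [ch_eq_prod (Subset.refl _), ch_eq_prod (Subset.refl _)]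
  exact prod_congr rfl fun p hp => by rw [hz p (h p hp)]

theorem Dep.mono {E : Type} {S S' : Set ℕ} {f : Tor → E} (h : Dep S f) (hS : S ⊆ S') : Dep S' f := by
  exact fun z z' hz => h z z' fun p hp => hz p (hS hp)

theorem Nm_eq_prod {S : Finset ℕ} (h : e.support ⊆ S) : Nm e = ∏ p ∈ S, p ^ (e p).natAbs := by
  exact Finsupp.prod_of_support_subset e h _ fun _ _ => pow_zero _

theorem Nm_zero : Nm 0 = 1 := by
  exact Finsupp.prod_zero_index

theorem Nm_neg (e : Xp) : Nm (-e) = Nm e := by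
  rw [Nm_eq_prod (S := e.support) (by simp), Nm_eq_prod (Subset.refl _)]
  simp

theorem Nm_single (p : ℕ) (k : ℤ) : Nm (Finsupp.single p k) = p ^ k.natAbs := by
  exact Finsupp.prod_single_index (pow_zero _)

theorem Nm_nsmul (n : ℕ) (e : Xp) : Nm (n • e) = Nm e ^ n := by
  rw [Nm_eq_prod (S := e.support) Finsupp.support_smul, Nm_eq_prod (Subset.refl _), ← prod_pow]
  exact prod_congr rfl fun p _ => by
    rw [← pow_mul, Finsupp.smul_apply, nsmul_eq_mul, Int.natAbs_mul, Int.natAbs_natCast, mul_comm]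

theorem Nm_add_disj (h : Disjoint e.support e'.support) : Nm (e + e') = Nm e * Nm e' := by
  exact Finsupp.prod_add_index_of_disjoint h _

theorem Pm.add (h : Pm e) (h' : Pm e') : Pm (e + e') := by
  exact fun p hp => (mem_union.1 (Finsupp.support_add hp)).elim (h p) (h' p)

theorem Pm.neg (h : Pm e) : Pm (-e) := by
  exact fun p hp => h p (by simpa using hp)

theorem Pm.one_le (h : Pm e) : 1 ≤ Nm e := by
  rw [Nm_eq_prod (Subset.refl _)]
  exact one_le_prod' fun p hp => Nat.one_le_pow _ _ (h p hp).pos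

theorem Pm.Nm_add_le (h : Pm e) (h' : Pm e') : Nm (e + e') ≤ Nm e * Nm e' := by
  rw [Nm_eq_prod Finsupp.support_add, Nm_eq_prod (e := e) subset_union_left,
    Nm_eq_prod (e := e') subset_union_right, ← prod_mul_distrib]
  refine prod_le_prod' fun p hp => ?_
  rw [← pow_add]
  exact Nat.pow_le_pow_right ((mem_union.1 hp).elim (h p) (h' p)).pos (Int.natAbs_add_le _ _)

theorem Pm.pow_le (h : Pm e) (p : ℕ) : p ^ (e p).natAbs ≤ Nm e := by
  by_cases hp : p ∈ e.support
  · rw [Nm_eq_prod (Subset.refl _)]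
    exact single_le_prod' (f := fun p => p ^ (e p).natAbs)
      (fun q hq => Nat.one_le_pow _ _ (h q hq).pos) hp
  · rw [Finsupp.notMem_support_iff.1 hp]
    exact h.one_le

theorem Pm.le_Nm (h : Pm e) (hp : p ∈ e.support) : p ≤ Nm e := by
  exact (Nat.le_self_pow (Int.natAbs_ne_zero.2 (Finsupp.mem_support_iff.1 hp)) p).trans (h.pow_le p)

/-- `k < 2 ^ k ≤ p ^ k ≤ Nm e ≤ Y`. -/
theorem mem_EE {S : Finset ℕ} (hS : ∀ p ∈ S, p.Prime) {Y : ℝ} :
    e ∈ EE S Y ↔ e.support ⊆ S ∧ (Nm e : ℝ) ≤ Y := by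
  rw [EE, mem_filter, mem_finsupp_iff]
  refine ⟨fun h => ⟨h.1.1, h.2⟩, fun h => ⟨⟨h.1, fun p hp => ?_⟩, h.2⟩⟩
  have h1 : Pm e := fun q hq => hS q (h.1 hq)
  have h2 := (Nat.lt_pow_self (hS p hp).one_lt).le.trans ((h1.pow_le p).trans (Nat.le_floor h.2))
  rw [mem_Icc]
  omega

theorem mem_prs {P : Set ℕ} (hP : ∀ p ∈ P, p.Prime) {Λ : ℝ} :
    p ∈ prs P Λ ↔ p ∈ P ∧ Real.log p ≤ Λ := by
  classical
  rw [prs, mem_filter, mem_range, Nat.lt_succ_iff, Nat.le_floor_iff (Real.exp_pos Λ).le, and_comm]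
  exact and_congr_right fun hp =>
    (Real.log_le_iff_le_exp (by exact_mod_cast (hP p hp).pos)).symm

theorem Dat.mem_pr (D : Dat) {Λ : ℝ} : p ∈ D.pr Λ ↔ p ∈ D.P ∧ Real.log p ≤ Λ := by
  exact mem_prs D.prime

theorem Dat.pr_prime (D : Dat) (Λ : ℝ) : ∀ p ∈ D.pr Λ, p.Prime := by
  exact fun p hp => D.prime p (D.mem_pr.1 hp).1

theorem Dat.pr_mono (D : Dat) {Λ Λ' : ℝ} (h : Λ ≤ Λ') : D.pr Λ ⊆ D.pr Λ' := by
  exact fun p hp => D.mem_pr.2 ⟨(D.mem_pr.1 hp).1, (D.mem_pr.1 hp).2.trans h⟩

/-- `1 / 2 < log 2`. -/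
theorem Dat.pr_eq_empty (D : Dat) {Λ : ℝ} (h : Λ ≤ 1 / 2) : D.pr Λ = ∅ := by
  refine eq_empty_of_forall_notMem fun p hp => ?_
  have h1 : (2 : ℝ) ≤ p := by exact_mod_cast (D.pr_prime Λ p hp).two_le
  have h2 := Real.log_le_log two_pos h1
  have h3 := Real.log_two_gt_d9
  have h4 := (D.mem_pr.1 hp).2
  linarith

theorem Dat.Ok.pm {D : Dat} (h : D.Ok e) : Pm e := by
  exact fun p hp => D.prime p (h p hp)

theorem Dat.Ok.add {D : Dat} (h : D.Ok e) (h' : D.Ok e') : D.Ok (e + e') := by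
  exact fun p hp => (mem_union.1 (Finsupp.support_add hp)).elim (h p) (h' p)

theorem Dat.Ok.neg {D : Dat} (h : D.Ok e) : D.Ok (-e) := by
  exact fun p hp => h p (by simpa using hp)

theorem Dat.Ok.nsmul {D : Dat} (h : D.Ok e) (n : ℕ) : D.Ok (n • e) := by
  exact fun p hp => h p (Finsupp.support_smul hp)

theorem Dat.mem_E (D : Dat) {Y : ℝ} : e ∈ D.E Y ↔ D.Ok e ∧ (Nm e : ℝ) ≤ Y := by
  rw [Dat.E, mem_EE (D.pr_prime _)]
  refine and_congr_left fun hY => ⟨fun h p hp => (D.mem_pr.1 (h hp)).1, fun h p hp => ?_⟩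
  have h1 : (p : ℝ) ≤ Nm e := by exact_mod_cast h.pm.le_Nm hp
  exact D.mem_pr.2 ⟨h p hp, Real.log_le_log (by exact_mod_cast (h.pm p hp).pos) (h1.trans hY)⟩

theorem Dat.ch_z (D : Dat) (e : Xp) (j : ℕ) : ch e (D.z j) = ch e D.ζ * ch e D.u ^ j := by
  rw [Dat.z, ch_mul, ch_pow]

/-- Continuous functions on the compact torus are integrable. -/
theorem ci {E : Type} [NormedAddCommGroup E] {f : Tor → E} (hf : Continuous f) : Integrable f mu := by
  exact hf.integrable_of_hasCompactSupport (HasCompactSupport.of_compactSpace f)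

/-- Translate by a point `y` whose only nontrivial coordinate is at `p`, with `co y p ^ e p = -1`
(`exists_co`, `co y p = exp (π i / e p)`); `integral_mul_left_eq_self` gives `∫ = -∫`. -/
theorem int_ch_mul {S : Set ℕ} {f : Tor → ℂ} (hf : Dep S f) (hp : p ∉ S) (he : e p ≠ 0) :
    ∫ z, ch e z * f z ∂mu = 0 := by
  classical
  obtain ⟨y, hy⟩ := exists_co (fun q => if q = p then cexp ((π / e p : ℝ) * I) else 1) fun q => by
    split_ifs
    · exact norm_exp_ofReal_mul_I _
    · exact norm_one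
  have h1 : ch e y = -1 := by
    rw [ch_eq_prod (Subset.refl _), prod_eq_single p, hy, if_pos rfl, ← Complex.exp_int_mul,
      ← Complex.exp_pi_mul_I]
    · congr 1
      have : ((e p : ℤ) : ℂ) ≠ 0 := by exact_mod_cast he
      push_cast
      field_simp
    · intro q _ hq
      rw [hy, if_neg hq, one_zpow]
    · exact fun h => absurd (Finsupp.mem_support_iff.2 he) h
  have h2 : ∀ z, f (y * z) = f z := fun z => hf _ _ fun q hq => by
    rw [co_mul, hy, if_neg (fun h : q = p => hp (h ▸ hq)), one_mul]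
  have h3 := integral_mul_left_eq_self (μ := mu) (fun z => ch e z * f z) y
  simp only [ch_mul, h1, h2, neg_mul, one_mul, integral_neg] at h3
  exact self_eq_neg.1 h3.symm

theorem int_ch (e : Xp) : ∫ z, ch e z ∂mu = if e = 0 then 1 else 0 := by
  split_ifs with h
  · simp [h, ch_zero]
  · obtain ⟨p, hp⟩ := Finsupp.ne_iff.1 h
    simpa using int_ch_mul (S := ∅) (f := fun _ => 1) (fun _ _ _ => rfl) (Set.notMem_empty p) hp

/-- Let `r y` have the coordinates of `y` in `S` and `1` outside (`r` is continuous). Then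
`∫ f g = ∫_x f (r y * x) g (r y * x) = ∫_x f (y * x) g x` for every `y`; integrate over `y` and use
`integral_integral_swap` and invariance. -/
theorem int_indep {S : Set ℕ} {f g : Tor → ℝ} (hf : Continuous f) (hg : Continuous g) (hS : Dep S f)
    (hS' : Dep Sᶜ g) : ∫ z, f z * g z ∂mu = (∫ z, f z ∂mu) * ∫ z, g z ∂mu := by
  classical
  have h1 : ∀ y, ∫ x, f (y * x) * g x ∂mu = ∫ z, f z * g z ∂mu := fun y => by
    obtain ⟨w, hw⟩ := exists_co (fun q => if q ∈ S then co y q else 1) fun q => by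
      split_ifs
      · exact norm_co _ _
      · exact norm_one
    rw [← integral_mul_left_eq_self (μ := mu) (fun z => f z * g z) w]
    refine integral_congr_ae (Filter.Eventually.of_forall fun x => ?_)
    have a1 : f (y * x) = f (w * x) := hS _ _ fun q hq => by rw [co_mul, co_mul, hw, if_pos hq]
    have a2 : g x = g (w * x) := hS' _ _ fun q hq => by rw [co_mul, hw, if_neg hq, one_mul]
    simp only [a1, ← a2]
  have h2 : Integrable (Function.uncurry fun y x : Tor => f (y * x) * g x) (mu.prod mu) :=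
    Continuous.integrable_of_hasCompactSupport (by unfold Function.uncurry; fun_prop)
      (HasCompactSupport.of_compactSpace _)
  have h3 := integral_integral_swap h2
  simp only [h1, integral_const, probReal_univ, one_smul, integral_mul_const,
    integral_mul_right_eq_self, integral_const_mul] at h3
  exact h3

theorem int_prod {ι : Type} (T : Finset ι) (S : ι → Finset ℕ) (f : ι → Tor → ℝ)
    (hd : ∀ i ∈ T, ∀ i' ∈ T, i ≠ i' → Disjoint (S i) (S i')) (hf : ∀ i ∈ T, Continuous (f i))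
    (hS : ∀ i ∈ T, Dep (S i) (f i)) : ∫ z, ∏ i ∈ T, f i z ∂mu = ∏ i ∈ T, ∫ z, f i z ∂mu := by
  classical
  induction T using Finset.induction_on with
  | empty => simp
  | insert i T hi ih =>
    simp only [prod_insert hi]
    rw [← ih (fun a ha b hb => hd a (mem_insert_of_mem ha) b (mem_insert_of_mem hb))
      (fun a ha => hf a (mem_insert_of_mem ha)) fun a ha => hS a (mem_insert_of_mem ha)]
    refine int_indep (hf i (mem_insert_self _ _))
      (continuous_finsetProd _ fun a ha => hf a (mem_insert_of_mem ha)) (hS i (mem_insert_self _ _))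
      fun z z' hz => prod_congr rfl fun a ha => hS a (mem_insert_of_mem ha) z z' fun q hq => ?_
    exact hz q fun h => disjoint_left.1 (hd i (mem_insert_self _ _) a (mem_insert_of_mem ha)
      fun e => hi (e ▸ ha)) h hq

/-- Expand the square as a complex number; the term `(e, e')` is
`∫ ch (e - e') * (R * H e * conj (H e'))`, which vanishes for `e ≠ e'` by `int_ch_mul`. -/
theorem int_orth {S : Set ℕ} (E : Finset Xp) (hE : ∀ e ∈ E, ∀ p ∈ S, e p = 0) {R : Tor → ℝ}
    (hR : Continuous R) (hRS : Dep S R) {H : Xp → Tor → ℂ} (hH : ∀ e ∈ E, Continuous (H e))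
    (hHS : ∀ e ∈ E, Dep S (H e)) :
    ∫ z, R z * ‖∑ e ∈ E, ch e z * H e z‖ ^ 2 ∂mu = ∑ e ∈ E, ∫ z, R z * ‖H e z‖ ^ 2 ∂mu := by
  classical
  apply Complex.ofReal_injective
  rw [ofReal_sum, ← integral_complex_ofReal]
  have hc := continuous_ofReal.comp hR
  have h1 : ∀ z, ((R z * ‖∑ e ∈ E, ch e z * H e z‖ ^ 2 : ℝ) : ℂ) =
      ∑ e ∈ E, ∑ e' ∈ E, ch (e + -e') z * (R z * (H e z * starRingEnd ℂ (H e' z))) := fun z => by
    rw [ofReal_mul, ← normSq_eq_norm_sq, ← mul_conj, map_sum, sum_mul_sum, mul_sum]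
    refine sum_congr rfl fun e _ => ?_
    rw [mul_sum]
    refine sum_congr rfl fun e' _ => ?_
    rw [ch_add, ch_neg, map_mul]
    ring
  have h2 : ∀ e ∈ E, ∀ e' ∈ E, Continuous fun z =>
      ch (e + -e') z * (R z * (H e z * starRingEnd ℂ (H e' z))) := fun e he e' he' =>
    (continuous_ch _).mul (hc.mul ((hH e he).mul (continuous_conj.comp (hH e' he'))))
  simp only [h1]
  rw [integral_finsetSum _ fun e he => ci (continuous_finsetSum _ (h2 e he))]
  refine sum_congr rfl fun e he => ?_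
  rw [integral_finsetSum _ fun e' he' => ci (h2 e he e' he'), sum_eq_single e,
    ← integral_complex_ofReal]
  · refine integral_congr_ae (Filter.Eventually.of_forall fun z => ?_)
    simp only [add_neg_cancel, ch_zero, one_mul, mul_conj, normSq_eq_norm_sq, ofReal_mul]
  · intro e' he' hne
    obtain ⟨p, hp⟩ := Finsupp.ne_iff.1 hne
    refine int_ch_mul (S := S) (p := p) (fun z z' hz => ?_)
      (fun h => hp ((hE e' he' p h).trans (hE e he p h).symm)) ?_
    · simp only [hRS z z' hz, hHS e he z z' hz, hHS e' he' z z' hz]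
    · rw [Finsupp.add_apply, Finsupp.neg_apply]
      omega
  · exact fun h => absurd he h

theorem parseval (E : Finset Xp) (d : Xp → ℂ) :
    ∫ z, ‖∑ e ∈ E, ch e z * d e‖ ^ 2 ∂mu = ∑ e ∈ E, ‖d e‖ ^ 2 := by
  simpa using int_orth (S := ∅) E (fun _ _ _ h => h.elim) (R := fun _ => 1) continuous_const
    (fun _ _ _ => rfl) (H := fun e _ => d e) (fun _ _ => continuous_const) fun _ _ _ _ _ => rfl

end Pool.Agent.Lib.MP_bcfefa_nt
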