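import Pool.Agent.Lib.MP_bcfefa_nt.Def

set_option autoImplicit false

noncomputable section

namespace Pool.Agent.Lib.MP_bcfefa_nt

open Complex Finset MeasureTheory Pool.Agent.Lib.MP_03e5d0_nt
open scoped Real ContDiff

/-! General lemmas on truncated exponentials and geometric sums. -/

theorem mbl_hasSum (y : ℝ) : HasSum (fun n : ℕ => y ^ n / n.factorial) (Real.exp y) := by
  rw [Real.exp_eq_exp_ℝ]
  exact NormedSpace.expSeries_div_hasSum_exp y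

theorem mbl_succ (l : ℕ) (y : ℝ) : texp (l + 1) y = texp l y + y ^ (l + 1) / (l + 1).factorial :=
  sum_range_succ _ _

theorem mbl_deriv (l : ℕ) (y : ℝ) : HasDerivAt (texp (l + 1)) (texp l y) y := by
  have key : ∀ n : ℕ, HasDerivAt (fun y : ℝ => y ^ (n + 1) / (n + 1).factorial)
      (y ^ n / n.factorial) y := fun n => by
    refine ((hasDerivAt_pow (n + 1) y).div_const ((n + 1).factorial : ℝ)).congr_deriv ?_
    rw [Nat.factorial_succ, Nat.add_sub_cancel]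
    push_cast
    field_simp
  induction l with
  | zero =>
    rw [funext (mbl_succ 0)]
    simpa [texp] using (key 0).const_add 1
  | succ l ih =>
    rw [funext (mbl_succ (l + 1)), mbl_succ]
    exact ih.add (key (l + 1))

theorem mbl_zero (l : ℕ) : texp l 0 = 1 := by
  simp [texp, sum_range_succ']

theorem mbl_sign (l : ℕ) : ∀ y ≤ (0 : ℝ), 0 ≤ (-1) ^ l * (texp l y - Real.exp y) := by
  induction l with
  | zero => exact fun y hy => by simpa [texp] using hy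
  | succ l ih =>
    intro y hy
    have hd : ∀ y : ℝ, HasDerivAt (fun y => (-1) ^ (l + 1) * (texp (l + 1) y - Real.exp y))
        ((-1) ^ (l + 1) * (texp l y - Real.exp y)) y := fun y =>
      ((mbl_deriv l y).sub (Real.hasDerivAt_exp y)).const_mul _
    have := antitoneOn_of_deriv_nonpos (convex_Iic (0 : ℝ))
      (fun y _ => (hd y).continuousAt.continuousWithinAt)
      (fun y _ => (hd y).differentiableAt.differentiableWithinAt) (fun y hy => by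
        rw [(hd y).deriv, pow_succ]
        have := ih y (Set.mem_Iic.1 (interior_subset hy))
        linarith) hy (Set.mem_Iic.2 le_rfl) hy
    simpa [mbl_zero] using this

/-- `|exp y - texp l y| ≤ |y| ^ (l+1) / (l+1)! * exp |y|` and `(2 |y|) ^ (l+1) / (l+1)! ≤ exp (2 |y|)`. -/
theorem texp_sub_exp (l : ℕ) (y : ℝ) : |texp l y - Real.exp y| ≤ Real.exp (3 * |y|) / 2 ^ (l + 1) := by
  have h1 := (hasSum_nat_add_iff' (l + 1)).2 (mbl_hasSum y)
  have h2 := ((hasSum_nat_add_iff' (l + 1)).2 (mbl_hasSum (2 * |y|))).div_const (2 ^ (l + 1))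
  have h3 := h1.norm_le_of_bounded h2 fun n => by
    rw [Real.norm_eq_abs, abs_div, abs_pow, Nat.abs_cast, mul_pow, pow_add 2,
      le_div_iff₀ (by positivity), div_mul_eq_mul_div]
    refine div_le_div_of_nonneg_right ?_ (by positivity)
    rw [mul_comm, mul_assoc]
    exact le_mul_of_one_le_left (by positivity) (one_le_pow₀ one_le_two)
  rw [abs_sub_comm]
  refine h3.trans ?_
  gcongr
  have : 0 ≤ ∑ i ∈ range (l + 1), (2 * |y|) ^ i / (i.factorial : ℝ) := by positivity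
  have := Real.exp_le_exp.2 (show 2 * |y| ≤ 3 * |y| by linarith [abs_nonneg y])
  linarith

/-- At a minimum of `texp (2 l + 2)` the derivative `texp (2 l + 1)` vanishes; or: for `y < 0`,
`exp y ≤ texp (2 l) y` by induction (integrate twice). -/
theorem texp_pos (l : ℕ) (y : ℝ) : 0 < texp (2 * l) y := by
  rcases le_total y 0 with h | h
  · have := mbl_sign (2 * l) y h
    rw [pow_mul, neg_one_sq, one_pow] at this
    linarith [Real.exp_pos y]
  · rw [texp, sum_range_succ']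
    positivity

theorem abs_texp_le (l : ℕ) (y : ℝ) : |texp l y| ≤ Real.exp |y| := by
  refine (abs_sum_le_sum_abs _ _).trans ?_
  simp only [abs_div, abs_pow, Nat.abs_cast]
  exact Real.sum_le_exp_of_nonneg (abs_nonneg y) _

theorem texp_zero (l : ℕ) : texp l 0 = 1 := by
  exact mbl_zero l

theorem texp_pow_sub (l : ℕ) {e : ℕ} (he : e ≤ 8) (y : ℝ) :
    |texp l (-y / 3) ^ e - Real.exp (-(e / 3 : ℝ) * y)| ≤
      4 / 2 ^ l * (Real.exp (4 * y) + Real.exp (-4 * y)) := by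
  have e1 : Real.exp (-(e / 3 : ℝ) * y) = Real.exp (-y / 3) ^ e := by
    rw [← Real.exp_nat_mul]
    congr 1
    ring
  have e2 : max |texp l (-y / 3)| |Real.exp (-y / 3)| ≤ Real.exp |-y / 3| :=
    max_le (abs_texp_le _ _) (by
      rw [abs_of_pos (Real.exp_pos _)]
      exact Real.exp_le_exp.2 (le_abs_self _))
  have e3 : Real.exp (3 * |-y / 3|) * Real.exp |-y / 3| ^ 7 ≤
      Real.exp (4 * y) + Real.exp (-4 * y) := by
    rw [← Real.exp_nat_mul, ← Real.exp_add]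
    rcases abs_cases (-y / 3) with h | h
    · exact le_add_of_nonneg_of_le (Real.exp_pos _).le (Real.exp_le_exp.2 (by push_cast; linarith))
    · exact le_add_of_le_of_nonneg (Real.exp_le_exp.2 (by push_cast; linarith)) (Real.exp_pos _).le
  rw [e1]
  calc _ ≤ _ := abs_pow_sub_pow_le _ _ e
    _ ≤ Real.exp (3 * |-y / 3|) / 2 ^ (l + 1) * 8 * Real.exp |-y / 3| ^ 7 := by
      refine mul_le_mul (mul_le_mul (texp_sub_exp _ _) (by exact_mod_cast he) (by positivity)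
        (by positivity)) ?_ (by positivity) (by positivity)
      exact (pow_le_pow_left₀ (by positivity) e2 _).trans
        (pow_le_pow_right₀ (Real.one_le_exp (abs_nonneg _)) (by omega))
    _ = 4 / 2 ^ l * (Real.exp (3 * |-y / 3|) * Real.exp |-y / 3| ^ 7) := by ring
    _ ≤ _ := by gcongr

theorem mbl2_le {c : ℕ} (hc : 1 ≤ c) (j : ℕ) :
    (1 : ℝ) / 2 ^ (2 * c * (1 + j)) ≤ 1 / 2 ^ c * (1 / 2) ^ j := by
  rw [one_div_pow, div_mul_div_comm, one_mul, ← pow_add]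
  refine one_div_le_one_div_of_le (by positivity) (pow_le_pow_right₀ one_le_two ?_)
  nlinarith

theorem mbl2_geom {c : ℕ} (hc : 1 ≤ c) (T : Finset ℕ) :
    ∑ j ∈ T, (1 : ℝ) / 2 ^ (2 * c * (1 + j)) ≤ 2 / 2 ^ c := by
  refine (sum_le_sum fun j _ => mbl2_le hc j).trans ?_
  rw [← mul_sum]
  have h := summable_geometric_two.sum_le_tsum T fun j _ => by positivity
  rw [tsum_geometric_two] at h
  calc (1 : ℝ) / 2 ^ c * ∑ j ∈ T, (1 / 2) ^ j ≤ 1 / 2 ^ c * 2 :=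
        mul_le_mul_of_nonneg_left h (by positivity)
    _ = 2 / 2 ^ c := by ring

theorem mpoly_geom (a b : ℕ) : ∑ j ∈ Ico a b, (1 + j : ℝ) / 2 ^ j ≤ 4 * (1 + a) / 2 ^ a := by
  rcases le_total a b with hab | hab
  · have h1 : ∑ j ∈ Ico a b, (1 + j : ℝ) / 2 ^ j + (2 * b + 4) / 2 ^ b = (2 * a + 4) / 2 ^ a := by
      induction b, hab using Nat.le_induction with
      | base => simp
      | succ b hb ih =>
        rw [sum_Ico_succ_top hb, ← ih, pow_succ]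
        push_cast
        field_simp
        ring
    have h2 : (0 : ℝ) ≤ (2 * b + 4) / 2 ^ b := by positivity
    have h3 : (2 * a + 4 : ℝ) / 2 ^ a ≤ 4 * (1 + a) / 2 ^ a :=
      div_le_div_of_nonneg_right (by linarith [Nat.cast_nonneg (α := ℝ) a]) (by positivity)
    linarith
  · rw [Ico_eq_empty_of_le hab, sum_empty]
    positivity

theorem sum_geom36 : ∃ C : ℝ, 0 ≤ C ∧ ∀ i₀ n : ℕ,
    ∑ j ∈ range n, (2 : ℝ) ^ (-(7 * i₀ + 3 * j : ℝ) / 12) * (2 : ℝ) ^ (2 * (j : ℝ) / 9) ≤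
      C * (2 : ℝ) ^ (-(7 * i₀ : ℝ) / 12) := by
  have h0 : (0 : ℝ) ≤ (2 : ℝ) ^ (-1 / 36 : ℝ) := by positivity
  have h1 : (2 : ℝ) ^ (-1 / 36 : ℝ) < 1 := Real.rpow_lt_one_of_one_lt_of_neg one_lt_two (by norm_num)
  refine ⟨(1 - (2 : ℝ) ^ (-1 / 36 : ℝ))⁻¹, inv_nonneg.2 (by linarith), fun i₀ n => ?_⟩
  have h2 : ∀ j : ℕ, (2 : ℝ) ^ (-(7 * i₀ + 3 * j : ℝ) / 12) * (2 : ℝ) ^ (2 * (j : ℝ) / 9) =
      ((2 : ℝ) ^ (-1 / 36 : ℝ)) ^ j * (2 : ℝ) ^ (-(7 * i₀ : ℝ) / 12) := fun j => by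
    rw [← Real.rpow_natCast, ← Real.rpow_mul zero_le_two, ← Real.rpow_add zero_lt_two,
      ← Real.rpow_add zero_lt_two]
    congr 1
    ring
  simp only [h2, ← sum_mul]
  refine mul_le_mul_of_nonneg_right ?_ (by positivity)
  rw [← tsum_geometric_of_lt_one h0 h1]
  exact (summable_geometric_of_lt_one h0 h1).sum_le_tsum _ fun _ _ => by positivity

/-- The depth of the mollifier used for the piece `i₀ + r`. -/
def dep (r : ℕ) : ℕ := r + r / 16

/-- With `r = 16 k + e`: `1 + dep r ≤ 17 (k + 1) ≤ 17 * 2 ^ k`. -/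
theorem dep_le (r : ℕ) : (1 + dep r : ℝ) * 2 ^ r ≤ 17 * 2 ^ dep r := by
  have h1 : 1 + dep r ≤ 17 * 2 ^ (r / 16) := by
    have := Nat.lt_two_pow_self (n := r / 16)
    unfold dep
    omega
  have h2 : (1 + dep r : ℝ) ≤ 17 * 2 ^ (r / 16) := by exact_mod_cast h1
  calc (1 + dep r : ℝ) * 2 ^ r ≤ 17 * 2 ^ (r / 16) * 2 ^ r := by gcongr
    _ = 17 * 2 ^ dep r := by
      rw [dep, pow_add]
      ring

/-- `11 * dep r / 8 - 3 r / 2 ≤ -5 r / 128`. -/
theorem sum_dep : ∃ C : ℝ, 0 ≤ C ∧ ∀ n : ℕ,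
    ∑ r ∈ range n, (2 : ℝ) ^ (11 * (dep r : ℝ) / 8 - 3 * (r : ℝ) / 2) * √(r + 1) ≤ C := by
  set q : ℝ := (2 : ℝ) ^ (-(5 / 128 : ℝ)) with hq
  have hq0 : 0 < q := by positivity
  have hq1 : q < 1 := Real.rpow_lt_one_of_one_lt_of_neg one_lt_two (by norm_num)
  have hs : Summable fun r : ℕ => ((r : ℝ) ^ 1 * q ^ r + q ^ r) :=
    (summable_pow_mul_geometric_of_norm_lt_one 1 (by rwa [Real.norm_of_nonneg hq0.le])).add
      (summable_geometric_of_lt_one hq0.le hq1)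
  refine ⟨∑' r : ℕ, ((r : ℝ) ^ 1 * q ^ r + q ^ r), tsum_nonneg fun r => by positivity, fun n =>
    (sum_le_sum fun r _ => ?_).trans (hs.sum_le_tsum _ fun r _ => by positivity)⟩
  have h1 : (dep r : ℝ) ≤ r + r / 16 := by
    have := Nat.cast_div_le (α := ℝ) (m := r) (n := 16)
    rw [dep]
    push_cast at this ⊢
    linarith
  have h2 : (2 : ℝ) ^ (11 * (dep r : ℝ) / 8 - 3 * (r : ℝ) / 2) ≤ q ^ r := by
    rw [hq, ← Real.rpow_mul_natCast two_pos.le]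
    exact Real.rpow_le_rpow_of_exponent_le one_le_two (by linarith)
  have h3 : √((r : ℝ) + 1) ≤ r + 1 := by
    have : (0 : ℝ) ≤ r := Nat.cast_nonneg r
    exact Real.sqrt_le_iff.2 ⟨by positivity, by nlinarith⟩
  calc _ ≤ q ^ r * (r + 1) := by gcongr
    _ = _ := by ring

theorem mf3b_bar {Z : ℝ} {J : ℕ} (i₀ : ℕ) (hZ : 1 ≤ Z) (hJ : (2 : ℝ) ^ J ≤ 2 * Z) :
    bar i₀ J * Z ^ (1 / 8 : ℝ) ≤ 2 * ((2 : ℝ) ^ (7 * (i₀ : ℝ) / 8) * √Z) := by
  have h1 : bar i₀ J = (2 : ℝ) ^ (7 * (i₀ : ℝ) / 8) * ((2 : ℝ) ^ J) ^ (3 / 8 : ℝ) := by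
    unfold bar
    rw [← Real.rpow_natCast, ← Real.rpow_mul zero_le_two, ← Real.rpow_add two_pos]
    congr 1
    ring
  have h2 : ((2 : ℝ) ^ J) ^ (3 / 8 : ℝ) ≤ 2 * Z ^ (3 / 8 : ℝ) := by
    refine (Real.rpow_le_rpow (by positivity) hJ (by norm_num)).trans ?_
    rw [Real.mul_rpow zero_le_two (by linarith)]
    refine mul_le_mul_of_nonneg_right ?_ (by positivity)
    calc (2 : ℝ) ^ (3 / 8 : ℝ) ≤ 2 ^ (1 : ℝ) :=
          Real.rpow_le_rpow_of_exponent_le one_le_two (by norm_num)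
      _ = 2 := Real.rpow_one 2
  have h3 : √Z = Z ^ (3 / 8 : ℝ) * Z ^ (1 / 8 : ℝ) := by
    rw [Real.sqrt_eq_rpow, ← Real.rpow_add (by linarith)]
    norm_num
  rw [h1, h3]
  calc (2 : ℝ) ^ (7 * (i₀ : ℝ) / 8) * ((2 : ℝ) ^ J) ^ (3 / 8 : ℝ) * Z ^ (1 / 8 : ℝ)
      ≤ (2 : ℝ) ^ (7 * (i₀ : ℝ) / 8) * (2 * Z ^ (3 / 8 : ℝ)) * Z ^ (1 / 8 : ℝ) := by gcongr
    _ = _ := by ring

/-- Divide by `2 ^ i`; each term tends to zero. -/
theorem exists_i0 {A cF C₁ C₂ C₃ : ℝ} (hA : 1 ≤ A) (hc : 0 < cF) : ∃ i : ℕ, 1 ≤ i ∧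
    C₁ * (i + 1) + C₂ * ((2 : ℝ) ^ (7 * (i : ℝ) / 8) * √(i + 3)) +
      C₃ * ((2 : ℝ) ^ (-(7 * i : ℝ) / 12) * (A * 2 ^ (i + 1) * √(A * 2 ^ (i + 1)))) ≤
      cF / 2 * (A * 2 ^ (i + 1)) := by
  have hθ : 1 < (2 : ℝ) ^ (1 / 24 : ℝ) := Real.one_lt_rpow one_lt_two (by norm_num)
  set M := |C₁| + |C₂| + |C₃| * (2 * A * √(2 * A)) with hM
  have h1 := (tendsto_pow_const_div_const_pow_of_one_lt 1 hθ).eventually
    (ge_mem_nhds (show (0 : ℝ) < 1 / 2 by norm_num))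
  have h2 := tendsto_pow_atTop_atTop_of_one_lt hθ
  obtain ⟨i, hi, a, b, c⟩ := ((Filter.eventually_ge_atTop 1).and (h1.and
    ((h2.eventually_ge_atTop 6).and (h2.eventually_ge_atTop (M / (cF * A)))))).exists
  refine ⟨i, hi, ?_⟩
  have e : ∀ k : ℕ, (((2 : ℝ) ^ (1 / 24 : ℝ)) ^ i) ^ k = (2 : ℝ) ^ ((k * i : ℝ) / 24) := fun k => by
    rw [← pow_mul, ← Real.rpow_natCast, ← Real.rpow_mul two_pos.le]
    congr 1
    push_cast
    ring
  generalize ((2 : ℝ) ^ (1 / 24 : ℝ)) ^ i = t at a b c e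
  have t0 : 0 < t := by linarith
  have t1 : 1 ≤ t := by linarith
  have e1 : (2 : ℝ) ^ (7 * (i : ℝ) / 8) = t ^ 21 := by
    rw [e]
    congr 1
    push_cast
    ring
  have e2 : (2 : ℝ) ^ (-(7 * i : ℝ) / 12) = (t ^ 14)⁻¹ := by
    rw [e, ← Real.rpow_neg two_pos.le]
    congr 1
    push_cast
    ring
  have e3 : (2 : ℝ) ^ (i + 1) = 2 * t ^ 24 := by
    rw [e, pow_succ', ← Real.rpow_natCast]
    congr 2
    push_cast
    ring
  have e4 : √(A * (2 * t ^ 24)) = √(2 * A) * t ^ 12 := by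
    rw [show A * (2 * t ^ 24) = 2 * A * (t ^ 12) ^ 2 by ring, Real.sqrt_mul (by linarith),
      Real.sqrt_sq (by positivity)]
  rw [pow_one, div_le_iff₀ t0] at a
  rw [div_le_iff₀ (by positivity)] at c
  have k1 : (i : ℝ) + 1 ≤ t ^ 22 := le_trans (by linarith) (le_self_pow₀ t1 (by norm_num))
  have k2 : √((i : ℝ) + 3) ≤ t := Real.sqrt_le_iff.2 ⟨t0.le, by nlinarith⟩
  rw [e1, e2, e3, e4]
  calc C₁ * (i + 1) + C₂ * (t ^ 21 * √(i + 3)) +
        C₃ * ((t ^ 14)⁻¹ * (A * (2 * t ^ 24) * (√(2 * A) * t ^ 12)))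
      ≤ |C₁| * t ^ 22 + |C₂| * (t ^ 21 * t) +
        |C₃| * ((t ^ 14)⁻¹ * (A * (2 * t ^ 24) * (√(2 * A) * t ^ 12))) := by
        gcongr <;> exact le_abs_self _
    _ = M * t ^ 22 := by
        rw [hM]
        field_simp
    _ ≤ t * (cF * A) * t ^ 22 := by gcongr
    _ = cF * A * t ^ 23 := by ring
    _ ≤ cF * A * t ^ 24 := by gcongr; norm_num
    _ = _ := by ring

end Pool.Agent.Lib.MP_bcfefa_nt
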