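import Pool.Agent.Lib.MP_bcfefa_nt.BTor
import Pool.Agent.Lib.MP_778b46_nt.Mertens

set_option autoImplicit false

noncomputable section

namespace Pool.Agent.Lib.MP_bcfefa_nt

open Complex Finset MeasureTheory Pool.Agent.Lib.MP_03e5d0_nt
open scoped Real ContDiff

/-! Sums over primes and the block structure. -/

theorem one_le_ly (Λ : ℝ) : 1 ≤ ly Λ := le_max_left _ _

theorem ly_mono {Λ Λ' : ℝ} (h : Λ ≤ Λ') : ly Λ ≤ ly Λ' := max_le_max le_rfl h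

theorem cps_div_anti {Z : ℝ} (hZ : 0 ≤ Z) {a b : ℕ} (hab : a ≤ b) : Z / 2 ^ b ≤ Z / 2 ^ a :=
  div_le_div_of_nonneg_left hZ (by positivity) (pow_le_pow_right₀ one_le_two hab)

theorem ly_div_le' {Z : ℝ} (hZ : 0 ≤ Z) {a b : ℕ} (hab : a ≤ b) :
    ly (Z / 2 ^ a) ≤ 2 ^ (b - a) * ly (Z / 2 ^ b) := by
  have h1 : (1 : ℝ) ≤ 2 ^ (b - a) := one_le_pow₀ one_le_two
  have h2 := one_le_ly (Z / 2 ^ b)
  refine max_le (one_le_mul_of_one_le_of_one_le h1 h2) ?_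
  have h3 : Z / 2 ^ a = 2 ^ (b - a) * (Z / 2 ^ b) := by
    obtain ⟨c, rfl⟩ := Nat.exists_eq_add_of_le hab
    rw [Nat.add_sub_cancel_left, pow_add]
    field_simp
  rw [h3]
  exact mul_le_mul_of_nonneg_left (le_max_right _ _) (by positivity)

theorem cps_32 (N : ℕ) : ∑ p ∈ range (N + 2), (1 : ℝ) / (p * √p) ≤ 3 - 2 / √(N + 1 : ℕ) := by
  induction N with
  | zero => norm_num [sum_range_succ]
  | succ N ih =>
    rw [sum_range_succ]
    have h0 : (0 : ℝ) < √(N + 1 : ℕ) := Real.sqrt_pos.2 (by positivity)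
    have h1 : √(N + 1 : ℕ) ≤ √(N + 1 + 1 : ℕ) := Real.sqrt_le_sqrt (by push_cast; linarith)
    have h2 : √(N + 1 : ℕ) ^ 2 = (N + 1 : ℕ) := Real.sq_sqrt (by positivity)
    have h3 : √(N + 1 + 1 : ℕ) ^ 2 = (N + 1 + 1 : ℕ) := Real.sq_sqrt (by positivity)
    have h4 : ((N + 2 : ℕ) : ℝ) = √(N + 1 + 1 : ℕ) ^ 2 := h3.symm
    have h5 : √(N + 1 + 1 : ℕ) ^ 2 = √(N + 1 : ℕ) ^ 2 + 1 := by
      rw [h2, h3]
      push_cast
      ring
    have h6 : 1 / (((N + 2 : ℕ) : ℝ) * √(N + 2 : ℕ)) ≤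
        2 / √(N + 1 : ℕ) - 2 / √(N + 1 + 1 : ℕ) := by
      change 1 / (((N + 2 : ℕ) : ℝ) * √(N + 1 + 1 : ℕ)) ≤ _
      generalize √(N + 1 : ℕ) = a at *
      generalize √(N + 1 + 1 : ℕ) = b at *
      rw [h4]
      have hb : 0 < b := by linarith
      rw [div_sub_div _ _ h0.ne' hb.ne', div_le_div_iff₀ (by positivity) (by positivity)]
      have h7 : (b - a) * (b + a) = 1 := by linarith
      have h8 : a * (b + a) ≤ 2 * b ^ 2 := by nlinarith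
      have h9 : a ≤ 2 * (b - a) * b ^ 2 := by
        calc a = (b - a) * (a * (b + a)) := by linear_combination (-a) * h7
          _ ≤ (b - a) * (2 * b ^ 2) := mul_le_mul_of_nonneg_left h8 (by linarith)
          _ = _ := by ring
      nlinarith
    linarith

/-- See `ps_32` in `Pool/Agent/Lib/MP_03e5d0_nt/MPs1.lean` (copy the proof). -/
theorem ps32 (S : Finset ℕ) : ∑ p ∈ S, (1 : ℝ) / (p * √p) ≤ 3 := by
  refine le_trans (sum_le_sum_of_subset_of_nonneg (t := range (S.sup id + 2)) (fun p hp => ?_)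
    fun p _ _ => by positivity) ((cps_32 _).trans (sub_le_self _ (by positivity)))
  have : p ≤ S.sup id := le_sup (f := id) hp
  rw [mem_range]
  omega

theorem Dat.blk_sub (D : Dat) {Z : ℝ} (j : ℕ) : D.blk Z j ⊆ D.pr (Z / 2 ^ j) := sdiff_subset

theorem cps_disj_lt (D : Dat) {Z : ℝ} (hZ : 0 ≤ Z) {i j : ℕ} (h : i < j) :
    Disjoint (D.blk Z i) (D.blk Z j) :=
  disjoint_sdiff_self_left.mono_right
    ((D.blk_sub j).trans (D.pr_mono (cps_div_anti hZ (Nat.succ_le_of_lt h))))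

theorem Dat.blk_disj (D : Dat) {Z : ℝ} (hZ : 0 ≤ Z) {i j : ℕ} (h : i ≠ j) :
    Disjoint (D.blk Z i) (D.blk Z j) := by
  rcases lt_or_gt_of_ne h with h | h
  · exact cps_disj_lt D hZ h
  · exact (cps_disj_lt D hZ h).symm

theorem Dat.biUnion_blk (D : Dat) {Z : ℝ} (hZ : 0 ≤ Z) {a b : ℕ} (hab : a ≤ b) :
    (Ico a b).biUnion (D.blk Z) = D.pr (Z / 2 ^ a) \ D.pr (Z / 2 ^ b) := by
  induction b, hab using Nat.le_induction with
  | base => simp
  | succ b hab ih =>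
    have e : Ico a (b + 1) = insert b (Ico a b) := by
      ext x
      simp only [mem_insert, mem_Ico]
      omega
    rw [e, biUnion_insert, ih, Dat.blk, union_comm]
    exact sdiff_union_sdiff_cancel (D.pr_mono (cps_div_anti hZ hab))
      (D.pr_mono (cps_div_anti hZ (Nat.le_succ b)))

theorem Dat.sum_blk (D : Dat) {Z : ℝ} (hZ : 0 ≤ Z) {a b : ℕ} (hab : a ≤ b) (g : ℕ → ℝ) :
    ∑ j ∈ Ico a b, ∑ p ∈ D.blk Z j, g p = ∑ p ∈ D.pr (Z / 2 ^ a) \ D.pr (Z / 2 ^ b), g p := by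
  rw [← D.biUnion_blk hZ hab, sum_biUnion fun i _ j _ h => D.blk_disj hZ h]

theorem Dat.prod_blk (D : Dat) {Z : ℝ} (hZ : 0 ≤ Z) {a b : ℕ} (hab : a ≤ b) (g : ℕ → ℂ) :
    ∏ j ∈ Ico a b, ∏ p ∈ D.blk Z j, g p = ∏ p ∈ D.pr (Z / 2 ^ a) \ D.pr (Z / 2 ^ b), g p := by
  rw [← D.biUnion_blk hZ hab, prod_biUnion fun i _ j _ h => D.blk_disj hZ h]

theorem Dat.pr_last (D : Dat) {Z : ℝ} {J : ℕ} (hJ : 2 * Z ≤ 2 ^ J) : D.pr (Z / 2 ^ J) = ∅ := by
  refine D.pr_eq_empty ?_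
  rw [div_le_iff₀ (by positivity)]
  linarith

theorem cps_diff (D : Dat) : ∃ C : ℝ, 0 ≤ C ∧ ∀ Λ Λ' : ℝ, Λ' ≤ Λ →
    ∑ p ∈ D.pr Λ \ D.pr Λ', (2 : ℝ) / p ≤ Real.log (ly Λ) - Real.log (ly Λ') + C := by
  obtain ⟨C, hC⟩ := D.mert
  refine ⟨2 * C, by linarith [(abs_nonneg _).trans (hC 0)], fun Λ Λ' h => ?_⟩
  have h1 := sum_sdiff (f := fun p : ℕ => (2 : ℝ) / p) (D.pr_mono h)
  have h2 := (abs_le.1 (hC Λ)).2
  have h3 := (abs_le.1 (hC Λ')).1
  unfold Dat.pr at h1 ⊢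
  linarith

/-- `D.mert` twice and `ly_div_le'`. -/
theorem Dat.ps_range (D : Dat) : ∃ C : ℝ, 0 ≤ C ∧ ∀ (Z : ℝ) (a b : ℕ), 0 ≤ Z → a ≤ b →
    ∑ p ∈ D.pr (Z / 2 ^ a) \ D.pr (Z / 2 ^ b), (2 : ℝ) / p ≤ ((b : ℝ) - a) * Real.log 2 + C := by
  obtain ⟨C, hC0, hC⟩ := cps_diff D
  refine ⟨C, hC0, fun Z a b hZ hab => (hC _ _ (cps_div_anti hZ hab)).trans ?_⟩
  have h1 := one_le_ly (Z / 2 ^ a)
  have h2 := one_le_ly (Z / 2 ^ b)
  have h3 := Real.log_le_log (by linarith) (ly_div_le' hZ hab)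
  rw [Real.log_mul (by positivity) (by linarith), Real.log_pow, Nat.cast_sub hab] at h3
  linarith

theorem cps_half (S : Finset ℕ) : ∑ p ∈ S, (1 : ℝ) / p = (∑ p ∈ S, (2 : ℝ) / p) / 2 := by
  rw [sum_div]
  exact sum_congr rfl fun p _ => by ring

theorem Dat.ps_blk (D : Dat) : ∃ C : ℝ, 0 ≤ C ∧ ∀ (Z : ℝ) (j : ℕ), 0 ≤ Z →
    ∑ p ∈ D.blk Z j, (1 : ℝ) / p ≤ C := by
  obtain ⟨C, hC0, hC⟩ := D.ps_range
  have hl : 0 < Real.log 2 := Real.log_pos one_lt_two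
  refine ⟨(Real.log 2 + C) / 2, by positivity, fun Z j hZ => ?_⟩
  have h1 := hC Z j (j + 1) hZ (Nat.le_succ j)
  rw [cps_half, Dat.blk]
  push_cast at h1
  linarith

theorem cps_log (D : Dat) {Λ : ℝ} (hΛ : 0 ≤ Λ) :
    ∑ p ∈ D.pr Λ, Real.log p / p ≤ Λ + 2 := by
  have h1 : 1 ≤ ⌊Real.exp Λ⌋₊ := Nat.le_floor (by simpa using Real.one_le_exp hΛ)
  have h2 : Real.log (⌊Real.exp Λ⌋₊ : ℕ) ≤ Λ := by
    rw [Real.log_le_iff_le_exp (by exact_mod_cast h1)]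
    exact Nat.floor_le (Real.exp_pos _).le
  have h3 : Real.log 4 ≤ 2 := by
    rw [show (4 : ℝ) = 2 ^ 2 by norm_num, Real.log_pow]
    have := Real.log_two_lt_d9
    push_cast
    linarith
  refine le_trans (sum_le_sum_of_subset_of_nonneg (t := Nat.primesLE ⌊Real.exp Λ⌋₊) (fun p hp => ?_)
    fun p _ _ => div_nonneg (Real.log_natCast_nonneg p) (Nat.cast_nonneg p))
    ((Pool.Agent.Lib.MP_778b46_nt.sum_log_div_le _ h1).trans (add_le_add h2 h3))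
  have hp' := D.pr_prime Λ p hp
  have h4 : (0 : ℝ) < p := by exact_mod_cast hp'.pos
  exact Nat.mem_primesLE.2
    ⟨Nat.le_floor ((Real.log_le_iff_le_exp h4).1 (D.mem_pr.1 hp).2), hp'⟩

/-- Split at `log p ≤ 1 / r`: below use `Pool.Agent.Lib.MP_778b46_nt.sum_log_div_le` (that range is empty if
`r ≥ 2`), above `D.mert`. -/
theorem Dat.ps_min (D : Dat) : ∃ C : ℝ, 0 ≤ C ∧ ∀ Λ r : ℝ, 0 ≤ r →
    ∑ p ∈ D.pr Λ, min 1 (r * Real.log p) / p ≤ Real.log (1 + r * ly Λ) + C := by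
  obtain ⟨C, hC0, hC⟩ := cps_diff D
  refine ⟨5 + C, by linarith, fun Λ r hr => ?_⟩
  have hy := one_le_ly Λ
  have hl : 0 ≤ Real.log (1 + r * ly Λ) := Real.log_nonneg (by nlinarith)
  rcases hr.eq_or_lt with rfl | hr0
  · simp only [zero_mul, zero_le_one, inf_of_le_right, zero_div, sum_const_zero, add_zero,
      Real.log_one]
    linarith
  have hnn : ∀ p : ℕ, 0 ≤ min 1 (r * Real.log p) / p := fun p =>
    div_nonneg (le_min zero_le_one (mul_nonneg hr (Real.log_natCast_nonneg p))) (Nat.cast_nonneg p)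
  have h1 : ∑ p ∈ D.pr (1 / r), min 1 (r * Real.log p) / p ≤ 5 := by
    by_cases h : 2 ≤ r
    · rw [D.pr_eq_empty (one_div_le_one_div_of_le two_pos h), sum_empty]
      norm_num
    · have h2 : ∑ p ∈ D.pr (1 / r), min 1 (r * Real.log p) / p ≤
          r * ∑ p ∈ D.pr (1 / r), Real.log p / p := by
        rw [mul_sum]
        refine sum_le_sum fun p _ => ?_
        rw [← mul_div_assoc]
        exact div_le_div_of_nonneg_right (min_le_right _ _) (Nat.cast_nonneg p)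
      have h3 := mul_le_mul_of_nonneg_left (cps_log D (one_div_pos.2 hr0).le) hr
      rw [mul_add, mul_one_div_cancel hr0.ne'] at h3
      linarith
  by_cases h : Λ ≤ 1 / r
  · have := sum_le_sum_of_subset_of_nonneg (D.pr_mono h) fun p _ _ => hnn p
    linarith
  have h' : 1 / r ≤ Λ := (not_le.1 h).le
  have h2 := sum_sdiff (f := fun p : ℕ => min 1 (r * Real.log p) / p) (D.pr_mono h')
  have h3 : ∑ p ∈ D.pr Λ \ D.pr (1 / r), min 1 (r * Real.log p) / p ≤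
      ∑ p ∈ D.pr Λ \ D.pr (1 / r), (1 : ℝ) / p :=
    sum_le_sum fun p _ => div_le_div_of_nonneg_right (min_le_left _ _) (Nat.cast_nonneg p)
  have h4 := hC Λ (1 / r) h'
  have h5 : Real.log (ly Λ) - Real.log (ly (1 / r)) ≤ Real.log (1 + r * ly Λ) := by
    have h6 := one_le_ly (1 / r)
    rw [← Real.log_div (by linarith) (by linarith)]
    refine Real.log_le_log (div_pos (by linarith) (by linarith)) ?_
    rw [div_le_iff₀ (by linarith)]
    have h7 : 1 / r ≤ ly (1 / r) := le_max_right _ _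
    have h8 : 1 ≤ r * ly (1 / r) := by
      have := mul_le_mul_of_nonneg_left h7 hr
      rwa [mul_one_div_cancel hr0.ne'] at this
    nlinarith
  rw [cps_half] at h3
  linarith

end Pool.Agent.Lib.MP_bcfefa_nt
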