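import Pool.Agent.Lib.MP_bcfefa_nt.CPp
import Pool.Agent.Lib.MP_bcfefa_nt.CPs
import Pool.Agent.Lib.MP_bcfefa_nt.CGen

set_option autoImplicit false

noncomputable section

namespace Pool.Agent.Lib.MP_bcfefa_nt

open Complex Finset MeasureTheory Pool.Agent.Lib.MP_03e5d0_nt
open scoped Real ContDiff

/-! Expectations over blocks of primes. The files `MBl.lean`, `MBl2.lean` of `Lib/MP_03e5d0_nt` do the same in
another model. -/

theorem continuous_PS (S : Finset ℕ) : Continuous (PS S) := by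
  unfold PS
  exact continuous_finsetSum _ fun p _ =>
    (continuous_const.mul (Complex.continuous_re.comp (continuous_co p))).div_const _

theorem dep_PS (S : Finset ℕ) : Dep S (PS S) := by
  intro z z' h
  unfold PS
  exact sum_congr rfl fun p hp => by rw [h p hp]

theorem continuous_texp (l : ℕ) : Continuous (texp l) := by
  unfold texp
  fun_prop

theorem Dat.vv_pos (D : Dat) (c : ℕ) (Z : ℝ) (j : ℕ) (z : Tor) : 0 < D.vv c Z j z := by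
  rw [Dat.vv, mul_assoc]
  exact texp_pos _ _

theorem Dat.VV_pos (D : Dat) (c : ℕ) (Z : ℝ) (a b : ℕ) (z : Tor) : 0 < D.VV c Z a b z := by
  exact prod_pos fun j _ => D.vv_pos c Z j z

theorem Dat.VV_mul (D : Dat) (c : ℕ) (Z : ℝ) {a b e : ℕ} (hab : a ≤ b) (hbe : b ≤ e) (z : Tor) :
    D.VV c Z a b z * D.VV c Z b e z = D.VV c Z a e z := by
  exact prod_Ico_consecutive _ hab hbe

theorem Dat.VV_self (D : Dat) (c : ℕ) (Z : ℝ) (a : ℕ) (z : Tor) : D.VV c Z a a z = 1 := by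
  simp [Dat.VV]

theorem Dat.continuous_vv (D : Dat) (c : ℕ) (Z : ℝ) (j : ℕ) : Continuous (D.vv c Z j) := by
  exact (continuous_texp _).comp ((continuous_PS _).neg.div_const _)

theorem Dat.continuous_VV (D : Dat) (c : ℕ) (Z : ℝ) (a b : ℕ) : Continuous (D.VV c Z a b) := by
  exact continuous_finsetProd _ fun j _ => D.continuous_vv c Z j

theorem Dat.dep_vv (D : Dat) (c : ℕ) (Z : ℝ) (j : ℕ) : Dep (D.blk Z j) (D.vv c Z j) := by
  intro z z' h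
  unfold Dat.vv
  rw [dep_PS _ z z' h]

theorem Dat.dep_VV (D : Dat) (c : ℕ) {Z : ℝ} (hZ : 0 ≤ Z) (a b : ℕ) :
    Dep (D.pr (Z / 2 ^ a)) (D.VV c Z a b) := by
  intro z z' h
  refine prod_congr rfl fun j hj => D.dep_vv c Z j z z' fun p hp => h p ?_
  exact D.pr_mono (div_le_div_of_nonneg_left hZ (by positivity)
    (pow_le_pow_right₀ one_le_two (mem_Ico.1 hj).1)) (D.blk_sub j hp)

theorem cbl_lt {p : ℕ} (hp : p.Prime) {ξ : ℂ} (h : ‖ξ‖ ≤ 13 / 10 / √p) : ‖ξ‖ < 1 := by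
  have h2 : (2 : ℝ) ≤ p := by exact_mod_cast hp.two_le
  have h3 : (13 / 10 : ℝ) < √p := Real.lt_sqrt_of_sq_lt (by linarith)
  refine h.trans_lt ?_
  rwa [div_lt_one (by linarith)]

theorem cbl_cont {p : ℕ} {ξ : ℂ} (h : ‖ξ‖ < 1) : Continuous fun z : Tor => PK ξ (co z p) := by
  have := continuous_FF (S := {p}) (ξ := fun _ => ξ) fun _ _ => h
  unfold FF at this
  simpa only [prod_singleton] using this

theorem cbl_xi {p : ℕ} (hp : p.Prime) : ‖xi 0 p‖ ≤ 13 / 10 / √p :=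
  norm_xi_le hp.pos (by norm_num)

theorem cbl_prod {S : Finset ℕ} (c : ℝ) (k : ℕ) {ξ : ℕ → ℂ} (hξ : ∀ p ∈ S, ‖ξ p‖ < 1) :
    ∫ z, Real.exp (c * PS S z) * ‖FF S ξ z‖ ^ k ∂mu =
      ∏ p ∈ S, ∫ z, Real.exp (c * (2 * (co z p).re / √p)) * ‖PK (ξ p) (co z p)‖ ^ k ∂mu := by
  rw [← int_prod S (fun p => {p})
    (fun p z => Real.exp (c * (2 * (co z p).re / √p)) * ‖PK (ξ p) (co z p)‖ ^ k)
    (fun i _ i' _ h => disjoint_singleton.2 h) (fun p hp => ?_) fun p _ z z' h => ?_]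
  · congr 1
    funext z
    rw [PS, FF, mul_sum, Real.exp_sum, norm_prod, ← prod_pow, ← prod_mul_distrib]
  · exact (Real.continuous_exp.comp (continuous_const.mul ((continuous_const.mul
      (Complex.continuous_re.comp (continuous_co p))).div_const _))).mul
      ((cbl_cont (hξ p hp)).norm.pow k)
  · simp only [h p (by simp)]

theorem cbl_int {S : Finset ℕ} (c : ℝ) (k : ℕ) {ξ : ℕ → ℂ} (hξ : ∀ p ∈ S, ‖ξ p‖ < 1) :
    Integrable (fun z => Real.exp (c * PS S z) * ‖FF S ξ z‖ ^ k) mu :=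
  ci ((Real.continuous_exp.comp (continuous_const.mul (continuous_PS S))).mul
    ((continuous_FF hξ).norm.pow k))

/-- The integrand is a product over the primes: `int_prod` with singletons, `pp_upper`. -/
theorem blk_exp_le : ∃ C : ℝ, 0 ≤ C ∧ ∀ (S : Finset ℕ) (c : ℝ) (ξ : ℕ → ℂ), (∀ p ∈ S, p.Prime) →
    |c| ≤ 4 → (∀ p ∈ S, ‖ξ p‖ ≤ 13 / 10 / √p) →
    ∫ z, Real.exp (c * PS S z) * ‖FF S ξ z‖ ^ 2 ∂mu ≤
      Real.exp (∑ p ∈ S, mq (ξ p) (c / √p) + C * ∑ p ∈ S, (1 : ℝ) / (p * √p)) := by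
  obtain ⟨C, hC, h⟩ := pp_upper
  refine ⟨C, hC, fun S c ξ hS hc hξ => ?_⟩
  rw [cbl_prod c 2 fun p hp => cbl_lt (hS p hp) (hξ p hp)]
  refine (prod_le_prod (fun p _ => integral_nonneg fun z => by positivity)
    fun p hp => h p c (ξ p) (hS p hp).two_le hc (hξ p hp)).trans ?_
  rw [← Real.exp_sum, sum_add_distrib, mul_sum]
  simp only [mul_one_div, le_refl]

/-- `int_prod`, `pp_lower`, `xi_zero`. -/
theorem blk_exp_ge {S : Finset ℕ} (hS : ∀ p ∈ S, p.Prime) :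
    Real.exp (-∑ p ∈ S, (1 : ℝ) / p - 3 * ∑ p ∈ S, (1 : ℝ) / (p * √p)) ≤
      ∫ z, Real.exp (-PS S z) * ‖FF S (xi 0) z‖ ∂mu := by
  have h := cbl_prod (S := S) (-1) 1 fun p hp => cbl_lt (hS p hp) (cbl_xi (hS p hp))
  simp only [neg_mul, one_mul, pow_one] at h
  rw [h]
  refine le_trans ?_ (prod_le_prod (fun p _ => (Real.exp_pos _).le) fun p hp => by
    rw [xi_zero (hS p hp).pos]
    exact pp_lower p (hS p hp).two_le)
  rw [← Real.exp_sum, sum_sub_distrib, sum_neg_distrib, mul_sum]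
  simp only [mul_one_div, le_refl]

theorem cbl_mq {S : Finset ℕ} {K c : ℝ} {ξ : ℕ → ℂ} (hS : ∀ p ∈ S, p.Prime)
    (hK : ∑ p ∈ S, (1 : ℝ) / p ≤ K) (hc : |c| ≤ 4) (hξ : ∀ p ∈ S, ‖ξ p‖ ≤ 13 / 10 / √p) :
    |∑ p ∈ S, mq (ξ p) (c / √p)| ≤ 50 * K := by
  refine (abs_sum_le_sum_abs _ _).trans ((sum_le_sum fun p hp =>
    abs_mq_le (hS p hp).pos hc (hξ p hp)).trans ?_)
  refine le_trans (le_of_eq ?_) (mul_le_mul_of_nonneg_left hK (by norm_num))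
  simp only [mul_sum, mul_one_div]

theorem cbl_bd (K : ℝ) : ∃ B : ℝ, 0 ≤ B ∧ ∀ (S : Finset ℕ) (c : ℝ) (ξ : ℕ → ℂ), (∀ p ∈ S, p.Prime) →
    ∑ p ∈ S, (1 : ℝ) / p ≤ K → |c| ≤ 4 → (∀ p ∈ S, ‖ξ p‖ ≤ 13 / 10 / √p) →
    ∫ z, Real.exp (c * PS S z) * ‖FF S ξ z‖ ^ 2 ∂mu ≤ B := by
  obtain ⟨C, hC, h⟩ := blk_exp_le
  refine ⟨Real.exp (50 * K + C * 3), (Real.exp_pos _).le, fun S c ξ hS hK hc hξ =>
    (h S c ξ hS hc hξ).trans (Real.exp_le_exp.2 ?_)⟩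
  have h1 := (abs_le.1 (cbl_mq hS hK hc hξ)).2
  have h2 := mul_le_mul_of_nonneg_left (ps32 S) hC
  linarith

theorem cbl_texp_int {S : Finset ℕ} (l e k : ℕ) {ξ : ℕ → ℂ} (hξ : ∀ p ∈ S, ‖ξ p‖ < 1) :
    Integrable (fun z => texp l (-PS S z / 3) ^ e * ‖FF S ξ z‖ ^ k) mu :=
  ci ((((continuous_texp l).comp ((continuous_PS S).neg.div_const _)).pow e).mul
    ((continuous_FF hξ).norm.pow k))

/-- `texp_pow_sub`, `blk_exp_le` with `c = -e / 3, 4, -4`; by `abs_mq_le` and `ps32` all exponents are bounded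
in terms of `K`. -/
theorem blk_upper (K : ℝ) : ∃ C C' : ℝ, 0 ≤ C ∧ 0 ≤ C' ∧ ∀ (S : Finset ℕ) (l e : ℕ) (ξ : ℕ → ℂ),
    (∀ p ∈ S, p.Prime) → ∑ p ∈ S, (1 : ℝ) / p ≤ K → e ≤ 8 → (∀ p ∈ S, ‖ξ p‖ ≤ 13 / 10 / √p) →
    ∫ z, texp l (-PS S z / 3) ^ e * ‖FF S ξ z‖ ^ 2 ∂mu ≤ (1 + C' / 2 ^ l) *
      Real.exp (∑ p ∈ S, mq (ξ p) (-(e / 3 : ℝ) / √p) + C * ∑ p ∈ S, (1 : ℝ) / (p * √p)) := by
  obtain ⟨C, hC, h⟩ := blk_exp_le
  obtain ⟨B, hB, hb⟩ := cbl_bd K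
  refine ⟨C, 8 * B * Real.exp (50 * K), hC, by positivity, fun S l e ξ hS hK he hξ => ?_⟩
  have hlt : ∀ p ∈ S, ‖ξ p‖ < 1 := fun p hp => cbl_lt (hS p hp) (hξ p hp)
  have he' : |(-(e / 3 : ℝ))| ≤ 4 := by
    have : (e : ℝ) ≤ 8 := by exact_mod_cast he
    rw [abs_neg, abs_of_nonneg (by positivity)]
    linarith
  have b1 := hb S 4 ξ hS hK (by norm_num) hξ
  have b2 := hb S (-4) ξ hS hK (by norm_num) hξ
  have b3 := h S _ ξ hS he' hξ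
  have b4 : Real.exp (-(50 * K)) ≤ Real.exp (∑ p ∈ S, mq (ξ p) (-(e / 3 : ℝ) / √p) +
      C * ∑ p ∈ S, (1 : ℝ) / (p * √p)) := by
    have h1 := (abs_le.1 (cbl_mq hS hK he' hξ)).1
    have h2 : 0 ≤ C * ∑ p ∈ S, (1 : ℝ) / (p * √p) := by positivity
    exact Real.exp_le_exp.2 (by linarith)
  have i1 := cbl_int (S := S) 4 2 hlt
  have i2 := cbl_int (S := S) (-4) 2 hlt
  have i3 := cbl_int (S := S) (-(e / 3 : ℝ)) 2 hlt
  generalize Real.exp (∑ p ∈ S, mq (ξ p) (-(e / 3 : ℝ) / √p) +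
      C * ∑ p ∈ S, (1 : ℝ) / (p * √p)) = m at b3 b4 ⊢
  calc _ ≤ ∫ z, (Real.exp (-(e / 3 : ℝ) * PS S z) * ‖FF S ξ z‖ ^ 2 + 4 / 2 ^ l *
        (Real.exp (4 * PS S z) * ‖FF S ξ z‖ ^ 2 + Real.exp (-4 * PS S z) * ‖FF S ξ z‖ ^ 2)) ∂mu := by
        refine integral_mono (cbl_texp_int l e 2 hlt) (i3.add ((i1.add i2).const_mul _)) fun z => ?_
        have h1 := mul_le_mul_of_nonneg_right (abs_le.1 (texp_pow_sub l he (PS S z))).2
          (sq_nonneg ‖FF S ξ z‖)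
        simp only
        linarith
    _ ≤ m + 4 / 2 ^ l * (B + B) := by
        rw [integral_add i3 ((i1.fun_add i2).const_mul _), integral_const_mul, integral_add i1 i2]
        gcongr
    _ = m + 8 * B * Real.exp (50 * K) / 2 ^ l * Real.exp (-(50 * K)) := by
        rw [Real.exp_neg]
        field_simp
        ring
    _ ≤ m + 8 * B * Real.exp (50 * K) / 2 ^ l * m := by gcongr
    _ = _ := by ring

/-- `texp_pow_sub` with `e = 3`, `blk_exp_ge`; for the error `‖F‖ ≤ (‖FF S 0‖ ^ 2 + ‖F‖ ^ 2) / 2` (`FF_zero`)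
and `blk_exp_le`. -/
theorem blk_lower (K : ℝ) : ∃ C' : ℝ, 0 ≤ C' ∧ ∀ (S : Finset ℕ) (l : ℕ),
    (∀ p ∈ S, p.Prime) → ∑ p ∈ S, (1 : ℝ) / p ≤ K →
    (1 - C' / 2 ^ l) * Real.exp (-∑ p ∈ S, (1 : ℝ) / p - 3 * ∑ p ∈ S, (1 : ℝ) / (p * √p)) ≤
      ∫ z, texp l (-PS S z / 3) ^ 3 * ‖FF S (xi 0) z‖ ∂mu := by
  obtain ⟨B, hB, hb⟩ := cbl_bd K
  refine ⟨8 * B * Real.exp (K + 9), by positivity, fun S l hS hK => ?_⟩
  have hξ : ∀ p ∈ S, ‖xi 0 p‖ ≤ 13 / 10 / √p := fun p hp => cbl_xi (hS p hp)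
  have hlt : ∀ p ∈ S, ‖xi 0 p‖ < 1 := fun p hp => cbl_lt (hS p hp) (hξ p hp)
  have h0 : ∀ p ∈ S, ‖(fun _ : ℕ => (0 : ℂ)) p‖ ≤ 13 / 10 / √p := fun p _ => by
    simp only [norm_zero]
    positivity
  have key : ∀ c : ℝ, |c| ≤ 4 → ∫ z, Real.exp (c * PS S z) * ‖FF S (xi 0) z‖ ^ 1 ∂mu ≤ B := by
    intro c hc
    have a1 := hb S c _ hS hK hc hξ
    have a2 := hb S c _ hS hK hc h0
    have j1 := cbl_int (S := S) c 2 hlt
    have j2 := cbl_int (S := S) (ξ := fun _ => 0) c 2 fun p _ => by simp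
    calc _ ≤ ∫ z, 1 / 2 * (Real.exp (c * PS S z) * ‖FF S (xi 0) z‖ ^ 2 +
          Real.exp (c * PS S z) * ‖FF S (fun _ => 0) z‖ ^ 2) ∂mu := by
          refine integral_mono (cbl_int c 1 hlt) ((j1.add j2).const_mul _) fun z => ?_
          have h1 := mul_nonneg (Real.exp_pos (c * PS S z)).le (sq_nonneg (‖FF S (xi 0) z‖ - 1))
          simp only [FF_zero, norm_one]
          linarith
      _ ≤ 1 / 2 * (B + B) := by
          rw [integral_const_mul, integral_add j1 j2]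
          gcongr
      _ = B := by ring
  have b1 := key 4 (by norm_num)
  have b2 := key (-4) (by norm_num)
  have b3 := blk_exp_ge hS
  have b4 : Real.exp (-(K + 9)) ≤
      Real.exp (-∑ p ∈ S, (1 : ℝ) / p - 3 * ∑ p ∈ S, (1 : ℝ) / (p * √p)) :=
    Real.exp_le_exp.2 (by linarith [ps32 S])
  have i1 := cbl_int (S := S) 4 1 hlt
  have i2 := cbl_int (S := S) (-4) 1 hlt
  have i3 := cbl_int (S := S) (-1) 1 hlt
  have i4 := cbl_texp_int (S := S) l 3 1 hlt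
  simp only [pow_one, neg_mul, one_mul] at b1 b2 i1 i2 i3 i4
  generalize Real.exp (-∑ p ∈ S, (1 : ℝ) / p - 3 * ∑ p ∈ S, (1 : ℝ) / (p * √p)) = m at b3 b4 ⊢
  calc _ = m - 8 * B * Real.exp (K + 9) / 2 ^ l * m := by ring
    _ ≤ m - 8 * B * Real.exp (K + 9) / 2 ^ l * Real.exp (-(K + 9)) := by gcongr
    _ = m - 4 / 2 ^ l * (B + B) := by
        rw [Real.exp_neg]
        field_simp
        ring
    _ ≤ ∫ z, (Real.exp (-PS S z) * ‖FF S (xi 0) z‖ - 4 / 2 ^ l *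
        (Real.exp (4 * PS S z) * ‖FF S (xi 0) z‖ +
          Real.exp (-(4 * PS S z)) * ‖FF S (xi 0) z‖)) ∂mu := by
        rw [integral_sub i3 ((i1.fun_add i2).const_mul _), integral_const_mul, integral_add i1 i2]
        gcongr
    _ ≤ _ := by
        refine integral_mono (i3.sub ((i1.add i2).const_mul _)) i4 fun z => ?_
        have h1 := mul_le_mul_of_nonneg_right
          (abs_le.1 (texp_pow_sub l (e := 3) (by norm_num) (PS S z))).1 (norm_nonneg (FF S (xi 0) z))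
        simp only [Nat.cast_ofNat, ne_eq, OfNat.ofNat_ne_zero, not_false_eq_true, div_self, neg_mul,
          one_mul] at h1
        simp only
        linarith

theorem cbl_prime (D : Dat) (Z : ℝ) (j : ℕ) : ∀ p ∈ D.blk Z j, p.Prime :=
  fun p hp => D.pr_prime _ p (D.blk_sub j hp)

theorem cbl_32 (D : Dat) {Z : ℝ} (hZ : 0 ≤ Z) (T : Finset ℕ) :
    ∑ j ∈ T, ∑ p ∈ D.blk Z j, (1 : ℝ) / (p * √p) ≤ 3 := by
  rw [← sum_biUnion fun i _ j _ h => D.blk_disj hZ h]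
  exact ps32 _

theorem cbl_indep (D : Dat) (c : ℕ) {Z : ℝ} (hZ : 0 ≤ Z) (T : Finset ℕ) (e : ℕ → ℕ) (k : ℕ)
    {ξ : ℕ → ℂ} (hξ : ∀ j ∈ T, ∀ p ∈ D.blk Z j, ‖ξ p‖ ≤ 13 / 10 / √p) :
    ∫ z, ∏ j ∈ T, D.vv c Z j z ^ e j * ‖FF (D.blk Z j) ξ z‖ ^ k ∂mu =
      ∏ j ∈ T, ∫ z, D.vv c Z j z ^ e j * ‖FF (D.blk Z j) ξ z‖ ^ k ∂mu := by
  refine int_prod T (D.blk Z) (fun j z => D.vv c Z j z ^ e j * ‖FF (D.blk Z j) ξ z‖ ^ k)
    (fun i _ j _ h => D.blk_disj hZ h) (fun j hj => ?_) fun j _ z z' h => ?_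
  · exact ((D.continuous_vv c Z j).pow _).mul ((continuous_FF fun p hp =>
      cbl_lt (cbl_prime D Z j p hp) (hξ j hj p hp)).norm.pow k)
  · simp only [D.dep_vv c Z j z z' h, dep_FF _ ξ z z' h]

/-- `int_prod` over the blocks (`blk_disj`), `blk_upper`, `ps_blk`, `mbl2_geom`, `ps32` for the union. -/
theorem Dat.blks_upper (D : Dat) : ∃ C : ℝ, 0 ≤ C ∧ ∀ (c : ℕ) (Z : ℝ) (T : Finset ℕ) (e : ℕ → ℕ)
    (ξ : ℕ → ℂ), 1 ≤ c → 0 ≤ Z → (∀ j, e j ≤ 8) →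
    (∀ j ∈ T, ∀ p ∈ D.blk Z j, ‖ξ p‖ ≤ 13 / 10 / √p) →
    ∫ z, ∏ j ∈ T, D.vv c Z j z ^ e j * ‖FF (D.blk Z j) ξ z‖ ^ 2 ∂mu ≤
      C * Real.exp (∑ j ∈ T, ∑ p ∈ D.blk Z j, mq (ξ p) (-(e j / 3 : ℝ) / √p)) := by
  obtain ⟨K, -, hK⟩ := D.ps_blk
  obtain ⟨C₂, C₁, h₂, h₁, H⟩ := blk_upper K
  refine ⟨Real.exp (C₁ + C₂ * 3), (Real.exp_pos _).le, fun c Z T e ξ hc hZ he hξ => ?_⟩
  rw [cbl_indep D c hZ T e 2 hξ]
  have h1 : ∀ j ∈ T, ∫ z, D.vv c Z j z ^ e j * ‖FF (D.blk Z j) ξ z‖ ^ 2 ∂mu ≤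
      Real.exp (C₁ * (1 / 2 ^ (2 * c * (1 + j))) +
        (∑ p ∈ D.blk Z j, mq (ξ p) (-(e j / 3 : ℝ) / √p) +
          C₂ * ∑ p ∈ D.blk Z j, (1 : ℝ) / (p * √p))) := fun j hj => by
    refine (H (D.blk Z j) (2 * c * (1 + j)) (e j) ξ (cbl_prime D Z j) (hK Z j hZ) (he j)
      (hξ j hj)).trans ?_
    rw [Real.exp_add (C₁ * _), mul_one_div]
    refine mul_le_mul_of_nonneg_right ?_ (Real.exp_pos _).le
    linarith [Real.add_one_le_exp (C₁ / 2 ^ (2 * c * (1 + j)))]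
  refine (prod_le_prod (fun j _ => integral_nonneg fun z =>
    mul_nonneg (pow_pos (D.vv_pos c Z j z) _).le (by positivity)) h1).trans ?_
  rw [← Real.exp_sum, ← Real.exp_add, Real.exp_le_exp, sum_add_distrib, sum_add_distrib,
    ← mul_sum, ← mul_sum]
  have h3 := mul_le_mul_of_nonneg_left (cbl_32 D hZ T) h₂
  have h4 : (2 : ℝ) / 2 ^ c ≤ 1 := by
    rw [div_le_one (by positivity)]
    exact le_self_pow₀ one_le_two (by omega)
  have h5 := mul_le_mul_of_nonneg_left ((mbl2_geom hc T).trans h4) h₁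
  linarith

/-- For `c` large the sum of `C' / 2 ^ (2 c (1 + j))` is at most `1 / 2` (`mbl2_geom`), so the product of
`1 - C' / 2 ^ (2 c (1 + j))` is at least `1 / 2`. -/
theorem Dat.blks_lower (D : Dat) : ∃ (c : ℕ) (κ : ℝ), 1 ≤ c ∧ 0 < κ ∧ ∀ (Z : ℝ) (T : Finset ℕ), 0 ≤ Z →
    κ * Real.exp (-∑ j ∈ T, ∑ p ∈ D.blk Z j, (1 : ℝ) / p) ≤
      ∫ z, ∏ j ∈ T, D.vv c Z j z ^ 3 * ‖FF (D.blk Z j) (xi 0) z‖ ∂mu := by
  obtain ⟨K, -, hK⟩ := D.ps_blk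
  obtain ⟨C₁, h₁, H⟩ := blk_lower K
  obtain ⟨c, hc⟩ := pow_unbounded_of_one_lt (2 * C₁ + 1) (one_lt_two (α := ℝ))
  have hc1 : 1 ≤ c := by
    rcases Nat.eq_zero_or_pos c with rfl | h
    · rw [pow_zero] at hc
      linarith
    · exact h
  have hC : C₁ * (1 / 2 ^ c) ≤ 1 / 2 := by
    rw [mul_one_div, div_le_iff₀ (by positivity)]
    linarith
  refine ⟨c, Real.exp (-11), hc1, Real.exp_pos _, fun Z T hZ => ?_⟩
  have hi := cbl_indep D c hZ T (fun _ => 3) 1 (ξ := xi 0) fun j _ p hp =>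
    cbl_xi (cbl_prime D Z j p hp)
  simp only [pow_one] at hi
  rw [hi]
  have h1 : ∀ j ∈ T, Real.exp (-(2 * C₁ * (1 / 2 ^ (2 * c * (1 + j)))) +
      (-∑ p ∈ D.blk Z j, (1 : ℝ) / p - 3 * ∑ p ∈ D.blk Z j, (1 : ℝ) / (p * √p))) ≤
      ∫ z, D.vv c Z j z ^ 3 * ‖FF (D.blk Z j) (xi 0) z‖ ∂mu := fun j _ => by
    refine le_trans ?_ (H (D.blk Z j) (2 * c * (1 + j)) (cbl_prime D Z j) (hK Z j hZ))
    rw [Real.exp_add, mul_assoc, mul_one_div]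
    refine mul_le_mul_of_nonneg_right ?_ (Real.exp_pos _).le
    set t := C₁ / 2 ^ (2 * c * (1 + j)) with ht
    have ht0 : 0 ≤ t := by positivity
    have ht1 : t ≤ 1 / 2 := by
      have h5 := mul_le_mul_of_nonneg_left ((mbl2_le hc1 j).trans (mul_le_of_le_one_right
        (by positivity) (pow_le_one₀ (by norm_num) (by norm_num)))) h₁
      rw [mul_one_div] at h5
      exact h5.trans hC
    rw [Real.exp_neg, inv_le_iff_one_le_mul₀ (Real.exp_pos _)]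
    nlinarith [Real.add_one_le_exp (2 * t)]
  refine le_trans ?_ (prod_le_prod (fun j _ => (Real.exp_pos _).le) h1)
  rw [← Real.exp_sum, ← Real.exp_add, Real.exp_le_exp, sum_add_distrib, sum_sub_distrib,
    sum_neg_distrib, sum_neg_distrib, ← mul_sum, ← mul_sum]
  have h3 := cbl_32 D hZ T
  have h5 := mul_le_mul_of_nonneg_left (mbl2_geom hc1 T) (show 0 ≤ 2 * C₁ by positivity)
  have h6 : 2 * C₁ * (2 / 2 ^ c) = 4 * (C₁ * (1 / 2 ^ c)) := by ring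
  linarith

end Pool.Agent.Lib.MP_bcfefa_nt
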