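import Pool.Agent.Lib.MP_bcfefa_nt.CSm

set_option autoImplicit false

noncomputable section

namespace Pool.Agent.Lib.MP_bcfefa_nt

open Complex Finset MeasureTheory Pool.Agent.Lib.MP_03e5d0_nt
open scoped Real ContDiff

/-! Norms of the mollified pieces. Compare `MF2.lean`, `MF3.lean` of `Lib/MP_03e5d0_nt`. -/

theorem cf2_B {j : ℕ} {a b B : ℝ} {Θ : ℝ → ℂ} (h : Sm j a b B Θ) : 0 ≤ B :=
  (norm_nonneg _).trans (h.bd 0 (Nat.zero_le _) 0)

theorem Dat.norm_MM (D : Dat) (c : ℕ) (Z : ℝ) (J : ℕ) (z : Tor) (u : ℂ) :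
    ‖D.MM c Z J z * u‖ ^ 2 = D.VV c Z 0 J z ^ 6 * ‖u‖ ^ 2 := by
  rw [norm_mul, mul_pow, Dat.MM, Complex.norm_real, Real.norm_eq_abs, sq_abs, ← pow_mul]

/-- `sm2` with `a = b = 0` for the first claim. For the second insert `not_good`:
`VV 0 b ^ 2 * VV 0 J ^ 6 = VV 0 b ^ 8 * VV b J ^ 6` (`VV_mul`), `sm2` with `a = 0`, `sum_geom36`. -/
theorem Dat.piece_nrm (D : Dat) (c : ℕ) (hc : 1 ≤ c) : ∃ (j : ℕ) (C : ℝ), 0 ≤ C ∧ ∀ (N : ℕ) (Z U B : ℝ)
    (J i₀ : ℕ) (Θ : ℝ → ℂ), 1 ≤ N → 1 ≤ Z → Z ≤ Real.log N → 2 * Z ≤ 2 ^ J → 32 * c * Z ≤ U →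
    Sm j 1 4 B Θ →
    nrm (Ico N (2 * N)) (fun n => D.MM c Z J (D.z n) * D.pc N U Θ (D.z n)) ≤ C * B * √N * √U / Z ∧
    nrm (D.bad c N Z J i₀) (fun n => D.MM c Z J (D.z n) * D.pc N U Θ (D.z n)) ≤
      C * B * √N * √U / Z * (2 : ℝ) ^ (-(7 * i₀ : ℝ) / 24) := by
  classical
  obtain ⟨j, C, hC, H⟩ := D.sm2 c hc
  obtain ⟨C₂, hC₂, H₂⟩ := sum_geom36
  refine ⟨j, √(C * (1 + C₂)), Real.sqrt_nonneg _, fun N Z U B J i₀ Θ hN hZ hZL hJ hU hΘ => ?_⟩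
  have hB := cf2_B hΘ
  have hc' : (1 : ℝ) ≤ c := by exact_mod_cast hc
  have hU4 : 4 * Z ≤ U := by nlinarith
  have hU0 : 0 ≤ U := by linarith
  have hly : ly (Z / 2 ^ 0) = Z := by rw [pow_zero, div_one, ly, max_eq_right hZ]
  have K : ∀ b ≤ J, ∑ n ∈ Ico N (2 * N), D.VV c Z 0 b (D.z n) ^ 8 * D.VV c Z b J (D.z n) ^ 6 *
      ‖D.pc N U Θ (D.z n)‖ ^ 2 ≤ C * (N * B ^ 2 * U / Z ^ 2) * (2 : ℝ) ^ (2 * (b : ℝ) / 9) := by
    intro b hb
    have h1 := H N Z U B 0 b J Θ hN (by linarith) hZL hJ (Nat.zero_le _) hb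
      (Or.inl (by simpa using hU)) (by rw [hly]; exact hU4) hΘ
    rw [hly, Nat.cast_zero, sub_zero] at h1
    refine h1.trans (le_of_eq ?_)
    ring
  have hQ : 0 ≤ N * B ^ 2 * U / Z ^ 2 := by positivity
  have hsq : (√(C * (1 + C₂)) * B * √N * √U / Z) ^ 2 =
      C * (1 + C₂) * (N * B ^ 2 * U / Z ^ 2) := by
    rw [div_pow, mul_pow, mul_pow, mul_pow, Real.sq_sqrt (by positivity),
      Real.sq_sqrt (by positivity), Real.sq_sqrt hU0]
    ring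
  have hG : 0 ≤ √(C * (1 + C₂)) * B * √N * √U / Z := by positivity
  refine ⟨nrm_le_of_sq hG ?_, nrm_le_of_sq (by positivity) ?_⟩
  · have h1 := K 0 (Nat.zero_le _)
    simp only [Dat.VV_self, one_pow, one_mul, Nat.cast_zero, mul_zero, zero_div, Real.rpow_zero,
      mul_one] at h1
    simp only [Dat.norm_MM]
    rw [hsq]
    refine h1.trans ?_
    have h2 : 0 ≤ C * C₂ * (N * B ^ 2 * U / Z ^ 2) := by positivity
    nlinarith
  · have e2 : ((2 : ℝ) ^ (-(7 * i₀ : ℝ) / 24)) ^ 2 = (2 : ℝ) ^ (-(7 * i₀ : ℝ) / 12) := by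
      rw [← Real.rpow_natCast, ← Real.rpow_mul (by norm_num)]
      congr 1
      push_cast
      ring
    rw [mul_pow, hsq, e2]
    simp only [Dat.norm_MM]
    calc ∑ n ∈ D.bad c N Z J i₀, D.VV c Z 0 J (D.z n) ^ 6 * ‖D.pc N U Θ (D.z n)‖ ^ 2
        ≤ ∑ n ∈ D.bad c N Z J i₀, ∑ b ∈ range (J + 1), (2 : ℝ) ^ (-(7 * i₀ + 3 * b : ℝ) / 12) *
            (D.VV c Z 0 b (D.z n) ^ 8 * D.VV c Z b J (D.z n) ^ 6 * ‖D.pc N U Θ (D.z n)‖ ^ 2) := by
          refine sum_le_sum fun n hn => ?_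
          have h1 := Dat.not_good (mem_filter.1 hn).2
          have h2 := mul_le_mul_of_nonneg_right h1
            (show 0 ≤ D.VV c Z 0 J (D.z n) ^ 6 * ‖D.pc N U Θ (D.z n)‖ ^ 2 by positivity)
          rw [one_mul, sum_mul] at h2
          refine h2.trans (le_of_eq (sum_congr rfl fun b hb => ?_))
          rw [← D.VV_mul c Z (Nat.zero_le b) (Nat.lt_succ_iff.1 (mem_range.1 hb)) (D.z n)]
          ring
      _ ≤ ∑ n ∈ Ico N (2 * N), ∑ b ∈ range (J + 1), (2 : ℝ) ^ (-(7 * i₀ + 3 * b : ℝ) / 12) *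
            (D.VV c Z 0 b (D.z n) ^ 8 * D.VV c Z b J (D.z n) ^ 6 * ‖D.pc N U Θ (D.z n)‖ ^ 2) :=
          sum_le_sum_of_subset_of_nonneg (filter_subset _ _) fun n _ _ =>
            sum_nonneg fun b _ => by positivity
      _ ≤ ∑ b ∈ range (J + 1), (2 : ℝ) ^ (-(7 * i₀ + 3 * b : ℝ) / 12) *
            (C * (N * B ^ 2 * U / Z ^ 2) * (2 : ℝ) ^ (2 * (b : ℝ) / 9)) := by
          rw [sum_comm]
          refine sum_le_sum fun b hb => ?_
          rw [← mul_sum]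
          exact mul_le_mul_of_nonneg_left (K b (Nat.lt_succ_iff.1 (mem_range.1 hb))) (by positivity)
      _ = C * (N * B ^ 2 * U / Z ^ 2) * ∑ b ∈ range (J + 1),
            (2 : ℝ) ^ (-(7 * i₀ + 3 * b : ℝ) / 12) * (2 : ℝ) ^ (2 * (b : ℝ) / 9) := by
          rw [mul_sum]
          exact sum_congr rfl fun b _ => by ring
      _ ≤ C * (N * B ^ 2 * U / Z ^ 2) * (C₂ * (2 : ℝ) ^ (-(7 * i₀ : ℝ) / 12)) :=
          mul_le_mul_of_nonneg_left (H₂ i₀ (J + 1)) (by positivity)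
      _ ≤ C * (1 + C₂) * (N * B ^ 2 * U / Z ^ 2) * (2 : ℝ) ^ (-(7 * i₀ : ℝ) / 12) := by
          have h2 : 0 ≤ C * (N * B ^ 2 * U / Z ^ 2) * (2 : ℝ) ^ (-(7 * i₀ : ℝ) / 12) := by
            positivity
          nlinarith

theorem sum_sqrt_Ui' {L : ℝ} (hL : 0 < L) (n : ℕ) : ∑ i ∈ range n, √(Ui L i) ≤ 4 * √L := by
  have hs : ∑ i ∈ range n, (3 / 4 : ℝ) ^ i = 4 - 4 * (3 / 4) ^ n := by
    induction n with
    | zero => norm_num
    | succ n ih => rw [sum_range_succ, ih]; ring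
  have key : ∀ i : ℕ, √(Ui L i) ≤ (3 / 4) ^ i * √L := by
    intro i
    refine Real.sqrt_le_iff.2 ⟨by positivity, ?_⟩
    rw [mul_pow, Real.sq_sqrt hL.le]
    have h6 : (1 / 2 : ℝ) ^ i ≤ ((3 / 4) ^ i) ^ 2 := by
      rw [← pow_mul, mul_comm, pow_mul]
      exact pow_le_pow_left₀ (by norm_num) (by norm_num) i
    refine le_trans ?_ (mul_le_mul_of_nonneg_right h6 hL.le)
    rw [Ui, one_div, inv_pow, ← div_eq_inv_mul]
    exact div_le_div_of_nonneg_left hL.le (by positivity)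
      (pow_le_pow_right₀ (by norm_num) (Nat.le_succ i))
  refine (sum_le_sum fun i _ => key i).trans ?_
  rw [← sum_mul, hs]
  refine mul_le_mul_of_nonneg_right ?_ (Real.sqrt_nonneg _)
  have : (0 : ℝ) ≤ 4 * (3 / 4) ^ n := by positivity
  linarith

theorem Pa.L_eq {A Z : ℝ} {i₀ N I J : ℕ} (hA : 1 ≤ A) (h : Pa A i₀ N Z I J) :
    Real.log N = A * 2 ^ (i₀ + 1) * Z := by
  have hA0 : A ≠ 0 := by linarith
  rw [h.hZ, Ui]
  field_simp

theorem cf2_ZL {A Z : ℝ} {i₀ N I J : ℕ} (hA : 1 ≤ A) (h : Pa A i₀ N Z I J) : Z ≤ Real.log N := by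
  rw [h.L_eq hA]
  exact le_mul_of_one_le_left (zero_le_one.trans h.one_le)
    (one_le_mul_of_one_le_of_one_le hA (one_le_pow₀ one_le_two))

theorem cf2_L {A Z : ℝ} {i₀ N I J : ℕ} (hA : 1 ≤ A) (h : Pa A i₀ N Z I J) : 0 < Real.log N :=
  (one_pos.trans_le h.one_le).trans_le (cf2_ZL hA h)

/-- For `i ≤ i₀`: `32 c Z ≤ A Z = Ui L i₀ ≤ Ui L i`. -/
theorem Dat.low_pieces (D : Dat) (c : ℕ) (hc : 1 ≤ c) : ∃ (j : ℕ) (C : ℝ), 0 ≤ C ∧ ∀ (A Z B : ℝ)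
    (N i₀ I J : ℕ) (Θ : ℝ → ℂ), 32 * c ≤ A → 1 ≤ N → Pa A i₀ N Z I J → Sm j 1 4 B Θ →
    ∑ i ∈ range (i₀ + 1), nrm (Ico N (2 * N))
        (fun n => D.MM c Z J (D.z n) * D.pc N (Ui (Real.log N) i) Θ (D.z n)) ≤
      C * B * √N * (√(Real.log N) / Z) ∧
    ∑ i ∈ range (i₀ + 1), nrm (D.bad c N Z J i₀)
        (fun n => D.MM c Z J (D.z n) * D.pc N (Ui (Real.log N) i) Θ (D.z n)) ≤
      C * B * √N * (√(Real.log N) / Z) * (2 : ℝ) ^ (-(7 * i₀ : ℝ) / 24) := by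
  obtain ⟨j, C, hC, H⟩ := D.piece_nrm c hc
  refine ⟨j, C * 4, by positivity, fun A Z B N i₀ I J Θ hA hN hP hΘ => ?_⟩
  have hc' : (1 : ℝ) ≤ c := by exact_mod_cast hc
  have hA1 : 1 ≤ A := by linarith
  have hL := cf2_L hA1 hP
  have hB := cf2_B hΘ
  have hZ := hP.one_le
  have K := fun i (hi : i ∈ range (i₀ + 1)) => H N Z (Ui (Real.log N) i) B J i₀ Θ hN hZ
    (cf2_ZL hA1 hP) hP.hJ
    (by
      have h1 : A * Z = Ui (Real.log N) i₀ := by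
        rw [hP.hZ, mul_div_cancel₀ _ (by linarith)]
      have h2 := Ui_anti hL (Nat.lt_succ_iff.1 (mem_range.1 hi))
      have h3 := mul_le_mul_of_nonneg_right hA (show 0 ≤ Z by linarith)
      linarith) hΘ
  have hS : ∑ i ∈ range (i₀ + 1), C * B * √N * √(Ui (Real.log N) i) / Z ≤
      C * 4 * B * √N * (√(Real.log N) / Z) := by
    rw [← sum_div, ← mul_sum]
    have h1 := mul_le_mul_of_nonneg_left (sum_sqrt_Ui' hL (i₀ + 1))
      (show 0 ≤ C * B * √N by positivity)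
    refine (div_le_div_of_nonneg_right h1 (by linarith)).trans (le_of_eq ?_)
    ring
  refine ⟨(sum_le_sum fun i hi => (K i hi).1).trans hS,
    (sum_le_sum fun i hi => (K i hi).2).trans ?_⟩
  rw [← sum_mul]
  exact mul_le_mul_of_nonneg_right hS (by positivity)

theorem cf2_Q1 (D : Dat) {Y : ℝ} (hL : 0 < Real.log Y) (i₀ : ℕ) (T : Finset ℕ) (w : ℕ → ℂ) :
    nrm T (fun n => w n * D.Q1 Y i₀ (D.z n)) ≤ Real.log Y *
      ∑ i ∈ range (i₀ + 1), nrm T fun n => w n * D.pc Y (Ui (Real.log Y) i) th1 (D.z n) := by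
  refine (nrm_sum (range (i₀ + 1)) (c := fun n i => (Ui (Real.log Y) i : ℂ) *
    (w n * D.pc Y (Ui (Real.log Y) i) th1 (D.z n))) fun n _ => ?_).trans ?_
  · rw [Dat.Q1, mul_sum]
    refine (norm_sum_le _ _).trans (le_of_eq (sum_congr rfl fun i _ => ?_))
    rw [mul_left_comm]
  · rw [mul_sum]
    refine sum_le_sum fun i _ => nrm_le_mul hL.le fun n _ => ?_
    rw [norm_mul, Complex.norm_real, Real.norm_of_nonneg (Ui_pos hL i).le]
    exact mul_le_mul_of_nonneg_right ((Ui_le hL i).trans (by linarith)) (norm_nonneg _)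

/-- `nrm_sum`, `Ui ≤ L`, `sm_th1`. -/
theorem Dat.Q1_nrm (D : Dat) (c : ℕ) (hc : 1 ≤ c) : ∃ C : ℝ, 0 ≤ C ∧ ∀ (A Z : ℝ) (N i₀ I J : ℕ),
    32 * c ≤ A → 1 ≤ N → Pa A i₀ N Z I J →
    nrm (Ico N (2 * N)) (fun n => D.MM c Z J (D.z n) * D.Q1 N i₀ (D.z n)) ≤
      C * √N * (Real.log N * √(Real.log N) / Z) ∧
    nrm (D.bad c N Z J i₀) (fun n => D.MM c Z J (D.z n) * D.Q1 N i₀ (D.z n)) ≤
      C * √N * (Real.log N * √(Real.log N) / Z) * (2 : ℝ) ^ (-(7 * i₀ : ℝ) / 24) := by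
  obtain ⟨j, C, hC, H⟩ := D.low_pieces c hc
  obtain ⟨B, hB⟩ := sm_th1 j
  refine ⟨C * B, mul_nonneg hC (cf2_B hB), fun A Z N i₀ I J hA hN hP => ?_⟩
  have hc' : (1 : ℝ) ≤ c := by exact_mod_cast hc
  have hL := cf2_L (by linarith) hP
  obtain ⟨K1, K2⟩ := H A Z B N i₀ I J th1 hA hN hP hB
  refine ⟨(cf2_Q1 D hL i₀ _ _).trans ((mul_le_mul_of_nonneg_left K1 hL.le).trans (le_of_eq ?_)),
    (cf2_Q1 D hL i₀ _ _).trans ((mul_le_mul_of_nonneg_left K2 hL.le).trans (le_of_eq ?_))⟩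
  · ring
  · ring

/-- Put `a = min (dep r) J`. On the good set `MM = VV 0 a ^ 3 * VV a J ^ 3 ≤ bar i₀ (dep r) * VV a J ^ 3`.
`sm2` with `b = a`; `U = Ui L (i₀ + r) = A Z / 2 ^ r ≥ 4`, `dep_le`, `ly (Z / 2 ^ a) ≥ Z / 2 ^ dep r`;
`4 Z / 2 ^ a ≤ U` because `r ≤ dep r`, and `Z / 2 ^ J ≤ 1`. -/
theorem Dat.up_piece (D : Dat) (c : ℕ) (hc : 1 ≤ c) : ∃ (j : ℕ) (C : ℝ), 0 ≤ C ∧ ∀ (A Z B : ℝ)
    (N i₀ I J r : ℕ) (Θ : ℝ → ℂ) (T : Finset ℕ), 544 * c ≤ A → 1 ≤ N → Pa A i₀ N Z I J → i₀ + r ≤ I →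
    Sm j 1 4 B Θ → T ⊆ Ico N (2 * N) → (∀ n ∈ T, D.Good c Z J i₀ (D.z n)) →
    Ui (Real.log N) (i₀ + r) *
        nrm T (fun n => D.MM c Z J (D.z n) * D.pc N (Ui (Real.log N) (i₀ + r)) Θ (D.z n)) ≤
      C * B * √N * (A * √A) * ((2 : ℝ) ^ (7 * (i₀ : ℝ) / 8) * √Z) *
        ((2 : ℝ) ^ (11 * (dep r : ℝ) / 8 - 3 * (r : ℝ) / 2) * √(r + 1)) := by
  obtain ⟨j, C, hC, H⟩ := D.sm2 c hc
  refine ⟨j, √C, Real.sqrt_nonneg _, fun A Z B N i₀ I J r Θ T hA hN hP hr hΘ hT hG => ?_⟩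
  have hc' : (1 : ℝ) ≤ c := by exact_mod_cast hc
  have hA1 : 1 ≤ A := by linarith
  have hA0 : 0 < A := by linarith
  have hZ0 : 0 < Z := one_pos.trans_le hP.one_le
  have hB := cf2_B hΘ
  have hL0 := cf2_L hA1 hP
  have hZL := cf2_ZL hA1 hP
  set L := Real.log N with hLdef
  set U := Ui L (i₀ + r) with hU
  have hUe : U = A * Z / 2 ^ r := by
    rw [hU, hP.hZ, Ui, Ui]
    field_simp
    ring
  have hU4 : 4 ≤ U := hP.hI.trans (Ui_anti hL0 hr)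
  have hU0 : 0 < U := by linarith
  set a := min (dep r) J with ha
  have h1 := H N Z U B a a J Θ hN hZ0.le hZL hP.hJ le_rfl (min_le_right _ _)
    (by
      rcases le_total (dep r) J with h | h
      · left
        rw [ha, min_eq_left h, hUe, mul_div_assoc', div_le_div_iff₀ (by positivity) (by positivity)]
        calc 32 * c * (1 + dep r) * Z * 2 ^ r = 32 * c * Z * ((1 + dep r) * 2 ^ r) := by ring
          _ ≤ 32 * c * Z * (17 * 2 ^ dep r) := by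
            have := dep_le r
            gcongr
          _ = 544 * c * Z * 2 ^ dep r := by ring
          _ ≤ _ := by gcongr
      · exact Or.inr (min_eq_right h))
    (by
      have h2 : 4 * (Z / 2 ^ a) ≤ U := by
        rcases le_total (dep r) J with h | h
        · rw [ha, min_eq_left h, hUe, mul_div_assoc]
          have h3 : Z / 2 ^ dep r ≤ Z / 2 ^ r := div_le_div_of_nonneg_left hZ0.le (by positivity)
            (pow_le_pow_right₀ one_le_two (Nat.le_add_right _ _))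
          exact mul_le_mul (by linarith) h3 (by positivity) hA0.le
        · rw [ha, min_eq_right h]
          have h3 : Z / 2 ^ J ≤ 1 := by
            rw [div_le_one (by positivity)]
            linarith [hP.hJ]
          linarith
      rw [ly]
      rcases max_cases 1 (Z / 2 ^ a) with h | h <;> rw [h.1] <;> linarith) hΘ
  have h3 : Z / 2 ^ dep r ≤ ly (Z / 2 ^ a) :=
    (div_le_div_of_nonneg_left hZ0.le (by positivity)
      (pow_le_pow_right₀ one_le_two (min_le_left _ _))).trans (le_max_right _ _)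
  have h4 : nrm (Ico N (2 * N)) (fun n => ((D.VV c Z a J (D.z n) ^ 3 : ℝ) : ℂ) * D.pc N U Θ (D.z n)) ≤
      √C * B * √N * √U / (Z / 2 ^ dep r) := by
    refine nrm_le_of_sq (by positivity) (le_trans (le_of_eq ?_) (h1.trans ?_))
    · refine sum_congr rfl fun n _ => ?_
      rw [Dat.VV_self, norm_mul, Complex.norm_real,
        Real.norm_of_nonneg (pow_pos (Dat.VV_pos ..) _).le]
      ring
    · rw [sub_self, mul_zero, zero_div, Real.rpow_zero, mul_one]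
      simp only [mul_pow, div_pow (√C * B * √N * √U)]
      rw [Real.sq_sqrt hC, Real.sq_sqrt (Nat.cast_nonneg N), Real.sq_sqrt hU0.le, mul_right_comm C N]
      gcongr
  have h5 : nrm T (fun n => D.MM c Z J (D.z n) * D.pc N U Θ (D.z n)) ≤ bar i₀ (dep r) *
      nrm T (fun n => ((D.VV c Z a J (D.z n) ^ 3 : ℝ) : ℂ) * D.pc N U Θ (D.z n)) := by
    refine nrm_le_mul (by unfold bar; positivity) fun n hn => ?_
    have h6 : D.VV c Z 0 a (D.z n) ^ 3 ≤ bar i₀ (dep r) := by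
      refine (hG n hn a (min_le_right _ _)).trans (Real.rpow_le_rpow_of_exponent_le one_le_two ?_)
      have : (a : ℝ) ≤ dep r := by exact_mod_cast min_le_left _ _
      linarith
    rw [Dat.MM, norm_mul, norm_mul, Complex.norm_real, Complex.norm_real, ← mul_assoc,
      Real.norm_of_nonneg (pow_pos (Dat.VV_pos ..) _).le,
      Real.norm_of_nonneg (pow_pos (Dat.VV_pos ..) _).le,
      ← D.VV_mul c Z (Nat.zero_le a) (min_le_right _ _), mul_pow]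
    have := (D.VV_pos c Z a J (D.z n)).le
    gcongr
  have h6 : U * √U / (Z / 2 ^ dep r) * bar i₀ (dep r) = A * √A * ((2 : ℝ) ^ (7 * (i₀ : ℝ) / 8) * √Z) *
      (2 : ℝ) ^ (11 * (dep r : ℝ) / 8 - 3 * (r : ℝ) / 2) := by
    have e1 : √((2 : ℝ) ^ r) = (2 : ℝ) ^ ((r : ℝ) / 2) := by
      rw [Real.sqrt_eq_rpow, ← Real.rpow_natCast, ← Real.rpow_mul zero_le_two]
      congr 1
      ring
    have e2 : (2 : ℝ) ^ (7 * (i₀ : ℝ) / 8) * (2 : ℝ) ^ (11 * (dep r : ℝ) / 8 - 3 * (r : ℝ) / 2) *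
        (2 ^ r * (2 : ℝ) ^ ((r : ℝ) / 2)) = 2 ^ dep r * bar i₀ (dep r) := by
      rw [bar, ← Real.rpow_natCast, ← Real.rpow_natCast]
      simp only [← Real.rpow_add two_pos]
      congr 1
      ring
    have e3 : (0 : ℝ) < (2 : ℝ) ^ ((r : ℝ) / 2) := by positivity
    rw [hUe, Real.sqrt_div (by positivity), Real.sqrt_mul hA0.le, e1]
    calc _ = A * √A * √Z * (2 ^ dep r * bar i₀ (dep r)) / (2 ^ r * (2 : ℝ) ^ ((r : ℝ) / 2)) := by
          field_simp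
      _ = _ := by
          rw [← e2]
          field_simp
  have h7 : (1 : ℝ) ≤ √(r + 1) := Real.one_le_sqrt.2 (by linarith [Nat.cast_nonneg (α := ℝ) r])
  calc _ ≤ U * (bar i₀ (dep r) * (√C * B * √N * √U / (Z / 2 ^ dep r))) :=
        mul_le_mul_of_nonneg_left (h5.trans (mul_le_mul_of_nonneg_left ((nrm_subset hT).trans h4)
          (by unfold bar; positivity))) hU0.le
    _ = √C * B * √N * (U * √U / (Z / 2 ^ dep r) * bar i₀ (dep r)) * 1 := by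
        ring
    _ ≤ √C * B * √N * (U * √U / (Z / 2 ^ dep r) * bar i₀ (dep r)) * √(r + 1) :=
        mul_le_mul_of_nonneg_left h7 (by unfold bar; positivity)
    _ = _ := by
        rw [h6]
        ring

/-- `sum_dep`. -/
theorem Dat.up_pieces (D : Dat) (c : ℕ) (hc : 1 ≤ c) : ∃ (j : ℕ) (C : ℝ), 0 ≤ C ∧ ∀ (A Z B : ℝ)
    (N i₀ I J : ℕ) (Θ : ℝ → ℂ) (T : Finset ℕ), 544 * c ≤ A → 1 ≤ N → Pa A i₀ N Z I J →
    Sm j 1 4 B Θ → T ⊆ Ico N (2 * N) → (∀ n ∈ T, D.Good c Z J i₀ (D.z n)) →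
    ∑ i ∈ Ico (i₀ + 1) (I + 1), Ui (Real.log N) i *
        nrm T (fun n => D.MM c Z J (D.z n) * D.pc N (Ui (Real.log N) i) Θ (D.z n)) ≤
      C * B * √N * (A * √A) * ((2 : ℝ) ^ (7 * (i₀ : ℝ) / 8) * √Z) := by
  obtain ⟨j, C, hC, H⟩ := D.up_piece c hc
  obtain ⟨C', hC', H'⟩ := sum_dep
  refine ⟨j, C * C', mul_nonneg hC hC', fun A Z B N i₀ I J Θ T hA hN hP hΘ hT hG => ?_⟩
  have hc' : (1 : ℝ) ≤ c := by exact_mod_cast hc
  have hA0 : 0 < A := by linarith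
  have hB := cf2_B hΘ
  have h1 := sum_le_sum fun r (hr : r ∈ range (I + 1 - i₀)) =>
    H A Z B N i₀ I J r Θ T hA hN hP (by have := mem_range.1 hr; omega) hΘ hT hG
  rw [← mul_sum, ← sum_Ico_eq_sum_range (fun i => Ui (Real.log N) i *
    nrm T fun n => D.MM c Z J (D.z n) * D.pc N (Ui (Real.log N) i) Θ (D.z n))] at h1
  have hL0 := cf2_L (by linarith) hP
  refine (sum_le_sum_of_subset_of_nonneg (Ico_subset_Ico_left (Nat.le_succ _)) fun i _ _ =>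
    mul_nonneg (Ui_pos hL0 i).le (nrm_nonneg _ _)).trans (h1.trans
    ((mul_le_mul_of_nonneg_left (H' _) (by positivity)).trans (le_of_eq ?_)))
  ring

end Pool.Agent.Lib.MP_bcfefa_nt
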