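import Pool.Agent.Lib.MP_bcfefa_nt.CSm
import Pool.Agent.Lib.MP_bcfefa_nt.BT1

set_option autoImplicit false

noncomputable section

namespace Pool.Agent.Lib.MP_bcfefa_nt

open Complex Finset MeasureTheory Pool.Agent.Lib.MP_03e5d0_nt
open scoped Real ContDiff

/-! The first moment. -/

theorem cfm_v_le (Y : ℝ) (e : Xp) : Real.log Y - Real.log (Nm e) ≤ Real.log Y :=
  sub_le_self _ (Real.log_natCast_nonneg _)

theorem cfm_mem (D : Dat) (c : ℕ) {Z : ℝ} (hZ : 0 ≤ Z) (J : ℕ) :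
    D.MM c Z J ∈ D.TP (Real.exp (24 * c * Z)) := by
  have h := D.VV_mem c hZ 0 J 3
  have e : (8 * c * (3 : ℕ) * (1 + (0 : ℕ)) * (Z / 2 ^ 0) : ℝ) = 24 * c * Z := by
    push_cast
    ring
  rw [e] at h
  exact h

theorem cfm_cont (D : Dat) (c : ℕ) (Z : ℝ) (J : ℕ) : Continuous (D.MM c Z J) :=
  continuous_ofReal.comp ((D.continuous_VV c Z 0 J).pow 3)

theorem cfm_norm (D : Dat) (c : ℕ) (Z : ℝ) (J : ℕ) (z : Tor) :
    ‖D.MM c Z J z‖ = D.VV c Z 0 J z ^ 3 := by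
  rw [Dat.MM, norm_real, Real.norm_of_nonneg (pow_pos (D.VV_pos c Z 0 J z) 3).le]

theorem cfm_zero (D : Dat) (c : ℕ) {Z : ℝ} (hZ : 0 ≤ Z) (J : ℕ) {e : Xp}
    (he : e ∉ EE (D.pr Z) (Real.exp (24 * c * Z))) : ∫ z, ch e z * D.MM c Z J z ∂mu = 0 := by
  rw [mem_EE (D.pr_prime Z), not_and_or] at he
  rcases he with he | he
  · obtain ⟨p, hp, hp'⟩ := not_subset.1 he
    have hd := D.dep_VV c hZ 0 J
    rw [pow_zero, div_one] at hd
    refine int_ch_mul (S := (D.pr Z : Set ℕ)) (p := p) (fun z z' h => ?_) (by exact_mod_cast hp')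
      (Finsupp.mem_support_iff.1 hp)
    rw [Dat.MM, Dat.MM, hd z z' h]
  · exact Dat.int_ch_eq_zero (cfm_mem D c hZ J) (not_le.1 he)

theorem cfm_FF_cont (D : Dat) (Z : ℝ) {α : ℂ} (hα : -1 / 2 < α.re) :
    Continuous (FF (D.pr Z) (xi α)) :=
  continuous_FF fun p hp => norm_xi_lt (D.pr_prime Z p hp) hα

theorem cfm_FF_real (D : Dat) (Z : ℝ) (z : Tor) :
    FF (D.pr Z) (xi 0) z = (‖FF (D.pr Z) (xi 0) z‖ : ℝ) := by
  rw [FF, norm_prod, ofReal_prod]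
  refine prod_congr rfl fun p hp => ?_
  have hp' := D.pr_prime Z p hp
  have h1 := norm_xi_lt hp' (α := 0) (by rw [zero_re]; norm_num)
  rw [xi_zero hp'.pos] at h1 ⊢
  rw [norm_real, Real.norm_eq_abs] at h1
  exact PK_real h1 (norm_co z p)

theorem Dat.Q1_eq (D : Dat) {Y : ℝ} (hY : 1 < Y) (I : ℕ) (z : Tor) : D.Q1 Y I z = D.sm Y
    (fun v => ((v * Real.smoothTransition (v / Ui (Real.log Y) I - 1) : ℝ) : ℂ)) z := by
  simp only [Dat.Q1, Dat.pc, Dat.sm, mul_sum]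
  rw [sum_comm]
  refine sum_congr rfl fun e _ => ?_
  rw [← sum_th1 (Real.log_pos hY) (cfm_v_le Y e) I, sum_div, mul_sum]
  exact sum_congr rfl fun i _ => by ring

theorem Dat.Q0_eq (D : Dat) {Y : ℝ} (hY : 1 < Y) (I : ℕ) (z : Tor) : D.Q0 Y I z = D.sm Y
    (fun v => ((Real.smoothTransition (v / Ui (Real.log Y) I - 1) : ℝ) : ℂ)) z := by
  simp only [Dat.Q0, Dat.pc, Dat.sm]
  rw [sum_comm]
  refine sum_congr rfl fun e _ => ?_
  rw [← sum_th0 (Real.log_pos hY) (cfm_v_le Y e) I, sum_div, mul_sum]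

/-- The finite Dirichlet polynomial of the mollifier. -/
def Dat.Dp (D : Dat) (c : ℕ) (Z : ℝ) (J : ℕ) (α : ℂ) : ℂ :=
  ∑ e ∈ EE (D.pr Z) (Real.exp (24 * c * Z)),
    (∫ z, ch e z * D.MM c Z J z ∂mu) * (cexp (-(α * Real.log (Nm e))) / (√(Nm e) : ℝ))

/-- `int_mul_FF`, `VV_mem` with `e = 3`, `int_ch_eq_zero`, `hasSum_sum_of_ne_finset_zero`. -/
theorem Dat.Dp_eq (D : Dat) (c : ℕ) {Z : ℝ} (hZ : 0 ≤ Z) (J : ℕ) {α : ℂ} (hα : -1 / 2 < α.re) :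
    D.Dp c Z J α = ∫ z, D.MM c Z J z * FF (D.pr Z) (xi α) z ∂mu := by
  have h1 := int_mul_FF (D.pr_prime Z) hα (cfm_cont D c Z J)
  have h2 := h1.unique (hasSum_sum_of_ne_finset_zero (s := EE (D.pr Z) (Real.exp (24 * c * Z)))
    fun e he => by rw [cfm_zero D c hZ J he, zero_mul, ite_self])
  rw [h2, Dat.Dp]
  refine sum_congr rfl fun e he => ?_
  rw [if_pos ((mem_EE (D.pr_prime Z)).1 he).1]

theorem cfm_Dp_le (D : Dat) : ∃ C : ℝ, 0 ≤ C ∧ ∀ (c : ℕ) (Z : ℝ) (J : ℕ) (α : ℂ), 1 ≤ c → 1 ≤ Z →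
    2 * Z ≤ 2 ^ J → ‖α‖ = 1 / (4 * Z) → ‖D.Dp c Z J α‖ ≤ C / √Z := by
  obtain ⟨k, C, hC, hk⟩ := D.ker2
  refine ⟨(1 + C * 2 ^ k) / 2, by positivity, fun c Z J α hc hZ hJ hα => ?_⟩
  have hZ0 : 0 < Z := by linarith
  have hs : 0 < √Z := Real.sqrt_pos.2 hZ0
  have hss : √Z * √Z = Z := Real.mul_self_sqrt hZ0.le
  have hn : ‖α‖ * Z = 1 / 4 := by
    rw [hα]
    field_simp
  have hre : |α.re| * Z ≤ 1 / 4 := by
    rw [← hn]
    exact mul_le_mul_of_nonneg_right (abs_re_le_norm α) hZ0.le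
  have hre' : -1 / 2 < α.re := by
    have h1 : |α.re| ≤ 1 / 4 := by nlinarith [abs_nonneg α.re]
    linarith [neg_abs_le α.re]
  have hly : ly (Z / 2 ^ 0) = Z := by
    rw [pow_zero, div_one, ly, max_eq_right hZ]
  have h1 := hk c Z 0 0 J α hc hZ0.le hJ le_rfl (Nat.zero_le J) (by rw [hly]; exact hre)
  rw [hly, hn] at h1
  simp only [D.VV_self, one_pow, one_mul, pow_zero, div_one, sub_self, mul_zero, zero_div,
    Real.rpow_zero, mul_one] at h1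
  have h2 : C / Z * (1 + 1 / 4) ^ k ≤ C / Z * 2 ^ k := by gcongr; norm_num
  have hF := cfm_FF_cont D Z hre'
  have hV := D.continuous_VV c Z 0 J
  have i1 : Integrable (fun z => D.VV c Z 0 J z ^ 6 * ‖FF (D.pr Z) (xi α) z‖ ^ 2) mu :=
    ci ((hV.pow 6).mul (hF.norm.pow 2))
  rw [D.Dp_eq c hZ0.le J hre']
  calc ‖∫ z, D.MM c Z J z * FF (D.pr Z) (xi α) z ∂mu‖
      ≤ ∫ z, (1 / √Z + √Z * (D.VV c Z 0 J z ^ 6 * ‖FF (D.pr Z) (xi α) z‖ ^ 2)) / 2 ∂mu := by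
        refine norm_integral_le_of_norm_le (((integrable_const _).add (i1.const_mul _)).div_const _)
          (Filter.Eventually.of_forall fun z => ?_)
        rw [norm_mul, cfm_norm]
        set t := D.VV c Z 0 J z ^ 3 * ‖FF (D.pr Z) (xi α) z‖ with ht
        have e : D.VV c Z 0 J z ^ 6 * ‖FF (D.pr Z) (xi α) z‖ ^ 2 = t ^ 2 := by
          rw [ht]
          ring
        rw [e]
        have h3 : (1 / √Z + √Z * t ^ 2) / 2 - t = (√Z * t - 1) ^ 2 / (2 * √Z) := by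
          field_simp
          ring
        have h4 : 0 ≤ (√Z * t - 1) ^ 2 / (2 * √Z) := by positivity
        linarith
    _ = (1 / √Z + √Z * ∫ z, D.VV c Z 0 J z ^ 6 * ‖FF (D.pr Z) (xi α) z‖ ^ 2 ∂mu) / 2 := by
        rw [integral_div, integral_add (integrable_const _) (i1.const_mul _), integral_const,
          integral_const_mul]
        simp
    _ ≤ (1 / √Z + √Z * (C / Z * 2 ^ k)) / 2 := by gcongr; exact h1.trans h2
    _ = (1 + C * 2 ^ k) / 2 / √Z := by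
        have e : C / Z = C / (√Z * √Z) := by rw [hss]
        rw [e]
        field_simp

/-- `Dp_eq`; `VV ^ 3 ‖F‖ ≤ (1 / √Z + √Z VV ^ 6 ‖F‖ ^ 2) / 2`, `ker2` with `a = b = 0`. Then Cauchy's estimate
on the circle of radius `1 / (4 Z)` (`Complex.norm_deriv_le_of_forall_mem_sphere_norm_le`). -/
theorem Dat.Dp_deriv (D : Dat) : ∃ C : ℝ, 0 ≤ C ∧ ∀ (c : ℕ) (Z : ℝ) (J : ℕ), 1 ≤ c → 1 ≤ Z →
    2 * Z ≤ 2 ^ J → ‖∑ e ∈ EE (D.pr Z) (Real.exp (24 * c * Z)),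
      (∫ z, ch e z * D.MM c Z J z ∂mu) * ((Real.log (Nm e) / √(Nm e) : ℝ) : ℂ)‖ ≤ C * √Z := by
  obtain ⟨C, hC, h⟩ := cfm_Dp_le D
  refine ⟨4 * C, by positivity, fun c Z J hc hZ hJ => ?_⟩
  have hZ0 : 0 < Z := by linarith
  have hs : 0 < √Z := Real.sqrt_pos.2 hZ0
  have hss : √Z * √Z = Z := Real.mul_self_sqrt hZ0.le
  have hd : ∀ α : ℂ, HasDerivAt (D.Dp c Z J) (∑ e ∈ EE (D.pr Z) (Real.exp (24 * c * Z)),
      (∫ z, ch e z * D.MM c Z J z ∂mu) *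
        (cexp (-(α * Real.log (Nm e))) * (-(1 * Real.log (Nm e))) / (√(Nm e) : ℝ))) α := fun α =>
    HasDerivAt.fun_sum fun e _ =>
      ((((hasDerivAt_id α).mul_const _).neg.cexp).div_const _).const_mul _
  have hb := Complex.norm_deriv_le_of_forall_mem_sphere_norm_le (c := 0) (R := 1 / (4 * Z))
    (C := C / √Z) (f := D.Dp c Z J) (by positivity)
    (Differentiable.diffContOnCl fun α => (hd α).differentiableAt)
    fun α hα => h c Z J α hc hZ hJ (by simpa using hα)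
  rw [(hd 0).deriv] at hb
  have e1 : ∑ e ∈ EE (D.pr Z) (Real.exp (24 * c * Z)), (∫ z, ch e z * D.MM c Z J z ∂mu) *
      (cexp (-(0 * Real.log (Nm e))) * (-(1 * Real.log (Nm e))) / (√(Nm e) : ℝ)) =
      -∑ e ∈ EE (D.pr Z) (Real.exp (24 * c * Z)),
        (∫ z, ch e z * D.MM c Z J z ∂mu) * ((Real.log (Nm e) / √(Nm e) : ℝ) : ℂ) := by
    rw [← sum_neg_distrib]
    refine sum_congr rfl fun e _ => ?_
    rw [zero_mul, neg_zero, Complex.exp_zero]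
    push_cast
    ring
  rw [e1, norm_neg] at hb
  refine hb.trans (le_of_eq ?_)
  have e2 : 1 / (4 * Z) = 1 / (4 * (√Z * √Z)) := by rw [hss]
  rw [e2]
  field_simp

theorem cfm_int (D : Dat) (c : ℕ) {Y Z : ℝ} (J : ℕ) {i₀ : ℕ} (hY : 1 < Y) (hZ : 0 ≤ Z) (hi : 1 ≤ i₀)
    (hL : 48 * c * Z ≤ Real.log Y) : ∫ z, D.MM c Z J z * D.Q1 Y i₀ z ∂mu =
      Real.log Y * D.Dp c Z J 0 - ∑ e ∈ EE (D.pr Z) (Real.exp (24 * c * Z)),
        (∫ z, ch e z * D.MM c Z J z ∂mu) * ((Real.log (Nm e) / √(Nm e) : ℝ) : ℂ) := by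
  have hL0 : 0 < Real.log Y := Real.log_pos hY
  have hsub : EE (D.pr Z) (Real.exp (24 * c * Z)) ⊆ D.E Y := by
    intro e he
    rw [mem_EE (D.pr_prime Z)] at he
    refine D.mem_E.2 ⟨fun p hp => (D.mem_pr.1 (he.1 hp)).1, he.2.trans ?_⟩
    rw [← Real.exp_log (by linarith : 0 < Y)]
    exact Real.exp_le_exp.2 (by nlinarith [mul_nonneg (Nat.cast_nonneg (α := ℝ) c) hZ])
  have e1 : ∀ z, D.MM c Z J z * D.Q1 Y i₀ z = ∑ e ∈ D.E Y, ch e z * D.MM c Z J z *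
      ((((Real.log Y - Real.log (Nm e)) * Real.smoothTransition
        ((Real.log Y - Real.log (Nm e)) / Ui (Real.log Y) i₀ - 1) : ℝ) : ℂ) / (√(Nm e) : ℝ)) := by
    intro z
    rw [D.Q1_eq hY, Dat.sm, mul_sum]
    exact sum_congr rfl fun e _ => by ring
  simp only [e1]
  rw [integral_finsetSum _ fun e _ =>
    (ci (f := fun z => ch e z * D.MM c Z J z)
      ((continuous_ch e).mul (cfm_cont D c Z J))).mul_const _]
  simp only [integral_mul_const]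
  rw [← sum_subset hsub fun e _ he => by rw [cfm_zero D c hZ J he, zero_mul], Dat.Dp, mul_sum,
    ← sum_sub_distrib]
  refine sum_congr rfl fun e he => ?_
  have hp : Pm e := (D.mem_E.1 (hsub he)).1.pm
  rw [mem_EE (D.pr_prime Z)] at he
  have h1 : (1 : ℝ) ≤ Nm e := by exact_mod_cast hp.one_le
  have h2 : Real.log (Nm e) ≤ 24 * c * Z := (Real.log_le_iff_le_exp (by linarith)).2 he.2
  have h3 : Ui (Real.log Y) i₀ ≤ Real.log Y / 4 :=
    (Ui_anti hL0 hi).trans (le_of_eq (by rw [Ui]; norm_num))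
  have h4 := Ui_pos hL0 i₀
  have h5 : 1 ≤ (Real.log Y - Real.log (Nm e)) / Ui (Real.log Y) i₀ - 1 := by
    rw [le_sub_iff_add_le, le_div_iff₀ h4]
    linarith
  rw [Real.smoothTransition.one_of_one_le h5, zero_mul, neg_zero, Complex.exp_zero]
  push_cast
  ring

/-- `Q1_eq`. The coefficient `∫ ch e * MM` vanishes unless `e ∈ EE (D.pr Z) (exp (24 c Z))`
(`int_ch_eq_zero`, `int_ch_mul` with `dep_VV`); for such `e` one has `v ≥ L / 2 ≥ 2 Ui L i₀`, so the weight is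
`L - log (Nm e)`. `Dp_eq` at `α = 0`, `PK_real`, `ker_low`, `Dp_deriv`. -/
theorem Dat.fm_model (D : Dat) : ∃ (c : ℕ) (cF C : ℝ), 1 ≤ c ∧ 0 < cF ∧ 0 ≤ C ∧ ∀ (Y Z : ℝ) (J i₀ : ℕ),
    1 < Y → 1 ≤ Z → 2 * Z ≤ 2 ^ J → 1 ≤ i₀ → 48 * c * Z ≤ Real.log Y →
    cF * (Real.log Y / √Z) - C * √Z ≤ ‖∫ z, D.MM c Z J z * D.Q1 Y i₀ z ∂mu‖ := by
  obtain ⟨c, κ, hc, hκ, hl⟩ := D.ker_low
  obtain ⟨C, hC, hd⟩ := D.Dp_deriv
  refine ⟨c, κ, C, hc, hκ, hC, fun Y Z J i₀ hY hZ hJ hi hL => ?_⟩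
  have hL0 : 0 < Real.log Y := Real.log_pos hY
  rw [cfm_int D c J hY (by linarith) hi hL]
  refine le_trans ?_ (norm_sub_norm_le _ _)
  have e1 : D.Dp c Z J 0 = ((∫ z, D.VV c Z 0 J z ^ 3 * ‖FF (D.pr Z) (xi 0) z‖ ∂mu : ℝ) : ℂ) := by
    rw [D.Dp_eq c (by linarith) J (by rw [zero_re]; norm_num), ← integral_complex_ofReal]
    refine integral_congr_ae (Filter.Eventually.of_forall fun z => ?_)
    dsimp only
    rw [ofReal_mul, ← cfm_FF_real, Dat.MM]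
  have h1 : κ / √Z ≤ ‖D.Dp c Z J 0‖ := by
    rw [e1, norm_real]
    exact (hl Z J hZ hJ).trans (le_abs_self _)
  have h2 := hd c Z J hc hZ hJ
  rw [norm_mul, norm_real, Real.norm_of_nonneg hL0.le]
  have h3 : κ * (Real.log Y / √Z) = Real.log Y * (κ / √Z) := by ring
  have h4 := mul_le_mul_of_nonneg_left h1 hL0.le
  linarith

/-- For fixed `A`, `i₀` the number `Z = log N / (2 ^ (i₀ + 1) A)` tends to infinity with `N`. -/
theorem fm_small {K : ℝ} (hK : 0 < K) (C : ℝ) : ∃ N₀ : ℕ, ∀ N : ℕ, N₀ ≤ N → ∀ Z : ℝ, Real.log N = K * Z →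
    C * Real.log N * Z * (1 / N + Real.exp (-Z)) ≤ 1 := by
  have t0 : Filter.Tendsto (fun N : ℕ => Real.log N) Filter.atTop Filter.atTop :=
    Real.tendsto_log_atTop.comp tendsto_natCast_atTop_atTop
  have t1 := ((Real.tendsto_pow_mul_exp_neg_atTop_nhds_zero 2).comp t0).const_mul (C / K)
  have t2 := ((Real.tendsto_pow_mul_exp_neg_atTop_nhds_zero 2).comp
    (t0.atTop_div_const hK)).const_mul (C * K)
  have t3 := t1.add t2
  rw [mul_zero, mul_zero, add_zero] at t3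
  obtain ⟨N₀, h⟩ := Filter.eventually_atTop.1
    ((t3.eventually (ge_mem_nhds one_pos)).and (Filter.eventually_ge_atTop 1))
  refine ⟨N₀, fun N hN Z hZ => ?_⟩
  obtain ⟨h1, h2⟩ := h N hN
  have hN0 : (0 : ℝ) < N := by exact_mod_cast h2
  have e1 : Real.log N / K = Z := by
    rw [hZ]
    field_simp
  simp only [Function.comp_apply] at h1
  rw [e1, Real.exp_neg (Real.log N), Real.exp_log hN0] at h1
  refine le_trans (le_of_eq ?_) h1
  rw [hZ]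
  field_simp

theorem cfm_err {C₂ C₆ L Z I' y : ℝ} {N m H k : ℕ} (h2 : 0 ≤ C₂) (h6 : 0 ≤ C₆) (hL : 0 ≤ L) (hZ : 0 ≤ Z)
    (hy : 0 < y) (hI : I' ≤ C₆ * Z ^ 2) (hm : 0 < m) (hN : 0 < N) (hH : N ≤ 8 * m * H)
    (hmH : m * H ≤ N) (hy1 : y ^ (10 * k + 9) ≤ N) (hy2 : 1 / y ^ 3 ≤ Real.exp (-Z))
    (hs : 64 * m ^ 2 * C₂ * √C₆ * L * Z * (1 / N + Real.exp (-Z)) ≤ 1) :
    C₂ * L * √(y ^ 2 * I') * (y ^ 8 * (y ^ 2 * y ^ 8) ^ k + max ((m : ℝ) * H) N * H / √(y ^ 8)) ≤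
      (H : ℝ) ^ 2 := by
  have a1 : √(y ^ 2 * I') ≤ y * √C₆ * Z := by
    refine Real.sqrt_le_iff.2 ⟨by positivity, ?_⟩
    rw [mul_pow, mul_pow, Real.sq_sqrt h6, mul_assoc]
    exact mul_le_mul_of_nonneg_left hI (by positivity)
  have a2 : √(y ^ 8) = y ^ 4 := by
    rw [show y ^ 8 = (y ^ 4) ^ 2 by ring, Real.sqrt_sq (by positivity)]
  have a3 : max ((m : ℝ) * H) N = N := max_eq_right (by exact_mod_cast hmH)
  have hN' : (0 : ℝ) < N := by exact_mod_cast hN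
  have hm' : (1 : ℝ) ≤ m := by exact_mod_cast hm
  have hH' : (N : ℝ) ≤ 8 * m * H := by exact_mod_cast hH
  have hH0 : (0 : ℝ) ≤ H := Nat.cast_nonneg H
  have b1 : (N : ℝ) ≤ 64 * m ^ 2 * H ^ 2 * (1 / N) := by
    rw [mul_one_div, le_div_iff₀ hN']
    nlinarith
  have b2 : (N : ℝ) * H ≤ 64 * m ^ 2 * H ^ 2 := by
    have c1 : (N : ℝ) * H ≤ 8 * m * H * H := mul_le_mul_of_nonneg_right hH' hH0
    have c2 : (8 : ℝ) * m ≤ 64 * m ^ 2 := by nlinarith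
    nlinarith [mul_le_mul_of_nonneg_right c2 (mul_nonneg hH0 hH0)]
  rw [a2, a3]
  calc C₂ * L * √(y ^ 2 * I') * (y ^ 8 * (y ^ 2 * y ^ 8) ^ k + N * H / y ^ 4)
      ≤ C₂ * L * (y * √C₆ * Z) * (y ^ 8 * (y ^ 2 * y ^ 8) ^ k + N * H / y ^ 4) := by gcongr
    _ = C₂ * √C₆ * L * Z * (y ^ (10 * k + 9) + N * H * (1 / y ^ 3)) := by
        have e : (y ^ 2 * y ^ 8) ^ k = y ^ (10 * k) := by
          rw [← pow_add, ← pow_mul]
        rw [e, pow_add]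
        field_simp
    _ ≤ C₂ * √C₆ * L * Z * (64 * m ^ 2 * H ^ 2 * (1 / N) + 64 * m ^ 2 * H ^ 2 * Real.exp (-Z)) := by
        gcongr
        exact hy1.trans b1
    _ = H ^ 2 * (64 * m ^ 2 * C₂ * √C₆ * L * Z * (1 / N + Real.exp (-Z))) := by ring
    _ ≤ H ^ 2 * 1 := by gcongr
    _ = _ := mul_one _

open Classical in
/-- Take `n` with `N ≤ n < N + m`, `n ≡ j₀ mod m`, `H = N / (4 m)` (so `N ≤ 8 m H` and `n + 2 m H ≤ 2 N` for
`N ≥ 4 m`). `t1` with `f = MM`, `Y = N`, `Y₀ = exp (24 c Z)`, `Y₁ = Y₀ ^ 4`, `B = log N`, `ker6`; for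
`A ≥ 24 c (5 k + 5)` one has `√Y₀ Y₁ (Y₀ Y₁) ^ k ≤ N`, and `√Y₀ / √Y₁ ≤ exp (-Z)`. So the error is at most
`C L Z (N + N H exp (-Z)) ≤ H ^ 2` (`fm_small`). `fm_model`, `T1_le`; divide by `H ≥ N / (8 m)`, and `H ≤ N`. -/
theorem Dat.first_moment (D : Dat) (j₀ : ℕ) {m : ℕ} (hm : 0 < m) : ∃ (c : ℕ) (A₀ cF C : ℝ), 1 ≤ c ∧
    1 ≤ A₀ ∧ 0 < cF ∧ 0 ≤ C ∧ ∀ (A : ℝ) (i₀ : ℕ), A₀ ≤ A → 1 ≤ i₀ → ∃ N₀ : ℕ, ∀ (N : ℕ) (Z : ℝ)
    (I J : ℕ), N₀ ≤ N → Pa A i₀ N Z I J →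
    cF * N * (Real.log N / √Z) - C * N * √Z ≤
      ∑ n ∈ (Ico N (2 * N)).filter (fun n => n ≡ j₀ [MOD m]),
        ‖D.MM c Z J (D.z n) * D.Q1 N i₀ (D.z n)‖ := by
  obtain ⟨c, cF, C₁, hc, hcF, hC₁, hmod⟩ := D.fm_model
  obtain ⟨k, C₂, hC₂, ht⟩ := D.t1 hm
  obtain ⟨C₆, hC₆, h6⟩ := D.ker6
  have hc' : (1 : ℝ) ≤ c := by exact_mod_cast hc
  have hk0 : (0 : ℝ) ≤ k := Nat.cast_nonneg k
  have hm' : (0 : ℝ) < m := by exact_mod_cast hm
  refine ⟨c, 12 * c * (10 * k + 9), cF / (8 * m), C₁ + 1, hc, by nlinarith, by positivity,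
    by positivity, fun A i₀ hA hi => ?_⟩
  have hA0 : 0 < A := by nlinarith
  obtain ⟨N₁, hN₁⟩ := fm_small (K := 2 ^ (i₀ + 1) * A) (by positivity) (64 * m ^ 2 * C₂ * √C₆)
  refine ⟨max N₁ (4 * m), fun N Z I J hN hP => ?_⟩
  have hN4 : 4 * m ≤ N := le_of_max_le_right hN
  have hN1 : (1 : ℝ) < N := by exact_mod_cast (by omega : 1 < N)
  have hZ := hP.one_le
  have hL : Real.log N = 2 ^ (i₀ + 1) * A * Z := by
    rw [hP.hZ, Ui]
    field_simp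
  have h4 : (4 : ℝ) ≤ 2 ^ (i₀ + 1) := by
    calc (4 : ℝ) = 2 ^ 2 := by norm_num
      _ ≤ 2 ^ (i₀ + 1) := pow_le_pow_right₀ one_le_two (by omega)
  have hAZ : 4 * (A * Z) ≤ Real.log N := by
    rw [hL, mul_assoc]
    exact mul_le_mul_of_nonneg_right h4 (by positivity)
  have hA1 : 12 * c * (10 * k + 9) * Z ≤ A * Z := mul_le_mul_of_nonneg_right hA (by linarith)
  have hcZ : 0 ≤ (c : ℝ) * Z := by positivity
  have hkcZ : 0 ≤ (k : ℝ) * (c * Z) := by positivity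
  have hL0 : 0 < Real.log N := Real.log_pos hN1
  obtain ⟨n, hn1, hn2, hn3⟩ : ∃ n, N ≤ n ∧ n < N + m ∧ n ≡ j₀ [MOD m] := by
    refine ⟨N + (j₀ + (m - 1) * N) % m, Nat.le_add_right _ _,
      Nat.add_lt_add_left (Nat.mod_lt _ hm) N, ?_⟩
    have e : N + (j₀ + (m - 1) * N) = j₀ + m * N := by
      obtain ⟨m', rfl⟩ : ∃ m', m = m' + 1 := ⟨m - 1, by omega⟩
      rw [Nat.add_sub_cancel]
      ring
    refine ((Nat.mod_modEq _ m).add_left N).trans ?_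
    rw [e]
    exact Nat.modEq_iff_dvd' (Nat.le_add_right _ _) |>.2 (by simp) |>.symm
  set H := N / (4 * m) with hH
  have hH1 : 4 * m * H ≤ N := Nat.mul_div_le N (4 * m)
  have hH2 : N < 4 * m * (H + 1) := Nat.lt_mul_div_succ N (by omega)
  have hH3 : 1 ≤ H := (Nat.le_div_iff_mul_le (by omega)).2 (by omega)
  have hH8 : m * 1 ≤ m * H := Nat.mul_le_mul_left m hH3
  have hH4 : N ≤ 8 * m * H := by linarith
  have hH5 : n + 2 * m * H ≤ 2 * N := by linarith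
  have hH6 : m * H ≤ N := by linarith [Nat.zero_le (m * H)]
  have hH7 : H ≤ N := Nat.div_le_self _ _
  set y : ℝ := Real.exp (12 * c * Z) with hy
  have hy0 : 0 < y := Real.exp_pos _
  have hy1 : 1 ≤ y := Real.one_le_exp (by positivity)
  have hyY : Real.exp (24 * c * Z) = y ^ 2 := by
    rw [hy, ← Real.exp_nat_mul]
    congr 1
    push_cast
    ring
  have hmem := cfm_mem D c (by linarith : 0 ≤ Z) J
  rw [hyY] at hmem
  have hT := ht n H N (y ^ 2) (y ^ 8) (Real.log N) (D.MM c Z J)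
    (fun e => ((((Real.log N - Real.log (Nm e)) * Real.smoothTransition
      ((Real.log N - Real.log (Nm e)) / Ui (Real.log N) i₀ - 1) : ℝ) : ℂ) / (√(Nm e) : ℝ)))
    hN1.le (one_le_pow₀ hy1) (one_le_pow₀ hy1) hL0.le hmem (fun e he => by
      have he' := D.mem_E.1 he
      have h1 : (1 : ℝ) ≤ Nm e := by exact_mod_cast he'.1.pm.one_le
      have h2 : 0 ≤ Real.log N - Real.log (Nm e) :=
        sub_nonneg.2 (Real.log_le_log (by linarith) he'.2)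
      rw [norm_div, norm_real, norm_real, Real.norm_of_nonneg (Real.sqrt_nonneg _),
        Real.norm_of_nonneg (mul_nonneg h2 (Real.smoothTransition.nonneg _))]
      refine div_le_div_of_nonneg_right ?_ (Real.sqrt_nonneg _)
      exact (mul_le_of_le_one_right h2 (Real.smoothTransition.le_one _)).trans (cfm_v_le _ e))
  have hQ : ∀ z, ∑ e ∈ D.E N, ch e z * ((((Real.log N - Real.log (Nm e)) * Real.smoothTransition
      ((Real.log N - Real.log (Nm e)) / Ui (Real.log N) i₀ - 1) : ℝ) : ℂ) / (√(Nm e) : ℝ)) =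
      D.Q1 N i₀ z := fun z => (D.Q1_eq hN1 i₀ z).symm
  simp only [hQ] at hT
  have hI : ∫ z, ‖D.MM c Z J z‖ ^ 2 ∂mu ≤ C₆ * Z ^ 2 := by
    simp only [cfm_norm, ← pow_mul]
    exact h6 c Z J hc hZ
  have hE := hT.trans (cfm_err hC₂ hC₆ hL0.le (by linarith) hy0 hI hm (by omega) hH4 hH6 (by
      rw [hy, ← Real.exp_nat_mul, ← Real.exp_log (by linarith : (0 : ℝ) < N)]
      refine Real.exp_le_exp.2 ?_
      push_cast
      linarith) (by
      rw [hy, ← Real.exp_nat_mul, one_div, ← Real.exp_neg]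
      refine Real.exp_le_exp.2 ?_
      push_cast
      linarith [mul_le_mul_of_nonneg_right hc' (by linarith : (0 : ℝ) ≤ Z)]) (hN₁ N (le_of_max_le_left hN) Z hL))
  have hM := hmod N Z J i₀ hN1 hZ hP.hJ hi (by linarith)
  have hle := D.T1_le hm hn1 hH5 (fun z => D.MM c Z J z * D.Q1 N i₀ z)
  have hf : (Ico N (2 * N)).filter (fun j => j ≡ n [MOD m]) =
      (Ico N (2 * N)).filter (fun j => j ≡ j₀ [MOD m]) :=
    filter_congr fun j _ => ⟨fun h => h.trans hn3, fun h => h.trans hn3.symm⟩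
  rw [hf] at hle
  set S := ∑ j ∈ (Ico N (2 * N)).filter (fun j => j ≡ j₀ [MOD m]),
    ‖D.MM c Z J (D.z j) * D.Q1 N i₀ (D.z j)‖ with hS
  set W := ∫ z, D.MM c Z J z * D.Q1 N i₀ z ∂mu with hW
  have hH0 : (0 : ℝ) < H := by exact_mod_cast hH3
  have g1 : (H : ℝ) ^ 2 * ‖W‖ ≤ H * S + H ^ 2 := by
    have g2 := norm_sub_norm_le ((H : ℂ) ^ 2 * W) (D.T1 n m H fun z => D.MM c Z J z * D.Q1 N i₀ z)
    rw [norm_sub_rev, norm_mul, norm_pow, Complex.norm_natCast] at g2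
    linarith
  have g3 : (H : ℝ) * ‖W‖ ≤ S + H := by
    refine le_of_mul_le_mul_left ?_ hH0
    linarith
  have hs1 : 1 ≤ √Z := Real.one_le_sqrt.2 hZ
  have g4 : cF / (8 * m) * N ≤ cF * H := by
    have : (N : ℝ) ≤ 8 * m * H := by exact_mod_cast hH4
    rw [div_mul_eq_mul_div, div_le_iff₀ (by positivity)]
    linarith [mul_le_mul_of_nonneg_left this hcF.le]
  have g5 : cF / (8 * m) * N * (Real.log N / √Z) ≤ cF * H * (Real.log N / √Z) :=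
    mul_le_mul_of_nonneg_right g4 (by positivity)
  have g6 : (H : ℝ) * ((C₁ + 1) * √Z) ≤ N * ((C₁ + 1) * √Z) :=
    mul_le_mul_of_nonneg_right (by exact_mod_cast hH7) (by positivity)
  have g7 := mul_le_mul_of_nonneg_left hM hH0.le
  have g8 : (H : ℝ) * 1 ≤ H * √Z := mul_le_mul_of_nonneg_left hs1 hH0.le
  linarith

end Pool.Agent.Lib.MP_bcfefa_nt
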