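import Pool.Agent.Lib.MP_bcfefa_nt.CVw
import Pool.Agent.Lib.MP_bcfefa_nt.BTP

set_option autoImplicit false

noncomputable section

namespace Pool.Agent.Lib.MP_bcfefa_nt

open Complex Finset MeasureTheory Pool.Agent.Lib.MP_03e5d0_nt
open scoped Real ContDiff

/-! The top part of the central derivative. -/

/-- The smooth step at scale `U`. -/
def st (U v : ℝ) : ℝ := Real.smoothTransition (v / U - 1)

theorem ctop_st_mem (U v : ℝ) : 0 ≤ st U v ∧ st U v ≤ 1 :=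
  ⟨Real.smoothTransition.nonneg _, Real.smoothTransition.le_one _⟩

theorem ctop_st_one {U v : ℝ} (h4 : 4 ≤ U) (h8 : U ≤ 8) (hv : 16 ≤ v) : st U v = 1 := by
  refine Real.smoothTransition.one_of_one_le ?_
  rw [le_sub_iff_add_le, le_div_iff₀ (by linarith)]
  linarith

theorem ctop_st_zero {U v : ℝ} (h4 : 4 ≤ U) (hv : v ≤ 0) : st U v = 0 := by
  refine Real.smoothTransition.zero_of_nonpos ?_
  have : v / U ≤ 0 := div_nonpos_of_nonpos_of_nonneg hv (by linarith)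
  linarith

theorem ctop_t0_zero (η : ℕ → ℝ) {X : ℝ} (h : X < 1) : t0 η X = 0 := by
  have : ⌊√X⌋₊ = 0 := Nat.floor_eq_zero.2 (by rwa [Real.sqrt_lt' one_pos, one_pow])
  simp [t0, this]

theorem ctop_one_le {D : Dat} {Y : ℝ} {e : Xp} (he : e ∈ D.E Y) : (1 : ℝ) ≤ Nm e :=
  Nat.one_le_cast.2 (D.mem_E.1 he).1.pm.one_le

theorem ctop_tail (D : Dat) : ∃ C : ℝ, 0 ≤ C ∧ (∀ X : ℝ, |t0 D.η X| ≤ C) ∧ ∀ X : ℝ, 1 ≤ X →
    |t0 D.η X - D.κ| ≤ C / √X ∧ |t1 D.η X - D.κ * Real.log X - D.c₁| ≤ C / √√X := by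
  obtain ⟨C, hC⟩ := D.tail
  have h0 : C ≤ |C| + |D.κ| := (le_abs_self C).trans (le_add_of_nonneg_right (abs_nonneg _))
  refine ⟨|C| + |D.κ|, by positivity, fun X => ?_, fun X hX => ⟨(hC X hX).1.trans ?_,
    (hC X hX).2.trans ?_⟩⟩
  · rcases lt_or_ge X 1 with h | h
    · rw [ctop_t0_zero _ h, abs_zero]
      positivity
    · have h1 : C / √X ≤ |C| := (div_le_div_of_nonneg_right (le_abs_self C) (Real.sqrt_nonneg _)).trans
        (div_le_self (abs_nonneg _) (Real.one_le_sqrt.2 h))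
      have h2 := abs_add_le (t0 D.η X - D.κ) D.κ
      rw [sub_add_cancel] at h2
      linarith [(hC X h).1]
  · gcongr
  · gcongr

theorem ctop_ext (D : Dat) {Y Y' : ℝ} (h : Y ≤ Y') {f : Xp → ℂ}
    (hf : ∀ e ∈ D.E Y', Y < Nm e → f e = 0) : ∑ e ∈ D.E Y, f e = ∑ e ∈ D.E Y', f e := by
  refine sum_subset (fun e he => D.mem_E.2 ⟨(D.mem_E.1 he).1, (D.mem_E.1 he).2.trans h⟩)
    fun e he he' => hf e he (lt_of_not_ge fun h' => he' (D.mem_E.2 ⟨(D.mem_E.1 he).1, h'⟩))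

theorem ctop_TT (D : Dat) {m : ℕ} {Y : ℝ} (h : (m : ℝ) ≤ Y) (z : Tor) :
    D.TT m z = ∑ e ∈ D.E Y, ch e z * ((t0 D.η (m / Nm e) / √(Nm e) : ℝ) : ℂ) := by
  refine ctop_ext D h fun e he h' => ?_
  rw [ctop_t0_zero _ ((div_lt_one (by linarith [ctop_one_le he])).2 h')]
  simp

theorem Dat.TT_zero (D : Dat) (z : Tor) : D.TT 0 z = 0 := by
  simp [Dat.TT, t0]

/-- `D.tail` bounds `t0`; `sum_sqrt`. -/
theorem Dat.norm_TT_le (D : Dat) : ∃ C : ℝ, 0 ≤ C ∧ ∀ (m : ℕ) (z : Tor), ‖D.TT m z‖ ≤ C * m := by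
  obtain ⟨C, hC, h, -⟩ := ctop_tail D
  obtain ⟨K, hK, h'⟩ := D.sum_sqrt
  refine ⟨C * K, by positivity, fun m z => ?_⟩
  rcases Nat.eq_zero_or_pos m with rfl | hm
  · simp [D.TT_zero]
  have hm' : (1 : ℝ) ≤ m := Nat.one_le_cast.2 hm
  calc ‖D.TT m z‖ ≤ ∑ e ∈ D.E m, C * (1 / √(Nm e)) := by
        refine norm_sum_le_of_le _ fun e _ => ?_
        rw [norm_mul, norm_ch, one_mul, Complex.norm_real, Real.norm_eq_abs, abs_div,
          abs_of_nonneg (Real.sqrt_nonneg _), mul_one_div]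
        exact div_le_div_of_nonneg_right (h _) (Real.sqrt_nonneg _)
    _ ≤ C * (K * √m) := by
        rw [← mul_sum]
        exact mul_le_mul_of_nonneg_left (h' m hm') hC
    _ ≤ C * (K * m) := by
        gcongr
        exact Real.sqrt_le_iff.2 ⟨by positivity, by nlinarith⟩
    _ = _ := by ring

theorem ctop_mem {n : ℕ} (hn : 1 ≤ n) (m t : ℕ) :
    t ∈ Icc 1 ⌊√((m : ℝ) / n)⌋₊ ↔ 1 ≤ t ∧ t ^ 2 * n ≤ m := by
  have : (0 : ℝ) < n := Nat.cast_pos.2 hn
  rw [mem_Icc, Nat.le_floor_iff (Real.sqrt_nonneg _), Real.le_sqrt (by positivity) (by positivity),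
    le_div_iff₀ this]
  norm_cast

theorem ctop_tel {k N : ℕ} (hk : 1 ≤ k) (h : k ≤ N) :
    ∑ m ∈ Ico 1 N, (if k ≤ m then Real.log ((m + 1 : ℕ) / m) else 0) = Real.log (N / k) := by
  have e : (Ico 1 N).filter (fun m => k ≤ m) = Ico k N := by
    ext m
    simp only [mem_filter, mem_Ico]
    omega
  rw [← sum_filter, e, Real.log_div (by norm_cast; omega) (by norm_cast; omega),
    ← sum_Ico_sub (fun m : ℕ => Real.log m) h]
  refine sum_congr rfl fun m hm => Real.log_div (by positivity) ?_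
  have := (mem_Ico.1 hm).1
  norm_cast
  omega

theorem ctop_t1 (η : ℕ → ℝ) {n : ℕ} (hn : 1 ≤ n) (N : ℕ) :
    ∑ m ∈ Ico 1 N, Real.log ((m + 1 : ℕ) / m) * t0 η (m / n) = t1 η (N / n) := by
  have e : ∀ m ∈ Ico 1 N, Real.log ((m + 1 : ℕ) / m) * t0 η (m / n) =
      ∑ t ∈ Icc 1 ⌊√((N : ℝ) / n)⌋₊,
        η t / t * if t ^ 2 * n ≤ m then Real.log ((m + 1 : ℕ) / m) else 0 := fun m hm => by
    have e' : Icc 1 ⌊√((m : ℝ) / n)⌋₊ = (Icc 1 ⌊√((N : ℝ) / n)⌋₊).filter fun t => t ^ 2 * n ≤ m := by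
      ext t
      have := (mem_Ico.1 hm).2
      simp only [mem_filter, ctop_mem hn]
      omega
    rw [t0, e', sum_filter, mul_sum]
    refine sum_congr rfl fun t _ => ?_
    split_ifs <;> ring
  rw [sum_congr rfl e, sum_comm, t1]
  refine sum_congr rfl fun t ht => ?_
  obtain ⟨h1, h2⟩ := (ctop_mem hn N t).1 ht
  rw [← mul_sum, ctop_tel (Nat.mul_pos (by positivity) hn) h2, div_div, mul_comm (n : ℝ)]
  push_cast
  rfl

/-- Extend all sums to `D.E N` (`t0 η X = 0` for `X < 1`), exchange, and telescope: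
`∑_{n ≤ m < N} log ((m + 1) / m) = log (N / n)` with `n = t ^ 2 * Nm e`. -/
theorem Dat.sum_log_TT (D : Dat) (N : ℕ) (z : Tor) :
    ∑ m ∈ Ico 1 N, (Real.log ((m + 1 : ℕ) / m) : ℂ) * D.TT m z =
      ∑ e ∈ D.E N, ch e z * ((t1 D.η (N / Nm e) / √(Nm e) : ℝ) : ℂ) := by
  rw [sum_congr rfl fun m hm => by
    rw [ctop_TT D (Nat.cast_le.2 (mem_Ico.1 hm).2.le : (m : ℝ) ≤ N) z, mul_sum], sum_comm]
  refine sum_congr rfl fun e he => ?_
  rw [← ctop_t1 D.η (D.mem_E.1 he).1.pm.one_le N, sum_div, Complex.ofReal_sum, mul_sum]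
  refine sum_congr rfl fun m _ => ?_
  rw [mul_div_assoc, Complex.ofReal_mul]
  ring

theorem ctop_nrm (D : Dat) : ∃ C : ℝ, 0 ≤ C ∧ ∀ (Y B G : ℝ) (N : ℕ) (a : Xp → ℝ) (f : ℕ → ℂ), 1 ≤ Y →
    (N : ℝ) ≤ Y → 0 ≤ B → 0 ≤ G → (∀ e ∈ D.E Y, a e ^ 2 ≤ B * √(Nm e)) →
    (∀ j, f j = ∑ e ∈ D.E Y, ch e (D.z j) * ((a e / √(Nm e) : ℝ) : ℂ)) → Y * (B * √Y) ≤ G ^ 2 →
    nrm (Ico N (2 * N)) f ≤ C * G := by
  obtain ⟨C, hC, h⟩ := D.t2_coef
  obtain ⟨K, hK, h'⟩ := D.sum_sqrt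
  refine ⟨√(C * K), Real.sqrt_nonneg _, fun Y B G N a f hY hN hB hG ha hf hb => ?_⟩
  refine nrm_le_of_sq (by positivity) ?_
  simp only [hf]
  refine (h Y N _ hY).trans ?_
  have h1 : ∑ e ∈ D.E Y, ‖((a e / √(Nm e) : ℝ) : ℂ)‖ ^ 2 ≤ B * (K * √Y) := by
    refine le_trans ?_ (mul_le_mul_of_nonneg_left (h' Y hY) hB)
    rw [mul_sum]
    refine sum_le_sum fun e he => ?_
    have h2 : 0 < √(Nm e : ℝ) := Real.sqrt_pos.2 (by linarith [ctop_one_le he])
    rw [Complex.norm_real, Real.norm_eq_abs, sq_abs, div_pow, div_le_iff₀ (by positivity)]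
    refine (ha e he).trans_eq ?_
    field_simp
  rw [max_eq_right hN, mul_pow, Real.sq_sqrt (by positivity)]
  calc _ ≤ C * Y * (B * (K * √Y)) := by gcongr
    _ = C * K * (Y * (B * √Y)) := by ring
    _ ≤ _ := by gcongr

theorem ctop_c0 (D : Dat) : ∃ C : ℝ, 0 ≤ C ∧ ∀ X U : ℝ, 1 ≤ X → 4 ≤ U → U ≤ 8 →
    |t1 D.η X - (D.κ * Real.log X + D.c₁) * st U (Real.log X)| ≤ C / √√X := by
  obtain ⟨C, hC, -, h⟩ := ctop_tail D
  refine ⟨C + (|D.κ| * 16 + |D.c₁|) * Real.exp 16, by positivity, fun X U hX h4 h8 => ?_⟩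
  have h1 := (h X hX).2
  have h2 : 1 ≤ √X := Real.one_le_sqrt.2 hX
  have h3 : 0 < √√X := Real.sqrt_pos.2 (by linarith)
  have h5 : |(D.κ * Real.log X + D.c₁) * (1 - st U (Real.log X))| ≤
      (|D.κ| * 16 + |D.c₁|) * Real.exp 16 / √√X := by
    rcases le_total 16 (Real.log X) with hv | hv
    · rw [ctop_st_one h4 h8 hv, sub_self, mul_zero, abs_zero]
      positivity
    have h6 : √√X ≤ Real.exp 16 :=
      (Real.sqrt_le_iff.2 ⟨by positivity, by nlinarith⟩ : √√X ≤ √X).trans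
        ((Real.sqrt_le_iff.2 ⟨by positivity, by nlinarith⟩ : √X ≤ X).trans
          ((Real.log_le_iff_le_exp (by linarith)).1 hv))
    have h7 := ctop_st_mem U (Real.log X)
    have h8 : |D.κ * Real.log X + D.c₁| ≤ |D.κ| * 16 + |D.c₁| := by
      refine (abs_add_le _ _).trans ?_
      rw [abs_mul, abs_of_nonneg (Real.log_nonneg hX)]
      gcongr
    rw [abs_mul, mul_div_assoc]
    refine mul_le_mul h8 ?_ (abs_nonneg _) (by positivity)
    rw [abs_of_nonneg (by linarith)]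
    linarith [(one_le_div h3).2 h6]
  rw [add_div, show t1 D.η X - (D.κ * Real.log X + D.c₁) * st U (Real.log X) =
    (t1 D.η X - D.κ * Real.log X - D.c₁) + (D.κ * Real.log X + D.c₁) * (1 - st U (Real.log X)) by ring]
  exact (abs_add_le _ _).trans (add_le_add h1 h5)

/-- With `X = N / Nm e ≥ 1`, `v = log X`: the coefficient is
`(t1 X - κ v - c₁) + (κ v + c₁) (1 - st U v)`, at most `C / √√X` since `st U v = 1` for `v ≥ 16`.
`t2_coef`, `sum_sqrt`. -/
theorem Dat.top0 (D : Dat) : ∃ C : ℝ, 0 ≤ C ∧ ∀ (N : ℕ) (U : ℝ), 1 ≤ N → 4 ≤ U → U ≤ 8 →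
    nrm (Ico N (2 * N)) (fun j => ∑ e ∈ D.E N, ch e (D.z j) * ((t1 D.η (N / Nm e) / √(Nm e) : ℝ) : ℂ) -
      D.sm N (fun v => (((D.κ * v + D.c₁) * st U v : ℝ) : ℂ)) (D.z j)) ≤ C * √N := by
  obtain ⟨C, hC, h⟩ := ctop_nrm D
  obtain ⟨K, hK, h'⟩ := ctop_c0 D
  refine ⟨C * K, by positivity, fun N U hN h4 h8 => ?_⟩
  have hN' : (1 : ℝ) ≤ N := Nat.one_le_cast.2 hN
  have h1 : 0 < √(N : ℝ) := Real.sqrt_pos.2 (by linarith)
  rw [mul_assoc]
  refine h N (K ^ 2 / √N) _ N (fun e => t1 D.η (N / Nm e) - (D.κ * (Real.log N - Real.log (Nm e)) + D.c₁) *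
    st U (Real.log N - Real.log (Nm e))) _ hN' le_rfl (by positivity) (by positivity)
    (fun e he => ?_) (fun j => ?_) (le_of_eq ?_)
  · have h2 := ctop_one_le he
    have h3 := h' (N / Nm e) U ((one_le_div (by linarith)).2 (D.mem_E.1 he).2) h4 h8
    rw [Real.log_div (by linarith) (by linarith)] at h3
    rw [← sq_abs]
    refine (pow_le_pow_left₀ (abs_nonneg _) h3 2).trans_eq ?_
    rw [div_pow, Real.sq_sqrt (Real.sqrt_nonneg _), Real.sqrt_div (by linarith), div_div_eq_mul_div,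
      div_mul_eq_mul_div]
  · rw [Dat.sm, ← sum_sub_distrib]
    refine sum_congr rfl fun e _ => ?_
    push_cast
    ring
  · rw [mul_pow, Real.sq_sqrt (by linarith)]
    field_simp

theorem ctop_cm (D : Dat) : ∃ C : ℝ, 0 ≤ C ∧ ∀ U n m N μ : ℝ, 4 ≤ U → U ≤ 8 → 1 ≤ n → 0 < μ → μ ≤ N →
    μ ≤ max 1 m → (t0 D.η (m / n) - D.κ * st U (Real.log N - Real.log n)) ^ 2 ≤ C ^ 2 / √μ * √n := by
  obtain ⟨C, hC, h0, h⟩ := ctop_tail D
  refine ⟨(C + |D.κ|) * Real.exp 8, by positivity, fun U n m N μ h4 h8 hn hμ hN hm => ?_⟩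
  have hn' : 0 < n := by linarith
  have he : 1 ≤ Real.exp 8 := Real.one_le_exp (by norm_num)
  have h1 : |t0 D.η (m / n) - D.κ * st U (Real.log N - Real.log n)| ≤ C + |D.κ| := by
    refine (abs_sub _ _).trans (add_le_add (h0 _) ?_)
    rw [abs_mul, abs_of_nonneg (ctop_st_mem _ _).1]
    exact mul_le_of_le_one_right (abs_nonneg _) (ctop_st_mem _ _).2
  rw [div_mul_eq_mul_div, mul_div_assoc, ← Real.sqrt_div hn'.le, ← sq_abs]
  by_cases hc : n ≤ m ∧ 16 ≤ Real.log N - Real.log n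
  · have h2 := (h _ ((one_le_div hn').2 hc.1)).1
    rw [max_eq_right (hn.trans hc.1)] at hm
    have hm' : 0 < m := hμ.trans_le hm
    have h3 : n / m ≤ 1 := (div_le_one hm').2 hc.1
    have h5 : 0 ≤ n / m := by positivity
    rw [ctop_st_one h4 h8 hc.2, mul_one]
    refine (pow_le_pow_left₀ (abs_nonneg _) h2 2).trans ?_
    rw [div_pow, Real.sq_sqrt (by positivity), div_div_eq_mul_div, mul_div_assoc]
    refine mul_le_mul (pow_le_pow_left₀ hC ?_ 2) (Real.le_sqrt_of_sq_le ?_) h5 (by positivity)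
    · nlinarith [abs_nonneg D.κ]
    · calc (n / m) ^ 2 ≤ n / m := by nlinarith
        _ ≤ n / μ := by gcongr
  have h2 : μ ≤ Real.exp 16 * n := by
    have h16 : 1 ≤ Real.exp 16 := Real.one_le_exp (by norm_num)
    rcases not_and_or.1 hc with hc | hc
    · have := max_le hn (not_le.1 hc).le
      nlinarith
    · rw [not_le, ← Real.log_div (by linarith) hn'.ne', Real.log_lt_iff_lt_exp (div_pos (by linarith) hn'),
        div_lt_iff₀ hn'] at hc
      linarith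
  have h3 : 1 ≤ Real.exp 8 * √(n / μ) := by
    rw [← div_le_iff₀' (by positivity)]
    refine Real.le_sqrt_of_sq_le ?_
    rw [div_pow, ← Real.exp_nat_mul, div_le_div_iff₀ (by positivity) hμ]
    norm_num
    linarith
  refine (pow_le_pow_left₀ (abs_nonneg _) h1 2).trans ?_
  rw [mul_pow, mul_assoc]
  refine le_mul_of_one_le_right (by positivity) ?_
  nlinarith

/-- Both sums extend to `D.E Y`, `Y = max m N` (`st U v = 0` for `v ≤ 0`). The coefficient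
`t0 (m / Nm e) - κ st U (log N - log (Nm e))` is bounded, and is at most `C √(Nm e / m)` if
`Nm e ≤ min m (N exp (-16))`; so its square is at most `C √(Nm e / μ)` with `μ = max 1 (min m N)`.
`t2_coef`, `sum_sqrt`: the square of the norm is at most `C Y √(Y / μ)`. -/
theorem Dat.topm (D : Dat) : ∃ C : ℝ, 0 ≤ C ∧ ∀ (N m : ℕ) (U : ℝ), 1 ≤ N → 4 ≤ U → U ≤ 8 →
    nrm (Ico N (2 * N)) (fun j => D.TT m (D.z j) -
      D.sm N (fun v => ((D.κ * st U v : ℝ) : ℂ)) (D.z j)) ≤ C * √N * gm N m := by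
  obtain ⟨C, hC, h⟩ := ctop_nrm D
  obtain ⟨K, hK, h'⟩ := ctop_cm D
  refine ⟨C * K, by positivity, fun N m U hN h4 h8 => ?_⟩
  have hN' : (1 : ℝ) ≤ N := Nat.one_le_cast.2 hN
  have hg := one_le_gm hN m
  have key : ∀ Y μ : ℝ, (m : ℝ) ≤ Y → (N : ℝ) ≤ Y → 0 < μ → μ ≤ N → μ ≤ max 1 (m : ℝ) →
      Y * √(Y / μ) ≤ N * gm N m ^ 2 → nrm (Ico N (2 * N)) (fun j => D.TT m (D.z j) -
      D.sm N (fun v => ((D.κ * st U v : ℝ) : ℂ)) (D.z j)) ≤ C * (K * √N * gm N m) := by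
    intro Y μ hm hY hμ h1 h2 h3
    refine h Y (K ^ 2 / √μ) _ N (fun e => t0 D.η (m / Nm e) - D.κ * st U (Real.log N - Real.log (Nm e)))
      _ (hN'.trans hY) hY (by positivity) (by positivity)
      (fun e he => h' U _ m N μ h4 h8 (ctop_one_le he) hμ h1 h2) (fun j => ?_) ?_
    · rw [ctop_TT D hm, Dat.sm, ctop_ext D hY fun e _ he => by
        rw [ctop_st_zero h4 (sub_nonpos.2 (Real.log_le_log (by linarith) he.le))]
        simp, ← sum_sub_distrib]
      refine sum_congr rfl fun e _ => ?_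
      push_cast
      ring
    · rw [Real.sqrt_div (by linarith)] at h3
      rw [mul_pow, mul_pow, Real.sq_sqrt (by linarith)]
      calc _ = K ^ 2 * (Y * (√Y / √μ)) := by ring
        _ ≤ K ^ 2 * (N * gm N m ^ 2) := by gcongr
        _ = _ := by ring
  rw [show C * K * √N * gm N m = C * (K * √N * gm N m) by ring]
  rcases lt_or_ge m N with hm | hm
  · have hm' : (m : ℝ) ≤ N := Nat.cast_le.2 hm.le
    refine key N (max 1 m) hm' le_rfl (by positivity) (max_le hN' hm') le_rfl (le_of_eq ?_)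
    rw [gm, if_pos hm, Real.sq_sqrt (Real.sqrt_nonneg _)]
  · have hm' : (N : ℝ) ≤ m := Nat.cast_le.2 hm
    refine key m N le_rfl hm' (by linarith) le_rfl (le_max_of_le_right hm') ?_
    rw [gm, if_neg (not_lt.2 hm)] at hg ⊢
    have h1 : √((m : ℝ) / N) ≤ m / N := Real.sqrt_le_iff.2 ⟨by positivity, by nlinarith⟩
    calc (m : ℝ) * √(m / N) ≤ m * (m / N) := by gcongr
      _ = _ := by field_simp

theorem ctop_le_gm {N : ℕ} (hN : 1 ≤ N) (m : ℕ) : (m : ℝ) ≤ N * gm N m := by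
  have hN' : (1 : ℝ) ≤ N := Nat.one_le_cast.2 hN
  rcases lt_or_ge m N with hm | hm
  · have hm' : (m : ℝ) ≤ N := Nat.cast_le.2 hm.le
    nlinarith [one_le_gm hN m]
  · rw [gm, if_neg (not_lt.2 hm), mul_div_cancel₀ _ (by linarith)]

/-- `Ld j = ∑_{1 ≤ m < N} log ((m + 1) / m) TT m + ∑' rh m * TT m` (`rh_le`, `norm_TT_le` give the
convergence); `c j = c₁ + κ ∑' rh N j m`. `sum_log_TT`, `top0`, `nrm_tsum` with `topm`, `sum_env`. -/
theorem Dat.top_nrm (D : Dat) : ∃ C : ℝ, 0 ≤ C ∧ ∀ (N : ℕ) (U : ℝ), 2 ≤ N → 4 ≤ U → U ≤ 8 →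
    ∃ c : ℕ → ℝ, (∀ j ∈ Ico N (2 * N), |c j| ≤ C) ∧
      nrm (Ico N (2 * N)) (fun j => D.Ld j -
        D.sm N (fun v => (((D.κ * v + c j) * st U v : ℝ) : ℂ)) (D.z j)) ≤ C * √N := by
  obtain ⟨C₀, hC₀, h0⟩ := D.top0
  obtain ⟨C₁, hC₁, h1⟩ := D.topm
  obtain ⟨C₂, hC₂, h2⟩ := D.rh_le
  obtain ⟨C₃, hC₃, h3⟩ := D.norm_TT_le
  refine ⟨|D.c₁| + |D.κ| * (C₂ * 5) + (C₀ + C₂ * C₁ * 5), by positivity, fun N U hN h4 h8 =>
    ⟨fun j => D.c₁ + D.κ * ∑' m, D.rh N j m, ?_⟩⟩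
  have hN' : 1 ≤ N := by omega
  obtain ⟨s1, s2⟩ := sum_env hN'
  have b1 : ∀ j ∈ Ico N (2 * N), ∀ m, ‖D.rh N j m‖ ≤ C₂ * (env N m * gm N m) := fun j hj m =>
    (h2 N j m hN hj).trans (mul_le_mul_of_nonneg_left
      (le_mul_of_one_le_right (env_nonneg N m) (one_le_gm hN' m)) hC₂)
  refine ⟨fun j hj => ?_, ?_⟩
  · have := tsum_of_norm_bounded (s1.hasSum.mul_left C₂) (b1 j hj)
    refine (abs_add_le _ _).trans ?_
    rw [abs_mul]
    refine le_trans ?_ (le_add_of_nonneg_right (by positivity))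
    gcongr
    exact this.trans (mul_le_mul_of_nonneg_left s2 hC₂)
  set S : ℕ → ℂ := fun j => D.sm N (fun v => ((D.κ * st U v : ℝ) : ℂ)) (D.z j) with hS
  have e : ∀ m, C₂ * env N m * (C₁ * √N * gm N m) = C₂ * C₁ * √N * (env N m * gm N m) := fun m => by ring
  have s3 : Summable fun m => C₂ * env N m * (C₁ * √N * gm N m) := by
    simp only [e]
    exact s1.mul_left _
  have n1 : nrm (Ico N (2 * N)) (fun j => ∑' m, (D.rh N j m : ℂ) * (D.TT m (D.z j) - S j)) ≤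
      C₂ * C₁ * 5 * √N := by
    refine (nrm_tsum (c := fun j m => D.TT m (D.z j) - S j) (env := fun m => C₂ * env N m)
      (fun m => mul_nonneg hC₂ (env_nonneg N m)) (fun j hj => ?_) (fun m => h1 N m U hN' h4 h8) s3).trans ?_
    · refine tsum_of_norm_bounded (Summable.hasSum (s3.of_nonneg_of_le
        (fun m => mul_nonneg (mul_nonneg hC₂ (env_nonneg N m)) (norm_nonneg _)) fun m =>
          mul_le_mul_of_nonneg_left ((tnrm_single hj fun j => D.TT m (D.z j) - S j).trans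
            (h1 N m U hN' h4 h8)) (mul_nonneg hC₂ (env_nonneg N m)))) fun m => ?_
      rw [norm_mul, Complex.norm_real]
      exact mul_le_mul_of_nonneg_right (h2 N j m hN hj) (norm_nonneg _)
    · simp only [e]
      rw [tsum_mul_left, mul_right_comm _ 5]
      gcongr
  refine (nrm_add_le fun j hj => ?_).trans ((add_le_add (h0 N U hN' h4 h8) n1).trans ?_)
  · refine le_trans (le_of_eq (congrArg _ ?_)) (norm_add_le _ _)
    have r1 : Summable fun m => D.rh N j m := (s1.mul_left C₂).of_norm_bounded (b1 j hj)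
    have r2 : Summable fun m => (D.rh N j m : ℂ) * D.TT m (D.z j) := by
      refine (s1.mul_left (C₂ * (C₃ * N))).of_norm_bounded fun m => ?_
      rw [norm_mul, Complex.norm_real]
      refine (mul_le_mul (h2 N j m hN hj) ((h3 m _).trans (mul_le_mul_of_nonneg_left
        (ctop_le_gm hN' m) hC₃)) (norm_nonneg _) (mul_nonneg hC₂ (env_nonneg N m))).trans_eq ?_
      ring
    have r3 : HasSum (fun m => if m ∈ Ico 1 N then (Real.log ((m + 1 : ℕ) / m) : ℂ) * D.TT m (D.z j) else 0)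
        (∑ m ∈ Ico 1 N, (Real.log ((m + 1 : ℕ) / m) : ℂ) * D.TT m (D.z j)) := by
      rw [← sum_congr rfl fun m hm => if_pos (c := m ∈ Ico 1 N) (e := (0 : ℂ)) hm]
      exact hasSum_sum_of_ne_finset_zero fun m hm => if_neg hm
    have r4 : D.Ld j = ∑ m ∈ Ico 1 N, (Real.log ((m + 1 : ℕ) / m) : ℂ) * D.TT m (D.z j) +
        ∑' m, (D.rh N j m : ℂ) * D.TT m (D.z j) := by
      rw [← (r3.add r2.hasSum).tsum_eq]
      refine tsum_congr fun m => ?_
      rcases Nat.eq_zero_or_pos m with rfl | hm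
      · simp [D.TT_zero]
      · simp only [Dat.rh, if_neg hm.ne', mem_Ico, show 1 ≤ m from hm, true_and]
        split_ifs <;> push_cast <;> ring
    have r5 : ∑' m, (D.rh N j m : ℂ) * (D.TT m (D.z j) - S j) =
        ∑' m, (D.rh N j m : ℂ) * D.TT m (D.z j) - ((∑' m, D.rh N j m : ℝ) : ℂ) * S j := by
      simp only [mul_sub]
      rw [r2.tsum_sub ((Complex.summable_ofReal.2 r1).mul_right _), tsum_mul_right, Complex.ofReal_tsum]
    have r6 : D.sm N (fun v => (((D.κ * v + (D.c₁ + D.κ * ∑' m, D.rh N j m)) * st U v : ℝ) : ℂ)) (D.z j) =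
        D.sm N (fun v => (((D.κ * v + D.c₁) * st U v : ℝ) : ℂ)) (D.z j) +
          ((∑' m, D.rh N j m : ℝ) : ℂ) * S j := by
      generalize ∑' m, D.rh N j m = r
      simp only [hS, Dat.sm, mul_sum, ← sum_add_distrib]
      refine sum_congr rfl fun e _ => ?_
      push_cast
      ring
    rw [r4, r5, r6, D.sum_log_TT]
    ring
  · rw [← add_mul]
    exact mul_le_mul_of_nonneg_right (le_add_of_nonneg_left (by positivity)) (Real.sqrt_nonneg _)

/-- Summation by parts (`Finset.sum_range_by_parts`), `Vw_le`, `Vw_sub_le`, `norm_TT_le`. -/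
theorem Dat.Ld_eq (D : Dat) {j : ℕ} (hj : 1 ≤ j) {b : ℕ → ℂ} {s : ℂ} (h0 : b 0 = 0)
    (hb : ∀ Y : ℕ, ∑ m ∈ Icc 1 Y, b m = D.TT Y (D.z j))
    (hs : HasSum (fun m => b m * (Vw j (m / D.A) : ℝ)) s) : D.Ld j = s := by
  obtain ⟨C, hC, h⟩ := D.norm_TT_le
  have hA := D.A_pos
  set K : ℝ := j * (j + 1) * D.A ^ 2 * C with hK
  have a1 : ∀ n : ℕ, ∑ m ∈ range (n + 1), (D.dl j m : ℂ) * D.TT m (D.z j) =
      ∑ m ∈ range (n + 1), b m * (Vw j (m / D.A) : ℝ) -
        (Vw j ((n + 1 : ℕ) / D.A) : ℝ) * D.TT n (D.z j) := fun n => by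
    induction n with
    | zero => simp [D.TT_zero, h0]
    | succ n ih =>
      rw [sum_range_succ, ih, sum_range_succ _ (n + 1), ← hb (n + 1), sum_Icc_succ_top (by omega), hb,
        Dat.dl, Complex.ofReal_sub]
      ring
  have a2 : Summable fun m : ℕ => (D.dl j m : ℂ) * D.TT m (D.z j) := by
    refine ((Real.summable_one_div_nat_pow.2 one_lt_two).mul_left K).of_norm_bounded fun m => ?_
    rcases Nat.eq_zero_or_pos m with rfl | hm
    · simp [D.TT_zero]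
    have hm' : (0 : ℝ) < m := Nat.cast_pos.2 hm
    obtain ⟨v1, v2⟩ := Vw_sub_le hj (div_pos hm' hA)
      (div_le_div_of_nonneg_right (Nat.cast_le.2 m.le_succ : (m : ℝ) ≤ (m + 1 : ℕ)) hA.le)
    have v3 : Real.log ((m + 1 : ℕ) / D.A / (m / D.A)) ≤ 1 / m := by
      refine (Real.log_le_sub_one_of_pos (by positivity)).trans_eq ?_
      push_cast
      field_simp
      ring
    rw [norm_mul, Complex.norm_real, Dat.dl, Real.norm_of_nonneg v1]
    refine (mul_le_mul (v2.trans (mul_le_mul_of_nonneg_right v3 (by positivity))) (h m _)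
      (norm_nonneg _) (by positivity)).trans_eq ?_
    rw [hK]
    field_simp
  have a3 : Filter.Tendsto (fun n : ℕ => ((Vw j ((n + 1 : ℕ) / D.A) : ℝ) : ℂ) * D.TT n (D.z j))
      Filter.atTop (nhds 0) := by
    refine squeeze_zero_norm (fun n => ?_)
      ((tendsto_const_div_atTop_nhds_zero_nat K).comp (Filter.tendsto_add_atTop_nat 1))
    have hn : (0 : ℝ) < (n + 1 : ℕ) := by positivity
    rw [norm_mul, Complex.norm_real, Real.norm_of_nonneg (Vw_nonneg _ _)]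
    refine (mul_le_mul (Vw_le hj (div_pos hn hA)) ((h n _).trans (mul_le_mul_of_nonneg_left
      (Nat.cast_le.2 n.le_succ : (n : ℝ) ≤ (n + 1 : ℕ)) hC)) (norm_nonneg _) (by positivity)).trans_eq ?_
    rw [hK, Function.comp_apply]
    field_simp
  have a4 := (hs.tendsto_sum_nat.comp (Filter.tendsto_add_atTop_nat 1)).sub a3
  rw [sub_zero] at a4
  exact tendsto_nhds_unique (a2.hasSum.tendsto_sum_nat.comp (Filter.tendsto_add_atTop_nat 1))
    (a4.congr fun n => (a1 n).symm)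

end Pool.Agent.Lib.MP_bcfefa_nt
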