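import Pool.Agent.Lib.MP_bcfefa_nt.CF2
import Pool.Agent.Lib.MP_bcfefa_nt.CFm
import Pool.Agent.Lib.MP_bcfefa_nt.CTop

set_option autoImplicit false

noncomputable section

namespace Pool.Agent.Lib.MP_bcfefa_nt

open Complex Finset MeasureTheory Pool.Agent.Lib.MP_03e5d0_nt
open scoped Real ContDiff

/-! The counting argument. Compare `MF3b.lean`, `MF4.lean` of `Lib/MP_03e5d0_nt`. -/

/-- `mf3b_bar` with `2 Z` in place of `Z`. -/
theorem bar_le {Z : ℝ} {J : ℕ} (i₀ : ℕ) (hZ : 1 ≤ Z) (hJ : (2 : ℝ) ^ J ≤ 4 * Z) :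
    bar i₀ J ≤ 4 * ((2 : ℝ) ^ (7 * (i₀ : ℝ) / 8) * √Z) := by
  have h1 := mf3b_bar (Z := 2 * Z) (J := J) i₀ (by linarith) (by linarith)
  have h2 : (1 : ℝ) ≤ (2 * Z) ^ (1 / 8 : ℝ) := Real.one_le_rpow (by linarith) (by norm_num)
  have h3 : √(2 * Z) ≤ 2 * √Z := by
    refine Real.sqrt_le_iff.2 ⟨by positivity, ?_⟩
    rw [mul_pow, Real.sq_sqrt (by linarith)]
    linarith
  have hb : 0 ≤ bar i₀ J := by
    unfold bar
    positivity
  calc bar i₀ J ≤ bar i₀ J * (2 * Z) ^ (1 / 8 : ℝ) := le_mul_of_one_le_right hb h2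
    _ ≤ 2 * ((2 : ℝ) ^ (7 * (i₀ : ℝ) / 8) * √(2 * Z)) := h1
    _ ≤ 2 * ((2 : ℝ) ^ (7 * (i₀ : ℝ) / 8) * (2 * √Z)) := by gcongr
    _ = _ := by ring

theorem cf4_low {A Z : ℝ} {i₀ N I J : ℕ} (hA : 1 ≤ A) (h : Pa A i₀ N Z I J) :
    √(Real.log N) / Z ≤ √(2 * A) * ((2 : ℝ) ^ (7 * (i₀ : ℝ) / 8) * √Z) := by
  have hZ := h.one_le
  have e : Real.log N = 2 * A * (2 ^ i₀ * Z) := by
    rw [h.L_eq hA, pow_succ]
    ring
  have h1 : √((2 : ℝ) ^ i₀) ≤ (2 : ℝ) ^ (7 * (i₀ : ℝ) / 8) := by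
    rw [Real.sqrt_eq_rpow, ← Real.rpow_natCast, ← Real.rpow_mul zero_le_two]
    refine Real.rpow_le_rpow_of_exponent_le one_le_two ?_
    have : (0 : ℝ) ≤ i₀ := Nat.cast_nonneg _
    linarith
  calc √(Real.log N) / Z ≤ √(Real.log N) := div_le_self (Real.sqrt_nonneg _) hZ
    _ = √(2 * A) * (√((2 : ℝ) ^ i₀) * √Z) := by
        rw [e, Real.sqrt_mul (x := 2 * A) (by linarith), Real.sqrt_mul (x := 2 ^ i₀) (by positivity)]
    _ ≤ _ := by gcongr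

theorem Dat.cf4_sm (D : Dat) {Y : ℝ} (hY : 1 < Y) (I : ℕ) (a b : ℝ) (z : Tor) :
    D.sm Y (fun v => (((a * v + b) * st (Ui (Real.log Y) I) v : ℝ) : ℂ)) z =
      a * D.Q1 Y I z + b * D.Q0 Y I z := by
  rw [D.Q1_eq hY, D.Q0_eq hY]
  unfold Dat.sm st
  rw [mul_sum, mul_sum, ← sum_add_distrib]
  refine sum_congr rfl fun e _ => ?_
  simp only [Complex.ofReal_mul, Complex.ofReal_add]
  ring

/-- `top_nrm` with `U = Ui L I`; by `Q1_eq`, `Q0_eq` the subtracted sum is `κ Q1 N I + c j * Q0 N I`.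
`Q1 I - Q1 i₀` is the sum over `i₀ < i ≤ I` (`up_pieces` with `th1`); the `th0` pieces with `i > i₀` by
`up_pieces` (as `1 ≤ Ui L i`), those with `i ≤ i₀` by `low_pieces`
(`√L / Z ≤ √(2 A) 2 ^ (7 i₀ / 8) √Z`); on the good set `MM ≤ bar i₀ J`, `bar_le`. -/
theorem Dat.rest_nrm (D : Dat) (c : ℕ) (hc : 1 ≤ c) {A : ℝ} (hA : 544 * c ≤ A) : ∃ C : ℝ, 0 ≤ C ∧
    ∀ (Z : ℝ) (N i₀ I J : ℕ) (T : Finset ℕ), 2 ≤ N → Pa A i₀ N Z I J → T ⊆ Ico N (2 * N) →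
    (∀ n ∈ T, D.Good c Z J i₀ (D.z n)) →
    nrm T (fun n => D.MM c Z J (D.z n) * (D.Ld n - D.κ * D.Q1 N i₀ (D.z n))) ≤
      C * √N * ((2 : ℝ) ^ (7 * (i₀ : ℝ) / 8) * √Z) := by
  obtain ⟨j₁, C₁, hC₁, hup⟩ := D.up_pieces c hc
  obtain ⟨j₂, C₂, hC₂, hlow⟩ := D.low_pieces c hc
  obtain ⟨Ct, hCt, htop⟩ := D.top_nrm
  obtain ⟨B₁, hs₁⟩ := sm_th1 j₁
  obtain ⟨B₂, hs₂⟩ := sm_th0 j₁
  obtain ⟨B₃, hs₃⟩ := sm_th0 j₂
  have hB₁ : 0 ≤ B₁ := le_trans (norm_nonneg _) (hs₁.bd 0 (Nat.zero_le _) 0)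
  have hB₂ : 0 ≤ B₂ := le_trans (norm_nonneg _) (hs₂.bd 0 (Nat.zero_le _) 0)
  have hB₃ : 0 ≤ B₃ := le_trans (norm_nonneg _) (hs₃.bd 0 (Nat.zero_le _) 0)
  have hc1 : (1 : ℝ) ≤ c := by exact_mod_cast hc
  have hA0 : 1 ≤ A := by linarith
  have hA2 : 32 * c ≤ A := by linarith
  refine ⟨|D.κ| * (C₁ * B₁ * (A * √A)) + Ct * (C₂ * B₃ * √(2 * A) + C₁ * B₂ * (A * √A)) + 4 * Ct,
    by positivity, fun Z N i₀ I J T hN hP hT hg => ?_⟩
  have hN1 : 1 ≤ N := by omega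
  have hN2 : (1 : ℝ) < N := by exact_mod_cast hN
  have u1 := hup A Z B₁ N i₀ I J th1 T hA hN1 hP hs₁ hT hg
  have u2 := hup A Z B₂ N i₀ I J th0 T hA hN1 hP hs₂ hT hg
  have u3 := (hlow A Z B₃ N i₀ I J th0 hA2 hN1 hP hs₃).1
  obtain ⟨ct, hct, u4⟩ := htop N (Ui (Real.log N) I) hN hP.hI hP.hI'
  have u5 := cf4_low hA0 hP
  have u6 := bar_le i₀ hP.one_le hP.hJ'
  have hle := hP.le
  have hI := hP.hI
  have hb : 0 ≤ bar i₀ J := by
    unfold bar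
    positivity
  have hL : 0 < Real.log N := Real.log_pos hN2
  have hsm := fun n => D.cf4_sm hN2 I D.κ (ct n) (D.z n)
  unfold Dat.Q1 Dat.Q0 at hsm
  unfold Dat.Q1
  generalize (2 : ℝ) ^ (7 * (i₀ : ℝ) / 8) * √Z = S at *
  generalize Real.log N = L at *
  have hU : ∀ i ∈ Ico (i₀ + 1) (I + 1), 1 ≤ Ui L i := fun i hi => by
    have h4 : Ui L I ≤ Ui L i := by
      unfold Ui
      have := (mem_Ico.1 hi).2
      gcongr
      · norm_num
      · omega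
    linarith
  have hsx := Real.sqrt_nonneg (N : ℝ)
  have g1 : nrm T (fun n => ∑ i ∈ Ico (i₀ + 1) (I + 1),
      (Ui L i : ℂ) * (D.MM c Z J (D.z n) * D.pc N (Ui L i) th1 (D.z n))) ≤
      C₁ * B₁ * √N * (A * √A) * S := by
    refine le_trans ((nrm_sum _ fun d _ => norm_sum_le _ _).trans (sum_le_sum fun i hi => ?_)) u1
    have h4 := hU i hi
    refine nrm_le_mul (by linarith) fun d _ => le_of_eq ?_
    rw [norm_mul, Complex.norm_real, Real.norm_of_nonneg (by linarith)]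
  have g1' : nrm T (fun n => (D.κ : ℂ) * ∑ i ∈ Ico (i₀ + 1) (I + 1),
      (Ui L i : ℂ) * (D.MM c Z J (D.z n) * D.pc N (Ui L i) th1 (D.z n))) ≤
      |D.κ| * (C₁ * B₁ * √N * (A * √A) * S) := by
    refine (nrm_le_mul (abs_nonneg _) fun d _ => le_of_eq ?_).trans
      (mul_le_mul_of_nonneg_left g1 (abs_nonneg _))
    rw [norm_mul, Complex.norm_real, Real.norm_eq_abs]
  have g2 : nrm T (fun n => ∑ i ∈ range (I + 1), D.MM c Z J (D.z n) * D.pc N (Ui L i) th0 (D.z n)) ≤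
      C₂ * B₃ * √N * (√(2 * A) * S) + C₁ * B₂ * √N * (A * √A) * S := by
    refine (nrm_sum _ fun d _ => norm_sum_le _ _).trans ?_
    rw [← sum_range_add_sum_Ico _ (show i₀ + 1 ≤ I + 1 by omega)]
    refine add_le_add ?_ ?_
    · refine le_trans (sum_le_sum fun i _ => nrm_subset hT) (u3.trans ?_)
      gcongr
    · refine le_trans (sum_le_sum fun i hi => ?_) u2
      exact le_mul_of_one_le_left (nrm_nonneg _ _) (hU i hi)
  have g3 : nrm T (fun n => ((ct n : ℝ) : ℂ) *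
      ∑ i ∈ range (I + 1), D.MM c Z J (D.z n) * D.pc N (Ui L i) th0 (D.z n)) ≤
      Ct * (C₂ * B₃ * √N * (√(2 * A) * S) + C₁ * B₂ * √N * (A * √A) * S) := by
    refine (nrm_le_mul hCt fun d hd => ?_).trans (mul_le_mul_of_nonneg_left g2 hCt)
    rw [norm_mul, Complex.norm_real, Real.norm_eq_abs]
    exact mul_le_mul_of_nonneg_right (hct d (hT hd)) (norm_nonneg _)
  have g4 := (nrm_add_le (T := T) fun d _ => norm_add_le _ _).trans (add_le_add g1' g3)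
  have g5 : nrm T (fun n => D.MM c Z J (D.z n) * (D.Ld n -
      D.sm N (fun v => (((D.κ * v + ct n) * st (Ui L I) v : ℝ) : ℂ)) (D.z n))) ≤
      4 * S * (Ct * √N) := by
    refine (nrm_le_mul hb fun d hd => ?_).trans
      (mul_le_mul u6 ((nrm_subset hT).trans u4) (nrm_nonneg _ _) (hb.trans u6))
    rw [norm_mul]
    refine mul_le_mul_of_nonneg_right ?_ (norm_nonneg _)
    rw [Dat.MM, Complex.norm_real, Real.norm_of_nonneg (pow_nonneg (D.VV_pos ..).le 3)]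
    exact hg d hd J le_rfl
  refine (nrm_add_le fun d _ => ?_).trans ((add_le_add g4 g5).trans (le_of_eq (by ring)))
  refine le_trans (le_of_eq ?_) (norm_add_le _ _)
  congr 1
  rw [hsm d, ← sum_range_add_sum_Ico (fun i => (Ui L i : ℂ) * D.pc N (Ui L i) th1 (D.z d))
    (show i₀ + 1 ≤ I + 1 by omega), ← mul_sum]
  have e : ∑ i ∈ Ico (i₀ + 1) (I + 1),
      (Ui L i : ℂ) * (D.MM c Z J (D.z d) * D.pc N (Ui L i) th1 (D.z d)) =
      D.MM c Z J (D.z d) * ∑ i ∈ Ico (i₀ + 1) (I + 1), (Ui L i : ℂ) * D.pc N (Ui L i) th1 (D.z d) := by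
    rw [mul_sum]
    exact sum_congr rfl fun i _ => by ring
  rw [e]
  ring

/-- `exists_nat_pow_near`. -/
theorem exists_pa {A : ℝ} (hA : 1 ≤ A) (i₀ : ℕ) : ∃ N₀ : ℕ, ∀ N : ℕ, N₀ ≤ N →
    ∃ (Z : ℝ) (I J : ℕ), Pa A i₀ N Z I J := by
  have h0 : (0 : ℝ) < 2 ^ (i₀ + 1) := by positivity
  have h1 : ∀ᶠ L : ℝ in Filter.atTop, 2 ^ (i₀ + 1) * A ≤ L ∧ 2 ^ (i₀ + 1) * 4 ≤ L :=
    (Filter.eventually_ge_atTop _).and (Filter.eventually_ge_atTop _)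
  obtain ⟨N₀, hN₀⟩ := Filter.eventually_atTop.1
    ((Real.tendsto_log_atTop.comp tendsto_natCast_atTop_atTop).eventually h1)
  refine ⟨N₀, fun N hN => ?_⟩
  obtain ⟨a, b⟩ : 2 ^ (i₀ + 1) * A ≤ Real.log N ∧ 2 ^ (i₀ + 1) * 4 ≤ Real.log N := hN₀ N hN
  have hZ : 1 ≤ Ui (Real.log N) i₀ / A := by
    rw [Ui, div_div, one_le_div (by positivity)]
    exact a
  obtain ⟨J, j1, j2⟩ := exists_nat_pow_near hZ one_lt_two
  have hr : 2 ^ (i₀ + 1) ≤ Real.log N / 4 := (le_div_iff₀ four_pos).2 b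
  obtain ⟨n, n1, n2⟩ := exists_nat_pow_near ((one_le_pow₀ one_le_two).trans hr) one_lt_two
  have hn : i₀ + 1 < n + 1 := (pow_lt_pow_iff_right₀ one_lt_two).1 (hr.trans_lt n2)
  obtain ⟨I, rfl⟩ : ∃ I, n = I + 1 := ⟨n - 1, by omega⟩
  refine ⟨_, I, J + 1 + 1, rfl, hZ, by rw [pow_succ]; linarith,
    by rw [pow_succ, pow_succ]; linarith, ?_, ?_, by omega⟩
  · rw [le_div_iff₀ four_pos] at n1
    rw [Ui, le_div_iff₀ (by positivity)]
    linarith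
  · rw [div_lt_iff₀ four_pos, pow_succ] at n2
    rw [Ui, div_le_iff₀ (by positivity)]
    linarith

theorem sum_norm_le_nrm (T : Finset ℕ) (c : ℕ → ℂ) : ∑ d ∈ T, ‖c d‖ ≤ √(T.card) * nrm T c := by
  have h1 := sum_mul_le_nrm T (fun _ => (1 : ℂ)) c
  have h2 := nrm_le_const (T := T) (a := fun _ => (1 : ℂ)) zero_le_one fun _ _ => norm_one.le
  simp only [norm_one, one_mul] at h1
  rw [mul_one] at h2
  exact h1.trans (mul_le_mul_of_nonneg_right h2 (nrm_nonneg _ _))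

open Classical in
/-- The three-way splitting. -/
theorem split_three' (S : Finset ℕ) (w a b : ℕ → ℂ) (G : ℕ → Prop) : ∑ d ∈ S, ‖w d * a d‖ ≤
      √((S.filter fun d => b d ≠ 0).card) * nrm S (fun d => w d * a d) +
      √(S.card) * nrm (S.filter G) (fun d => w d * (b d - a d)) +
      √((S.filter fun d => ¬G d).card) * nrm (S.filter fun d => ¬G d) (fun d => w d * a d) := by
  refine le_trans ?_ (add_le_add (add_le_add
    ((sum_norm_le_nrm (S.filter fun d => b d ≠ 0) fun d => w d * a d).trans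
      (mul_le_mul_of_nonneg_left (nrm_subset (filter_subset _ _)) (Real.sqrt_nonneg _)))
    ((sum_norm_le_nrm (S.filter G) fun d => w d * (b d - a d)).trans (mul_le_mul_of_nonneg_right
      (Real.sqrt_le_sqrt (Nat.cast_le.2 (card_filter_le _ _))) (nrm_nonneg _ _))))
    (sum_norm_le_nrm _ _))
  rw [sum_filter, sum_filter, sum_filter, ← sum_add_distrib, ← sum_add_distrib]
  refine sum_le_sum fun d _ => ?_
  have h2 := norm_nonneg (w d * a d)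
  have h3 := norm_nonneg (w d * (b d - a d))
  by_cases hb : b d = 0
  · rw [if_neg (not_not.2 hb), hb, zero_sub, mul_neg, norm_neg]
    split_ifs <;> linarith
  · rw [if_pos hb]
    split_ifs <;> linarith

open Classical in
/-- As `count` in `MF4.lean`, with `a n = κ * Q1`, `b n = Ld n`: `first_moment`, `split_three'`, `Q1_nrm`,
`rest_nrm`, `bad_card`, `exists_i0` (`1 ≤ i + 1`, `1 ≤ √(i + 3)`), `exists_pa`, `Pa.L_eq`. -/
theorem Dat.core (D : Dat) (j₀ : ℕ) {m : ℕ} (hm : 0 < m) : ∃ c : ℝ, 0 < c ∧ ∃ N₀ : ℕ, ∀ N : ℕ, N₀ ≤ N →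
    c * N ≤ (((Ico N (2 * N)).filter fun n => n ≡ j₀ [MOD m] ∧ D.Ld n ≠ 0).card : ℝ) := by
  obtain ⟨c, A₀, cF, C, hc, hA₀, hcF, hC, h1⟩ := D.first_moment j₀ hm
  obtain ⟨CB, hCB, h2⟩ := D.Q1_nrm c hc
  obtain ⟨Cb, hCb, h4⟩ := D.bad_card c hc
  obtain ⟨A, a0, a1⟩ : ∃ A : ℝ, A₀ ≤ A ∧ 544 * c ≤ A := ⟨max A₀ (544 * c), by simp, by simp⟩
  have hc0 : (0 : ℝ) ≤ c := Nat.cast_nonneg _
  have hA : 1 ≤ A := hA₀.trans a0
  obtain ⟨CR, hCR, h3⟩ := D.rest_nrm c hc a1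
  have κ0 : 0 < |D.κ| := abs_pos.2 D.κ_ne
  obtain ⟨i, hi, h5⟩ := exists_i0 (C₁ := |D.κ| * C) (C₂ := CR) (C₃ := √Cb * (|D.κ| * CB)) hA
    (mul_pos κ0 hcF)
  obtain ⟨N₀, h1⟩ := h1 A i a0 hi
  obtain ⟨N₄, h6⟩ := exists_pa hA i
  have hp : (1 : ℝ) ≤ 2 ^ (i + 1) := one_le_pow₀ one_le_two
  obtain ⟨ρ, hρ⟩ : ∃ ρ, ρ = A * 2 ^ (i + 1) := ⟨_, rfl⟩
  have ρ1 : A ≤ ρ := hρ ▸ le_mul_of_one_le_right (by linarith) hp
  have ρ0 : 0 < ρ := by linarith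
  rw [← hρ] at h5
  have i0 : (0 : ℝ) ≤ i := Nat.cast_nonneg _
  have hsq : (1 : ℝ) ≤ √(i + 3) := Real.one_le_sqrt.2 (by linarith)
  obtain ⟨σ, hσ⟩ : ∃ σ, σ = (2 : ℝ) ^ (7 * (i : ℝ) / 8) := ⟨_, rfl⟩
  have σ0 : 0 < σ := hσ ▸ Real.rpow_pos_of_pos two_pos _
  obtain ⟨τ, hτ⟩ : ∃ τ, τ = (2 : ℝ) ^ (-(7 * i : ℝ) / 24) := ⟨_, rfl⟩
  have τ0 : 0 < τ := hτ ▸ Real.rpow_pos_of_pos two_pos _
  have τ1 : (2 : ℝ) ^ (-(7 * i : ℝ) / 12) = τ ^ 2 := by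
    rw [hτ, sq, ← Real.rpow_add two_pos]
    congr 1
    ring
  rw [τ1, ← hσ] at h5
  have h7 : |D.κ| * C + CR * σ + √Cb * (|D.κ| * CB) * (τ ^ 2 * (ρ * √ρ)) ≤ |D.κ| * cF / 2 * ρ := by
    refine le_trans (add_le_add (add_le_add ?_ ?_) le_rfl) h5
    · exact le_mul_of_one_le_right (by positivity) (by linarith)
    · exact mul_le_mul_of_nonneg_left (le_mul_of_one_le_right σ0.le hsq) hCR
  refine ⟨(|D.κ| * cF / 2) ^ 2 / ((|D.κ| * CB) ^ 2 * ρ + 1), by positivity,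
    max (max N₀ N₄) 2, fun N hN => ?_⟩
  simp only [max_le_iff] at hN
  obtain ⟨⟨x0, x4⟩, x5⟩ := hN
  have x1 : 1 ≤ N := by omega
  obtain ⟨Z, I, J, hP⟩ := h6 N x4
  have z0 : 0 < Z := by linarith [hP.one_le]
  have hL : Real.log N = ρ * Z := by rw [hP.L_eq hA, hρ]
  have hX0 : (0 : ℝ) ≤ N := Nat.cast_nonneg _
  rw [← filter_filter]
  have k0 := h1 N Z I J x0 hP
  have hsub : ((Ico N (2 * N)).filter fun n => n ≡ j₀ [MOD m]) ⊆ Ico N (2 * N) := filter_subset _ _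
  generalize ((Ico N (2 * N)).filter fun n => n ≡ j₀ [MOD m]) = S at k0 hsub ⊢
  have en : ∀ n, ‖D.MM c Z J (D.z n) * (D.κ * D.Q1 N i (D.z n))‖ =
      |D.κ| * ‖D.MM c Z J (D.z n) * D.Q1 N i (D.z n)‖ := fun n => by
    rw [mul_left_comm, norm_mul, Complex.norm_real, Real.norm_eq_abs]
  have k1 := (mul_le_mul_of_nonneg_left k0 κ0.le).trans ((le_of_eq (by
    rw [mul_sum]
    exact sum_congr rfl fun n _ => (en n).symm)).trans
    (split_three' S (fun n => D.MM c Z J (D.z n)) (fun n => D.κ * D.Q1 N i (D.z n)) D.Ld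
      fun n => D.Good c Z J i (D.z n)))
  obtain ⟨k2, k3⟩ := h2 A Z N i I J (by linarith) x1 hP
  have k4 := h3 Z N i I J (S.filter fun n => D.Good c Z J i (D.z n)) x5 hP
    ((filter_subset _ _).trans hsub) fun d hd => (mem_filter.1 hd).2
  have k5 := h4 N Z J i x1 z0.le (by rw [hL]; nlinarith)
  have hb : (S.filter fun n => ¬D.Good c Z J i (D.z n)) ⊆ D.bad c N Z J i := fun n hn =>
    mem_filter.2 ⟨hsub (mem_filter.1 hn).1, (mem_filter.1 hn).2⟩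
  rw [τ1] at k5
  rw [← hτ] at k3
  rw [← hσ] at k4
  have k6 : √((S.filter fun n => ¬D.Good c Z J i (D.z n)).card) ≤ √Cb * √N * τ := by
    refine Real.sqrt_le_iff.2 ⟨by positivity, ((Nat.cast_le.2 (card_le_card hb)).trans k5).trans ?_⟩
    rw [mul_pow, mul_pow, Real.sq_sqrt hCb, Real.sq_sqrt hX0]
  have k7 : √(S.card) ≤ √N := by
    refine Real.sqrt_le_sqrt (Nat.cast_le.2 ((card_le_card hsub).trans ?_))
    rw [Nat.card_Ico]
    omega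
  have e1 : Real.log N / √Z = ρ * √Z := by
    rw [hL, mul_div_assoc, Real.div_sqrt]
  have e2 : Real.log N * √(Real.log N) / Z = ρ * √ρ * √Z := by
    rw [hL, Real.sqrt_mul ρ0.le]
    field_simp
  rw [e2] at k2 k3
  rw [e1] at k1
  have k2' := (nrm_le_mul (T := S) κ0.le fun n _ => (en n).le).trans
    (mul_le_mul_of_nonneg_left ((nrm_subset hsub).trans k2) κ0.le)
  have k3' := (nrm_le_mul (T := S.filter fun n => ¬D.Good c Z J i (D.z n)) κ0.le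
    fun n _ => (en n).le).trans (mul_le_mul_of_nonneg_left ((nrm_subset hb).trans k3) κ0.le)
  have k8 := k1.trans (add_le_add (add_le_add
    (mul_le_mul_of_nonneg_left k2' (Real.sqrt_nonneg _))
    (mul_le_mul k7 k4 (nrm_nonneg _ _) (by positivity)))
    (mul_le_mul k6 k3' (nrm_nonneg _ _) (by positivity)))
  generalize ((S.filter fun n => D.Ld n ≠ 0).card : ℝ) = M at k8 ⊢
  have hu : √N * √N = (N : ℝ) := Real.mul_self_sqrt hX0
  have u0 : 0 < √(N : ℝ) := Real.sqrt_pos.2 (by exact_mod_cast x1)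
  have w0 : 0 < √Z := Real.sqrt_pos.2 z0
  generalize (N : ℝ) = X at k8 hu u0 ⊢
  generalize √X = u at k8 hu u0
  subst hu
  clear * - k8 h7 u0 w0 ρ0 hcF κ0 hCB
  generalize |D.κ| = k at *
  have k9 := mul_le_mul_of_nonneg_right h7 (show 0 ≤ u * u * √Z by positivity)
  have k10 : k * cF / 2 * u * (ρ * u * √Z) ≤ √M * (k * CB) * √ρ * (ρ * u * √Z) := by linarith
  have k11 := le_of_mul_le_mul_right k10 (by positivity)
  have N0 : 0 < √M := by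
    by_contra h
    rw [le_antisymm (not_lt.1 h) (Real.sqrt_nonneg M), zero_mul, zero_mul] at k11
    exact absurd k11 (not_le.2 (by positivity))
  have N1 : 0 ≤ M := (Real.sqrt_pos.1 N0).le
  have k12 := pow_le_pow_left₀ (by positivity) k11 2
  rw [mul_pow, mul_pow, mul_pow, Real.sq_sqrt N1, Real.sq_sqrt ρ0.le] at k12
  rw [div_mul_eq_mul_div, div_le_iff₀ (by positivity)]
  nlinarith

end Pool.Agent.Lib.MP_bcfefa_nt
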