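import Pool.Agent.Lib.MP_bcfefa_nt.BCnt

set_option autoImplicit false

noncomputable section

namespace Pool.Agent.Lib.MP_bcfefa_nt

open Complex Finset MeasureTheory Pool.Agent.Lib.MP_03e5d0_nt
open scoped Real ContDiff

/-! From Euler products to smooth weights. -/

/-- Cauchy-Schwarz: `0 ≤ ∫ a (x w - b / w) ^ 2`-type discriminant argument, or
`b ≤ (s w + b ^ 2 / (s w)) / 2` for every `s > 0`. -/
theorem cs_weight {a b w : ℝ → ℝ} (ha : ∀ t, 0 ≤ a t) (hw : ∀ t, 0 < w t)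
    (h1 : Integrable fun t => a t * b t) (h2 : Integrable fun t => a t * w t)
    (h3 : Integrable fun t => a t * (b t ^ 2 / w t)) :
    (∫ t, a t * b t) ^ 2 ≤ (∫ t, a t * w t) * ∫ t, a t * (b t ^ 2 / w t) := by
  have key : ∀ x : ℝ, 0 ≤ (∫ t, a t * w t) * (x * x) + (-2 * ∫ t, a t * b t) * x +
      ∫ t, a t * (b t ^ 2 / w t) := by
    intro x
    have e : (∫ t, a t * w t) * (x * x) + (-2 * ∫ t, a t * b t) * x + ∫ t, a t * (b t ^ 2 / w t) =
        ∫ t, (a t * w t * (x * x) + a t * b t * (-2 * x) + a t * (b t ^ 2 / w t)) := by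
      have h4 : Integrable fun t => a t * w t * (x * x) + a t * b t * (-2 * x) :=
        (h2.mul_const _).add (h1.mul_const _)
      rw [integral_add h4 h3,
        integral_add (h2.mul_const _) (h1.mul_const _), integral_mul_const, integral_mul_const]
      ring
    rw [e]
    refine integral_nonneg fun t => ?_
    have e2 : a t * w t * (x * x) + a t * b t * (-2 * x) + a t * (b t ^ 2 / w t) =
        a t * ((x * w t - b t) ^ 2 / w t) := by
      have := (hw t).ne'
      field_simp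
      ring
    show 0 ≤ a t * w t * (x * x) + a t * b t * (-2 * x) + a t * (b t ^ 2 / w t)
    rw [e2]
    exact mul_nonneg (ha t) (div_nonneg (sq_nonneg _) (hw t).le)
  have := discrim_le_zero key
  rw [discrim] at this
  nlinarith

theorem cgl_sm {j : ℕ} {B : ℝ} {Θ : ℝ → ℂ} (h : Sm j 1 4 B Θ) :
    Sm j 1 4 (2 ^ j * B * Real.exp 4) fun y => Θ y * (Real.exp y : ℝ) := by
  have hd : ∀ i : ℕ, iteratedDeriv i (fun y : ℝ => ((Real.exp y : ℝ) : ℂ)) =
      fun y : ℝ => ((Real.exp y : ℝ) : ℂ) := by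
    intro i
    induction i with
    | zero => simp
    | succ i ih =>
      rw [iteratedDeriv_succ, ih]
      funext y
      exact (Real.hasDerivAt_exp y).ofReal_comp.deriv
  refine h.mul (g := fun y : ℝ => ((Real.exp y : ℝ) : ℂ))
    (ofRealCLM.contDiff.comp Real.contDiff_exp) (Real.exp_pos _).le fun i _ y hy => ?_
  rw [hd]
  simp only [norm_real, Real.norm_eq_abs, abs_of_pos (Real.exp_pos y)]
  exact Real.exp_le_exp.2 hy.2

theorem cgl_re (U t : ℝ) : (((-1 / U : ℝ) : ℂ) + I * t / U).re = -1 / U := by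
  have : I * t / U = ((t / U : ℝ) : ℂ) * I := by push_cast; ring
  rw [this, add_re, ofReal_re, re_ofReal_mul, I_re, mul_zero, add_zero]

theorem cgl_lt {U : ℝ} (hU : 4 ≤ U) : (-1 / 2 : ℝ) < -1 / U := by
  rw [div_lt_div_iff₀ (by norm_num) (by linarith)]
  linarith

theorem cgl_zero {j : ℕ} {B U x Y : ℝ} {Θ : ℝ → ℂ} (h : Sm j 1 4 B Θ) (hU : 4 ≤ U) (hY : 1 ≤ Y)
    (hx : x ≤ Real.log Y) {n : ℝ} (hn : Y < n) : Θ ((x - Real.log n) / U) = 0 := by
  refine h.supp _ (Or.inl ?_)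
  have := Real.log_lt_log (by linarith) hn
  have : (x - Real.log n) / U ≤ 0 := div_nonpos_of_nonpos_of_nonneg (by linarith) (by linarith)
  linarith

/-- With `W y = Θ y * exp y` (`Sm.mul`) and `y = (x - log (Nm e)) / U`, `Sm.inv` gives
`Θ y = exp (-x / U) ∫ ft W t * ex t (x / U) * exp (-(α t) log (Nm e))`, `α t = -1 / U + i t / U`. The terms
with `Nm e > Y` vanish. Exchange the series and the integral (`hasSum_integral_of_summable_integral_norm`,
`summable_FF`, `hasSum_FF`). -/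
theorem gl_rep {S : Finset ℕ} (hS : ∀ p ∈ S, p.Prime) {j : ℕ} {B U x Y : ℝ} {Θ : ℝ → ℂ}
    (h : Sm j 1 4 B Θ) (hU : 4 ≤ U) (hY : 1 ≤ Y) (hx : x ≤ Real.log Y) (z : Tor) :
    ∑ e ∈ EE S Y, ch e z * (Θ ((x - Real.log (Nm e)) / U) / (√(Nm e) : ℝ)) =
      (Real.exp (-(x / U)) : ℝ) * ∫ t : ℝ, ft (fun y => Θ y * (Real.exp y : ℝ)) t * ex t (x / U) *
        FF S (xi (((-1 / U : ℝ) : ℂ) + I * t / U)) z := by
  have hW := cgl_sm h
  set W : ℝ → ℂ := fun y => Θ y * (Real.exp y : ℝ) with hWd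
  have hU0 : (U : ℂ) ≠ 0 := ofReal_ne_zero.mpr (by linarith)
  set α : ℝ → ℂ := fun t => ((-1 / U : ℝ) : ℂ) + I * t / U with hα
  have hre : ∀ t, (α t).re = -1 / U := fun t => cgl_re U t
  set c : Xp → ℝ := fun e => if e.support ⊆ S then
    Real.exp (-(-1 / U * Real.log (Nm e))) / √(Nm e) else 0 with hc
  set F : Xp → ℝ → ℂ := fun e t => ft W t * ex t (x / U) * (if e.support ⊆ S then
    ch e z * (cexp (-(α t * Real.log (Nm e))) / (√(Nm e) : ℝ)) else 0) with hF
  have hi : Integrable fun t => ‖ft W t‖ := by simpa using hW.ft_integrable 0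
  have hn : ∀ e t, ‖F e t‖ = ‖ft W t‖ * c e := by
    intro e t
    simp only [hF, hc, norm_mul, norm_ex, mul_one]
    congr 1
    split_ifs
    · rw [norm_mul, norm_ch, one_mul, norm_div, norm_exp, norm_real, Real.norm_eq_abs,
        abs_of_nonneg (Real.sqrt_nonneg _), neg_re, re_mul_ofReal, hre]
    · simp
  have hFc : ∀ e, Continuous (F e) := by
    intro e
    have h1 : Continuous fun t : ℝ => ex t (x / U) :=
      continuous_ex.comp (continuous_id.prodMk continuous_const)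
    refine (hW.ft_cont.mul h1).mul ?_
    split_ifs
    · simp only [hα]
      fun_prop
    · exact continuous_const
  have hFi : ∀ e, Integrable (F e) := fun e =>
    (hi.mul_const (c e)).mono' (hFc e).aestronglyMeasurable (ae_of_all _ fun t => (hn e t).le)
  have hsum : Summable fun e => ∫ t, ‖F e t‖ := by
    simp only [hn, integral_mul_const]
    exact (summable_FF hS (cgl_lt hU)).mul_left _
  have H := hasSum_integral_of_summable_integral_norm hFi hsum
  have ht : ∀ t, ∑' e, F e t = ft W t * ex t (x / U) * FF S (xi (α t)) z := fun t =>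
    ((hasSum_FF hS (by rw [hre]; exact cgl_lt hU) z).mul_left _).tsum_eq
  simp only [ht] at H
  have H2 := H.mul_left ((Real.exp (-(x / U)) : ℝ) : ℂ)
  have he : ∀ e : Xp, ((Real.exp (-(x / U)) : ℝ) : ℂ) * ∫ t, F e t = if e.support ⊆ S then
      ch e z * (Θ ((x - Real.log (Nm e)) / U) / (√(Nm e) : ℝ)) else 0 := by
    intro e
    simp only [hF]
    split_ifs
    · set L := Real.log (Nm e)
      have h1 := hW.inv ((x - L) / U)
      have h2 : ∀ t : ℝ, ft W t * ex t (x / U) * (ch e z * (cexp (-(α t * L)) / (√(Nm e) : ℝ))) =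
          (ch e z * cexp (L / U) / (√(Nm e) : ℝ)) * (ft W t * ex t ((x - L) / U)) := by
        intro t
        have h3 : ex t (x / U) * cexp (-(α t * L)) = cexp (L / U) * ex t ((x - L) / U) := by
          simp only [ex, hα, ← Complex.exp_add]
          congr 1
          push_cast
          field_simp
          ring
        linear_combination (ft W t * ch e z / (√(Nm e) : ℝ)) * h3
      simp only [h2]
      rw [integral_const_mul, ← h1]
      have h4 : ((Real.exp (-(x / U)) : ℝ) : ℂ) * cexp (L / U) *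
          ((Real.exp ((x - L) / U) : ℝ) : ℂ) = 1 := by
        push_cast
        rw [← Complex.exp_add, ← Complex.exp_add, ← Complex.exp_zero]
        congr 1
        ring
      simp only [hWd]
      linear_combination (ch e z * Θ ((x - L) / U) / (√(Nm e) : ℝ)) * h4
    · simp
  simp only [he] at H2
  have H3 : HasSum (fun e : Xp => if e.support ⊆ S then
      ch e z * (Θ ((x - Real.log (Nm e)) / U) / (√(Nm e) : ℝ)) else 0)
      (∑ e ∈ EE S Y, if e.support ⊆ S then
        ch e z * (Θ ((x - Real.log (Nm e)) / U) / (√(Nm e) : ℝ)) else 0) := by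
    refine hasSum_sum_of_ne_finset_zero fun e he => ?_
    split_ifs with h1
    · rw [mem_EE hS, not_and, not_le] at he
      rw [cgl_zero h hU hY hx (he h1)]
      simp
    · rfl
  rw [← H3.unique H2]
  exact sum_congr rfl fun e he => by rw [if_pos ((mem_EE hS).1 he).1]

/-- `gl_rep`, `cs_weight` with `a = ‖ft W‖`, `w = (1 + |t|) ^ k`; multiply by `R`, integrate, exchange the
integrals (`integral_integral_swap`, `continuous_FF₂`, `norm_FF_le`); `‖α t‖ Λ ≤ 1 + |t|`; `Sm.ft_int`,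
`j = k + 2`. -/
theorem gl (k : ℕ) : ∃ (j : ℕ) (C : ℝ), 0 ≤ C ∧ ∀ (S : Finset ℕ) (R : Tor → ℝ) (Γ Λ B U x Y : ℝ)
    (Θ : ℝ → ℂ), (∀ p ∈ S, p.Prime) → Continuous R → (∀ z, 0 ≤ R z) → 0 ≤ Γ → 1 ≤ Λ → 4 * Λ ≤ U →
    1 ≤ Y → x ≤ Real.log Y → Sm j 1 4 B Θ →
    (∀ α : ℂ, |α.re| * Λ ≤ 1 / 4 →
      ∫ z, R z * ‖FF S (xi α) z‖ ^ 2 ∂mu ≤ Γ * (1 + ‖α‖ * Λ) ^ k) →
    ∫ z, R z * ‖∑ e ∈ EE S Y, ch e z * (Θ ((x - Real.log (Nm e)) / U) / (√(Nm e) : ℝ))‖ ^ 2 ∂mu ≤
      C * B ^ 2 * Γ * Real.exp (-(2 * (x / U))) := by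
  obtain ⟨C, hC0, hC⟩ := Sm.ft_int k 3
  refine ⟨k + 2, (C * (2 ^ (k + 2) * Real.exp 4)) ^ 2 * 2 ^ k, by positivity,
    fun S R Γ Λ B U x Y Θ hS hR hR0 hΓ hΛ hU hY hx h hyp => ?_⟩
  have hU4 : 4 ≤ U := by linarith
  have hU0 : 0 < U := by linarith
  have hW := cgl_sm h
  have hB := h.nonneg
  set W : ℝ → ℂ := fun y => Θ y * (Real.exp y : ℝ) with hWd
  set α : ℝ → ℂ := fun t => ((-1 / U : ℝ) : ℂ) + I * t / U with hα
  have hre : ∀ t, (α t).re = -1 / U := fun t => cgl_re U t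
  set a : ℝ → ℝ := fun t => ‖ft W t‖ with ha
  set w : ℝ → ℝ := fun t => (1 + |t|) ^ k with hw
  obtain ⟨b, hb⟩ : ∃ b : ℝ → Tor → ℝ, ∀ t z, b t z = ‖FF S (xi (α t)) z‖ := ⟨_, fun _ _ => rfl⟩
  set A : ℝ := C * (2 ^ (k + 2) * B * Real.exp 4) with hA
  have hA0 : 0 ≤ A := by positivity
  have ha0 : ∀ t, 0 ≤ a t := fun t => norm_nonneg _
  have hw1 : ∀ t, 1 ≤ w t := fun t => one_le_pow₀ (by linarith [abs_nonneg t])
  have hw0 : ∀ t, 0 < w t := fun t => lt_of_lt_of_le one_pos (hw1 t)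
  have hai : Integrable a := by simpa using hW.ft_integrable 0
  have hawi : Integrable fun t => a t * w t := hW.ft_integrable k
  have hawA : ∫ t, a t * w t ≤ A := hC 1 4 _ W (by norm_num) hW
  have haA : ∫ t, a t ≤ A :=
    (integral_mono hai hawi fun t => le_mul_of_one_le_right (ha0 t) (hw1 t)).trans hawA
  have hac : Continuous a := hW.ft_cont.norm
  have hwc : Continuous w := by simp only [hw]; fun_prop
  have hbc : Continuous fun q : ℝ × Tor => b q.1 q.2 := by
    simp only [hb]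
    exact (continuous_FF₂ hS (cgl_lt hU4) U).norm
  obtain ⟨K, hK⟩ := norm_FF_le hS (cgl_lt hU4)
  have hbK : ∀ t z, b t z ≤ K := fun t z => (hb t z).trans_le (hK _ z (hre t))
  have hb0 : ∀ t z, 0 ≤ b t z := fun t z => (norm_nonneg _).trans_eq (hb t z).symm
  have hq : ∀ t z, b t z ^ 2 / w t ≤ K ^ 2 := fun t z =>
    (div_le_self (sq_nonneg _) (hw1 t)).trans (pow_le_pow_left₀ (hb0 t z) (hbK t z) 2)
  have hq0 : ∀ t z, 0 ≤ b t z ^ 2 / w t := fun t z => div_nonneg (sq_nonneg _) (hw0 t).le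
  obtain ⟨M, hM⟩ : ∃ M, ∀ z, R z ≤ M := by
    obtain ⟨M, hM⟩ := (isCompact_range hR).bddAbove
    exact ⟨M, fun z => hM ⟨z, rfl⟩⟩
  set G : Tor → ℝ → ℝ := fun z t => R z * (a t * (b t z ^ 2 / w t)) with hG
  have hGc : Continuous (Function.uncurry G) := by
    have h1 : Continuous fun q : Tor × ℝ => b q.2 q.1 := hbc.comp continuous_swap
    exact (hR.comp continuous_fst).mul ((hac.comp continuous_snd).mul
      ((h1.pow 2).div (hwc.comp continuous_snd) fun q => (hw0 _).ne'))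
  have hGi : Integrable (Function.uncurry G) (mu.prod volume) := by
    have h1 : Integrable (fun q : Tor × ℝ => (M * K ^ 2) * a q.2) (mu.prod volume) :=
      (integrable_const (μ := mu) (M * K ^ 2)).mul_prod hai
    refine h1.mono' hGc.aestronglyMeasurable (ae_of_all _ fun q => ?_)
    show ‖R q.1 * (a q.2 * (b q.2 q.1 ^ 2 / w q.2))‖ ≤ _
    rw [Real.norm_of_nonneg (mul_nonneg (hR0 _) (mul_nonneg (ha0 _) (hq0 _ _)))]
    calc R q.1 * (a q.2 * (b q.2 q.1 ^ 2 / w q.2)) ≤ M * (a q.2 * K ^ 2) :=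
          mul_le_mul (hM _) (mul_le_mul_of_nonneg_left (hq _ _) (ha0 _))
            (mul_nonneg (ha0 _) (hq0 _ _)) ((hR0 q.1).trans (hM _))
      _ = _ := by ring
  have hpt : ∀ z, R z * ‖∑ e ∈ EE S Y,
      ch e z * (Θ ((x - Real.log (Nm e)) / U) / (√(Nm e) : ℝ))‖ ^ 2 ≤
      Real.exp (-(2 * (x / U))) * A * ∫ t, G z t := by
    intro z
    have hbz : Continuous fun t => b t z := hbc.comp (continuous_id.prodMk continuous_const)
    have i1 : Integrable fun t => a t * b t z :=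
      (hai.mul_const K).mono' (hac.mul hbz).aestronglyMeasurable (ae_of_all _ fun t => by
        rw [Real.norm_of_nonneg (mul_nonneg (ha0 _) (hb0 _ _))]
        exact mul_le_mul_of_nonneg_left (hbK _ _) (ha0 _))
    have i3 : Integrable fun t => a t * (b t z ^ 2 / w t) :=
      (hai.mul_const (K ^ 2)).mono'
        (hac.mul ((hbz.pow 2).div hwc fun t => (hw0 _).ne')).aestronglyMeasurable
        (ae_of_all _ fun t => by
          rw [Real.norm_of_nonneg (mul_nonneg (ha0 _) (hq0 _ _))]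
          exact mul_le_mul_of_nonneg_left (hq _ _) (ha0 _))
    have cs := cs_weight ha0 hw0 i1 hawi i3
    have hQ : 0 ≤ ∫ t, a t * (b t z ^ 2 / w t) :=
      integral_nonneg fun t => mul_nonneg (ha0 _) (hq0 _ _)
    have n1 : ‖∫ t : ℝ, ft W t * ex t (x / U) * FF S (xi (α t)) z‖ ≤ ∫ t, a t * b t z := by
      refine (norm_integral_le_integral_norm _).trans (le_of_eq ?_)
      simp only [norm_mul, norm_ex, mul_one, ha, hb]
    have n2 : ‖∫ t : ℝ, ft W t * ex t (x / U) * FF S (xi (α t)) z‖ ^ 2 ≤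
        A * ∫ t, a t * (b t z ^ 2 / w t) :=
      (pow_le_pow_left₀ (norm_nonneg _) n1 2).trans
        (cs.trans (mul_le_mul_of_nonneg_right hawA hQ))
    have e1 : Real.exp (-(x / U)) ^ 2 = Real.exp (-(2 * (x / U))) := by
      rw [← Real.exp_nat_mul]; congr 1; push_cast; ring
    rw [gl_rep hS h hU4 hY hx z, norm_mul, mul_pow, norm_real,
      Real.norm_of_nonneg (Real.exp_pos _).le, e1]
    simp only [hG, integral_const_mul]
    calc R z * (Real.exp (-(2 * (x / U))) *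
          ‖∫ t : ℝ, ft W t * ex t (x / U) * FF S (xi (α t)) z‖ ^ 2)
        ≤ R z * (Real.exp (-(2 * (x / U))) * (A * ∫ t, a t * (b t z ^ 2 / w t))) :=
          mul_le_mul_of_nonneg_left (mul_le_mul_of_nonneg_left n2 (Real.exp_pos _).le) (hR0 z)
      _ = _ := by ring
  have hin : ∀ t, ∫ z, G z t ∂mu ≤ a t * (Γ * 2 ^ k) := by
    intro t
    have h1 : |(α t).re| * Λ ≤ 1 / 4 := by
      rw [hre, abs_div, abs_neg, abs_one, abs_of_pos hU0, div_mul_eq_mul_div, div_le_iff₀ hU0]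
      linarith
    have h2 : ‖α t‖ * Λ ≤ 1 + |t| := by
      have h3 : ‖α t‖ ≤ (1 + |t|) / U := by
        refine (norm_add_le _ _).trans (le_of_eq ?_)
        rw [norm_real, norm_div, norm_div, norm_mul, norm_I, norm_real, norm_real, norm_neg,
          norm_one, Real.norm_eq_abs, Real.norm_eq_abs, abs_of_pos hU0]
        ring
      calc ‖α t‖ * Λ ≤ (1 + |t|) / U * U :=
            mul_le_mul h3 (by linarith) (by linarith) (by positivity)
        _ = 1 + |t| := by field_simp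
    have h4 : (1 + ‖α t‖ * Λ) ^ k ≤ 2 ^ k * w t := by
      simp only [hw]
      rw [← mul_pow]
      exact pow_le_pow_left₀ (by positivity) (by linarith [abs_nonneg t]) k
    have h5 := (hyp (α t) h1).trans (mul_le_mul_of_nonneg_left h4 hΓ)
    simp only [← hb] at h5
    have e : ∀ z, G z t = a t / w t * (R z * b t z ^ 2) := fun z => by simp only [hG]; ring
    simp only [e, integral_const_mul]
    calc a t / w t * ∫ z, R z * b t z ^ 2 ∂mu ≤ a t / w t * (Γ * (2 ^ k * w t)) :=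
          mul_le_mul_of_nonneg_left h5 (div_nonneg (ha0 t) (hw0 t).le)
      _ = _ := by
          have := (hw0 t).ne'
          field_simp
  have hsw : ∫ z, (∫ t, G z t) ∂mu ≤ A * (Γ * 2 ^ k) := by
    rw [integral_integral_swap hGi]
    refine (integral_mono hGi.integral_prod_right (hai.mul_const _) hin).trans ?_
    rw [integral_mul_const]
    exact mul_le_mul_of_nonneg_right haA (by positivity)
  refine (integral_mono_of_nonneg (ae_of_all _ fun z => mul_nonneg (hR0 z) (sq_nonneg _))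
    (hGi.integral_prod_left.const_mul (Real.exp (-(2 * (x / U))) * A))
    (ae_of_all _ hpt)).trans ?_
  rw [integral_const_mul]
  calc Real.exp (-(2 * (x / U))) * A * ∫ z, (∫ t, G z t) ∂mu
      ≤ Real.exp (-(2 * (x / U))) * A * (A * (Γ * 2 ^ k)) :=
        mul_le_mul_of_nonneg_left hsw (by positivity)
    _ = _ := by rw [hA]; ring

/-- Let `S = D.pr Λ`, `S' = D.pr (log Y) \ S`; `Λ ≤ log Y`, so `D.pr (log Y) = S' ∪ S`. `split_sum`,
`ch_add`, `Nm_add_disj`, `int_orth`, then `gl` with `x = log Y - log (Nm e')` and `cnt` with `σ = 2 / U`;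
`1 ≤ U / ly Λ`. -/
theorem Dat.diag (D : Dat) (k : ℕ) : ∃ (j : ℕ) (C : ℝ), 0 ≤ C ∧ ∀ (R : Tor → ℝ) (Γ Λ B U Y : ℝ)
    (Θ : ℝ → ℂ), Continuous R → (∀ z, 0 ≤ R z) → Dep (D.pr Λ) R → 0 ≤ Γ → 4 * ly Λ ≤ U → 1 ≤ Y →
    Λ ≤ Real.log Y → Sm j 1 4 B Θ →
    (∀ α : ℂ, |α.re| * ly Λ ≤ 1 / 4 →
      ∫ z, R z * ‖FF (D.pr Λ) (xi α) z‖ ^ 2 ∂mu ≤ Γ * (1 + ‖α‖ * ly Λ) ^ k) →
    ∫ z, R z * ‖D.pc Y U Θ z‖ ^ 2 ∂mu ≤ C * B ^ 2 * Γ * (U / ly Λ) := by
  obtain ⟨j, C, hC0, hC⟩ := gl k
  obtain ⟨C', hC0', hC'⟩ := D.cnt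
  refine ⟨j, C * (1 + C' / 2), by positivity,
    fun R Γ Λ B U Y Θ hR hR0 hRd hΓ hU hY hΛ h hyp => ?_⟩
  have hl : 1 ≤ ly Λ := le_max_left _ _
  have hU4 : 4 ≤ U := by linarith
  have hU0 : 0 < U := by linarith
  set S := D.pr Λ with hSd
  set S' := D.pr (Real.log Y) \ S with hSd'
  have hS : ∀ p ∈ S, p.Prime := D.pr_prime Λ
  have hS' : ∀ p ∈ S', p.Prime := fun p hp => D.pr_prime _ p (mem_sdiff.1 hp).1
  have hd : Disjoint S' S := sdiff_disjoint
  have hun : D.pr (Real.log Y) = S' ∪ S := (sdiff_union_of_subset (D.pr_mono hΛ)).symm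
  set T : Xp → Tor → ℂ := fun e' z => ∑ e ∈ EE S Y,
    ch e z * (Θ ((Real.log Y - Real.log (Nm e') - Real.log (Nm e)) / U) / (√(Nm e) : ℝ)) with hT
  set H : Xp → Tor → ℂ := fun e' z => (((√(Nm e'))⁻¹ : ℝ) : ℂ) * T e' z with hH
  have hone : ∀ {S₀ : Finset ℕ}, (∀ p ∈ S₀, p.Prime) → ∀ e ∈ EE S₀ Y, (1 : ℝ) ≤ Nm e := by
    intro S₀ h0 e he
    have : Pm e := fun p hp => h0 p (((mem_EE h0).1 he).1 hp)
    exact_mod_cast this.one_le
  have hpc : ∀ z, D.pc Y U Θ z = ∑ e' ∈ EE S' Y, ch e' z * H e' z := by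
    intro z
    rw [Dat.pc, Dat.sm, Dat.E, hun, split_sum hS hS' hd Y _ fun e he => by
      rw [cgl_zero h hU4 hY le_rfl he]; simp]
    refine sum_congr rfl fun e' he' => ?_
    simp only [hH, hT, mul_sum]
    refine sum_congr rfl fun e he => ?_
    have h1 := hone hS' e' he'
    have h2 := hone hS e he
    have hdis : Disjoint e'.support e.support :=
      Finset.disjoint_of_subset_left ((mem_EE hS').1 he').1
        (Finset.disjoint_of_subset_right ((mem_EE hS).1 he).1 hd)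
    rw [ch_add, Nm_add_disj hdis, Nat.cast_mul, Real.log_mul (by linarith) (by linarith),
      Real.sqrt_mul (by linarith), sub_add_eq_sub_sub]
    push_cast
    ring
  have hTc : ∀ e', Continuous (T e') := fun e' =>
    continuous_finsetSum _ fun e _ => (continuous_ch e).mul continuous_const
  have hTd : ∀ e', Dep S (T e') := fun e' z z' hz =>
    sum_congr rfl fun e he => by
      rw [dep_ch (S := S) (fun p hp => ((mem_EE hS).1 he).1 hp) z z' hz]
  simp only [hpc]
  rw [int_orth (S := S) (H := H) (EE S' Y) (fun e he p hp => ?_) hR hRd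
    (fun e _ => continuous_const.mul (hTc e)) fun e _ z z' hz => by
      simp only [hH, hTd e z z' hz]]
  swap
  · by_contra h0
    exact Finset.disjoint_left.1 hd (((mem_EE hS').1 he).1 (Finsupp.mem_support_iff.2 h0)) hp
  have hterm : ∀ e' ∈ EE S' Y, ∫ z, R z * ‖H e' z‖ ^ 2 ∂mu ≤ C * B ^ 2 * Γ *
      (Real.exp (-(2 / U * (Real.log Y - Real.log (Nm e')))) / Nm e') := by
    intro e' he'
    have h1 := hone hS' e' he'
    have h2 := hC S R Γ (ly Λ) B U (Real.log Y - Real.log (Nm e')) Y Θ hS hR hR0 hΓ hl hU hY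
      (by linarith [Real.log_nonneg h1]) h hyp
    have e : ∀ z, R z * ‖H e' z‖ ^ 2 = (Nm e' : ℝ)⁻¹ * (R z * ‖T e' z‖ ^ 2) := fun z => by
      simp only [hH]
      rw [norm_mul, mul_pow, norm_real, Real.norm_eq_abs, sq_abs, inv_pow,
        Real.sq_sqrt (by linarith)]
      ring
    simp only [e, integral_const_mul]
    refine (mul_le_mul_of_nonneg_left h2 (by positivity)).trans (le_of_eq ?_)
    rw [show 2 / U * (Real.log Y - Real.log (Nm e')) =
      2 * ((Real.log Y - Real.log (Nm e')) / U) by ring]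
    ring
  refine (sum_le_sum hterm).trans ?_
  rw [← mul_sum]
  have h3 := hC' S' Λ Y (2 / U) hY (by positivity) (by rw [div_le_one hU0]; linarith)
    fun p hp => by
      obtain ⟨h1, h2⟩ := mem_sdiff.1 hp
      rw [D.mem_pr] at h1
      rw [hSd, D.mem_pr, not_and, not_le] at h2
      exact ⟨h1.1, h2 h1.1⟩
  have h4 : 1 ≤ U / ly Λ := by rw [one_le_div (by linarith)]; linarith
  have h5 : C' / (2 / U * ly Λ) = C' / 2 * (U / ly Λ) := by field_simp
  calc C * B ^ 2 * Γ * ∑ e' ∈ EE S' Y,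
        Real.exp (-(2 / U * (Real.log Y - Real.log (Nm e')))) / Nm e'
      ≤ C * B ^ 2 * Γ * ((1 + C' / 2) * (U / ly Λ)) :=
        mul_le_mul_of_nonneg_left (h3.trans (by rw [h5]; linarith)) (by positivity)
    _ = _ := by ring

end Pool.Agent.Lib.MP_bcfefa_nt
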