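import Pool.Agent.Lib.MP_bcfefa_nt.CBl

set_option autoImplicit false

noncomputable section

namespace Pool.Agent.Lib.MP_bcfefa_nt

open Complex Finset MeasureTheory Pool.Agent.Lib.MP_03e5d0_nt
open scoped Real ContDiff

/-! The moments of the mollifier in the random model. -/

theorem cker_const (D : Dat) : ∃ C : ℝ, 0 ≤ C ∧ ∀ (c : ℕ) (Z : ℝ) (b e : ℕ), 1 ≤ c → 0 ≤ Z → e ≤ 8 →
    ∫ z, D.VV c Z 0 b z ^ e ∂mu ≤ C * Real.exp ((e : ℝ) ^ 2 / 18 *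
      ∑ p ∈ D.pr (Z / 2 ^ 0) \ D.pr (Z / 2 ^ b), (2 : ℝ) / p) := by
  obtain ⟨C, hC, h⟩ := D.blks_upper
  refine ⟨C, hC, fun c Z b e hc hZ he => ?_⟩
  have h1 := h c Z (Ico 0 b) (fun _ => e) (fun _ => 0) hc hZ (fun _ => he) (fun j _ p _ => by
    rw [norm_zero]
    positivity)
  simp only [FF_zero, norm_one, one_pow, mul_one] at h1
  rw [D.sum_blk hZ (Nat.zero_le b) (fun p => mq 0 (-(e / 3 : ℝ) / √p))] at h1
  have h2 : ∑ p ∈ D.pr (Z / 2 ^ 0) \ D.pr (Z / 2 ^ b), mq 0 (-(e / 3 : ℝ) / √p) =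
      (e : ℝ) ^ 2 / 18 * ∑ p ∈ D.pr (Z / 2 ^ 0) \ D.pr (Z / 2 ^ b), (2 : ℝ) / p := by
    rw [mul_sum]
    refine sum_congr rfl fun p hp => ?_
    rw [mq_zero (D.pr_prime _ p (mem_sdiff.1 hp).1).pos]
    ring
  rw [h2] at h1
  simpa only [Dat.VV, prod_pow] using h1

theorem cker_FF (D : Dat) {Z : ℝ} (hZ : 0 ≤ Z) {a J : ℕ} (hJ : 2 * Z ≤ 2 ^ J) (haJ : a ≤ J) (ξ : ℕ → ℂ)
    (z : Tor) : ‖FF (D.pr (Z / 2 ^ a)) ξ z‖ = ∏ j ∈ Ico a J, ‖FF (D.blk Z j) ξ z‖ := by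
  rw [← norm_prod]
  unfold FF
  rw [D.prod_blk hZ haJ, D.pr_last hJ, sdiff_empty]

/-- `blks_upper` with `ξ = 0`, `e = 2`: `mq 0 = (4 / 9) / p` (`mq_zero`); `sum_blk`, `ps_range`. -/
theorem Dat.ker0 (D : Dat) : ∃ C : ℝ, 0 ≤ C ∧ ∀ (c : ℕ) (Z : ℝ) (b : ℕ), 1 ≤ c → 0 ≤ Z →
    ∫ z, D.VV c Z 0 b z ^ 2 ∂mu ≤ C * (2 : ℝ) ^ (2 * (b : ℝ) / 9) := by
  obtain ⟨C, hC, h⟩ := cker_const D
  obtain ⟨C1, hC1, h1⟩ := D.ps_range
  refine ⟨C * Real.exp (2 * C1 / 9), by positivity, fun c Z b hc hZ => ?_⟩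
  refine (h c Z b 2 hc hZ (by norm_num)).trans ?_
  have h2 := h1 Z 0 b hZ (Nat.zero_le b)
  rw [mul_assoc, Real.rpow_def_of_pos two_pos, ← Real.exp_add]
  refine mul_le_mul_of_nonneg_left (Real.exp_le_exp.2 ?_) hC
  push_cast at h2 ⊢
  linarith

/-- The same with `e = 6`: `mq 0 = 4 / p`; `D.mert` at `Z`. -/
theorem Dat.ker6 (D : Dat) : ∃ C : ℝ, 0 ≤ C ∧ ∀ (c : ℕ) (Z : ℝ) (J : ℕ), 1 ≤ c → 1 ≤ Z →
    ∫ z, D.VV c Z 0 J z ^ 6 ∂mu ≤ C * Z ^ 2 := by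
  obtain ⟨C, hC, h⟩ := cker_const D
  obtain ⟨C1, h1⟩ := D.mert
  refine ⟨C * Real.exp (2 * C1), by positivity, fun c Z J hc hZ => ?_⟩
  refine (h c Z J 6 hc (by linarith) (by norm_num)).trans ?_
  have h2 := (abs_le.1 (h1 Z)).2
  have h3 : ly Z = Z := max_eq_right hZ
  rw [h3] at h2
  have h4 : ∑ p ∈ D.pr (Z / 2 ^ 0) \ D.pr (Z / 2 ^ J), (2 : ℝ) / p ≤ ∑ p ∈ prs D.P Z, (2 : ℝ) / p := by
    refine sum_le_sum_of_subset_of_nonneg ?_ fun p _ _ => by positivity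
    rw [pow_zero, div_one]
    exact sdiff_subset
  have h5 : Z ^ 2 = Real.exp (2 * Real.log Z) := by
    rw [show (2 : ℝ) * Real.log Z = (2 : ℕ) * Real.log Z by norm_num, Real.exp_nat_mul,
      Real.exp_log (by linarith)]
  rw [mul_assoc, h5, ← Real.exp_add]
  refine mul_le_mul_of_nonneg_left (Real.exp_le_exp.2 ?_) hC
  push_cast
  linarith

/-- `D.pr (Z / 2 ^ a)` is the union of the blocks `a ≤ j < J` (`prod_blk`, `pr_last`). `blks_upper` with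
`e j = if j < b then 8 else 6`, `norm_xi_le`, `mq_xi`: the exponent is at most
`-∑ 2 / p + (2 / 9) ∑' 2 / p + C ∑ min 1 (‖α‖ log p) / p`; `D.mert`, `ps_range`, `ps_min`. -/
theorem Dat.ker2 (D : Dat) : ∃ (k : ℕ) (C : ℝ), 0 ≤ C ∧ ∀ (c : ℕ) (Z : ℝ) (a b J : ℕ) (α : ℂ), 1 ≤ c →
    0 ≤ Z → 2 * Z ≤ 2 ^ J → a ≤ b → b ≤ J → |α.re| * ly (Z / 2 ^ a) ≤ 1 / 4 →
    ∫ z, D.VV c Z a b z ^ 8 * D.VV c Z b J z ^ 6 * ‖FF (D.pr (Z / 2 ^ a)) (xi α) z‖ ^ 2 ∂mu ≤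
      C * (2 : ℝ) ^ (2 * ((b : ℝ) - a) / 9) / ly (Z / 2 ^ a) * (1 + ‖α‖ * ly (Z / 2 ^ a)) ^ k := by
  obtain ⟨C, hC, h⟩ := D.blks_upper
  obtain ⟨C1, h1⟩ := D.mert
  obtain ⟨C2, hC2, h2⟩ := D.ps_range
  obtain ⟨C3, hC3, h3⟩ := D.ps_min
  obtain ⟨C4, hC4, h4⟩ := mq_xi
  refine ⟨⌈C4⌉₊, C * Real.exp (C1 + 2 * C2 / 9 + C4 * C3), by positivity,
    fun c Z a b J α hc hZ hJ hab hbJ hα => ?_⟩
  have haJ := hab.trans hbJ
  have hL := one_le_ly (Z / 2 ^ a)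
  have hre : ∀ j ∈ Ico a J, ∀ p ∈ D.blk Z j, 0 < p ∧ -1 / 4 ≤ α.re * Real.log p := by
    intro j hj p hp
    have hp1 : p ∈ D.pr (Z / 2 ^ a) := by
      refine D.pr_mono ?_ (D.blk_sub j hp)
      exact div_le_div_of_nonneg_left hZ (by positivity)
        (pow_le_pow_right₀ one_le_two (mem_Ico.1 hj).1)
    refine ⟨(D.pr_prime _ p hp1).pos, ?_⟩
    have h5 : Real.log p ≤ ly (Z / 2 ^ a) := (D.mem_pr.1 hp1).2.trans (le_max_right _ _)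
    have h6 : 0 ≤ Real.log p := Real.log_natCast_nonneg p
    have h7 : |α.re| * Real.log p ≤ 1 / 4 :=
      (mul_le_mul_of_nonneg_left h5 (abs_nonneg _)).trans hα
    have h8 : -|α.re| * Real.log p ≤ α.re * Real.log p :=
      mul_le_mul_of_nonneg_right (neg_abs_le _) h6
    linarith
  have h5 := h c Z (Ico a J) (fun j => if j < b then 8 else 6) (xi α) hc hZ
    (fun j => by split_ifs <;> norm_num) (fun j hj p hp => norm_xi_le (hre j hj p hp).1 (hre j hj p hp).2)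
  have h6 : ∀ z, D.VV c Z a b z ^ 8 * D.VV c Z b J z ^ 6 * ‖FF (D.pr (Z / 2 ^ a)) (xi α) z‖ ^ 2 =
      ∏ j ∈ Ico a J, D.vv c Z j z ^ (if j < b then 8 else 6) * ‖FF (D.blk Z j) (xi α) z‖ ^ 2 := by
    intro z
    rw [prod_mul_distrib, cker_FF D hZ hJ haJ, prod_pow,
      ← prod_Ico_consecutive (fun j => D.vv c Z j z ^ (if j < b then 8 else 6)) hab hbJ]
    unfold Dat.VV
    rw [← prod_pow, ← prod_pow]
    congr 2
    · exact prod_congr rfl fun j hj => by rw [if_pos (mem_Ico.1 hj).2]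
    · exact prod_congr rfl fun j hj => by rw [if_neg (not_lt.2 (mem_Ico.1 hj).1)]
  simp only [h6]
  refine h5.trans ?_
  have h7 : ∑ j ∈ Ico a J, ∑ p ∈ D.blk Z j,
      mq (xi α p) (-(((if j < b then 8 else 6 : ℕ) : ℝ) / 3 : ℝ) / √p) ≤
      ∑ j ∈ Ico a J, ((if j < b then 2 / 9 * ∑ p ∈ D.blk Z j, (2 : ℝ) / p else 0) +
        ∑ p ∈ D.blk Z j, (-((2 : ℝ) / p) + C4 * (min 1 (‖α‖ * Real.log p) / p))) := by
    refine sum_le_sum fun j hj => ?_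
    split_ifs with hjb
    · rw [mul_sum, ← sum_add_distrib]
      refine sum_le_sum fun p hp => ?_
      refine (h4 p _ α (hre j hj p hp).1 (by rw [abs_le]; constructor <;> norm_num)
        (hre j hj p hp).2).trans (le_of_eq ?_)
      push_cast
      ring
    · rw [zero_add]
      refine sum_le_sum fun p hp => ?_
      refine (h4 p _ α (hre j hj p hp).1 (by rw [abs_le]; constructor <;> norm_num)
        (hre j hj p hp).2).trans (le_of_eq ?_)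
      push_cast
      ring
  have h8 : ∑ j ∈ Ico a J, (if j < b then 2 / 9 * ∑ p ∈ D.blk Z j, (2 : ℝ) / p else 0) =
      2 / 9 * ∑ p ∈ D.pr (Z / 2 ^ a) \ D.pr (Z / 2 ^ b), (2 : ℝ) / p := by
    rw [← sum_Ico_consecutive _ hab hbJ, ← D.sum_blk hZ hab, mul_sum,
      sum_congr rfl fun j hj => if_pos (mem_Ico.1 hj).2,
      sum_eq_zero fun j hj => if_neg (not_lt.2 (mem_Ico.1 hj).1), add_zero]
  rw [sum_add_distrib, h8, D.sum_blk hZ haJ, D.pr_last hJ, sdiff_empty, sum_add_distrib,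
    sum_neg_distrib, ← mul_sum] at h7
  have h9 := (abs_le.1 (h1 (Z / 2 ^ a))).1
  have h10 := h2 Z a b hZ hab
  have h11 := mul_le_mul_of_nonneg_left (h3 (Z / 2 ^ a) ‖α‖ (norm_nonneg _)) hC4
  have hR : 1 ≤ 1 + ‖α‖ * ly (Z / 2 ^ a) := le_add_of_nonneg_right (by positivity)
  have h12 : C4 * Real.log (1 + ‖α‖ * ly (Z / 2 ^ a)) ≤
      (⌈C4⌉₊ : ℕ) * Real.log (1 + ‖α‖ * ly (Z / 2 ^ a)) :=
    mul_le_mul_of_nonneg_right (Nat.le_ceil _) (Real.log_nonneg hR)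
  have h13 : (1 + ‖α‖ * ly (Z / 2 ^ a)) ^ ⌈C4⌉₊ =
      Real.exp ((⌈C4⌉₊ : ℕ) * Real.log (1 + ‖α‖ * ly (Z / 2 ^ a))) := by
    rw [Real.exp_nat_mul, Real.exp_log (by linarith)]
  have h14 : (ly (Z / 2 ^ a))⁻¹ = Real.exp (-Real.log (ly (Z / 2 ^ a))) := by
    rw [Real.exp_neg, Real.exp_log (by linarith)]
  rw [h13, div_eq_mul_inv _ (ly _), h14, Real.rpow_def_of_pos two_pos, mul_assoc, mul_assoc, mul_assoc,
    ← Real.exp_add, ← Real.exp_add, ← Real.exp_add]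
  refine mul_le_mul_of_nonneg_left (Real.exp_le_exp.2 (h7.trans ?_)) hC
  change -C1 ≤ ∑ p ∈ D.pr (Z / 2 ^ a), (2 : ℝ) / p - _ at h9
  linarith

/-- `blks_lower`, `prod_blk`, `sum_blk`, `pr_last`, `D.mert`. -/
theorem Dat.ker_low (D : Dat) : ∃ (c : ℕ) (κ : ℝ), 1 ≤ c ∧ 0 < κ ∧ ∀ (Z : ℝ) (J : ℕ), 1 ≤ Z →
    2 * Z ≤ 2 ^ J → κ / √Z ≤ ∫ z, D.VV c Z 0 J z ^ 3 * ‖FF (D.pr Z) (xi 0) z‖ ∂mu := by
  obtain ⟨c, κ, hc, hκ, h⟩ := D.blks_lower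
  obtain ⟨C1, h1⟩ := D.mert
  refine ⟨c, κ * Real.exp (-(C1 / 2)), hc, by positivity, fun Z J hZ hJ => ?_⟩
  have hZ0 : 0 ≤ Z := by linarith
  have h2 := h Z (Ico 0 J) hZ0
  have h3 : ∀ z, D.VV c Z 0 J z ^ 3 * ‖FF (D.pr Z) (xi 0) z‖ =
      ∏ j ∈ Ico 0 J, D.vv c Z j z ^ 3 * ‖FF (D.blk Z j) (xi 0) z‖ := by
    intro z
    have h4 := cker_FF D hZ0 hJ (Nat.zero_le J) (xi 0) z
    rw [pow_zero, div_one] at h4
    rw [prod_mul_distrib, h4, prod_pow]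
    rfl
  simp only [h3]
  refine le_trans ?_ h2
  rw [D.sum_blk hZ0 (Nat.zero_le J), D.pr_last hJ, sdiff_empty, pow_zero, div_one]
  have h5 := (abs_le.1 (h1 Z)).2
  have h6 : ly Z = Z := max_eq_right hZ
  rw [h6] at h5
  have h7 : ∑ p ∈ prs D.P Z, (2 : ℝ) / p = 2 * ∑ p ∈ D.pr Z, (1 : ℝ) / p := by
    rw [mul_sum]
    exact sum_congr rfl fun p _ => by ring
  have h8 : (√Z)⁻¹ = Real.exp (-(Real.log Z / 2)) := by
    rw [Real.exp_neg, ← Real.log_sqrt hZ0, Real.exp_log (Real.sqrt_pos.2 (by linarith))]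
  rw [div_eq_mul_inv, h8, mul_assoc, ← Real.exp_add]
  refine mul_le_mul_of_nonneg_left (Real.exp_le_exp.2 ?_) hκ.le
  linarith

end Pool.Agent.Lib.MP_bcfefa_nt
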