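import Pool.Agent.Lib.MP_bcfefa_nt.BEul

set_option autoImplicit false

noncomputable section

namespace Pool.Agent.Lib.MP_bcfefa_nt

open Complex Finset MeasureTheory Pool.Agent.Lib.MP_03e5d0_nt
open scoped Real ContDiff

/-! Expectations at one prime. -/

theorem cpp_log {u : ℂ} (hu : ‖u‖ ≤ 23 / 25) :
    |Real.log ‖1 - u‖ + u.re + (u ^ 2).re / 2| ≤ 5 * ‖u‖ ^ 3 := by
  have h1 : ‖-u‖ < 1 := by rw [norm_neg]; linarith
  have h := Complex.norm_log_sub_logTaylor_le 2 h1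
  have hT : Complex.logTaylor (2 + 1) (-u) = -u - u ^ 2 / 2 := by
    simp only [Complex.logTaylor, Finset.sum_range_succ, Finset.sum_range_zero]
    push_cast
    ring
  rw [hT, norm_neg] at h
  have h2 := (Complex.abs_re_le_norm _).trans h
  have h3 : (Complex.log (1 + -u) - (-u - u ^ 2 / 2)).re =
      Real.log ‖1 - u‖ + u.re + (u ^ 2).re / 2 := by
    rw [Complex.sub_re, Complex.log_re, ← sub_eq_add_neg, Complex.sub_re, Complex.neg_re,
      Complex.div_ofNat_re]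
    ring
  rw [h3] at h2
  refine h2.trans ?_
  have h4 : (1 - ‖u‖)⁻¹ ≤ 25 / 2 := by
    rw [inv_le_comm₀ (by linarith) (by norm_num)]
    linarith
  have h5 : 0 ≤ ‖u‖ ^ 3 := by positivity
  have h6 : ‖u‖ ^ 3 * (1 - ‖u‖)⁻¹ ≤ ‖u‖ ^ 3 * (25 / 2) := mul_le_mul_of_nonneg_left h4 h5
  push_cast
  norm_num
  linarith

theorem cpp_pos {u : ℂ} (hu : ‖u‖ ≤ 23 / 25) : 0 < ‖1 - u‖ := by
  have := norm_sub_norm_le (1 : ℂ) u
  rw [norm_one] at this
  linarith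

theorem norm_PK_sq_le : ∃ C : ℝ, 0 ≤ C ∧ ∀ ξ w : ℂ, ‖ξ‖ ≤ 23 / 25 → ‖w‖ = 1 →
    ‖PK ξ w‖ ^ 2 ≤ Real.exp (4 * ξ.re * w.re + 2 * (ξ ^ 2).re * ((w ^ 2).re - 1) + C * ‖ξ‖ ^ 3) := by
  refine ⟨32, by norm_num, fun ξ w hξ hw => ?_⟩
  have h0 : 0 ≤ ‖ξ‖ := norm_nonneg _
  have n1 : ‖ξ ^ 2‖ = ‖ξ‖ ^ 2 := norm_pow _ _
  have n2 : ‖ξ * w‖ = ‖ξ‖ := by rw [norm_mul, hw, mul_one]
  have n3 : ‖ξ * w⁻¹‖ = ‖ξ‖ := by rw [norm_mul, norm_inv, hw, inv_one, mul_one]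
  have b1 : ‖ξ ^ 2‖ ≤ 23 / 25 := by rw [n1]; nlinarith
  have b2 : ‖ξ * w‖ ≤ 23 / 25 := by rw [n2]; exact hξ
  have b3 : ‖ξ * w⁻¹‖ ≤ 23 / 25 := by rw [n3]; exact hξ
  have l1 := (abs_le.1 (cpp_log b1)).2
  have l2 := (abs_le.1 (cpp_log b2)).1
  have l3 := (abs_le.1 (cpp_log b3)).1
  have p1 := cpp_pos b1
  have p2 := cpp_pos b2
  have p3 := cpp_pos b3
  have hN : ‖PK ξ w‖ = Real.exp (Real.log ‖1 - ξ ^ 2‖ - Real.log ‖1 - ξ * w‖ -
      Real.log ‖1 - ξ * w⁻¹‖) := by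
    rw [Real.exp_sub, Real.exp_sub, Real.exp_log p1, Real.exp_log p2, Real.exp_log p3, PK, norm_div,
      norm_mul, div_div]
  rw [hN, ← Real.exp_nat_mul]
  apply Real.exp_le_exp.2
  rw [n2] at l2
  rw [n3] at l3
  rw [n1] at l1
  have hc : w⁻¹ = starRingEnd ℂ w := Complex.inv_eq_conj hw
  have e1 : (ξ * w).re + (ξ * w⁻¹).re = 2 * ξ.re * w.re := by
    rw [hc]; simp only [Complex.mul_re, Complex.conj_re, Complex.conj_im]; ring
  have e2 : ((ξ * w) ^ 2).re + ((ξ * w⁻¹) ^ 2).re = 2 * (ξ ^ 2).re * (w ^ 2).re := by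
    rw [hc]
    simp only [pow_two, Complex.mul_re, Complex.mul_im, Complex.conj_re, Complex.conj_im]; ring
  have e3 : -(((ξ ^ 2) ^ 2).re) ≤ ‖ξ‖ ^ 4 := by
    have := Complex.abs_re_le_norm ((ξ ^ 2) ^ 2)
    rw [norm_pow, n1] at this
    have h2 := (abs_le.1 this).1
    nlinarith
  have q1 : ‖ξ‖ ^ 4 ≤ ‖ξ‖ ^ 3 := pow_le_pow_of_le_one h0 (by linarith) (by norm_num)
  have q2 : (‖ξ‖ ^ 2) ^ 3 ≤ ‖ξ‖ ^ 3 := by
    rw [← pow_mul]; exact pow_le_pow_of_le_one h0 (by linarith) (by norm_num)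
  have q3 : 0 ≤ ‖ξ‖ ^ 3 := by positivity
  push_cast
  nlinarith

theorem cpp_exp_up (t : ℝ) : Real.exp t ≤ 1 + t + t ^ 2 / 2 + |t| ^ 3 * Real.exp |t| := by
  have h := Complex.norm_exp_sub_sum_le_norm_mul_exp (t : ℂ) 3
  have e : cexp t - ∑ m ∈ range 3, (t : ℂ) ^ m / (m.factorial : ℂ) =
      ((Real.exp t - (1 + t + t ^ 2 / 2) : ℝ) : ℂ) := by
    simp only [Finset.sum_range_succ, Finset.sum_range_zero, Nat.factorial]
    push_cast
    ring
  rw [e, Complex.norm_real, Complex.norm_real, Real.norm_eq_abs, Real.norm_eq_abs] at h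
  have := (abs_le.1 h).2
  linarith

theorem cpp_exp_low (t : ℝ) : 1 + t + t ^ 2 / 2 + t ^ 3 / 6 ≤ Real.exp t := by
  rcases le_total 0 t with h | h
  · have := Real.sum_le_exp_of_nonneg h 4
    simp only [Finset.sum_range_succ, Finset.sum_range_zero, Nat.factorial] at this
    norm_num at this
    linarith
  · have hd : ∀ s : ℝ, HasDerivAt (fun s : ℝ => (1 - s + s ^ 2 / 2 - s ^ 3 / 6) * Real.exp s)
        (-(s ^ 3 / 6) * Real.exp s) s := by
      intro s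
      have h1 : HasDerivAt (fun s : ℝ => 1 - s + s ^ 2 / 2 - s ^ 3 / 6) (-1 + s - s ^ 2 / 2) s := by
        have := ((((hasDerivAt_id' s).const_sub 1).fun_add ((hasDerivAt_pow 2 s).div_const 2)).fun_sub
          ((hasDerivAt_pow 3 s).div_const 6))
        refine this.congr_deriv ?_
        norm_num
        ring
      exact (h1.fun_mul (Real.hasDerivAt_exp s)).congr_deriv (by ring)
    have ha : AntitoneOn (fun s : ℝ => (1 - s + s ^ 2 / 2 - s ^ 3 / 6) * Real.exp s) (Set.Ici 0) := by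
      apply antitoneOn_of_deriv_nonpos (convex_Ici 0)
      · exact fun s _ => (hd s).continuousAt.continuousWithinAt
      · exact fun s _ => (hd s).differentiableAt.differentiableWithinAt
      · intro s hs
        rw [interior_Ici] at hs
        rw [(hd s).deriv]
        have : 0 < s := hs
        have := Real.exp_pos s
        have : 0 ≤ s ^ 3 / 6 * Real.exp s := by positivity
        linarith
    have h3 := ha (Set.self_mem_Ici) (show -t ∈ Set.Ici (0 : ℝ) from by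
      simp only [Set.mem_Ici]; linarith) (by linarith)
    simp only [Real.exp_zero] at h3
    have h4 : Real.exp (-t) * Real.exp t = 1 := by rw [← Real.exp_add]; simp
    have h5 := Real.exp_pos t
    have h6 : (1 - -t + (-t) ^ 2 / 2 - (-t) ^ 3 / 6) * Real.exp (-t) * Real.exp t ≤
        1 * Real.exp t := by
      apply mul_le_mul_of_nonneg_right _ h5.le
      simpa using h3
    rw [mul_assoc, h4] at h6
    linarith

theorem cpp_int_re (p : ℕ) {k : ℕ} (hk : k ≠ 0) : ∫ z, (co z p ^ k).re ∂mu = 0 := by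
  have h := int_ch (Finsupp.single p (k : ℤ))
  rw [if_neg (by simpa using hk)] at h
  simp only [ch_single, zpow_natCast] at h
  have hc : Continuous fun z : Tor => co z p ^ k := (continuous_co p).pow k
  have h2 := integral_re (𝕜 := ℂ) (ci hc)
  simp only [RCLike.re_to_complex] at h2
  rw [h2, h, Complex.zero_re]

theorem cpp_sq {w : ℂ} (hw : ‖w‖ = 1) : w.re ^ 2 + w.im ^ 2 = 1 := by
  have := Complex.sq_norm w
  rw [hw, Complex.normSq_apply] at this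
  linarith

theorem cpp_re2 {w : ℂ} (hw : ‖w‖ = 1) : w.re ^ 2 = (1 + (w ^ 2).re) / 2 := by
  have := cpp_sq hw
  rw [pow_two w, Complex.mul_re]
  linarith

theorem cpp_re3 {w : ℂ} (hw : ‖w‖ = 1) : w.re ^ 3 = (3 * w.re + (w ^ 3).re) / 4 := by
  have h := cpp_sq hw
  have e : (w ^ 3).re = w.re ^ 3 - 3 * w.re * w.im ^ 2 := by
    simp only [pow_succ, pow_zero, one_mul, Complex.mul_re, Complex.mul_im]; ring
  have h2 : w.im ^ 2 = 1 - w.re ^ 2 := by linarith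
  rw [e, h2]
  ring

theorem cpp_key {x a b u v : ℝ} (h0 : 0 ≤ x) (h1 : x ≤ 1) (ha : |a| ≤ 14 * x) (hb : |b| ≤ 4 * x ^ 2)
    (r1 : |u| ≤ 1) (r2 : |v| ≤ 1) (r3 : u ^ 2 = (1 + v) / 2) :
    Real.exp (a * u + b * v) ≤ (1 + a ^ 2 / 4 + (64 + 18 ^ 3 * Real.exp 18) * x ^ 3) + a * u +
      (b + a ^ 2 / 4) * v := by
  have x2 : x ^ 2 ≤ x := by nlinarith
  have t1 : |a * u| ≤ 14 * x := by
    rw [abs_mul]
    calc |a| * |u| ≤ |a| * 1 := mul_le_mul_of_nonneg_left r1 (abs_nonneg _)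
      _ ≤ 14 * x := by linarith
  have t2 : |b * v| ≤ 4 * x ^ 2 := by
    rw [abs_mul]
    calc |b| * |v| ≤ |b| * 1 := mul_le_mul_of_nonneg_left r2 (abs_nonneg _)
      _ ≤ 4 * x ^ 2 := by linarith
  have t3 : |a * u + b * v| ≤ 18 * x := (abs_add_le _ _).trans (by linarith)
  have t4 : |a * u + b * v| ^ 3 * Real.exp |a * u + b * v| ≤ (18 * x) ^ 3 * Real.exp 18 :=
    mul_le_mul (pow_le_pow_left₀ (abs_nonneg _) t3 3) (Real.exp_le_exp.2 (by linarith))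
      (Real.exp_pos _).le (by positivity)
  have t5 : (a * u) * (b * v) ≤ 56 * x ^ 3 := by
    calc (a * u) * (b * v) ≤ |(a * u) * (b * v)| := le_abs_self _
      _ = |a * u| * |b * v| := abs_mul _ _
      _ ≤ (14 * x) * (4 * x ^ 2) := mul_le_mul t1 t2 (abs_nonneg _) (by positivity)
      _ = 56 * x ^ 3 := by ring
  have t6 : (b * v) ^ 2 ≤ 16 * x ^ 3 := by
    have h4 : x ^ 4 ≤ x ^ 3 := pow_le_pow_of_le_one h0 h1 (by norm_num)
    calc (b * v) ^ 2 = |b * v| ^ 2 := (sq_abs _).symm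
      _ ≤ (4 * x ^ 2) ^ 2 := pow_le_pow_left₀ (abs_nonneg _) t2 2
      _ = 16 * x ^ 4 := by ring
      _ ≤ 16 * x ^ 3 := by linarith
  have t7 : (a * u) ^ 2 = a ^ 2 * ((1 + v) / 2) := by rw [mul_pow, r3]
  have t8 := cpp_exp_up (a * u + b * v)
  have t9 : (a * u + b * v) ^ 2 = (a * u) ^ 2 + 2 * ((a * u) * (b * v)) + (b * v) ^ 2 := by ring
  rw [t9, t7] at t8
  generalize Real.exp 18 = E at *
  have t10 : (1 + a ^ 2 / 4 + (64 + 18 ^ 3 * E) * x ^ 3) + a * u + (b + a ^ 2 / 4) * v =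
      1 + (a * u + b * v) + (a ^ 2 * ((1 + v) / 2) + 2 * (56 * x ^ 3) + 16 * x ^ 3) / 2 +
        (18 * x) ^ 3 * E := by ring
  rw [t10]
  linarith

theorem int_exp_le : ∃ C : ℝ, 0 ≤ C ∧ ∀ (p : ℕ) (x a b : ℝ), 0 ≤ x → x ≤ 1 → |a| ≤ 14 * x →
    |b| ≤ 4 * x ^ 2 → ∫ z, Real.exp (a * (co z p).re + b * (co z p ^ 2).re) ∂mu ≤
      Real.exp (a ^ 2 / 4 + C * x ^ 3) := by
  refine ⟨64 + 18 ^ 3 * Real.exp 18, by positivity, fun p x a b h0 h1 ha hb => ?_⟩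
  have c1 : Continuous fun z : Tor => (co z p).re := Complex.continuous_re.comp (continuous_co p)
  have c2 : Continuous fun z : Tor => (co z p ^ 2).re :=
    Complex.continuous_re.comp ((continuous_co p).pow 2)
  have key : ∀ z : Tor, Real.exp (a * (co z p).re + b * (co z p ^ 2).re) ≤
      (1 + a ^ 2 / 4 + (64 + 18 ^ 3 * Real.exp 18) * x ^ 3) + a * (co z p).re +
        (b + a ^ 2 / 4) * (co z p ^ 2).re := by
    intro z
    have hw := norm_co z p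
    have r1 : |(co z p).re| ≤ 1 := by rw [← hw]; exact Complex.abs_re_le_norm _
    have r2 : |(co z p ^ 2).re| ≤ 1 := by
      have := Complex.abs_re_le_norm (co z p ^ 2)
      rwa [norm_pow, hw, one_pow] at this
    exact cpp_key h0 h1 ha hb r1 r2 (cpp_re2 hw)
  generalize (64 : ℝ) + 18 ^ 3 * Real.exp 18 = C at *
  have c3 : Continuous fun z : Tor => a * (co z p).re := continuous_const.mul c1
  have c4 : Continuous fun z : Tor => (b + a ^ 2 / 4) * (co z p ^ 2).re := continuous_const.mul c2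
  have i1 := ci c3
  have i2 := ci c4
  have i0 : Integrable (fun _ : Tor => 1 + a ^ 2 / 4 + C * x ^ 3) mu := ci continuous_const
  have i3 : Integrable (fun z : Tor => (1 + a ^ 2 / 4 + C * x ^ 3) + a * (co z p).re) mu := i0.add i1
  have i4 : Integrable (fun z : Tor => (1 + a ^ 2 / 4 + C * x ^ 3) + a * (co z p).re +
      (b + a ^ 2 / 4) * (co z p ^ 2).re) mu := i3.add i2
  have m1 := integral_mono_of_nonneg (μ := mu)
    (f := fun z : Tor => Real.exp (a * (co z p).re + b * (co z p ^ 2).re))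
    (Filter.Eventually.of_forall fun z => (Real.exp_pos _).le) i4 (Filter.Eventually.of_forall key)
  have z1 := cpp_int_re p (k := 1) one_ne_zero
  simp only [pow_one] at z1
  rw [integral_add i3 i2, integral_add i0 i1, integral_const_mul, integral_const_mul, z1,
    cpp_int_re p two_ne_zero, integral_const] at m1
  simp only [probReal_univ, smul_eq_mul, one_mul, mul_zero, add_zero] at m1
  have := Real.add_one_le_exp (a ^ 2 / 4 + C * x ^ 3)
  linarith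

theorem cpp_x {p : ℕ} (hp : 0 < p) : 0 < 1 / √(p : ℝ) ∧ (1 / √(p : ℝ)) ^ 2 = 1 / p ∧
    (1 / √(p : ℝ)) ^ 3 = 1 / (p * √p) := by
  have h0 : (0 : ℝ) < p := by exact_mod_cast hp
  have h1 : 0 < √(p : ℝ) := Real.sqrt_pos.2 h0
  have h2 : √(p : ℝ) ^ 2 = p := Real.sq_sqrt h0.le
  refine ⟨by positivity, by rw [div_pow, h2, one_pow], ?_⟩
  rw [div_pow, one_pow, pow_succ, h2]

theorem cpp_half {p : ℕ} (hp : 2 ≤ p) : (1 / √(p : ℝ)) ^ 2 ≤ 1 / 2 := by
  rw [(cpp_x (p := p) (by omega)).2.1]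
  apply one_div_le_one_div_of_le (by norm_num)
  exact_mod_cast hp

theorem cpp_cont {ξ : ℂ} (hξ : ‖ξ‖ < 1) (p : ℕ) : Continuous fun z : Tor => PK ξ (co z p) := by
  have h := continuous_FF (S := {p}) (ξ := fun _ => ξ) (fun _ _ => hξ)
  have e : FF {p} (fun _ => ξ) = fun z : Tor => PK ξ (co z p) := by
    funext z; simp [FF]
  rwa [e] at h

theorem pp_upper : ∃ C : ℝ, 0 ≤ C ∧ ∀ (p : ℕ) (c : ℝ) (ξ : ℂ), 2 ≤ p → |c| ≤ 4 → ‖ξ‖ ≤ 13 / 10 / √p →
    ∫ z, Real.exp (c * (2 * (co z p).re / √p)) * ‖PK ξ (co z p)‖ ^ 2 ∂mu ≤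
      Real.exp (mq ξ (c / √p) + C / (p * √p)) := by
  obtain ⟨C₁, hC₁, h₁⟩ := norm_PK_sq_le
  obtain ⟨C₂, hC₂, h₂⟩ := int_exp_le
  refine ⟨C₂ + 3 * C₁, by positivity, fun p c ξ hp hc hξ => ?_⟩
  obtain ⟨x0, -, x3⟩ := cpp_x (p := p) (by omega)
  have xh := cpp_half hp
  have e1 : 13 / 10 / √(p : ℝ) = 13 / 10 * (1 / √(p : ℝ)) := by ring
  have e2 : c / √(p : ℝ) = c * (1 / √(p : ℝ)) := by ring
  have e3 : (C₂ + 3 * C₁) / (p * √p) = (C₂ + 3 * C₁) * (1 / √(p : ℝ)) ^ 3 := by rw [x3]; ring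
  have e4 : ∀ u : ℝ, c * (2 * u / √p) = 2 * c * (1 / √(p : ℝ)) * u := fun u => by ring
  simp only [e4]
  rw [e1] at hξ
  rw [e2, e3]
  generalize 1 / √(p : ℝ) = x at *
  have n0 := norm_nonneg ξ
  have x1 : x ≤ 92 / 130 := by nlinarith
  have hξ' : ‖ξ‖ ≤ 23 / 25 := by linarith
  have ha : |4 * ξ.re + 2 * c * x| ≤ 14 * x := by
    have r1 := abs_le.1 (Complex.abs_re_le_norm ξ)
    have r2 := abs_le.1 hc
    rw [abs_le]
    constructor <;> nlinarith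
  have hb : |2 * (ξ ^ 2).re| ≤ 4 * x ^ 2 := by
    have r1 := Complex.abs_re_le_norm (ξ ^ 2)
    rw [norm_pow] at r1
    have r2 : ‖ξ‖ ^ 2 ≤ (13 / 10 * x) ^ 2 := pow_le_pow_left₀ n0 hξ 2
    rw [abs_mul, abs_two]
    nlinarith
  have h3 := h₂ p x (4 * ξ.re + 2 * c * x) (2 * (ξ ^ 2).re) x0.le (by linarith) ha hb
  have c1 : Continuous fun z : Tor => (co z p).re := Complex.continuous_re.comp (continuous_co p)
  have c2 : Continuous fun z : Tor => (co z p ^ 2).re :=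
    Complex.continuous_re.comp ((continuous_co p).pow 2)
  have c3 : Continuous fun z : Tor => Real.exp (-2 * (ξ ^ 2).re + C₁ * ‖ξ‖ ^ 3) *
      Real.exp ((4 * ξ.re + 2 * c * x) * (co z p).re + 2 * (ξ ^ 2).re * (co z p ^ 2).re) :=
    continuous_const.mul (Real.continuous_exp.comp
      ((continuous_const.mul c1).add (continuous_const.mul c2)))
  have key : ∀ z : Tor, Real.exp (2 * c * x * (co z p).re) * ‖PK ξ (co z p)‖ ^ 2 ≤
      Real.exp (-2 * (ξ ^ 2).re + C₁ * ‖ξ‖ ^ 3) *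
      Real.exp ((4 * ξ.re + 2 * c * x) * (co z p).re + 2 * (ξ ^ 2).re * (co z p ^ 2).re) := by
    intro z
    refine (mul_le_mul_of_nonneg_left (h₁ ξ (co z p) hξ' (norm_co z p)) (Real.exp_pos _).le).trans ?_
    rw [← Real.exp_add, ← Real.exp_add]
    apply le_of_eq
    congr 1
    ring
  have m1 := integral_mono_of_nonneg (μ := mu)
    (f := fun z : Tor => Real.exp (2 * c * x * (co z p).re) * ‖PK ξ (co z p)‖ ^ 2)
    (Filter.Eventually.of_forall fun z => by positivity) (ci c3) (Filter.Eventually.of_forall key)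
  rw [integral_const_mul] at m1
  refine m1.trans ((mul_le_mul_of_nonneg_left h3 (Real.exp_pos _).le).trans ?_)
  rw [← Real.exp_add]
  apply Real.exp_le_exp.2
  have r3 : ‖ξ‖ ^ 3 ≤ 3 * x ^ 3 := by
    have r2 : ‖ξ‖ ^ 3 ≤ (13 / 10 * x) ^ 3 := pow_le_pow_left₀ n0 hξ 3
    have : 0 ≤ x ^ 3 := by positivity
    nlinarith
  have r4 := mul_le_mul_of_nonneg_left r3 hC₁
  unfold mq
  nlinarith

theorem cpp_int_PK {x : ℝ} (hx : |x| < 1) (p k : ℕ) :
    ∫ z, ‖PK x (co z p)‖ * (co z p ^ k).re ∂mu = x ^ k := by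
  have hx' : ‖(x : ℂ)‖ < 1 := by rwa [Complex.norm_real, Real.norm_eq_abs]
  have h := int_PK_zpow hx' p (k : ℤ)
  simp only [zpow_natCast, Int.natAbs_natCast] at h
  have hc : Continuous fun z : Tor => PK x (co z p) * co z p ^ k :=
    (cpp_cont hx' p).mul ((continuous_co p).pow k)
  have h2 := integral_re (𝕜 := ℂ) (ci hc)
  simp only [RCLike.re_to_complex] at h2
  rw [h, ← Complex.ofReal_pow, Complex.ofReal_re] at h2
  rw [← h2]
  congr 1
  funext z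
  rw [PK_real hx (norm_co z p), Complex.re_ofReal_mul, Complex.norm_real, norm_norm]

theorem pp_lower (p : ℕ) (hp : 2 ≤ p) : Real.exp (-(1 / p) - 3 / (p * √p)) ≤
    ∫ z, Real.exp (-(2 * (co z p).re / √p)) * ‖PK ((1 / √p : ℝ) : ℂ) (co z p)‖ ∂mu := by
  obtain ⟨x0, x2, x3⟩ := cpp_x (p := p) (by omega)
  have xh := cpp_half hp
  have e1 : (3 : ℝ) / (p * √p) = 3 * (1 / √(p : ℝ)) ^ 3 := by rw [x3]; ring
  have e4 : ∀ u : ℝ, -(2 * u / √p) = -2 * (1 / √(p : ℝ)) * u := fun u => by ring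
  simp only [e4]
  rw [e1, ← x2]
  generalize 1 / √(p : ℝ) = x at *
  have x1 : x < 1 := by nlinarith
  have hx : |x| < 1 := by rwa [abs_of_pos x0]
  have hx' : ‖(x : ℂ)‖ < 1 := by rwa [Complex.norm_real, Real.norm_eq_abs]
  have cK : Continuous fun z : Tor => ‖PK x (co z p)‖ := (cpp_cont hx' p).norm
  have ck : ∀ (a : ℝ) (k : ℕ), Continuous fun z : Tor => a * (‖PK x (co z p)‖ * (co z p ^ k).re) :=
    fun a k => continuous_const.mul (cK.mul (Complex.continuous_re.comp ((continuous_co p).pow k)))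
  have c1 : Continuous fun z : Tor => (co z p).re := Complex.continuous_re.comp (continuous_co p)
  have cE : Continuous fun z : Tor => Real.exp (-2 * x * (co z p).re) * ‖PK x (co z p)‖ :=
    (Real.continuous_exp.comp (continuous_const.mul c1)).mul cK
  have i0 := ci (ck (1 + x ^ 2) 0)
  have i1 := ci (ck (-2 * x - x ^ 3) 1)
  have i2 := ci (ck (x ^ 2) 2)
  have i3 := ci (ck (-x ^ 3 / 3) 3)
  have j1 : Integrable (fun z : Tor => (1 + x ^ 2) * (‖PK x (co z p)‖ * (co z p ^ 0).re) +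
      (-2 * x - x ^ 3) * (‖PK x (co z p)‖ * (co z p ^ 1).re)) mu := i0.add i1
  have j2 : Integrable (fun z : Tor => (1 + x ^ 2) * (‖PK x (co z p)‖ * (co z p ^ 0).re) +
      (-2 * x - x ^ 3) * (‖PK x (co z p)‖ * (co z p ^ 1).re) +
      x ^ 2 * (‖PK x (co z p)‖ * (co z p ^ 2).re)) mu := j1.add i2
  have j3 : Integrable (fun z : Tor => (1 + x ^ 2) * (‖PK x (co z p)‖ * (co z p ^ 0).re) +
      (-2 * x - x ^ 3) * (‖PK x (co z p)‖ * (co z p ^ 1).re) +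
      x ^ 2 * (‖PK x (co z p)‖ * (co z p ^ 2).re) +
      -x ^ 3 / 3 * (‖PK x (co z p)‖ * (co z p ^ 3).re)) mu := j2.add i3
  have key : ∀ z : Tor, (1 + x ^ 2) * (‖PK x (co z p)‖ * (co z p ^ 0).re) +
      (-2 * x - x ^ 3) * (‖PK x (co z p)‖ * (co z p ^ 1).re) +
      x ^ 2 * (‖PK x (co z p)‖ * (co z p ^ 2).re) +
      -x ^ 3 / 3 * (‖PK x (co z p)‖ * (co z p ^ 3).re) ≤
      Real.exp (-2 * x * (co z p).re) * ‖PK x (co z p)‖ := by
    intro z
    have r2 := cpp_re2 (norm_co z p)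
    have r3 := cpp_re3 (norm_co z p)
    have r4 := cpp_exp_low (-2 * x * (co z p).re)
    have r5 := mul_le_mul_of_nonneg_right r4 (norm_nonneg (PK x (co z p)))
    refine le_trans (le_of_eq ?_) r5
    rw [mul_pow, mul_pow _ _ 3, r2, r3, pow_zero, pow_one, Complex.one_re]
    ring
  have m1 := integral_mono j3 (ci cE) key
  rw [integral_add j2 i3, integral_add j1 i2, integral_add i0 i1, integral_const_mul,
    integral_const_mul, integral_const_mul, integral_const_mul, cpp_int_PK hx, cpp_int_PK hx,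
    cpp_int_PK hx, cpp_int_PK hx] at m1
  refine le_trans ?_ m1
  have e5 : (1 + x ^ 2) * x ^ 0 + (-2 * x - x ^ 3) * x ^ 1 + x ^ 2 * x ^ 2 + -x ^ 3 / 3 * x ^ 3 =
      1 - x ^ 2 - (x ^ 2) ^ 3 / 3 := by ring
  rw [e5]
  have q1 : (x ^ 2) ^ 2 ≤ x ^ 3 := by
    rw [← pow_mul]; exact pow_le_pow_of_le_one x0.le x1.le (by norm_num)
  have q2 : 1 + x ^ 2 + 3 * (x ^ 2) ^ 2 ≤ Real.exp (x ^ 2 + 3 * x ^ 3) := by
    have := Real.add_one_le_exp (x ^ 2 + 3 * x ^ 3)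
    linarith
  have s0 : 0 < x ^ 2 := by positivity
  have e6 : -x ^ 2 - 3 * x ^ 3 = -(x ^ 2 + 3 * x ^ 3) := by ring
  rw [e6, Real.exp_neg]
  generalize Real.exp (x ^ 2 + 3 * x ^ 3) = E at *
  generalize x ^ 2 = s at *
  have q3 : 0 < 1 + s + 3 * s ^ 2 := by positivity
  refine (inv_anti₀ q3 q2).trans ?_
  rw [inv_le_iff_one_le_mul₀ q3]
  have q4 : s ^ 2 ≤ 1 / 4 := by nlinarith
  have q5 : s ^ 3 ≤ 1 / 8 := by nlinarith
  have q6 : 0 ≤ 2 - 10 / 3 * s - s ^ 2 / 3 - s ^ 3 := by linarith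
  have q7 : (1 - s - s ^ 3 / 3) * (1 + s + 3 * s ^ 2) =
      1 + s ^ 2 * (2 - 10 / 3 * s - s ^ 2 / 3 - s ^ 3) := by ring
  rw [q7]
  have : 0 ≤ s ^ 2 * (2 - 10 / 3 * s - s ^ 2 / 3 - s ^ 3) := by positivity
  linarith

theorem abs_mq_le {p : ℕ} (hp : 0 < p) {c : ℝ} {ξ : ℂ} (hc : |c| ≤ 4) (hξ : ‖ξ‖ ≤ 13 / 10 / √p) :
    |mq ξ (c / √p)| ≤ 50 / p := by
  obtain ⟨x0, x2, -⟩ := cpp_x hp
  have e1 : 13 / 10 / √(p : ℝ) = 13 / 10 * (1 / √(p : ℝ)) := by ring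
  have e2 : c / √(p : ℝ) = c * (1 / √(p : ℝ)) := by ring
  have e3 : (50 : ℝ) / p = 50 * (1 / √(p : ℝ)) ^ 2 := by rw [x2]; ring
  rw [e1] at hξ
  rw [e2, e3]
  generalize 1 / √(p : ℝ) = x at *
  have n0 := norm_nonneg ξ
  have ha : |2 * ξ.re + c * x| ≤ 33 / 5 * x := by
    have r1 := abs_le.1 (Complex.abs_re_le_norm ξ)
    have r2 := abs_le.1 hc
    rw [abs_le]
    constructor <;> nlinarith
  have hb : |(ξ ^ 2).re| ≤ (13 / 10 * x) ^ 2 := by
    have r1 := Complex.abs_re_le_norm (ξ ^ 2)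
    rw [norm_pow] at r1
    exact r1.trans (pow_le_pow_left₀ n0 hξ 2)
  have h2 : (2 * ξ.re + c * x) ^ 2 ≤ (33 / 5 * x) ^ 2 := by
    rw [← sq_abs]; exact pow_le_pow_left₀ (abs_nonneg _) ha 2
  have h3 := abs_le.1 hb
  have h4 := sq_nonneg (2 * ξ.re + c * x)
  have h5 := sq_nonneg x
  unfold mq
  rw [abs_le]
  constructor <;> nlinarith

theorem mq_zero {p : ℕ} (hp : 0 < p) (c : ℝ) : mq 0 (c / √p) = c ^ 2 / p := by
  have h0 : (0 : ℝ) ≤ p := Nat.cast_nonneg p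
  simp [mq, div_pow, Real.sq_sqrt h0]

theorem cpp_exp4 : Real.exp (1 / 4) ≤ 13 / 10 := by
  have h1 : Real.exp (1 / 4) ^ 4 = Real.exp 1 := by rw [← Real.exp_nat_mul]; norm_num
  have h2 := Real.exp_one_lt_d9
  apply le_of_lt
  apply lt_of_pow_lt_pow_left₀ 4 (by norm_num)
  rw [h1]
  norm_num at h2 ⊢
  linarith

theorem norm_xi_le {p : ℕ} (hp : 0 < p) {α : ℂ} (h : -1 / 4 ≤ α.re * Real.log p) :
    ‖xi α p‖ ≤ 13 / 10 / √p := by
  rw [norm_xi hp]
  apply div_le_div_of_nonneg_right _ (Real.sqrt_nonneg _)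
  exact (Real.exp_le_exp.2 (by linarith)).trans cpp_exp4

theorem cpp_xi {p : ℕ} (hp : 0 < p) (α : ℂ) :
    xi α p = cexp (-(α * Real.log p)) * ((1 / √p : ℝ) : ℂ) := by
  have h0 : (p : ℂ) ≠ 0 := by exact_mod_cast hp.ne'
  rw [← xi_zero hp, xi, xi, show -(1 / 2 + α) = -α + -(1 / 2 + 0) by ring, Complex.cpow_add _ _ h0,
    Complex.cpow_def_of_ne_zero h0 (-α), Complex.natCast_log]
  congr 2
  ring

theorem mq_xi : ∃ C : ℝ, 0 ≤ C ∧ ∀ (p : ℕ) (c : ℝ) (α : ℂ), 0 < p → |c| ≤ 4 →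
    -1 / 4 ≤ α.re * Real.log p →
    mq (xi α p) (c / √p) ≤ ((2 + c) ^ 2 - 2) / p + C * (min 1 (‖α‖ * Real.log p) / p) := by
  refine ⟨138, by norm_num, fun p c α hp hc h => ?_⟩
  obtain ⟨x0, x2, -⟩ := cpp_x hp
  have hl : 0 ≤ Real.log p := Real.log_natCast_nonneg p
  obtain ⟨d, hd⟩ : ∃ d : ℂ, d = cexp (-(α * Real.log p)) - 1 := ⟨_, rfl⟩
  have d1 : ‖d‖ ≤ 3 := by
    have n1 : ‖cexp (-(α * Real.log p))‖ ≤ 13 / 10 := by
      rw [Complex.norm_exp, Complex.neg_re, Complex.re_mul_ofReal]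
      exact (Real.exp_le_exp.2 (by linarith)).trans cpp_exp4
    have := norm_sub_le (cexp (-(α * Real.log p))) 1
    rw [norm_one] at this
    rw [hd]
    linarith
  have d2 : ‖d‖ ≤ 3 * min 1 (‖α‖ * Real.log p) := by
    rcases le_total 1 (‖α‖ * Real.log p) with h1 | h1
    · rw [min_eq_left h1]; linarith
    · rw [min_eq_right h1]
      have n2 : ‖-(α * Real.log p)‖ = ‖α‖ * Real.log p := by
        rw [norm_neg, norm_mul, Complex.norm_real, Real.norm_eq_abs, abs_of_nonneg hl]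
      have := Complex.norm_exp_sub_one_le (x := -(α * Real.log p)) (by rw [n2]; exact h1)
      rw [n2] at this
      have h0 : 0 ≤ ‖α‖ * Real.log p := by positivity
      rw [hd]
      linarith
  have e0 : xi α p = (1 + d) * ((1 / √p : ℝ) : ℂ) := by rw [cpp_xi hp, hd]; ring
  have e2 : c / √(p : ℝ) = c * (1 / √(p : ℝ)) := by ring
  have e3 : ((2 + c) ^ 2 - 2) / p + 138 * (min 1 (‖α‖ * Real.log p) / p) =
      ((2 + c) ^ 2 - 2 + 138 * min 1 (‖α‖ * Real.log p)) * (1 / √(p : ℝ)) ^ 2 := by rw [x2]; ring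
  rw [e0, e2, e3]
  generalize 1 / √(p : ℝ) = x at *
  generalize min 1 (‖α‖ * Real.log p) = m at *
  have e4 : mq ((1 + d) * (x : ℂ)) (c * x) =
      ((2 + c) ^ 2 - 2 + ((4 + 4 * c) * d.re + 2 * d.re ^ 2 + 2 * d.im ^ 2)) * x ^ 2 := by
    unfold mq
    simp only [pow_two, Complex.mul_re, Complex.mul_im, Complex.add_re, Complex.add_im,
      Complex.one_re, Complex.one_im, Complex.ofReal_re, Complex.ofReal_im]
    ring
  rw [e4]
  apply mul_le_mul_of_nonneg_right _ (sq_nonneg x)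
  have n0 := norm_nonneg d
  have r1 : d.re ^ 2 + d.im ^ 2 = ‖d‖ ^ 2 := by
    rw [Complex.sq_norm, Complex.normSq_apply]; ring
  have r2 : (4 + 4 * c) * d.re ≤ 20 * ‖d‖ := by
    have r3 := abs_le.1 hc
    calc (4 + 4 * c) * d.re ≤ |(4 + 4 * c) * d.re| := le_abs_self _
      _ = |4 + 4 * c| * |d.re| := abs_mul _ _
      _ ≤ 20 * ‖d‖ := mul_le_mul (abs_le.2 ⟨by linarith, by linarith⟩) (Complex.abs_re_le_norm d)
          (abs_nonneg _) (by norm_num)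
  nlinarith

end Pool.Agent.Lib.MP_bcfefa_nt
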