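import Pool.Agent.Lib.MP_bcfefa_nt.CKer
import Pool.Agent.Lib.MP_bcfefa_nt.CGl
import Pool.Agent.Lib.MP_bcfefa_nt.BTP

set_option autoImplicit false

noncomputable section

namespace Pool.Agent.Lib.MP_bcfefa_nt

open Complex Finset MeasureTheory Pool.Agent.Lib.MP_03e5d0_nt
open scoped Real ContDiff

/-! Mollified second moments and the exceptional set. Compare `MPoly.lean`, `MSm2.lean` of
`Lib/MP_03e5d0_nt`. -/

theorem csm_single (D : Dat) {Λ : ℝ} {p : ℕ} (hp : p ∈ D.pr Λ) {k : ℤ} (hk : k.natAbs = 1) :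
    ch (Finsupp.single p k) ∈ D.TP (Real.exp Λ) := by
  have h1 := D.mem_pr.1 hp
  refine Dat.ch_mem (fun q hq => ?_) ?_
  · rw [mem_singleton.1 (Finsupp.support_single_subset hq)]
    exact h1.1
  · rw [Nm_single, hk, pow_one]
    exact (Real.log_le_iff_le_exp (by exact_mod_cast (D.prime p h1.1).pos)).1 h1.2

/-- `2 re w = w + w⁻¹`, `ch_single`. -/
theorem Dat.PS_mem (D : Dat) {Λ : ℝ} {S : Finset ℕ} (hS : S ⊆ D.pr Λ) :
    (fun z => (PS S z : ℂ)) ∈ D.TP (Real.exp Λ) := by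
  have e : (fun z => (PS S z : ℂ)) = ∑ p ∈ S, ((√p : ℝ) : ℂ)⁻¹ •
      (ch (Finsupp.single p 1) + ch (Finsupp.single p (-1))) := by
    funext z
    rw [PS, Finset.sum_apply, ofReal_sum]
    refine sum_congr rfl fun p _ => ?_
    rw [Pi.smul_apply, Pi.add_apply, ch_single, ch_single, zpow_one, zpow_neg_one, ← conj_co,
      Complex.add_conj, smul_eq_mul, ofReal_div, div_eq_inv_mul]
  rw [e]
  exact Submodule.sum_mem _ fun p hp => Submodule.smul_mem _ _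
    (Submodule.add_mem _ (csm_single D (hS hp) rfl) (csm_single D (hS hp) rfl))

theorem Dat.vv_mem (D : Dat) (c : ℕ) {Z : ℝ} (hZ : 0 ≤ Z) (j : ℕ) :
    (fun z => (D.vv c Z j z : ℂ)) ∈ D.TP (Real.exp (2 * c * (1 + j) * (Z / 2 ^ j))) := by
  have e : (fun z => (D.vv c Z j z : ℂ)) = ∑ i ∈ range (2 * c * (1 + j) + 1),
      ((-1 / 3 : ℂ) ^ i / i.factorial) • fun z => (PS (D.blk Z j) z : ℂ) ^ i := by
    funext z
    rw [Dat.vv, texp, Finset.sum_apply, ofReal_sum]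
    refine sum_congr rfl fun i _ => ?_
    rw [Pi.smul_apply, smul_eq_mul, div_mul_eq_mul_div, ← mul_pow]
    push_cast
    congr 2
    ring
  rw [e]
  refine Submodule.sum_mem _ fun i hi => Submodule.smul_mem _ _
    (D.TP_mono ?_ (Dat.pow_mem (D.PS_mem (D.blk_sub j)) i))
  rw [← Real.exp_nat_mul, Real.exp_le_exp]
  refine mul_le_mul_of_nonneg_right ?_ (by positivity)
  exact_mod_cast Nat.lt_succ_iff.1 (mem_range.1 hi)

theorem csm_VV (D : Dat) (c : ℕ) {Z : ℝ} (hZ : 0 ≤ Z) (a b e : ℕ) :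
    (fun z => ((D.VV c Z a b z ^ e : ℝ) : ℂ)) ∈
      D.TP (Real.exp (2 * c * e * Z * ∑ j ∈ Ico a b, (1 + j : ℝ) / 2 ^ j)) := by
  have h := Dat.pow_mem (Dat.prod_mem (Ico a b) fun j _ => D.vv_mem c hZ j) e
  rw [← Real.exp_sum, ← Real.exp_nat_mul] at h
  have e1 : 2 * (c : ℝ) * e * Z * ∑ j ∈ Ico a b, (1 + j : ℝ) / 2 ^ j =
      e * ∑ j ∈ Ico a b, 2 * (c : ℝ) * (1 + j) * (Z / 2 ^ j) := by
    rw [mul_sum, mul_sum]
    exact sum_congr rfl fun j _ => by ring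
  rw [e1]
  simpa only [Dat.VV, ofReal_pow, ofReal_prod] using h

/-- `prod_mem`, `mpoly_geom`. -/
theorem Dat.VV_mem (D : Dat) (c : ℕ) {Z : ℝ} (hZ : 0 ≤ Z) (a b e : ℕ) :
    (fun z => ((D.VV c Z a b z ^ e : ℝ) : ℂ)) ∈
      D.TP (Real.exp (8 * c * e * (1 + a) * (Z / 2 ^ a))) := by
  refine D.TP_mono (Real.exp_le_exp.2 ?_) (csm_VV D c hZ a b e)
  exact (mul_le_mul_of_nonneg_left (mpoly_geom a b) (by positivity)).trans_eq (by ring)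

/-- `VV a b ^ 4 * VV b J ^ 3` is a product over `Ico a J` of powers of `vv` with exponents at most four. -/
theorem Dat.VV2_mem (D : Dat) (c : ℕ) {Z : ℝ} (hZ : 0 ≤ Z) {a b J : ℕ} (hab : a ≤ b) (hbJ : b ≤ J) :
    (fun z => ((D.VV c Z a b z ^ 4 * D.VV c Z b J z ^ 3 : ℝ) : ℂ)) ∈
      D.TP (Real.exp (32 * c * (1 + a) * (Z / 2 ^ a))) := by
  have h := Dat.mul_mem (csm_VV D c hZ a b 4) (csm_VV D c hZ b J 3)
  simp only [← ofReal_mul] at h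
  refine D.TP_mono ?_ h
  rw [← Real.exp_add, Real.exp_le_exp]
  have h1 := mpoly_geom a J
  rw [← sum_Ico_consecutive _ hab hbJ] at h1
  have h2 : 0 ≤ ∑ j ∈ Ico b J, (1 + j : ℝ) / 2 ^ j := sum_nonneg fun j _ => by positivity
  have h3 : (0 : ℝ) ≤ c * Z := by positivity
  have h4 := mul_le_mul_of_nonneg_left h1 h3
  have h5 := mul_nonneg h3 h2
  have h6 : 32 * (c : ℝ) * (1 + a) * (Z / 2 ^ a) = 8 * (c * Z * (4 * (1 + a) / 2 ^ a)) := by ring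
  rw [h6]
  push_cast
  nlinarith

theorem Dat.pc_mem (D : Dat) {j : ℕ} {B U Y : ℝ} {Θ : ℝ → ℂ} (h : Sm j 1 4 B Θ) (hU : 0 < U)
    (hY : 0 < Y) : D.pc Y U Θ ∈ D.TP (Y * Real.exp (-U)) := by
  refine Dat.sum_ch_mem (D.E Y)
    (fun e => Θ ((Real.log Y - Real.log (Nm e)) / U) / (√(Nm e) : ℝ)) fun e he hd => ?_
  have h1 := (D.mem_E.1 he).1
  refine ⟨h1, ?_⟩
  have h2 : 1 ≤ (Real.log Y - Real.log (Nm e)) / U := by
    by_contra h3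
    exact hd (by rw [h.supp _ (Or.inl (not_le.1 h3)), zero_div])
  rw [le_div_iff₀ hU] at h2
  have h3 : (0 : ℝ) < Nm e := by exact_mod_cast h1.pm.one_le
  rw [← Real.exp_log hY, ← Real.exp_add, ← Real.log_le_iff_le_exp h3]
  linarith

/-- `t2` for `VV a b ^ 4 * VV b J ^ 3 * pc` (if `a = J` the first two factors are one), `diag` with
`Λ = Z / 2 ^ a`, `ker2`. -/
theorem Dat.sm2 (D : Dat) (c : ℕ) (hc : 1 ≤ c) : ∃ (j : ℕ) (C : ℝ), 0 ≤ C ∧ ∀ (N : ℕ) (Z U B : ℝ)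
    (a b J : ℕ) (Θ : ℝ → ℂ), 1 ≤ N → 0 ≤ Z → Z ≤ Real.log N → 2 * Z ≤ 2 ^ J → a ≤ b → b ≤ J →
    (32 * c * (1 + a) * (Z / 2 ^ a) ≤ U ∨ a = J) → 4 * ly (Z / 2 ^ a) ≤ U → Sm j 1 4 B Θ →
    ∑ n ∈ Ico N (2 * N), D.VV c Z a b (D.z n) ^ 8 * D.VV c Z b J (D.z n) ^ 6 *
        ‖D.pc N U Θ (D.z n)‖ ^ 2 ≤
      C * N * B ^ 2 * U * (2 : ℝ) ^ (2 * ((b : ℝ) - a) / 9) / ly (Z / 2 ^ a) ^ 2 := by
  have _ := hc
  obtain ⟨C₀, hC₀, H₀⟩ := D.t2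
  obtain ⟨k, C₁, hC₁, H₁⟩ := D.ker2
  obtain ⟨j, C₂, hC₂, H₂⟩ := D.diag k
  refine ⟨j, C₀ * C₂ * C₁, by positivity,
    fun N Z U B a b J Θ hN hZ hZN hJ hab hbJ hU hly hΘ => ?_⟩
  have hl := one_le_ly (Z / 2 ^ a)
  have hU0 : 0 < U := by linarith
  have hN1 : (1 : ℝ) ≤ N := by exact_mod_cast hN
  have hpc := D.pc_mem hΘ hU0 (show (0 : ℝ) < N by linarith)
  have hf : (fun z => ((D.VV c Z a b z ^ 4 * D.VV c Z b J z ^ 3 : ℝ) : ℂ) * D.pc N U Θ z) ∈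
      D.TP N := by
    rcases hU with hU | rfl
    · refine D.TP_mono ?_ (Dat.mul_mem (D.VV2_mem c hZ hab hbJ) hpc)
      rw [mul_left_comm, ← Real.exp_add]
      exact mul_le_of_le_one_right (by linarith) (Real.exp_le_one_iff.2 (by linarith))
    · obtain rfl : a = b := le_antisymm hab hbJ
      simp only [D.VV_self, one_pow, mul_one, ofReal_one, one_mul]
      exact D.TP_mono (mul_le_of_le_one_right (by linarith)
        (Real.exp_le_one_iff.2 (by linarith))) hpc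
  have h1 := H₀ N _ hN hf
  have e : ∀ z, ‖((D.VV c Z a b z ^ 4 * D.VV c Z b J z ^ 3 : ℝ) : ℂ) * D.pc N U Θ z‖ ^ 2 =
      D.VV c Z a b z ^ 8 * D.VV c Z b J z ^ 6 * ‖D.pc N U Θ z‖ ^ 2 := fun z => by
    rw [norm_mul, mul_pow, Complex.norm_real, Real.norm_eq_abs, sq_abs]
    ring
  simp only [e] at h1
  have hZa : Z / 2 ^ a ≤ Z := div_le_self hZ (one_le_pow₀ one_le_two)
  have hsub : (D.pr (Z / 2 ^ b) : Set ℕ) ⊆ D.pr (Z / 2 ^ a) := coe_subset.2 (D.pr_mono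
    (div_le_div_of_nonneg_left hZ (by positivity) (pow_le_pow_right₀ one_le_two hab)))
  have h2 := H₂ (fun z => D.VV c Z a b z ^ 8 * D.VV c Z b J z ^ 6)
    (C₁ * (2 : ℝ) ^ (2 * ((b : ℝ) - a) / 9) / ly (Z / 2 ^ a)) (Z / 2 ^ a) B U N Θ
    (((D.continuous_VV c Z a b).pow 8).mul ((D.continuous_VV c Z b J).pow 6))
    (fun z => by positivity)
    (fun z z' hz => by
      simp only [D.dep_VV c hZ a b z z' hz, (D.dep_VV c hZ b J).mono hsub z z' hz])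
    (by positivity) hly hN1 (hZa.trans hZN) hΘ
    fun α hα => H₁ c Z a b J α hc hZ hJ hab hbJ hα
  refine h1.trans ((mul_le_mul_of_nonneg_left h2 (by positivity)).trans_eq ?_)
  field_simp

theorem Dat.not_good {D : Dat} {c : ℕ} {Z : ℝ} {J i₀ : ℕ} {z : Tor} (h : ¬D.Good c Z J i₀ z) :
    1 ≤ ∑ j ∈ range (J + 1), (2 : ℝ) ^ (-(7 * i₀ + 3 * j : ℝ) / 12) * D.VV c Z 0 j z ^ 2 := by
  unfold Dat.Good at h
  push Not at h
  obtain ⟨j, hj, h⟩ := h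
  refine le_trans ?_ (single_le_sum (f := fun j : ℕ => (2 : ℝ) ^ (-(7 * i₀ + 3 * j : ℝ) / 12) *
    D.VV c Z 0 j z ^ 2) (fun _ _ => by positivity) (mem_range.2 (Nat.lt_succ_of_le hj)))
  set s : ℝ := 7 * i₀ + 3 * j with hs
  have h1 : ((2 : ℝ) ^ (s / 24)) ^ 3 = bar i₀ j := by
    rw [← Real.rpow_natCast, ← Real.rpow_mul zero_le_two, bar]
    congr 1
    push_cast
    ring
  have h2 : (2 : ℝ) ^ (s / 24) ≤ D.VV c Z 0 j z :=
    (lt_of_pow_lt_pow_left₀ 3 (D.VV_pos c Z 0 j z).le (h1 ▸ h)).le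
  have h3 : (2 : ℝ) ^ (-s / 12) * ((2 : ℝ) ^ (s / 24)) ^ 2 = 1 := by
    rw [← Real.rpow_natCast, ← Real.rpow_mul zero_le_two, ← Real.rpow_add zero_lt_two]
    rw [show -s / 12 + s / 24 * ((2 : ℕ) : ℝ) = 0 by push_cast; ring, Real.rpow_zero]
  rw [← h3]
  gcongr

open Classical in
/-- The bad indices. -/
def Dat.bad (D : Dat) (c N : ℕ) (Z : ℝ) (J i₀ : ℕ) : Finset ℕ :=
  (Ico N (2 * N)).filter fun n => ¬D.Good c Z J i₀ (D.z n)

/-- `not_good`, `t2` for `VV 0 j` (`VV_mem` with `e = 1`), `ker0`, `sum_geom36`. -/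
theorem Dat.bad_card (D : Dat) (c : ℕ) (hc : 1 ≤ c) : ∃ C : ℝ, 0 ≤ C ∧ ∀ (N : ℕ) (Z : ℝ) (J i₀ : ℕ),
    1 ≤ N → 0 ≤ Z → 8 * c * Z ≤ Real.log N →
    ((D.bad c N Z J i₀).card : ℝ) ≤ C * N * (2 : ℝ) ^ (-(7 * i₀ : ℝ) / 12) := by
  obtain ⟨C₁, hC₁, H₁⟩ := D.t2
  obtain ⟨C₀, hC₀, H₀⟩ := D.ker0
  obtain ⟨C₂, hC₂, H₂⟩ := sum_geom36
  refine ⟨C₁ * C₀ * C₂, by positivity, fun N Z J i₀ hN hZ hAZ => ?_⟩
  have hN0 : (0 : ℝ) < N := by exact_mod_cast hN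
  have key : ∀ j : ℕ, ∑ n ∈ Ico N (2 * N), D.VV c Z 0 j (D.z n) ^ 2 ≤
      C₁ * C₀ * N * (2 : ℝ) ^ (2 * (j : ℝ) / 9) := fun j => by
    have hP := D.TP_mono (Y' := N) (by
      rw [← Real.le_log_iff_exp_le hN0]
      refine le_trans (le_of_eq ?_) hAZ
      simp) (D.VV_mem c hZ 0 j 1)
    have h1 := H₁ N _ hN hP
    simp only [Complex.norm_real, Real.norm_eq_abs, sq_abs, pow_one] at h1
    refine h1.trans ((mul_le_mul_of_nonneg_left (H₀ c Z j hc hZ) (by positivity)).trans_eq ?_)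
    ring
  classical
  calc _ = ∑ n ∈ D.bad c N Z J i₀, (1 : ℝ) := by simp
    _ ≤ ∑ n ∈ D.bad c N Z J i₀, ∑ j ∈ range (J + 1),
        (2 : ℝ) ^ (-(7 * i₀ + 3 * j : ℝ) / 12) * D.VV c Z 0 j (D.z n) ^ 2 :=
      sum_le_sum fun n hn => Dat.not_good (mem_filter.1 hn).2
    _ ≤ ∑ n ∈ Ico N (2 * N), ∑ j ∈ range (J + 1),
        (2 : ℝ) ^ (-(7 * i₀ + 3 * j : ℝ) / 12) * D.VV c Z 0 j (D.z n) ^ 2 :=
      sum_le_sum_of_subset_of_nonneg (filter_subset _ _) fun _ _ _ => by positivity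
    _ ≤ ∑ j ∈ range (J + 1), C₁ * C₀ * N *
        ((2 : ℝ) ^ (-(7 * i₀ + 3 * j : ℝ) / 12) * (2 : ℝ) ^ (2 * (j : ℝ) / 9)) := by
      rw [sum_comm]
      refine sum_le_sum fun j _ => ?_
      rw [← mul_sum, mul_left_comm]
      exact mul_le_mul_of_nonneg_left (key j) (by positivity)
    _ ≤ C₁ * C₀ * N * (C₂ * (2 : ℝ) ^ (-(7 * i₀ : ℝ) / 12)) := by
      rw [← mul_sum]
      exact mul_le_mul_of_nonneg_left (H₂ i₀ _) (by positivity)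
    _ = _ := by ring

end Pool.Agent.Lib.MP_bcfefa_nt
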