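import Pool.Agent.Lib.MP_bcfefa_nt.Def

set_option autoImplicit false

noncomputable section

namespace Pool.Agent.Lib.MP_bcfefa_nt

open Complex Finset MeasureTheory Pool.Agent.Lib.MP_03e5d0_nt
open scoped Real ContDiff

/-! The weight of the central derivative. Moments of the Gamma distribution:
`Real.Gamma_eq_integral`, `Real.GammaIntegral_convergent`, `Real.Gamma_nat_eq_factorial`. -/

theorem vw_moment (k : ℕ) : IntegrableOn (fun y : ℝ => Real.exp (-y) * y ^ k) (Set.Ioi 0) ∧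
    ∫ y in Set.Ioi (0 : ℝ), Real.exp (-y) * y ^ k = k.factorial := by
  have hk : (0 : ℝ) < (k : ℝ) + 1 := by positivity
  have e : (fun y : ℝ => Real.exp (-y) * y ^ k) =
      fun y : ℝ => Real.exp (-y) * y ^ ((k : ℝ) + 1 - 1) := by
    funext y; rw [add_sub_cancel_right, Real.rpow_natCast]
  rw [e]
  refine ⟨Real.GammaIntegral_convergent hk, ?_⟩
  rw [← Real.Gamma_eq_integral hk, Real.Gamma_nat_eq_factorial]

theorem cvw_posLog_le {t : ℝ} (ht : 0 ≤ t) : Real.posLog t ≤ t :=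
  max_le ht (Real.log_le_self ht)

theorem cvw_posLog_le_sq {t : ℝ} (ht : 0 ≤ t) : Real.posLog t ≤ t ^ 2 := by
  refine max_le (sq_nonneg t) ?_
  rcases le_total t 1 with h | h
  · exact (Real.log_nonpos ht h).trans (sq_nonneg t)
  · have := Real.log_le_self ht
    nlinarith

theorem cvw_log_le_posLog (t : ℝ) : Real.log t ≤ Real.posLog t := le_max_right _ _

theorem cvw_posLog_of_le {t : ℝ} (ht : 0 ≤ t) (h : t ≤ 1) : Real.posLog t = 0 :=
  max_eq_left (Real.log_nonpos ht h)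

theorem cvw_posLog_of_ge {t : ℝ} (h : 1 ≤ t) : Real.posLog t = Real.log t :=
  max_eq_right (Real.log_nonneg h)

theorem cvw_posLog_meas : Measurable Real.posLog :=
  measurable_const.max Real.measurable_log

/-- `posLog t ≤ t` for `t ≥ 0`. -/
theorem vw_int (k : ℕ) {x : ℝ} (hx : 0 < x) :
    IntegrableOn (fun y : ℝ => Real.exp (-y) * y ^ k * Real.posLog (y / x)) (Set.Ioi 0) := by
  refine Integrable.mono' (((vw_moment (k + 1)).1).div_const x) ?_ ?_
  · refine Measurable.aestronglyMeasurable ?_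
    exact ((Real.measurable_exp.comp measurable_neg).mul (measurable_id.pow_const k)).mul
      (cvw_posLog_meas.comp (measurable_id.div_const x))
  · refine (ae_restrict_iff' measurableSet_Ioi).2 (Filter.Eventually.of_forall fun y hy => ?_)
    have hy : 0 < y := hy
    have h0 : 0 ≤ Real.exp (-y) * y ^ k := by positivity
    rw [Real.norm_of_nonneg (mul_nonneg h0 Real.posLog_nonneg)]
    calc Real.exp (-y) * y ^ k * Real.posLog (y / x) ≤ Real.exp (-y) * y ^ k * (y / x) :=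
          mul_le_mul_of_nonneg_left (cvw_posLog_le (by positivity)) h0
      _ = Real.exp (-y) * y ^ (k + 1) / x := by ring

theorem Vw_nonneg (j : ℕ) (x : ℝ) : 0 ≤ Vw j x := by
  refine div_nonneg (setIntegral_nonneg measurableSet_Ioi fun y hy => ?_)
    (Real.Gamma_nonneg_of_nonneg (Nat.cast_nonneg j))
  have hy : 0 < y := hy
  exact mul_nonneg (by positivity) Real.posLog_nonneg

theorem cvw_Vw_succ (i : ℕ) (x : ℝ) : Vw (i + 1) x =
    (∫ y in Set.Ioi (0 : ℝ), Real.exp (-y) * y ^ i * Real.posLog (y / x)) / i.factorial := by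
  rw [Vw, Nat.add_sub_cancel, Nat.cast_succ, Real.Gamma_nat_eq_factorial]

theorem cvw_fact_two (i : ℕ) : ((i + 2).factorial : ℝ) = i.factorial * ((i + 1) * (i + 1 + 1)) := by
  rw [Nat.factorial_succ (i + 1), Nat.factorial_succ i]; push_cast; ring

/-- `posLog t ≤ t ^ 2` for `t ≥ 0`. -/
theorem Vw_le {j : ℕ} (hj : 1 ≤ j) {x : ℝ} (hx : 0 < x) : Vw j x ≤ j * (j + 1) / x ^ 2 := by
  obtain ⟨i, rfl⟩ : ∃ i, j = i + 1 := ⟨j - 1, by omega⟩
  have hf : (0 : ℝ) < i.factorial := by exact_mod_cast i.factorial_pos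
  rw [cvw_Vw_succ, div_le_iff₀ hf]
  calc ∫ y in Set.Ioi (0 : ℝ), Real.exp (-y) * y ^ i * Real.posLog (y / x)
      ≤ ∫ y in Set.Ioi (0 : ℝ), Real.exp (-y) * y ^ (i + 2) / x ^ 2 := by
        refine setIntegral_mono_on (vw_int i hx) (((vw_moment (i + 2)).1).div_const _)
          measurableSet_Ioi fun y hy => ?_
        have hy : 0 < y := hy
        have h0 : 0 ≤ Real.exp (-y) * y ^ i := by positivity
        calc Real.exp (-y) * y ^ i * Real.posLog (y / x) ≤ Real.exp (-y) * y ^ i * (y / x) ^ 2 :=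
              mul_le_mul_of_nonneg_left (cvw_posLog_le_sq (by positivity)) h0
          _ = Real.exp (-y) * y ^ (i + 2) / x ^ 2 := by ring
    _ = _ := by
        rw [integral_div, (vw_moment (i + 2)).2, cvw_fact_two]; push_cast; ring

theorem cvw_log_split {x x' y : ℝ} (hx : 0 < x) (hx' : 0 < x') (hy : 0 < y) :
    Real.log (y / x) - Real.log (y / x') = Real.log (x' / x) := by
  rw [Real.log_div hy.ne' hx.ne', Real.log_div hy.ne' hx'.ne', Real.log_div hx'.ne' hx.ne']; ring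

theorem cvw_d_nonneg {x x' y : ℝ} (hx : 0 < x) (h : x ≤ x') (hy : 0 < y) :
    0 ≤ Real.posLog (y / x) - Real.posLog (y / x') := by
  have hx' : 0 < x' := hx.trans_le h
  refine sub_nonneg.2 (max_le_max le_rfl (Real.log_le_log (by positivity) ?_))
  exact div_le_div_of_nonneg_left hy.le hx h

theorem cvw_d_le {x x' y : ℝ} (hx : 0 < x) (h : x ≤ x') (hy : 0 < y) {c : ℝ} (hc0 : 0 ≤ c)
    (hc : x < y → 1 ≤ c) :
    Real.posLog (y / x) - Real.posLog (y / x') ≤ Real.log (x' / x) * c := by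
  have hx' : 0 < x' := hx.trans_le h
  have hL : 0 ≤ Real.log (x' / x) := Real.log_nonneg ((one_le_div hx).2 h)
  rcases le_or_gt y x with h1 | h1
  · rw [cvw_posLog_of_le (by positivity) ((div_le_one hx).2 h1)]
    have := @Real.posLog_nonneg (y / x')
    have := mul_nonneg hL hc0
    linarith
  · rw [cvw_posLog_of_ge ((one_le_div hx).2 h1.le)]
    have h2 := cvw_log_le_posLog (y / x')
    have h3 := cvw_log_split hx hx' hy
    have h4 := mul_le_mul_of_nonneg_left (hc h1) hL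
    linarith

theorem cvw_e_le {x x' y : ℝ} (hx : 0 < x) (h : x ≤ x') (hy : 0 < y) :
    Real.log (x' / x) - (Real.posLog (y / x) - Real.posLog (y / x')) ≤
      Real.log (x' / x) * (x' / y) := by
  have hx' : 0 < x' := hx.trans_le h
  have hL : 0 ≤ Real.log (x' / x) := Real.log_nonneg ((one_le_div hx).2 h)
  rcases le_total x' y with h1 | h1
  · rw [cvw_posLog_of_ge ((one_le_div hx').2 h1)]
    have h2 := cvw_log_le_posLog (y / x)
    have h3 := cvw_log_split hx hx' hy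
    have h4 : 0 ≤ Real.log (x' / x) * (x' / y) := by positivity
    linarith
  · have h2 := cvw_d_nonneg hx h hy
    have h4 := mul_le_mul_of_nonneg_left ((one_le_div hy).2 h1) hL
    linarith

theorem cvw_sub (i : ℕ) {x x' : ℝ} (hx : 0 < x) (hx' : 0 < x') : Vw (i + 1) x - Vw (i + 1) x' =
    (∫ y in Set.Ioi (0 : ℝ), Real.exp (-y) * y ^ i *
      (Real.posLog (y / x) - Real.posLog (y / x'))) / i.factorial := by
  rw [cvw_Vw_succ, cvw_Vw_succ, ← sub_div, ← integral_sub (vw_int i hx) (vw_int i hx')]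
  simp only [mul_sub]

theorem cvw_d_int (i : ℕ) {x x' : ℝ} (hx : 0 < x) (hx' : 0 < x') :
    IntegrableOn (fun y : ℝ => Real.exp (-y) * y ^ i *
      (Real.posLog (y / x) - Real.posLog (y / x'))) (Set.Ioi 0) := by
  simp only [mul_sub]
  exact (vw_int i hx).sub (vw_int i hx')

/-- `0 ≤ posLog (y / x) - posLog (y / x') ≤ log (x' / x) (y / x) ^ 2`: it vanishes for `y ≤ x`. -/
theorem Vw_sub_le {j : ℕ} (hj : 1 ≤ j) {x x' : ℝ} (hx : 0 < x) (h : x ≤ x') :
    0 ≤ Vw j x - Vw j x' ∧ Vw j x - Vw j x' ≤ Real.log (x' / x) * (j * (j + 1) / x ^ 2) := by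
  obtain ⟨i, rfl⟩ : ∃ i, j = i + 1 := ⟨j - 1, by omega⟩
  have hf : (0 : ℝ) < i.factorial := by exact_mod_cast i.factorial_pos
  have hx' : 0 < x' := hx.trans_le h
  rw [cvw_sub i hx hx']
  refine ⟨div_nonneg (setIntegral_nonneg measurableSet_Ioi fun y hy => ?_) hf.le, ?_⟩
  · have hy : 0 < y := hy
    exact mul_nonneg (by positivity) (cvw_d_nonneg hx h hy)
  rw [div_le_iff₀ hf]
  calc ∫ y in Set.Ioi (0 : ℝ), Real.exp (-y) * y ^ i * (Real.posLog (y / x) - Real.posLog (y / x'))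
      ≤ ∫ y in Set.Ioi (0 : ℝ), Real.exp (-y) * y ^ (i + 2) * (Real.log (x' / x) / x ^ 2) := by
        refine setIntegral_mono_on (cvw_d_int i hx hx') (((vw_moment (i + 2)).1).mul_const _)
          measurableSet_Ioi fun y hy => ?_
        have hy : 0 < y := hy
        have h0 : 0 ≤ Real.exp (-y) * y ^ i := by positivity
        calc Real.exp (-y) * y ^ i * (Real.posLog (y / x) - Real.posLog (y / x'))
            ≤ Real.exp (-y) * y ^ i * (Real.log (x' / x) * (y / x) ^ 2) :=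
              mul_le_mul_of_nonneg_left (cvw_d_le hx h hy (by positivity) fun h1 =>
                one_le_pow₀ ((one_le_div hx).2 h1.le)) h0
          _ = Real.exp (-y) * y ^ (i + 2) * (Real.log (x' / x) / x ^ 2) := by ring
    _ = _ := by
        rw [integral_mul_const, (vw_moment (i + 2)).2, cvw_fact_two]; push_cast; ring

/-- `0 ≤ log (x' / x) - (posLog (y / x) - posLog (y / x')) ≤ log (x' / x) x' / y`: it vanishes for
`y ≥ x'`. -/
theorem log_sub_Vw {j : ℕ} (hj : 2 ≤ j) {x x' : ℝ} (hx : 0 < x) (h : x ≤ x') :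
    0 ≤ Real.log (x' / x) - (Vw j x - Vw j x') ∧
      Real.log (x' / x) - (Vw j x - Vw j x') ≤ Real.log (x' / x) * (x' / (j - 1)) := by
  obtain ⟨i, rfl⟩ : ∃ i, j = i + 1 + 1 := ⟨j - 2, by omega⟩
  have hf : (0 : ℝ) < (i + 1).factorial := by exact_mod_cast (i + 1).factorial_pos
  have hx' : 0 < x' := hx.trans_le h
  have hI : IntegrableOn (fun y : ℝ => Real.exp (-y) * y ^ (i + 1) * Real.log (x' / x))
      (Set.Ioi 0) := ((vw_moment (i + 1)).1).mul_const _
  have e : Real.log (x' / x) - (Vw (i + 1 + 1) x - Vw (i + 1 + 1) x') =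
      (∫ y in Set.Ioi (0 : ℝ), (Real.exp (-y) * y ^ (i + 1) * Real.log (x' / x) -
        Real.exp (-y) * y ^ (i + 1) * (Real.posLog (y / x) - Real.posLog (y / x')))) /
          (i + 1).factorial := by
    rw [cvw_sub (i + 1) hx hx', integral_sub hI (cvw_d_int (i + 1) hx hx'), integral_mul_const,
      (vw_moment (i + 1)).2, sub_div, mul_div_cancel_left₀ _ hf.ne']
  rw [e]
  refine ⟨div_nonneg (setIntegral_nonneg measurableSet_Ioi fun y hy => ?_) hf.le, ?_⟩
  · have hy : 0 < y := hy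
    rw [← mul_sub]
    refine mul_nonneg (by positivity) (sub_nonneg.2 ?_)
    simpa using cvw_d_le hx h hy zero_le_one fun _ => le_rfl
  rw [div_le_iff₀ hf]
  calc ∫ y in Set.Ioi (0 : ℝ), (Real.exp (-y) * y ^ (i + 1) * Real.log (x' / x) -
        Real.exp (-y) * y ^ (i + 1) * (Real.posLog (y / x) - Real.posLog (y / x')))
      ≤ ∫ y in Set.Ioi (0 : ℝ), Real.exp (-y) * y ^ i * (Real.log (x' / x) * x') := by
        refine setIntegral_mono_on (hI.sub (cvw_d_int (i + 1) hx hx'))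
          (((vw_moment i).1).mul_const _) measurableSet_Ioi fun y hy => ?_
        have hy : 0 < y := hy
        have h0 : 0 ≤ Real.exp (-y) * y ^ (i + 1) := by positivity
        rw [← mul_sub]
        calc _ ≤ Real.exp (-y) * y ^ (i + 1) * (Real.log (x' / x) * (x' / y)) :=
              mul_le_mul_of_nonneg_left (cvw_e_le hx h hy) h0
          _ = Real.exp (-y) * y ^ i * (Real.log (x' / x) * x') := by field_simp; ring
    _ = _ := by
        rw [integral_mul_const, (vw_moment i).2, Nat.factorial_succ]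
        have : ((i + 1 + 1 : ℕ) : ℝ) - 1 = i + 1 := by push_cast; ring
        rw [this]; push_cast; field_simp

/-- The difference between the true weights and the sharp ones. -/
def Dat.rh (D : Dat) (N j m : ℕ) : ℝ :=
  if m = 0 then 0 else D.dl j m - if m < N then Real.log ((m + 1 : ℕ) / m) else 0

/-- The envelope. -/
def env (N m : ℕ) : ℝ := if m < N then 1 / N else (N : ℝ) ^ 2 / (m : ℝ) ^ 3

/-- `log ((m + 1) / m) ≤ 1 / m`. -/
theorem Dat.rh_le (D : Dat) : ∃ C : ℝ, 0 ≤ C ∧ ∀ N j m : ℕ, 2 ≤ N → j ∈ Ico N (2 * N) →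
    |D.rh N j m| ≤ C * env N m := by
  have hA := D.A_pos
  refine ⟨4 / D.A + 4 * D.A ^ 2, by positivity, fun N j m hN hj => ?_⟩
  obtain ⟨hj1, hj2⟩ := mem_Ico.1 hj
  have hN' : (2 : ℝ) ≤ N := by exact_mod_cast hN
  have hj1' : (N : ℝ) ≤ j := by exact_mod_cast hj1
  have hj2' : (j : ℝ) + 1 ≤ 2 * N := by exact_mod_cast hj2
  have henv : 0 ≤ env N m := by unfold env; split_ifs <;> positivity
  by_cases hm : m = 0
  · rw [Dat.rh, if_pos hm, abs_zero]; positivity
  have hm1 : (1 : ℝ) ≤ m := by exact_mod_cast Nat.one_le_iff_ne_zero.2 hm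
  have hx : 0 < (m : ℝ) / D.A := by positivity
  have hxx : (m : ℝ) / D.A ≤ ((m + 1 : ℕ) : ℝ) / D.A := by gcongr; omega
  have hq : ((m + 1 : ℕ) : ℝ) / D.A / ((m : ℝ) / D.A) = ((m + 1 : ℕ) : ℝ) / m := by field_simp
  have hL : Real.log (((m + 1 : ℕ) : ℝ) / m) ≤ 1 / m := by
    have := Real.log_le_sub_one_of_pos (x := ((m + 1 : ℕ) : ℝ) / m) (by positivity)
    refine this.trans (le_of_eq ?_)
    push_cast; field_simp; ring
  rw [Dat.rh, if_neg hm, env, Dat.dl]
  by_cases hmN : m < N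
  · rw [if_pos hmN, if_pos hmN]
    obtain ⟨h1, h2⟩ := log_sub_Vw (j := j) (by omega) hx hxx
    rw [hq] at h1 h2
    rw [abs_sub_comm, abs_of_nonneg h1]
    have hj3 : (0 : ℝ) < j - 1 := by linarith
    calc _ ≤ _ := h2
      _ ≤ 1 / m * (((m + 1 : ℕ) : ℝ) / D.A / (j - 1)) := by gcongr
      _ ≤ 1 / m * ((2 * m) / D.A / (N / 2)) := by
          gcongr
          · push_cast; linarith
          · linarith
      _ = 4 / D.A * (1 / N) := by field_simp; ring
      _ ≤ _ := by gcongr; exact le_add_of_nonneg_right (by positivity)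
  · rw [if_neg hmN, if_neg hmN, sub_zero]
    obtain ⟨h1, h2⟩ := Vw_sub_le (j := j) (by omega) hx hxx
    rw [hq] at h2
    rw [abs_of_nonneg h1]
    calc _ ≤ _ := h2
      _ ≤ 1 / m * ((2 * N) * (2 * N) / ((m : ℝ) / D.A) ^ 2) := by
          gcongr
          linarith
      _ = 4 * D.A ^ 2 * ((N : ℝ) ^ 2 / (m : ℝ) ^ 3) := by field_simp; ring
      _ ≤ _ := by gcongr; exact le_add_of_nonneg_left (by positivity)

theorem env_nonneg (N m : ℕ) : 0 ≤ env N m := by
  unfold env; split_ifs <;> positivity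

/-- The size of the top part for the cut `m`. -/
def gm (N m : ℕ) : ℝ := if m < N then √√((N : ℝ) / max 1 (m : ℝ)) else m / N

theorem one_le_gm {N : ℕ} (hN : 1 ≤ N) (m : ℕ) : 1 ≤ gm N m := by
  have hN' : (1 : ℝ) ≤ N := by exact_mod_cast hN
  unfold gm
  split_ifs with h
  · refine Real.one_le_sqrt.2 (Real.one_le_sqrt.2 ((one_le_div (by positivity)).2 ?_))
    exact max_le hN' (by exact_mod_cast h.le)
  · exact (one_le_div (by positivity)).2 (by exact_mod_cast not_lt.1 h)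

theorem cvw_sum_sqrt (n : ℕ) : ∑ m ∈ range (n + 1), 1 / √(max 1 (m : ℝ)) ≤ 1 + 2 * √(n : ℝ) := by
  induction n with
  | zero => simp
  | succ n ih =>
    rw [sum_range_succ]
    have h1 : max 1 ((n + 1 : ℕ) : ℝ) = ((n + 1 : ℕ) : ℝ) :=
      max_eq_right (by exact_mod_cast Nat.le_add_left 1 n)
    rw [h1]
    have ha : 0 < √((n + 1 : ℕ) : ℝ) := by positivity
    have hb : 0 ≤ √(n : ℝ) := by positivity
    have ha2 : √((n + 1 : ℕ) : ℝ) ^ 2 = n + 1 := by
      rw [Real.sq_sqrt (by positivity)]; push_cast; ring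
    have hb2 : √(n : ℝ) ^ 2 = n := Real.sq_sqrt (by positivity)
    have : 1 / √((n + 1 : ℕ) : ℝ) ≤ 2 * √((n + 1 : ℕ) : ℝ) - 2 * √(n : ℝ) := by
      rw [div_le_iff₀ ha]
      nlinarith [sq_nonneg (√((n + 1 : ℕ) : ℝ) - √(n : ℝ))]
    linarith

theorem cvw_sum_lo {N : ℕ} (hN : 1 ≤ N) : ∑ m ∈ range N, env N m * gm N m ≤ 3 := by
  have hN' : (1 : ℝ) ≤ N := by exact_mod_cast hN
  obtain ⟨n, rfl⟩ : ∃ n, N = n + 1 := ⟨N - 1, by omega⟩
  set N := n + 1 with hNn
  have hs : 1 ≤ √(N : ℝ) := Real.one_le_sqrt.2 hN'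
  have hs2 : √(N : ℝ) ^ 2 = N := Real.sq_sqrt (by positivity)
  calc ∑ m ∈ range N, env N m * gm N m
      ≤ ∑ m ∈ range N, √(N : ℝ) / N * (1 / √(max 1 (m : ℝ))) := by
        refine sum_le_sum fun m hm => ?_
        have hm := mem_range.1 hm
        have h1 : (1 : ℝ) ≤ (N : ℝ) / max 1 (m : ℝ) :=
          (one_le_div (by positivity)).2 (max_le hN' (by exact_mod_cast hm.le))
        have h2 : 1 ≤ √((N : ℝ) / max 1 (m : ℝ)) := Real.one_le_sqrt.2 h1
        have h3 : √√((N : ℝ) / max 1 (m : ℝ)) ≤ √((N : ℝ) / max 1 (m : ℝ)) :=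
          Real.sqrt_le_iff.2 ⟨by positivity, by nlinarith⟩
        rw [env, gm, if_pos hm, if_pos hm]
        calc 1 / (N : ℝ) * √√((N : ℝ) / max 1 (m : ℝ)) ≤ 1 / (N : ℝ) * √((N : ℝ) / max 1 (m : ℝ)) := by
              gcongr
          _ = _ := by rw [Real.sqrt_div (by positivity)]; ring
    _ = √(N : ℝ) / N * ∑ m ∈ range N, 1 / √(max 1 (m : ℝ)) := (mul_sum _ _ _).symm
    _ ≤ √(N : ℝ) / N * (1 + 2 * √(N : ℝ)) := by
        gcongr
        refine (cvw_sum_sqrt n).trans ?_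
        gcongr
        omega
    _ ≤ 3 := by
        rw [div_mul_eq_mul_div, div_le_iff₀ (by positivity)]
        nlinarith

theorem cvw_sum_hi {N : ℕ} (hN : 1 ≤ N) (k : ℕ) :
    ∑ m ∈ range (N + k), env N m * gm N m ≤ 5 - 2 * N / ((N : ℝ) + k) := by
  have hN' : (1 : ℝ) ≤ N := by exact_mod_cast hN
  induction k with
  | zero =>
    have := cvw_sum_lo hN
    have e : 2 * (N : ℝ) / ((N : ℝ) + (0 : ℕ)) = 2 := by push_cast; field_simp; ring
    rw [e, add_zero]; linarith
  | succ k ih =>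
    rw [← add_assoc, sum_range_succ, env, gm, if_neg (by omega), if_neg (by omega)]
    have hk : (0 : ℝ) ≤ k := Nat.cast_nonneg k
    have : (N : ℝ) ^ 2 / ((N + k : ℕ) : ℝ) ^ 3 * (((N + k : ℕ) : ℝ) / N) ≤
        2 * N / ((N : ℝ) + k) - 2 * N / ((N : ℝ) + (k + 1 : ℕ)) := by
      push_cast
      have e1 : (N : ℝ) ^ 2 / ((N : ℝ) + k) ^ 3 * (((N : ℝ) + k) / N) =
          2 * N / (((N : ℝ) + k) * (2 * ((N : ℝ) + k))) := by field_simp
      have e2 : 2 * N / ((N : ℝ) + k) - 2 * N / ((N : ℝ) + (k + 1)) =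
          2 * N / (((N : ℝ) + k) * ((N : ℝ) + (k + 1))) := by field_simp; ring
      rw [e1, e2]
      gcongr
      linarith
    linarith

/-- `√√t ≤ √t` for `t ≥ 1`, `∑_{1 ≤ m < N} 1 / √m ≤ 2 √N`, `∑_{m ≥ N} 1 / m ^ 2 ≤ 2 / N`. -/
theorem sum_env {N : ℕ} (hN : 1 ≤ N) : Summable (fun m => env N m * gm N m) ∧
    ∑' m, env N m * gm N m ≤ 5 := by
  have h0 : ∀ m, 0 ≤ env N m * gm N m := fun m =>
    mul_nonneg (env_nonneg N m) (zero_le_one.trans (one_le_gm hN m))
  have h : ∀ n, ∑ m ∈ range n, env N m * gm N m ≤ 5 := fun n => by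
    have h1 : ∑ m ∈ range n, env N m * gm N m ≤ ∑ m ∈ range (N + n), env N m * gm N m :=
      sum_le_sum_of_subset_of_nonneg (range_mono (by omega)) fun m _ _ => h0 m
    have h2 := cvw_sum_hi hN n
    have h3 : 0 ≤ 2 * N / ((N : ℝ) + n) := by positivity
    linarith
  exact ⟨summable_of_sum_range_le h0 h, Real.tsum_le_of_sum_range_le h0 h⟩

end Pool.Agent.Lib.MP_bcfefa_nt
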