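import Pool.Agent.Lib.MP_03e5d0_nt.TFt
import Pool.Agent.Lib.MP_03e5d0_nt.TNrm
import Pool.Agent.Lib.MP_03e5d0_nt.MWw

/-! Definitions for the analytic core: exponent vectors, the torus, the mollifier, the pieces. -/

set_option autoImplicit false

noncomputable section

namespace Pool.Agent.Lib.MP_bcfefa_nt

open Complex Finset MeasureTheory Pool.Agent.Lib.MP_03e5d0_nt
open scoped Real ContDiff

/-- Exponent vectors. -/
abbrev Xp : Type := ℕ →₀ ℤ

/-- The infinite torus. -/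
def Tor : Type := ℕ → Circle

instance : CommGroup Tor := inferInstanceAs (CommGroup (ℕ → Circle))
instance : TopologicalSpace Tor := inferInstanceAs (TopologicalSpace (ℕ → Circle))
instance : IsTopologicalGroup Tor := inferInstanceAs (IsTopologicalGroup (ℕ → Circle))
instance : CompactSpace Tor := inferInstanceAs (CompactSpace (ℕ → Circle))
instance : T2Space Tor := inferInstanceAs (T2Space (ℕ → Circle))
instance : SecondCountableTopology Tor := inferInstanceAs (SecondCountableTopology (ℕ → Circle))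
instance : MeasurableSpace Tor := borel Tor
instance : BorelSpace Tor := ⟨rfl⟩

/-- The Haar probability measure on the torus. -/
def mu : Measure Tor := Measure.haarMeasure ⊤

instance : mu.IsHaarMeasure := Measure.isHaarMeasure_haarMeasure ⊤
instance : IsProbabilityMeasure mu := ⟨Measure.haarMeasure_self (K₀ := ⊤)⟩

/-- The coordinate at `p`. -/
def co (z : Tor) (p : ℕ) : ℂ := ((show ℕ → Circle from z) p : Circle)

/-- `f` depends only on the coordinates in `S`. -/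
def Dep {E : Type} (S : Set ℕ) (f : Tor → E) : Prop :=
  ∀ z z' : Tor, (∀ p ∈ S, co z p = co z' p) → f z = f z'

/-- The norm of an exponent vector. -/
def Nm (e : Xp) : ℕ := e.prod fun p k => p ^ k.natAbs

/-- The character of the torus attached to an exponent vector. -/
def ch (e : Xp) (z : Tor) : ℂ := e.prod fun p k => co z p ^ k

/-- The exponent vectors supported on `S` of norm at most `Y`. -/
def EE (S : Finset ℕ) (Y : ℝ) : Finset Xp :=
  (S.finsupp fun _ => Icc (-(⌊Y⌋₊ : ℤ)) ⌊Y⌋₊).filter fun e => (Nm e : ℝ) ≤ Y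

open Classical in
/-- The elements of `P` up to `exp Λ`. -/
def prs (P : Set ℕ) (Λ : ℝ) : Finset ℕ := (range (⌊Real.exp Λ⌋₊ + 1)).filter fun p => p ∈ P

/-- The truncated sum of `η t / t` over `t ^ 2 ≤ X`. -/
def t0 (η : ℕ → ℝ) (X : ℝ) : ℝ := ∑ t ∈ Icc 1 ⌊√X⌋₊, η t / t

/-- The same with the weight `log (X / t ^ 2)`. -/
def t1 (η : ℕ → ℝ) (X : ℝ) : ℝ := ∑ t ∈ Icc 1 ⌊√X⌋₊, η t / t * Real.log (X / (t : ℝ) ^ 2)

/-- The data of the family. -/
structure Dat where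
  P : Set ℕ
  u : Tor
  ζ : Tor
  G : AddSubgroup Xp
  η : ℕ → ℝ
  A : ℝ
  κ : ℝ
  c₁ : ℝ
  prime : ∀ p ∈ P, p.Prime
  idx : G.index ≠ 0
  sep : ∃ c₀ : ℝ, 0 < c₀ ∧ ∀ e ∈ G, e ≠ 0 → (∀ p ∈ e.support, p ∈ P) → c₀ ≤ √(Nm e) * ‖ch e u - 1‖
  mert : ∃ C : ℝ, ∀ Λ : ℝ, |∑ p ∈ prs P Λ, (2 : ℝ) / p - Real.log (ly Λ)| ≤ C
  A_pos : 0 < A
  κ_ne : κ ≠ 0
  tail : ∃ C : ℝ, ∀ X : ℝ, 1 ≤ X → |t0 η X - κ| ≤ C / √X ∧ |t1 η X - κ * Real.log X - c₁| ≤ C / √√X

namespace Dat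

variable (D : Dat)

/-- The primes of the family up to `exp Λ`. -/
def pr (Λ : ℝ) : Finset ℕ := prs D.P Λ

/-- The exponent vector is supported on the primes of the family. -/
def Ok (e : Xp) : Prop := ∀ p ∈ e.support, p ∈ D.P

/-- All admissible exponent vectors of norm at most `Y`. -/
def E (Y : ℝ) : Finset Xp := EE (D.pr (Real.log Y)) Y

/-- The point of the torus attached to the weight `2 j`. -/
def z (j : ℕ) : Tor := D.ζ * D.u ^ j

/-- Trigonometric polynomials of length at most `Y`. -/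
def TP (Y : ℝ) : Submodule ℂ (Tor → ℂ) := Submodule.span ℂ (ch '' {e | D.Ok e ∧ (Nm e : ℝ) ≤ Y})

/-- The sum of length `Y` with weight `W (log (Y / Nm e))`. -/
def sm (Y : ℝ) (W : ℝ → ℂ) (z : Tor) : ℂ :=
  ∑ e ∈ D.E Y, ch e z * (W (Real.log Y - Real.log (Nm e)) / (√(Nm e) : ℝ))

/-- A piece at scale `U`. -/
def pc (Y U : ℝ) (Θ : ℝ → ℂ) (z : Tor) : ℂ := D.sm Y (fun v => Θ (v / U)) z

/-- The truncated sums of the central series. -/
def TT (Y : ℕ) (z : Tor) : ℂ := ∑ e ∈ D.E Y, ch e z * ((t0 D.η (Y / Nm e) / √(Nm e) : ℝ) : ℂ)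

end Dat

/-- The weight of the central derivative in weight `2 j`. -/
def Vw (j : ℕ) (x : ℝ) : ℝ :=
  (∫ y in Set.Ioi (0 : ℝ), Real.exp (-y) * y ^ (j - 1) * Real.posLog (y / x)) / Real.Gamma j

/-- The prime sum over `S`. -/
def PS (S : Finset ℕ) (z : Tor) : ℝ := ∑ p ∈ S, 2 * (co z p).re / √p

/-- The Poisson kernel. -/
def PK (ξ w : ℂ) : ℂ := (1 - ξ ^ 2) / ((1 - ξ * w) * (1 - ξ * w⁻¹))

/-- Product of Poisson kernels. -/
def FF (S : Finset ℕ) (ξ : ℕ → ℂ) (z : Tor) : ℂ := ∏ p ∈ S, PK (ξ p) (co z p)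

/-- `p ^ (-(1 / 2 + α))`. -/
def xi (α : ℂ) (p : ℕ) : ℂ := (p : ℂ) ^ (-(1 / 2 + α))

/-- Main term of the logarithm of a local expectation. -/
def mq (ξ : ℂ) (y : ℝ) : ℝ := (2 * ξ.re + y) ^ 2 - 2 * (ξ ^ 2).re

namespace Dat

variable (D : Dat)

/-- The differences of the weight. -/
def dl (j m : ℕ) : ℝ := Vw j (m / D.A) - Vw j ((m + 1 : ℕ) / D.A)

/-- The central derivative, up to a nonzero factor. -/
def Ld (j : ℕ) : ℂ := ∑' m : ℕ, (D.dl j m : ℂ) * D.TT m (D.z j)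

/-- The primes with `Z / 2 ^ (j + 1) < log p ≤ Z / 2 ^ j`. -/
def blk (Z : ℝ) (j : ℕ) : Finset ℕ := D.pr (Z / 2 ^ j) \ D.pr (Z / 2 ^ (j + 1))

/-- The factor of the mollifier attached to a block. -/
def vv (c : ℕ) (Z : ℝ) (j : ℕ) (z : Tor) : ℝ := texp (2 * c * (1 + j)) (-PS (D.blk Z j) z / 3)

/-- The product over the blocks `a ≤ j < b`. -/
def VV (c : ℕ) (Z : ℝ) (a b : ℕ) (z : Tor) : ℝ := ∏ j ∈ Ico a b, D.vv c Z j z

/-- The mollifier. -/
def MM (c : ℕ) (Z : ℝ) (J : ℕ) (z : Tor) : ℂ := ((D.VV c Z 0 J z ^ 3 : ℝ) : ℂ)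

/-- The mollifier stays below the barrier. -/
def Good (c : ℕ) (Z : ℝ) (J i₀ : ℕ) (z : Tor) : Prop := ∀ j ≤ J, D.VV c Z 0 j z ^ 3 ≤ bar i₀ j

/-- The sum of the pieces at the scales `i ≤ I`, with the linear weight. -/
def Q1 (Y : ℝ) (I : ℕ) (z : Tor) : ℂ :=
  ∑ i ∈ range (I + 1), (Ui (Real.log Y) i : ℂ) * D.pc Y (Ui (Real.log Y) i) th1 z

/-- The sum of the pieces at the scales `i ≤ I`, with the constant weight. -/
def Q0 (Y : ℝ) (I : ℕ) (z : Tor) : ℂ := ∑ i ∈ range (I + 1), D.pc Y (Ui (Real.log Y) i) th0 z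

/-- The doubly averaged first moment along a progression. -/
def T1 (n m H : ℕ) (f : Tor → ℂ) : ℂ :=
  ∑ i ∈ range H, ∑ i' ∈ range H, f (D.z (n + m * (i + i')))

end Dat

/-- The choice of parameters. -/
structure Pa (A : ℝ) (i₀ N : ℕ) (Z : ℝ) (I J : ℕ) : Prop where
  hZ : Z = Ui (Real.log N) i₀ / A
  one_le : 1 ≤ Z
  hJ : 2 * Z ≤ 2 ^ J
  hJ' : (2 : ℝ) ^ J ≤ 4 * Z
  hI : 4 ≤ Ui (Real.log N) I
  hI' : Ui (Real.log N) I ≤ 8
  le : i₀ ≤ I

end Pool.Agent.Lib.MP_bcfefa_nt
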