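import Pool.Agent.Lib.MP_bcfefa_nt.GIdl

set_option autoImplicit false

noncomputable section

namespace Pool.Agent.Lib.MP_bcfefa_nt

open Complex Finset NumberField Pool.Agent.Lib.MP_03e5d0_nt
open scoped Real

/-! The finite part of the character. Compare `HChar` (class number one). -/

variable {K : Type} [Field K] [NumberField K]

theorem gchar_norm (R : Rk K) {I : Ideal (𝓞 K)} {k : ℕ} {γ : 𝓞 K} (h : I ^ k = sp γ) :
    ‖R.ι γ‖ = √(nI I) ^ k := by
  have h1 := R.nI_sp γ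
  rw [← h, nI, map_pow, Nat.cast_pow, Complex.normSq_eq_norm_sq] at h1
  refine (pow_left_inj₀ (norm_nonneg _) (by positivity) two_ne_zero).1 ?_
  rw [← h1, ← pow_mul, mul_comm, pow_mul, Real.sq_sqrt (Nat.cast_nonneg _)]

theorem gchar_conj {x : ℂ} {m n : ℕ} (h : ‖x‖ = √m ^ n) : x * starRingEnd ℂ x = (m : ℂ) ^ n := by
  rw [Complex.mul_conj, Complex.normSq_eq_norm_sq, h, ← pow_mul, mul_comm, pow_mul,
    Real.sq_sqrt (Nat.cast_nonneg _)]
  norm_cast

namespace Gk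

variable (H : Gk K)

theorem X_mul (α β : 𝓞 K) : H.X (α * β) = H.X α * H.X β := by
  unfold X
  rw [map_mul, map_mul]

theorem X_one : H.X 1 = 1 := by
  unfold X
  rw [map_one, map_one]

theorem X_pow (α : 𝓞 K) (n : ℕ) : H.X (α ^ n) = H.X α ^ n := by
  unfold X
  rw [map_pow, map_pow]

theorem X_congr {α β : 𝓞 K} (h : α - β ∈ H.f) : H.X α = H.X β := by
  unfold X
  rw [Ideal.Quotient.eq.2 h]

theorem isUnit_mk {α : 𝓞 K} : IsUnit (Ideal.Quotient.mk H.f α) ↔ IsCoprime (sp α) H.f := by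
  rw [Ideal.isCoprime_iff_exists]
  constructor
  · intro h
    obtain ⟨b, hb⟩ := h.exists_left_inv
    obtain ⟨b, rfl⟩ := Ideal.Quotient.mk_surjective b
    rw [← map_mul, ← map_one (Ideal.Quotient.mk H.f), Ideal.Quotient.eq] at hb
    exact ⟨b * α, Ideal.mul_mem_left _ _ (Ideal.mem_span_singleton_self α), -(b * α - 1), H.f.neg_mem hb,
      by ring⟩
  · rintro ⟨i, hi, j, hj, h⟩
    obtain ⟨a, rfl⟩ := Ideal.mem_span_singleton'.1 hi
    refine IsUnit.of_mul_eq_one_right (Ideal.Quotient.mk _ a) ?_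
    rw [← map_mul, ← map_one (Ideal.Quotient.mk H.f), Ideal.Quotient.eq,
      show a * α - 1 = -j by linear_combination h]
    exact H.f.neg_mem hj

theorem X_ne_zero {α : 𝓞 K} : H.X α ≠ 0 ↔ IsCoprime (sp α) H.f := by
  rw [← H.isUnit_mk]
  constructor
  · intro h
    by_contra h'
    exact h (H.χ.map_nonunit h')
  · intro h
    exact (h.map H.χ).ne_zero

theorem finite_quot : Finite (𝓞 K ⧸ H.f) := by
  exact Ideal.finiteQuotientOfFreeOfNeBot H.f H.f_ne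

/-- The quotient is finite, so the values at units are roots of unity. -/
theorem norm_X {α : 𝓞 K} (h : IsCoprime (sp α) H.f) : ‖H.X α‖ = 1 := by
  have := H.finite_quot
  obtain ⟨u, hu⟩ := H.isUnit_mk.2 h
  obtain ⟨n, hn, hn'⟩ := (isOfFinOrder_of_finite u).exists_pow_eq_one
  refine Complex.norm_eq_one_of_pow_eq_one (n := n) ?_ hn.ne'
  unfold X
  rw [← hu, ← map_pow, ← Units.val_pow_eq_pow_val, hn', Units.val_one, map_one]

theorem norm_X_le (α : 𝓞 K) : ‖H.X α‖ ≤ 1 := by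
  by_cases h : H.X α = 0
  · rw [h, norm_zero]
    exact zero_le_one
  · exact (H.norm_X (H.X_ne_zero.1 h)).le

theorem X_neg (α : 𝓞 K) : H.X (-α) = -H.X α := by
  have h : H.X (-1) = -1 := H.odd
  rw [← neg_one_mul α, X_mul, h, neg_one_mul]

/-- Otherwise `X (-1) = X 1`. -/
theorem f_ne_top : H.f ≠ ⊤ := by
  intro h
  have h1 : H.X (-1) = H.X 1 := H.X_congr (by rw [h]; exact Submodule.mem_top)
  rw [X_neg, X_one] at h1
  norm_num at h1

theorem X_zero : H.X 0 = 0 := by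
  have h := H.X_neg 0
  rw [neg_zero] at h
  linear_combination (1 / 2 : ℂ) * h

theorem ne_bot {I : Ideal (𝓞 K)} (h : IsCoprime I H.f) : I ≠ ⊥ := by
  rintro rfl
  rw [Ideal.isCoprime_iff_sup_eq, bot_sup_eq] at h
  exact H.f_ne_top h

theorem nf_pos : 0 < nI H.f := by
  exact Nat.pos_of_ne_zero fun h => H.f_ne (Ideal.absNorm_eq_zero_iff.1 h)

/-- `H.neb` and `X_ne_zero`. -/
theorem not_dvd_D {p : ℕ} (hp : p.Prime) (h : IsCoprime (sp (p : 𝓞 K)) H.f) : ¬(p : ℤ) ∣ discr K := by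
  intro hd
  refine H.X_ne_zero.2 h ((H.neb p hp h).trans ?_)
  unfold epsK
  exact if_pos hd

theorem X_inert {p : ℕ} (hp : p.Prime) (h : IsCoprime (sp (p : 𝓞 K)) H.f)
    (h' : (sp (p : 𝓞 K)).IsPrime) : H.X p = -1 := by
  refine (H.neb p hp h).trans ?_
  unfold epsK
  exact (if_neg (H.not_dvd_D hp h)).trans (if_pos h')

theorem X_split {p : ℕ} (hp : p ∈ H.P) : H.X p = 1 := by
  refine (H.neb p hp.1 hp.2.1).trans ?_
  unfold epsK
  exact (if_neg (H.not_dvd_D hp.1 hp.2.1)).trans (if_neg hp.2.2)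

/-- Induction on the factorisation of `I`, `prime_cases`, `nI_nat`. -/
theorem X_nI' {I : Ideal (𝓞 K)} (h : IsCoprime I H.f) (h' : IsCoprime (H.cI I) H.f) :
    H.X (nI I) = 1 := by
  induction I using UniqueFactorizationMonoid.induction_on_prime with
  | h₁ => exact absurd rfl (H.ne_bot h)
  | h₂ u hu => rw [Ideal.isUnit_iff.1 hu, nI, Ideal.absNorm_top, Nat.cast_one, X_one]
  | h₃ a ρ _ hρ ih =>
    rw [H.cI_mul] at h'
    rw [nI, map_mul, Nat.cast_mul, X_mul, ih h.of_mul_left_right h'.of_mul_left_right, mul_one]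
    have h1 := h.of_mul_left_left
    have h2 := h'.of_mul_left_left
    have h0 := Ideal.isPrime_of_prime hρ
    obtain ⟨p, hp, h3 | ⟨h3, h4, h5⟩⟩ := H.prime_cases h0 hρ.ne_zero
    · have h5 : Ideal.absNorm ρ = p ^ 2 := by rw [h3]; exact H.nI_nat p
      rw [h5, Nat.cast_pow, X_pow, H.X_inert hp (h3 ▸ h1) (h3 ▸ h0)]
      norm_num
    · rw [show Ideal.absNorm ρ = p from h4]
      refine H.X_split ⟨hp, ?_, h3⟩
      rw [← h5]
      exact h1.mul_left h2

/-- Let `g = f ⊔ cI f`. If `f < g` take `a` from `H.prim`, `a - 1 = u + v` with `u ∈ f`, `v ∈ cI f`, and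
put `a' = a - u = 1 + v`. Then `X a' = X a`, `cj a' - 1 ∈ f`, so `X_nI'` for `sp a'` and `mul_cj` give
`X a' = 1`. Hence `cI f ≤ f`; conjugate. -/
theorem cI_f : H.cI H.f = H.f := by
  have key : H.cI H.f ≤ H.f := by
    by_contra hn
    obtain ⟨a, ha, hk, hX⟩ := H.prim (H.f ⊔ H.cI H.f) (left_lt_sup.2 hn)
    obtain ⟨u, hu, v, hv, huv⟩ := Submodule.mem_sup.1 hk
    have h3 : H.X (1 + v) = H.X a := by
      refine H.X_congr ?_
      rw [show 1 + v - a = -u by linear_combination huv]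
      exact H.f.neg_mem hu
    have h4 : H.X (H.cj (1 + v)) = 1 := by
      rw [← H.X_one]
      refine H.X_congr ?_
      rw [map_add, map_one, add_sub_cancel_left]
      exact H.mem_cI.1 hv
    have h6 : IsCoprime (H.cI (sp (1 + v))) H.f := by
      rw [H.cI_sp]
      exact H.X_ne_zero.1 (h4 ▸ one_ne_zero)
    have h5 := H.X_nI' (H.X_ne_zero.1 (h3 ▸ H.X_ne_zero.2 ha)) h6
    rw [← H.mul_cj, X_mul, h4, mul_one, h3] at h5
    exact hX h5
  refine le_antisymm key ?_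
  have h1 := H.cI_mono key
  rwa [H.cI_cI] at h1

theorem coprime_cI {I : Ideal (𝓞 K)} : IsCoprime (H.cI I) H.f ↔ IsCoprime I H.f := by
  have key : ∀ J : Ideal (𝓞 K), IsCoprime J H.f → IsCoprime (H.cI J) H.f := fun J h => by
    have h1 := H.cI_coprime h
    rwa [H.cI_f] at h1
  refine ⟨fun h => ?_, key I⟩
  have h1 := key _ h
  rwa [H.cI_cI] at h1

theorem X_nI {I : Ideal (𝓞 K)} (h : IsCoprime I H.f) : H.X (nI I) = 1 := by
  exact H.X_nI' h (H.coprime_cI.2 h)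

theorem f_mul_f : H.f * H.f = sp (nI H.f : 𝓞 K) := by
  have h := H.mul_cI H.f
  rwa [H.cI_f] at h

theorem X_cj (α : 𝓞 K) : H.X (H.cj α) = starRingEnd ℂ (H.X α) := by
  have hc : IsCoprime (sp (H.cj α)) H.f ↔ IsCoprime (sp α) H.f := by
    rw [← H.cI_sp]
    exact H.coprime_cI
  by_cases h : IsCoprime (sp α) H.f
  · have h1 := H.X_nI h
    rw [← H.mul_cj, X_mul] at h1
    have h2 : H.X α * starRingEnd ℂ (H.X α) = 1 := by
      rw [Complex.mul_conj, Complex.normSq_eq_norm_sq, H.norm_X h]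
      norm_num
    exact mul_left_cancel₀ (H.X_ne_zero.2 h) (h1.trans h2.symm)
  · have h1 : H.X α = 0 := by_contra fun h0 => h (H.X_ne_zero.1 h0)
    have h2 : H.X (H.cj α) = 0 := by_contra fun h0 => h (hc.1 (H.X_ne_zero.1 h0))
    rw [h1, h2, map_zero]

theorem X_nat (t : ℕ) : H.X t = (H.η t : ℂ) := by
  have h := H.X_cj t
  rw [map_natCast] at h
  exact (Complex.conj_eq_iff_re.1 h.symm).symm

/-- If `t` is prime to `f` it is prime to `f * f`; `intCast_mem` after taking coordinates, or argue with a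
common prime divisor. -/
theorem coprime_nat {t : ℕ} : IsCoprime (sp (t : 𝓞 K)) H.f ↔ t.Coprime (nI H.f) := by
  constructor
  · intro h
    have h2 := h.mul_right h
    rw [H.f_mul_f, Ideal.isCoprime_span_singleton_iff] at h2
    have h3 := h2.isUnit_of_dvd' (Nat.cast_dvd_cast (Nat.gcd_dvd_left t _))
      (Nat.cast_dvd_cast (Nat.gcd_dvd_right _ _))
    have h4 := H.nI_nat (Nat.gcd t (nI H.f))
    rw [sp, Ideal.span_singleton_eq_top.2 h3, nI, Ideal.absNorm_top] at h4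
    exact (Nat.pow_eq_one.1 h4.symm).resolve_right two_ne_zero
  · intro h
    have h1 : IsCoprime (sp (t : 𝓞 K)) (sp (nI H.f : 𝓞 K)) :=
      (Ideal.isCoprime_span_singleton_iff _ _).2 (Nat.Coprime.cast h)
    rw [← H.f_mul_f] at h1
    exact h1.of_mul_right_left

variable {H} {ψ μ : Ideal (𝓞 K) →* ℂ} {n d : ℕ} {I : Ideal (𝓞 K)}

/-- `exists_pow`, `X_zero`. -/
theorem IsH.eq_zero (hψ : H.IsH ψ n) (h : ¬IsCoprime I H.f) : ψ I = 0 := by
  by_cases h0 : I = ⊥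
  · have h1 := hψ 0
    rw [H.X_zero, zero_mul, sp, Ideal.span_singleton_eq_bot.2 rfl] at h1
    rw [h0, h1]
  · obtain ⟨k, γ, hk, hγ⟩ := exists_pow h0
    have h1 : H.X γ = 0 := by
      by_contra h2
      have h3 := H.X_ne_zero.1 h2
      rw [← hγ] at h3
      exact h ((IsCoprime.pow_left_iff hk).1 h3)
    have h2 := hψ γ
    rw [h1, zero_mul, ← hγ, map_pow] at h2
    exact pow_eq_zero_iff hk.ne' |>.1 h2

/-- `exists_pow`, `nI_sp`, `norm_X`. -/
theorem IsH.norm_eq (hψ : H.IsH ψ n) (h : IsCoprime I H.f) : ‖ψ I‖ = √(nI I) ^ n := by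
  obtain ⟨k, γ, hk, hγ⟩ := exists_pow (H.ne_bot h)
  have h1 : IsCoprime (sp γ) H.f := by
    rw [← hγ]
    exact h.pow_left
  have h2 := congrArg norm (hψ γ)
  rw [norm_mul, H.norm_X h1, one_mul, norm_pow, gchar_norm H.toRk hγ, ← hγ, map_pow, norm_pow, ← pow_mul,
    mul_comm, pow_mul] at h2
  exact (pow_left_inj₀ (norm_nonneg _) (by positivity) hk.ne').1 h2

theorem IsH.ne_zero (hψ : H.IsH ψ n) (h : IsCoprime I H.f) : ψ I ≠ 0 := by
  have h1 : (0 : ℝ) < nI I := by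
    exact_mod_cast Nat.pos_of_ne_zero fun h0 => H.ne_bot h (Ideal.absNorm_eq_zero_iff.1 h0)
  rw [← norm_pos_iff, hψ.norm_eq h]
  positivity

theorem IsH.norm_le (hψ : H.IsH ψ n) (I : Ideal (𝓞 K)) : ‖ψ I‖ ≤ (nI I : ℝ) ^ n := by
  by_cases h : IsCoprime I H.f
  · rw [hψ.norm_eq h]
    refine pow_le_pow_left₀ (Real.sqrt_nonneg _) (Real.sqrt_le_iff.2 ⟨Nat.cast_nonneg _, ?_⟩) n
    exact_mod_cast Nat.le_self_pow two_ne_zero _
  · rw [hψ.eq_zero h, norm_zero]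
    positivity

theorem IsH.mul_cI (hψ : H.IsH ψ n) (h : IsCoprime I H.f) : ψ I * ψ (H.cI I) = (nI I : ℂ) ^ n := by
  rw [← map_mul, H.mul_cI, hψ, H.X_nI h, one_mul, map_natCast]

theorem IsH.cI_eq (hψ : H.IsH ψ n) (I : Ideal (𝓞 K)) : ψ (H.cI I) = starRingEnd ℂ (ψ I) := by
  by_cases h : IsCoprime I H.f
  · refine mul_left_cancel₀ (hψ.ne_zero h) ?_
    rw [hψ.mul_cI h, gchar_conj (hψ.norm_eq h)]
  · rw [hψ.eq_zero h, hψ.eq_zero fun h' => h (H.coprime_cI.1 h'), map_zero]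

theorem IsH.mul_pow (hψ : H.IsH ψ n) (hμ : H.IsU μ d) (r : ℕ) : H.IsH (ψ * μ ^ r) (n + d * r) := by
  intro α
  rw [MonoidHom.mul_apply, MonoidHom.pow_apply, hψ, hμ, pow_add, pow_mul, mul_assoc]

end Gk

namespace Rk

variable {R : Rk K} {μ : Ideal (𝓞 K) →* ℂ} {d : ℕ} {I : Ideal (𝓞 K)}

theorem IsU.norm_eq (hμ : R.IsU μ d) (h : I ≠ ⊥) : ‖μ I‖ = √(nI I) ^ d := by
  obtain ⟨k, γ, hk, hγ⟩ := exists_pow h
  have h2 := congrArg norm (hμ γ)
  rw [norm_pow, gchar_norm R hγ, ← hγ, map_pow, norm_pow, ← pow_mul, mul_comm, pow_mul] at h2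
  exact (pow_left_inj₀ (norm_nonneg _) (by positivity) hk.ne').1 h2

theorem IsU.ne_zero (hμ : R.IsU μ d) (h : I ≠ ⊥) : μ I ≠ 0 := by
  have h1 : (0 : ℝ) < nI I := by
    exact_mod_cast Nat.pos_of_ne_zero fun h0 => h (Ideal.absNorm_eq_zero_iff.1 h0)
  rw [← norm_pos_iff, hμ.norm_eq h]
  positivity

theorem IsU.mul_cI (hμ : R.IsU μ d) (I : Ideal (𝓞 K)) : μ I * μ (R.cI I) = (nI I : ℂ) ^ d := by
  rw [← map_mul, R.mul_cI, hμ, map_natCast]

theorem IsU.cI_eq (hμ : R.IsU μ d) (h : I ≠ ⊥) : μ (R.cI I) = starRingEnd ℂ (μ I) := by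
  refine mul_left_cancel₀ (hμ.ne_zero h) ?_
  rw [hμ.mul_cI I, gchar_conj (hμ.norm_eq h)]

/-- `sp (-1) = sp 1`. -/
theorem IsU.even (hμ : R.IsU μ d) : Even d := by
  have h1 := hμ (-1)
  have h2 := hμ 1
  rw [sp, Ideal.span_singleton_neg, h2, map_neg, map_one, one_pow] at h1
  exact (neg_one_pow_eq_one_iff_even (by norm_num)).1 h1.symm

end Rk

end Pool.Agent.Lib.MP_bcfefa_nt
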