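import Pool.Agent.Lib.MP_bcfefa_nt.HEta
import Pool.Agent.Lib.MP_bcfefa_nt.BTor

set_option autoImplicit false

noncomputable section

namespace Pool.Agent.Lib.MP_bcfefa_nt

open Complex Finset MeasureTheory Pool.Agent.Lib.MP_03e5d0_nt
open scoped Real ContDiff

/-! Mertens type estimates. -/

theorem hmert_Icc (n : ℕ) : Icc 1 n = Ioc 0 n := by
  ext m
  simp only [mem_Icc, mem_Ioc]
  omega

open ArithmeticFunction in
theorem hmert_conv {w : ℕ → ℝ} (hw : ∀ s t, w (s * t) = w s * w t) (n : ℕ) :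
    ∑ m ∈ Icc 1 n, w m * Real.log m =
      ∑ d ∈ Icc 1 n, w d * vonMangoldt d * ∑ l ∈ Icc 1 (n / d), w l := by
  have h := sum_Ioc_mul_eq_sum_sum (R := ℝ) ⟨fun d => w d * vonMangoldt d, by simp⟩
    ⟨fun l => if l = 0 then 0 else w l, by simp⟩ n
  simp only [hmert_Icc]
  refine (sum_congr rfl fun m hm => ?_).trans (h.trans (sum_congr rfl fun d _ => ?_))
  · rw [mul_apply, ← vonMangoldt_sum, mul_sum,
      ← Nat.sum_divisorsAntidiagonal fun d _ => w m * vonMangoldt d]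
    refine sum_congr rfl fun x hx => ?_
    obtain ⟨h1, h2⟩ := Nat.mem_divisorsAntidiagonal.1 hx
    have h3 : x.2 ≠ 0 := fun h0 => h2 (by rw [← h1, h0, mul_zero])
    simp only [coe_mk, if_neg h3]
    rw [← h1, hw]
    ring
  · simp only [coe_mk]
    congr 1
    exact sum_congr rfl fun l hl => if_neg (mem_Ioc.1 hl).1.ne'

open ArithmeticFunction in
theorem hmert_psi (n : ℕ) : ∑ d ∈ Icc 1 n, vonMangoldt d ≤ (Real.log 4 + 4) * n := by
  have h := Chebyshev.psi_le_const_mul_self (x := n) (Nat.cast_nonneg n)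
  rwa [Chebyshev.psi, Nat.floor_natCast, ← hmert_Icc] at h

theorem hmert_log_succ {n : ℕ} (hn : 1 ≤ n) :
    Real.log ((n + 1 : ℕ) : ℝ) - Real.log n ≤ 1 / n := by
  have hn0 : (0 : ℝ) < n := by exact_mod_cast hn
  have h1 : (0 : ℝ) < ((n + 1 : ℕ) : ℝ) := by positivity
  rw [← Real.log_div h1.ne' hn0.ne']
  refine (Real.log_le_sub_one_of_pos (div_pos h1 hn0)).trans (le_of_eq ?_)
  push_cast
  field_simp
  ring

theorem hmert_sum_log {n : ℕ} (hn : 1 ≤ n) :
    n * Real.log n - n ≤ ∑ m ∈ Icc 1 n, Real.log m ∧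
      ∑ m ∈ Icc 1 n, Real.log m ≤ n * Real.log n := by
  constructor
  · induction n, hn using Nat.le_induction with
    | base => simp
    | succ n hn ih =>
      have hn0 : (0 : ℝ) < n := by exact_mod_cast hn
      have h1 := hmert_log_succ hn
      rw [le_div_iff₀ hn0] at h1
      rw [sum_Icc_succ_top (by omega)]
      generalize Real.log ((n + 1 : ℕ) : ℝ) = α at h1
      push_cast
      nlinarith
  · refine (sum_le_card_nsmul _ _ (Real.log n) fun m hm => ?_).trans (by simp)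
    obtain ⟨h1, h2⟩ := mem_Icc.1 hm
    exact Real.log_le_log (by exact_mod_cast h1) (by exact_mod_cast h2)

theorem hmert_div {n d : ℕ} (hd : 1 ≤ d) :
    ((n / d : ℕ) : ℝ) ≤ n / d ∧ (n : ℝ) / d ≤ ((n / d : ℕ) : ℝ) + 1 := by
  refine ⟨Nat.cast_div_le, ?_⟩
  have hd0 : (0 : ℝ) < d := by exact_mod_cast hd
  rw [div_le_iff₀ hd0]
  have h5 : (n : ℝ) < ((n / d : ℕ) : ℝ) * d + d := by exact_mod_cast Nat.lt_div_mul_add (a := n) hd
  linarith

open ArithmeticFunction in
/-- The first theorem of Mertens. -/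
theorem mertens_one : ∃ C : ℝ, ∀ n : ℕ, 1 ≤ n →
    |∑ d ∈ Icc 1 n, vonMangoldt d / d - Real.log n| ≤ C := by
  refine ⟨Real.log 4 + 4, fun n hn => ?_⟩
  have hn0 : (0 : ℝ) < n := by exact_mod_cast hn
  have h1 := hmert_conv (w := fun _ => 1) (fun _ _ => (mul_one _).symm) n
  simp only [one_mul, sum_const, Nat.card_Icc, add_tsub_cancel_right, nsmul_eq_mul, mul_one] at h1
  obtain ⟨h2, h3⟩ := hmert_sum_log hn
  have h4 : ∑ d ∈ Icc 1 n, vonMangoldt d * ((n / d : ℕ) : ℝ) ≤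
      n * ∑ d ∈ Icc 1 n, vonMangoldt d / d := by
    rw [mul_sum]
    refine sum_le_sum fun d hd => ?_
    have h5 := mul_le_mul_of_nonneg_left (hmert_div (n := n) (mem_Icc.1 hd).1).1
      (vonMangoldt_nonneg (n := d))
    exact h5.trans (le_of_eq (by ring))
  have h5 : n * ∑ d ∈ Icc 1 n, vonMangoldt d / d ≤
      ∑ d ∈ Icc 1 n, vonMangoldt d * ((n / d : ℕ) : ℝ) + ∑ d ∈ Icc 1 n, vonMangoldt d := by
    rw [mul_sum, ← sum_add_distrib]
    refine sum_le_sum fun d hd => ?_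
    have h5 := mul_le_mul_of_nonneg_left (hmert_div (n := n) (mem_Icc.1 hd).1).2
      (vonMangoldt_nonneg (n := d))
    exact (le_of_eq (by ring)).trans (h5.trans (le_of_eq (by ring)))
  have h6 := hmert_psi n
  have h7 : 0 ≤ Real.log 4 := Real.log_nonneg (by norm_num)
  rw [abs_le]
  constructor
  · refine le_of_mul_le_mul_left ?_ hn0
    nlinarith
  · refine le_of_mul_le_mul_left ?_ hn0
    nlinarith

open ArithmeticFunction in
/-- The twisted sum is bounded. -/
theorem mertens_eta {η : ℕ → ℝ} {B κ : ℝ} (hm : ∀ s t, η (s * t) = η s * η t) (h1 : ∀ t, |η t| ≤ 1)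
    (hB : ∀ n, |∑ t ∈ Icc 1 n, η t| ≤ B) (h0 : κ ≠ 0)
    (hκ : ∀ n : ℕ, |∑ t ∈ Icc 1 n, η t / t - κ| ≤ 2 * B / (n + 1)) :
    ∃ C : ℝ, ∀ n : ℕ, |∑ d ∈ Icc 1 n, η d * vonMangoldt d / d| ≤ C := by
  obtain ⟨s, C, hC⟩ := exists_lim_log hB
  have hB0 : 0 ≤ B := (abs_nonneg _).trans (hB 0)
  have h4 : 0 ≤ Real.log 4 + 4 := by linarith [Real.log_nonneg (show (1 : ℝ) ≤ 4 by norm_num)]
  refine ⟨(|s| + |C| + 2 * B * (Real.log 4 + 4)) / |κ|, fun n => ?_⟩
  rcases Nat.eq_zero_or_pos n with rfl | hn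
  · rw [Icc_eq_empty (by norm_num), sum_empty, abs_zero]
    positivity
  have hn0 : (0 : ℝ) < n := by exact_mod_cast hn
  have h2 := hmert_conv (w := fun t => η t / t) (fun a b => by
    rw [hm, Nat.cast_mul, mul_div_mul_comm]) n
  have h3 : |∑ t ∈ Icc 1 n, η t / t * Real.log t - s| ≤ |C| := by
    refine (hC n).trans ((div_le_div_of_nonneg_right (le_abs_self C) (by positivity)).trans ?_)
    exact div_le_self (abs_nonneg C) (Real.one_le_sqrt.2 (by linarith))
  have h5 : |∑ d ∈ Icc 1 n, η d / d * vonMangoldt d * (∑ l ∈ Icc 1 (n / d), η l / l - κ)| ≤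
      2 * B * (Real.log 4 + 4) := by
    refine (abs_sum_le_sum_abs _ _).trans ?_
    refine (sum_le_sum (g := fun d => 2 * B / n * vonMangoldt d) fun d hd => ?_).trans ?_
    · have hd1 := (mem_Icc.1 hd).1
      have hd0 : (0 : ℝ) < d := by exact_mod_cast hd1
      have h6 : |∑ l ∈ Icc 1 (n / d), η l / l - κ| ≤ 2 * B / (n / d) :=
        (hκ (n / d)).trans (div_le_div_of_nonneg_left (by positivity) (by positivity)
          (hmert_div hd1).2)
      have h7 := vonMangoldt_nonneg (n := d)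
      rw [abs_mul, abs_mul, abs_div, abs_of_nonneg h7, abs_of_pos hd0]
      calc _ ≤ 1 / d * vonMangoldt d * (2 * B / (n / d)) := by
            gcongr
            exact h1 d
        _ = _ := by field_simp
    · rw [← mul_sum]
      refine (mul_le_mul_of_nonneg_left (hmert_psi n) (by positivity)).trans (le_of_eq ?_)
      field_simp
  have h6 : (∑ d ∈ Icc 1 n, η d * vonMangoldt d / d) * κ =
      (∑ t ∈ Icc 1 n, η t / t * Real.log t - s) + s -
        ∑ d ∈ Icc 1 n, η d / d * vonMangoldt d * (∑ l ∈ Icc 1 (n / d), η l / l - κ) := by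
    rw [sub_add_cancel, h2, ← sum_sub_distrib, sum_mul]
    exact sum_congr rfl fun d _ => by ring
  rw [le_div_iff₀ (abs_pos.2 h0), ← abs_mul, h6]
  refine (abs_sub _ _).trans (add_le_add ((abs_add_le _ _).trans ?_) h5)
  linarith

open ArithmeticFunction in
/-- The proper prime powers contribute a bounded amount. -/
theorem sum_nonprime : ∃ C : ℝ, ∀ n : ℕ,
    ∑ d ∈ (Icc 1 n).filter (fun d => ¬d.Prime), vonMangoldt d / d ≤ C := by
  have h := vonMangoldt.summable_residueClass_non_primes_div (q := 1) 0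
  have e : ∀ n : ℕ, vonMangoldt.residueClass (q := 1) 0 n = vonMangoldt n := fun n =>
    Set.indicator_of_mem (s := {n : ℕ | (n : ZMod 1) = 0}) (Subsingleton.elim (n : ZMod 1) 0) _
  simp only [e] at h
  refine ⟨_, fun n => le_trans (le_of_eq ?_) (h.sum_le_tsum (Icc 1 n) fun d _ => ?_)⟩
  · rw [sum_filter]
    refine sum_congr rfl fun d _ => ?_
    by_cases hd : d.Prime <;> simp [hd]
  · have := vonMangoldt_nonneg (n := d)
    positivity

/-- Summation by parts from the first to the second theorem of Mertens. -/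
theorem mertens_two {a : ℕ → ℝ} {C : ℝ}
    (h : ∀ n : ℕ, 2 ≤ n → |∑ k ∈ Icc 2 n, a k * Real.log k - Real.log n| ≤ C) :
    ∃ C' : ℝ, ∀ n : ℕ, 2 ≤ n → |∑ k ∈ Icc 2 n, a k - Real.log (Real.log n)| ≤ C' := by
  obtain ⟨F, hF⟩ : ∃ F : ℕ → ℝ, ∀ n, F n = ∑ k ∈ Icc 2 n, a k -
      (∑ k ∈ Icc 2 n, a k * Real.log k - Real.log n) / Real.log n - Real.log (Real.log n) :=
    ⟨_, fun _ => rfl⟩
  have hC : 0 ≤ C := (abs_nonneg _).trans (h 2 le_rfl)
  have step : ∀ n : ℕ, 2 ≤ n → |F (n + 1) - F n| ≤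
      (C + 1) * (1 / Real.log n - 1 / Real.log ((n + 1 : ℕ) : ℝ)) := by
    intro n hn
    have hn0 : (1 : ℝ) < n := by exact_mod_cast hn
    have hβ : 0 < Real.log n := Real.log_pos hn0
    have h1 : Real.log n ≤ Real.log ((n + 1 : ℕ) : ℝ) :=
      Real.log_le_log (by linarith) (by push_cast; linarith)
    have h2 : Real.log ((n + 1 : ℕ) : ℝ) - Real.log n ≤ 1 :=
      (hmert_log_succ (by omega)).trans (by rw [div_le_one (by linarith)]; exact hn0.le)
    have h3 := h n hn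
    rw [hF, hF, sum_Icc_succ_top (by omega), sum_Icc_succ_top (by omega)]
    generalize Real.log ((n + 1 : ℕ) : ℝ) = α at h1 h2
    generalize Real.log (n : ℝ) = β at hβ h1 h2 h3
    generalize ∑ k ∈ Icc 2 n, a k * Real.log k = T at h3
    have hα : 0 < α := by linarith
    have h4 := Real.log_le_sub_one_of_pos (div_pos hβ hα)
    have h5 := Real.log_le_sub_one_of_pos (div_pos hα hβ)
    rw [Real.log_div hβ.ne' hα.ne'] at h4
    rw [Real.log_div hα.ne' hβ.ne'] at h5
    have h6 : 0 ≤ 1 / β - 1 / α := sub_nonneg.2 (one_div_le_one_div_of_le hβ h1)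
    have e : ∑ k ∈ Icc 2 n, a k + a (n + 1) - (T + a (n + 1) * α - α) / α - Real.log α -
        (∑ k ∈ Icc 2 n, a k - (T - β) / β - Real.log β) =
        (T - β) * (1 / β - 1 / α) + (1 - β / α - (Real.log α - Real.log β)) := by
      field_simp
      ring
    have e2 : α / β - 1 - (1 - β / α) = (α - β) * (1 / β - 1 / α) := by
      field_simp
    have h7 := mul_le_mul_of_nonneg_right h2 h6
    have h8 : |(T - β) * (1 / β - 1 / α)| ≤ C * (1 / β - 1 / α) := by
      rw [abs_mul, abs_of_nonneg h6]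
      exact mul_le_mul_of_nonneg_right h3 h6
    have h9 : |1 - β / α - (Real.log α - Real.log β)| ≤ 1 / β - 1 / α := by
      rw [abs_le]
      constructor <;> linarith
    rw [e]
    refine (abs_add_le _ _).trans ?_
    linarith
  have tot : ∀ n : ℕ, 2 ≤ n → |F n - F 2| ≤
      (C + 1) * (1 / Real.log ((2 : ℕ) : ℝ) - 1 / Real.log n) := by
    intro n hn
    induction n, hn using Nat.le_induction with
    | base => simp
    | succ n hn ih =>
      have h1 := step n hn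
      have h2 := abs_sub_le (F (n + 1)) (F n) (F 2)
      linarith
  have hl : 0 < Real.log ((2 : ℕ) : ℝ) := Real.log_pos (by norm_num)
  refine ⟨|F 2| + (C + 1) * (1 / Real.log ((2 : ℕ) : ℝ)) + C / Real.log ((2 : ℕ) : ℝ),
    fun n hn => ?_⟩
  have h1 : Real.log ((2 : ℕ) : ℝ) ≤ Real.log n :=
    Real.log_le_log (by norm_num) (by exact_mod_cast hn)
  have hβ : 0 < Real.log n := hl.trans_le h1
  have h2 := tot n hn
  have h3 : |(∑ k ∈ Icc 2 n, a k * Real.log k - Real.log n) / Real.log n| ≤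
      C / Real.log ((2 : ℕ) : ℝ) := by
    rw [abs_div, abs_of_pos hβ]
    exact div_le_div₀ hC (h n hn) hl h1
  have h4 : 0 ≤ (C + 1) * (1 / Real.log n) := by positivity
  have e : ∑ k ∈ Icc 2 n, a k - Real.log (Real.log n) = F 2 + (F n - F 2) +
      (∑ k ∈ Icc 2 n, a k * Real.log k - Real.log n) / Real.log n := by
    rw [hF n]
    ring
  rw [e]
  refine (abs_add_le _ _).trans (add_le_add ((abs_add_le _ _).trans ?_) h3)
  linarith

open ArithmeticFunction Classical in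
theorem hmert_first {η : ℕ → ℝ} {B κ : ℝ} (hm : ∀ s t, η (s * t) = η s * η t) (h1 : ∀ t, |η t| ≤ 1)
    (hB : ∀ n, |∑ t ∈ Icc 1 n, η t| ≤ B) (h0 : κ ≠ 0)
    (hκ : ∀ n : ℕ, |∑ t ∈ Icc 1 n, η t / t - κ| ≤ 2 * B / (n + 1)) {P : Set ℕ} {q : ℕ} (hq : q ≠ 0)
    (hP : ∀ p ∈ P, p.Prime ∧ η p = 1) (hP' : ∀ p : ℕ, p.Prime → p ∉ P → ¬p ∣ q → η p = -1) :
    ∃ C : ℝ, ∀ n : ℕ, 2 ≤ n →
      |∑ k ∈ Icc 2 n, (if k ∈ P then (2 : ℝ) / k else 0) * Real.log k - Real.log n| ≤ C := by
  obtain ⟨C₁, hC₁⟩ := mertens_one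
  obtain ⟨C₂, hC₂⟩ := mertens_eta hm h1 hB h0 hκ
  obtain ⟨C₃, hC₃⟩ := sum_nonprime
  refine ⟨C₁ + C₂ + (2 * C₃ + 2 * q), fun n hn => ?_⟩
  have e1 : ∑ k ∈ Icc 2 n, (if k ∈ P then (2 : ℝ) / k else 0) * Real.log k =
      ∑ k ∈ Icc 1 n, (if k ∈ P then (2 : ℝ) / k else 0) * Real.log k := by
    refine sum_subset (Icc_subset_Icc_left one_le_two) fun k hk hk' => ?_
    have : k = 1 := by
      simp only [mem_Icc] at hk hk'
      omega
    simp [this]
  have h2 : |∑ d ∈ Icc 1 n, (vonMangoldt d / d + η d * vonMangoldt d / d -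
      (if d ∈ P then (2 : ℝ) / d else 0) * Real.log d)| ≤ 2 * C₃ + 2 * q := by
    refine (abs_sum_le_sum_abs _ _).trans ((sum_le_sum (g := fun d : ℕ =>
      2 * (if ¬d.Prime then vonMangoldt d / d else 0) + 2 * if d ≤ q then 1 else 0)
      fun d hd => ?_).trans ?_)
    · have hd0 : (0 : ℝ) < d := by exact_mod_cast (mem_Icc.1 hd).1
      have h3 : 0 ≤ vonMangoldt d / d := div_nonneg vonMangoldt_nonneg hd0.le
      have h4 : (0 : ℝ) ≤ if d ≤ q then 1 else 0 := by positivity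
      have h5 : |vonMangoldt d / d + η d * vonMangoldt d / d| ≤ 2 * (vonMangoldt d / d) := by
        have h6 := abs_le.1 (h1 d)
        rw [mul_div_assoc, abs_le]
        constructor <;> nlinarith [h6.1, h6.2]
      by_cases hdP : d ∈ P
      · obtain ⟨h6, h7⟩ := hP d hdP
        rw [if_pos hdP, if_neg (not_not.2 h6), h7, vonMangoldt_apply_prime h6]
        have e : Real.log d / d + 1 * Real.log d / d - 2 / d * Real.log d = 0 := by ring
        rw [e, abs_zero]
        linarith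
      rw [if_neg hdP, zero_mul, sub_zero]
      by_cases hp : d.Prime
      · rw [if_neg (not_not.2 hp)]
        by_cases hdq : d ∣ q
        · rw [if_pos (Nat.le_of_dvd (Nat.pos_of_ne_zero hq) hdq)]
          have h6 : vonMangoldt d / d ≤ 1 := by
            rw [div_le_one hd0]
            exact vonMangoldt_le_log.trans ((Real.log_le_sub_one_of_pos hd0).trans (by linarith))
          linarith
        · have e : vonMangoldt d / d + -1 * vonMangoldt d / d = 0 := by ring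
          rw [hP' d hp hdP hdq, e, abs_zero]
          linarith
      · rw [if_pos hp]
        linarith
    · rw [sum_add_distrib, ← mul_sum, ← mul_sum, ← sum_filter, ← sum_filter]
      have h3 : ((Icc 1 n).filter fun d => d ≤ q).card ≤ q := by
        refine (card_le_card (t := Icc 1 q) fun d hd => ?_).trans (by simp)
        simp only [mem_filter, mem_Icc] at hd ⊢
        omega
      have h4 : (((Icc 1 n).filter fun d => d ≤ q).card : ℝ) ≤ q := by exact_mod_cast h3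
      rw [sum_const, nsmul_eq_mul, mul_one]
      linarith [hC₃ n]
  rw [sum_sub_distrib, sum_add_distrib] at h2
  have h3 := abs_le.1 (hC₁ n (by omega))
  have h4 := abs_le.1 (hC₂ n)
  have h5 := abs_le.1 h2
  rw [e1, abs_le]
  constructor <;> linarith [h3.1, h3.2, h4.1, h4.2, h5.1, h5.2]

/-- The second theorem of Mertens for the primes with `η p = 1`. -/
theorem mert_of {η : ℕ → ℝ} {B κ : ℝ} (hm : ∀ s t, η (s * t) = η s * η t) (h1 : ∀ t, |η t| ≤ 1)
    (hB : ∀ n, |∑ t ∈ Icc 1 n, η t| ≤ B) (h0 : κ ≠ 0)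
    (hκ : ∀ n : ℕ, |∑ t ∈ Icc 1 n, η t / t - κ| ≤ 2 * B / (n + 1)) {P : Set ℕ} {q : ℕ} (hq : q ≠ 0)
    (hP : ∀ p ∈ P, p.Prime ∧ η p = 1) (hP' : ∀ p : ℕ, p.Prime → p ∉ P → ¬p ∣ q → η p = -1) :
    ∃ C : ℝ, ∀ Λ : ℝ, |∑ p ∈ prs P Λ, (2 : ℝ) / p - Real.log (ly Λ)| ≤ C := by
  classical
  obtain ⟨C₁, hC₁⟩ := hmert_first hm h1 hB h0 hκ hq hP hP'
  obtain ⟨C, hC⟩ := mertens_two hC₁
  have hC0 : 0 ≤ C := (abs_nonneg _).trans (hC 2 le_rfl)
  refine ⟨C + 1, fun Λ => ?_⟩
  have e : ∑ p ∈ prs P Λ, (2 : ℝ) / p =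
      ∑ k ∈ Icc 2 ⌊Real.exp Λ⌋₊, if k ∈ P then (2 : ℝ) / k else 0 := by
    rw [← sum_filter]
    refine sum_congr ?_ fun _ _ => rfl
    ext p
    simp only [prs, mem_filter, mem_range, mem_Icc]
    exact ⟨fun h => ⟨⟨(hP p h.2).1.two_le, by omega⟩, h.2⟩, fun h => ⟨by omega, h.2⟩⟩
  rw [e]
  rcases le_or_gt 1 Λ with hΛ | hΛ
  · have hn : 2 ≤ ⌊Real.exp Λ⌋₊ := Nat.le_floor (by
      have := Real.add_one_le_exp Λ
      push_cast
      linarith)
    have h2 := Nat.floor_le (Real.exp_pos Λ).le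
    have h3 := Nat.lt_floor_add_one (Real.exp Λ)
    have h4 := abs_le.1 (hC _ hn)
    generalize ⌊Real.exp Λ⌋₊ = n at hn h2 h3 h4
    have hn' : (2 : ℝ) ≤ n := by exact_mod_cast hn
    have hβ : 0 < Real.log n := Real.log_pos (by linarith)
    have h5 : Real.log n ≤ Λ := (Real.log_le_iff_le_exp (by linarith)).2 h2
    have h6 : Λ ≤ 2 * Real.log n := by
      have h7 : Λ ≤ Real.log ((n : ℝ) ^ 2) :=
        (Real.le_log_iff_exp_le (by positivity)).2 (by nlinarith)
      rwa [Real.log_pow, Nat.cast_ofNat] at h7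
    have h7 := Real.log_le_log hβ h5
    have h8 := Real.log_le_log (by linarith) h6
    rw [Real.log_mul two_ne_zero hβ.ne'] at h8
    have h9 := Real.log_le_sub_one_of_pos (show (0 : ℝ) < 2 by norm_num)
    rw [ly, max_eq_right hΛ, abs_le]
    constructor <;> linarith [h4.1, h4.2]
  · have hn : ⌊Real.exp Λ⌋₊ < 3 := (Nat.floor_lt (Real.exp_pos Λ).le).2 (by
      have h2 := Real.exp_lt_exp.2 hΛ
      have h3 := Real.exp_one_lt_d9
      push_cast
      linarith)
    have h2 : ∀ k : ℕ, (0 : ℝ) ≤ if k ∈ P then (2 : ℝ) / k else 0 := fun k => by positivity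
    rw [ly, max_eq_left hΛ.le, Real.log_one, sub_zero,
      abs_of_nonneg (sum_nonneg fun k _ => h2 k)]
    refine (sum_le_sum_of_subset_of_nonneg (Icc_subset_Icc_right (Nat.le_of_lt_succ hn))
      fun k _ _ => h2 k).trans ?_
    rw [Icc_self, sum_singleton]
    split_ifs
    · norm_num
      exact hC0
    · linarith

end Pool.Agent.Lib.MP_bcfefa_nt
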