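import Pool.Agent.Lib.MP_bcfefa_nt.GPts
import Pool.Agent.Lib.MP_bcfefa_nt.HMert

set_option autoImplicit false

noncomputable section

namespace Pool.Agent.Lib.MP_bcfefa_nt

open Complex Finset NumberField Pool.Agent.Lib.MP_03e5d0_nt
open scoped Real

/-! The data of the family and the coefficients. Compare `HDat` (class number one). -/

variable {K : Type} [Field K] [NumberField K]

namespace Gk

variable (H : Gk K)

theorem gdat_mem {s : ℤ} (h : (nI H.f : ℤ) ∣ s) : (s : 𝓞 K) ∈ H.f := by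
  obtain ⟨k, rfl⟩ := h
  rw [Int.cast_mul, Int.cast_natCast]
  exact H.f.mul_mem_right _ (Ideal.absNorm_mem H.f)

theorem gdat_congr {s t : ℕ} (h : (s : ZMod (nI H.f)) = t) : H.X s = H.X t := by
  have h1 := H.gdat_mem ((ZMod.natCast_eq_natCast_iff _ _ _).1 h.symm).dvd
  rw [Int.cast_sub, Int.cast_natCast, Int.cast_natCast] at h1
  exact H.X_congr h1

/-- `Φ x = X (x.val)` on `ZMod (nI f)`; `nI f ∈ f`, `X_congr`, `coprime_nat`, `X_ne_zero`, `X_neg`. -/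
theorem exists_dir : ∃ (_ : NeZero (nI H.f)) (Φ : DirichletCharacter ℂ (nI H.f)),
    Φ ≠ 1 ∧ ∀ t : ℕ, Φ t = H.η t := by
  have hq : NeZero (nI H.f) := ⟨H.nf_pos.ne'⟩
  let Φ : DirichletCharacter ℂ (nI H.f) :=
    { toFun := fun x => H.X (x.val : ℕ)
      map_one' := by
        rw [H.gdat_congr (t := 1) (by rw [ZMod.natCast_zmod_val, Nat.cast_one]), Nat.cast_one,
          H.X_one]
      map_mul' := fun x y => by
        rw [H.gdat_congr (t := x.val * y.val) (by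
          rw [Nat.cast_mul, ZMod.natCast_zmod_val, ZMod.natCast_zmod_val, ZMod.natCast_zmod_val]),
          Nat.cast_mul, H.X_mul]
      map_nonunit' := fun x hx => by
        by_contra h
        have h1 := (ZMod.isUnit_iff_coprime _ _).2 (H.coprime_nat.1 (H.X_ne_zero.1 h))
        rw [ZMod.natCast_zmod_val] at h1
        exact hx h1 }
  have hΦ : ∀ x, Φ x = H.X (x.val : ℕ) := fun x => rfl
  refine ⟨hq, Φ, fun h => ?_, fun t => ?_⟩
  · have h1 : Φ (-1) = 1 := by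
      rw [h]
      exact MulChar.one_apply isUnit_one.neg
    have h2 : (nI H.f : ℤ) ∣ (((-1 : ZMod (nI H.f)).val : ℕ) : ℤ) + 1 := by
      rw [← ZMod.intCast_zmod_eq_zero_iff_dvd, Int.cast_add, Int.cast_natCast, ZMod.natCast_zmod_val,
        Int.cast_one, neg_add_cancel]
    have h3 := H.gdat_mem h2
    rw [Int.cast_add, Int.cast_natCast, Int.cast_one, ← sub_neg_eq_add] at h3
    rw [hΦ, H.X_congr h3, H.X_neg, H.X_one] at h1
    norm_num at h1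
  · rw [hΦ, H.gdat_congr (t := t) (ZMod.natCast_zmod_val _), H.X_nat]

variable {H} {ψ μ : Ideal (𝓞 K) →* ℂ} {n : ℕ}

/-- `exists_dir`, `period_bd`, `exists_kappa`, `tail_of`, `mert_of`, `exists_pts`, `GG_index`, `Rel.sep`,
`Dat.ch_z`, `nI_cE`; `G = H.GG u`. -/
theorem exists_dat {j₀ d : ℕ} (hj : 1 ≤ j₀) (hd : 0 < d) (hψ : H.IsH ψ (2 * j₀ - 1))
    (hμ : H.IsU μ (2 * d)) : ∃ D : Dat, D.P = H.P ∧ D.η = H.η ∧ D.A = H.A ∧
    ∀ (e : Xp) (r : ℕ), H.Ok e → ch e (D.z (j₀ + d * r)) *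
      ((√(Nm e) : ℝ) : ℂ) ^ (2 * (j₀ + d * r) - 1) = (ψ * μ ^ r) (H.cE e) := by
  obtain ⟨hq, Φ, hΦ, hη⟩ := H.exists_dir
  have hB := period_bd Φ hΦ hη
  obtain ⟨κ, hκ0, hκ⟩ := exists_kappa Φ hΦ hη hB
  obtain ⟨c₁, htl⟩ := tail_of hB hκ
  have hm : ∀ s t, H.η (s * t) = H.η s * H.η t := fun s t => by
    apply Complex.ofReal_injective
    rw [Complex.ofReal_mul, ← H.X_nat, ← H.X_nat, ← H.X_nat, Nat.cast_mul, H.X_mul]
  have h1 : ∀ t, |H.η t| ≤ 1 := fun t => (Complex.abs_re_le_norm _).trans (H.norm_X_le _)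
  have hme := mert_of hm h1 hB hκ0 hκ (P := H.P) hq.ne
    (fun p hp => ⟨hp.1, by rw [η, H.X_split hp, Complex.one_re]⟩)
    (fun p hp hp' hd => by
      have hc := H.coprime_nat.2 ((Nat.Prime.coprime_iff_not_dvd hp).2 hd)
      have hpr : (sp (p : 𝓞 K)).IsPrime := by
        by_contra hn
        exact hp' ⟨hp, hc, hn⟩
      rw [η, H.X_inert hp hc hpr, Complex.neg_re, Complex.one_re])
  obtain ⟨u, ζ, hu, hz⟩ := exists_pts hj hd hψ hμ
  refine ⟨⟨H.P, u, ζ, H.GG u, H.η, H.A, κ, c₁, fun p hp => hp.1, GG_index hd hμ hu,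
    ⟨H.V, H.V_pos, fun e hG h0 he => Rel.sep hG he h0⟩, hme, H.A_pos, hκ0, htl⟩,
    rfl, rfl, rfl, fun e r he => ?_⟩
  rw [Dat.ch_z, ← nI_cE he]
  exact hz e r

theorem coefI_eq (φ : Ideal (𝓞 K) → ℂ) (m : ℕ) {T : Finset (Ideal (𝓞 K))}
    (hT : ∀ I, I ∈ T ↔ nI I = m) : coefI φ m = ∑ I ∈ T, φ I := by
  have h : {I : Ideal (𝓞 K) | Ideal.absNorm I = m} = (T : Set (Ideal (𝓞 K))) := by
    ext I
    rw [Set.mem_ofPred_eq, mem_coe, hT]
  unfold coefI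
  rw [h, finsum_mem_coe_finset]

theorem IsH.coef_zero (hψ : H.IsH ψ n) : coefI ψ 0 = 0 := by
  rw [coefI_eq ψ 0 (T := {⊥}) fun I => by rw [mem_singleton, Ideal.absNorm_eq_zero_iff],
    sum_singleton]
  exact hψ.eq_zero fun h => H.ne_bot h rfl

theorem coefI_one (ψ : Ideal (𝓞 K) →* ℂ) : coefI ψ 1 = 1 := by
  rw [coefI_eq ψ 1 (T := {⊤}) fun I => by rw [mem_singleton, Ideal.absNorm_eq_one_iff],
    sum_singleton, ← Ideal.one_eq_top, map_one]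

/-- `card_ideals`, `IsH.norm_le`. -/
theorem IsH.norm_coef_le (hψ : H.IsH ψ n) :
    ∃ C : ℝ, ∀ m : ℕ, ‖coefI ψ m‖ ≤ C * (m : ℝ) ^ (n + 1) := by
  classical
  obtain ⟨C, hC, h⟩ := card_ideals (K := K)
  refine ⟨C, fun m => ?_⟩
  rcases Nat.eq_zero_or_pos m with rfl | hm
  · rw [hψ.coef_zero, norm_zero]
    positivity
  obtain ⟨T, hT, hc⟩ := h m hm
  rw [coefI_eq ψ m (T := T.filter fun I => nI I = m) fun I => by
    rw [mem_filter, hT]
    exact ⟨fun e => e.2, fun e => ⟨e.le, e⟩⟩]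
  calc _ ≤ ∑ I ∈ T.filter fun I => nI I = m, (m : ℝ) ^ n := by
        refine norm_sum_le_of_le _ fun I hI => ?_
        rw [← (mem_filter.1 hI).2]
        exact hψ.norm_le I
    _ ≤ C * m * (m : ℝ) ^ n := by
        rw [sum_const, nsmul_eq_mul]
        refine mul_le_mul_of_nonneg_right (le_trans ?_ hc) (by positivity)
        exact_mod_cast card_filter_le _ _
    _ = _ := by rw [mul_assoc, ← pow_succ']

theorem gdat_nI (t : ℕ) {e : Xp} (he : H.Ok e) : nI (sp (t : 𝓞 K) * H.cE e) = t ^ 2 * Nm e := by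
  rw [← H.nI_nat t, ← nI_cE he]
  exact map_mul Ideal.absNorm _ _

theorem gdat_le {t N Y : ℕ} (hN : 1 ≤ N) : t ≤ ⌊√((Y : ℝ) / N)⌋₊ ↔ t ^ 2 * N ≤ Y := by
  have h : (0 : ℝ) < N := by exact_mod_cast hN
  rw [Nat.le_floor_iff (Real.sqrt_nonneg _), Real.le_sqrt (Nat.cast_nonneg _) (by positivity),
    le_div_iff₀ h]
  exact_mod_cast Iff.rfl

theorem gdat_term {j : ℕ} (hj : 1 ≤ j) (hψ : H.IsH ψ (2 * j - 1)) {t : ℕ} (ht : 1 ≤ t) {e : Xp}
    (he : H.Ok e) {c : ℂ} (hc : c * ((√(Nm e) : ℝ) : ℂ) ^ (2 * j - 1) = ψ (H.cE e)) :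
    ψ (sp (t : 𝓞 K) * H.cE e) / (nI (sp (t : 𝓞 K) * H.cE e) : ℂ) ^ j =
      c * ((H.η t / t / √(Nm e) : ℝ) : ℂ) := by
  obtain ⟨i, rfl⟩ := Nat.exists_eq_add_of_le' hj
  have hN : 1 ≤ Nm e := Pm.one_le fun p hp => (he p hp).1
  have h2 : ((√(Nm e) : ℝ) : ℂ) ≠ 0 :=
    Complex.ofReal_ne_zero.2 (Real.sqrt_ne_zero'.2 (by exact_mod_cast hN))
  have h3 : (Nm e : ℂ) = ((√(Nm e) : ℝ) : ℂ) ^ 2 := by
    rw [← Complex.ofReal_pow, Real.sq_sqrt (Nat.cast_nonneg _), Complex.ofReal_natCast]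
  have h4 : (t : ℂ) ≠ 0 := Nat.cast_ne_zero.2 (by omega)
  rw [gdat_nI t he, map_mul, hψ, ← hc, H.X_nat, map_natCast, Nat.cast_mul, Nat.cast_pow, h3,
    Complex.ofReal_div, Complex.ofReal_div, Complex.ofReal_natCast,
    show 2 * (i + 1) - 1 = 2 * i + 1 by omega]
  generalize ((√(Nm e) : ℝ) : ℂ) = r at h2 ⊢
  field_simp
  ring

/-- The left side is `∑_{1 ≤ nI I ≤ Y} ψ I / nI I ^ j`; only the `I` prime to `f` count. These are the
`sp t * cE e` with `t ^ 2 Nm e ≤ Y` and `t` prime to `f` (`exists_cE`, `cE_unique`); the term is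
`η t / t * ch e / √(Nm e)`. -/
theorem IsH.sum_coef {D : Dat} (hP : D.P = H.P) (hη : D.η = H.η) {j : ℕ} (hj : 1 ≤ j)
    (hψ : H.IsH ψ (2 * j - 1))
    (hz : ∀ e : Xp, H.Ok e → ch e (D.z j) * ((√(Nm e) : ℝ) : ℂ) ^ (2 * j - 1) = ψ (H.cE e)) (Y : ℕ) :
    ∑ m ∈ Icc 1 Y, coefI ψ m / (m : ℂ) ^ j = D.TT Y (D.z j) := by
  classical
  have hOk : ∀ e, D.Ok e ↔ H.Ok e := fun e => by
    unfold Dat.Ok Ok
    rw [hP]
  have hN : ∀ e, H.Ok e → 1 ≤ Nm e := fun e he => Pm.one_le fun p hp => (he p hp).1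
  rcases Nat.eq_zero_or_pos Y with rfl | hY
  · have : D.E ((0 : ℕ) : ℝ) = ∅ := eq_empty_of_forall_notMem fun e he => by
      obtain ⟨a, b⟩ := D.mem_E.1 he
      have h1 := hN e ((hOk e).1 a)
      have h2 : Nm e ≤ 0 := by exact_mod_cast b
      omega
    rw [Dat.TT, this, sum_empty, Icc_eq_empty (by omega), sum_empty]
  obtain ⟨C, -, hC⟩ := card_ideals (K := K)
  obtain ⟨T, hT, -⟩ := hC Y hY
  set F : Ideal (𝓞 K) → ℂ := fun I => ψ I / (nI I : ℂ) ^ j with hF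
  set S := (D.E Y).sigma fun e => Icc 1 ⌊√((Y : ℝ) / Nm e)⌋₊ with hS
  set g : (Σ _ : Xp, ℕ) → Ideal (𝓞 K) := fun x => sp (x.2 : 𝓞 K) * H.cE x.1 with hg
  have hmS : ∀ x : (Σ _ : Xp, ℕ), x ∈ S ↔ H.Ok x.1 ∧ 1 ≤ x.2 ∧ x.2 ^ 2 * Nm x.1 ≤ Y := fun x => by
    rw [hS, mem_sigma, D.mem_E, hOk, mem_Icc]
    constructor
    · rintro ⟨⟨a, _⟩, c, d⟩
      exact ⟨a, c, (gdat_le (hN _ a)).1 d⟩
    · rintro ⟨a, c, d⟩
      refine ⟨⟨a, ?_⟩, c, (gdat_le (hN _ a)).2 d⟩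
      exact_mod_cast (Nat.le_mul_of_pos_left _ (pow_pos c 2)).trans d
  have e1 : ∑ m ∈ Icc 1 Y, coefI ψ m / (m : ℂ) ^ j =
      ∑ I ∈ T.filter fun I => nI I ∈ Icc 1 Y, F I := by
    rw [← sum_fiberwise_eq_sum_filter]
    refine sum_congr rfl fun m hm => ?_
    rw [coefI_eq ψ m (T := T.filter fun I => nI I = m) fun I => by
      rw [mem_filter, hT]
      exact ⟨fun e => e.2, fun e => ⟨e.le.trans (mem_Icc.1 hm).2, e⟩⟩, sum_div]
    refine sum_congr rfl fun I hI => ?_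
    rw [hF, ← (mem_filter.1 hI).2]
  have e2 : ∑ I ∈ S.image g, F I = ∑ I ∈ T.filter fun I => nI I ∈ Icc 1 Y, F I := by
    refine sum_subset (fun I hI => ?_) fun I hI hn => ?_
    · obtain ⟨x, hx, rfl⟩ := mem_image.1 hI
      obtain ⟨a, c, d⟩ := (hmS x).1 hx
      have e : nI (g x) = x.2 ^ 2 * Nm x.1 := gdat_nI _ a
      rw [mem_filter, hT, mem_Icc, e]
      exact ⟨d, Nat.mul_pos (pow_pos c 2) (hN _ a), d⟩
    · have h0 : ψ I = 0 := by
        refine hψ.eq_zero fun h0 => ?_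
        obtain ⟨t, e, ht, he, rfl⟩ := exists_cE h0
        refine hn (mem_image.2 ⟨⟨e, t⟩, (hmS _).2 ⟨he, ht, ?_⟩, rfl⟩)
        have := (mem_Icc.1 (mem_filter.1 hI).2).2
        rwa [gdat_nI t he] at this
      rw [hF]
      simp only [h0, zero_div]
  have e3 : ∑ I ∈ S.image g, F I = ∑ x ∈ S, F (g x) := by
    refine sum_image ?_
    rintro ⟨e, t⟩ hx ⟨e', t'⟩ hy h
    obtain ⟨a, c, _⟩ := (hmS _).1 hx
    obtain ⟨a', c', _⟩ := (hmS _).1 hy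
    obtain ⟨rfl, rfl⟩ := cE_unique c c' a a' h
    rfl
  rw [e1, ← e2, e3, hS, sum_sigma, Dat.TT]
  refine sum_congr rfl fun e he => ?_
  have he' := (hOk e).1 (D.mem_E.1 he).1
  rw [t0, sum_div, Complex.ofReal_sum, mul_sum, hη]
  exact sum_congr rfl fun t ht => gdat_term hj hψ (mem_Icc.1 ht).1 he' (hz e he')

/-- `summable_ideals`, `IsH.norm_le`. -/
theorem IsH.summable (hψ : H.IsH ψ n) {y : ℝ} (hy : 0 < y) : Summable fun I : Ideal (𝓞 K) =>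
    ‖ψ I * (Real.exp (-(nI I * y / H.A)) : ℝ)‖ := by
  refine Summable.of_nonneg_of_le (fun _ => norm_nonneg _) (fun I => ?_)
    (summable_ideals (K := K) n (div_pos hy H.A_pos))
  rw [norm_mul, Complex.norm_real, Real.norm_of_nonneg (Real.exp_pos _).le, mul_div_assoc]
  exact mul_le_mul_of_nonneg_right (hψ.norm_le I) (Real.exp_pos _).le

/-- Group the terms by the norm (`HasSum.tsum_fiberwise`); the fibres are finite. -/
theorem IsH.hasSum (hψ : H.IsH ψ n) {y : ℝ} (hy : 0 < y) :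
    HasSum (fun m : ℕ => coefI ψ m * (Real.exp (-(m * y / H.A)) : ℝ)) (H.Th ψ y) := by
  have h1 := (hψ.summable hy).of_norm.hasSum.tsum_fiberwise fun I : Ideal (𝓞 K) => nI I
  have e : (fun m : ℕ => coefI ψ m * (Real.exp (-(m * y / H.A)) : ℝ)) =
      fun m : ℕ => ∑' b : (fun I : Ideal (𝓞 K) => nI I) ⁻¹' {m},
        ψ b * (Real.exp (-(nI (b : Ideal (𝓞 K)) * y / H.A)) : ℝ) := by
    funext m
    obtain ⟨T, hT⟩ := (finite_nI (K := K) m).exists_finset_coe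
    have hT' : ∀ I, I ∈ T ↔ nI I = m := fun I => by
      rw [← mem_coe, hT, Set.mem_ofPred_eq]
    have hset : (fun I : Ideal (𝓞 K) => nI I) ⁻¹' {m} = (T : Set (Ideal (𝓞 K))) := by
      ext I
      rw [Set.mem_preimage, Set.mem_singleton_iff, mem_coe, hT']
    rw [coefI_eq ψ m hT', hset, sum_mul, Finset.tsum_subtype' T fun b : Ideal (𝓞 K) =>
      ψ b * (Real.exp (-(nI b * y / H.A)) : ℝ)]
    refine sum_congr rfl fun b hb => ?_
    rw [(hT' b).1 hb]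
  rw [e]
  exact h1

end Gk

end Pool.Agent.Lib.MP_bcfefa_nt
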