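import Pool.Agent.Lib.MP_bcfefa_nt.GStm
import Pool.Agent.Lib.MP_bcfefa_nt.Def

set_option autoImplicit false

noncomputable section

namespace Pool.Agent.Lib.MP_bcfefa_nt

open Complex Finset NumberField Pool.Agent.Lib.MP_03e5d0_nt
open scoped Real

/-! Definitions for the arithmetic part, arbitrary class number. -/

/-- An imaginary quadratic field with an embedding and a generator of its ring of integers. -/
structure Rk (K : Type) [Field K] [NumberField K] where
  σ : K →+* ℂ
  w : 𝓞 K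
  a : ℤ
  b : ℤ
  sq : w ^ 2 = a + b * w
  im_pos : 0 < (σ w).im
  gen : ∀ α : 𝓞 K, ∃ x y : ℤ, α = x + y * w

/-- The same with a primitive character of trivial nebentype. -/
structure Gk (K : Type) [Field K] [NumberField K] extends Rk K where
  f : Ideal (𝓞 K)
  f_ne : f ≠ ⊥
  χ : MulChar (𝓞 K ⧸ f) ℂ
  prim : IsPrimI f χ
  neb : ∀ p : ℕ, p.Prime → IsCoprime (Ideal.span {(p : 𝓞 K)}) f →
    χ (Ideal.Quotient.mk f (p : 𝓞 K)) = epsK K p
  odd : χ (Ideal.Quotient.mk f (-1)) = -1

variable {K : Type} [Field K] [NumberField K]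

/-- The principal ideal generated by `α`. -/
abbrev sp (α : 𝓞 K) : Ideal (𝓞 K) := Ideal.span {α}

/-- The norm of an ideal. -/
abbrev nI (I : Ideal (𝓞 K)) : ℕ := Ideal.absNorm I

namespace Rk

variable (R : Rk K)

/-- The embedding of the ring of integers. -/
def ι : 𝓞 K →+* ℂ := R.σ.comp (algebraMap (𝓞 K) K)

/-- The covolume of the ring of integers. -/
def V : ℝ := (R.ι R.w).im

/-- An unramified character of the ideals of infinity type `d`. -/
def IsU (μ : Ideal (𝓞 K) →* ℂ) (d : ℕ) : Prop := ∀ α : 𝓞 K, μ (sp α) = R.ι α ^ d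

end Rk

namespace Gk

variable (H : Gk K)

/-- The character as a function on the ring. -/
def X (α : 𝓞 K) : ℂ := H.χ (Ideal.Quotient.mk H.f α)

/-- A character of the ideals with finite part `χ` and infinity type `n`. -/
def IsH (ψ : Ideal (𝓞 K) →* ℂ) (n : ℕ) : Prop := ∀ α : 𝓞 K, ψ (sp α) = H.X α * H.ι α ^ n

/-- The split primes that are prime to the conductor. -/
def P : Set ℕ := {p | p.Prime ∧ IsCoprime (sp (p : 𝓞 K)) H.f ∧ ¬(sp (p : 𝓞 K)).IsPrime}

open Classical in
/-- An ideal of norm `p` for `p` in `H.P`, the unit ideal otherwise. -/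
def pI (p : ℕ) : Ideal (𝓞 K) :=
  if h : p ∈ H.P ∧ ∃ I : Ideal (𝓞 K), nI I = p then h.2.choose else ⊤

/-- The restriction of the character to the integers. -/
def η (t : ℕ) : ℝ := (H.X t).re

/-- The scale `√N / (2 π)`, where `N` is the level. -/
def A : ℝ := √(|(discr K : ℝ)| * nI H.f) / (2 * π)

/-- The theta series on the imaginary axis. -/
def Th (ψ : Ideal (𝓞 K) →* ℂ) (y : ℝ) : ℂ :=
  ∑' I : Ideal (𝓞 K), ψ I * (Real.exp (-(nI I * y / H.A)) : ℝ)

open Classical in
/-- The part of the theta series given by the ideals `I` such that `c * I` is principal. -/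
def Sc (ψ : Ideal (𝓞 K) →* ℂ) (c : Ideal (𝓞 K)) (y : ℝ) : ℂ :=
  ∑' I : Ideal (𝓞 K), if (c * I).IsPrincipal then ψ I * (Real.exp (-(nI I * y / H.A)) : ℝ) else 0

end Gk

end Pool.Agent.Lib.MP_bcfefa_nt
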