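import Pool.Agent.Lib.MP_bcfefa_nt.GChar

set_option autoImplicit false

noncomputable section

namespace Pool.Agent.Lib.MP_bcfefa_nt

open Complex Finset NumberField Pool.Agent.Lib.MP_03e5d0_nt
open scoped Real

/-! Gauss sums and the root number. Compare `HTh` (class number one). -/

variable {K : Type} [Field K] [NumberField K]

namespace Gk

variable (H : Gk K)

/-- The additive character modulo the norm of the conductor. -/
def ad (α : 𝓞 K) : ℂ := cexp (2 * π * I * ((H.ι α).im / (nI H.f * H.V) : ℝ))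

theorem ad_add (α β : 𝓞 K) : H.ad (α + β) = H.ad α * H.ad β := by
  unfold ad
  rw [← Complex.exp_add, map_add, Complex.add_im, add_div]
  congr 1
  push_cast
  ring

theorem ggs_ad_one {γ : 𝓞 K} (h : γ ∈ H.f * H.f) : H.ad γ = 1 := by
  rw [H.f_mul_f, Ideal.mem_span_singleton'] at h
  obtain ⟨c, rfl⟩ := h
  obtain ⟨y, hy⟩ := H.im_int c
  have hN : (nI H.f : ℝ) ≠ 0 := by exact_mod_cast H.nf_pos.ne'
  have hV : H.V ≠ 0 := H.V_pos.ne'
  have e : (H.ι (c * (nI H.f : 𝓞 K))).im / (nI H.f * H.V) = y := by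
    rw [map_mul, map_natCast, Complex.mul_im, Complex.natCast_re, Complex.natCast_im, hy]
    field_simp
    ring
  unfold ad
  rw [e, Complex.ofReal_intCast, mul_comm]
  exact Complex.exp_int_mul_two_pi_mul_I y

/-- `f_mul_f`, `im_int`. -/
theorem ad_congr {α β : 𝓞 K} (h : α - β ∈ H.f * H.f) : H.ad α = H.ad β := by
  have e : α = (α - β) + β := by ring
  rw [e, H.ad_add, H.ggs_ad_one h, one_mul]

theorem norm_ad (α : 𝓞 K) : ‖H.ad α‖ = 1 := by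
  unfold ad
  generalize (H.ι α).im / (nI H.f * H.V) = t
  rw [Complex.norm_exp]
  simp

/-- The Gauss sum. -/
def gs (δ : 𝓞 K) : ℂ := ∑ᶠ s : 𝓞 K ⧸ H.f, H.χ s * H.ad (s.out * H.cj δ)

variable {H} {ψ μ : Ideal (𝓞 K) →* ℂ} {n d : ℕ} {δ : 𝓞 K} {J : Ideal (𝓞 K)}

theorem ggs_cj_mem (hδ : δ ∈ H.f) : H.cj δ ∈ H.f := by
  rw [← H.mem_cI, H.cI_f]
  exact hδ

theorem ggs_subst (hδ : δ ∈ H.f) {b : 𝓞 K} (hb : IsCoprime (sp b) H.f) :
    H.gs δ = H.X b * ∑ᶠ s : 𝓞 K ⧸ H.f, H.χ s * H.ad (s.out * b * H.cj δ) := by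
  have := H.finite_quot
  have := Fintype.ofFinite (𝓞 K ⧸ H.f)
  obtain ⟨u, hu⟩ := H.isUnit_mk.2 hb
  unfold gs
  rw [finsum_eq_sum_of_fintype, finsum_eq_sum_of_fintype, Finset.mul_sum,
    ← Equiv.sum_comp (Units.mulRight u)]
  refine Finset.sum_congr rfl fun s _ => ?_
  rw [Units.mulRight_apply, hu, map_mul, X]
  have e : H.ad ((s * Ideal.Quotient.mk H.f b).out * H.cj δ) = H.ad (s.out * b * H.cj δ) := by
    apply H.ad_congr
    rw [← sub_mul]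
    refine Ideal.mul_mem_mul ?_ (ggs_cj_mem hδ)
    rw [← Ideal.Quotient.eq, map_mul, Ideal.Quotient.mk_out, Ideal.Quotient.mk_out]
  rw [e]
  ring

omit [NumberField K] in
theorem ggs_self (α : 𝓞 K) : α ∈ sp α := Ideal.mem_span_singleton_self α

omit [NumberField K] in
theorem ggs_sp_mul (α β : 𝓞 K) : sp (α * β) = sp α * sp β :=
  (Ideal.span_singleton_mul_span_singleton α β).symm

theorem ggs_mem (h : sp δ = H.f * J) : δ ∈ H.f := by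
  have h1 := ggs_self δ
  rw [h] at h1
  exact Ideal.dvd_iff_le.1 (dvd_mul_right _ _) h1

/-- Substitute `s ↦ s * cj a` in `gs δ`; `cj δ ∈ f`, `X_cj`, `norm_X`. -/
theorem gs_mul (hδ : δ ∈ H.f) {a : 𝓞 K} (ha : IsCoprime (sp a) H.f) :
    H.gs (δ * a) = H.X a * H.gs δ := by
  have hb : IsCoprime (sp (H.cj a)) H.f := by
    rw [← H.cI_sp]
    exact H.coprime_cI.2 ha
  have e : ∑ᶠ s : 𝓞 K ⧸ H.f, H.χ s * H.ad (s.out * H.cj a * H.cj δ) = H.gs (δ * a) := by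
    unfold gs
    refine finsum_congr fun s => ?_
    rw [map_mul, mul_assoc, mul_comm (H.cj a)]
  rw [ggs_subst hδ hb, e, ← mul_assoc, H.X_cj, Complex.mul_conj, Complex.normSq_eq_norm_sq,
    H.norm_X ha]
  simp

/-- Let `g = J ⊔ f ≠ ⊤`, `f = g * d`; then `f < d`, so `f < cI d`, and `H.prim` gives `a` prime to `f` with
`a - 1 ∈ cI d`, `X a ≠ 1`. Then `(a - 1) * cj δ ∈ cI d * cI f * cI g = f * f`, so the substitution
`s ↦ a s` gives `gs δ = X a * gs δ`. -/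
theorem gs_eq_zero (h : sp δ = H.f * J) (hJ : ¬IsCoprime J H.f) : H.gs δ = 0 := by
  have hg : J ⊔ H.f ≠ ⊤ := fun h' => hJ (Ideal.isCoprime_iff_sup_eq.2 h')
  obtain ⟨e, he⟩ : J ⊔ H.f ∣ H.f := Ideal.dvd_iff_le.2 le_sup_right
  have h1 : H.f ≤ e := Ideal.dvd_iff_le.1 (Dvd.intro_left _ he.symm)
  have h2 : H.f ≠ e := by
    intro h'
    rw [← h'] at he
    apply hg
    have h3 : (J ⊔ H.f) * H.f = ⊤ * H.f := by rw [← he, Ideal.top_mul]
    exact mul_right_cancel₀ H.f_ne h3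
  have h3 : H.f < H.cI e := by
    refine lt_of_le_of_ne ?_ ?_
    · have := H.cI_mono h1
      rwa [H.cI_f] at this
    · intro h'
      apply h2
      have := congrArg H.cI h'
      rwa [H.cI_cI, H.cI_f] at this
  obtain ⟨a, ha, ha1, ha2⟩ := H.prim _ h3
  have h4 : H.cj δ ∈ H.f * H.cI (J ⊔ H.f) := by
    have h5 : δ ∈ H.f * (J ⊔ H.f) := by
      have h1 := ggs_self δ
      rw [h] at h1
      exact Ideal.mul_mono_right le_sup_left h1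
    have h6 : H.cj δ ∈ H.cI (H.f * (J ⊔ H.f)) := by
      rw [H.mem_cI, H.cj_cj]
      exact h5
    rwa [H.cI_mul, H.cI_f] at h6
  have h7 : H.cI e * (H.f * H.cI (J ⊔ H.f)) = H.f * H.f := by
    have h8 : H.cI (J ⊔ H.f) * H.cI e = H.f := by rw [← H.cI_mul, ← he, H.cI_f]
    calc H.cI e * (H.f * H.cI (J ⊔ H.f)) = H.f * (H.cI (J ⊔ H.f) * H.cI e) := by ring
      _ = H.f * H.f := by rw [h8]
  have h9 : (a - 1) * H.cj δ ∈ H.f * H.f := h7 ▸ Ideal.mul_mem_mul ha1 h4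
  have e1 : ∑ᶠ s : 𝓞 K ⧸ H.f, H.χ s * H.ad (s.out * a * H.cj δ) = H.gs δ := by
    unfold gs
    refine finsum_congr fun s => ?_
    congr 1
    apply H.ad_congr
    have e2 : s.out * a * H.cj δ - s.out * H.cj δ = s.out * ((a - 1) * H.cj δ) := by ring
    rw [e2]
    exact Ideal.mul_mem_left _ _ h9
  have e3 := ggs_subst (ggs_mem h) ha
  rw [e1] at e3
  have e4 : (1 - H.X a) * H.gs δ = 0 := by linear_combination e3
  rcases mul_eq_zero.1 e4 with h' | h'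
  · exact absurd (sub_eq_zero.1 h').symm ha2
  · exact h'

/-- If `J` is not prime to `f` both sides vanish. Otherwise `sp δ * J₀ = sp δ₀ * J`; multiply by `cI J₀`:
`δ * nI J₀ = δ₀ * a` with `sp a = J * cI J₀`; `gs_mul` twice, `X_nI`, `IsH.mul_cI`. -/
theorem gs_key (hψ : H.IsH ψ n) {δ₀ : 𝓞 K} {J₀ : Ideal (𝓞 K)} (h₀ : sp δ₀ = H.f * J₀)
    (hJ₀ : IsCoprime J₀ H.f) (h : sp δ = H.f * J) :
    H.ι δ ^ n * H.gs δ * ψ J₀ = H.ι δ₀ ^ n * H.gs δ₀ * ψ J := by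
  by_cases hJ : IsCoprime J H.f
  swap
  · rw [gs_eq_zero h hJ, hψ.eq_zero hJ]
    simp
  have hc₀ : IsCoprime (H.cI J₀) H.f := H.coprime_cI.2 hJ₀
  have e1 : sp (δ * (nI J₀ : 𝓞 K)) = sp δ₀ * (J * H.cI J₀) := by
    rw [ggs_sp_mul, ← H.mul_cI, h, h₀]
    ring
  have e2 : δ * (nI J₀ : 𝓞 K) ∈ sp δ₀ := by
    have h1 := ggs_self (δ * (nI J₀ : 𝓞 K))
    rw [e1] at h1
    exact Ideal.dvd_iff_le.1 (dvd_mul_right _ _) h1
  obtain ⟨a, ha⟩ := Ideal.mem_span_singleton'.1 e2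
  have hne : sp δ₀ ≠ ⊥ := by
    rw [h₀]
    exact mul_ne_zero H.f_ne (H.ne_bot hJ₀)
  have e3 : sp a = J * H.cI J₀ := by
    apply mul_left_cancel₀ hne
    rw [← e1, ← ha, mul_comm a, ggs_sp_mul]
  have c1 : IsCoprime (sp a) H.f := by
    rw [e3]
    exact hJ.mul_left hc₀
  have c2 : IsCoprime (sp (nI J₀ : 𝓞 K)) H.f := by
    rw [← H.mul_cI]
    exact hJ₀.mul_left hc₀
  have g1 := gs_mul (ggs_mem h) c2
  have g2 := gs_mul (ggs_mem h₀) c1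
  rw [H.X_nI hJ₀, one_mul, ← ha, mul_comm a, g2] at g1
  have g3 := hψ a
  rw [e3, map_mul] at g3
  have g4 := hψ.mul_cI hJ₀
  have g5 : H.ι a ^ n * H.ι δ₀ ^ n = H.ι δ ^ n * (nI J₀ : ℂ) ^ n := by
    rw [← mul_pow, ← mul_pow, ← map_mul, ha, map_mul, map_natCast]
  apply mul_right_cancel₀ (hψ.ne_zero hc₀)
  rw [← g1]
  linear_combination (H.ι δ ^ n * H.X a * H.gs δ₀) * g4 - (H.ι δ₀ ^ n * H.gs δ₀) * g3 -
    (H.X a * H.gs δ₀) * g5

variable (H) in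
/-- `exists_rep`. -/
theorem exists_base : ∃ q : 𝓞 K × Ideal (𝓞 K), sp q.1 = H.f * q.2 ∧ IsCoprime q.2 H.f := by
  obtain ⟨c, γ, h1, -, h2⟩ := exists_rep H.f_ne H.f_ne
  exact ⟨(γ, c), h2, h1⟩

variable (H) in
theorem ggs_sqrt_ne : ((√(nI H.f) : ℝ) : ℂ) ≠ 0 := by
  have h : (0 : ℝ) < nI H.f := by exact_mod_cast H.nf_pos
  exact Complex.ofReal_ne_zero.2 (Real.sqrt_pos.2 h).ne'

variable (H ψ n) in
/-- The root number. -/
def W : ℂ := H.ι H.exists_base.choose.1 ^ n * H.gs H.exists_base.choose.1 /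
  (ψ H.exists_base.choose.2 * ((√(nI H.f) : ℝ) : ℂ) ^ (n + 1))

theorem IsH.gs_eq (hψ : H.IsH ψ n) (h : sp δ = H.f * J) :
    H.ι δ ^ n * H.gs δ = H.W ψ n * ((√(nI H.f) : ℝ) : ℂ) ^ (n + 1) * ψ J := by
  obtain ⟨h₀, hJ₀⟩ := H.exists_base.choose_spec
  have k := gs_key hψ h₀ hJ₀ h
  have n1 := hψ.ne_zero hJ₀
  have n2 := pow_ne_zero (n + 1) H.ggs_sqrt_ne
  unfold W
  apply mul_right_cancel₀ n1
  rw [k]
  field_simp

/-- `ι δ₀ ^ d = μ f * μ J₀` and `μ f ^ 2 = nI f ^ d` (`IsU.mul_cI`, `cI_f`). -/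
theorem W_mul (hμ : H.IsU μ d) (r : ℕ) : H.W (ψ * μ ^ (2 * r)) (n + d * (2 * r)) = H.W ψ n := by
  obtain ⟨h₀, hJ₀⟩ := H.exists_base.choose_spec
  unfold W
  generalize H.exists_base.choose.1 = δ₀ at *
  generalize H.exists_base.choose.2 = J₀ at *
  have n1 := hμ.ne_zero (H.ne_bot hJ₀)
  have n2 := H.ggs_sqrt_ne
  have e1 := hμ δ₀
  rw [h₀, map_mul] at e1
  have e2 := hμ.mul_cI H.f
  rw [H.cI_f] at e2
  have e3 : ((√(nI H.f) : ℝ) : ℂ) ^ 2 = (nI H.f : ℂ) := by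
    rw [← Complex.ofReal_pow, Real.sq_sqrt (Nat.cast_nonneg _), Complex.ofReal_natCast]
  generalize ((√(nI H.f) : ℝ) : ℂ) = s at *
  have e4 : H.ι δ₀ ^ (d * (2 * r)) = μ J₀ ^ (2 * r) * s ^ (d * (2 * r)) := by
    rw [pow_mul (H.ι δ₀), ← e1, mul_pow, pow_mul (μ H.f), pow_two (μ H.f), e2, ← e3]
    ring
  have n3 : μ J₀ ^ (2 * r) * s ^ (d * (2 * r)) ≠ 0 := mul_ne_zero (pow_ne_zero _ n1) (pow_ne_zero _ n2)
  rw [← mul_div_mul_right (H.ι δ₀ ^ n * H.gs δ₀) _ n3, pow_add (H.ι δ₀), e4, MonoidHom.mul_apply,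
    MonoidHom.pow_apply]
  congr 1 <;> ring

end Gk

end Pool.Agent.Lib.MP_bcfefa_nt
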