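import Pool.Agent.Lib.MP_bcfefa_nt.GRing

set_option autoImplicit false

noncomputable section

namespace Pool.Agent.Lib.MP_bcfefa_nt

open Complex Finset NumberField Pool.Agent.Lib.MP_03e5d0_nt
open scoped Real

/-! Ideals: conjugation, prime ideals, classes, counting. -/

variable {K : Type} [Field K] [NumberField K]

namespace Rk

variable (R : Rk K)

/-- The conjugate ideal. -/
def cI (I : Ideal (𝓞 K)) : Ideal (𝓞 K) := I.map R.cj

theorem gidl_mem {I : Ideal (𝓞 K)} {α : 𝓞 K} : α ∈ R.cI I ↔ R.cj α ∈ I := by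
  constructor
  · intro h
    obtain ⟨x, hx, rfl⟩ :=
      (Ideal.mem_map_iff_of_surjective R.cj fun y => ⟨R.cj y, R.cj_cj y⟩).1 h
    rwa [R.cj_cj]
  · intro h
    have := Ideal.mem_map_of_mem R.cj h
    rwa [R.cj_cj] at this

theorem cI_cI (I : Ideal (𝓞 K)) : R.cI (R.cI I) = I := by
  ext α
  rw [gidl_mem, gidl_mem, R.cj_cj]

theorem mem_cI {I : Ideal (𝓞 K)} {α : 𝓞 K} : α ∈ R.cI I ↔ R.cj α ∈ I := R.gidl_mem

theorem cI_mul (I J : Ideal (𝓞 K)) : R.cI (I * J) = R.cI I * R.cI J :=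
  Ideal.map_mul _ I J

theorem cI_top : R.cI ⊤ = ⊤ := Ideal.map_top _

theorem cI_pow (I : Ideal (𝓞 K)) (n : ℕ) : R.cI (I ^ n) = R.cI I ^ n :=
  Ideal.map_pow _ I n

theorem cI_prod {ι : Type} (S : Finset ι) (g : ι → Ideal (𝓞 K)) :
    R.cI (∏ i ∈ S, g i) = ∏ i ∈ S, R.cI (g i) :=
  map_prod (Ideal.mapHom R.cj) g S

theorem cI_sp (α : 𝓞 K) : R.cI (sp α) = sp (R.cj α) := by
  rw [cI, Ideal.map_span, Set.image_singleton]

theorem cI_nat (t : ℕ) : R.cI (sp (t : 𝓞 K)) = sp (t : 𝓞 K) := by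
  rw [cI_sp, map_natCast]

theorem cI_mono {I J : Ideal (𝓞 K)} (h : I ≤ J) : R.cI I ≤ R.cI J := Ideal.map_mono h

theorem cI_eq_bot {I : Ideal (𝓞 K)} : R.cI I = ⊥ ↔ I = ⊥ := by
  have hb : R.cI ⊥ = ⊥ := Ideal.map_bot
  constructor
  · intro h
    rw [← R.cI_cI I, h, hb]
  · rintro rfl
    exact hb

theorem cI_prime {I : Ideal (𝓞 K)} (h : I.IsPrime) : (R.cI I).IsPrime := by
  have e : R.cI I = I.comap R.cj := by
    ext α
    rw [mem_cI, Ideal.mem_comap]
  rw [e]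
  exact Ideal.comap_isPrime _ _

theorem cI_coprime {I J : Ideal (𝓞 K)} (h : IsCoprime I J) : IsCoprime (R.cI I) (R.cI J) :=
  h.map (Ideal.mapHom R.cj)

/-- Conjugation as a ring automorphism. -/
def gidl_eqv : 𝓞 K ≃+* 𝓞 K :=
  RingEquiv.ofRingHom R.cj R.cj (RingHom.ext R.cj_cj) (RingHom.ext R.cj_cj)

/-- The quotients are isomorphic (`Ideal.quotientEquiv`). -/
theorem nI_cI (I : Ideal (𝓞 K)) : nI (R.cI I) = nI I := by
  rw [nI, nI, Ideal.absNorm_apply, Ideal.absNorm_apply, Submodule.cardQuot_apply,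
    Submodule.cardQuot_apply]
  exact (Nat.card_congr (Ideal.quotientEquiv I (R.cI I) R.gidl_eqv rfl).toEquiv).symm

/-- `q` contains its norm, hence a rational prime `p`; `sp p = q * q'` and `nI q * nI q' = p ^ 2`. If
`nI q = p ^ 2` then `q = sp p`. If `nI q = p = nI q'`, both are prime (`Ideal.prime_of_irreducible_absNorm`);
for `α ∈ q` the integer `α * cj α` lies in `q`, so it is divisible by `p` and lies in `q'`. Hence
`q ⊆ q' ∪ cI q'`, so `q = q'` (then `cI q ∣ q ^ 2`) or `q = cI q'`. -/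
theorem prime_cases {q : Ideal (𝓞 K)} (h : q.IsPrime) (h0 : q ≠ ⊥) : ∃ p : ℕ, p.Prime ∧
    (q = sp (p : 𝓞 K) ∨
      (¬(sp (p : 𝓞 K)).IsPrime ∧ nI q = p ∧ q * R.cI q = sp (p : 𝓞 K))) := by
  have hmax : q.IsMaximal := h.isMaximal h0
  obtain ⟨p, n, hn, hpq, hp, hN⟩ := Ideal.exists_prime_and_absNorm_eq_pow q
  refine ⟨p, hp, ?_⟩
  have hle : sp (p : 𝓞 K) ≤ q := (Ideal.span_singleton_le_iff_mem _).2 hpq
  obtain ⟨q', hq'⟩ := Ideal.dvd_iff_le.2 hle
  have hnorm : p ^ 2 = p ^ n * nI q' := by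
    rw [← R.nI_nat p, hq', nI, map_mul, hN]
  obtain ⟨k, -, hk⟩ := (Nat.dvd_prime_pow hp).1 (Dvd.intro_left _ hnorm.symm)
  have hnk : 2 = n + k := by
    rw [hk, ← pow_add] at hnorm
    exact Nat.pow_right_injective hp.two_le hnorm
  rcases Nat.eq_zero_or_pos k with rfl | hk0
  · left
    rw [pow_zero, nI, Ideal.absNorm_eq_one_iff] at hk
    rw [hq', hk, Ideal.mul_top]
  · right
    obtain rfl : n = 1 := by omega
    obtain rfl : k = 1 := by omega
    rw [pow_one] at hN hk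
    have hp0 : sp (p : 𝓞 K) ≠ ⊥ := by
      rw [Ne, Ideal.span_singleton_eq_bot]
      exact_mod_cast hp.ne_zero
    have hq'p : q'.IsPrime := Ideal.isPrime_of_irreducible_absNorm (by rw [← nI, hk]; exact hp)
    refine ⟨fun hP => ?_, hN, ?_⟩
    · have e : sp (p : 𝓞 K) = q := (hP.isMaximal hp0).eq_of_le h.ne_top hle
      have h2 := R.nI_nat p
      rw [e, nI, hN] at h2
      have := hp.two_le
      nlinarith
    · have hsub : (q : Set (𝓞 K)) ⊆ q' ∪ R.cI q' := by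
        intro α hα
        have h1 : α * R.cj α ∈ q := q.mul_mem_right _ hα
        rw [R.mul_cj] at h1
        have h2 : p ∣ nI (sp α) := by
          by_contra hnd
          have hc : IsCoprime ((p : ℕ) : 𝓞 K) ((nI (sp α) : ℕ) : 𝓞 K) :=
            Nat.Coprime.cast ((Nat.Prime.coprime_iff_not_dvd hp).2 hnd)
          obtain ⟨u, v, huv⟩ := hc
          exact h.ne_top ((Ideal.eq_top_iff_one _).2
            (huv ▸ q.add_mem (q.mul_mem_left _ hpq) (q.mul_mem_left _ h1)))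
        have h3 : α * R.cj α ∈ q' := by
          rw [R.mul_cj]
          have hl : sp (p : 𝓞 K) ≤ q' := hq' ▸ Ideal.mul_le_right
          exact hl (Ideal.mem_span_singleton.2 (Nat.cast_dvd_cast h2))
        rcases hq'p.mem_or_mem h3 with h4 | h4
        · exact Or.inl h4
        · exact Or.inr (R.mem_cI.2 h4)
      rcases Ideal.subset_union.1 hsub with h5 | h5
      · have e : q = q' := hmax.eq_of_le hq'p.ne_top h5
        subst e
        have hc : (R.cI q).IsPrime := R.cI_prime h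
        have h6 : q * q ≤ R.cI q := by
          rw [← hq', ← R.cI_nat p]
          exact R.cI_mono hle
        have h7 : q ≤ R.cI q := by
          rcases hc.mul_le.1 h6 with h7 | h7 <;> exact h7
        rw [← hmax.eq_of_le hc.ne_top h7, hq']
      · have e : q = R.cI q' := hmax.eq_of_le (R.cI_prime hq'p).ne_top h5
        rw [hq']
        congr 1
        rw [e, R.cI_cI]

/-- Induction on the factorisation (`UniqueFactorizationMonoid.induction_on_prime`), `prime_cases`. -/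
theorem mul_cI (I : Ideal (𝓞 K)) : I * R.cI I = sp (nI I : 𝓞 K) := by
  induction I using UniqueFactorizationMonoid.induction_on_prime with
  | h₁ => simp [nI]
  | h₂ x hx =>
    obtain rfl : x = ⊤ := Ideal.isUnit_iff.1 hx
    rw [cI_top]
    simp [nI]
  | h₃ a q _ hq ih =>
    have hq1 : q * R.cI q = sp (nI q : 𝓞 K) := by
      obtain ⟨p, -, h | ⟨-, h1, h2⟩⟩ := R.prime_cases (Ideal.isPrime_of_prime hq) hq.ne_zero
      · rw [h, cI_nat, R.nI_nat, Ideal.span_singleton_mul_span_singleton]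
        push_cast
        rw [pow_two]
      · rw [h2, h1]
    rw [cI_mul, mul_mul_mul_comm, hq1, ih, Ideal.span_singleton_mul_span_singleton, nI, nI, nI,
      map_mul, Nat.cast_mul]

/-- If `sp s * c = sp γ` with `s > 0` then `γ = s γ'` and `c = sp γ'`. -/
theorem exists_div {s : ℕ} (hs : 0 < s) {c : Ideal (𝓞 K)} {γ : 𝓞 K} (h : sp (s : 𝓞 K) * c = sp γ) :
    ∃ γ' : 𝓞 K, c = sp γ' ∧ R.ι γ = s * R.ι γ' := by
  have h1 : γ ∈ sp (s : 𝓞 K) := by
    have : sp γ ≤ sp (s : 𝓞 K) := h ▸ Ideal.mul_le_left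
    exact this (Ideal.mem_span_singleton_self γ)
  obtain ⟨γ', rfl⟩ := Ideal.mem_span_singleton.1 h1
  have h0 : sp (s : 𝓞 K) ≠ 0 := by
    rw [Ne, Ideal.zero_eq_bot, Ideal.span_singleton_eq_bot]
    exact_mod_cast hs.ne'
  refine ⟨γ', mul_left_cancel₀ h0 ?_, by rw [map_mul, map_natCast]⟩
  rw [h, Ideal.span_singleton_mul_span_singleton]

end Rk

/-- `IsDedekindDomain.exists_sup_span_eq` with `a * g ≤ a`; if `g = ⊤` take any nonzero `γ` in `a`. -/
theorem exists_rep {a g : Ideal (𝓞 K)} (ha : a ≠ ⊥) (hg : g ≠ ⊥) :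
    ∃ (c : Ideal (𝓞 K)) (γ : 𝓞 K), IsCoprime c g ∧ c ≠ ⊥ ∧ sp γ = a * c := by
  by_cases ht : g = ⊤
  · obtain ⟨γ, hγ, hγ0⟩ := Submodule.exists_mem_ne_zero_of_ne_bot ha
    obtain ⟨c, hc⟩ := Ideal.dvd_iff_le.2 ((Ideal.span_singleton_le_iff_mem a).2 hγ)
    refine ⟨c, γ, ?_, ?_, hc⟩
    · rw [ht, ← Ideal.one_eq_top]
      exact isCoprime_one_right
    · rintro rfl
      rw [Ideal.mul_bot, Ideal.span_singleton_eq_bot] at hc
      exact hγ0 hc
  · obtain ⟨γ, hγ⟩ := IsDedekindDomain.exists_sup_span_eq (I := a * g) (J := a) Ideal.mul_le_left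
      (mul_ne_zero ha hg)
    obtain ⟨c, hc⟩ := Ideal.dvd_iff_le.2 (le_sup_right.trans hγ.le)
    have h1 : g ⊔ c = ⊤ := by
      refine mul_left_cancel₀ (a := a) ha ?_
      rw [Ideal.mul_sup, ← hc, hγ, Ideal.mul_top]
    refine ⟨c, γ, Ideal.isCoprime_iff_sup_eq.2 (by rw [sup_comm, h1]), ?_, hc⟩
    rintro rfl
    exact ht (by simpa using h1)

/-- The class group is finite; `ClassGroup.mk0_eq_one_iff`. -/
theorem exists_pow {I : Ideal (𝓞 K)} (hI : I ≠ ⊥) : ∃ (h : ℕ) (γ : 𝓞 K), 0 < h ∧ I ^ h = sp γ := by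
  have hm : I ∈ nonZeroDivisors (Ideal (𝓞 K)) := mem_nonZeroDivisors_of_ne_zero hI
  have h1 : ClassGroup.mk0 ((⟨I, hm⟩ : nonZeroDivisors (Ideal (𝓞 K))) ^
      Fintype.card (ClassGroup (𝓞 K))) = 1 := by
    rw [map_pow, pow_card_eq_one]
  obtain ⟨γ, hγ⟩ := (ClassGroup.mk0_eq_one_iff (pow_mem hm _)).1 h1
  exact ⟨_, γ, Fintype.card_pos, hγ⟩

/-- For each class `c` choose an ideal in `c` (`ClassGroup.mk0_surjective`) and apply `exists_rep`; `ρ c`
lies in the class `c⁻¹`. -/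
theorem exists_reps {g : Ideal (𝓞 K)} (hg : g ≠ ⊥) : ∃ ρ : ClassGroup (𝓞 K) → Ideal (𝓞 K),
    (∀ c, IsCoprime (ρ c) g ∧ ρ c ≠ ⊥) ∧ ∀ I : Ideal (𝓞 K), I ≠ ⊥ → ∃! c, (ρ c * I).IsPrincipal := by
  have key : ∀ c : ClassGroup (𝓞 K), ∃ r : nonZeroDivisors (Ideal (𝓞 K)),
      IsCoprime (r : Ideal (𝓞 K)) g ∧ ClassGroup.mk0 r = c⁻¹ := by
    intro c
    obtain ⟨a, rfl⟩ := ClassGroup.mk0_surjective c
    obtain ⟨r, γ, h1, h2, h3⟩ := exists_rep (nonZeroDivisors.coe_ne_zero a) hg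
    have hr : r ∈ nonZeroDivisors (Ideal (𝓞 K)) := mem_nonZeroDivisors_of_ne_zero h2
    refine ⟨⟨r, hr⟩, h1, eq_inv_of_mul_eq_one_right ?_⟩
    rw [← map_mul]
    exact (ClassGroup.mk0_eq_one_iff (mul_mem a.2 hr)).2 ⟨γ, h3.symm⟩
  choose r hr1 hr2 using key
  refine ⟨fun c => r c, fun c => ⟨hr1 c, nonZeroDivisors.coe_ne_zero (r c)⟩, fun I hI => ?_⟩
  have hm : I ∈ nonZeroDivisors (Ideal (𝓞 K)) := mem_nonZeroDivisors_of_ne_zero hI
  have e : ∀ c, ((r c : Ideal (𝓞 K)) * I).IsPrincipal ↔ c = ClassGroup.mk0 ⟨I, hm⟩ := by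
    intro c
    rw [← ClassGroup.mk0_eq_one_iff (mul_mem (r c).2 hm), ← inv_mul_eq_one (a := c), ← hr2,
      ← map_mul]
    rfl
  exact ⟨_, (e _).2 rfl, fun c hc => (e c).1 hc⟩

/-- `NumberField.Ideal.tendsto_norm_le_div_atTop`; a convergent sequence is bounded. -/
theorem card_ideals : ∃ C : ℝ, 0 ≤ C ∧ ∀ Y : ℕ, 1 ≤ Y →
    ∃ T : Finset (Ideal (𝓞 K)), (∀ I, I ∈ T ↔ nI I ≤ Y) ∧ (T.card : ℝ) ≤ C * Y := by
  obtain ⟨C, hC⟩ := ((NumberField.Ideal.tendsto_norm_le_div_atTop K).comp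
    tendsto_natCast_atTop_atTop).bddAbove_range
  refine ⟨max C 0, le_max_right _ _, fun Y hY => ?_⟩
  refine ⟨(Ideal.finite_setOfPred_absNorm_le Y).toFinset, fun I => by simp, ?_⟩
  have h1 := hC ⟨Y, rfl⟩
  have hY0 : (0 : ℝ) < Y := by exact_mod_cast hY
  simp only [Function.comp, Nat.cast_le] at h1
  rw [div_le_iff₀ hY0] at h1
  rw [← Set.ncard_eq_toFinset_card _ (Ideal.finite_setOfPred_absNorm_le Y), ← Nat.card_coe_set_eq]
  exact h1.trans (mul_le_mul_of_nonneg_right (le_max_left _ _) hY0.le)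

theorem finite_nI (m : ℕ) : {I : Ideal (𝓞 K) | nI I = m}.Finite :=
  Ideal.finite_setOfPred_absNorm_eq m

/-- Group the terms by the norm (`summable_sigma_of_nonneg` with `Equiv.sigmaFiberEquiv`, or
`summable_of_sum_le`); `card_ideals`. -/
theorem summable_ideals (n : ℕ) {t : ℝ} (ht : 0 < t) :
    Summable fun I : Ideal (𝓞 K) => (nI I : ℝ) ^ n * Real.exp (-(nI I * t)) := by
  classical
  obtain ⟨C, hC0, hC⟩ := card_ideals (K := K)
  set f : ℕ → ℝ := fun m => (m : ℝ) ^ n * Real.exp (-(m * t)) with hf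
  have hf0 : ∀ m, 0 ≤ f m := fun m => by positivity
  have hs : Summable fun m : ℕ => C * ((m : ℝ) + 1) * f m := by
    have h1 := Real.summable_pow_mul_exp_neg_nat_mul (n + 1) ht
    have h2 := Real.summable_pow_mul_exp_neg_nat_mul n ht
    refine ((h1.add h2).mul_left C).congr fun m => ?_
    simp only [hf]
    rw [show -t * (m : ℝ) = -(m * t) by ring]
    ring
  refine summable_of_sum_le (c := ∑' m : ℕ, C * ((m : ℝ) + 1) * f m) (fun I => hf0 (nI I)) fun S => ?_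
  have e := Finset.sum_comp f (fun I : Ideal (𝓞 K) => nI I) (s := S)
  refine e.le.trans (le_trans (Finset.sum_le_sum fun m _ => ?_)
    (hs.sum_le_tsum _ fun m _ => mul_nonneg (by positivity) (hf0 m)))
  obtain ⟨T, hT1, hT2⟩ := hC (m + 1) (by omega)
  rw [nsmul_eq_mul]
  refine mul_le_mul_of_nonneg_right ?_ (hf0 m)
  have h3 : (S.filter fun I => nI I = m).card ≤ T.card :=
    Finset.card_le_card fun I hI => (hT1 I).2 (by rw [(Finset.mem_filter.1 hI).2]; omega)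
  have h4 : ((S.filter fun I => nI I = m).card : ℝ) ≤ T.card := by exact_mod_cast h3
  push_cast at hT2
  exact h4.trans hT2

end Pool.Agent.Lib.MP_bcfefa_nt
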