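import Pool.Agent.Lib.MP_bcfefa_nt.Stmt
import Pool.Agent.Lib.MP_bcfefa_nt.CVw

set_option autoImplicit false

noncomputable section

namespace Pool.Agent.Lib.MP_bcfefa_nt

open Complex Finset MeasureTheory Pool.Agent.Lib.MP_03e5d0_nt
open scoped Real ContDiff

/-! From the theta transformation to the `L`-function. Compare `MAfe1`, `MAfe2` of
`Lib/MP_03e5d0_nt`. -/

/-- A series of exponentials with a transformation formula of weight `k`. -/
structure Thd (a : ℕ → ℂ) (A : ℝ) (k : ℕ) (W : ℂ) (θ : ℝ → ℂ) : Prop where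
  pos : 0 < A
  zero : a 0 = 0
  bd : ∃ C : ℝ, ∀ m : ℕ, ‖a m‖ ≤ C * (m : ℝ) ^ k
  sum : ∀ y : ℝ, 0 < y → HasSum (fun m : ℕ => a m * (Real.exp (-(m * y / A)) : ℝ)) (θ y)
  inv : ∀ y : ℝ, 0 < y → θ y⁻¹ = W * (y : ℂ) ^ k * θ y

variable {a : ℕ → ℂ} {A : ℝ} {k : ℕ} {W : ℂ} {θ : ℝ → ℂ}

open Filter Asymptotics Topology

theorem hafe_bd (h : Thd a A k W θ) : ∃ C : ℝ, 0 ≤ C ∧ ∀ m : ℕ, ‖a m‖ ≤ C * (m : ℝ) ^ k := by
  obtain ⟨C, hC⟩ := h.bd
  exact ⟨max C 0, le_max_right _ _, fun m => (hC m).trans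
    (mul_le_mul_of_nonneg_right (le_max_left _ _) (by positivity))⟩

theorem hafe_summ (C : ℝ) (k : ℕ) {r : ℝ} (hr : 0 < r) :
    Summable fun n : ℕ => C * (n : ℝ) ^ k * Real.exp (-(r * n)) := by
  simpa [mul_assoc] using (Real.summable_pow_mul_exp_neg_nat_mul k hr).mul_left C

theorem hafe_term {C : ℝ} (hC0 : 0 ≤ C) (hC : ∀ m : ℕ, ‖a m‖ ≤ C * (m : ℝ) ^ k) (n : ℕ) {x y : ℝ}
    (h : y ≤ x) : ‖a n * (Real.exp (-x) : ℝ)‖ ≤ C * (n : ℝ) ^ k * Real.exp (-y) := by
  rw [norm_mul, norm_real, Real.norm_of_nonneg (Real.exp_pos _).le]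
  exact mul_le_mul (hC n) (Real.exp_le_exp.2 (neg_le_neg h)) (Real.exp_pos _).le (by positivity)

theorem hafe_exp (h : Thd a A k W θ) {C : ℝ} (hC0 : 0 ≤ C) (hC : ∀ m : ℕ, ‖a m‖ ≤ C * (m : ℝ) ^ k)
    {t : ℝ} (ht : 1 ≤ t) (n : ℕ) : ‖a n * (Real.exp (-(n * t / A)) : ℝ)‖ ≤
      C * (n : ℝ) ^ k * Real.exp (-(A⁻¹ * n)) * (Real.exp A⁻¹ * Real.exp (-(t / A))) := by
  rcases Nat.eq_zero_or_pos n with rfl | hn
  · rw [h.zero, zero_mul, norm_zero]
    positivity
  have h1 : (1 : ℝ) ≤ n := by exact_mod_cast hn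
  have hb : 0 < A⁻¹ := inv_pos.2 h.pos
  rw [mul_assoc (C * (n : ℝ) ^ k), ← Real.exp_add, ← Real.exp_add,
    ← neg_neg (-(A⁻¹ * n) + (A⁻¹ + -(t / A)))]
  refine hafe_term hC0 hC n ?_
  rw [div_eq_mul_inv, div_eq_mul_inv]
  nlinarith [mul_nonneg hb.le (mul_nonneg (sub_nonneg.2 h1) (sub_nonneg.2 ht))]

theorem Thd.cont (h : Thd a A k W θ) : ContinuousOn θ (Set.Ioi 0) := by
  obtain ⟨C, hC0, hC⟩ := hafe_bd h
  intro t ht
  have h0 : 0 < t / 2 := half_pos ht
  have hA := h.pos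
  have h1 : ContinuousOn (fun y : ℝ => ∑' m : ℕ, a m * (Real.exp (-(m * y / A)) : ℝ))
      (Set.Ioi (t / 2)) := by
    refine continuousOn_tsum (fun n => by fun_prop) (hafe_summ C k (div_pos h0 hA))
      fun n u hu => hafe_term hC0 hC n ?_
    have h3 : t / 2 ≤ u := le_of_lt hu
    calc t / 2 / A * n = n * (t / 2) / A := by ring
      _ ≤ _ := by gcongr
  have h2 : ContinuousOn θ (Set.Ioi (t / 2)) :=
    h1.congr fun u hu => (h.sum u (h0.trans hu)).tsum_eq.symm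
  exact (h2.continuousAt (Ioi_mem_nhds (half_lt_self ht))).continuousWithinAt

theorem Thd.decay (h : Thd a A k W θ) : ∃ K : ℝ, ∀ y : ℝ, 1 ≤ y → ‖θ y‖ ≤ K * Real.exp (-(y / A)) := by
  obtain ⟨C, hC0, hC⟩ := hafe_bd h
  have hs := hafe_summ C k (inv_pos.2 h.pos)
  refine ⟨(∑' n : ℕ, C * (n : ℝ) ^ k * Real.exp (-(A⁻¹ * n))) * Real.exp A⁻¹, fun y hy => ?_⟩
  rw [mul_assoc]
  exact (h.sum y (zero_lt_one.trans_le hy)).norm_le_of_bounded (hs.hasSum.mul_right _)
    fun n => hafe_exp h hC0 hC hy n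

theorem hafe_top (h : Thd a A k W θ) (b : ℝ) : θ =O[atTop] fun t => t ^ b := by
  obtain ⟨K, hK⟩ := h.decay
  refine IsBigO.trans (IsBigO.of_bound K ?_)
    (isLittleO_exp_neg_mul_rpow_atTop (inv_pos.2 h.pos) b).isBigO
  filter_upwards [eventually_ge_atTop 1] with t ht
  have h1 := hK t ht
  rw [Real.norm_of_nonneg (Real.exp_pos _).le, neg_mul, mul_comm A⁻¹, ← div_eq_mul_inv]
  exact h1

theorem hafe_bot (h : Thd a A k W θ) (b : ℝ) : θ =O[𝓝[>] 0] fun t => t ^ (-b) := by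
  have h2 := hafe_top h (b - k)
  have h3 : (fun u : ℝ => W * (u : ℂ) ^ k) =O[atTop] fun u : ℝ => u ^ k :=
    IsBigO.of_bound ‖W‖ (Eventually.of_forall fun u => by simp)
  refine ((h3.mul h2).comp_tendsto tendsto_inv_nhdsGT_zero).congr' ?_ ?_
  · filter_upwards [self_mem_nhdsWithin] with t ht
    have h4 := h.inv _ (inv_pos.2 ht)
    rw [inv_inv] at h4
    exact h4.symm
  · filter_upwards [self_mem_nhdsWithin] with t ht
    have h4 : 0 < t := ht
    change t⁻¹ ^ k * t⁻¹ ^ (b - k) = t ^ (-b)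
    rw [← Real.rpow_natCast, ← Real.rpow_add (inv_pos.2 h4), Real.inv_rpow h4.le,
      Real.rpow_neg h4.le]
    congr 2
    ring

/-- `mellin_hasDerivAt_of_isBigO_rpow`. -/
theorem Thd.deriv (h : Thd a A k W θ) (s : ℂ) : MellinConvergent θ s ∧
    MellinConvergent (fun t => Real.log t • θ t) s ∧
      HasDerivAt (mellin θ) (mellin (fun t => Real.log t • θ t) s) s := by
  have h1 := h.cont.locallyIntegrableOn (μ := volume) measurableSet_Ioi
  exact ⟨mellinConvergent_of_isBigO_rpow h1 (hafe_top h _) (lt_add_one _)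
    (hafe_bot h _) (sub_one_lt _), mellin_hasDerivAt_of_isBigO_rpow h1 (hafe_top h _)
    (lt_add_one _) (hafe_bot h _) (sub_one_lt _)⟩

/-- `hasSum_mellin`. -/
theorem Thd.eq_LSeries (h : Thd a A k W θ) {s : ℂ} (hs : (k : ℝ) + 1 < s.re) :
    mellin θ s = (A : ℂ) ^ s * Gamma s * LSeries a s := by
  obtain ⟨C, hC0, hC⟩ := hafe_bd h
  have hb : 0 < A⁻¹ := inv_pos.2 h.pos
  have h0 := h.zero
  have hk : (0 : ℝ) ≤ k := Nat.cast_nonneg k
  have h1 := hasSum_mellin (a := a) (p := fun n : ℕ => A⁻¹ * n) (F := θ)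
    (s := s) (fun n => by
      rcases Nat.eq_zero_or_pos n with rfl | hn
      · exact .inl h0
      · exact .inr (by positivity)) (by linarith)
    (fun t ht => by
      have h2 : ∀ n : ℕ, -(A⁻¹ * n) * t = -(n * t / A) := fun n => by ring
      simpa only [h2] using h.sum t ht) (by
      refine Summable.of_nonneg_of_le (fun n => by positivity) (fun n => ?_)
        ((Real.summable_nat_rpow.2 (show k - s.re < -1 by linarith)).mul_left
          (C / A⁻¹ ^ s.re))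
      rcases Nat.eq_zero_or_pos n with rfl | hn
      · simp only [h0, norm_zero, zero_div]
        positivity
      have h2 : (0 : ℝ) < n := by exact_mod_cast hn
      rw [Real.mul_rpow hb.le h2.le, Real.rpow_sub h2, Real.rpow_natCast, div_mul_div_comm]
      gcongr
      exact hC n)
  rw [← h1.tsum_eq, LSeries, ← tsum_mul_left]
  refine tsum_congr fun n => ?_
  rcases eq_or_ne n 0 with rfl | hn
  · simp [h0]
  have h2 : ((A⁻¹ : ℝ) : ℂ) ^ s = ((A : ℂ) ^ s)⁻¹ := by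
    rw [ofReal_inv, inv_cpow _ _ (by
      rw [arg_ofReal_of_nonneg h.pos.le]
      exact Real.pi_ne_zero.symm)]
  rw [LSeries.term_of_ne_zero hn, ofReal_mul, mul_cpow_ofReal_nonneg hb.le (Nat.cast_nonneg n), h2,
    ofReal_natCast]
  simp only [div_eq_mul_inv, mul_inv, inv_inv]
  ring

/-- `mellin_comp_inv`, `mellin_cpow_smul`. -/
theorem Thd.fe (h : Thd a A k W θ) (s : ℂ) : mellin θ (k - s) = W * mellin θ s := by
  have h1 : mellin (fun t => θ t⁻¹) (s - k) =
      mellin (fun t : ℝ => W • ((t : ℂ) ^ (k : ℂ) • θ t)) (s - k) := by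
    refine setIntegral_congr_fun measurableSet_Ioi fun t ht => ?_
    simp only [h.inv t ht, cpow_natCast, smul_eq_mul, mul_assoc]
  rw [mellin_comp_inv, neg_sub, mellin_const_smul, mellin_cpow_smul, sub_add_cancel] at h1
  exact h1

/-- Both entire functions agree for large real part, hence everywhere
(`AnalyticOnNhd.eq_of_eventuallyEq`); they are not zero since `a 1 ≠ 0`
(`LSeries_eventually_eq_zero_iff'` or `LSeries.tendsto_cpow_mul_atTop`). -/
theorem Thd.sign (h : Thd a A k W θ) (h1 : a 1 ≠ 0) {N : ℝ} (hA : A = √N / (2 * π)) {w : ℂ}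
    (hw : HasSign a N k w) : W = w := by
  obtain ⟨Λ, hΛ, he, hfe⟩ := hw
  have hM : Differentiable ℂ (mellin θ) := fun s => (h.deriv s).2.2.differentiableAt
  have hop : IsOpen {s : ℂ | (k : ℝ) + 1 < s.re} := isOpen_lt continuous_const continuous_re
  have heq : Λ = mellin θ := by
    refine AnalyticOnNhd.eq_of_eventuallyEq (z₀ := ((k + 2 : ℝ) : ℂ))
      (fun z _ => hΛ.analyticAt z) (fun z _ => hM.analyticAt z) ?_
    filter_upwards [hop.mem_nhds (show (k : ℝ) + 1 < ((k + 2 : ℝ) : ℂ).re by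
      rw [ofReal_re]; linarith)] with s hs
    rw [he s hs, h.eq_LSeries hs, hA]
  by_contra hne
  have h0 : ∀ s, mellin θ s = 0 := fun s => by
    have h2 := hfe s
    rw [heq, h.fe] at h2
    exact (mul_eq_zero.1 (show (W - w) * mellin θ s = 0 by linear_combination h2)).resolve_left
      (sub_ne_zero.2 hne)
  have h3 : (fun x : ℝ => LSeries a x) =ᶠ[atTop] 0 := by
    filter_upwards [eventually_gt_atTop ((k : ℝ) + 1)] with x hx
    have h4 := h.eq_LSeries (s := x) (by simpa using hx)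
    have hk : (0 : ℝ) ≤ k := Nat.cast_nonneg k
    have a1 : Gamma (x : ℂ) ≠ 0 := Gamma_ne_zero_of_re_pos (by rw [ofReal_re]; linarith)
    have a2 : (A : ℂ) ^ (x : ℂ) ≠ 0 := by simp [h.pos.ne']
    rw [h0] at h4
    exact (mul_eq_zero.1 h4.symm).resolve_left (mul_ne_zero a2 a1)
  rcases LSeries_eventually_eq_zero_iff'.1 h3 with h4 | h4
  · exact h1 (h4 1 one_ne_zero)
  · obtain ⟨C, hC⟩ := h.bd
    have h5 := LSeries.abscissaOfAbsConv_le_of_le_const_mul_rpow (f := a) (x := k)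
      ⟨C, fun n _ => by rw [Real.rpow_natCast]; exact hC n⟩
    rw [h4, top_le_iff] at h5
    exact EReal.coe_ne_top ((k : ℝ) + 1) (by rw [← h5]; simp)

/-- Substitute `y = c t`; `posLog (y / c)` vanishes for `y ≤ c`. -/
theorem int_log_exp {j : ℕ} (hj : 1 ≤ j) {c : ℝ} (hc : 0 < c) :
    IntegrableOn (fun t : ℝ => t ^ (j - 1) * Real.log t * Real.exp (-(c * t))) (Set.Ioi 1) ∧
      ∫ t in Set.Ioi (1 : ℝ), t ^ (j - 1) * Real.log t * Real.exp (-(c * t)) =
        Real.Gamma j * Vw j c / c ^ j := by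
  obtain ⟨i, rfl⟩ : ∃ i, j = i + 1 := ⟨j - 1, by omega⟩
  rw [Nat.add_sub_cancel]
  set g : ℝ → ℝ := fun y => Real.exp (-y) * y ^ i * Real.posLog (y / c) with hg
  have h1 : ∀ t ∈ Set.Ioi (1 : ℝ), (c ^ i)⁻¹ * g (c * t) = t ^ i * Real.log t * Real.exp (-(c * t)) := by
    intro t ht
    have ht' : (1 : ℝ) < t := ht
    simp only [hg]
    rw [mul_div_cancel_left₀ _ hc.ne', Real.posLog_eq_log (by rw [abs_of_pos (by linarith)]; linarith),
      mul_pow]
    field_simp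
  have h2 : IntegrableOn (fun t => g (c * t)) (Set.Ioi 0) :=
    (integrableOn_Ioi_comp_mul_left_iff g 0 hc).2 (by rw [mul_zero]; exact vw_int i hc)
  refine ⟨IntegrableOn.congr_fun ((h2.mono_set (Set.Ioi_subset_Ioi zero_le_one)).const_mul _) h1
    measurableSet_Ioi, ?_⟩
  have h3 : ∫ t in Set.Ioi (0 : ℝ), g (c * t) = ∫ t in Set.Ioi (1 : ℝ), g (c * t) := by
    refine setIntegral_eq_of_subset_of_forall_sdiff_eq_zero measurableSet_Ioi
      (Set.Ioi_subset_Ioi zero_le_one) fun t ht => ?_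
    have ht0 : (0 : ℝ) < t := ht.1
    have ht1 : t ≤ 1 := not_lt.1 ht.2
    simp only [hg]
    rw [mul_div_cancel_left₀ _ hc.ne', (Real.posLog_eq_zero_iff t).2 (by rwa [abs_of_pos ht0]),
      mul_zero]
  have h4 : Real.Gamma ((i + 1 : ℕ) : ℝ) ≠ 0 := (Real.Gamma_pos_of_pos (by positivity)).ne'
  rw [← setIntegral_congr_fun measurableSet_Ioi h1, integral_const_mul, ← h3,
    integral_comp_mul_left_Ioi g 0 hc, mul_zero, Vw, Nat.add_sub_cancel, smul_eq_mul, ← hg,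
    mul_div_cancel₀ _ h4, pow_succ]
  field_simp

/-- Split the integral at `1`, substitute `t ↦ t⁻¹` on `(0, 1)`, integrate termwise on `(1, ∞)`. -/
theorem Thd.central {j : ℕ} (hj : 1 ≤ j) (h : Thd a A (2 * j) (-1) θ) :
    HasSum (fun m : ℕ => a m / (m : ℂ) ^ j * (Vw j (m / A) : ℝ))
      (mellin (fun t => Real.log t • θ t) j / (2 * (A : ℂ) ^ j * (Real.Gamma j : ℝ))) := by
  obtain ⟨C, hC0, hC⟩ := hafe_bd h
  have hA := h.pos
  have hG : 0 < Real.Gamma j := Real.Gamma_pos_of_pos (by exact_mod_cast hj)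
  set f : ℝ → ℂ := fun t => ((t ^ (j - 1) * Real.log t : ℝ) : ℂ) * θ t with hf
  have e1 : ∀ t : ℝ, (t : ℂ) ^ ((j : ℂ) - 1) • Real.log t • θ t = f t := fun t => by
    have e2 : (j : ℂ) - 1 = ((j - 1 : ℕ) : ℂ) := by rw [Nat.cast_sub hj, Nat.cast_one]
    rw [e2, cpow_natCast, real_smul, smul_eq_mul, hf]
    push_cast
    ring
  have h1 : IntegrableOn f (Set.Ioi 0) := by
    have := (h.deriv j).2.1
    unfold MellinConvergent at this
    simpa only [e1] using this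
  have h4 : ∫ t in Set.Ioc (0 : ℝ) 1, f t = ∫ t in Set.Ioi (1 : ℝ), f t := by
    have a1 := integral_image_eq_integral_abs_deriv_smul (s := Set.Ioi (1 : ℝ)) measurableSet_Ioi
      (fun x hx => (hasDerivAt_inv (zero_lt_one.trans hx).ne').hasDerivWithinAt)
      inv_injective.injOn f
    rw [Set.image_inv_eq_inv, Set.inv_Ioi₀ zero_lt_one, inv_one] at a1
    rw [integral_Ioc_eq_integral_Ioo, a1]
    refine setIntegral_congr_fun measurableSet_Ioi fun t ht => ?_
    have ht' : (0 : ℝ) < t := zero_lt_one.trans ht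
    have ht2 : (t : ℂ) ≠ 0 := ofReal_ne_zero.mpr ht'.ne'
    obtain ⟨i, rfl⟩ : ∃ i, j = i + 1 := ⟨j - 1, by omega⟩
    simp only [hf]
    rw [h.inv t ht', abs_neg, abs_of_pos (by positivity), Real.log_inv, real_smul,
      Nat.add_sub_cancel, inv_pow]
    push_cast
    field_simp
    ring
  have h5 : mellin (fun t => Real.log t • θ t) j = 2 * ∫ t in Set.Ioi (1 : ℝ), f t := by
    simp only [mellin, e1]
    rw [← Set.Ioc_union_Ioi_eq_Ioi zero_le_one, setIntegral_union Set.Ioc_disjoint_Ioi_same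
      measurableSet_Ioi (h1.mono_set Set.Ioc_subset_Ioi_self)
      (h1.mono_set (Set.Ioi_subset_Ioi zero_le_one)), h4, two_mul]
  let F : ℕ → ℝ → ℂ := fun m t =>
    a m * ((t ^ (j - 1) * Real.log t * Real.exp (-(m / A * t)) : ℝ) : ℂ)
  have e3 : ∀ m t, F m t = ((t ^ (j - 1) * Real.log t : ℝ) : ℂ) *
      (a m * (Real.exp (-(m * t / A)) : ℝ)) := fun m t => by
    simp only [F]
    rw [ofReal_mul (t ^ (j - 1) * Real.log t), div_mul_eq_mul_div]
    ring
  have h6 : ∀ m, IntegrableOn (F m) (Set.Ioi 1) ∧ ∫ t in Set.Ioi (1 : ℝ), F m t =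
      (A : ℂ) ^ j * (Real.Gamma j : ℝ) * (a m / (m : ℂ) ^ j * (Vw j (m / A) : ℝ)) := by
    intro m
    rcases Nat.eq_zero_or_pos m with rfl | hm
    · simp [F, h.zero]
    have hm0 : (0 : ℝ) < m := Nat.cast_pos.mpr hm
    obtain ⟨a1, a2⟩ := int_log_exp hj (c := m / A) (by positivity)
    refine ⟨Integrable.const_mul a1.ofReal _, ?_⟩
    have a4 : (m : ℂ) ≠ 0 := Nat.cast_ne_zero.mpr hm.ne'
    have a6 : (A : ℂ) ≠ 0 := ofReal_ne_zero.mpr hA.ne'
    simp only [F]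
    rw [integral_const_mul, integral_complex_ofReal, a2, div_pow]
    generalize Real.Gamma j = G
    generalize Vw j (m / A) = V
    push_cast
    field_simp
  have h7 := (int_log_exp hj (inv_pos.2 hA)).1
  have h8 := hasSum_integral_of_summable_integral_norm (F := F) (fun m => (h6 m).1) (by
    refine Summable.of_nonneg_of_le (fun m => integral_nonneg fun t => norm_nonneg _) (fun m => ?_)
      (((hafe_summ C (2 * j) (inv_pos.2 hA)).mul_right (Real.exp A⁻¹)).mul_right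
        (∫ t in Set.Ioi (1 : ℝ), t ^ (j - 1) * Real.log t * Real.exp (-(A⁻¹ * t))))
    rw [← integral_const_mul]
    refine setIntegral_mono_on (h6 m).1.norm (h7.const_mul _) measurableSet_Ioi fun t ht => ?_
    have ht1 : (1 : ℝ) ≤ t := le_of_lt ht
    have h9 : 0 ≤ t ^ (j - 1) * Real.log t := mul_nonneg (by positivity) (Real.log_nonneg ht1)
    rw [e3, norm_mul, norm_real, Real.norm_of_nonneg h9]
    refine (mul_le_mul_of_nonneg_left (hafe_exp h hC0 hC ht1 m) h9).trans_eq ?_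
    rw [div_eq_mul_inv, mul_comm t A⁻¹]
    ring)
  have h9 : ∫ t in Set.Ioi (1 : ℝ), ∑' m, F m t = ∫ t in Set.Ioi (1 : ℝ), f t := by
    refine setIntegral_congr_fun measurableSet_Ioi fun t ht => ?_
    simp only [e3]
    exact ((h.sum t (zero_lt_one.trans ht)).mul_left _).tsum_eq
  have a6 : (A : ℂ) ^ j * (Real.Gamma j : ℝ) ≠ 0 :=
    mul_ne_zero (pow_ne_zero _ (ofReal_ne_zero.mpr hA.ne')) (ofReal_ne_zero.mpr hG.ne')
  simp only [(h6 _).2] at h8
  rw [h9] at h8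
  have h10 := h8.div_const ((A : ℂ) ^ j * (Real.Gamma j : ℝ))
  simp only [mul_div_cancel_left₀ _ a6] at h10
  rw [h5, mul_assoc, mul_div_mul_left _ _ two_ne_zero]
  exact h10

/-- `F s = mellin θ s * A ^ (-s) * (Gamma s)⁻¹` (`Complex.differentiable_one_div_Gamma`). -/
theorem Thd.ord {j : ℕ} (hj : 1 ≤ j) (h : Thd a A (2 * j) (-1) θ)
    (hd : mellin (fun t => Real.log t • θ t) j ≠ 0) : HasOrd a (2 * j) 1 := by
  have hB0 : (A : ℂ) ≠ 0 := ofReal_ne_zero.mpr h.pos.ne'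
  have hM : Differentiable ℂ (mellin θ) := fun s => (h.deriv s).2.2.differentiableAt
  have hH : Differentiable ℂ fun s : ℂ => (A : ℂ) ^ (-s) * (Gamma s)⁻¹ :=
    (differentiable_neg.const_cpow (Or.inl hB0)).mul differentiable_one_div_Gamma
  have h1 : mellin θ j = 0 := by
    have h2 := h.fe j
    have h3 : ((2 * j : ℕ) : ℂ) - j = j := by
      push_cast
      ring
    rw [h3] at h2
    linear_combination h2 / 2
  refine ⟨fun s => mellin θ s * ((A : ℂ) ^ (-s) * (Gamma s)⁻¹), hM.mul hH, fun s hs => ?_, ?_⟩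
  · have hk : (0 : ℝ) ≤ (2 * j : ℕ) := Nat.cast_nonneg _
    have a1 : Gamma s ≠ 0 := Gamma_ne_zero_of_re_pos (by linarith)
    have a2 : (A : ℂ) ^ s ≠ 0 := by simp [hB0]
    beta_reduce
    rw [h.eq_LSeries hs, cpow_neg]
    field_simp
  · have h3 : ((2 * j : ℕ) : ℂ) / 2 = j := by
      push_cast
      ring
    have a1 : Gamma (j : ℂ) ≠ 0 := Gamma_ne_zero_of_re_pos (by
      rw [natCast_re]
      exact_mod_cast hj)
    rw [h3, Nat.cast_one]
    refine ((hM.mul hH).analyticAt j).analyticOrderAt_eq_one_of_zero_deriv_ne_zero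
      (by simp [h1]) ?_
    rw [((h.deriv j).2.2.mul (hH j).hasDerivAt).deriv, h1, zero_mul, add_zero]
    exact mul_ne_zero hd (mul_ne_zero (by simp [hB0]) (inv_ne_zero a1))

end Pool.Agent.Lib.MP_bcfefa_nt
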