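import Pool.Agent.Lib.MP_bcfefa_nt.GTh
import Pool.Agent.Lib.MP_bcfefa_nt.HAfe
import Pool.Agent.Lib.MP_bcfefa_nt.CF4

set_option autoImplicit false

noncomputable section

namespace Pool.Agent.Lib.MP_bcfefa_nt

open Complex Finset NumberField Pool.Agent.Lib.MP_03e5d0_nt
open scoped Real

/-! The main theorem for arbitrary class number. -/

variable {K : Type} [Field K] [NumberField K] {H : Gk K} {ψ μ : Ideal (𝓞 K) →* ℂ}

theorem Gk.IsH.thd {k : ℕ} (hk : 1 ≤ k) (hψ : H.IsH ψ (k - 1)) :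
    Thd (coefI ψ) H.A k (H.W ψ (k - 1)) (H.Th ψ) := by
  refine ⟨H.A_pos, hψ.coef_zero, ?_, fun y hy => hψ.hasSum hy, fun y hy => ?_⟩
  · simpa only [Nat.sub_add_cancel hk] using hψ.norm_coef_le
  · rw [hψ.Th_inv hy, Nat.sub_add_cancel hk]

theorem Gk.IsH.ord_of {D : Dat} (hP : D.P = H.P) (hη : D.η = H.η) (hA : D.A = H.A) {j : ℕ}
    (hj : 1 ≤ j) (hψ : H.IsH ψ (2 * j - 1)) (hW : H.W ψ (2 * j - 1) = -1)
    (hz : ∀ e : Xp, H.Ok e → ch e (D.z j) * ((√(Nm e) : ℝ) : ℂ) ^ (2 * j - 1) = ψ (H.cE e))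
    (hL : D.Ld j ≠ 0) : HasOrd (coefI ψ) (2 * j) 1 := by
  have h := hψ.thd (k := 2 * j) (by omega)
  rw [hW] at h
  refine h.ord hj fun h0 => hL ?_
  have h1 := h.central hj
  rw [h0, zero_div, ← hA] at h1
  exact D.Ld_eq hj (b := fun m => coefI ψ m / (m : ℂ) ^ j)
    (by rw [hψ.coef_zero, zero_div]) (hψ.sum_coef hP hη hj hz) h1

theorem Gk.main {j₀ d : ℕ} (hj : 1 ≤ j₀) (hd : 0 < d) (hψ : H.IsH ψ (2 * j₀ - 1))
    (hμ : H.IsU μ (2 * d))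
    (hW : HasSign (coefI ψ) (|(discr K : ℝ)| * nI H.f) (2 * j₀) (-1)) :
    ∃ c : ℝ, 0 < c ∧ ∃ X₀ : ℝ, ∀ X : ℝ, X₀ ≤ X → c * X ≤ ({n : ℕ | (n : ℝ) ≤ X ∧
      HasOrd (coefI fun I => ψ I * μ I ^ n) (2 * j₀ + 2 * d * n) 1}.ncard : ℝ) := by
  classical
  obtain ⟨D, hP, hη, hA, hz⟩ := Gk.exists_dat hj hd hψ hμ
  have hW0 : H.W ψ (2 * j₀ - 1) = -1 :=
    (hψ.thd (k := 2 * j₀) (by omega)).sign (by rw [Gk.coefI_one]; exact one_ne_zero) rfl hW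
  obtain ⟨c, hc0, N₀, h⟩ := D.core j₀ (m := 2 * d) (by omega)
  refine ⟨c / 4, by positivity, 2 * (N₀ + j₀ + 1), fun X hX => ?_⟩
  have hn0 : (0 : ℝ) ≤ N₀ := Nat.cast_nonneg _
  have hj0 : (0 : ℝ) ≤ j₀ := Nat.cast_nonneg _
  set N := ⌊X / 2⌋₊ with hN
  have h1 : N₀ + j₀ + 1 ≤ N := Nat.le_floor (by push_cast; linarith)
  have h2 : (N : ℝ) ≤ X / 2 := Nat.floor_le (by linarith)
  have h3 : X / 2 < N + 1 := Nat.lt_floor_add_one _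
  have h4 : (1 : ℝ) ≤ N := by exact_mod_cast (by omega : 1 ≤ N)
  have hfin : {n : ℕ | (n : ℝ) ≤ X ∧
      HasOrd (coefI fun I => ψ I * μ I ^ n) (2 * j₀ + 2 * d * n) 1}.Finite :=
    (Set.finite_le_nat ⌊X⌋₊).subset fun k hk => Nat.le_floor hk.1
  refine le_trans (by nlinarith) ((h N (by omega)).trans ?_)
  rw [← Set.ncard_coe_finset]
  have key : ∀ j ∈ Ico N (2 * N), j ≡ j₀ [MOD 2 * d] → ∃ r, j = j₀ + d * (2 * r) := by
    intro j h5 h6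
    obtain ⟨h8, _⟩ := mem_Ico.1 h5
    obtain ⟨r, hr⟩ := (Nat.modEq_iff_dvd' (show j₀ ≤ j by omega)).1 h6.symm
    exact ⟨r, by rw [← mul_assoc, mul_comm d 2]; omega⟩
  have hq : ∀ r, (j₀ + d * r - j₀) / d = r := fun r => by
    rw [Nat.add_sub_cancel_left, Nat.mul_div_cancel_left _ hd]
  refine Nat.cast_le.2 (Set.ncard_le_ncard_of_injOn (fun j => (j - j₀) / d) (fun j hj' => ?_)
    (fun j hj' j' hj'' hjj => ?_) hfin)
  · obtain ⟨h5, h6, h7⟩ := mem_filter.1 (mem_coe.1 hj')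
    obtain ⟨r, rfl⟩ := key j h5 h6
    obtain ⟨_, h9⟩ := mem_Ico.1 h5
    rw [hq]
    have e1 : 2 * j₀ - 1 + 2 * d * (2 * r) = 2 * (j₀ + d * (2 * r)) - 1 := by
      rw [mul_add, mul_assoc]; omega
    refine ⟨?_, ?_⟩
    · have h10 : 2 * r ≤ 2 * N := le_trans (Nat.le_mul_of_pos_left _ hd) (by omega)
      have : ((2 * r : ℕ) : ℝ) ≤ ((2 * N : ℕ) : ℝ) := Nat.cast_le.2 h10
      push_cast at this ⊢
      linarith
    · have h11 := Gk.IsH.ord_of (ψ := ψ * μ ^ (2 * r)) hP hη hA (j := j₀ + d * (2 * r)) (by omega)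
        (e1 ▸ hψ.mul_pow hμ (2 * r)) (by rw [← e1, Gk.W_mul hμ, hW0]) (fun e he => hz e _ he) h7
      rw [show 2 * j₀ + 2 * d * (2 * r) = 2 * (j₀ + d * (2 * r)) by ring]
      exact h11
  · obtain ⟨h5, h6, _⟩ := mem_filter.1 (mem_coe.1 hj')
    obtain ⟨h5', h6', _⟩ := mem_filter.1 (mem_coe.1 hj'')
    obtain ⟨r, rfl⟩ := key j h5 h6
    obtain ⟨r', rfl⟩ := key j' h5' h6'
    simp only [hq] at hjj
    rw [hjj]

end Pool.Agent.Lib.MP_bcfefa_nt
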