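import Pool.Agent.Lib.MP_bcfefa_nt.Def

set_option autoImplicit false

noncomputable section

namespace Pool.Agent.Lib.MP_bcfefa_nt

open Complex Finset MeasureTheory Pool.Agent.Lib.MP_03e5d0_nt
open scoped Real ContDiff

/-! Poisson summation for Gaussians on a plane lattice. -/

theorem hpoi_gauss {a : ℝ} (ha : 0 < a) (b : ℝ) :
    Summable fun n : ℤ => Real.exp (-(a * (n : ℝ) ^ 2) + b * n) := by
  have h := summable_pow_mul_jacobiTheta₂_term_bound (|b| / (2 * π)) (T := a / π)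
    (div_pos ha Real.pi_pos) 0
  refine Summable.of_nonneg_of_le (fun n => (Real.exp_pos _).le) (fun n => ?_) h
  rw [pow_zero, one_mul]
  refine Real.exp_le_exp.2 ?_
  have hp := Real.pi_ne_zero
  have e : -π * (a / π * (n : ℝ) ^ 2 - 2 * (|b| / (2 * π)) * |(n : ℝ)|) =
      -(a * (n : ℝ) ^ 2) + |b| * |(n : ℝ)| := by
    field_simp
    ring
  rw [Int.cast_abs, e, ← abs_mul]
  linarith [le_abs_self (b * n)]

theorem hpoi_gauss2 {a a' : ℝ} (ha : 0 < a) (ha' : 0 < a') (b b' c : ℝ) :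
    Summable fun q : ℤ × ℤ => Real.exp (-(a * (q.1 : ℝ) ^ 2) + b * q.1 +
      (-(a' * (q.2 : ℝ) ^ 2) + b' * q.2) + c) := by
  have h := ((hpoi_gauss ha b).mul_of_nonneg (hpoi_gauss ha' b') (fun n => (Real.exp_pos _).le)
    (fun n => (Real.exp_pos _).le)).mul_right (Real.exp c)
  refine h.congr fun q => ?_
  rw [← Real.exp_add, ← Real.exp_add]

theorem hpoi_pt (τ z₀ : ℂ) (m n : ℤ) : z₀ + (m + n * τ) =
    ((z₀.re + m + n * τ.re : ℝ) : ℂ) + ((z₀.im + n * τ.im : ℝ) : ℂ) * I := by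
  apply Complex.ext <;> simp [add_assoc]

theorem hpoi_one {a : ℝ} (ha : 0 < a) (b c : ℂ) :
    ∑' n : ℤ, cexp (-π * a * n ^ 2 + 2 * π * b * n + c) =
      1 / (√a : ℝ) * ∑' n : ℤ, cexp (-π / a * (n + I * b) ^ 2 + c) := by
  have h := Complex.tsum_exp_neg_quadratic (a := (a : ℂ)) (by simpa using ha) b
  have e : (a : ℂ) ^ (1 / 2 : ℂ) = (√a : ℝ) := by
    rw [Real.sqrt_eq_rpow, Complex.ofReal_cpow ha.le]
    norm_num
  simp only [Complex.exp_add _ c, tsum_mul_right]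
  rw [h, e, mul_assoc]

/-- Bound the quadratic form from below by `c (x ^ 2 + y ^ 2)`; the general term is at most a product of two
summable sequences (`summable_pow_mul_jacobiTheta₂_term_bound`, or compare with geometric series). -/
theorem summable_lat {τ : ℂ} (hτ : 0 < τ.im) (z₀ : ℂ) {t : ℝ} (ht : 0 < t) (R : ℝ) :
    Summable fun q : ℤ × ℤ => Real.exp (-(t * normSq (z₀ + (q.1 + q.2 * τ))) +
      R * ‖z₀ + (q.1 + q.2 * τ)‖) := by
  set K : ℝ := 2 + (2 * τ.re ^ 2 + 1) / τ.im ^ 2 with hK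
  have hK0 : 0 < K := by positivity
  have ha : 0 < t / (4 * K) := by positivity
  refine Summable.of_nonneg_of_le (fun q => (Real.exp_pos _).le) (fun q => ?_)
    (hpoi_gauss2 ha ha 0 0 (R ^ 2 / (2 * t) + t / 2 * normSq z₀))
  refine Real.exp_le_exp.2 ?_
  set z : ℂ := z₀ + (q.1 + q.2 * τ) with hz
  have h1 : R * ‖z‖ ≤ t / 2 * normSq z + R ^ 2 / (2 * t) := by
    rw [Complex.normSq_eq_norm_sq]
    have e : t / 2 * ‖z‖ ^ 2 + R ^ 2 / (2 * t) - R * ‖z‖ = (t * ‖z‖ - R) ^ 2 / (2 * t) := by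
      field_simp
      ring
    have : 0 ≤ (t * ‖z‖ - R) ^ 2 / (2 * t) := by positivity
    linarith
  have h2 : normSq z = (z₀.re + q.1 + q.2 * τ.re) ^ 2 + (z₀.im + q.2 * τ.im) ^ 2 := by
    rw [hz, hpoi_pt, Complex.normSq_add_mul_I]
  have h3 : normSq z₀ = z₀.re ^ 2 + z₀.im ^ 2 := by
    rw [Complex.normSq_apply]
    ring
  set N : ℝ := (q.1 + q.2 * τ.re) ^ 2 + (q.2 * τ.im) ^ 2 with hN
  have h4 : N ≤ 2 * normSq z + 2 * normSq z₀ := by
    rw [h2, h3, hN]
    nlinarith [sq_nonneg (2 * z₀.re + q.1 + q.2 * τ.re), sq_nonneg (2 * z₀.im + q.2 * τ.im)]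
  have h5 : (q.2 : ℝ) ^ 2 ≤ N / τ.im ^ 2 := by
    rw [le_div_iff₀ (by positivity), hN]
    nlinarith [sq_nonneg (q.1 + q.2 * τ.re)]
  have h6 : (q.1 : ℝ) ^ 2 + (q.2 : ℝ) ^ 2 ≤ K * N := by
    have h7 : (q.1 : ℝ) ^ 2 ≤ 2 * N + 2 * τ.re ^ 2 * (q.2 : ℝ) ^ 2 := by
      rw [hN]
      nlinarith [sq_nonneg (q.1 + 2 * q.2 * τ.re), sq_nonneg (q.2 * τ.im)]
    have h8 := mul_le_mul_of_nonneg_left h5 (by positivity : 0 ≤ 2 * τ.re ^ 2 + 1)
    have e : K * N = 2 * N + (2 * τ.re ^ 2 + 1) * (N / τ.im ^ 2) := by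
      rw [hK]
      ring
    nlinarith
  have h9 := mul_le_mul_of_nonneg_left h6 ha.le
  have e : t / (4 * K) * (K * N) = t / 4 * N := by field_simp
  have h10 := mul_le_mul_of_nonneg_left h4 (by positivity : 0 ≤ t / 4)
  nlinarith

/-- Apply `Complex.tsum_exp_neg_quadratic` to the sum over the first coordinate, exchange the sums, apply it
to the second coordinate, and reindex. With `V = im τ` the dual variables `(k, l)` correspond to
`δ = l' + k' τ`, `(k', l') = ±(k, -l)`. -/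
theorem poisson_lat {τ : ℂ} (hτ : 0 < τ.im) (z₀ w : ℂ) {t : ℝ} (ht : 0 < t) :
    ∑' q : ℤ × ℤ, cexp (-(π * t * normSq (z₀ + (q.1 + q.2 * τ)) : ℝ) + w * (z₀ + (q.1 + q.2 * τ))) =
      1 / (t * τ.im : ℝ) * ∑' q : ℤ × ℤ,
        cexp (-(π * normSq (q.1 + q.2 * τ) / (t * τ.im ^ 2) : ℝ) + w * (q.1 + q.2 * τ) / (t * τ.im : ℝ) +
          2 * π * I * ((z₀ * starRingEnd ℂ (q.1 + q.2 * τ)).im / τ.im : ℝ)) := by
  have hp : (π : ℂ) ≠ 0 := by exact_mod_cast Real.pi_ne_zero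
  have htc : (t : ℂ) ≠ 0 := by exact_mod_cast ht.ne'
  have hVc : (τ.im : ℂ) ≠ 0 := by exact_mod_cast hτ.ne'
  set F : ℤ → ℤ → ℂ := fun m n =>
    cexp (-(π * t * normSq (z₀ + (m + n * τ)) : ℝ) + w * (z₀ + (m + n * τ))) with hF
  set G : ℤ → ℤ → ℂ := fun l k =>
    cexp (-(π * normSq (l + k * τ) / (t * τ.im ^ 2) : ℝ) + w * (l + k * τ) / (t * τ.im : ℝ) +
      2 * π * I * ((z₀ * starRingEnd ℂ (l + k * τ)).im / τ.im : ℝ)) with hG
  set E : ℤ → ℤ → ℂ := fun n k =>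
    cexp (((-(π * t * τ.im ^ 2 * n ^ 2) - 2 * π * t * z₀.im * τ.im * n - π * k ^ 2 / t -
      π * t * z₀.im ^ 2 : ℝ) : ℂ) + ((2 * π * k * (z₀.re + n * τ.re) : ℝ) : ℂ) * I +
      ((τ.im * n - k / t + z₀.im : ℝ) : ℂ) * (I * w) + ((1 / (4 * π * t) : ℝ) : ℂ) * w ^ 2) with hE
  have sF : Summable (Function.uncurry F) := by
    refine Summable.of_norm_bounded (summable_lat hτ z₀ (mul_pos Real.pi_pos ht) ‖w‖) fun q => ?_
    simp only [Function.uncurry, hF]
    rw [Complex.norm_exp]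
    refine Real.exp_le_exp.2 ?_
    rw [Complex.add_re, Complex.neg_re, Complex.ofReal_re, ← norm_mul]
    linarith [Complex.re_le_norm (w * (z₀ + (q.1 + q.2 * τ)))]
  have sG : Summable (Function.uncurry G) := by
    refine Summable.of_norm_bounded (summable_lat hτ 0 (t := π / (t * τ.im ^ 2)) (by positivity)
      (‖w‖ / (t * τ.im))) fun q => ?_
    simp only [Function.uncurry, hG]
    rw [Complex.norm_exp]
    refine Real.exp_le_exp.2 ?_
    have h1 := Complex.re_le_norm (w * (q.1 + q.2 * τ) / (t * τ.im : ℝ))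
    rw [norm_div, norm_mul, Complex.norm_real, Real.norm_of_nonneg (by positivity)] at h1
    have h2 : ∀ x : ℝ, (2 * π * I * (x : ℂ)).re = 0 := fun x => by simp
    rw [Complex.add_re, Complex.add_re, Complex.neg_re, Complex.ofReal_re, h2, zero_add]
    have e1 : π / (t * τ.im ^ 2) * normSq (q.1 + q.2 * τ) =
      π * normSq (q.1 + q.2 * τ) / (t * τ.im ^ 2) := by ring
    have e2 : ‖w‖ / (t * τ.im) * ‖q.1 + q.2 * τ‖ = ‖w‖ * ‖q.1 + q.2 * τ‖ / (t * τ.im) := by ring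
    rw [e1, e2]
    linarith
  have sE : Summable (Function.uncurry E) := by
    refine Summable.of_norm ((hpoi_gauss2 (a := π * t * τ.im ^ 2) (a' := π / t) (by positivity)
      (by positivity) (-(2 * π * t * z₀.im * τ.im) - τ.im * w.im) (w.im / t)
      (-(π * t * z₀.im ^ 2) - z₀.im * w.im + 1 / (4 * π * t) * (w ^ 2).re)).congr fun q => ?_)
    simp only [Function.uncurry, hE]
    rw [Complex.norm_exp]
    congr 1
    simp only [Complex.add_re, Complex.ofReal_re, Complex.re_ofReal_mul, Complex.I_re,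
      Complex.I_mul_re]
    ring
  have s1 : ∀ n : ℤ, ∑' m, F m n = 1 / (√t : ℝ) * ∑' k, E n k := by
    intro n
    have h := hpoi_one ht (-(t * (z₀.re + n * τ.re)) + w / (2 * π))
      (-(π * t * ((z₀.re + n * τ.re) ^ 2 + (z₀.im + n * τ.im) ^ 2)) +
        w * (z₀.re + n * τ.re + (z₀.im + n * τ.im) * I))
    refine Eq.trans (tsum_congr fun m => ?_) (h.trans (congrArg _ (tsum_congr fun k => ?_)))
    · simp only [hF]
      rw [hpoi_pt, Complex.normSq_add_mul_I]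
      congr 1
      push_cast
      field_simp
      ring
    · simp only [hE]
      congr 1
      have h2 : ∀ b : ℂ, (k + I * b) ^ 2 = k ^ 2 + 2 * k * I * b - b ^ 2 := fun b => by
        linear_combination b ^ 2 * I_sq
      rw [h2]
      push_cast
      field_simp
      ring
  have s2 : ∀ k : ℤ, ∑' n, E n k = 1 / (√(t * τ.im ^ 2) : ℝ) * ∑' l, G l (-k) := by
    intro k
    have h := hpoi_one (a := t * τ.im ^ 2) (by positivity)
      (I * k * τ.re - t * z₀.im * τ.im + I * w * τ.im / (2 * π))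
      (-(π * k ^ 2 / t) - π * t * z₀.im ^ 2 + 2 * π * k * z₀.re * I + (z₀.im - k / t) * (I * w) +
        1 / (4 * π * t) * w ^ 2)
    refine Eq.trans (tsum_congr fun n => ?_) (h.trans (congrArg _ (tsum_congr fun l => ?_)))
    · simp only [hE]
      congr 1
      push_cast
      field_simp
      ring
    · simp only [hG]
      have h1 : ((l : ℂ) + ((-k : ℤ) : ℂ) * τ) =
          ((l - k * τ.re : ℝ) : ℂ) + ((-(k * τ.im) : ℝ) : ℂ) * I := by
        apply Complex.ext <;> simp [sub_eq_add_neg]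
      have h2 : (z₀ * starRingEnd ℂ (((l - k * τ.re : ℝ) : ℂ) + ((-(k * τ.im) : ℝ) : ℂ) * I)).im =
          z₀.re * (k * τ.im) + z₀.im * (l - k * τ.re) := by
        simp
      rw [h1, h2, Complex.normSq_add_mul_I]
      congr 1
      have h3 : ((l : ℂ) + I * (I * k * τ.re - t * z₀.im * τ.im + I * w * τ.im / (2 * π))) ^ 2 =
          (l - k * τ.re - w * τ.im / (2 * π)) ^ 2 -
            2 * I * (t * z₀.im * τ.im) * (l - k * τ.re - w * τ.im / (2 * π)) -
              (t * z₀.im * τ.im) ^ 2 := by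
        have h4 : (l : ℂ) + I * (I * k * τ.re - t * z₀.im * τ.im + I * w * τ.im / (2 * π)) =
            (l - k * τ.re - w * τ.im / (2 * π)) - I * (t * z₀.im * τ.im) := by
          linear_combination ((k : ℂ) * τ.re + w * τ.im / (2 * π)) * I_sq
        rw [h4]
        linear_combination ((t : ℂ) * z₀.im * τ.im) ^ 2 * I_sq
      rw [h3]
      push_cast
      field_simp
      ring
  have e1 : ∑' q : ℤ × ℤ, F q.1 q.2 = ∑' n, ∑' m, F m n := sF.tsum_prod.trans sF.tsum_comm.symm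
  have e2 : ∑' q : ℤ × ℤ, G q.1 q.2 = ∑' k, ∑' l, G l (-k) :=
    (sG.tsum_prod.trans sG.tsum_comm.symm).trans
      ((Equiv.neg ℤ).tsum_eq fun k => ∑' l, G l k).symm
  have e3 : ∑' n, ∑' k, E n k = ∑' k, ∑' n, E n k := sE.tsum_comm.symm
  have e4 : (1 : ℂ) / (√t : ℝ) * (1 / (√(t * τ.im ^ 2) : ℝ)) = 1 / (t * τ.im : ℝ) := by
    rw [Real.sqrt_mul ht.le, Real.sqrt_sq hτ.le, div_mul_div_comm, one_mul, ← Complex.ofReal_mul,
      ← mul_assoc, Real.mul_self_sqrt ht.le]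
  change ∑' q : ℤ × ℤ, F q.1 q.2 = 1 / (t * τ.im : ℝ) * ∑' q : ℤ × ℤ, G q.1 q.2
  rw [e1, e2, tsum_congr s1, tsum_mul_left, e3, tsum_congr s2, tsum_mul_left, ← mul_assoc, e4]

theorem hpoi_step {ι : Type} {c a : ι → ℂ}
    (hc : ∀ R : ℝ, Summable fun i => ‖c i‖ * Real.exp (R * ‖a i‖)) (R : ℝ) :
    Summable fun i => ‖c i * a i‖ * Real.exp (R * ‖a i‖) := by
  refine Summable.of_nonneg_of_le (fun i => by positivity) (fun i => ?_) (hc (R + 1))
  rw [norm_mul, add_mul, one_mul, Real.exp_add, mul_assoc]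
  refine mul_le_mul_of_nonneg_left ?_ (norm_nonneg _)
  rw [mul_comm]
  refine mul_le_mul_of_nonneg_left ?_ (Real.exp_pos _).le
  linarith [Real.add_one_le_exp ‖a i‖]

theorem hpoi_deriv {ι : Type} {c a : ι → ℂ}
    (hc : ∀ R : ℝ, Summable fun i => ‖c i‖ * Real.exp (R * ‖a i‖)) (w : ℂ) :
    HasDerivAt (fun z => ∑' i, c i * cexp (z * a i)) (∑' i, c i * a i * cexp (w * a i)) w := by
  have hw : w ∈ Metric.ball (0 : ℂ) (‖w‖ + 1) := by simp
  have h0 : (0 : ℂ) ∈ Metric.ball (0 : ℂ) (‖w‖ + 1) := Metric.mem_ball_self (by positivity)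
  refine hasDerivAt_tsum_of_isPreconnected (g := fun i z => c i * cexp (z * a i))
    (g' := fun i z => c i * a i * cexp (z * a i)) (hpoi_step hc (‖w‖ + 1)) Metric.isOpen_ball
    (convex_ball _ _).isPreconnected (fun i y _ => ?_) (fun i y hy => ?_) h0 ?_ hw
  · have h := (((hasDerivAt_id y).mul_const (a i)).cexp).const_mul (c i)
    simp only [id, one_mul] at h
    rw [mul_assoc, mul_comm (a i)]
    exact h
  · rw [norm_mul (c i * a i), Complex.norm_exp]
    refine mul_le_mul_of_nonneg_left (Real.exp_le_exp.2 ?_) (norm_nonneg _)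
    have h1 : ‖y‖ < ‖w‖ + 1 := by simpa using hy
    refine (Complex.re_le_norm _).trans ?_
    rw [norm_mul]
    exact mul_le_mul_of_nonneg_right h1.le (norm_nonneg _)
  · refine Summable.of_norm ((hc 0).congr fun i => ?_)
    simp

/-- Differentiate `n` times in `w` (`hasDerivAt_tsum_of_isPreconnected` on balls, or
`Complex.hasSum_deriv_of_summable_norm`), `‖a‖ ^ n ≤ n! exp ‖a‖`. -/
theorem moments_eq {ι κ : Type} {c a : ι → ℂ} {d b : κ → ℂ}
    (hc : ∀ R : ℝ, Summable fun i => ‖c i‖ * Real.exp (R * ‖a i‖))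
    (hd : ∀ R : ℝ, Summable fun i => ‖d i‖ * Real.exp (R * ‖b i‖))
    (h : ∀ w : ℂ, ∑' i, c i * cexp (w * a i) = ∑' i, d i * cexp (w * b i)) (n : ℕ) :
    ∑' i, c i * a i ^ n = ∑' i, d i * b i ^ n := by
  induction n generalizing c d with
  | zero => simpa using h 0
  | succ n ih =>
    have h1 : ∀ w : ℂ, ∑' i, c i * a i * cexp (w * a i) = ∑' i, d i * b i * cexp (w * b i) := by
      intro w
      have h2 := hpoi_deriv hc w
      rw [funext h] at h2
      exact h2.unique (hpoi_deriv hd w)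
    have h3 := ih (hpoi_step hc) (hpoi_step hd) h1
    simpa only [pow_succ', mul_assoc] using h3

theorem summable_pow_lat {τ : ℂ} (hτ : 0 < τ.im) (z₀ : ℂ) {t : ℝ} (ht : 0 < t) (n : ℕ) :
    Summable fun q : ℤ × ℤ => ‖z₀ + (q.1 + q.2 * τ)‖ ^ n *
      Real.exp (-(t * normSq (z₀ + (q.1 + q.2 * τ)))) := by
  refine Summable.of_nonneg_of_le (fun q => by positivity) (fun q => ?_)
    ((summable_lat hτ z₀ ht 1).mul_left (n.factorial : ℝ))
  have h := Real.pow_div_factorial_le_exp _ (norm_nonneg (z₀ + (q.1 + q.2 * τ))) n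
  rw [div_le_iff₀ (by positivity)] at h
  rw [Real.exp_add, one_mul]
  have h2 := mul_le_mul_of_nonneg_right h
    (Real.exp_pos (-(t * normSq (z₀ + (q.1 + q.2 * τ))))).le
  linarith

/-- `moments_eq` applied to `poisson_lat`. -/
theorem poisson_pow {τ : ℂ} (hτ : 0 < τ.im) (z₀ : ℂ) {t : ℝ} (ht : 0 < t) (n : ℕ) :
    ∑' q : ℤ × ℤ, (z₀ + (q.1 + q.2 * τ)) ^ n * (Real.exp (-(π * t * normSq (z₀ + (q.1 + q.2 * τ)))) : ℝ) =
      1 / ((t * τ.im : ℝ) : ℂ) ^ (n + 1) * ∑' q : ℤ × ℤ, ((q.1 : ℂ) + q.2 * τ) ^ n *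
        (Real.exp (-(π * normSq (q.1 + q.2 * τ) / (t * τ.im ^ 2))) : ℝ) *
          cexp (2 * π * I * ((z₀ * starRingEnd ℂ (q.1 + q.2 * τ)).im / τ.im : ℝ)) := by
  have hV : 0 < t * τ.im := mul_pos ht hτ
  have h := moments_eq (ι := ℤ × ℤ) (κ := ℤ × ℤ)
    (c := fun q => (Real.exp (-(π * t * normSq (z₀ + (q.1 + q.2 * τ)))) : ℝ))
    (a := fun q => z₀ + (q.1 + q.2 * τ))
    (d := fun q => 1 / (t * τ.im : ℝ) *
      ((Real.exp (-(π * normSq (q.1 + q.2 * τ) / (t * τ.im ^ 2))) : ℝ) *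
        cexp (2 * π * I * ((z₀ * starRingEnd ℂ (q.1 + q.2 * τ)).im / τ.im : ℝ))))
    (b := fun q => (q.1 + q.2 * τ) / (t * τ.im : ℝ)) (fun R => ?_) (fun R => ?_) (fun w => ?_) n
  · refine (tsum_congr fun q => mul_comm _ _).trans (h.trans ?_)
    rw [← tsum_mul_left]
    refine tsum_congr fun q => ?_
    rw [div_pow]
    ring
  · refine (summable_lat hτ z₀ (mul_pos Real.pi_pos ht) R).congr fun q => ?_
    rw [Complex.norm_real, Real.norm_of_nonneg (Real.exp_pos _).le, Real.exp_add]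
  · refine ((summable_lat hτ 0 (t := π / (t * τ.im ^ 2)) (by positivity)
      (R / (t * τ.im))).mul_left (1 / (t * τ.im))).congr fun q => ?_
    have h2 : ∀ x : ℝ, ‖cexp (2 * π * I * (x : ℂ))‖ = 1 := fun x => by
      rw [Complex.norm_exp]
      simp
    rw [norm_mul, norm_mul, h2, norm_div, norm_div, norm_one, Complex.norm_real, Complex.norm_real,
      Real.norm_of_nonneg hV.le, Real.norm_of_nonneg (Real.exp_pos _).le, mul_one, mul_assoc,
      ← Real.exp_add, zero_add]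
    congr 2
    ring
  · have h1 := poisson_lat hτ z₀ w ht
    rw [← tsum_mul_left] at h1
    refine (tsum_congr fun q => ?_).trans (h1.trans (tsum_congr fun q => ?_))
    · rw [Complex.ofReal_exp, ← Complex.exp_add, Complex.ofReal_neg]
    · rw [Complex.ofReal_exp, ← Complex.exp_add, mul_assoc (1 / _), ← Complex.exp_add,
        Complex.ofReal_neg]
      congr 2
      ring

end Pool.Agent.Lib.MP_bcfefa_nt
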