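import Pool.Agent.Lib.MP_bcfefa_nt.GIdl
import Pool.Agent.Lib.MP_bcfefa_nt.HPoi

set_option autoImplicit false

noncomputable section

namespace Pool.Agent.Lib.MP_bcfefa_nt

open Complex Finset NumberField Pool.Agent.Lib.MP_03e5d0_nt
open scoped Real

/-! Poisson summation on an ideal, and sums over generators and residue classes. -/

variable {K : Type} [Field K] [NumberField K]

namespace Rk

variable (R : Rk K)

/-- `exists_lat` for `⊤` (or the coordinates `x + y w`), `summable_pow_lat`. -/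
theorem summable_el (n : ℕ) {t : ℝ} (ht : 0 < t) :
    Summable fun α : 𝓞 K => ‖R.ι α‖ ^ n * Real.exp (-(t * normSq (R.ι α))) := by
  have hb : Function.Bijective fun q : ℤ × ℤ => ((q.1 : 𝓞 K) + q.2 * R.w) :=
    ⟨fun q q' h => Prod.ext (R.el_inj h).1 (R.el_inj h).2, fun α => by
      obtain ⟨x, y, h⟩ := R.gen α
      exact ⟨(x, y), h.symm⟩⟩
  rw [← (Equiv.ofBijective _ hb).summable_iff]
  refine (summable_pow_lat (τ := R.ι R.w) R.V_pos 0 ht n).congr fun q => ?_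
  simp only [Function.comp, Equiv.ofBijective_apply, R.ι_el, zero_add]

/-- `exists_lat`; `poisson_pow` with `τ = ω₂ / ω₁`, `z₀ = r / ω₁` and `t * normSq ω₁` in place of `t`;
multiply by `ω₁ ^ n`. -/
theorem poisson_ideal {c : Ideal (𝓞 K)} (hc : c ≠ ⊥) (r : 𝓞 K) {t : ℝ} (ht : 0 < t) (n : ℕ) :
    ∑' β : c, R.ι (r + β) ^ n * (Real.exp (-(π * t * normSq (R.ι (r + β)))) : ℝ) =
      1 / ((t * (nI c * R.V) : ℝ) : ℂ) ^ (n + 1) * ∑' δ : c, R.ι δ ^ n *
        (Real.exp (-(π * normSq (R.ι δ) / (t * (nI c * R.V) ^ 2))) : ℝ) *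
          cexp (2 * π * I * ((R.ι (r * R.cj δ)).im / (nI c * R.V) : ℝ)) := by
  obtain ⟨ω₁, ω₂, h1, hτ, hW, e, he⟩ := R.exists_lat hc
  have hω : R.ι ω₁ ≠ 0 := fun h => h1 (R.ι_inj (by rw [h, map_zero]))
  have hN : 0 < normSq (R.ι ω₁) := normSq_pos.2 hω
  have hl : ∀ q : ℤ × ℤ, R.ι (e q : c) = R.ι ω₁ * (q.1 + q.2 * (R.ι ω₂ / R.ι ω₁)) := by
    intro q
    rw [he, map_add, map_mul, map_mul, map_intCast, map_intCast]
    field_simp
  have hr : R.ι r = R.ι ω₁ * (R.ι r / R.ι ω₁) := by field_simp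
  have h := poisson_pow hτ (R.ι r / R.ι ω₁) (mul_pos ht hN) n
  rw [← hW, ← e.tsum_eq, ← e.tsum_eq]
  generalize R.ι ω₂ / R.ι ω₁ = τ at hτ hl h ⊢
  generalize R.ι r / R.ι ω₁ = z at hr h
  have hτ' : τ.im ≠ 0 := hτ.ne'
  have hN' : normSq (R.ι ω₁) ≠ 0 := hN.ne'
  have ht' : t ≠ 0 := ht.ne'
  have e1 : ∀ q : ℤ × ℤ, R.ι (r + (e q : c)) ^ n *
      (Real.exp (-(π * t * normSq (R.ι (r + (e q : c))))) : ℝ) =
      R.ι ω₁ ^ n * ((z + (q.1 + q.2 * τ)) ^ n *
        (Real.exp (-(π * (t * normSq (R.ι ω₁)) * normSq (z + (q.1 + q.2 * τ)))) : ℝ)) := by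
    intro q
    have a1 : R.ι (r + (e q : c)) = R.ι ω₁ * (z + (q.1 + q.2 * τ)) := by
      rw [map_add, hl, hr, mul_add (R.ι ω₁) z]
    rw [a1, map_mul, mul_pow, mul_assoc]
    congr 5
    ring
  have e2 : ∀ q : ℤ × ℤ, R.ι (e q : c) ^ n *
      (Real.exp (-(π * normSq (R.ι (e q : c)) / (t * (normSq (R.ι ω₁) * τ.im) ^ 2))) : ℝ) *
        cexp (2 * π * I * ((R.ι (r * R.cj (e q : c))).im / (normSq (R.ι ω₁) * τ.im) : ℝ)) =
      R.ι ω₁ ^ n * (((q.1 : ℂ) + q.2 * τ) ^ n *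
        (Real.exp (-(π * normSq (q.1 + q.2 * τ) / (t * normSq (R.ι ω₁) * τ.im ^ 2))) : ℝ) *
          cexp (2 * π * I * ((z * starRingEnd ℂ (q.1 + q.2 * τ)).im / τ.im : ℝ))) := by
    intro q
    have a1 : R.ι (r * R.cj (e q : c)) =
        (normSq (R.ι ω₁) : ℂ) * (z * starRingEnd ℂ (q.1 + q.2 * τ)) := by
      rw [map_mul, R.ι_cj, hl, hr, map_mul, ← Complex.mul_conj]
      ring
    have a2 : (R.ι (r * R.cj (e q : c))).im / (normSq (R.ι ω₁) * τ.im) =
        (z * starRingEnd ℂ (q.1 + q.2 * τ)).im / τ.im := by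
      rw [a1, Complex.im_ofReal_mul]
      field_simp
    have a3 : π * normSq (R.ι (e q : c)) / (t * (normSq (R.ι ω₁) * τ.im) ^ 2) =
        π * normSq (q.1 + q.2 * τ) / (t * normSq (R.ι ω₁) * τ.im ^ 2) := by
      rw [hl, map_mul]
      field_simp
    rw [a2, a3, hl, mul_pow]
    ring
  rw [tsum_congr e1, tsum_congr e2, tsum_mul_left, tsum_mul_left, h, mul_assoc t]
  ring

open Classical in
include R in
/-- Each `α ∈ c` determines an ideal `J` with `sp α = c * J`. Use `HasSum.tsum_fiberwise` for this map: the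
fibre of `J` is empty if `c * J` is not principal, it is `{0}` if `J = ⊥`, and otherwise it is in bijection
with the units (`Ideal.span_singleton_eq_span_singleton`, `finite_units`). -/
theorem tsum_gen {c : Ideal (𝓞 K)} (hc : c ≠ ⊥) {g : 𝓞 K → ℂ} {F : Ideal (𝓞 K) → ℂ} (h0 : F ⊥ = 0)
    (hF : ∀ α J, sp α = c * J → g α = F J) (hg : Summable fun α : c => g α) :
    ∑' α : c, g α = (Nat.card (𝓞 K)ˣ : ℂ) * ∑' J, if (c * J).IsPrincipal then F J else 0 := by
  have hex : ∀ α : c, ∃ J, sp (α : 𝓞 K) = c * J := fun α =>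
    Ideal.dvd_iff_le.2 ((Ideal.span_singleton_le_iff_mem c).2 α.2)
  choose φ hφ using hex
  have hfib : ∀ (α : c) (J : Ideal (𝓞 K)), φ α = J ↔ sp (α : 𝓞 K) = c * J := fun α J =>
    ⟨fun h => h ▸ hφ α, fun h => mul_left_cancel₀ hc ((hφ α).symm.trans h)⟩
  rw [← (hg.hasSum.tsum_fiberwise φ).tsum_eq, ← tsum_mul_left]
  refine tsum_congr fun J => ?_
  have h1 : ∀ a : φ ⁻¹' {J}, g (a : c) = F J := fun a => hF _ J ((hfib a J).1 a.2)
  rw [tsum_congr h1, tsum_const, nsmul_eq_mul]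
  by_cases hJ : J = ⊥
  · rw [hJ, h0]
    simp
  split_ifs with hp
  · obtain ⟨γ, hγ⟩ := hp
    have hγ' : c * J = sp γ := hγ
    have hγ0 : γ ≠ 0 := by
      rintro rfl
      rw [sp, Ideal.span_singleton_zero] at hγ'
      exact mul_ne_zero hc hJ hγ'
    have hγc : γ ∈ c := by
      have h2 : γ ∈ c * J := by
        rw [hγ']
        exact Ideal.mem_span_singleton_self γ
      exact Ideal.dvd_iff_le.1 (dvd_mul_right c J) h2
    have hb : Function.Bijective fun u : (𝓞 K)ˣ =>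
        (⟨⟨γ * u, c.mul_mem_right _ hγc⟩, (hfib _ J).2 (by
          rw [hγ']
          exact Ideal.span_singleton_mul_right_unit u.isUnit γ)⟩ : φ ⁻¹' {J}) := by
      constructor
      · intro u u' h
        have h2 : γ * u = γ * u' := congrArg (fun a : φ ⁻¹' {J} => ((a : c) : 𝓞 K)) h
        exact Units.ext (mul_left_cancel₀ hγ0 h2)
      · intro a
        have h2 : sp γ = sp ((a : c) : 𝓞 K) := hγ'.symm.trans ((hfib a J).1 a.2).symm
        obtain ⟨u, hu⟩ := Ideal.span_singleton_eq_span_singleton.1 h2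
        exact ⟨u, Subtype.ext (Subtype.ext hu)⟩
    rw [Nat.card_eq_of_bijective _ hb]
  · have : IsEmpty (φ ⁻¹' {J}) := ⟨fun a => hp ⟨((a : c) : 𝓞 K), ((hfib a J).1 a.2).symm⟩⟩
    simp

/-- The bijection `(s, β) ↦ nI c * s.out + β`. Injective: if `nI c * (s - s') ∈ f * c` then
`f ∣ cI c * sp (s - s')` (`mul_cI`). Surjective: `1 = u + v` with `u ∈ cI c`, `v ∈ f`; for `α ∈ c` one has
`α u = nI c * s` and `α v ∈ f * c`. The quotient is finite (`Ideal.finiteQuotientOfFreeOfNeBot`). -/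
theorem tsum_res {c f : Ideal (𝓞 K)} (hc : c ≠ ⊥) (hf : f ≠ ⊥) (h : IsCoprime (R.cI c) f)
    {g : 𝓞 K → ℂ} (hg : Summable g) :
    ∑' α : c, g α = ∑ᶠ s : 𝓞 K ⧸ f, ∑' β : (f * c : Ideal (𝓞 K)), g (nI c * s.out + β) := by
  have hn : (nI c : 𝓞 K) ∈ c := Ideal.absNorm_mem c
  have hle : f * c ≤ c := Ideal.dvd_iff_le.1 (dvd_mul_left c f)
  have : Finite (𝓞 K ⧸ f) := Ideal.finiteQuotientOfFreeOfNeBot f hf
  have : Fintype (𝓞 K ⧸ f) := Fintype.ofFinite _
  have hb : Function.Bijective fun a : (𝓞 K ⧸ f) × (f * c : Ideal (𝓞 K)) =>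
      (⟨nI c * a.1.out + a.2, c.add_mem (c.mul_mem_right _ hn) (hle a.2.2)⟩ : c) := by
    constructor
    · rintro ⟨s, β⟩ ⟨s', β'⟩ hh
      have h1 : (nI c : 𝓞 K) * s.out + β = nI c * s'.out + β' := congrArg Subtype.val hh
      have h2 : (nI c : 𝓞 K) * (s.out - s'.out) ∈ f * c := by
        have e : (nI c : 𝓞 K) * (s.out - s'.out) = β' - β := by linear_combination h1
        rw [e]
        exact (f * c).sub_mem β'.2 β.2
      have h3 : c * f ∣ c * (R.cI c * sp (s.out - s'.out)) := by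
        rw [← mul_assoc, R.mul_cI, Ideal.span_singleton_mul_span_singleton, mul_comm c f]
        exact Ideal.dvd_iff_le.2 ((Ideal.span_singleton_le_iff_mem _).2 h2)
      have h4 : f ∣ sp (s.out - s'.out) :=
        h.symm.dvd_of_dvd_mul_left ((mul_dvd_mul_iff_left hc).1 h3)
      have h5 : s = s' := by
        rw [← Ideal.Quotient.mk_out s, ← Ideal.Quotient.mk_out s']
        exact Ideal.Quotient.eq.2 ((Ideal.span_singleton_le_iff_mem _).1 (Ideal.dvd_iff_le.1 h4))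
      subst h5
      exact Prod.ext rfl (Subtype.ext (add_left_cancel h1))
    · intro α
      obtain ⟨u, hu, v, hv, huv⟩ := Ideal.isCoprime_iff_exists.1 h
      have h1 : (α : 𝓞 K) * u ∈ sp (nI c : 𝓞 K) := R.mul_cI c ▸ Ideal.mul_mem_mul α.2 hu
      obtain ⟨s, hs⟩ := Ideal.mem_span_singleton'.1 h1
      have h2 : s - (Ideal.Quotient.mk f s).out ∈ f :=
        Ideal.Quotient.eq.1 (Ideal.Quotient.mk_out _).symm
      refine ⟨(Ideal.Quotient.mk f s, ⟨v * α + (s - (Ideal.Quotient.mk f s).out) * nI c,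
        (f * c).add_mem (Ideal.mul_mem_mul hv α.2) (Ideal.mul_mem_mul h2 hn)⟩), Subtype.ext ?_⟩
      show (nI c : 𝓞 K) * (Ideal.Quotient.mk f s).out +
        (v * α + (s - (Ideal.Quotient.mk f s).out) * nI c) = α
      linear_combination hs + (α : 𝓞 K) * huv
  have hs : Summable fun α : c => g α := hg.subtype _
  rw [← (Equiv.ofBijective _ hb).tsum_eq]
  refine ((Equiv.ofBijective _ hb).summable_iff.2 hs).tsum_prod.trans ?_
  rw [tsum_fintype, finsum_eq_sum_of_fintype]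
  rfl

end Rk

end Pool.Agent.Lib.MP_bcfefa_nt
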