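import Pool.Agent.Lib.MP_bcfefa_nt.GSpl

set_option autoImplicit false

noncomputable section

namespace Pool.Agent.Lib.MP_bcfefa_nt

open Complex Finset NumberField Pool.Agent.Lib.MP_03e5d0_nt
open scoped Real

/-! The points of the torus and the subgroup of finite index. -/

variable {K : Type} [Field K] [NumberField K]

/-- Take roots in each coordinate (`exists_co`, `IsAlgClosed.exists_pow_nat_eq`), `ch_eq_prod`. -/
theorem exists_root (z : Tor) {d : ℕ} (hd : 0 < d) : ∃ u : Tor, ∀ e : Xp, ch e u ^ d = ch e z := by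
  choose w hw using fun p => IsAlgClosed.exists_pow_nat_eq (co z p) hd
  obtain ⟨u, hu⟩ := exists_co w fun p => by
    have h := congrArg norm (hw p)
    rw [norm_pow, norm_co] at h
    exact (pow_eq_one_iff_of_nonneg (norm_nonneg _) hd.ne').1 h
  refine ⟨u, fun e => ?_⟩
  rw [ch_eq_prod (Subset.refl _), ch_eq_prod (Subset.refl _), ← prod_pow]
  refine prod_congr rfl fun p _ => ?_
  rw [hu, ← hw p, ← zpow_natCast, ← zpow_mul, mul_comm, zpow_mul, zpow_natCast]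

/-- The map `x ↦ c x.out` on the quotient is injective. -/
theorem index_ne_zero {A ι : Type} [AddCommGroup A] (G : AddSubgroup A) {T : Set ι} (hT : T.Finite)
    (c : A → ι) (hc : ∀ a, c a ∈ T) (h : ∀ a b, c a = c b → a - b ∈ G) : G.index ≠ 0 := by
  have h1 : Finite T := hT
  have h2 : Finite (A ⧸ G) := by
    refine Finite.of_injective (fun x : A ⧸ G => (⟨c x.out, hc _⟩ : T)) fun x y hxy => ?_
    have h3 := h _ _ (congrArg Subtype.val hxy).symm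
    rw [← x.out_eq, ← y.out_eq]
    exact QuotientAddGroup.eq.2 (by rwa [neg_add_eq_sub])
  exact AddSubgroup.index_ne_zero_of_finite

namespace Gk

variable (H : Gk K)

/-- The ideal of `e` has a generator whose squared argument is the value of `e` at `u`. -/
def Rel (u : Tor) (e : Xp) : Prop :=
  ∃ γ : 𝓞 K, H.cE e = sp γ ∧ ch e u * starRingEnd ℂ (H.ι γ) = H.ι γ

variable {H} {u : Tor} {e e' : Xp} {ψ μ : Ideal (𝓞 K) →* ℂ}

theorem Rel.zero : H.Rel u 0 :=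
  ⟨1, cE_zero.trans Ideal.span_singleton_one.symm, by rw [ch_zero, map_one, map_one, one_mul]⟩

omit [NumberField K] in
theorem gpts_sp (α β : 𝓞 K) : sp (α * β) = sp α * sp β :=
  (Ideal.span_singleton_mul_span_singleton α β).symm

theorem gpts_rel {s : ℕ} (hs : 0 < s) {γ : 𝓞 K} (h : sp (s : 𝓞 K) * H.cE e = sp γ)
    (h' : ch e u * starRingEnd ℂ (H.ι γ) = H.ι γ) : H.Rel u e := by
  obtain ⟨δ, hδ, hι⟩ := H.exists_div hs h
  refine ⟨δ, hδ, ?_⟩
  have hs' : (s : ℂ) ≠ 0 := Nat.cast_ne_zero.2 hs.ne'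
  rw [hι, map_mul, map_natCast] at h'
  apply mul_left_cancel₀ hs'
  linear_combination h'

/-- `cE_mul`, `exists_div`. -/
theorem Rel.add (h : H.Rel u e) (h' : H.Rel u e') : H.Rel u (e + e') := by
  obtain ⟨γ, hγ, h1⟩ := h
  obtain ⟨γ', hγ', h2⟩ := h'
  obtain ⟨s, hs, h3⟩ := cE_mul (H := H) e e'
  rw [hγ, hγ', Ideal.span_singleton_mul_span_singleton] at h3
  refine gpts_rel hs h3.symm ?_
  rw [ch_add, map_mul, map_mul]
  calc _ = ch e u * starRingEnd ℂ (H.ι γ) * (ch e' u * starRingEnd ℂ (H.ι γ')) := by ring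
    _ = _ := by rw [h1, h2]

/-- `cI_cE`, `ch_neg`. -/
theorem Rel.neg (h : H.Rel u e) : H.Rel u (-e) := by
  obtain ⟨γ, hγ, h1⟩ := h
  refine ⟨H.cj γ, by rw [← cI_cE, hγ, H.cI_sp], ?_⟩
  rw [ch_neg, H.ι_cj, ← map_mul, h1]

/-- `‖ch e u - 1‖ * ‖γ‖ = 2 |im γ|`; if `γ` is real then `cj γ = γ`, which contradicts `cE_ne`. -/
theorem Rel.sep (h : H.Rel u e) (he : H.Ok e) (h0 : e ≠ 0) : H.V ≤ √(Nm e) * ‖ch e u - 1‖ := by
  obtain ⟨γ, hγ, h1⟩ := h
  have him : (H.ι γ).im ≠ 0 := by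
    intro h2
    have h3 : H.cj γ = γ := H.ι_inj (by rw [H.ι_cj]; exact conj_eq_iff_im.2 h2)
    exact cE_ne he h0 (by rw [← cI_cE, hγ, H.cI_sp, h3])
  have h4 : √(Nm e : ℝ) = ‖H.ι γ‖ := by
    rw [← nI_cE he, hγ, H.nI_sp, normSq_eq_norm_sq, Real.sqrt_sq (norm_nonneg _)]
  have h5 : starRingEnd ℂ (H.ι γ) * (ch e u - 1) = ((2 * (H.ι γ).im : ℝ) : ℂ) * I := by
    rw [← sub_conj]
    linear_combination h1
  have h6 := congrArg norm h5
  rw [norm_mul, norm_mul, norm_I, mul_one, Complex.norm_real, Real.norm_eq_abs, abs_mul,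
    abs_two, Complex.norm_conj] at h6
  rw [h4, h6]
  have h7 := H.im_ge him
  have h8 := H.V_pos
  linarith

variable (H u) in
/-- The subgroup. -/
def GG : AddSubgroup Xp where
  carrier := {e | H.Rel u e}
  add_mem' := Rel.add
  zero_mem' := Rel.zero
  neg_mem' := Rel.neg

/-- Take `ρ` from `exists_reps`. For each `e` choose `c` and `γ` with `ρ c * cE e = sp γ`; the colour of `e`
is `(c, ω)` with `ω = ch e u * conj γ / γ`. From `μ (ρ c) * μ (cE e) = γ ^ (2 d)` and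
`nI (ρ c) * nI (cE e) = γ * conj γ` one gets `ω ^ d = nI (ρ c) ^ d / μ (ρ c)`, so there are finitely many
colours (`Polynomial.nthRoots`). If `e, e'` have the same colour then
`sp (nI (ρ c) * s) * cE (e - e') = sp (γ * cj γ')`; `exists_div`, `index_ne_zero`. -/
theorem GG_index {d : ℕ} (hd : 0 < d) (hμ : H.IsU μ (2 * d))
    (hu : ∀ e : Xp, ch e u ^ d * (nI (H.cE e) : ℂ) ^ d = μ (H.cE e)) : (H.GG u).index ≠ 0 := by
  classical
  obtain ⟨ρ, hρ, hex⟩ := exists_reps H.f_ne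
  have h1 : ∀ e : Xp, ∃ (c : ClassGroup (𝓞 K)) (γ : 𝓞 K), ρ c * H.cE e = sp γ := fun e => by
    obtain ⟨c, ⟨γ, hγ⟩, -⟩ := hex _ (cE_ne_bot e)
    exact ⟨c, γ, hγ⟩
  choose c γ hγ using h1
  have hγ0 : ∀ e, H.ι (γ e) ≠ 0 := fun e h0 => by
    have h2 : γ e = 0 := H.ι_inj (h0.trans (map_zero _).symm)
    have h3 := hγ e
    rw [h2, sp, Ideal.span_singleton_zero, Ideal.mul_eq_bot] at h3
    exact h3.elim (hρ _).2 (cE_ne_bot e)
  have hT : (⋃ k : ClassGroup (𝓞 K),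
      Prod.mk k '' {ω : ℂ | ω ^ d = (nI (ρ k) : ℂ) ^ d / μ (ρ k)}).Finite := by
    refine Set.finite_iUnion fun k => Set.Finite.image _ ?_
    refine (Polynomial.nthRoots d ((nI (ρ k) : ℂ) ^ d / μ (ρ k))).toFinset.finite_toSet.subset
      fun ω hω => ?_
    rw [mem_coe, Multiset.mem_toFinset, Polynomial.mem_nthRoots hd]
    exact hω
  refine index_ne_zero _ hT
    (fun e => (c e, ch e u * starRingEnd ℂ (H.ι (γ e)) / H.ι (γ e))) (fun e => ?_) fun e e' h => ?_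
  · refine Set.mem_iUnion.2 ⟨c e, _, ?_, rfl⟩
    have h2 : μ (ρ (c e)) * μ (H.cE e) = H.ι (γ e) ^ (2 * d) := by rw [← map_mul, hγ, hμ]
    have h3 : (nI (ρ (c e)) : ℂ) * (nI (H.cE e) : ℂ) = H.ι (γ e) * starRingEnd ℂ (H.ι (γ e)) := by
      rw [mul_conj, ← H.nI_sp, ← hγ, nI, nI, nI, map_mul]
      push_cast
      rfl
    have h4 : μ (ρ (c e)) ≠ 0 := hμ.ne_zero (hρ _).2
    have h5 : (nI (H.cE e) : ℂ) ^ d ≠ 0 :=
      pow_ne_zero _ (Nat.cast_ne_zero.2 fun h0 => cE_ne_bot e (Ideal.absNorm_eq_zero_iff.1 h0))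
    have h6 : H.ι (γ e) ^ d ≠ 0 := pow_ne_zero _ (hγ0 e)
    have h7 : (nI (ρ (c e)) : ℂ) ^ d * (nI (H.cE e) : ℂ) ^ d =
        H.ι (γ e) ^ d * starRingEnd ℂ (H.ι (γ e)) ^ d := by rw [← mul_pow, h3, mul_pow]
    rw [← hu e, two_mul, pow_add] at h2
    change (ch e u * starRingEnd ℂ (H.ι (γ e)) / H.ι (γ e)) ^ d = _
    rw [div_pow, mul_pow, div_eq_div_iff h6 h4]
    apply mul_right_cancel₀ h5
    linear_combination starRingEnd ℂ (H.ι (γ e)) ^ d * h2 - H.ι (γ e) ^ d * h7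
  · have hc : c e = c e' := congrArg Prod.fst h
    have hω : ch e u * starRingEnd ℂ (H.ι (γ e)) / H.ι (γ e) =
        ch e' u * starRingEnd ℂ (H.ι (γ e')) / H.ι (γ e') := congrArg Prod.snd h
    rw [div_eq_div_iff (hγ0 e) (hγ0 e')] at hω
    obtain ⟨s, hs, h3⟩ := cE_mul (H := H) e (-e')
    have h4 : 0 < nI (ρ (c e)) :=
      Nat.pos_of_ne_zero fun h0 => (hρ _).2 (Ideal.absNorm_eq_zero_iff.1 h0)
    have h5 : sp ((nI (ρ (c e)) * s : ℕ) : 𝓞 K) * H.cE (e + -e') = sp (γ e * H.cj (γ e')) := by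
      rw [Nat.cast_mul, gpts_sp, gpts_sp, mul_assoc, ← h3, ← H.mul_cI, ← H.cI_sp, ← hγ e,
        ← hγ e', ← hc, H.cI_mul, cI_cE]
      ring
    have h6 : ch e' u * starRingEnd ℂ (ch e' u) = 1 := by
      rw [mul_conj, normSq_eq_norm_sq, norm_ch]
      simp
    rw [sub_eq_add_neg]
    refine gpts_rel (Nat.mul_pos h4 hs) h5 ?_
    rw [ch_add, ch_neg, map_mul, H.ι_cj, map_mul, conj_conj]
    linear_combination starRingEnd ℂ (ch e' u) * hω +
      starRingEnd ℂ (H.ι (γ e')) * H.ι (γ e) * h6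

/-- `exists_pt` for `μ` and for `ψ`, `exists_root`; `ζ = z * (u ^ j₀)⁻¹`. -/
theorem exists_pts {j₀ d : ℕ} (hj : 1 ≤ j₀) (hd : 0 < d) (hψ : H.IsH ψ (2 * j₀ - 1))
    (hμ : H.IsU μ (2 * d)) : ∃ u ζ : Tor,
    (∀ e : Xp, ch e u ^ d * (nI (H.cE e) : ℂ) ^ d = μ (H.cE e)) ∧
    ∀ (e : Xp) (r : ℕ), ch e ζ * ch e u ^ (j₀ + d * r) *
      ((√(nI (H.cE e)) : ℝ) : ℂ) ^ (2 * (j₀ + d * r) - 1) = (ψ * μ ^ r) (H.cE e) := by
  obtain ⟨z₁, h₁⟩ := exists_pt (H := H) (φ := μ) (n := 2 * d)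
    (fun p => hμ.cI_eq (H.ne_bot (coprime_pI p))) fun p => hμ.norm_eq (H.ne_bot (coprime_pI p))
  obtain ⟨z₂, h₂⟩ := exists_pt (H := H) (φ := ψ) (n := 2 * j₀ - 1)
    (fun p => hψ.cI_eq _) fun p => hψ.norm_eq (coprime_pI p)
  obtain ⟨u, hu⟩ := exists_root z₁ hd
  refine ⟨u, z₂ * (u ^ j₀)⁻¹, fun e => ?_, fun e r => ?_⟩
  · rw [hu, ← h₁ e, pow_mul, ← ofReal_pow, Real.sq_sqrt (Nat.cast_nonneg _), ofReal_natCast]
  · have h3 : ch e (z₂ * (u ^ j₀)⁻¹) * ch e u ^ j₀ = ch e z₂ := by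
      rw [← ch_pow, ← ch_mul, inv_mul_cancel_right]
    have h4 : 2 * (j₀ + d * r) - 1 = 2 * j₀ - 1 + 2 * d * r := by
      rw [mul_add, mul_assoc]
      omega
    rw [MonoidHom.mul_apply, MonoidHom.pow_apply, ← h₁ e, ← h₂ e, ← hu, ← h3, h4, pow_add, pow_add,
      pow_mul, pow_mul _ (2 * d) r, mul_pow]
    ring

end Gk

end Pool.Agent.Lib.MP_bcfefa_nt
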