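import Pool.Agent.Lib.MP_bcfefa_nt.GDef

set_option autoImplicit false

noncomputable section

namespace Pool.Agent.Lib.MP_bcfefa_nt

open Complex Finset NumberField Pool.Agent.Lib.MP_03e5d0_nt
open scoped Real

/-! The ring of integers of an imaginary quadratic field. Compare `HRing` (class number one). -/

variable {K : Type} [Field K] [NumberField K]

theorem gring_mk (σ : K →+* ℂ) (w : 𝓞 K) (h : 0 < (σ w).im)
    (hg : ∀ α : 𝓞 K, ∃ x y : ℤ, α = x + y * w) : ∃ R : Rk K, R.σ = σ := by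
  obtain ⟨a, b, hab⟩ := hg (w ^ 2)
  exact ⟨⟨σ, w, a, b, hab, h, hg⟩, rfl⟩

theorem gring_two {M : Type} [AddCommGroup M] (e : Module.Basis (Fin 2) ℤ M) (α : M) :
    α = e.repr α 0 • e 0 + e.repr α 1 • e 1 := by
  have h := e.sum_repr α
  rw [Fin.sum_univ_two] at h
  exact h.symm

/-- Let `e₁, e₂` be an integral basis and `1 = x e₁ + y e₂`. A common divisor `g` of `x, y` is a unit of the
ring of integers, so `g = ±1` (norms). With `x s - y r = 1` put `w = ± (r e₁ + s e₂)`. If `σ w` were real,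
then `σ` would be real on `K`. -/
theorem exists_rk (h2 : Module.finrank ℚ K = 2) (σ : K →+* ℂ) (hσ : ∃ x, (σ x).im ≠ 0) :
    ∃ R : Rk K, R.σ = σ := by
  let e : Module.Basis (Fin 2) ℤ (𝓞 K) :=
    Module.finBasisOfFinrankEq ℤ (𝓞 K) (by rw [RingOfIntegers.rank, h2])
  have h1 := gring_two e 1
  generalize e.repr 1 0 = x at h1
  generalize e.repr 1 1 = y at h1
  rw [zsmul_eq_mul, zsmul_eq_mul] at h1
  have hc : IsCoprime x y := by
    obtain ⟨x', hx⟩ := Int.gcd_dvd_left x y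
    obtain ⟨y', hy⟩ := Int.gcd_dvd_right x y
    rw [Int.isCoprime_iff_gcd_eq_one]
    generalize Int.gcd x y = g at hx hy
    have h3 : IsUnit (algebraMap ℤ (𝓞 K) (g : ℤ)) := by
      refine IsUnit.of_mul_eq_one (x' * e 0 + y' * e 1) ?_
      rw [h1, hx, hy]
      simp only [eq_intCast, Int.cast_mul]
      ring
    have h4 : IsUnit (g : ℤ) := isUnit_of_map_unit _ _ h3
    exact Nat.isUnit_iff.1 (Int.ofNat_isUnit.1 h4)
  obtain ⟨s, t, hst⟩ := hc
  have h5 : (s : 𝓞 K) * x + t * y = 1 := by exact_mod_cast hst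
  have hg : ∀ α : 𝓞 K, ∃ u v : ℤ, α = u + v * (-t * e 0 + s * e 1) := fun α => by
    refine ⟨e.repr α 0 * s + e.repr α 1 * t, e.repr α 1 * x - e.repr α 0 * y, ?_⟩
    have h6 := gring_two e α
    generalize e.repr α 0 = p at h6 ⊢
    generalize e.repr α 1 = q at h6 ⊢
    rw [zsmul_eq_mul, zsmul_eq_mul] at h6
    push_cast
    linear_combination h6 - (p * e 0 + q * e 1) * h5 - (p * s + q * t) * h1
  generalize (-t * e 0 + s * e 1 : 𝓞 K) = w at hg
  have hw : (σ w).im ≠ 0 := by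
    intro h0
    have h7 : ∀ α : 𝓞 K, (σ α).im = 0 := fun α => by
      obtain ⟨u, v, rfl⟩ := hg α
      simp [h0]
    obtain ⟨z, hz⟩ := hσ
    obtain ⟨α, β, -, rfl⟩ := IsFractionRing.div_surjective (A := 𝓞 K) z
    apply hz
    have h8 := h7 α
    have h9 := h7 β
    rw [RingOfIntegers.coe_eq_algebraMap] at h8 h9
    rw [map_div₀, div_im, h8, h9]
    simp
  rcases lt_or_gt_of_ne hw with h | h
  · refine gring_mk σ (-w) (by simpa using h) fun α => ?_
    obtain ⟨u, v, h⟩ := hg α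
    exact ⟨u, -v, by rw [h]; push_cast; ring⟩
  · exact gring_mk σ w h hg

namespace Rk

variable (R : Rk K)

theorem ι_apply (α : 𝓞 K) : R.ι α = R.σ (α : K) := rfl

theorem ι_inj : Function.Injective R.ι := by
  exact R.σ.injective.comp RingOfIntegers.coe_injective

theorem V_pos : 0 < R.V := R.im_pos

theorem ι_el (x y : ℤ) : R.ι (x + y * R.w) = x + y * R.ι R.w := by
  simp

theorem el_inj {x y x' y' : ℤ} (h : (x + y * R.w : 𝓞 K) = x' + y' * R.w) : x = x' ∧ y = y' := by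
  have h1 := congrArg R.ι h
  simp only [ι_el] at h1
  have h2 := congrArg im h1
  have h3 := congrArg re h1
  simp only [add_im, add_re, mul_im, mul_re, intCast_re, intCast_im, zero_mul, add_zero, zero_add,
    sub_zero] at h2 h3
  have h4 : y = y' := by exact_mod_cast mul_right_cancel₀ R.V_pos.ne' h2
  subst h4
  exact ⟨by exact_mod_cast add_right_cancel h3, rfl⟩

theorem gring_sq : R.ι R.w ^ 2 = R.a + R.b * R.ι R.w := by
  rw [← map_pow, R.sq, ι_el]

/-- Compare real and imaginary parts in `R.sq`. -/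
theorem two_re : 2 * (R.ι R.w).re = R.b := by
  have h := congrArg im R.gring_sq
  simp only [pow_two, add_im, mul_im, intCast_re, intCast_im, zero_mul, add_zero, zero_add] at h
  have h0 : (R.ι R.w).im ≠ 0 := R.V_pos.ne'
  exact mul_right_cancel₀ h0 (by linarith)

theorem normSq_w : normSq (R.ι R.w) = -R.a := by
  have h := congrArg re R.gring_sq
  simp only [pow_two, add_re, mul_re, intCast_re, intCast_im, zero_mul, sub_zero] at h
  rw [normSq_apply]
  linear_combination -h + (R.ι R.w).re * R.two_re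

theorem normSq_el (x y : ℤ) :
    normSq (R.ι (x + y * R.w)) = ((x ^ 2 + R.b * x * y - R.a * y ^ 2 : ℤ) : ℝ) := by
  have h := R.normSq_w
  rw [normSq_apply] at h
  rw [ι_el, normSq_apply]
  simp only [add_im, add_re, mul_im, mul_re, intCast_re, intCast_im, zero_mul, add_zero, zero_add,
    sub_zero]
  push_cast
  linear_combination (y : ℝ) ^ 2 * h + (x * y : ℝ) * R.two_re

/-- `Module.Basis.mk`. -/
theorem exists_bas : ∃ e : Module.Basis (Fin 2) ℤ (𝓞 K), e 0 = 1 ∧ e 1 = R.w := by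
  have h1 : LinearIndependent ℤ ![(1 : 𝓞 K), R.w] := by
    rw [LinearIndependent.pair_iff]
    intro s t h
    refine R.el_inj (x' := 0) (y' := 0) ?_
    simpa using h
  have h2 : ⊤ ≤ Submodule.span ℤ (Set.range ![(1 : 𝓞 K), R.w]) := fun α _ => by
    obtain ⟨x, y, rfl⟩ := R.gen α
    rw [Matrix.range_cons_cons_empty, Submodule.mem_span_pair]
    exact ⟨x, y, by simp⟩
  exact ⟨Module.Basis.mk h1 h2, by simp, by simp⟩

include R in
theorem rank : Module.finrank ℤ (𝓞 K) = 2 := by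
  obtain ⟨e, -⟩ := R.exists_bas
  simpa using Module.finrank_eq_card_basis e

theorem gring_repr {e : Module.Basis (Fin 2) ℤ (𝓞 K)} (h0 : e 0 = 1) (h1 : e 1 = R.w) (x y : ℤ) :
    e.repr (x + y * R.w) 0 = x ∧ e.repr (x + y * R.w) 1 = y := by
  have h := gring_two e (x + y * R.w)
  rw [h0, h1, zsmul_eq_mul, zsmul_eq_mul, mul_one] at h
  exact R.el_inj h.symm

theorem gring_mat {e : Module.Basis (Fin 2) ℤ (𝓞 K)} (h0 : e 0 = 1) (h1 : e 1 = R.w) (x y : ℤ) :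
    Algebra.leftMulMatrix e (x + y * R.w) = !![x, R.a * y; y, x + R.b * y] := by
  have h2 : (x + y * R.w) * R.w = ((R.a * y : ℤ) : 𝓞 K) + ((x + R.b * y : ℤ) : 𝓞 K) * R.w := by
    push_cast
    linear_combination (y : 𝓞 K) * R.sq
  have h3 := R.gring_repr h0 h1 x y
  have h4 := R.gring_repr h0 h1 (R.a * y) (x + R.b * y)
  ext i j
  rw [Algebra.leftMulMatrix_eq_repr_mul]
  fin_cases i <;> fin_cases j
  · simpa [h0] using h3.1
  · rw [← h2] at h4
    simpa [h1] using h4.1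
  · simpa [h0] using h3.2
  · rw [← h2] at h4
    simpa [h1] using h4.2

theorem gring_tr (x y : ℤ) : Algebra.trace ℤ (𝓞 K) (x + y * R.w) = 2 * x + R.b * y := by
  obtain ⟨e, h0, h1⟩ := R.exists_bas
  rw [Algebra.trace_eq_matrix_trace e, R.gring_mat h0 h1, Matrix.trace_fin_two_of]
  ring

theorem gring_nm (x y : ℤ) :
    Algebra.norm ℤ (x + y * R.w : 𝓞 K) = x ^ 2 + R.b * x * y - R.a * y ^ 2 := by
  obtain ⟨e, h0, h1⟩ := R.exists_bas
  rw [Algebra.norm_eq_matrix_det e, R.gring_mat h0 h1, Matrix.det_fin_two_of]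
  ring

/-- `NumberField.discr_eq_discr`, the traces of `1`, `w`, `w ^ 2` are `2`, `b`, `b ^ 2 + 2 a`
(`Algebra.trace_eq_matrix_trace`). -/
theorem disc : discr K = R.b ^ 2 + 4 * R.a := by
  obtain ⟨e, h0, h1⟩ := R.exists_bas
  have t1 := R.gring_tr 1 0
  have t2 := R.gring_tr 0 1
  have t3 := R.gring_tr R.a R.b
  rw [← R.sq, pow_two] at t3
  simp only [Int.cast_one, Int.cast_zero, zero_mul, add_zero, zero_add, one_mul] at t1 t2
  rw [← NumberField.discr_eq_discr K e, Algebra.discr_def, Matrix.det_fin_two]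
  simp only [Algebra.traceMatrix_apply, Algebra.traceForm_apply, h0, h1, one_mul, mul_one, t1, t2,
    t3]
  ring

theorem gring_D : ((R.b ^ 2 + 4 * R.a : ℤ) : ℝ) = -(4 * R.V ^ 2) := by
  have h := R.normSq_w
  rw [normSq_apply] at h
  simp only [V]
  push_cast
  linear_combination 4 * h - (R.b + 2 * (R.ι R.w).re) * R.two_re

theorem abs_disc : |(discr K : ℝ)| = 4 * R.V ^ 2 := by
  rw [R.disc, R.gring_D, abs_neg, abs_of_nonneg (by positivity)]

theorem gring_conj (x y : ℤ) : R.ι (((x + R.b * y : ℤ) : 𝓞 K) + ((-y : ℤ) : 𝓞 K) * R.w) =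
    starRingEnd ℂ (R.ι (x + y * R.w)) := by
  rw [ι_el, ι_el]
  apply Complex.ext <;> simp
  linear_combination -(y : ℝ) * R.two_re

/-- The conjugate of `ι (x + y w)` is `ι ((x + b y) - y w)`; choose, and use `ι_inj`. -/
theorem exists_cj : ∃ c : 𝓞 K →+* 𝓞 K, ∀ α, R.ι (c α) = starRingEnd ℂ (R.ι α) := by
  have h : ∀ α : 𝓞 K, ∃ β, R.ι β = starRingEnd ℂ (R.ι α) := fun α => by
    obtain ⟨x, y, rfl⟩ := R.gen α
    exact ⟨_, R.gring_conj x y⟩
  choose c hc using h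
  exact ⟨⟨⟨⟨c, R.ι_inj (by simp [hc])⟩, fun α β => R.ι_inj (by simp [hc])⟩,
    R.ι_inj (by simp [hc]), fun α β => R.ι_inj (by simp [hc])⟩, hc⟩

/-- Complex conjugation. -/
def cj : 𝓞 K →+* 𝓞 K := R.exists_cj.choose

theorem ι_cj (α : 𝓞 K) : R.ι (R.cj α) = starRingEnd ℂ (R.ι α) := R.exists_cj.choose_spec α

theorem cj_cj (α : 𝓞 K) : R.cj (R.cj α) = α := by
  exact R.ι_inj (by simp [ι_cj])

theorem cj_el (x y : ℤ) : R.cj (x + y * R.w) = ((x + R.b * y : ℤ) : 𝓞 K) + ((-y : ℤ) : 𝓞 K) * R.w := by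
  exact R.ι_inj (by rw [ι_cj, gring_conj])

/-- `Ideal.absNorm_span_singleton`, `Algebra.norm_eq_matrix_det`, `normSq_el`. -/
theorem nI_sp (α : 𝓞 K) : (nI (sp α) : ℝ) = normSq (R.ι α) := by
  obtain ⟨x, y, rfl⟩ := R.gen α
  have h := normSq_nonneg (R.ι (x + y * R.w))
  rw [normSq_el] at h ⊢
  rw [nI, sp, Ideal.absNorm_span_singleton, gring_nm, Nat.cast_natAbs, Int.cast_abs, abs_of_nonneg h]

theorem mul_cj (α : 𝓞 K) : α * R.cj α = (nI (sp α) : 𝓞 K) := by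
  apply R.ι_inj
  rw [map_mul, ι_cj, mul_conj, ← nI_sp, map_natCast, ofReal_natCast]

include R in
theorem nI_nat (t : ℕ) : nI (sp (t : 𝓞 K)) = t ^ 2 := by
  rw [nI, sp, Ideal.absNorm_span_natCast, R.rank]

include R in
/-- Divisibility between integers can be tested in the ring (coordinates). -/
theorem intCast_mem {s : ℕ} {x : ℤ} : (x : 𝓞 K) ∈ sp (s : 𝓞 K) ↔ (s : ℤ) ∣ x := by
  rw [sp, Ideal.mem_span_singleton]
  refine ⟨?_, fun ⟨k, hk⟩ => ⟨k, by rw [hk]; push_cast; rfl⟩⟩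
  rintro ⟨γ, hγ⟩
  obtain ⟨u, v, rfl⟩ := R.gen γ
  refine ⟨u, (R.el_inj (y := 0) (y' := s * v) ?_).1⟩
  push_cast
  linear_combination hγ

theorem im_int (α : 𝓞 K) : ∃ y : ℤ, (R.ι α).im = y * R.V := by
  obtain ⟨x, y, rfl⟩ := R.gen α
  exact ⟨y, by simp [V]⟩

theorem im_ge {α : 𝓞 K} (h : (R.ι α).im ≠ 0) : R.V ≤ |(R.ι α).im| := by
  obtain ⟨y, h1⟩ := R.im_int α
  rw [h1] at h ⊢
  have h2 : (1 : ℝ) ≤ |(y : ℝ)| := by
    exact_mod_cast Int.one_le_abs (Int.cast_ne_zero.1 (left_ne_zero_of_mul h))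
  rw [abs_mul, abs_of_pos R.V_pos]
  exact le_mul_of_one_le_left R.V_pos.le h2

include R in
/-- A unit `x + y w` has `normSq = 1`, and `normSq = (x + y re w) ^ 2 + y ^ 2 V ^ 2` bounds `x` and `y`. -/
theorem finite_units : Finite (𝓞 K)ˣ := by
  have hD : R.b ^ 2 + 4 * R.a < 0 := by
    have h1 := R.gring_D
    have h2 := R.V_pos
    have h3 : ((R.b ^ 2 + 4 * R.a : ℤ) : ℝ) < 0 := by rw [h1, neg_lt_zero]; positivity
    exact_mod_cast h3
  have hf : ((fun q : ℤ × ℤ => (q.1 + q.2 * R.w : 𝓞 K)) ''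
      (Set.Icc (-(|R.b| + 1)) (|R.b| + 1) ×ˢ Set.Icc (-2) 2)).Finite :=
    ((Set.finite_Icc _ _).prod (Set.finite_Icc _ _)).image _
  have h4 : (Set.range (Units.val : (𝓞 K)ˣ → 𝓞 K)).Finite := by
    refine hf.subset ?_
    rintro _ ⟨u, rfl⟩
    obtain ⟨x, y, h⟩ := R.gen u
    have h5 := R.nI_sp u
    rw [sp, Ideal.span_singleton_eq_top.2 u.isUnit, nI, Ideal.absNorm_top, h, normSq_el] at h5
    have h6 : 1 = x ^ 2 + R.b * x * y - R.a * y ^ 2 := by exact_mod_cast h5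
    have h7 : (2 * x + R.b * y) ^ 2 + y ^ 2 ≤ 4 := by nlinarith [sq_nonneg y]
    have h8 : |y| ≤ 2 := abs_le_of_sq_le_sq' (by nlinarith [sq_nonneg (2 * x + R.b * y)]) (by norm_num)
      |> abs_le.2
    have h9 : |2 * x + R.b * y| ≤ 2 := abs_le_of_sq_le_sq' (by nlinarith [sq_nonneg y]) (by norm_num)
      |> abs_le.2
    have h10 : |R.b * y| ≤ |R.b| * 2 := by
      rw [abs_mul]
      exact mul_le_mul_of_nonneg_left h8 (abs_nonneg _)
    rw [abs_le] at h8 h9 h10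
    exact ⟨(x, y), ⟨⟨by linarith, by linarith⟩, h8⟩, h.symm⟩
  exact (Set.finite_range_iff Units.val_injective).1 h4

/-- Take a basis `ω₁, ω₂` of the ideal (`Ideal.selfBasis`), change the sign of `ω₂` if necessary. With
coordinates `ω₁ = p + q w`, `ω₂ = r + s w` one has `im (conj ω₁ * ω₂) = (p s - q r) V`, and
`|p s - q r|` is the norm of the ideal (`Ideal.natAbs_det_basis_change`). -/
theorem exists_lat {c : Ideal (𝓞 K)} (hc : c ≠ ⊥) : ∃ ω₁ ω₂ : 𝓞 K, ω₁ ≠ 0 ∧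
    0 < (R.ι ω₂ / R.ι ω₁).im ∧ normSq (R.ι ω₁) * (R.ι ω₂ / R.ι ω₁).im = nI c * R.V ∧
    ∃ e : ℤ × ℤ ≃ c, ∀ q : ℤ × ℤ, ((e q : c) : 𝓞 K) = q.1 * ω₁ + q.2 * ω₂ := by
  obtain ⟨e, h0, h1⟩ := R.exists_bas
  let B := Ideal.selfBasis e c hc
  have hd := Ideal.natAbs_det_basis_change e c B
  let E : ℤ × ℤ ≃ c := (finTwoArrowEquiv ℤ).symm.trans B.equivFun.symm.toEquiv
  have hE : ∀ q : ℤ × ℤ, ((E q : c) : 𝓞 K) = q.1 * (B 0 : 𝓞 K) + q.2 * (B 1 : 𝓞 K) := fun q => by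
    simp [E, Fin.sum_univ_two]
  have hB : (B 0 : 𝓞 K) ≠ 0 := fun h => B.ne_zero 0 (Subtype.ext h)
  rw [Module.Basis.det_apply, Matrix.det_fin_two] at hd
  simp only [Module.Basis.toMatrix_apply, Function.comp] at hd
  obtain ⟨p, q, h2⟩ := R.gen (B 0)
  obtain ⟨r, s, h3⟩ := R.gen (B 1)
  rw [h2, h3, (R.gring_repr h0 h1 p q).1, (R.gring_repr h0 h1 p q).2, (R.gring_repr h0 h1 r s).1,
    (R.gring_repr h0 h1 r s).2] at hd
  have hn : 0 < normSq (R.ι (B 0)) := normSq_pos.2 ((map_ne_zero_iff _ R.ι_inj).2 hB)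
  have h4 : normSq (R.ι (B 0)) * (R.ι (B 1) / R.ι (B 0)).im = ((p * s - r * q : ℤ) : ℝ) * R.V := by
    rw [div_im, mul_sub, mul_div_cancel₀ _ hn.ne', mul_div_cancel₀ _ hn.ne', h2, h3]
    simp [V]
    ring
  have h5 : (nI c : ℝ) = |((p * s - r * q : ℤ) : ℝ)| := by
    rw [nI, ← hd, Nat.cast_natAbs, Int.cast_abs]
  have h6 : (0 : ℝ) < nI c := by
    exact_mod_cast Nat.pos_of_ne_zero (Ideal.absNorm_eq_zero_iff.not.2 hc)
  have hV := R.V_pos
  rcases abs_choice ((p * s - r * q : ℤ) : ℝ) with h | h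
  · rw [← h, ← h5] at h4
    exact ⟨B 0, B 1, hB, (mul_pos_iff_of_pos_left hn).1 (h4 ▸ mul_pos h6 hV), h4, E, hE⟩
  · have h7 : normSq (R.ι (B 0)) * (R.ι (-B 1) / R.ι (B 0)).im = nI c * R.V := by
      rw [map_neg, neg_div, neg_im, mul_neg, h4, h5, h, neg_mul]
    refine ⟨B 0, -B 1, hB, (mul_pos_iff_of_pos_left hn).1 (h7 ▸ mul_pos h6 hV), h7,
      (Equiv.prodCongr (Equiv.refl ℤ) (Equiv.neg ℤ)).trans E, fun q => ?_⟩
    rw [Equiv.trans_apply, hE]
    simp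

end Rk

theorem Gk.A_eq (H : Gk K) : H.A = H.V * √(nI H.f) / π := by
  have h := H.V_pos
  rw [Gk.A, H.abs_disc, Real.sqrt_mul (by positivity), show 4 * H.V ^ 2 = (2 * H.V) ^ 2 by ring,
    Real.sqrt_sq (by positivity), mul_assoc, mul_div_mul_left _ _ two_ne_zero]

theorem Gk.A_pos (H : Gk K) : 0 < H.A := by
  have h1 := H.V_pos
  have h2 : (0 : ℝ) < nI H.f := by
    exact_mod_cast Nat.pos_of_ne_zero (Ideal.absNorm_eq_zero_iff.not.2 H.f_ne)
  rw [Gk.A_eq]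
  positivity

end Pool.Agent.Lib.MP_bcfefa_nt
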