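import Pool.Agent.Lib.MP_bcfefa_nt.GChar
import Pool.Agent.Lib.MP_bcfefa_nt.BTor

set_option autoImplicit false

noncomputable section

namespace Pool.Agent.Lib.MP_bcfefa_nt

open Complex Finset NumberField Pool.Agent.Lib.MP_03e5d0_nt
open scoped Real

/-! The ideals attached to exponent vectors. Compare `HSpl` (class number one). -/

variable {K : Type} [Field K] [NumberField K]

namespace Gk

variable (H : Gk K)

/-- The ideal attached to an exponent vector. -/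
def cE (e : Xp) : Ideal (𝓞 K) := e.prod fun p k => H.pI p ^ k.toNat * H.cI (H.pI p) ^ (-k).toNat

/-- The exponent vector is supported on `H.P`. -/
def Ok (e : Xp) : Prop := ∀ p ∈ e.support, p ∈ H.P

variable {H} {p q : ℕ} {e e' : Xp}

/-- `sp p` lies in a maximal ideal; `prime_cases`, `intCast_mem`. -/
theorem nI_pI (hp : p ∈ H.P) : nI (H.pI p) = p := by
  have h : ∃ I : Ideal (𝓞 K), nI I = p := by
    have h1 : nI (sp (p : 𝓞 K)) = p ^ 2 := H.toRk.nI_nat p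
    have h2 := hp.1.two_le
    obtain ⟨I, hI, hle⟩ := Ideal.exists_le_maximal (sp (p : 𝓞 K)) fun ht => by
      rw [ht, nI, Ideal.absNorm_top] at h1; nlinarith
    have h0 : I ≠ ⊥ := fun h0 => by
      rw [h0, le_bot_iff] at hle
      rw [hle, nI, Ideal.absNorm_bot] at h1; nlinarith
    obtain ⟨q, hq, h3 | ⟨-, h4, -⟩⟩ := H.toRk.prime_cases hI.isPrime h0
    · have h5 : ((p : ℤ) : 𝓞 K) ∈ sp (q : 𝓞 K) := by
        rw [Int.cast_natCast, ← h3]; exact hle (Ideal.mem_span_singleton_self _)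
      have h6 := (Nat.prime_dvd_prime_iff_eq hq hp.1).1
        (Int.natCast_dvd_natCast.1 (H.toRk.intCast_mem.1 h5))
      exact absurd (h6 ▸ h3 ▸ hI.isPrime) hp.2.2
    · have h5 : nI I ∣ nI (sp (p : 𝓞 K)) := Ideal.absNorm_dvd_absNorm_of_le hle
      rw [h4, h1] at h5
      exact ⟨I, h4.trans ((Nat.prime_dvd_prime_iff_eq hq hp.1).1 (hq.dvd_of_dvd_pow h5))⟩
  rw [pI, dif_pos ⟨hp, h⟩]
  exact h.choose_spec

theorem pI_eq_top (hp : p ∉ H.P) : H.pI p = ⊤ := by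
  rw [pI, dif_neg fun h => hp h.1]

theorem prime_pI (hp : p ∈ H.P) : (H.pI p).IsPrime :=
  Ideal.isPrime_of_irreducible_absNorm (by
    have h := nI_pI hp
    rw [nI] at h
    rw [h]; exact hp.1)

theorem pI_mul (hp : p ∈ H.P) : H.pI p * H.cI (H.pI p) = sp (p : 𝓞 K) := by
  rw [H.toRk.mul_cI, nI_pI hp]

theorem coprime_pI (p : ℕ) : IsCoprime (H.pI p) H.f := by
  by_cases hp : p ∈ H.P
  · exact (pI_mul hp ▸ hp.2.1 : IsCoprime (H.pI p * H.cI (H.pI p)) H.f).of_mul_left_left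
  · rw [pI_eq_top hp, ← Ideal.one_eq_top]; exact isCoprime_one_left

theorem gspl_nI_el (x y : ℤ) :
    (nI (sp (x + y * H.w : 𝓞 K)) : ℤ) = x ^ 2 + H.b * x * y - H.a * y ^ 2 := by
  have h := (H.toRk.nI_sp _).trans (H.toRk.normSq_el x y)
  exact_mod_cast h

theorem gspl_pos (p : ℕ) : 0 < nI (H.pI p) :=
  Nat.pos_of_ne_zero fun h => H.ne_bot (coprime_pI p) (Ideal.absNorm_eq_zero_iff.1 h)

theorem gspl_prime (hp : p ∈ H.P) : Prime (H.pI p) :=
  Ideal.prime_of_isPrime (H.ne_bot (coprime_pI p)) (prime_pI hp)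

theorem gspl_prime' (hp : p ∈ H.P) : Prime (H.cI (H.pI p)) :=
  Ideal.prime_of_isPrime (fun h => H.ne_bot (coprime_pI p) (H.toRk.cI_eq_bot.1 h))
    (H.toRk.cI_prime (prime_pI hp))

/-- Let `x + y w ∈ pI p = cI (pI p)`. The difference with its conjugate has norm `y ^ 2 |D|`, an integer in
`pI p`, so `p ∣ y` (`not_dvd_D`, `disc`), then `p ∣ x`. Hence `pI p ≤ sp p`, which contradicts the norms. -/
theorem pI_ne (hp : p ∈ H.P) : H.pI p ≠ H.cI (H.pI p) := by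
  intro h
  have h1 := nI_pI hp
  have hpz : Prime (p : ℤ) := Nat.prime_iff_prime_int.1 hp.1
  have key : ∀ x y : ℤ, (x + y * H.w : 𝓞 K) ∈ H.pI p →
      (p : ℤ) ∣ x ^ 2 + H.b * x * y - H.a * y ^ 2 := fun x y hxy => by
    rw [← gspl_nI_el, ← h1]
    exact Int.natCast_dvd_natCast.2
      (Ideal.absNorm_dvd_absNorm_of_le ((Ideal.span_singleton_le_iff_mem _).2 hxy))
  have hle : H.pI p ≤ sp (p : 𝓞 K) := by
    intro α hα
    obtain ⟨x, y, rfl⟩ := H.gen α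
    have h2 : H.cj (x + y * H.w) ∈ H.pI p := H.toRk.mem_cI.1 (h ▸ hα)
    have h3 := key (-(H.b * y)) (2 * y) (by
      convert (H.pI p).sub_mem hα h2 using 1
      rw [H.toRk.cj_el]; push_cast; ring)
    rw [show (-(H.b * y)) ^ 2 + H.b * -(H.b * y) * (2 * y) - H.a * (2 * y) ^ 2
      = -(discr K * y ^ 2) by rw [H.toRk.disc]; ring, dvd_neg] at h3
    obtain ⟨y', rfl⟩ := hpz.dvd_of_dvd_pow
      ((hpz.dvd_or_dvd h3).resolve_left (H.not_dvd_D hp.1 hp.2.1))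
    obtain ⟨c, hc⟩ := key _ _ hα
    obtain ⟨x', rfl⟩ := hpz.dvd_of_dvd_pow (n := 2) (a := x)
      ⟨c - H.b * x * y' + H.a * p * y' ^ 2, by linear_combination hc⟩
    exact Ideal.mem_span_singleton.2 ⟨x' + y' * H.w, by push_cast; ring⟩
  have h4 : nI (sp (p : 𝓞 K)) ∣ nI (H.pI p) := Ideal.absNorm_dvd_absNorm_of_le hle
  rw [h1, H.toRk.nI_nat] at h4
  have h5 := Nat.le_of_dvd hp.1.pos h4
  have h6 := hp.1.two_le
  nlinarith

theorem cE_eq_prod {S : Finset ℕ} (h : e.support ⊆ S) :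
    H.cE e = ∏ p ∈ S, H.pI p ^ (e p).toNat * H.cI (H.pI p) ^ (-e p).toNat :=
  Finsupp.prod_of_support_subset _ h _ fun _ _ => by simp

theorem cE_zero : H.cE 0 = ⊤ := by simp [cE]

theorem cI_cE (e : Xp) : H.cI (H.cE e) = H.cE (-e) := by
  rw [cE_eq_prod (e := -e) (S := e.support) (by simp), cE_eq_prod Subset.rfl, H.toRk.cI_prod]
  refine prod_congr rfl fun p _ => ?_
  rw [H.toRk.cI_mul, H.toRk.cI_pow, H.toRk.cI_pow, H.toRk.cI_cI, Finsupp.neg_apply, neg_neg, mul_comm]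

theorem gspl_nI (e : Xp) : nI (H.cE e) = ∏ p ∈ e.support, nI (H.pI p) ^ (e p).natAbs := by
  rw [cE_eq_prod Subset.rfl, nI, map_prod]
  refine prod_congr rfl fun p _ => ?_
  have h := H.toRk.nI_cI (H.pI p)
  rw [nI, nI] at h
  rw [map_mul, map_pow, map_pow, h, ← pow_add]
  congr 1
  omega

theorem nI_cE (he : H.Ok e) : nI (H.cE e) = Nm e := by
  rw [gspl_nI, Nm_eq_prod Subset.rfl]
  exact prod_congr rfl fun p hp => by rw [nI_pI (he p hp)]

theorem coprime_cE (e : Xp) : IsCoprime (H.cE e) H.f := by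
  rw [cE_eq_prod Subset.rfl]
  exact IsCoprime.prod_left fun p _ => (coprime_pI p).pow_left.mul_left
    (H.coprime_cI.2 (coprime_pI p)).pow_left

theorem cE_ne_bot (e : Xp) : H.cE e ≠ ⊥ := H.ne_bot (coprime_cE e)

theorem Ok.add (he : H.Ok e) (he' : H.Ok e') : H.Ok (e + e') := fun p hp =>
  (mem_union.1 (Finsupp.support_add hp)).elim (he p) (he' p)

theorem Ok.neg (he : H.Ok e) : H.Ok (-e) := fun p hp => he p (by simpa using hp)

/-- At each prime `q ^ a⁺ q' ^ a⁻ q ^ b⁺ q' ^ b⁻ = (q q') ^ r q ^ (a + b)⁺ q' ^ (a + b)⁻`, and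
`q q' = sp (nI q)` (`mul_cI`). -/
theorem cE_mul (e e' : Xp) :
    ∃ s : ℕ, 0 < s ∧ H.cE e * H.cE e' = sp (s : 𝓞 K) * H.cE (e + e') := by
  refine ⟨∏ p ∈ e.support ∪ e'.support,
    nI (H.pI p) ^ ((e p).toNat + (e' p).toNat - (e p + e' p).toNat),
    prod_pos fun p _ => pow_pos (gspl_pos p) _, ?_⟩
  rw [cE_eq_prod (e := e) subset_union_left, cE_eq_prod (e := e') subset_union_right,
    cE_eq_prod Finsupp.support_add, Nat.cast_prod, sp, ← Ideal.prod_span_singleton,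
    ← prod_mul_distrib, ← prod_mul_distrib]
  refine prod_congr rfl fun p _ => ?_
  rw [Nat.cast_pow, ← Ideal.span_singleton_pow, ← sp, ← H.toRk.mul_cI, mul_pow, mul_mul_mul_comm,
    mul_mul_mul_comm (_ ^ (_ - _)), ← pow_add, ← pow_add, ← pow_add, ← pow_add, Finsupp.add_apply]
  congr 2 <;> omega

theorem gspl_not_dvd (he : H.Ok e) (hp : p ∈ H.P) (h : e p ≤ 0) : ¬H.pI p ∣ H.cE e := by
  have h1 := gspl_prime hp
  rw [cE_eq_prod Subset.rfl, h1.dvd_finsetProd_iff]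
  rintro ⟨q, hq, h2⟩
  have key : ∀ I : Ideal (𝓞 K), nI I = q → H.pI p ∣ I → p = q := fun I h3 h4 => by
    have h5 : nI (H.pI p) ∣ nI I := map_dvd Ideal.absNorm h4
    rw [nI_pI hp, h3] at h5
    exact (Nat.prime_dvd_prime_iff_eq hp.1 (he q hq).1).1 h5
  rcases h1.dvd_or_dvd h2 with h2 | h2
  · obtain rfl := key _ (nI_pI (he q hq)) (h1.dvd_of_dvd_pow h2)
    rw [Int.toNat_of_nonpos h, pow_zero] at h2
    exact h1.not_dvd_one h2
  · obtain rfl := key _ ((H.toRk.nI_cI _).trans (nI_pI (he q hq))) (h1.dvd_of_dvd_pow h2)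
    exact pI_ne hp (associated_iff_eq.1
      (h1.associated_of_dvd (gspl_prime' hp) (h1.dvd_of_dvd_pow h2)))

theorem gspl_dvd (h : 0 < e p) : H.pI p ∣ H.cE e := by
  rw [cE_eq_prod Subset.rfl]
  exact ((dvd_pow_self _ (by omega)).mul_right _).trans
    (dvd_prod_of_mem _ (Finsupp.mem_support_iff.2 h.ne'))

/-- Take `p` with `e p ≠ 0`; one of `pI p`, `cI (pI p)` divides `cE e`, and it does not divide `cE (-e)`
(`Prime.dvd_finset_prod_iff`, `pI_ne`, norms for the other primes). -/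
theorem cE_ne (he : H.Ok e) (h0 : e ≠ 0) : H.cE e ≠ H.cE (-e) := by
  intro h
  obtain ⟨p, hp⟩ := Finsupp.support_nonempty_iff.2 h0
  rcases lt_or_gt_of_ne (Finsupp.mem_support_iff.1 hp) with h1 | h1
  · exact gspl_not_dvd he (he p hp) h1.le (h ▸ gspl_dvd (e := -e) (by simpa using h1))
  · exact gspl_not_dvd he.neg (he p hp) (by simpa using h1.le) (h ▸ gspl_dvd h1)

omit [NumberField K] in
theorem gspl_sp_mul (s t : ℕ) : sp ((s * t : ℕ) : 𝓞 K) = sp (s : 𝓞 K) * sp (t : 𝓞 K) := by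
  rw [Nat.cast_mul, sp, sp, sp, Ideal.span_singleton_mul_span_singleton]

/-- Induction on the factorisation; `prime_cases`, `cE_mul` with `single p 1` or `single p (-1)` (a prime of
norm `p` divides `pI p * cI (pI p)`). -/
theorem exists_cE {I : Ideal (𝓞 K)} (h : IsCoprime I H.f) :
    ∃ (t : ℕ) (e : Xp), 0 < t ∧ H.Ok e ∧ I = sp (t : 𝓞 K) * H.cE e := by
  induction I using UniqueFactorizationMonoid.induction_on_prime with
  | h₁ => exact absurd rfl (H.ne_bot h)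
  | h₂ x hx =>
    obtain rfl := Ideal.isUnit_iff.1 hx
    exact ⟨1, 0, one_pos, fun p hp => by simp at hp, by simp [cE_zero]⟩
  | h₃ a ρ _ hρ ih =>
    obtain ⟨t, e, ht, he, rfl⟩ := ih h.of_mul_left_right
    obtain ⟨p, hp, rfl | ⟨h1, h2, h3⟩⟩ := H.toRk.prime_cases (Ideal.isPrime_of_prime hρ) hρ.ne_zero
    · exact ⟨p * t, e, mul_pos hp.pos ht, he, by rw [gspl_sp_mul, mul_assoc]⟩
    have hP : p ∈ H.P := ⟨hp, h3 ▸ h.of_mul_left_left.mul_left
      (H.coprime_cI.2 h.of_mul_left_left), h1⟩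
    have key : ∀ k : ℤ, H.cE (Finsupp.single p k) = ρ →
        ∃ (t' : ℕ) (e' : Xp), 0 < t' ∧ H.Ok e' ∧
          ρ * (sp (t : 𝓞 K) * H.cE e) = sp (t' : 𝓞 K) * H.cE e' := by
      rintro k rfl
      have hk : H.Ok (Finsupp.single p k) := fun q hq =>
        mem_singleton.1 (Finsupp.support_single_subset hq) ▸ hP
      obtain ⟨s, hs, h4⟩ := cE_mul (H := H) (Finsupp.single p k) e
      refine ⟨t * s, _, mul_pos ht hs, hk.add he, ?_⟩
      rw [gspl_sp_mul, mul_assoc, ← h4, mul_left_comm]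
    rcases hρ.dvd_or_dvd (pI_mul hP ▸ h3 ▸ dvd_mul_right ρ (H.cI ρ) :
      ρ ∣ H.pI p * H.cI (H.pI p)) with h4 | h4
    · refine key 1 ?_
      rw [cE_eq_prod Finsupp.support_single_subset]
      simpa using (associated_iff_eq.1 (hρ.associated_of_dvd (gspl_prime hP) h4)).symm
    · refine key (-1) ?_
      rw [cE_eq_prod Finsupp.support_single_subset]
      simpa using (associated_iff_eq.1 (hρ.associated_of_dvd (gspl_prime' hP) h4)).symm

/-- Multiply by `cE (-e')`: `sp (t s) * cE (e - e') = sp (t' Nm e')`; conjugate and cancel, `cE_ne`. -/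
theorem cE_unique {t t' : ℕ} (ht : 0 < t) (ht' : 0 < t') (he : H.Ok e) (he' : H.Ok e')
    (h : sp (t : 𝓞 K) * H.cE e = sp (t' : 𝓞 K) * H.cE e') : t = t' ∧ e = e' := by
  have hee : e = e' := by
    obtain ⟨s, hs, h1⟩ := cE_mul (H := H) e (-e')
    have h2 : H.cE e' * H.cE (-e') = sp (nI (H.cE e') : 𝓞 K) := by rw [← cI_cE, H.toRk.mul_cI]
    have h3 : sp ((t * s : ℕ) : 𝓞 K) * H.cE (e + -e') = sp ((t' * nI (H.cE e') : ℕ) : 𝓞 K) := by
      rw [gspl_sp_mul, gspl_sp_mul, mul_assoc, ← h1, ← mul_assoc, h, mul_assoc, h2]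
    have h4 := congrArg H.cI h3
    rw [H.toRk.cI_mul, H.toRk.cI_nat, H.toRk.cI_nat, cI_cE] at h4
    have h5 : sp ((t * s : ℕ) : 𝓞 K) ≠ 0 := fun h0 =>
      Nat.cast_ne_zero.2 (mul_pos ht hs).ne' (Ideal.span_singleton_eq_bot.1 h0)
    by_contra hne
    exact cE_ne (he.add he'.neg) (fun h0 => hne (add_neg_eq_zero.1 h0))
      (mul_left_cancel₀ h5 (h3.trans h4.symm))
  subst hee
  have h1 := congrArg nI (mul_right_cancel₀ (cE_ne_bot e) h)
  rw [H.toRk.nI_nat, H.toRk.nI_nat] at h1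
  exact ⟨Nat.pow_left_injective two_ne_zero h1, rfl⟩

theorem gspl_zpow {w : ℂ} (hw : ‖w‖ = 1) (a : ℤ) :
    w ^ a.toNat * starRingEnd ℂ w ^ (-a).toNat = w ^ a := by
  have h0 : w ≠ 0 := by rintro rfl; simp at hw
  rw [← Complex.inv_eq_conj hw, inv_pow, ← zpow_natCast, ← zpow_natCast, ← div_eq_mul_inv,
    ← zpow_sub₀ h0]
  congr 1
  omega

/-- `exists_co`; `ch_eq_prod`, `cE_eq_prod`, `conj_co`. -/
theorem exists_pt {φ : Ideal (𝓞 K) →* ℂ} {n : ℕ}
    (h1 : ∀ p, φ (H.cI (H.pI p)) = starRingEnd ℂ (φ (H.pI p)))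
    (h2 : ∀ p, ‖φ (H.pI p)‖ = √(nI (H.pI p)) ^ n) :
    ∃ z : Tor, ∀ e : Xp, ch e z * ((√(nI (H.cE e)) : ℝ) : ℂ) ^ n = φ (H.cE e) := by
  have hr : ∀ p, (0 : ℝ) < √(nI (H.pI p)) ^ n := fun p =>
    pow_pos (Real.sqrt_pos.2 (by exact_mod_cast gspl_pos p)) n
  have hw : ∀ p, ‖φ (H.pI p) / ((√(nI (H.pI p)) ^ n : ℝ) : ℂ)‖ = 1 := fun p => by
    rw [norm_div, Complex.norm_real, Real.norm_of_nonneg (hr p).le, h2, div_self (hr p).ne']
  obtain ⟨z, hz⟩ := exists_co _ hw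
  refine ⟨z, fun e => ?_⟩
  have h3 : √(nI (H.cE e)) = ∏ p ∈ e.support, √(nI (H.pI p)) ^ (e p).natAbs := by
    rw [gspl_nI, Real.sqrt_eq_iff_mul_self_eq (by positivity) (by positivity),
      ← prod_mul_distrib, Nat.cast_prod]
    exact prod_congr rfl fun p _ => by
      rw [← mul_pow, Real.mul_self_sqrt (Nat.cast_nonneg _), Nat.cast_pow]
  rw [h3, ch_eq_prod Subset.rfl, cE_eq_prod Subset.rfl, map_prod, Complex.ofReal_prod, ← prod_pow,
    ← prod_mul_distrib]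
  refine prod_congr rfl fun p _ => ?_
  have h4 : ((√(nI (H.pI p)) ^ n : ℝ) : ℂ) ≠ 0 := Complex.ofReal_ne_zero.2 (hr p).ne'
  rw [hz, ← gspl_zpow (hw p), map_mul, map_pow, map_pow, h1, map_div₀, Complex.conj_ofReal, div_pow,
    div_pow, div_mul_div_comm, ← pow_add, show (e p).toNat + (-e p).toNat = (e p).natAbs by omega,
    ← Complex.ofReal_pow (_ ^ (e p).natAbs), ← pow_mul, mul_comm _ n, pow_mul,
    Complex.ofReal_pow (_ ^ n), div_mul_cancel₀ _ (pow_ne_zero _ h4)]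

end Gk

end Pool.Agent.Lib.MP_bcfefa_nt
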