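import Pool.Agent.Lib.MP_bcfefa_nt.Stmt

/-! Definitions used in the statement for an arbitrary imaginary quadratic field. -/

set_option autoImplicit false

noncomputable section

namespace Pool.Agent.Lib.MP_bcfefa_nt

open NumberField

section

variable {R : Type} [CommRing R]

/-- Characters modulo the ideal `f`, extended by zero to the classes that are not invertible. -/
abbrev ChI (f : Ideal R) : Type := MulChar (R ⧸ f) ℂ

/-- The value of `χ` at the class of `a`. -/
abbrev evI {f : Ideal R} (χ : ChI f) (a : R) : ℂ := χ (Ideal.Quotient.mk f a)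

/-- The character `χ` modulo the ideal `f` is not induced from a larger ideal. -/
def IsPrimI (f : Ideal R) (χ : ChI f) : Prop :=
  ∀ g : Ideal R, f < g → ∃ a : R, IsCoprime (Ideal.span {a}) f ∧ a - 1 ∈ g ∧ evI χ a ≠ 1

/-- Multiplicative functions on the ideals of `R`. -/
abbrev IdCh (R : Type) [CommRing R] : Type := Ideal R →* ℂ

/-- On principal ideals `ψ` is given by `(a) ↦ χ(a) ι(a) ^ n`. -/
def IsHecke (ι : R → ℂ) {f : Ideal R} (χ : ChI f) (ψ : IdCh R) (n : ℕ) : Prop :=
  ∀ a : R, ψ (Ideal.span {a}) = evI χ a * ι a ^ n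

/-- On principal ideals `μ` is given by `(a) ↦ ι(a) ^ d`. -/
def IsUnram (ι : R → ℂ) (μ : IdCh R) (d : ℕ) : Prop :=
  ∀ a : R, μ (Ideal.span {a}) = ι a ^ d

/-- The function `I ↦ ψ(I) μ(I) ^ n`. -/
def twistI (ψ μ : IdCh R) (n : ℕ) (I : Ideal R) : ℂ := ψ I * μ I ^ n

end

open Classical in
/-- The quadratic character of the field `K` at the prime `p`: zero if `p` divides the discriminant, minus
one if `p` stays prime, one otherwise. -/
def epsK (K : Type) [Field K] [NumberField K] (p : ℕ) : ℂ :=
  if (p : ℤ) ∣ discr K then 0 else if (Ideal.span {(p : 𝓞 K)}).IsPrime then -1 else 1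

/-- Trivial nebentype: at the primes `p` prime to `f` the character is the quadratic character. -/
def TrivNebI {K : Type} [Field K] [NumberField K] (f : Ideal (𝓞 K)) (χ : ChI f) : Prop :=
  ∀ p : ℕ, p.Prime → IsCoprime (Ideal.span {(p : 𝓞 K)}) f → evI χ (p : 𝓞 K) = epsK K p

/-- The `m`-th coefficient of the theta series of `ψ`: the sum of `ψ I` over the ideals of norm `m`. -/
def coefI {K : Type} [Field K] [NumberField K] (ψ : Ideal (𝓞 K) → ℂ) (m : ℕ) : ℂ :=
  ∑ᶠ I ∈ {I : Ideal (𝓞 K) | Ideal.absNorm I = m}, ψ I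

/-- The level: the absolute value of the discriminant times the norm of the conductor. -/
def levelI {K : Type} [Field K] [NumberField K] (f : Ideal (𝓞 K)) : ℝ :=
  |(discr K : ℝ)| * (Ideal.absNorm f : ℝ)

end Pool.Agent.Lib.MP_bcfefa_nt
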