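import Pool.Agent.Lib.MP_bcfefa_nt.GGs
import Pool.Agent.Lib.MP_bcfefa_nt.GPoi
import Pool.Agent.Lib.MP_bcfefa_nt.GDat

set_option autoImplicit false

noncomputable section

namespace Pool.Agent.Lib.MP_bcfefa_nt

open Complex Finset NumberField Pool.Agent.Lib.MP_03e5d0_nt
open scoped Real

/-! The transformation formula of the theta series. -/

variable {K : Type} [Field K] [NumberField K]

namespace Gk

variable {H : Gk K} {ψ : Ideal (𝓞 K) →* ℂ} {n : ℕ} {c : Ideal (𝓞 K)} {y : ℝ}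

theorem gth_bot (hψ : H.IsH ψ n) : ψ ⊥ = 0 := hψ.eq_zero fun h => H.ne_bot h rfl

theorem gth_nI_pos (hc : c ≠ ⊥) : (0 : ℝ) < nI c := by
  have : nI c ≠ 0 := fun h => hc (Ideal.absNorm_eq_zero_iff.1 h)
  positivity

theorem gth_summable (H : Gk K) (n : ℕ) {g : 𝓞 K → ℂ} {C : ℝ} (hg : ∀ α, ‖g α‖ ≤ C) {y B : ℝ}
    (hy : 0 < y) (hB : 0 < B) : Summable fun α : 𝓞 K =>
      g α * H.ι α ^ n * (Real.exp (-(normSq (H.ι α) * y / B)) : ℝ) := by
  refine Summable.of_norm_bounded ((H.summable_el n (div_pos hy hB)).mul_left C) fun α => ?_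
  rw [norm_mul, norm_mul, norm_pow, Complex.norm_real, Real.norm_of_nonneg (Real.exp_pos _).le]
  have e : normSq (H.ι α) * y / B = y / B * normSq (H.ι α) := by ring
  rw [e, mul_assoc]
  exact mul_le_mul_of_nonneg_right (hg α) (by positivity)

theorem gth_gs_le (H : Gk K) : ∃ C : ℝ, ∀ δ, ‖H.gs δ‖ ≤ C := by
  have := H.finite_quot
  have : Fintype (𝓞 K ⧸ H.f) := Fintype.ofFinite _
  refine ⟨∑ s : 𝓞 K ⧸ H.f, ‖H.χ s‖, fun δ => ?_⟩
  unfold gs
  rw [finsum_eq_sum_of_fintype]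
  refine (norm_sum_le _ _).trans (le_of_eq (Finset.sum_congr rfl fun s _ => ?_))
  rw [norm_mul, H.norm_ad, mul_one]

open Classical in
theorem gth_Sc (H : Gk K) (ψ : Ideal (𝓞 K) →* ℂ) (c : Ideal (𝓞 K)) (y : ℝ) (z : ℂ) :
    (∑' J : Ideal (𝓞 K), if (c * J).IsPrincipal then
      z * (ψ J * (Real.exp (-(nI J * y / H.A)) : ℝ)) else 0) = z * H.Sc ψ c y := by
  unfold Sc
  rw [← tsum_mul_left]
  refine tsum_congr fun J => ?_
  split_ifs
  · rfl
  · rw [mul_zero]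

theorem gth_normSq (H : Gk K) {α : 𝓞 K} {J : Ideal (𝓞 K)} (h : sp α = c * J) :
    normSq (H.ι α) = nI c * nI J := by
  rw [← H.nI_sp, h]
  unfold nI
  rw [map_mul, Nat.cast_mul]

/-- `tsum_gen` with `F J = ψ c * ψ J * exp (-(nI J * y / A))`; `nI_sp`, `summable_el`. -/
theorem IsH.sum_left (hψ : H.IsH ψ n) (hc : c ≠ ⊥) (hy : 0 < y) :
    ∑' α : c, H.X α * H.ι α ^ n * (Real.exp (-(normSq (H.ι α) * y / (H.A * nI c))) : ℝ) =
      (Nat.card (𝓞 K)ˣ : ℂ) * ψ c * H.Sc ψ c y := by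
  have hN := gth_nI_pos hc
  have hA := H.A_pos
  have hs := gth_summable H n H.norm_X_le hy (mul_pos hA hN)
  have key := H.tsum_gen hc
    (g := fun α => H.X α * H.ι α ^ n * (Real.exp (-(normSq (H.ι α) * y / (H.A * nI c))) : ℝ))
    (F := fun J => ψ c * (ψ J * (Real.exp (-(nI J * y / H.A)) : ℝ)))
    (by rw [gth_bot hψ, zero_mul, mul_zero]) (fun α J h => by
      have e : normSq (H.ι α) * y / (H.A * nI c) = nI J * y / H.A := by
        rw [gth_normSq H h]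
        field_simp
      rw [e, ← hψ α, h, map_mul, mul_assoc]) (hs.subtype _)
  rw [key, gth_Sc, mul_assoc]

/-- `tsum_gen` for the ideal `f * c`, `IsH.gs_eq`; `gs` is bounded. -/
theorem IsH.sum_right (hψ : H.IsH ψ n) (hc : c ≠ ⊥) (hy : 0 < y) :
    ∑' δ : (H.f * c : Ideal (𝓞 K)), H.ι δ ^ n * H.gs δ *
      (Real.exp (-(normSq (H.ι δ) * y / (H.A * (nI H.f * nI c)))) : ℝ) =
      (Nat.card (𝓞 K)ˣ : ℂ) * (H.W ψ n * ((√(nI H.f) : ℝ) : ℂ) ^ (n + 1) * ψ c) *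
        H.Sc ψ (H.f * c) y := by
  have hN := gth_nI_pos hc
  have hF := gth_nI_pos H.f_ne
  have hA := H.A_pos
  obtain ⟨C, hC⟩ := gth_gs_le H
  have hs := (gth_summable H n hC hy (mul_pos hA (mul_pos hF hN))).congr
    (g := fun δ => H.ι δ ^ n * H.gs δ *
      (Real.exp (-(normSq (H.ι δ) * y / (H.A * (nI H.f * nI c)))) : ℝ)) fun δ => by ring
  have key := H.tsum_gen (c := H.f * c) (mul_ne_zero H.f_ne hc)
    (g := fun δ => H.ι δ ^ n * H.gs δ *
      (Real.exp (-(normSq (H.ι δ) * y / (H.A * (nI H.f * nI c)))) : ℝ))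
    (F := fun J => (H.W ψ n * ((√(nI H.f) : ℝ) : ℂ) ^ (n + 1) * ψ c) *
      (ψ J * (Real.exp (-(nI J * y / H.A)) : ℝ)))
    (by rw [gth_bot hψ, zero_mul, mul_zero]) (fun δ J h => by
      have e : normSq (H.ι δ) * y / (H.A * (nI H.f * nI c)) = nI J * y / H.A := by
        rw [gth_normSq H h]
        unfold nI at hN hF ⊢
        rw [map_mul, Nat.cast_mul]
        field_simp
      rw [e, hψ.gs_eq (J := c * J) (by rw [h, mul_assoc]), map_mul]
      ring) (hs.subtype _)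
  rw [key, gth_Sc, ← mul_assoc]

theorem gth_class (n : ℕ) (hc : c ≠ ⊥) (hy : 0 < y) (s : 𝓞 K) :
    ∑' β : (H.f * c : Ideal (𝓞 K)), H.ι (nI c * s + β) ^ n *
        (Real.exp (-(normSq (H.ι (nI c * s + β)) * y⁻¹ / (H.A * nI c))) : ℝ) =
      ((y / √(nI H.f) : ℝ) : ℂ) ^ (n + 1) * ∑' δ : (H.f * c : Ideal (𝓞 K)), H.ι δ ^ n *
        (Real.exp (-(normSq (H.ι δ) * y / (H.A * (nI H.f * nI c)))) : ℝ) *
          H.ad (s * H.cj δ) := by
  have hN := gth_nI_pos hc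
  have hF := gth_nI_pos H.f_ne
  have hA := H.A_pos
  have hV := H.V_pos
  have hπ := Real.pi_pos
  have hq : 0 < √(nI H.f : ℝ) := Real.sqrt_pos.2 hF
  have hq2 : (nI H.f : ℝ) = √(nI H.f : ℝ) ^ 2 := (Real.sq_sqrt hF.le).symm
  have ht : 0 < 1 / (π * y * H.A * nI c) := by positivity
  have key := H.poisson_ideal (c := H.f * c) (mul_ne_zero H.f_ne hc) (nI c * s) ht n
  have hm : (nI (H.f * c) : ℝ) = nI H.f * nI c := by
    unfold nI
    rw [map_mul, Nat.cast_mul]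
  have e0 : 1 / (π * y * H.A * nI c) * (nI (H.f * c) * H.V) = √(nI H.f : ℝ) / y := by
    rw [hm, H.A_eq]
    generalize √(nI H.f : ℝ) = q at hq hq2 ⊢
    rw [hq2]
    field_simp
  have e1 : ∀ x : ℝ, π * (1 / (π * y * H.A * nI c)) * x = x * y⁻¹ / (H.A * nI c) := by
    intro x
    field_simp
  have e2 : ∀ x : ℝ, π * x / (1 / (π * y * H.A * nI c) * (nI (H.f * c) * H.V) ^ 2) =
      x * y / (H.A * (nI H.f * nI c)) := by
    intro x
    rw [pow_two, ← mul_assoc, e0, hm, H.A_eq]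
    field_simp
  have e3 : ∀ δ : 𝓞 K, cexp (2 * π * I * ((H.ι (nI c * s * H.cj δ)).im /
      (nI (H.f * c) * H.V) : ℝ)) = H.ad (s * H.cj δ) := by
    intro δ
    unfold ad
    have a : (H.ι (nI c * s * H.cj δ)).im = nI c * (H.ι (s * H.cj δ)).im := by
      rw [mul_assoc, map_mul, map_natCast]
      simp only [Complex.mul_im, Complex.natCast_re, Complex.natCast_im, zero_mul, add_zero]
    rw [a, hm]
    congr 3
    field_simp
  simp only [e1, e2, e3] at key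
  rw [key, e0, one_div, ← inv_pow, ← Complex.ofReal_inv, inv_div]

/-- `tsum_res`; `X (nI c * s.out + β) = χ s` (`X_congr`, `X_nI`); `poisson_ideal` for `f * c` with
`π t = 1 / (y A nI c)`, so that `t * (nI (f * c) * V) = √(nI f) / y` (`A_eq`); exchange the finite sum and
the series. -/
theorem poisson_class (n : ℕ) (hc : IsCoprime c H.f) (hy : 0 < y) :
    ∑' α : c, H.X α * H.ι α ^ n * (Real.exp (-(normSq (H.ι α) * y⁻¹ / (H.A * nI c))) : ℝ) =
      ((y / √(nI H.f) : ℝ) : ℂ) ^ (n + 1) * ∑' δ : (H.f * c : Ideal (𝓞 K)), H.ι δ ^ n * H.gs δ *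
        (Real.exp (-(normSq (H.ι δ) * y / (H.A * (nI H.f * nI c)))) : ℝ) := by
  have := H.finite_quot
  have : Fintype (𝓞 K ⧸ H.f) := Fintype.ofFinite _
  have hc0 := H.ne_bot hc
  have hN := gth_nI_pos hc0
  have hF := gth_nI_pos H.f_ne
  have hA := H.A_pos
  have hs : ∀ r : 𝓞 K ⧸ H.f, Summable fun δ : (H.f * c : Ideal (𝓞 K)) => H.χ r * (H.ι δ ^ n *
      (Real.exp (-(normSq (H.ι δ) * y / (H.A * (nI H.f * nI c)))) : ℝ) *
        H.ad (r.out * H.cj δ)) := by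
    intro r
    have h1 := (gth_summable H n (g := fun δ => H.ad (r.out * H.cj δ)) (C := 1)
      (fun δ => (H.norm_ad _).le) hy (mul_pos hA (mul_pos hF hN))).congr
      (g := fun δ => H.ι δ ^ n *
        (Real.exp (-(normSq (H.ι δ) * y / (H.A * (nI H.f * nI c)))) : ℝ) *
          H.ad (r.out * H.cj δ)) fun δ => by ring
    exact Summable.mul_left _ (h1.subtype _)
  have e1 : ∀ r : 𝓞 K ⧸ H.f, ∑' β : (H.f * c : Ideal (𝓞 K)), H.X (nI c * r.out + β) *
      H.ι (nI c * r.out + β) ^ n *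
      (Real.exp (-(normSq (H.ι (nI c * r.out + β)) * y⁻¹ / (H.A * nI c))) : ℝ) =
      ((y / √(nI H.f) : ℝ) : ℂ) ^ (n + 1) * ∑' δ : (H.f * c : Ideal (𝓞 K)), H.χ r * (H.ι δ ^ n *
        (Real.exp (-(normSq (H.ι δ) * y / (H.A * (nI H.f * nI c)))) : ℝ) *
          H.ad (r.out * H.cj δ)) := by
    intro r
    have a1 : ∀ β : (H.f * c : Ideal (𝓞 K)), H.X (nI c * r.out + β) = H.χ r := by
      intro β
      have a0 : H.f * c ≤ H.f := Ideal.mul_le_left
      have a2 : (β : 𝓞 K) ∈ H.f := a0 β.2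
      rw [H.X_congr (β := nI c * r.out) (by rwa [add_sub_cancel_left]), H.X_mul, H.X_nI hc,
        one_mul]
      unfold X
      rw [Ideal.Quotient.mk_out]
    simp only [a1, mul_assoc (H.χ r)]
    rw [tsum_mul_left, tsum_mul_left, gth_class n hc0 hy]
    ring
  have e2 : ∀ δ : (H.f * c : Ideal (𝓞 K)), ∑ r : 𝓞 K ⧸ H.f, H.χ r * (H.ι δ ^ n *
      (Real.exp (-(normSq (H.ι δ) * y / (H.A * (nI H.f * nI c)))) : ℝ) *
        H.ad (r.out * H.cj δ)) = H.ι δ ^ n * H.gs δ *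
        (Real.exp (-(normSq (H.ι δ) * y / (H.A * (nI H.f * nI c)))) : ℝ) := by
    intro δ
    unfold gs
    rw [finsum_eq_sum_of_fintype, Finset.mul_sum, Finset.sum_mul]
    exact Finset.sum_congr rfl fun r _ => by ring
  have key := H.tsum_res hc0 H.f_ne (H.coprime_cI.2 hc)
    (gth_summable H n H.norm_X_le (inv_pos.2 hy) (mul_pos hA hN))
  rw [key, finsum_eq_sum_of_fintype, Finset.sum_congr rfl fun r _ => e1 r, ← Finset.mul_sum,
    ← Summable.tsum_finsetSum fun r _ => hs r, tsum_congr e2]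

/-- `sum_left`, `poisson_class`, `sum_right`; cancel `Nat.card units * ψ c ≠ 0`. -/
theorem IsH.Sc_inv (hψ : H.IsH ψ n) (hc : IsCoprime c H.f) (hy : 0 < y) :
    H.Sc ψ c y⁻¹ = H.W ψ n * (y : ℂ) ^ (n + 1) * H.Sc ψ (H.f * c) y := by
  have hc0 := H.ne_bot hc
  have := H.finite_units
  have hu : (Nat.card (𝓞 K)ˣ : ℂ) ≠ 0 := Nat.cast_ne_zero.2 Nat.card_pos.ne'
  have hp := hψ.ne_zero hc
  have hq : ((√(nI H.f : ℝ) : ℝ) : ℂ) ≠ 0 :=
    Complex.ofReal_ne_zero.2 (Real.sqrt_pos.2 (gth_nI_pos H.f_ne)).ne'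
  have key := poisson_class n hc hy
  rw [hψ.sum_left hc0 (inv_pos.2 hy), hψ.sum_right hc0 hy, Complex.ofReal_div, div_pow] at key
  refine mul_left_cancel₀ (mul_ne_zero hu hp) ?_
  rw [key]
  field_simp

/-- `Summable.tsum_finsetSum`, `IsH.summable`; the term `I = ⊥` vanishes. -/
theorem IsH.Th_eq (hψ : H.IsH ψ n) (hy : 0 < y) {ι : Type} [Fintype ι] {ρ : ι → Ideal (𝓞 K)}
    (h : ∀ I : Ideal (𝓞 K), I ≠ ⊥ → ∃! c, (ρ c * I).IsPrincipal) :
    H.Th ψ y = ∑ c, H.Sc ψ (ρ c) y := by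
  classical
  unfold Th Sc
  rw [← Summable.tsum_finsetSum]
  · refine tsum_congr fun J => ?_
    by_cases hJ : J = ⊥
    · subst hJ
      rw [gth_bot hψ, zero_mul]
      simp only [ite_self, Finset.sum_const_zero]
    · obtain ⟨c, hc, hu⟩ := h J hJ
      rw [Finset.sum_eq_single c, if_pos hc]
      · exact fun b _ hb => if_neg fun hb' => hb (hu b hb')
      · exact fun hn => absurd (Finset.mem_univ c) hn
  · intro c _
    refine Summable.of_norm_bounded (hψ.summable hy) fun J => ?_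
    split_ifs
    · exact le_rfl
    · rw [norm_zero]
      exact norm_nonneg _

/-- `exists_reps`, `Th_eq` for `ρ` and for `c ↦ f * ρ c`, `Sc_inv`. -/
theorem IsH.Th_inv (hψ : H.IsH ψ n) (hy : 0 < y) :
    H.Th ψ y⁻¹ = H.W ψ n * (y : ℂ) ^ (n + 1) * H.Th ψ y := by
  obtain ⟨ρ, h1, h2⟩ := exists_reps H.f_ne
  have h3 : ∀ I : Ideal (𝓞 K), I ≠ ⊥ → ∃! c, ((fun c => H.f * ρ c) c * I).IsPrincipal := by
    intro J hJ
    have h4 := h2 (H.f * J) (mul_ne_zero H.f_ne hJ)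
    have e : ∀ c, H.f * ρ c * J = ρ c * (H.f * J) := fun c => by ring
    simpa only [e] using h4
  rw [hψ.Th_eq (inv_pos.2 hy) h2, hψ.Th_eq hy h3, Finset.mul_sum]
  exact Finset.sum_congr rfl fun c _ => hψ.Sc_inv (h1 c).1 hy

end Gk

end Pool.Agent.Lib.MP_bcfefa_nt
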