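import Pool.Agent.Lib.MP_bcfefa_nt.HRing

set_option autoImplicit false

noncomputable section

namespace Pool.Agent.Lib.MP_bcfefa_nt

open Complex Finset MeasureTheory Pool.Agent.Lib.MP_03e5d0_nt
open scoped Real ContDiff

/-! The character: basic properties and self-duality. -/

namespace Hk

variable (H : Hk)

theorem X_mul (α β : H.O) : H.X (α * β) = H.X α * H.X β := by
  unfold X
  rw [map_mul, map_mul]

theorem X_one : H.X 1 = 1 := by
  unfold X
  rw [map_one, map_one]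

theorem X_pow (α : H.O) (n : ℕ) : H.X (α ^ n) = H.X α ^ n := by
  unfold X
  rw [map_pow, map_pow]

theorem X_congr {α β : H.O} (h : H.f ∣ α - β) : H.X α = H.X β := by
  unfold X
  rw [Ideal.Quotient.eq.2 (Ideal.mem_span_singleton.2 h)]

theorem hchar_unit {α : H.O} :
    IsUnit (Ideal.Quotient.mk (Ideal.span {H.f}) α) ↔ IsCoprime α H.f := by
  constructor
  · intro h
    obtain ⟨b, hb⟩ := h.exists_left_inv
    obtain ⟨b, rfl⟩ := Ideal.Quotient.mk_surjective b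
    rw [← map_mul, ← map_one (Ideal.Quotient.mk (Ideal.span {H.f})), Ideal.Quotient.eq,
      Ideal.mem_span_singleton] at hb
    obtain ⟨c, hc⟩ := hb
    exact ⟨b, -c, by linear_combination hc⟩
  · rintro ⟨a, b, h⟩
    refine IsUnit.of_mul_eq_one_right (Ideal.Quotient.mk _ a) ?_
    rw [← map_mul, ← map_one (Ideal.Quotient.mk (Ideal.span {H.f})), Ideal.Quotient.eq,
      Ideal.mem_span_singleton]
    exact ⟨-b, by linear_combination h⟩

theorem X_ne_zero {α : H.O} : H.X α ≠ 0 ↔ IsCoprime α H.f := by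
  rw [← H.hchar_unit]
  constructor
  · intro h
    by_contra h'
    exact h (H.χ.map_nonunit h')
  · intro h
    exact (h.map H.χ).ne_zero

/-- The quotient is finite, so the values at units are roots of unity. -/
theorem norm_X {α : H.O} (h : IsCoprime α H.f) : ‖H.X α‖ = 1 := by
  have := H.finite_quot
  obtain ⟨u, hu⟩ := H.hchar_unit.2 h
  obtain ⟨n, hn, hn'⟩ := (isOfFinOrder_of_finite u).exists_pow_eq_one
  refine Complex.norm_eq_one_of_pow_eq_one (n := n) ?_ hn.ne'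
  unfold X
  rw [← hu, ← map_pow, ← Units.val_pow_eq_pow_val, hn', Units.val_one, map_one]

theorem norm_X_le (α : H.O) : ‖H.X α‖ ≤ 1 := by
  by_cases h : H.X α = 0
  · rw [h, norm_zero]
    exact zero_le_one
  · exact (H.norm_X (H.X_ne_zero.1 h)).le

theorem X_neg (α : H.O) : H.X (-α) = -H.X α := by
  have h : H.X (-1) = -1 := H.odd
  rw [← neg_one_mul α, X_mul, h, neg_one_mul]

theorem X_zero : H.X 0 = 0 := by
  have h := H.X_neg 0
  rw [neg_zero] at h
  linear_combination (1 / 2 : ℂ) * h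

theorem not_dvd_D {p : ℕ} (hp : p.Prime) (h : IsCoprime (p : H.O) H.f) : ¬(p : ℤ) ∣ H.D := by
  intro hd
  refine H.X_ne_zero.2 h ((H.neb p hp h).trans ?_)
  unfold eps
  exact if_pos hd

theorem X_inert {p : ℕ} (hp : p.Prime) (h : IsCoprime (p : H.O) H.f) (h' : Prime (p : H.O)) :
    H.X p = -1 := by
  refine (H.neb p hp h).trans ?_
  unfold eps
  exact (if_neg (H.not_dvd_D hp h)).trans (if_pos h')

theorem X_split {p : ℕ} (hp : p ∈ H.P) : H.X p = 1 := by
  refine (H.neb p hp.1 hp.2.1).trans ?_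
  unfold eps
  exact (if_neg (H.not_dvd_D hp.1 hp.2.1)).trans (if_neg hp.2.2)

theorem hchar_dvd_prime {ρ : H.O} (h : Prime ρ) {n : ℕ} (hn : n ≠ 0) (hd : ρ ∣ (n : H.O)) :
    ∃ p : ℕ, p.Prime ∧ ρ ∣ (p : H.O) := by
  induction n using induction_on_primes with
  | zero => exact absurd rfl hn
  | one => exact absurd (isUnit_of_dvd_one (by simpa using hd)) h.not_isUnit
  | prime_mul p a hp ih =>
    rw [Nat.cast_mul] at hd
    rcases h.dvd_or_dvd hd with h1 | h1
    · exact ⟨p, hp, h1⟩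
    · exact ih (right_ne_zero_of_mul hn) h1

/-- A prime element divides its norm, hence a rational prime `p`; `nm ρ ∣ p ^ 2`. -/
theorem prime_cases {ρ : H.O} (h : Prime ρ) : ∃ p : ℕ, p.Prime ∧
    ((Prime (p : H.O) ∧ Associated ρ (p : H.O)) ∨ (¬Prime (p : H.O) ∧ H.nm ρ = p)) := by
  obtain ⟨p, hp, c, hc⟩ := H.hchar_dvd_prime h (fun h0 => h.ne_zero (H.nm_eq_zero.1 h0))
    ⟨_, (H.mul_cj ρ).symm⟩
  refine ⟨p, hp, ?_⟩
  have h1 : p ^ 2 = H.nm ρ * H.nm c := by rw [← H.nm_mul, ← hc, H.nm_natCast]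
  obtain ⟨i, hi, hi'⟩ := (Nat.dvd_prime_pow hp).1 ⟨_, h1⟩
  interval_cases i
  · exact absurd (H.nm_eq_one.1 (by simpa using hi')) h.not_isUnit
  · rw [pow_one] at hi'
    refine Or.inr ⟨fun hpp => ?_, hi'⟩
    have h2 : (p : H.O) = ρ * H.cj ρ := by rw [H.mul_cj, hi']
    rcases hpp.irreducible.isUnit_or_isUnit h2 with h3 | h3
    · exact h.not_isUnit h3
    · exact (H.prime_cj h).not_isUnit h3
  · have h2 : H.nm c = 1 := by
      rw [hi'] at h1
      exact (Nat.mul_eq_left (pow_ne_zero 2 hp.ne_zero)).1 h1.symm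
    have h3 : Associated ρ (p : H.O) := hc ▸ associated_mul_unit_right _ _ (H.nm_eq_one.1 h2)
    exact Or.inl ⟨h3.prime h, h3⟩

theorem X_nm {α : H.O} (h : IsCoprime α H.f) (h' : IsCoprime (H.cj α) H.f) : H.X (H.nm α) = 1 := by
  induction α using UniqueFactorizationMonoid.induction_on_prime with
  | h₁ => exact absurd H.X_zero (H.X_ne_zero.2 h)
  | h₂ u hu => rw [H.nm_eq_one.2 hu, Nat.cast_one, X_one]
  | h₃ a ρ _ hρ ih =>
    rw [map_mul] at h'
    rw [H.nm_mul, Nat.cast_mul, X_mul, ih h.of_mul_left_right h'.of_mul_left_right, mul_one]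
    have h1 := h.of_mul_left_left
    have h2 := h'.of_mul_left_left
    obtain ⟨p, hp, ⟨h3, u, hu⟩ | ⟨h3, h4⟩⟩ := H.prime_cases hρ
    · have h5 : H.nm ρ = p ^ 2 := by
        rw [← H.nm_natCast, ← hu, H.nm_mul, H.nm_eq_one.2 u.isUnit, mul_one]
      have h6 : IsCoprime (p : H.O) H.f := by
        rw [← hu]
        exact h1.mul_left ⟨(u⁻¹ : H.Oˣ), 0, by simp⟩
      rw [h5, Nat.cast_pow, X_pow, H.X_inert hp h6 h3]
      norm_num
    · rw [h4]
      refine H.X_split ⟨hp, ?_, h3⟩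
      rw [← h4, ← H.mul_cj]
      exact h1.mul_left h2

/-- Primitivity applied to a greatest common divisor of `f` and `cj f`. -/
theorem f_dvd_cj : H.f ∣ H.cj H.f := by
  obtain ⟨g, hg⟩ := (IsPrincipalIdealRing.principal (Ideal.span {H.f, H.cj H.f})).principal
  have hg' : Ideal.span {H.f, H.cj H.f} = Ideal.span {g} := hg
  have h1 : g ∣ H.f := Ideal.mem_span_singleton.1 (hg' ▸ Ideal.subset_span (by simp))
  have h2 : g ∣ H.cj H.f := Ideal.mem_span_singleton.1 (hg' ▸ Ideal.subset_span (by simp))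
  obtain ⟨u, v, huv⟩ := Ideal.mem_span_pair.1 (hg' ▸ Ideal.mem_span_singleton_self g)
  by_contra hn
  obtain ⟨a, ha, ⟨k, hk⟩, hX⟩ := H.prim g h1 fun h => hn (h.trans h2)
  have h3 : H.X (1 + v * k * H.cj H.f) = H.X a :=
    H.X_congr ⟨-(u * k), by linear_combination -hk + k * huv⟩
  have h4 : H.X (H.cj (1 + v * k * H.cj H.f)) = 1 := by
    rw [← H.X_one]
    refine H.X_congr ⟨H.cj (v * k), ?_⟩
    rw [map_add, map_one, map_mul _ (v * k), H.cj_cj]
    ring
  have h5 := H.X_nm (H.X_ne_zero.1 (h3 ▸ H.X_ne_zero.2 ha)) (H.X_ne_zero.1 (h4 ▸ one_ne_zero))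
  rw [← H.mul_cj, X_mul, h4, mul_one, h3] at h5
  exact hX h5

theorem coprime_cj {α : H.O} : IsCoprime (H.cj α) H.f ↔ IsCoprime α H.f := by
  have key : ∀ β : H.O, IsCoprime β H.f → IsCoprime (H.cj β) H.f := fun β h =>
    (h.map H.cj).of_isCoprime_of_dvd_right H.f_dvd_cj
  exact ⟨fun h => H.cj_cj α ▸ key _ h, key α⟩

theorem X_cj (α : H.O) : H.X (H.cj α) = starRingEnd ℂ (H.X α) := by
  by_cases h : IsCoprime α H.f
  · have h1 := H.X_nm h (H.coprime_cj.2 h)
    rw [← H.mul_cj, X_mul] at h1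
    have h2 : H.X α * starRingEnd ℂ (H.X α) = 1 := by
      rw [Complex.mul_conj, Complex.normSq_eq_norm_sq, H.norm_X h]
      norm_num
    exact mul_left_cancel₀ (H.X_ne_zero.2 h) (h1.trans h2.symm)
  · have h1 : H.X α = 0 := by_contra fun h0 => h (H.X_ne_zero.1 h0)
    have h2 : H.X (H.cj α) = 0 := by_contra fun h0 => h (H.coprime_cj.1 (H.X_ne_zero.1 h0))
    rw [h1, h2, map_zero]

theorem X_nat (t : ℕ) : H.X t = (H.η t : ℂ) := by
  have h := H.X_cj t
  rw [map_natCast] at h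
  exact (Complex.conj_eq_iff_re.1 h.symm).symm

theorem coprime_nat {t : ℕ} : IsCoprime (t : H.O) H.f ↔ t.Coprime (H.nm H.f) := by
  constructor
  · intro h
    have h1 := h.map H.cj
    rw [map_natCast] at h1
    have h2 := h.mul_right h1
    rw [H.mul_cj] at h2
    have h3 := H.nm_eq_one.2 (h2.isUnit_of_dvd' (Nat.cast_dvd_cast (Nat.gcd_dvd_left t _))
      (Nat.cast_dvd_cast (Nat.gcd_dvd_right _ _)))
    rw [H.nm_natCast] at h3
    exact (Nat.pow_eq_one.1 h3).resolve_right two_ne_zero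
  · intro h
    exact (Nat.Coprime.cast h).of_isCoprime_of_dvd_right ⟨_, (H.mul_cj _).symm⟩

/-- `cj f = u f` for a unit `u`, so `(f / ‖f‖) ^ 2 = u⁻¹`. -/
theorem f_pow : ((H.f : ℂ) / (‖(H.f : ℂ)‖ : ℝ)) ^ 24 = 1 := by
  obtain ⟨u, hu⟩ := H.f_dvd_cj
  have h0 : H.nm H.f ≠ 0 := fun h => H.f_ne (H.nm_eq_zero.1 h)
  have h1 : H.nm u = 1 := by
    have h2 := H.nm_cj H.f
    rw [hu, H.nm_mul] at h2
    exact (Nat.mul_eq_left h0).1 h2
  obtain ⟨v, rfl⟩ := H.nm_eq_one.1 h1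
  have h3 := H.unit_pow v
  have h4 : starRingEnd ℂ (H.f : ℂ) = (H.f : ℂ) * ((v : H.O) : ℂ) := by
    rw [← H.coe_cj, hu]
    rfl
  have h5 : (H.f : ℂ) ≠ 0 := fun h => H.f_ne (Subtype.ext h)
  have h6 : ((‖(H.f : ℂ)‖ : ℝ) : ℂ) ^ 2 = (H.f : ℂ) ^ 2 * ((v : H.O) : ℂ) := by
    rw [← Complex.mul_conj', h4]
    ring
  rw [div_pow, show 24 = 2 * 12 from rfl, pow_mul, pow_mul, h6, mul_pow, h3, mul_one]
  exact div_self (pow_ne_zero _ (pow_ne_zero _ h5))

theorem Cp.add {H : Hk} {k : ℕ} (h : H.Cp k) (hk : 1 ≤ k) (r : ℕ) : H.Cp (k + 12 * r) := by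
  intro u
  rw [show k + 12 * r - 1 = k - 1 + 12 * r by omega, pow_add, pow_mul, H.unit_pow u, one_pow,
    mul_one]
  exact h u

end Hk

end Pool.Agent.Lib.MP_bcfefa_nt
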