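import Pool.Agent.Lib.MP_bcfefa_nt.HSpl
import Pool.Agent.Lib.MP_bcfefa_nt.HMert

set_option autoImplicit false

noncomputable section

namespace Pool.Agent.Lib.MP_bcfefa_nt

open Complex Finset MeasureTheory Pool.Agent.Lib.MP_03e5d0_nt
open scoped Real ContDiff

/-! The data of the family and the coefficients. -/

namespace Hk

variable (H : Hk)

theorem hdat_dvd {s : ℤ} (h : (H.nm H.f : ℤ) ∣ s) : H.f ∣ (s : H.O) := by
  obtain ⟨k, rfl⟩ := h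
  rw [Int.cast_mul, Int.cast_natCast, ← H.mul_cj]
  exact (dvd_mul_right _ _).mul_right _

theorem hdat_congr {s t : ℕ} (h : (s : ZMod (H.nm H.f)) = t) : H.X s = H.X t := by
  have h1 := H.hdat_dvd ((ZMod.natCast_eq_natCast_iff _ _ _).1 h.symm).dvd
  rw [Int.cast_sub, Int.cast_natCast, Int.cast_natCast] at h1
  exact H.X_congr h1

/-- `Φ x = X (x.val)` on `ZMod (nm f)`; `f ∣ nm f`, `X_congr`, `coprime_nat`, `X_ne_zero`, `X_neg`. -/
theorem exists_dir : ∃ (_ : NeZero (H.nm H.f)) (Φ : DirichletCharacter ℂ (H.nm H.f)),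
    Φ ≠ 1 ∧ ∀ t : ℕ, Φ t = H.η t := by
  have hq : NeZero (H.nm H.f) := ⟨fun e => H.f_ne (H.nm_eq_zero.1 e)⟩
  let Φ : DirichletCharacter ℂ (H.nm H.f) :=
    { toFun := fun x => H.X (x.val : ℕ)
      map_one' := by
        rw [H.hdat_congr (t := 1) (by rw [ZMod.natCast_zmod_val, Nat.cast_one]), Nat.cast_one,
          H.X_one]
      map_mul' := fun x y => by
        rw [H.hdat_congr (t := x.val * y.val) (by
          rw [Nat.cast_mul, ZMod.natCast_zmod_val, ZMod.natCast_zmod_val, ZMod.natCast_zmod_val]),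
          Nat.cast_mul, H.X_mul]
      map_nonunit' := fun x hx => by
        by_contra h
        have h1 := (ZMod.isUnit_iff_coprime _ _).2 (H.coprime_nat.1 (H.X_ne_zero.1 h))
        rw [ZMod.natCast_zmod_val] at h1
        exact hx h1 }
  have hΦ : ∀ x, Φ x = H.X (x.val : ℕ) := fun x => rfl
  refine ⟨hq, Φ, fun h => ?_, fun t => ?_⟩
  · have h1 : Φ (-1) = 1 := by
      rw [h]
      exact MulChar.one_apply isUnit_one.neg
    have h2 : (H.nm H.f : ℤ) ∣ (((-1 : ZMod (H.nm H.f)).val : ℕ) : ℤ) + 1 := by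
      rw [← ZMod.intCast_zmod_eq_zero_iff_dvd, Int.cast_add, Int.cast_natCast, ZMod.natCast_zmod_val,
        Int.cast_one, neg_add_cancel]
    have h3 := H.hdat_dvd h2
    rw [Int.cast_add, Int.cast_natCast, Int.cast_one, ← sub_neg_eq_add] at h3
    rw [hΦ, H.X_congr h3, H.X_neg, H.X_one] at h1
    norm_num at h1
  · rw [hΦ, H.hdat_congr (t := t) (ZMod.natCast_zmod_val _), H.X_nat]

/-- `exists_dir`, `period_bd`, `exists_kappa`, `tail_of`, `mert_of`, `exists_pts`, `sep_pts`; `G = ⊤`. -/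
theorem exists_dat : ∃ D : Dat, D.P = H.P ∧ D.η = H.η ∧ D.A = H.A ∧ ∀ (e : Xp) (j : ℕ), H.Ok e → 1 ≤ j →
    ch e (D.z j) = H.X (H.ce e) * (((H.ce e : H.O) : ℂ) / (√(Nm e) : ℝ)) ^ (2 * j - 1) := by
  obtain ⟨hq, Φ, hΦ, hη⟩ := H.exists_dir
  have hB := period_bd Φ hΦ hη
  obtain ⟨κ, hκ0, hκ⟩ := exists_kappa Φ hΦ hη hB
  obtain ⟨c₁, htl⟩ := tail_of hB hκ
  have hm : ∀ s t, H.η (s * t) = H.η s * H.η t := fun s t => by
    apply Complex.ofReal_injective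
    rw [Complex.ofReal_mul, ← H.X_nat, ← H.X_nat, ← H.X_nat, Nat.cast_mul, H.X_mul]
  have h1 : ∀ t, |H.η t| ≤ 1 := fun t => (Complex.abs_re_le_norm _).trans (H.norm_X_le _)
  have hme := mert_of hm h1 hB hκ0 hκ (P := H.P) hq.ne
    (fun p hp => ⟨hp.1, by rw [η, H.X_split hp, Complex.one_re]⟩)
    (fun p hp hp' hd => by
      have hc := H.coprime_nat.2 ((Nat.Prime.coprime_iff_not_dvd hp).2 hd)
      have hpr : Prime (p : H.O) := by
        by_contra hn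
        exact hp' ⟨hp, hc, hn⟩
      rw [η, H.X_inert hp hc hpr, Complex.neg_re, Complex.one_re])
  obtain ⟨u, ζ, hu⟩ := H.exists_pts
  refine ⟨⟨H.P, u, ζ, ⊤, H.η, H.A, κ, c₁, fun p hp => hp.1, by simp,
    ⟨H.w.im, H.im_pos, fun e _ h0 he => H.sep_pts he h0 (hu e he).1⟩, hme, H.A_pos, hκ0, htl⟩,
    rfl, rfl, rfl, fun e j he hj => ?_⟩
  rw [Dat.ch_z]
  change ch e ζ * ch e u ^ j = _
  rw [(hu e he).1, ← (hu e he).2, ← pow_mul, mul_assoc, ← pow_succ',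
    Nat.sub_add_cancel (by omega)]

theorem coef_eq (k m : ℕ) {T : Finset H.O} (hT : ∀ α, α ∈ T ↔ H.nm α = m) :
    coef H.f H.χ k m = (Nat.card H.Oˣ : ℂ)⁻¹ * ∑ α ∈ T, H.X α * (α : ℂ) ^ (k - 1) := by
  have h : {α : H.O | normSq (α : ℂ) = m} = (T : Set H.O) := by
    ext α
    rw [Set.mem_ofPred_eq, mem_coe, hT, ← H.nm_cast, Nat.cast_inj]
  unfold coef
  rw [h, finsum_mem_coe_finset]
  rfl

theorem coef_zero (k : ℕ) : coef H.f H.χ k 0 = 0 := by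
  rw [H.coef_eq k 0 (T := {0}) fun α => by rw [mem_singleton, H.nm_eq_zero], sum_singleton, H.X_zero,
    zero_mul, mul_zero]

theorem coef_one {k : ℕ} (h : H.Cp k) : coef H.f H.χ k 1 = 1 := by
  classical
  have := H.finite_units
  have := Fintype.ofFinite H.Oˣ
  rw [H.coef_eq k 1 (T := univ.image fun u : H.Oˣ => (u : H.O)) fun α => by
    rw [H.nm_eq_one, mem_image]
    exact ⟨fun ⟨u, _, hu⟩ => ⟨u, hu⟩, fun ⟨u, hu⟩ => ⟨u, mem_univ _, hu⟩⟩,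
    sum_image fun u _ v _ e => Units.val_injective e, sum_congr rfl fun u _ => h u, sum_const,
    card_univ, nsmul_eq_mul, mul_one, Nat.card_eq_fintype_card]
  exact inv_mul_cancel₀ (Nat.cast_ne_zero.2 Fintype.card_ne_zero)

/-- `card_le`, `norm_X_le`, `‖α‖ ^ (k - 1) ≤ m ^ (k - 1)`. -/
theorem norm_coef_le {k : ℕ} (hk : 1 ≤ k) : ∃ C : ℝ, ∀ m : ℕ, ‖coef H.f H.χ k m‖ ≤ C * (m : ℝ) ^ k := by
  obtain ⟨C, hC, h⟩ := H.card_le
  refine ⟨‖(Nat.card H.Oˣ : ℂ)⁻¹‖ * C, fun m => ?_⟩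
  rcases Nat.eq_zero_or_pos m with rfl | hm
  · rw [H.coef_zero, norm_zero]
    positivity
  obtain ⟨T, hT, hc⟩ := h m hm
  have hm' : (1 : ℝ) ≤ m := by exact_mod_cast hm
  rw [H.coef_eq k m (T := T.filter fun α => H.nm α = m) fun α => by
    rw [mem_filter, hT]
    exact ⟨fun e => e.2, fun e => ⟨e.le, e⟩⟩, norm_mul, mul_assoc]
  refine mul_le_mul_of_nonneg_left ?_ (norm_nonneg _)
  calc _ ≤ ∑ α ∈ T.filter fun α => H.nm α = m, (m : ℝ) ^ (k - 1) := by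
        refine norm_sum_le_of_le _ fun α hα => ?_
        have h1 : ‖(α : ℂ)‖ ^ 2 = m := by
          rw [← Complex.normSq_eq_norm_sq, ← H.nm_cast, (mem_filter.1 hα).2]
        have h2 : ‖(α : ℂ)‖ ≤ m := by nlinarith [norm_nonneg (α : ℂ)]
        rw [norm_mul, norm_pow]
        exact (mul_le_of_le_one_left (by positivity) (H.norm_X_le α)).trans
          (pow_le_pow_left₀ (norm_nonneg _) h2 _)
    _ ≤ C * m * (m : ℝ) ^ (k - 1) := by
        rw [sum_const, nsmul_eq_mul]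
        refine mul_le_mul_of_nonneg_right (le_trans ?_ hc) (by positivity)
        exact_mod_cast card_filter_le _ _
    _ = _ := by rw [mul_assoc, ← pow_succ', Nat.sub_add_cancel hk]

theorem hdat_nm (u : H.Oˣ) (t : ℕ) {e : Xp} (he : H.Ok e) :
    H.nm (u * (t : H.O) * H.ce e) = t ^ 2 * Nm e := by
  rw [H.nm_mul, H.nm_mul, H.nm_eq_one.2 u.isUnit, one_mul, H.nm_natCast, nm_ce he]

theorem hdat_le {t N Y : ℕ} (hN : 1 ≤ N) : t ≤ ⌊√((Y : ℝ) / N)⌋₊ ↔ t ^ 2 * N ≤ Y := by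
  have h : (0 : ℝ) < N := by exact_mod_cast hN
  rw [Nat.le_floor_iff (Real.sqrt_nonneg _), Real.le_sqrt (Nat.cast_nonneg _) (by positivity),
    le_div_iff₀ h]
  exact_mod_cast Iff.rfl

theorem hdat_term {j : ℕ} (hj : 1 ≤ j) (hc : H.Cp (2 * j)) (u : H.Oˣ) {t : ℕ} (ht : 1 ≤ t) {e : Xp}
    (he : H.Ok e) :
    H.X (u * (t : H.O) * H.ce e) * ((u * (t : H.O) * H.ce e : H.O) : ℂ) ^ (2 * j - 1) /
      (H.nm (u * (t : H.O) * H.ce e) : ℂ) ^ j =
    H.X (H.ce e) * (((H.ce e : H.O) : ℂ) / (√(Nm e) : ℝ)) ^ (2 * j - 1) *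
      ((H.η t / t / √(Nm e) : ℝ) : ℂ) := by
  obtain ⟨i, rfl⟩ := Nat.exists_eq_add_of_le' hj
  have h1 := hc u
  have hN : 1 ≤ Nm e := Pm.one_le fun p hp => (he p hp).1
  have h2 : ((√(Nm e) : ℝ) : ℂ) ≠ 0 :=
    Complex.ofReal_ne_zero.2 (Real.sqrt_ne_zero'.2 (by exact_mod_cast hN))
  have h3 : (Nm e : ℂ) = ((√(Nm e) : ℝ) : ℂ) ^ 2 := by
    rw [← Complex.ofReal_pow, Real.sq_sqrt (Nat.cast_nonneg _), Complex.ofReal_natCast]
  have h4 : (t : ℂ) ≠ 0 := Nat.cast_ne_zero.2 (by omega)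
  rw [show 2 * (i + 1) - 1 = 2 * i + 1 by omega] at h1 ⊢
  rw [H.hdat_nm u t he, H.X_mul, H.X_mul, H.X_nat, Nat.cast_mul, Nat.cast_pow, h3,
    Complex.ofReal_div, Complex.ofReal_div, Complex.ofReal_natCast, Subring.coe_mul, Subring.coe_mul,
    Subring.coe_natCast]
  generalize ((√(Nm e) : ℝ) : ℂ) = r at h2 ⊢
  calc _ = H.X u * ((u : H.O) : ℂ) ^ (2 * i + 1) * (H.X (H.ce e) *
        (((H.ce e : H.O) : ℂ) / r) ^ (2 * i + 1) * ((H.η t : ℂ) / t / r)) := by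
        rw [div_pow]
        field_simp
        ring
    _ = _ := by rw [h1, one_mul]

/-- The left side is `card⁻¹ ∑_{1 ≤ nm α ≤ Y} X α α ^ (2 j - 1) / nm α ^ j`; only the `α` prime to `f` count.
These are the `u t (ce e)` with `t ^ 2 Nm e ≤ Y` and `t` prime to `f` (`exists_ce`, `ce_unique`,
`Finset.sum_bij` or `sum_image` on `univ ×ˢ (D.E Y).sigma ..`); the term is `η t / t * ch e / √(Nm e)`. -/
theorem sum_coef {D : Dat} (hP : D.P = H.P) (hη : D.η = H.η) {j : ℕ} (hj : 1 ≤ j) (hc : H.Cp (2 * j))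
    (hz : ∀ e : Xp, H.Ok e →
      ch e (D.z j) = H.X (H.ce e) * (((H.ce e : H.O) : ℂ) / (√(Nm e) : ℝ)) ^ (2 * j - 1)) (Y : ℕ) :
    ∑ m ∈ Icc 1 Y, coef H.f H.χ (2 * j) m / (m : ℂ) ^ j = D.TT Y (D.z j) := by
  classical
  have := H.finite_units
  have := Fintype.ofFinite H.Oˣ
  have hOk : ∀ e, D.Ok e ↔ H.Ok e := fun e => by
    unfold Dat.Ok Ok
    rw [hP]
  have hN : ∀ e, H.Ok e → 1 ≤ Nm e := fun e he => Pm.one_le fun p hp => (he p hp).1
  set T := (H.finite_le Y).toFinset with hT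
  set F : H.O → ℂ := fun α => H.X α * (α : ℂ) ^ (2 * j - 1) / (H.nm α : ℂ) ^ j with hF
  set I := (univ : Finset H.Oˣ) ×ˢ (D.E Y).sigma fun e => Icc 1 ⌊√((Y : ℝ) / Nm e)⌋₊ with hI
  set g : H.Oˣ × (Σ _ : Xp, ℕ) → H.O := fun x => x.1 * (x.2.2 : H.O) * H.ce x.2.1 with hg
  have hmI : ∀ x : H.Oˣ × (Σ _ : Xp, ℕ),
      x ∈ I ↔ H.Ok x.2.1 ∧ 1 ≤ x.2.2 ∧ x.2.2 ^ 2 * Nm x.2.1 ≤ Y := fun x => by
    rw [hI, mem_product, mem_sigma, D.mem_E, hOk, mem_Icc]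
    constructor
    · rintro ⟨_, ⟨a, _⟩, c, d⟩
      exact ⟨a, c, (hdat_le (hN _ a)).1 d⟩
    · rintro ⟨a, c, d⟩
      refine ⟨mem_univ _, ⟨a, ?_⟩, c, (hdat_le (hN _ a)).2 d⟩
      exact_mod_cast (Nat.le_mul_of_pos_left _ (pow_pos c 2)).trans d
  have e1 : ∑ m ∈ Icc 1 Y, coef H.f H.χ (2 * j) m / (m : ℂ) ^ j =
      (Nat.card H.Oˣ : ℂ)⁻¹ * ∑ α ∈ T.filter fun α => H.nm α ∈ Icc 1 Y, F α := by
    rw [← sum_fiberwise_eq_sum_filter, mul_sum]
    refine sum_congr rfl fun m hm => ?_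
    rw [H.coef_eq (2 * j) m (T := T.filter fun α => H.nm α = m) fun α => by
      rw [mem_filter, hT, Set.Finite.mem_toFinset, Set.mem_ofPred_eq]
      exact ⟨fun e => e.2, fun e => ⟨e.le.trans (mem_Icc.1 hm).2, e⟩⟩, mul_div_assoc, sum_div]
    congr 1
    refine sum_congr rfl fun α hα => ?_
    rw [hF, ← (mem_filter.1 hα).2]
  have e2 : ∑ α ∈ I.image g, F α = ∑ α ∈ T.filter fun α => H.nm α ∈ Icc 1 Y, F α := by
    refine sum_subset (fun α hα => ?_) fun α hα hn => ?_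
    · obtain ⟨x, hx, rfl⟩ := mem_image.1 hα
      obtain ⟨a, c, d⟩ := (hmI x).1 hx
      have e : H.nm (g x) = x.2.2 ^ 2 * Nm x.2.1 := H.hdat_nm _ _ a
      rw [mem_filter, hT, Set.Finite.mem_toFinset, Set.mem_ofPred_eq, mem_Icc, e]
      exact ⟨d, Nat.mul_pos (pow_pos c 2) (hN _ a), d⟩
    · have h0 : H.X α = 0 := by
        by_contra h0
        obtain ⟨u, t, e, ht, he, rfl⟩ := exists_ce (H.X_ne_zero.1 h0)
        refine hn (mem_image.2 ⟨(u, ⟨e, t⟩), (hmI _).2 ⟨he, ht, ?_⟩, rfl⟩)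
        have := (mem_Icc.1 (mem_filter.1 hα).2).2
        rwa [H.hdat_nm u t he] at this
      rw [hF]
      simp only [h0, zero_mul, zero_div]
  have e3 : ∑ α ∈ I.image g, F α = ∑ x ∈ I, F (g x) := by
    refine sum_image ?_
    rintro ⟨u, e, t⟩ hx ⟨u', e', t'⟩ hy h
    obtain ⟨a, c, _⟩ := (hmI _).1 hx
    obtain ⟨a', c', _⟩ := (hmI _).1 hy
    obtain ⟨rfl, rfl, rfl⟩ := ce_unique c c' a a' h
    rfl
  have e4 : ∑ x ∈ I, F (g x) = ∑ _u : H.Oˣ, D.TT Y (D.z j) := by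
    rw [hI, sum_product]
    refine sum_congr rfl fun u _ => ?_
    rw [sum_sigma, Dat.TT]
    refine sum_congr rfl fun e he => ?_
    have he' := (hOk e).1 (D.mem_E.1 he).1
    rw [t0, sum_div, Complex.ofReal_sum, mul_sum, hz e he', hη]
    exact sum_congr rfl fun t ht => H.hdat_term hj hc u (mem_Icc.1 ht).1 he'
  rw [e1, ← e2, e3, e4, sum_const, card_univ, nsmul_eq_mul, Nat.card_eq_fintype_card,
    inv_mul_cancel_left₀ (Nat.cast_ne_zero.2 Fintype.card_ne_zero)]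

end Hk

end Pool.Agent.Lib.MP_bcfefa_nt
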