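import Pool.Agent.Lib.MP_bcfefa_nt.Stmt
import Pool.Agent.Lib.MP_bcfefa_nt.Def

set_option autoImplicit false

noncomputable section

namespace Pool.Agent.Lib.MP_bcfefa_nt

open Complex Finset MeasureTheory Pool.Agent.Lib.MP_03e5d0_nt
open scoped Real ContDiff

/-! Definitions for the arithmetic part. -/

/-- The hypotheses on the ring and the character. -/
structure Hk where
  w : ℂ
  a : ℤ
  b : ℤ
  sq : w ^ 2 = a + b * w
  im_pos : 0 < w.im
  pid : IsPrincipalIdealRing (Zw w)
  f : Zw w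
  f_ne : f ≠ 0
  χ : MulChar (Zw w ⧸ Ideal.span {f}) ℂ
  prim : IsPrim f χ
  neb : ∀ p : ℕ, p.Prime → IsCoprime (p : Zw w) f →
    χ (Ideal.Quotient.mk _ (p : Zw w)) = eps w (b ^ 2 + 4 * a) p
  odd : χ (Ideal.Quotient.mk _ (-1 : Zw w)) = -1

namespace Hk

variable (H : Hk)

/-- The ring. -/
abbrev O : Type := Zw H.w

instance : IsPrincipalIdealRing H.O := H.pid

/-- The discriminant. -/
def D : ℤ := H.b ^ 2 + 4 * H.a

/-- The character as a function on the ring. -/
def X (α : H.O) : ℂ := H.χ (Ideal.Quotient.mk _ α)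

/-- The norm as a natural number. -/
def nm (α : H.O) : ℕ := ⌊normSq (α : ℂ)⌋₊

/-- The element `x + y w`. -/
def el (x y : ℤ) : H.O :=
  (x : H.O) + (y : H.O) * ⟨H.w, Subring.subset_closure (Set.mem_singleton _)⟩

/-- The units are compatible with the weight `k`. -/
def Cp (k : ℕ) : Prop := ∀ u : H.Oˣ, H.X u * ((u : H.O) : ℂ) ^ (k - 1) = 1

/-- The split primes that are prime to the conductor. -/
def P : Set ℕ := {p | p.Prime ∧ IsCoprime (p : H.O) H.f ∧ ¬Prime (p : H.O)}

open Classical in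
/-- An element of norm `p`. -/
def pi (p : ℕ) : H.O := if h : ∃ α : H.O, H.nm α = p then h.choose else 1

/-- The restriction of the character to the integers. -/
def η (t : ℕ) : ℝ := (H.X t).re

/-- The scale `√N / (2 π)`, where `N` is the level. -/
def A : ℝ := √(-(H.D : ℝ) * normSq (H.f : ℂ)) / (2 * π)

/-- The theta series on the imaginary axis. -/
def th (n : ℕ) (y : ℝ) : ℂ :=
  ∑' α : H.O, H.X α * (α : ℂ) ^ n * (Real.exp (-(normSq (α : ℂ) * y / H.A)) : ℝ)

end Hk

end Pool.Agent.Lib.MP_bcfefa_nt
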