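import Pool.Agent.Lib.MP_bcfefa_nt.Def

set_option autoImplicit false

noncomputable section

namespace Pool.Agent.Lib.MP_bcfefa_nt

open Complex Finset MeasureTheory Pool.Agent.Lib.MP_03e5d0_nt
open scoped Real ContDiff

/-! Sums of a real sequence with bounded truncated sums. -/

theorem heta_Icc (n : ℕ) : Icc 1 n = Ioc 0 n := by ext; simp [Nat.succ_le_iff]

theorem heta_log_le {x : ℝ} (hx : 0 < x) : Real.log x ≤ 2 * √x := by
  have := Real.log_le_sub_one_of_pos (Real.sqrt_pos.2 hx)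
  rw [Real.log_sqrt hx.le] at this
  linarith

/-- Summation by parts (induction on `b`): the sum equals `S b * g b - S a * g (a + 1) + ∑ S t (g t - g (t + 1))`. -/
theorem abel_bd {η g : ℕ → ℝ} {B : ℝ} (hB : ∀ n, |∑ t ∈ Icc 1 n, η t| ≤ B) {a b : ℕ} (hab : a ≤ b)
    (h0 : ∀ t, a < t → 0 ≤ g t) (hg : ∀ t, a < t → g (t + 1) ≤ g t) :
    |∑ t ∈ Ioc a b, η t * g t| ≤ 2 * B * g (a + 1) := by
  have hD : ∀ c, a ≤ c → |∑ t ∈ Ioc a c, η t| ≤ 2 * B := fun c hc => by
    have h1 := hB a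
    have h2 := hB c
    rw [heta_Icc] at h1 h2
    rw [← sum_Ioc_consecutive η a.zero_le hc] at h2
    rw [abs_le] at *
    constructor <;> linarith [h1.1, h1.2, h2.1, h2.2]
  have key : ∀ c, a ≤ c → |∑ t ∈ Ioc a c, η t * g t - (∑ t ∈ Ioc a c, η t) * g (c + 1)| ≤
      2 * B * (g (a + 1) - g (c + 1)) := fun c hc => by
    induction c, hc using Nat.le_induction with
    | base => simp
    | succ c hc ih =>
      have h1 := hD (c + 1) (by omega)
      have h2 := sub_nonneg.2 (hg (c + 1) (by omega))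
      have h3 : ∑ t ∈ Ioc a (c + 1), η t * g t - (∑ t ∈ Ioc a (c + 1), η t) * g (c + 1 + 1) =
          (∑ t ∈ Ioc a c, η t * g t - (∑ t ∈ Ioc a c, η t) * g (c + 1)) +
            (∑ t ∈ Ioc a (c + 1), η t) * (g (c + 1) - g (c + 1 + 1)) := by
        rw [sum_Ioc_succ_top hc, sum_Ioc_succ_top hc]
        ring
      rw [h3]
      refine (abs_add_le _ _).trans ?_
      rw [abs_mul, abs_of_nonneg h2]
      nlinarith [mul_le_mul_of_nonneg_right h1 h2]
  have h1 := key b hab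
  have h2 := h0 (b + 1) (by omega)
  have h3 := mul_le_mul_of_nonneg_right (hD b hab) h2
  rw [← abs_of_nonneg h2, ← abs_mul, abs_of_nonneg h2] at h3
  have h4 := abs_sub_abs_le_abs_sub (∑ t ∈ Ioc a b, η t * g t) ((∑ t ∈ Ioc a b, η t) * g (b + 1))
  linarith

/-- The truncated sums form a Cauchy sequence. -/
theorem exists_lim {η g : ℕ → ℝ} {B : ℝ} (hB : ∀ n, |∑ t ∈ Icc 1 n, η t| ≤ B) {a₀ : ℕ}
    (h0 : ∀ t, a₀ < t → 0 ≤ g t) (hg : ∀ t, a₀ < t → g (t + 1) ≤ g t)
    (hl : Filter.Tendsto g Filter.atTop (nhds 0)) :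
    ∃ s : ℝ, ∀ a, a₀ ≤ a → |∑ t ∈ Icc 1 a, η t * g t - s| ≤ 2 * B * g (a + 1) := by
  have key : ∀ a b, a₀ ≤ a → a ≤ b → |∑ t ∈ Icc 1 a, η t * g t - ∑ t ∈ Icc 1 b, η t * g t| ≤
      2 * B * g (a + 1) := fun a b ha hab => by
    rw [heta_Icc, heta_Icc, ← sum_Ioc_consecutive _ a.zero_le hab, abs_sub_comm,
      add_sub_cancel_left]
    exact abel_bd hB hab (fun t ht => h0 t (by omega)) fun t ht => hg t (by omega)
  obtain ⟨s, hs⟩ := cauchySeq_tendsto_of_complete (cauchySeq_of_le_tendsto_0'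
    (s := fun n => ∑ t ∈ Icc 1 (n + a₀), η t * g t) (fun n => 2 * B * g (n + a₀ + 1))
    (fun n m h => key _ _ (by omega) (by omega)) (by
      simpa [add_assoc] using (hl.comp (Filter.tendsto_add_atTop_nat (a₀ + 1))).const_mul (2 * B)))
  refine ⟨s, fun a ha => le_of_tendsto (hs.const_sub _).abs ?_⟩
  filter_upwards [Filter.eventually_ge_atTop a] with n hn using key _ _ ha (by omega)

/-- `exists_lim` with `g t = log t / t`, decreasing for `t ≥ 3` (`Real.log_div_self_antitoneOn`); the cases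
`n ≤ 2` are absorbed in the constant, and `log x ≤ 2 √x`. -/
theorem exists_lim_log {η : ℕ → ℝ} {B : ℝ} (hB : ∀ n, |∑ t ∈ Icc 1 n, η t| ≤ B) :
    ∃ s C : ℝ, ∀ n : ℕ, |∑ t ∈ Icc 1 n, η t / t * Real.log t - s| ≤ C / √(n + 1) := by
  have hB0 : 0 ≤ B := (abs_nonneg _).trans (hB 0)
  obtain ⟨s, hs⟩ := exists_lim (g := fun t => Real.log t / t) hB (a₀ := 2)
    (fun t _ => by positivity) (fun t ht => by
      have h1 : Real.exp 1 ≤ t := Real.exp_one_lt_d9.le.trans (by
        have : (3 : ℝ) ≤ t := by exact_mod_cast ht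
        linarith)
      exact Real.log_div_self_antitoneOn h1 (h1.trans (by simp)) (by simp))
    (Real.isLittleO_log_id_atTop.tendsto_div_nhds_zero.comp tendsto_natCast_atTop_atTop)
  refine ⟨s, 4 * B + 2 * |s|, fun n => ?_⟩
  have h1 : (0 : ℝ) < √(n + 1) := by positivity
  rcases le_or_gt 2 n with h | h
  · have h2 := hs n h
    simp only [← mul_div_assoc, Nat.cast_add, Nat.cast_one] at h2
    simp only [div_mul_eq_mul_div]
    refine h2.trans ?_
    have h3 := heta_log_le (x := n + 1) (by positivity)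
    have h4 : √((n : ℝ) + 1) * √(n + 1) = n + 1 := Real.mul_self_sqrt (by positivity)
    rw [div_le_div_iff₀ (by positivity) h1]
    have h5 := mul_le_mul_of_nonneg_right (mul_le_mul_of_nonneg_left h3 hB0) h1.le
    have h6 : 0 ≤ |s| * (n + 1) := by positivity
    nlinarith
  · have h2 : ∑ t ∈ Icc 1 n, η t / t * Real.log t = 0 := by
      interval_cases n <;> simp
    have h3 : √((n : ℝ) + 1) ≤ 2 := Real.sqrt_le_iff.2 ⟨by norm_num, by
      have : (n : ℝ) ≤ 2 := by exact_mod_cast h.le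
      linarith⟩
    rw [h2, zero_sub, abs_neg, le_div_iff₀ h1]
    nlinarith [abs_nonneg s]

/-- With `n = ⌊√X⌋₊`, `√X < n + 1`: `t1 η X = log X * t0 η X - 2 ∑ η t / t * log t`, `c₁ = -2 s`,
`log X ≤ 4 √√X`. -/
theorem tail_of {η : ℕ → ℝ} {B κ : ℝ} (hB : ∀ n, |∑ t ∈ Icc 1 n, η t| ≤ B)
    (hκ : ∀ n : ℕ, |∑ t ∈ Icc 1 n, η t / t - κ| ≤ 2 * B / (n + 1)) :
    ∃ c₁ C : ℝ, ∀ X : ℝ, 1 ≤ X →
      |t0 η X - κ| ≤ C / √X ∧ |t1 η X - κ * Real.log X - c₁| ≤ C / √√X := by
  have hB0 : 0 ≤ B := (abs_nonneg _).trans (hB 0)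
  obtain ⟨s, C, hC⟩ := exists_lim_log hB
  have hC0 : 0 ≤ C := by simpa using (abs_nonneg _).trans (hC 0)
  refine ⟨-2 * s, 8 * B + 2 * C, fun X hX => ?_⟩
  have h1 : 0 < √X := by positivity
  have h2 : 0 < √√X := by positivity
  have h3 := (Nat.lt_floor_add_one √X).le
  have h4 : |t0 η X - κ| ≤ 2 * B / √X := (hκ _).trans (by gcongr)
  refine ⟨h4.trans (by gcongr; linarith), ?_⟩
  have h5 : t1 η X - κ * Real.log X - -2 * s = Real.log X * (t0 η X - κ) -
      2 * (∑ t ∈ Icc 1 ⌊√X⌋₊, η t / t * Real.log t - s) := by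
    rw [t1, t0, sum_congr rfl fun t ht => show η t / t * Real.log (X / (t : ℝ) ^ 2) =
        Real.log X * (η t / t) - 2 * (η t / t * Real.log t) by
      have : (0 : ℝ) < t := by exact_mod_cast (mem_Icc.1 ht).1
      rw [Real.log_div (by positivity) (by positivity), Real.log_pow]
      push_cast
      ring, sum_sub_distrib, ← mul_sum, ← mul_sum]
    ring
  have h6 : Real.log X ≤ 4 * √√X := by
    have := heta_log_le h1
    rw [Real.log_sqrt (by positivity)] at this
    linarith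
  have h7 : √√X * √√X = √X := Real.mul_self_sqrt h1.le
  rw [h5]
  refine (abs_sub _ _).trans ?_
  rw [abs_mul, abs_mul, abs_two, abs_of_nonneg (Real.log_nonneg hX)]
  calc _ ≤ 4 * √√X * (2 * B / √X) + 2 * (C / √√X) := by
        gcongr
        exact (hC _).trans (by gcongr)
    _ = _ := by
        generalize √√X = r at h2 h7
        rw [← h7]
        field_simp
        ring

/-- For real `s > 1` the series `∑ η t / t ^ s` is `LFunction Φ s` (`DirichletCharacter.LFunction_eq_LSeries`),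
and `abel_bd` bounds its tail after `n` by `2 B / (n + 1)`. Let `s` tend to `1` from the right
(`DirichletCharacter.differentiable_LFunction`); `DirichletCharacter.LFunction_apply_one_ne_zero`. -/
theorem exists_kappa {q : ℕ} [NeZero q] (Φ : DirichletCharacter ℂ q) (hΦ : Φ ≠ 1) {η : ℕ → ℝ}
    (hη : ∀ t : ℕ, Φ t = η t) {B : ℝ} (hB : ∀ n, |∑ t ∈ Icc 1 n, η t| ≤ B) :
    ∃ κ : ℝ, κ ≠ 0 ∧ ∀ n : ℕ, |∑ t ∈ Icc 1 n, η t / t - κ| ≤ 2 * B / (n + 1) := by
  have hB0 : 0 ≤ B := (abs_nonneg _).trans (hB 0)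
  have h1 : ∀ (n : ℕ) (s : ℝ), 1 < s →
      ‖((∑ t ∈ Icc 1 n, η t * (t : ℝ) ^ (-s) : ℝ) : ℂ) - Φ.LFunction s‖ ≤ 2 * B / (n + 1) := by
    intro n s hs
    have h2 := (Filter.tendsto_add_atTop_iff_nat 1).2
      (Φ.LSeriesSummable_of_one_lt_re (s := s) hs).hasSum.tendsto_sum_nat
    rw [Φ.LFunction_eq_LSeries (s := s) hs]
    refine le_of_tendsto (h2.const_sub _).norm ?_
    filter_upwards [Filter.eventually_ge_atTop n] with b hb
    have h3 : ∑ i ∈ range (b + 1), LSeries.term (fun n : ℕ => Φ n) s i =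
        ((∑ t ∈ Icc 1 b, η t * (t : ℝ) ^ (-s) : ℝ) : ℂ) := by
      rw [range_eq_Ico, sum_eq_sum_Ico_succ_bot b.succ_pos, LSeries.term_zero, zero_add,
        ofReal_sum]
      refine sum_congr rfl fun t ht => ?_
      rw [LSeries.term_of_ne_zero (by have := (mem_Icc.1 ht).1; omega), hη, ofReal_mul,
        ofReal_cpow t.cast_nonneg, ofReal_neg, cpow_neg, ofReal_natCast, div_eq_mul_inv]
    rw [h3, ← ofReal_sub, norm_real, Real.norm_eq_abs, heta_Icc, heta_Icc,
      ← sum_Ioc_consecutive _ n.zero_le hb, abs_sub_comm, add_sub_cancel_left]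
    refine (abel_bd (g := fun t => (t : ℝ) ^ (-s)) hB hb (fun t _ => by positivity)
      fun t ht => Real.rpow_le_rpow_of_nonpos (by exact_mod_cast n.zero_le.trans_lt ht)
        (by simp) (by linarith)).trans ?_
    rw [div_eq_mul_inv, ← Real.rpow_neg_one, Nat.cast_succ]
    gcongr
    simp
  have h4 : ∀ n : ℕ, ‖((∑ t ∈ Icc 1 n, η t / t : ℝ) : ℂ) - Φ.LFunction 1‖ ≤ 2 * B / (n + 1) := by
    intro n
    have h5 : Continuous fun s : ℝ =>
        ‖((∑ t ∈ Icc 1 n, η t * (t : ℝ) ^ (-s) : ℝ) : ℂ) - Φ.LFunction s‖ := by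
      refine (Continuous.sub (continuous_ofReal.comp (continuous_finsetSum _ fun t ht => ?_))
        ((Φ.differentiable_LFunction hΦ).continuous.comp continuous_ofReal)).norm
      have : (0 : ℝ) < t := by exact_mod_cast (mem_Icc.1 ht).1
      exact continuous_const.mul ((Real.continuous_const_rpow this.ne').comp continuous_neg)
    have h6 := le_of_tendsto ((h5.tendsto 1).mono_left (nhdsWithin_le_nhds (s := Set.Ioi 1)))
      (eventually_nhdsWithin_of_forall (h1 n))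
    simpa only [Real.rpow_neg_one, ← div_eq_mul_inv, ofReal_one] using h6
  refine ⟨(Φ.LFunction 1).re, fun h => Φ.LFunction_apply_one_ne_zero hΦ (Complex.ext h ?_),
    fun n => le_trans ?_ (h4 n)⟩
  · refine abs_nonpos_iff.1 (ge_of_tendsto' (by
      simpa [div_eq_mul_inv] using
        (tendsto_one_div_add_atTop_nhds_zero_nat (𝕜 := ℝ)).const_mul (2 * B)) fun n => ?_ :
      |(Φ.LFunction 1).im| ≤ 0)
    have := (abs_im_le_norm _).trans (h4 n)
    rwa [sub_im, ofReal_im, zero_sub, abs_neg, div_eq_mul_inv] at this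
  · have := abs_re_le_norm (((∑ t ∈ Icc 1 n, η t / t : ℝ) : ℂ) - Φ.LFunction 1)
    rwa [sub_re, ofReal_re] at this

/-- The sum over a full period vanishes (`MulChar.sum_eq_zero_of_ne_one`). -/
theorem period_bd {q : ℕ} [NeZero q] (Φ : DirichletCharacter ℂ q) (hΦ : Φ ≠ 1) {η : ℕ → ℝ}
    (hη : ∀ t : ℕ, Φ t = η t) (n : ℕ) : |∑ t ∈ Icc 1 n, η t| ≤ q := by
  have h1 : ∀ t, η (t + q) = η t := fun t => ofReal_injective (by rw [← hη, ← hη]; simp)
  have h2 : ∑ t ∈ range q, η t = 0 := ofReal_injective (by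
    rw [ofReal_sum, ofReal_zero, ← MulChar.sum_eq_zero_of_ne_one hΦ]
    exact sum_nbij' (fun t => (t : ZMod q)) ZMod.val (by simp) (by simp [ZMod.val_lt])
      (fun t ht => ZMod.val_cast_of_lt (mem_range.1 ht)) (by simp) fun t _ => (hη t).symm)
  have h3 : ∀ m, ∑ t ∈ Ioc 0 (m + q), η t = ∑ t ∈ Ioc 0 m, η t := fun m => by
    induction m with
    | zero =>
      have h4 := sum_range_succ η q
      have h5 := h1 0
      rw [range_eq_Ico, sum_eq_sum_Ico_succ_bot q.succ_pos] at h4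
      rw [zero_add] at h5 ⊢
      have h6 : Ico (0 + 1) (q + 1) = Ioc 0 q := by ext; simp; omega
      rw [h6, h2] at h4
      simp only [Ioc_self, sum_empty]
      linarith
    | succ m ih =>
      rw [Nat.add_right_comm, sum_Ioc_succ_top (Nat.zero_le _), sum_Ioc_succ_top (Nat.zero_le _),
        ih, Nat.add_right_comm, h1]
  rw [heta_Icc]
  induction n using Nat.strong_induction_on with
  | _ n ih =>
  rcases lt_or_ge n q with h | h
  · refine (abs_sum_le_sum_abs _ _).trans ((sum_le_card_nsmul _ _ 1 fun t _ => ?_).trans ?_)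
    · rw [← Real.norm_eq_abs, ← norm_real, ← hη]
      exact Φ.norm_le_one _
    · simpa using h.le
  · obtain ⟨m, rfl⟩ := Nat.exists_eq_add_of_le' h
    rw [h3]
    exact ih m (Nat.lt_add_of_pos_right (NeZero.pos q))

end Pool.Agent.Lib.MP_bcfefa_nt
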