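import Pool.Agent.Lib.MP_bcfefa_nt.HChar
import Pool.Agent.Lib.MP_bcfefa_nt.HPoi

set_option autoImplicit false

noncomputable section

namespace Pool.Agent.Lib.MP_bcfefa_nt

open Complex Finset MeasureTheory Pool.Agent.Lib.MP_03e5d0_nt
open scoped Real ContDiff

/-! The transformation formula of the theta series. -/

namespace Hk

variable (H : Hk)

/-- The additive character modulo `f`. -/
def ad (α : H.O) : ℂ := cexp (2 * π * I * (((α : ℂ) / (H.f : ℂ)).im / H.w.im : ℝ))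

theorem ad_add (α β : H.O) : H.ad (α + β) = H.ad α * H.ad β := by
  unfold ad
  rw [← Complex.exp_add]
  congr 1
  rw [Subring.coe_add, add_div, Complex.add_im, add_div]
  push_cast
  ring

theorem hth_f_ne : (H.f : ℂ) ≠ 0 := fun h => H.f_ne (Subtype.ext h)

theorem hth_ad_mul (γ : H.O) : H.ad (H.f * γ) = 1 := by
  obtain ⟨x, y, rfl⟩ := H.exists_el γ
  unfold ad
  have hV : H.w.im ≠ 0 := H.im_pos.ne'
  rw [Subring.coe_mul, mul_div_cancel_left₀ _ H.hth_f_ne, H.coe_el]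
  have e : ((x : ℂ) + y * H.w).im / H.w.im = y := by
    simp only [Complex.add_im, Complex.intCast_im, Complex.mul_im, Complex.intCast_re, zero_mul,
      add_zero, zero_add]
    field_simp
  rw [e, Complex.ofReal_intCast, mul_comm]
  exact Complex.exp_int_mul_two_pi_mul_I y

theorem ad_congr {α β : H.O} (h : H.f ∣ α - β) : H.ad α = H.ad β := by
  obtain ⟨γ, hγ⟩ := h
  have e : α = β + H.f * γ := by rw [← hγ]; ring
  rw [e, H.ad_add, H.hth_ad_mul, mul_one]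

theorem hth_mk_eq {α β : H.O} :
    Ideal.Quotient.mk (Ideal.span {H.f}) α = Ideal.Quotient.mk (Ideal.span {H.f}) β ↔
      H.f ∣ α - β := by
  rw [Ideal.Quotient.eq, Ideal.mem_span_singleton]

/-- The Gauss sum. -/
def gs (β : H.O) : ℂ := ∑ᶠ r : H.O ⧸ Ideal.span {H.f}, H.χ r * H.ad (r.out * β)

theorem hth_gs_mul {a : H.O} (ha : IsCoprime a H.f) (β : H.O) :
    H.gs β = H.X a * H.gs (a * β) := by
  have := H.finite_quot
  have : Fintype (H.O ⧸ Ideal.span {H.f}) := Fintype.ofFinite _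
  have hu : IsUnit (Ideal.Quotient.mk (Ideal.span {H.f}) a) := by
    by_contra hn
    exact (H.X_ne_zero.2 ha) (H.χ.map_nonunit hn)
  obtain ⟨u, hu⟩ := hu
  unfold gs
  rw [finsum_eq_sum_of_fintype, finsum_eq_sum_of_fintype, Finset.mul_sum,
    ← Equiv.sum_comp (Units.mulLeft u)]
  refine Finset.sum_congr rfl fun r _ => ?_
  rw [Units.mulLeft_apply, map_mul, hu, mul_assoc]
  congr 2
  refine H.ad_congr (H.hth_mk_eq.1 ?_)
  rw [map_mul, map_mul, map_mul, Ideal.Quotient.mk_out, Ideal.Quotient.mk_out]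
  ring

/-- If `β` is prime to `f` substitute `r ↦ r β⁻¹`. Otherwise let `g = gcd β f`, a nonunit, `f = g d`; then
`¬ f ∣ d`, and `H.prim` gives `a ≡ 1` modulo `d`, prime to `f`, with `X a ≠ 1`; `a β ≡ β` modulo `f`, so the
substitution `r ↦ a r` gives `gs β = X a * gs β`. -/
theorem gs_eq (β : H.O) : H.gs β = starRingEnd ℂ (H.X β) * H.gs 1 := by
  by_cases hc : IsCoprime β H.f
  · have h1 := H.hth_gs_mul hc 1
    rw [mul_one] at h1
    rw [h1, ← mul_assoc, Complex.conj_mul', H.norm_X hc]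
    simp
  · have h0 : H.X β = 0 := by
      by_contra hn
      exact hc (H.X_ne_zero.1 hn)
    rw [h0, map_zero, zero_mul]
    rw [← isRelPrime_iff_isCoprime] at hc
    unfold IsRelPrime at hc
    push Not at hc
    obtain ⟨g, ⟨c, hgc⟩, ⟨d, hgd⟩, hg⟩ := hc
    have hd0 : d ≠ 0 := by
      rintro rfl
      exact H.f_ne (by rw [hgd, mul_zero])
    have hnd : ¬H.f ∣ d := by
      rintro ⟨e, he⟩
      apply hg
      have h2 : d * (g * e) = d * 1 := by
        rw [mul_one]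
        calc d * (g * e) = (g * d) * e := by ring
          _ = d := by rw [← hgd, ← he]
      exact IsUnit.of_mul_eq_one e (mul_left_cancel₀ hd0 h2)
    obtain ⟨a, ha, ⟨k, hk⟩, hX⟩ := H.prim d ⟨g, by rw [hgd, mul_comm]⟩ hnd
    have h3 : H.gs (a * β) = H.gs β := by
      unfold gs
      refine finsum_congr fun r => ?_
      congr 1
      refine H.ad_congr ⟨r.out * k * c, ?_⟩
      calc r.out * (a * β) - r.out * β = r.out * ((a - 1) * β) := by ring
        _ = (g * d) * (r.out * k * c) := by rw [hk, hgc]; ring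
        _ = _ := by rw [← hgd]
    have h4 := H.hth_gs_mul ha β
    rw [h3] at h4
    have h5 : (H.X a - 1) * H.gs β = 0 := by rw [sub_mul, one_mul, ← h4, sub_self]
    exact (mul_eq_zero.1 h5).resolve_left (sub_ne_zero.2 hX)

theorem hth_coe_eqv (q : ℤ × ℤ) : ((H.eqv q : H.O) : ℂ) = q.1 + q.2 * H.w := H.coe_el q.1 q.2

theorem hth_summable (n : ℕ) {t : ℝ} (ht : 0 < t) : Summable fun α : H.O =>
    ‖(α : ℂ)‖ ^ n * Real.exp (-(t * normSq (α : ℂ))) := by
  rw [← H.eqv.summable_iff]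
  have := summable_pow_lat H.im_pos 0 ht n
  simpa only [Function.comp_def, H.hth_coe_eqv, zero_add] using this

theorem summable_th (n : ℕ) {y : ℝ} (hy : 0 < y) : Summable fun α : H.O =>
    ‖H.X α * (α : ℂ) ^ n * (Real.exp (-(normSq (α : ℂ) * y / H.A)) : ℝ)‖ := by
  refine Summable.of_nonneg_of_le (fun _ => norm_nonneg _) (fun α => ?_)
    (H.hth_summable n (div_pos hy H.A_pos))
  rw [norm_mul, norm_mul, norm_pow, Complex.norm_real, Real.norm_of_nonneg (Real.exp_pos _).le]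
  have e : normSq (α : ℂ) * y / H.A = y / H.A * normSq (α : ℂ) := by ring
  rw [e]
  refine mul_le_mul_of_nonneg_right ?_ (Real.exp_pos _).le
  exact mul_le_of_le_one_left (by positivity) (H.norm_X_le α)

/-- Residue classes. -/
def hthEquiv : (H.O ⧸ Ideal.span {H.f}) × H.O ≃ H.O :=
  Equiv.ofBijective (fun x => x.1.out + H.f * x.2) ⟨by
    rintro ⟨r, β⟩ ⟨r', β'⟩ h
    have h1 : r = r' := by
      rw [← Ideal.Quotient.mk_out r, ← Ideal.Quotient.mk_out r', H.hth_mk_eq]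
      refine ⟨β' - β, ?_⟩
      simp only at h
      linear_combination h
    subst h1
    have h2 : β = β' := mul_left_cancel₀ H.f_ne (add_left_cancel h)
    rw [h2], fun α => by
    obtain ⟨γ, hγ⟩ := H.hth_mk_eq.1
      (Ideal.Quotient.mk_out (Ideal.Quotient.mk (Ideal.span {H.f}) α)).symm
    exact ⟨(Ideal.Quotient.mk _ α, γ), by simp only; rw [← hγ]; ring⟩⟩

/-- The bijection `(r, β) ↦ r.out + f β`. -/
theorem tsum_classes {g : H.O → ℂ} (hg : Summable g) :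
    ∑' α, g α = ∑ᶠ r : H.O ⧸ Ideal.span {H.f}, ∑' β : H.O, g (r.out + H.f * β) := by
  have := H.finite_quot
  have : Fintype (H.O ⧸ Ideal.span {H.f}) := Fintype.ofFinite _
  have h1 : Summable fun x => g (H.hthEquiv x) := H.hthEquiv.summable_iff.2 hg
  rw [← H.hthEquiv.tsum_eq, h1.tsum_prod, tsum_fintype, finsum_eq_sum_of_fintype]
  rfl

theorem hth_class (n : ℕ) {y : ℝ} (hy : 0 < y) (ρ : H.O) :
    ∑' β : H.O, ((ρ + H.f * β : H.O) : ℂ) ^ n *
        (Real.exp (-(normSq ((ρ + H.f * β : H.O) : ℂ) * y⁻¹ / H.A)) : ℝ) =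
      (H.f : ℂ) ^ n * ((y : ℂ) / (‖(H.f : ℂ)‖ : ℝ)) ^ (n + 1) * ∑' δ : H.O,
        (δ : ℂ) ^ n * (Real.exp (-(normSq (δ : ℂ) * y / H.A)) : ℝ) * H.ad (ρ * H.cj δ) := by
  have hf := H.hth_f_ne
  have hN : 0 < ‖(H.f : ℂ)‖ := norm_pos_iff.2 hf
  have hV := H.im_pos
  have hπ := Real.pi_pos
  have ht : 0 < ‖(H.f : ℂ)‖ / (y * H.w.im) := by positivity
  have key := poisson_pow hV ((ρ : ℂ) / H.f) ht n
  rw [← H.eqv.tsum_eq, ← H.eqv.tsum_eq (fun δ : H.O => (δ : ℂ) ^ n *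
    (Real.exp (-(normSq (δ : ℂ) * y / H.A)) : ℝ) * H.ad (ρ * H.cj δ))]
  have e1 : ∀ q : ℤ × ℤ, ((ρ + H.f * H.eqv q : H.O) : ℂ) ^ n *
      (Real.exp (-(normSq ((ρ + H.f * H.eqv q : H.O) : ℂ) * y⁻¹ / H.A)) : ℝ) =
      (H.f : ℂ) ^ n * (((ρ : ℂ) / H.f + (q.1 + q.2 * H.w)) ^ n *
        (Real.exp (-(π * (‖(H.f : ℂ)‖ / (y * H.w.im)) *
          normSq ((ρ : ℂ) / H.f + (q.1 + q.2 * H.w)))) : ℝ)) := by
    intro q
    have a1 : ((ρ + H.f * H.eqv q : H.O) : ℂ) = H.f * ((ρ : ℂ) / H.f + (q.1 + q.2 * H.w)) := by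
      rw [Subring.coe_add, Subring.coe_mul, H.hth_coe_eqv]
      field_simp
    rw [a1, mul_pow, mul_assoc, map_mul, Complex.normSq_eq_norm_sq (H.f : ℂ), H.A_eq]
    congr 4
    field_simp
  have e2 : ∀ q : ℤ × ℤ, ((H.eqv q : H.O) : ℂ) ^ n *
      (Real.exp (-(normSq ((H.eqv q : H.O) : ℂ) * y / H.A)) : ℝ) * H.ad (ρ * H.cj (H.eqv q)) =
      ((q.1 : ℂ) + q.2 * H.w) ^ n * (Real.exp (-(π * normSq (q.1 + q.2 * H.w) /
        (‖(H.f : ℂ)‖ / (y * H.w.im) * H.w.im ^ 2))) : ℝ) * cexp (2 * π * I *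
          (((ρ : ℂ) / H.f * starRingEnd ℂ (q.1 + q.2 * H.w)).im / H.w.im : ℝ)) := by
    intro q
    unfold ad
    rw [Subring.coe_mul, H.coe_cj, H.hth_coe_eqv, H.A_eq, div_mul_eq_mul_div (ρ : ℂ)]
    congr 4
    field_simp
  rw [tsum_congr e1, tsum_congr e2, tsum_mul_left, key, ← mul_assoc]
  congr 2
  have hy' : (y : ℂ) ≠ 0 := by exact_mod_cast hy.ne'
  have hN' : ((‖(H.f : ℂ)‖ : ℝ) : ℂ) ≠ 0 := by exact_mod_cast hN.ne'
  have e3 : ‖(H.f : ℂ)‖ / (y * H.w.im) * H.w.im = ‖(H.f : ℂ)‖ / y := by field_simp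
  rw [e3, Complex.ofReal_div, one_div, ← inv_pow, inv_div]

/-- The root number. -/
def W (n : ℕ) : ℂ := H.gs 1 / (‖(H.f : ℂ)‖ : ℝ) * ((H.f : ℂ) / (‖(H.f : ℂ)‖ : ℝ)) ^ n

/-- `tsum_classes`; `r + f β = f (r / f + β)`; `poisson_pow` with `z₀ = r / f`, `t = ‖f‖ / (y V)`, `V = im w`
(`A_eq`, `eqv`); exchange the finite sum and the series; `gs_eq` at `cj δ`, `X_cj`. -/
theorem th_inv (n : ℕ) {y : ℝ} (hy : 0 < y) : H.th n y⁻¹ = H.W n * (y : ℂ) ^ (n + 1) * H.th n y := by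
  have := H.finite_quot
  have : Fintype (H.O ⧸ Ideal.span {H.f}) := Fintype.ofFinite _
  have hN : 0 < ‖(H.f : ℂ)‖ := norm_pos_iff.2 H.hth_f_ne
  have hN' : ((‖(H.f : ℂ)‖ : ℝ) : ℂ) ≠ 0 := by exact_mod_cast hN.ne'
  have hs : ∀ r : H.O ⧸ Ideal.span {H.f}, Summable fun δ : H.O => H.χ r * ((δ : ℂ) ^ n *
      (Real.exp (-(normSq (δ : ℂ) * y / H.A)) : ℝ) * H.ad (r.out * H.cj δ)) := by
    intro r
    refine Summable.mul_left _ (Summable.of_norm ?_)
    refine (H.hth_summable n (div_pos hy H.A_pos)).congr fun δ => ?_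
    unfold ad
    rw [norm_mul, norm_mul, norm_pow, Complex.norm_real, Real.norm_of_nonneg (Real.exp_pos _).le]
    have e : normSq (δ : ℂ) * y / H.A = y / H.A * normSq (δ : ℂ) := by ring
    have e' : ∀ x : ℝ, ‖cexp (2 * π * I * x)‖ = 1 := by
      intro x
      have : 2 * π * I * x = ((2 * π * x : ℝ) : ℂ) * I := by push_cast; ring
      rw [this, Complex.norm_exp_ofReal_mul_I]
    rw [e, e', mul_one]
  have e1 : ∀ r : H.O ⧸ Ideal.span {H.f}, ∑' β : H.O, H.X (r.out + H.f * β) *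
      ((r.out + H.f * β : H.O) : ℂ) ^ n *
      (Real.exp (-(normSq ((r.out + H.f * β : H.O) : ℂ) * y⁻¹ / H.A)) : ℝ) =
      (H.f : ℂ) ^ n * ((y : ℂ) / (‖(H.f : ℂ)‖ : ℝ)) ^ (n + 1) * ∑' δ : H.O, H.χ r * ((δ : ℂ) ^ n *
        (Real.exp (-(normSq (δ : ℂ) * y / H.A)) : ℝ) * H.ad (r.out * H.cj δ)) := by
    intro r
    have a1 : ∀ β : H.O, H.X (r.out + H.f * β) = H.χ r := by
      intro β
      rw [H.X_congr (β := r.out) ⟨β, by ring⟩]
      unfold X
      rw [Ideal.Quotient.mk_out]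
    simp only [a1, mul_assoc (H.χ r)]
    rw [tsum_mul_left, tsum_mul_left, H.hth_class n hy]
    ring
  have e2 : ∀ δ : H.O, ∑ r : H.O ⧸ Ideal.span {H.f}, H.χ r * ((δ : ℂ) ^ n *
      (Real.exp (-(normSq (δ : ℂ) * y / H.A)) : ℝ) * H.ad (r.out * H.cj δ)) =
      H.gs 1 * (H.X δ * (δ : ℂ) ^ n * (Real.exp (-(normSq (δ : ℂ) * y / H.A)) : ℝ)) := by
    intro δ
    have a1 := H.gs_eq (H.cj δ)
    rw [H.X_cj, Complex.conj_conj] at a1
    calc _ = (δ : ℂ) ^ n * (Real.exp (-(normSq (δ : ℂ) * y / H.A)) : ℝ) * H.gs (H.cj δ) := by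
          unfold gs
          rw [finsum_eq_sum_of_fintype, Finset.mul_sum]
          exact Finset.sum_congr rfl fun r _ => by ring
      _ = _ := by rw [a1]; ring
  unfold th
  rw [H.tsum_classes (H.summable_th n (inv_pos.2 hy)).of_norm, finsum_eq_sum_of_fintype,
    Finset.sum_congr rfl fun r _ => e1 r, ← Finset.mul_sum,
    ← Summable.tsum_finsetSum fun r _ => hs r, tsum_congr e2, tsum_mul_left]
  unfold W
  rw [← mul_assoc]
  congr 1
  rw [div_pow, div_pow, pow_succ ((‖(H.f : ℂ)‖ : ℝ) : ℂ)]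
  field_simp

theorem W_add (n r : ℕ) : H.W (n + 24 * r) = H.W n := by
  unfold W
  rw [pow_add, pow_mul, H.f_pow, one_pow, mul_one]

/-- Group the terms by the norm (`HasSum.sigma` with `Equiv.sigmaFiberEquiv H.nm`, or `HasSum.tsum_fiberwise`);
the fibres are finite. -/
theorem hasSum_th {k : ℕ} {y : ℝ} (hy : 0 < y) :
    HasSum (fun m : ℕ => coef H.f H.χ k m * (Real.exp (-(m * y / H.A)) : ℝ))
      ((Nat.card H.Oˣ : ℂ)⁻¹ * H.th (k - 1) y) := by
  have h1 := ((H.summable_th (k - 1) hy).of_norm.hasSum.tsum_fiberwise H.nm).mul_left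
    (Nat.card H.Oˣ : ℂ)⁻¹
  have e : (fun m : ℕ => coef H.f H.χ k m * (Real.exp (-(m * y / H.A)) : ℝ)) =
      fun m : ℕ => (Nat.card H.Oˣ : ℂ)⁻¹ * ∑' b : H.nm ⁻¹' {m}, H.X b * ((b : H.O) : ℂ) ^ (k - 1) *
        (Real.exp (-(normSq ((b : H.O) : ℂ) * y / H.A)) : ℝ) := by
    funext m
    have hfin : (H.nm ⁻¹' {m}).Finite := (H.finite_le m).subset fun α hα => le_of_eq hα
    have hset : {α : H.O | normSq (α : ℂ) = m} = H.nm ⁻¹' {m} := by
      ext α
      simp only [Set.mem_ofPred_eq, Set.mem_preimage, Set.mem_singleton_iff, ← H.nm_cast,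
        Nat.cast_inj]
    obtain ⟨T, hT⟩ := hfin.exists_finset_coe
    unfold coef
    rw [hset, mul_assoc, ← hT, finsum_mem_coe_finset, Finset.sum_mul]
    congr 1
    rw [Finset.tsum_subtype' T fun b : H.O =>
      H.X b * (b : ℂ) ^ (k - 1) * (Real.exp (-(normSq (b : ℂ) * y / H.A)) : ℝ)]
    refine Finset.sum_congr rfl fun b hb => ?_
    have hb' : H.nm b = m := by
      have : b ∈ H.nm ⁻¹' {m} := by rw [← hT]; exact hb
      exact this
    rw [← H.nm_cast, hb']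
    rfl
  rw [e]
  exact h1

end Hk

end Pool.Agent.Lib.MP_bcfefa_nt
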