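import Pool.Agent.Lib.MP_bcfefa_nt.HDat
import Pool.Agent.Lib.MP_bcfefa_nt.HTh
import Pool.Agent.Lib.MP_bcfefa_nt.HAfe
import Pool.Agent.Lib.MP_bcfefa_nt.CF4

set_option autoImplicit false

noncomputable section

namespace Pool.Agent.Lib.MP_bcfefa_nt

open Complex Finset MeasureTheory Pool.Agent.Lib.MP_03e5d0_nt
open scoped Real ContDiff

/-! The main theorem. -/

theorem Hk.thd (H : Hk) {k : ℕ} (hk : 1 ≤ k) : Thd (coef H.f H.χ k) H.A k (H.W (k - 1))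
    fun y => (Nat.card H.Oˣ : ℂ)⁻¹ * H.th (k - 1) y := by
  refine ⟨H.A_pos, H.coef_zero k, H.norm_coef_le hk, fun y hy => H.hasSum_th hy, fun y hy => ?_⟩
  rw [H.th_inv _ hy, Nat.sub_add_cancel hk]
  ring

/-- `thd`, `Thd.central`, `sum_coef`, `Ld_eq`, `Thd.ord`. -/
theorem Hk.ord_of (H : Hk) {D : Dat} (hP : D.P = H.P) (hη : D.η = H.η) (hA : D.A = H.A) {j : ℕ}
    (hj : 1 ≤ j) (hc : H.Cp (2 * j)) (hW : H.W (2 * j - 1) = -1)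
    (hz : ∀ e : Xp, H.Ok e →
      ch e (D.z j) = H.X (H.ce e) * (((H.ce e : H.O) : ℂ) / (√(Nm e) : ℝ)) ^ (2 * j - 1))
    (hL : D.Ld j ≠ 0) : HasOrd (coef H.f H.χ (2 * j)) (2 * j) 1 := by
  have h := H.thd (k := 2 * j) (by omega)
  rw [hW] at h
  refine h.ord hj fun h0 => hL ?_
  have h1 := h.central hj
  rw [h0, zero_div, ← hA] at h1
  exact D.Ld_eq hj (b := fun m => coef H.f H.χ (2 * j) m / (m : ℂ) ^ j)
    (by rw [H.coef_zero, zero_div]) (H.sum_coef hP hη hj hc hz) h1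

/-- `core` with the modulus `12 m` and `N = ⌊X / 4⌋₊`; `Thd.sign`, `W_add`, `Cp.add`. -/
theorem Hk.main (H : Hk) {j₀ : ℕ} (hj : 1 ≤ j₀) (hc : H.Cp (2 * j₀))
    (hW : HasSign (coef H.f H.χ (2 * j₀)) (-(H.D : ℝ) * normSq (H.f : ℂ)) (2 * j₀) (-1)) {m : ℕ}
    (hm : 0 < m) : ∃ c : ℝ, 0 < c ∧ ∃ X₀ : ℝ, ∀ X : ℝ, X₀ ≤ X →
      c * X ≤ ({k : ℕ | (k : ℝ) ≤ X ∧ k ≡ 2 * j₀ [MOD m] ∧ HasOrd (coef H.f H.χ k) k 1}.ncard : ℝ) := by
  classical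
  obtain ⟨D, hP, hη, hA, hz⟩ := H.exists_dat
  have hW0 : H.W (2 * j₀ - 1) = -1 :=
    (H.thd (k := 2 * j₀) (by omega)).sign (by rw [H.coef_one hc]; exact one_ne_zero) rfl hW
  obtain ⟨c, hc0, N₀, h⟩ := D.core j₀ (m := 12 * m) (by omega)
  refine ⟨c / 8, by positivity, 4 * (N₀ + j₀ + 1), fun X hX => ?_⟩
  have hn0 : (0 : ℝ) ≤ N₀ := Nat.cast_nonneg _
  have hj0 : (0 : ℝ) ≤ j₀ := Nat.cast_nonneg _
  set N := ⌊X / 4⌋₊ with hN
  have h1 : N₀ + j₀ + 1 ≤ N := Nat.le_floor (by push_cast; linarith)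
  have h2 : (N : ℝ) ≤ X / 4 := Nat.floor_le (by linarith)
  have h3 : X / 4 < N + 1 := Nat.lt_floor_add_one _
  have h4 : (1 : ℝ) ≤ N := by exact_mod_cast (by omega : 1 ≤ N)
  have hfin : {k : ℕ | (k : ℝ) ≤ X ∧ k ≡ 2 * j₀ [MOD m] ∧ HasOrd (coef H.f H.χ k) k 1}.Finite :=
    (Set.finite_le_nat ⌊X⌋₊).subset fun k hk => Nat.le_floor hk.1
  refine le_trans (by nlinarith) ((h N (by omega)).trans ?_)
  rw [← card_image_of_injective _ (mul_right_injective₀ (two_ne_zero (α := ℕ))),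
    ← Set.ncard_coe_finset]
  refine Nat.cast_le.2 (Set.ncard_le_ncard (fun k hk => ?_) hfin)
  obtain ⟨j, hj', rfl⟩ := mem_image.1 (mem_coe.1 hk)
  obtain ⟨h5, h6, h7⟩ := mem_filter.1 hj'
  obtain ⟨h8, h9⟩ := mem_Ico.1 h5
  obtain ⟨r, hr⟩ := (Nat.modEq_iff_dvd' (show j₀ ≤ j by omega)).1 h6.symm
  have e : j = j₀ + 12 * (m * r) := by rw [← mul_assoc]; omega
  refine ⟨?_, ?_, H.ord_of hP hη hA (by omega) ?_ ?_ (fun e he => hz e j he (by omega)) h7⟩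
  · have : (j : ℝ) ≤ 2 * N := by exact_mod_cast h9.le
    push_cast
    linarith
  · refine ((Nat.modEq_iff_dvd' (by omega)).2 ⟨24 * r, ?_⟩).symm
    rw [mul_left_comm]
    omega
  · rw [show 2 * j = 2 * j₀ + 12 * (2 * (m * r)) by omega]
    exact hc.add (by omega) _
  · rw [show 2 * j - 1 = 2 * j₀ - 1 + 24 * (m * r) by omega, H.W_add, hW0]

end Pool.Agent.Lib.MP_bcfefa_nt
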