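import Pool.Agent.Lib.MP_bcfefa_nt.HDef

set_option autoImplicit false

noncomputable section

namespace Pool.Agent.Lib.MP_bcfefa_nt

open Complex Finset MeasureTheory Pool.Agent.Lib.MP_03e5d0_nt
open scoped Real ContDiff

/-! The ring `ℤ[w]`: coordinates, conjugation, norm, units, finiteness. -/

namespace Hk

variable (H : Hk)

theorem coe_el (x y : ℤ) : ((H.el x y : H.O) : ℂ) = x + y * H.w := by
  simp [el]

/-- `Subring.closure_induction`, `H.sq`. -/
theorem exists_el (α : H.O) : ∃ x y : ℤ, α = H.el x y := by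
  obtain ⟨α, hα⟩ := α
  suffices h : ∃ x y : ℤ, α = x + y * H.w by
    obtain ⟨x, y, h⟩ := h
    exact ⟨x, y, Subtype.ext (by rw [coe_el]; exact h)⟩
  induction hα using Subring.closure_induction with
  | mem x hx => exact ⟨0, 1, by simpa using hx⟩
  | zero => exact ⟨0, 0, by simp⟩
  | one => exact ⟨1, 0, by simp⟩
  | add _ _ _ _ h1 h2 =>
    obtain ⟨x, y, rfl⟩ := h1
    obtain ⟨x', y', rfl⟩ := h2
    exact ⟨x + x', y + y', by push_cast; ring⟩
  | neg _ _ h1 =>
    obtain ⟨x, y, rfl⟩ := h1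
    exact ⟨-x, -y, by push_cast; ring⟩
  | mul _ _ _ _ h1 h2 =>
    obtain ⟨x, y, rfl⟩ := h1
    obtain ⟨x', y', rfl⟩ := h2
    exact ⟨x * x' + y * y' * H.a, x * y' + x' * y + y * y' * H.b, by
      push_cast; linear_combination (y * y' : ℂ) * H.sq⟩

theorem el_inj {x y x' y' : ℤ} (h : H.el x y = H.el x' y') : x = x' ∧ y = y' := by
  have h1 := congrArg (fun α : H.O => (α : ℂ)) h
  simp only [coe_el] at h1
  have h2 := congrArg im h1
  have h3 := congrArg re h1
  simp only [add_im, add_re, mul_im, mul_re, intCast_re, intCast_im, zero_mul, add_zero, zero_add,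
    sub_zero] at h2 h3
  have h4 : y = y' := by exact_mod_cast mul_right_cancel₀ H.im_pos.ne' h2
  subst h4
  exact ⟨by exact_mod_cast add_right_cancel h3, rfl⟩

/-- Compare real and imaginary parts in `H.sq`. -/
theorem two_re : 2 * H.w.re = H.b := by
  have h := congrArg im H.sq
  simp only [pow_two, add_im, mul_im, intCast_re, intCast_im, zero_mul, add_zero, zero_add] at h
  exact mul_right_cancel₀ H.im_pos.ne' (by linarith)

theorem normSq_w : normSq H.w = -H.a := by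
  have h := congrArg re H.sq
  simp only [pow_two, add_re, mul_re, intCast_re, intCast_im, zero_mul, sub_zero] at h
  rw [normSq_apply]
  linear_combination -h + H.w.re * H.two_re

theorem D_eq : -(H.D : ℝ) = 4 * H.w.im ^ 2 := by
  have h := H.normSq_w
  rw [normSq_apply] at h
  simp only [D]
  push_cast
  linear_combination -4 * h + (H.b + 2 * H.w.re) * H.two_re

theorem normSq_el (x y : ℤ) :
    normSq ((H.el x y : H.O) : ℂ) = ((x ^ 2 + H.b * x * y - H.a * y ^ 2 : ℤ) : ℝ) := by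
  have h := H.normSq_w
  rw [normSq_apply] at h
  rw [coe_el, normSq_apply]
  simp only [add_im, add_re, mul_im, mul_re, intCast_re, intCast_im, zero_mul, add_zero, zero_add,
    sub_zero]
  push_cast
  linear_combination (y : ℝ) ^ 2 * h + (x * y : ℝ) * H.two_re

theorem hring_conj (x y : ℤ) :
    starRingEnd ℂ (H.el x y : ℂ) = (H.el (x + H.b * y) (-y) : H.O) := by
  rw [coe_el, coe_el]
  apply Complex.ext <;> simp
  linear_combination (y : ℝ) * H.two_re

theorem conj_mem (α : H.O) : starRingEnd ℂ (α : ℂ) ∈ Zw H.w := by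
  obtain ⟨x, y, rfl⟩ := H.exists_el α
  rw [hring_conj]
  exact Subtype.prop _

/-- Complex conjugation. -/
def cj : H.O →+* H.O := ((starRingEnd ℂ).comp (Zw H.w).subtype).codRestrict (Zw H.w) H.conj_mem

theorem coe_cj (α : H.O) : ((H.cj α : H.O) : ℂ) = starRingEnd ℂ (α : ℂ) := rfl

theorem cj_cj (α : H.O) : H.cj (H.cj α) = α := by
  exact Subtype.ext (by simp [coe_cj])

theorem cj_el (x y : ℤ) : H.cj (H.el x y) = H.el (x + H.b * y) (-y) := by
  exact Subtype.ext (H.hring_conj x y)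

theorem nm_cast (α : H.O) : (H.nm α : ℝ) = normSq (α : ℂ) := by
  obtain ⟨x, y, rfl⟩ := H.exists_el α
  have h := normSq_nonneg ((H.el x y : H.O) : ℂ)
  rw [nm]
  rw [normSq_el] at h ⊢
  obtain ⟨n, hn⟩ := Int.eq_ofNat_of_zero_le (Int.cast_nonneg_iff.1 h)
  rw [hn]
  simp

theorem nm_mul (α β : H.O) : H.nm (α * β) = H.nm α * H.nm β := by
  apply Nat.cast_injective (R := ℝ)
  simp [nm_cast]

theorem nm_one : H.nm 1 = 1 := by
  simp [nm]

theorem nm_pow (α : H.O) (n : ℕ) : H.nm (α ^ n) = H.nm α ^ n := by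
  apply Nat.cast_injective (R := ℝ)
  simp [nm_cast]

theorem nm_natCast (t : ℕ) : H.nm t = t ^ 2 := by
  apply Nat.cast_injective (R := ℝ)
  simp [nm_cast, pow_two]

theorem nm_cj (α : H.O) : H.nm (H.cj α) = H.nm α := by
  simp [nm, coe_cj]

theorem mul_cj (α : H.O) : α * H.cj α = (H.nm α : H.O) := by
  apply Subtype.ext
  simp [coe_cj, mul_conj, ← nm_cast]

theorem nm_eq_zero {α : H.O} : H.nm α = 0 ↔ α = 0 := by
  rw [← Nat.cast_eq_zero (R := ℝ), nm_cast]
  simp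

theorem nm_eq_one {α : H.O} : H.nm α = 1 ↔ IsUnit α := by
  refine ⟨fun h => IsUnit.of_mul_eq_one (H.cj α) (by simp [mul_cj, h]), fun h => ?_⟩
  obtain ⟨β, hβ⟩ := h.exists_right_inv
  exact Nat.eq_one_of_mul_eq_one_right (by rw [← nm_mul, hβ, nm_one])

theorem nm_dvd {α β : H.O} (h : α ∣ β) : H.nm α ∣ H.nm β := by
  obtain ⟨γ, rfl⟩ := h
  exact ⟨_, H.nm_mul α γ⟩

/-- An element whose norm is a prime number is irreducible, hence prime. -/
theorem prime_of_nm {α : H.O} (h : (H.nm α).Prime) : Prime α := by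
  refine Irreducible.prime ⟨fun hu => h.ne_one (H.nm_eq_one.2 hu), fun β γ e => ?_⟩
  rw [e, nm_mul] at h
  exact (Nat.prime_mul_iff.1 h).symm.imp (fun h => H.nm_eq_one.1 h.2) fun h => H.nm_eq_one.1 h.2

theorem prime_cj {α : H.O} (h : Prime α) : Prime (H.cj α) := by
  exact (MulEquiv.prime_iff (RingEquiv.ofRingHom H.cj H.cj (RingHom.ext H.cj_cj)
    (RingHom.ext H.cj_cj))).2 h

/-- Divisibility between integers can be tested in the ring (coordinates). -/
theorem natCast_dvd {s t : ℕ} (h : (s : H.O) ∣ (t : H.O)) : s ∣ t := by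
  have h1 := H.nm_dvd h
  rwa [nm_natCast, nm_natCast, Nat.pow_dvd_pow_iff two_ne_zero] at h1

/-- `u ^ 2 - T u + 1 = 0` with the integer `T = u + conj u`, `|T| ≤ 2`. -/
theorem unit_pow (u : H.Oˣ) : ((u : H.O) : ℂ) ^ 12 = 1 := by
  obtain ⟨x, y, h⟩ := H.exists_el u
  have h1 : normSq ((u : H.O) : ℂ) = 1 := by rw [← nm_cast, H.nm_eq_one.2 u.isUnit, Nat.cast_one]
  generalize hz : ((u : H.O) : ℂ) = z at h1
  have h2 : ((2 * x + H.b * y : ℤ) : ℝ) = 2 * z.re := by
    rw [← hz, h, coe_el]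
    simp
    linear_combination -(y : ℝ) * H.two_re
  generalize 2 * x + H.b * y = T at h2
  rw [normSq_apply] at h1
  have h3 : z ^ 2 = T * z - 1 := by
    apply Complex.ext <;> simp [pow_two, h2] <;> nlinarith
  have h4 : -2 ≤ T := by
    have : (-2 : ℝ) ≤ T := by nlinarith [sq_nonneg (z.re + 1), sq_nonneg z.im]
    exact_mod_cast this
  have h5 : T ≤ 2 := by
    have : (T : ℝ) ≤ 2 := by nlinarith [sq_nonneg (z.re - 1), sq_nonneg z.im]
    exact_mod_cast this
  interval_cases T <;> push_cast at h3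
  · rw [show z = -1 from pow_eq_zero_iff two_ne_zero |>.1 (by linear_combination h3 : (z + 1) ^ 2 = 0)
      |> eq_neg_of_add_eq_zero_left]
    norm_num
  · linear_combination (z - 1) * (z ^ 3 + 1) * (z ^ 6 + 1) * h3
  · linear_combination (z ^ 2 - 1) * (z ^ 8 + z ^ 4 + 1) * h3
  · linear_combination (z + 1) * (z ^ 3 - 1) * (z ^ 6 + 1) * h3
  · rw [show z = 1 from pow_eq_zero_iff two_ne_zero |>.1 (by linear_combination h3 : (z - 1) ^ 2 = 0)
      |> sub_eq_zero.1]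
    norm_num

theorem im_ge {α : H.O} (h : (α : ℂ).im ≠ 0) : H.w.im ≤ |(α : ℂ).im| := by
  obtain ⟨x, y, rfl⟩ := H.exists_el α
  have h1 : ((H.el x y : H.O) : ℂ).im = y * H.w.im := by simp [coe_el]
  rw [h1] at h ⊢
  have h2 : (1 : ℝ) ≤ |(y : ℝ)| := by
    exact_mod_cast Int.one_le_abs (Int.cast_ne_zero.1 (left_ne_zero_of_mul h))
  rw [abs_mul, abs_of_pos H.im_pos]
  exact le_mul_of_one_le_left H.im_pos.le h2

/-- `normSq (x + y w) = (x + y re w) ^ 2 + y ^ 2 im w ^ 2` bounds `|y|` and `|x|` by `C √Y`. -/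
theorem card_le : ∃ C : ℝ, 0 ≤ C ∧ ∀ Y : ℕ, 1 ≤ Y →
    ∃ T : Finset H.O, (∀ α, α ∈ T ↔ H.nm α ≤ Y) ∧ (T.card : ℝ) ≤ C * Y := by
  classical
  have h0 := H.im_pos
  obtain ⟨K, hK⟩ := exists_nat_ge (1 + 1 / H.w.im + |H.w.re| / H.w.im)
  refine ⟨(4 * K + 1) ^ 2, by positivity, fun Y hY => ?_⟩
  set R : ℕ := K * (Y.sqrt + 1)
  refine ⟨((Icc (-R : ℤ) R ×ˢ Icc (-R : ℤ) R).image fun q => H.el q.1 q.2).filter
    fun α => H.nm α ≤ Y, fun α => ⟨fun h => (mem_filter.1 h).2, fun h => mem_filter.2 ⟨?_, h⟩⟩, ?_⟩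
  · obtain ⟨x, y, rfl⟩ := H.exists_el α
    have h1 : ‖((H.el x y : H.O) : ℂ)‖ ≤ (Y.sqrt + 1 : ℕ) := by
      refine le_of_sq_le_sq ?_ (by positivity)
      rw [← normSq_eq_norm_sq, ← nm_cast]
      exact_mod_cast h.trans (Nat.lt_succ_sqrt' Y).le
    have h2 := (abs_im_le_norm _).trans h1
    have h3 := (abs_re_le_norm _).trans h1
    rw [coe_el] at h2 h3
    simp only [add_im, add_re, mul_im, mul_re, intCast_re, intCast_im, zero_mul, add_zero, zero_add,
      sub_zero, abs_mul, abs_of_pos h0] at h2 h3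
    generalize hS : ((Y.sqrt + 1 : ℕ) : ℝ) = S at h2 h3
    have hS0 : 0 ≤ S := (abs_nonneg _).trans h3
    have h4 : |(y : ℝ)| ≤ 1 / H.w.im * S := by
      rw [one_div, inv_mul_eq_div, le_div_iff₀ h0]
      exact h2
    have h5 : |(x : ℝ)| ≤ (1 + |H.w.re| / H.w.im) * S := by
      have a1 := abs_sub ((x : ℝ) + y * H.w.re) (y * H.w.re)
      have a2 := mul_le_mul_of_nonneg_right h4 (abs_nonneg H.w.re)
      rw [add_sub_cancel_right, abs_mul] at a1
      calc _ ≤ S + 1 / H.w.im * S * |H.w.re| := by linarith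
        _ = _ := by ring
    have h6 : ∀ t : ℤ, ∀ c : ℝ, |(t : ℝ)| ≤ c * S → c ≤ K → t ∈ Icc (-R : ℤ) R := fun t c a1 a2 => by
      have a3 : |(t : ℝ)| ≤ (R : ℝ) := by
        rw [Nat.cast_mul, hS]
        exact a1.trans (mul_le_mul_of_nonneg_right a2 hS0)
      exact mem_Icc.2 (abs_le.1 (by exact_mod_cast a3))
    have p1 : 0 ≤ 1 / H.w.im := by positivity
    have p2 : 0 ≤ |H.w.re| / H.w.im := by positivity
    exact mem_image.2 ⟨(x, y), mem_product.2 ⟨h6 x _ h5 (by linarith), h6 y _ h4 (by linarith)⟩, rfl⟩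
  · have h1 : 1 ≤ Y.sqrt := Nat.sqrt_pos.2 hY
    have h2 := Nat.sqrt_le' Y
    have h3 : (Icc (-R : ℤ) R).card ≤ (4 * K + 1) * Y.sqrt := by
      rw [Int.card_Icc]
      have : K * (Y.sqrt + 1) ≤ K * (2 * Y.sqrt) := Nat.mul_le_mul_left _ (by omega)
      have e : (R + 1 - -R : ℤ).toNat = 2 * R + 1 := by omega
      rw [e]
      simp only [R]
      nlinarith
    have h4 := (card_product _ _).le.trans ((Nat.mul_le_mul h3 h3).trans
      (show _ ≤ (4 * K + 1) ^ 2 * Y by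
        rw [mul_mul_mul_comm, ← pow_two, ← pow_two]
        exact Nat.mul_le_mul_left _ h2))
    exact_mod_cast ((card_filter_le _ _).trans card_image_le).trans h4

theorem finite_le (Y : ℕ) : {α : H.O | H.nm α ≤ Y}.Finite := by
  obtain ⟨C, -, h⟩ := H.card_le
  obtain ⟨T, hT, -⟩ := h (Y + 1) (by omega)
  exact T.finite_toSet.subset fun α hα => (hT α).2 (Nat.le_succ_of_le hα)

theorem finite_units : Finite H.Oˣ := by
  have := (H.finite_le 1).to_subtype
  exact Finite.of_injective (fun u : H.Oˣ => (⟨u, (H.nm_eq_one.2 u.isUnit).le⟩ :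
    {α : H.O | H.nm α ≤ 1})) fun u v h => Units.ext (congrArg Subtype.val h)

/-- Every class contains some `H.el x y` with `0 ≤ x, y < H.nm H.f`. -/
theorem finite_quot : Finite (H.O ⧸ Ideal.span {H.f}) := by
  have h0 : (0 : ℤ) < H.nm H.f := by
    exact_mod_cast Nat.pos_of_ne_zero (H.nm_eq_zero.not.2 H.f_ne)
  refine Finite.of_surjective (fun q : Set.Ico (0 : ℤ) (H.nm H.f) × Set.Ico (0 : ℤ) (H.nm H.f) =>
    Ideal.Quotient.mk (Ideal.span {H.f}) (H.el q.1 q.2)) fun c => ?_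
  obtain ⟨α, rfl⟩ := Ideal.Quotient.mk_surjective c
  obtain ⟨x, y, rfl⟩ := H.exists_el α
  refine ⟨(⟨x % H.nm H.f, Int.emod_nonneg _ h0.ne', Int.emod_lt_of_pos _ h0⟩,
    ⟨y % H.nm H.f, Int.emod_nonneg _ h0.ne', Int.emod_lt_of_pos _ h0⟩), ?_⟩
  refine Ideal.Quotient.eq.2 (Ideal.mem_span_singleton.2
    ⟨H.cj H.f * -H.el (x / H.nm H.f) (y / H.nm H.f), ?_⟩)
  rw [← mul_assoc, mul_cj]
  simp only [el, Int.emod_def]
  push_cast
  ring

/-- The coordinates. -/
def eqv : ℤ × ℤ ≃ H.O := Equiv.ofBijective (fun q => H.el q.1 q.2)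
  ⟨fun _ _ h => Prod.ext (H.el_inj h).1 (H.el_inj h).2, fun α => by
    obtain ⟨x, y, h⟩ := H.exists_el α
    exact ⟨(x, y), h.symm⟩⟩

theorem A_eq : H.A = H.w.im * ‖(H.f : ℂ)‖ / π := by
  rw [A, D_eq, normSq_eq_norm_sq, show 4 * H.w.im ^ 2 * ‖(H.f : ℂ)‖ ^ 2 =
    (2 * (H.w.im * ‖(H.f : ℂ)‖)) ^ 2 by ring,
    Real.sqrt_sq (by have := H.im_pos; positivity), mul_div_mul_left _ _ two_ne_zero]

theorem A_pos : 0 < H.A := by
  have h1 := H.im_pos
  have h2 : 0 < ‖(H.f : ℂ)‖ := norm_pos_iff.2 fun h => H.f_ne (Subtype.ext h)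
  rw [A_eq]
  positivity

end Hk

end Pool.Agent.Lib.MP_bcfefa_nt
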