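import Pool.Agent.Lib.MP_bcfefa_nt.HChar
import Pool.Agent.Lib.MP_bcfefa_nt.BTor

set_option autoImplicit false

noncomputable section

namespace Pool.Agent.Lib.MP_bcfefa_nt

open Complex Finset MeasureTheory Pool.Agent.Lib.MP_03e5d0_nt
open scoped Real ContDiff

/-! Split primes and primitive elements. -/

namespace Hk

variable (H : Hk)

/-- The element attached to an exponent vector. -/
def ce (e : Xp) : H.O := e.prod fun p k => H.pi p ^ k.toNat * H.cj (H.pi p) ^ (-k).toNat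

/-- The exponent vector is supported on `H.P`. -/
def Ok (e : Xp) : Prop := ∀ p ∈ e.support, p ∈ H.P

variable {H} {p q : ℕ} {e e' : Xp}

/-- `p` is not a unit, not prime, so it has a prime divisor `ρ`; `prime_cases`. -/
theorem nm_pi (hp : p ∈ H.P) : H.nm (H.pi p) = p := by
  have h : ∃ α : H.O, H.nm α = p := by
    have h1 : H.nm (p : H.O) = p ^ 2 := H.nm_natCast p
    have h2 := hp.1.two_le
    obtain ⟨ρ, hρ, hd⟩ := WfDvdMonoid.exists_irreducible_factor (a := (p : H.O))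
      (fun hu => by rw [← H.nm_eq_one, h1] at hu; nlinarith)
      (fun h0 => by rw [← H.nm_eq_zero, h1] at h0; nlinarith)
    obtain ⟨q, hq, ⟨h3, h4⟩ | ⟨-, h4⟩⟩ := H.prime_cases hρ.prime
    · have h5 := (Nat.prime_dvd_prime_iff_eq hq hp.1).1 (H.natCast_dvd (h4.symm.dvd.trans hd))
      exact absurd (h5 ▸ h3) hp.2.2
    · have h5 := H.nm_dvd hd
      rw [h4, h1] at h5
      exact ⟨ρ, h4.trans ((Nat.prime_dvd_prime_iff_eq hq hp.1).1 (hq.dvd_of_dvd_pow h5))⟩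
  rw [pi, dif_pos h]
  exact h.choose_spec

theorem hspl_mul (hp : p ∈ H.P) : H.pi p * H.cj (H.pi p) = (p : H.O) := by
  rw [H.mul_cj, nm_pi hp]

theorem hspl_nm_el (x y : ℤ) : (H.nm (H.el x y) : ℤ) = x ^ 2 + H.b * x * y - H.a * y ^ 2 := by
  have h := (H.nm_cast _).trans (H.normSq_el x y)
  exact_mod_cast h

theorem prime_pi (hp : p ∈ H.P) : Prime (H.pi p) := H.prime_of_nm (by rw [nm_pi hp]; exact hp.1)

theorem coprime_pi (hp : p ∈ H.P) : IsCoprime (H.pi p) H.f := (hspl_mul hp ▸ hp.2.1 : IsCoprime (H.pi p * H.cj (H.pi p)) H.f).of_mul_left_left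

/-- With `π = x + y w`: if `π ∣ cj π` then `π ∣ π - cj π`, of norm `y ^ 2 |D|`, so `p ∣ y` (`not_dvd_D`), then
`p ∣ x` and `p ^ 2 ∣ p`. -/
theorem not_pi_dvd_cj (hp : p ∈ H.P) : ¬H.pi p ∣ H.cj (H.pi p) := by
  intro h
  have h1 := nm_pi hp
  obtain ⟨x, y, hxy⟩ := H.exists_el (H.pi p)
  have hpz : Prime (p : ℤ) := Nat.prime_iff_prime_int.1 hp.1
  have h2 : H.pi p - H.cj (H.pi p) = H.el (-(H.b * y)) (2 * y) := by
    rw [hxy, H.cj_el]; simp only [el]; push_cast; ring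
  have h3 := Int.natCast_dvd_natCast.2 (H.nm_dvd (h2 ▸ (dvd_refl (H.pi p)).sub h))
  rw [h1, hspl_nm_el, show (-(H.b * y)) ^ 2 + H.b * -(H.b * y) * (2 * y) - H.a * (2 * y) ^ 2
    = -(H.D * y ^ 2) by rw [D]; ring, dvd_neg] at h3
  obtain ⟨y', rfl⟩ := hpz.dvd_of_dvd_pow
    ((hpz.dvd_or_dvd h3).resolve_left (H.not_dvd_D hp.1 hp.2.1))
  have h4 := hspl_nm_el (H := H) x (p * y')
  rw [← hxy, h1] at h4
  obtain ⟨x', rfl⟩ := hpz.dvd_of_dvd_pow (n := 2) (a := x)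
    ⟨1 - H.b * x * y' + H.a * p * y' ^ 2, by linear_combination -h4⟩
  refine hpz.not_dvd_one ⟨x' ^ 2 + H.b * x' * y' - H.a * y' ^ 2, mul_left_cancel₀ hpz.ne_zero ?_⟩
  linear_combination h4

theorem ce_eq_prod {S : Finset ℕ} (h : e.support ⊆ S) :
    H.ce e = ∏ p ∈ S, H.pi p ^ (e p).toNat * H.cj (H.pi p) ^ (-e p).toNat := Finsupp.prod_of_support_subset _ h _ fun _ _ => by simp

theorem ce_zero : H.ce 0 = 1 := by simp [ce]

theorem cj_ce (e : Xp) : H.cj (H.ce e) = H.ce (-e) := by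
  rw [ce_eq_prod (e := -e) (S := e.support) (by simp), ce_eq_prod Subset.rfl, map_prod]
  refine prod_congr rfl fun p _ => ?_
  rw [map_mul, map_pow, map_pow, H.cj_cj, Finsupp.neg_apply, neg_neg, mul_comm]

theorem nm_ce (he : H.Ok e) : H.nm (H.ce e) = Nm e := by
  rw [ce_eq_prod Subset.rfl, Nm_eq_prod Subset.rfl]
  have h := map_prod (⟨⟨H.nm, H.nm_one⟩, H.nm_mul⟩ : H.O →* ℕ)
    (fun p => H.pi p ^ (e p).toNat * H.cj (H.pi p) ^ (-e p).toNat) e.support
  refine h.trans (prod_congr rfl fun p hp => ?_)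
  change H.nm _ = _
  rw [H.nm_mul, H.nm_pow, H.nm_pow, H.nm_cj, nm_pi (he p hp), ← pow_add]
  congr 1
  omega

theorem coprime_ce (he : H.Ok e) : IsCoprime (H.ce e) H.f := by
  rw [ce_eq_prod Subset.rfl]
  exact IsCoprime.prod_left fun p hp => (coprime_pi (he p hp)).pow_left.mul_left
    (H.coprime_cj.2 (coprime_pi (he p hp))).pow_left

theorem Ok.add (he : H.Ok e) (he' : H.Ok e') : H.Ok (e + e') := fun p hp =>
  (mem_union.1 (Finsupp.support_add hp)).elim (he p) (he' p)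

theorem Ok.neg (he : H.Ok e) : H.Ok (-e) := fun p hp => he p (by simpa using hp)

/-- At each prime `π ^ a⁺ π' ^ a⁻ π ^ b⁺ π' ^ b⁻ = (π π') ^ r π ^ (a + b)⁺ π' ^ (a + b)⁻`. -/
theorem ce_mul (he : H.Ok e) (he' : H.Ok e') :
    ∃ s : ℕ, 0 < s ∧ H.ce e * H.ce e' = (s : H.O) * H.ce (e + e') := by
  have hS : ∀ p ∈ e.support ∪ e'.support, p ∈ H.P := fun p hp =>
    (mem_union.1 hp).elim (he p) (he' p)
  refine ⟨∏ p ∈ e.support ∪ e'.support, p ^ ((e p).toNat + (e' p).toNat - (e p + e' p).toNat),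
    prod_pos fun p hp => pow_pos (hS p hp).1.pos _, ?_⟩
  rw [ce_eq_prod (e := e) subset_union_left, ce_eq_prod (e := e') subset_union_right,
    ce_eq_prod Finsupp.support_add, Nat.cast_prod, ← prod_mul_distrib, ← prod_mul_distrib]
  refine prod_congr rfl fun p hp => ?_
  rw [Nat.cast_pow, ← hspl_mul (hS p hp), mul_pow, mul_mul_mul_comm, mul_mul_mul_comm (_ ^ (_ - _)),
    ← pow_add, ← pow_add, ← pow_add, ← pow_add, Finsupp.add_apply]
  congr 2 <;> omega

theorem hspl_not_dvd (he : H.Ok e) (hp : p ∈ H.P) (h : e p ≤ 0) : ¬H.pi p ∣ H.ce e := by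
  have h1 := prime_pi hp
  rw [ce_eq_prod Subset.rfl, h1.dvd_finsetProd_iff]
  rintro ⟨q, hq, h2⟩
  have key : ∀ α, H.nm α = q → H.pi p ∣ α → p = q := fun α h3 h4 => by
    have h5 := H.nm_dvd h4
    rw [nm_pi hp, h3] at h5
    exact (Nat.prime_dvd_prime_iff_eq hp.1 (he q hq).1).1 h5
  rcases h1.dvd_or_dvd h2 with h2 | h2
  · obtain rfl := key _ (nm_pi (he q hq)) (h1.dvd_of_dvd_pow h2)
    rw [Int.toNat_of_nonpos h, pow_zero] at h2
    exact h1.not_dvd_one h2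
  · obtain rfl := key _ ((H.nm_cj _).trans (nm_pi (he q hq))) (h1.dvd_of_dvd_pow h2)
    exact not_pi_dvd_cj hp (h1.dvd_of_dvd_pow h2)

theorem hspl_dvd (h : 0 < e p) : H.pi p ∣ H.ce e := by
  rw [ce_eq_prod Subset.rfl]
  exact ((dvd_pow_self _ (by omega)).mul_right _).trans
    (dvd_prod_of_mem _ (Finsupp.mem_support_iff.2 h.ne'))

/-- Take `p` with `e p ≠ 0`; one of `π`, `cj π` divides `ce e`, and it does not divide `ce (-e)`
(`Prime.dvd_finset_prod_iff`, `not_pi_dvd_cj`, `nm_dvd` for the other primes). -/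
theorem not_ce_dvd (he : H.Ok e) (h0 : e ≠ 0) : ¬H.ce e ∣ H.ce (-e) := by
  intro h
  obtain ⟨p, hp⟩ := Finsupp.support_nonempty_iff.2 h0
  rcases lt_or_gt_of_ne (Finsupp.mem_support_iff.1 hp) with h1 | h1
  · have h2 := map_dvd H.cj h
    rw [cj_ce, cj_ce, neg_neg] at h2
    exact hspl_not_dvd he (he p hp) h1.le ((hspl_dvd (e := -e) (by simpa using h1)).trans h2)
  · exact hspl_not_dvd he.neg (he p hp) (by simpa using h1.le) ((hspl_dvd h1).trans h)

theorem im_ce (he : H.Ok e) (h0 : e ≠ 0) : H.w.im ≤ |((H.ce e : H.O) : ℂ).im| := by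
  refine H.im_ge fun h => not_ce_dvd he h0 ?_
  rw [← cj_ce, show H.cj (H.ce e) = H.ce e from Subtype.ext (Complex.conj_eq_iff_im.2 h)]

/-- Induction on the factorisation; `prime_cases`, `ce_mul` with `single p 1` or `single p (-1)` (a prime of
norm `p` divides `π * cj π`). -/
theorem exists_ce {α : H.O} (h : IsCoprime α H.f) :
    ∃ (u : H.Oˣ) (t : ℕ) (e : Xp), 0 < t ∧ H.Ok e ∧ α = u * (t : H.O) * H.ce e := by
  induction α using UniqueFactorizationMonoid.induction_on_prime with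
  | h₁ => exact absurd H.X_zero (H.X_ne_zero.2 h)
  | h₂ x hx =>
    obtain ⟨u, rfl⟩ := hx
    exact ⟨u, 1, 0, one_pos, fun p hp => by simp at hp, by simp [ce_zero]⟩
  | h₃ a ρ _ hρ ih =>
    obtain ⟨u, t, e, ht, he, rfl⟩ := ih h.of_mul_left_right
    obtain ⟨p, hp, ⟨-, v, hv⟩ | ⟨h1, h2⟩⟩ := H.prime_cases hρ
    · refine ⟨u * v⁻¹, p * t, e, mul_pos hp.pos ht, he, ?_⟩
      rw [Nat.cast_mul, ← hv, Units.val_mul]
      linear_combination (-(ρ * u * t * H.ce e)) * v.mul_inv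
    have h3 : ρ * H.cj ρ = (p : H.O) := by rw [H.mul_cj, h2]
    have hP : p ∈ H.P := ⟨hp, h3 ▸ h.of_mul_left_left.mul_left
      (H.coprime_cj.2 h.of_mul_left_left), h1⟩
    have key : ∀ k : ℤ, Associated (H.ce (Finsupp.single p k)) ρ →
        ∃ (u' : H.Oˣ) (t' : ℕ) (e' : Xp), 0 < t' ∧ H.Ok e' ∧
          ρ * (u * (t : H.O) * H.ce e) = u' * (t' : H.O) * H.ce e' := by
      rintro k ⟨v, rfl⟩
      have hk : H.Ok (Finsupp.single p k) := fun q hq =>
        mem_singleton.1 (Finsupp.support_single_subset hq) ▸ hP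
      obtain ⟨s, hs, h4⟩ := ce_mul hk he
      refine ⟨u * v, t * s, _, mul_pos ht hs, hk.add he, ?_⟩
      rw [Nat.cast_mul, Units.val_mul]
      linear_combination (u * v * t : H.O) * h4
    rcases hρ.dvd_or_dvd (hspl_mul hP ▸ h3 ▸ dvd_mul_right ρ (H.cj ρ) :
      ρ ∣ H.pi p * H.cj (H.pi p)) with h4 | h4
    · refine key 1 ?_
      rw [ce_eq_prod Finsupp.support_single_subset]
      simpa using (hρ.associated_of_dvd (prime_pi hP) h4).symm
    · refine key (-1) ?_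
      rw [ce_eq_prod Finsupp.support_single_subset]
      simpa using (hρ.associated_of_dvd (H.prime_cj (prime_pi hP)) h4).symm

/-- Multiply by `ce (-e')`: `u t s ce (e - e') = u' t' Nm e'`; conjugate and compare, `not_ce_dvd`. -/
theorem ce_unique {u u' : H.Oˣ} {t t' : ℕ} (ht : 0 < t) (ht' : 0 < t') (he : H.Ok e) (he' : H.Ok e')
    (h : (u : H.O) * (t : H.O) * H.ce e = u' * (t' : H.O) * H.ce e') : u = u' ∧ t = t' ∧ e = e' := by
  have hee : e = e' := by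
    obtain ⟨s, hs, h1⟩ := ce_mul he he'.neg
    have h2 : H.ce e' * H.ce (-e') = (H.nm (H.ce e') : H.O) := by rw [← cj_ce, H.mul_cj]
    have h3 : (u : H.O) * ((t * s : ℕ) : H.O) * H.ce (e + -e')
        = u' * ((t' * H.nm (H.ce e') : ℕ) : H.O) := by
      push_cast
      linear_combination H.ce (-e') * h - (u * t : H.O) * h1 + (u' * t' : H.O) * h2
    have h4 := congrArg H.cj h3
    rw [map_mul, map_mul, map_mul, map_natCast, map_natCast, cj_ce] at h4
    have h5 : ((t * s : ℕ) : H.O) ≠ 0 := Nat.cast_ne_zero.2 (mul_pos ht hs).ne'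
    have h6 : (u' * H.cj u) * H.ce (-(e + -e')) = H.ce (e + -e') * (H.cj u' * u) :=
      mul_left_cancel₀ h5 (by linear_combination (u' : H.O) * h4 - H.cj u' * h3)
    by_contra hne
    refine not_ce_dvd (he.add he'.neg) (fun h0 => hne (add_neg_eq_zero.1 h0)) ?_
    exact ((u'.isUnit.mul (u.isUnit.map H.cj)).dvd_mul_left).1 ⟨_, h6⟩
  subst hee
  have h0 : H.ce e ≠ 0 := fun h0 => H.X_ne_zero.2 (coprime_ce he) (h0 ▸ H.X_zero)
  have h1 := mul_right_cancel₀ h0 h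
  have htt : t = t' := Nat.dvd_antisymm
    (H.natCast_dvd (u'.isUnit.dvd_mul_left.1 (h1 ▸ dvd_mul_left _ _)))
    (H.natCast_dvd (u.isUnit.dvd_mul_left.1 (h1 ▸ dvd_mul_left _ _)))
  subst htt
  exact ⟨Units.ext (mul_right_cancel₀ (Nat.cast_ne_zero.2 ht.ne') h1), rfl, rfl⟩

theorem hspl_zpow {w : ℂ} (hw : ‖w‖ = 1) (a : ℤ) :
    w ^ a.toNat * starRingEnd ℂ w ^ (-a).toNat = w ^ a := by
  have h0 : w ≠ 0 := by rintro rfl; simp at hw
  rw [← Complex.inv_eq_conj hw, inv_pow, ← zpow_natCast, ← zpow_natCast, ← div_eq_mul_inv,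
    ← zpow_sub₀ h0]
  congr 1
  omega

theorem hspl_norm (hp : p ∈ H.P) : ‖((H.pi p : H.O) : ℂ) / (√p : ℝ)‖ = 1 := by
  have h1 := H.nm_cast (H.pi p)
  rw [nm_pi hp, Complex.normSq_eq_norm_sq] at h1
  have h2 : (0 : ℝ) < √p := Real.sqrt_pos.2 (by exact_mod_cast hp.1.pos)
  rw [norm_div, Complex.norm_real, Real.norm_of_nonneg h2.le, div_eq_one_iff_eq h2.ne', h1,
    Real.sqrt_sq (norm_nonneg _)]

theorem hspl_div (he : H.Ok e) : ((H.ce e : H.O) : ℂ) / (√(Nm e) : ℝ)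
    = ∏ p ∈ e.support, (((H.pi p : H.O) : ℂ) / (√p : ℝ)) ^ e p := by
  have h1 : √(Nm e) = ∏ p ∈ e.support, √p ^ (e p).natAbs := by
    rw [Nm_eq_prod Subset.rfl, Real.sqrt_eq_iff_mul_self_eq (by positivity) (by positivity),
      ← prod_mul_distrib, Nat.cast_prod]
    exact prod_congr rfl fun p _ => by
      rw [← mul_pow, Real.mul_self_sqrt (Nat.cast_nonneg _), Nat.cast_pow]
  rw [h1, ce_eq_prod Subset.rfl, SubmonoidClass.coe_finsetProd, Complex.ofReal_prod,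
    ← prod_div_distrib]
  refine prod_congr rfl fun p hp => ?_
  rw [← hspl_zpow (hspl_norm (he p hp)), map_div₀, Complex.conj_ofReal, div_pow, div_pow,
    div_mul_div_comm, ← pow_add, show (e p).toNat + (-e p).toNat = (e p).natAbs by omega]
  push_cast
  rfl

variable (H)

/-- The points of the torus: `co u p = (π / √p) ^ 2`, `co ζ p = X π * conj (π / √p)` on `H.P`, one
elsewhere (`exists_co`). Use `ch_eq_prod`, `ce_eq_prod`, `X_cj`, `norm_X`. -/
theorem exists_pts : ∃ u ζ : Tor, ∀ e : Xp, H.Ok e →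
    ch e u = (((H.ce e : H.O) : ℂ) / (√(Nm e) : ℝ)) ^ 2 ∧
    ch e ζ * (((H.ce e : H.O) : ℂ) / (√(Nm e) : ℝ)) = H.X (H.ce e) := by
  classical
  obtain ⟨u, hu⟩ := exists_co
    (fun p => if p ∈ H.P then (((H.pi p : H.O) : ℂ) / (√p : ℝ)) ^ 2 else 1) fun p => by
      split_ifs with hp
      · rw [norm_pow, hspl_norm hp, one_pow]
      · exact norm_one
  obtain ⟨ζ, hζ⟩ := exists_co (fun p => if p ∈ H.P then
    H.X (H.pi p) * starRingEnd ℂ (((H.pi p : H.O) : ℂ) / (√p : ℝ)) else 1) fun p => by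
      split_ifs with hp
      · rw [norm_mul, Complex.norm_conj, hspl_norm hp, H.norm_X (coprime_pi hp), one_mul]
      · exact norm_one
  refine ⟨u, ζ, fun e he => ⟨?_, ?_⟩⟩
  · rw [hspl_div he, ch_eq_prod Subset.rfl, ← prod_pow]
    refine prod_congr rfl fun p hp => ?_
    rw [hu, if_pos (he p hp), pow_two, pow_two, mul_zpow]
  · rw [hspl_div he, ch_eq_prod Subset.rfl, ← prod_mul_distrib, ce_eq_prod Subset.rfl]
    have h := map_prod (⟨⟨H.X, H.X_one⟩, H.X_mul⟩ : H.O →* ℂ)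
      (fun p => H.pi p ^ (e p).toNat * H.cj (H.pi p) ^ (-e p).toNat) e.support
    refine (prod_congr rfl fun p hp => ?_).trans h.symm
    change _ = H.X _
    rw [H.X_mul, H.X_pow, H.X_pow, H.X_cj, hspl_zpow (H.norm_X (coprime_pi (he p hp))), hζ,
      if_pos (he p hp), ← mul_zpow, mul_assoc, Complex.conj_mul', hspl_norm (he p hp)]
    simp

/-- `‖w ^ 2 - 1‖ = 2 |im w|` for `‖w‖ = 1`. -/
theorem sep_pts {u : Tor} {e : Xp} (he : H.Ok e) (h0 : e ≠ 0)
    (hu : ch e u = (((H.ce e : H.O) : ℂ) / (√(Nm e) : ℝ)) ^ 2) :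
    H.w.im ≤ √(Nm e) * ‖ch e u - 1‖ := by
  have h1 := im_ce he h0
  have h2 : ‖((H.ce e : H.O) : ℂ) / (√(Nm e) : ℝ)‖ = 1 := by
    rw [hspl_div he, norm_prod]
    exact prod_eq_one fun p hp => by rw [norm_zpow, hspl_norm (he p hp), one_zpow]
  have h3 : (0 : ℝ) < √(Nm e) := by
    refine lt_of_le_of_ne (Real.sqrt_nonneg _) fun h => ?_
    rw [← h] at h2
    simp at h2
  set w := ((H.ce e : H.O) : ℂ) / (√(Nm e) : ℝ) with hw
  have h4 : w ^ 2 - 1 = w * (w - starRingEnd ℂ w) := by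
    rw [mul_sub, Complex.mul_conj', h2]; push_cast; ring
  have h5 : √(Nm e) * |w.im| = |((H.ce e : H.O) : ℂ).im| := by
    rw [hw, Complex.div_ofReal_im, abs_div, abs_of_pos h3]; field_simp
  rw [hu, h4, norm_mul, h2, one_mul, Complex.sub_conj, norm_mul, Complex.norm_I, mul_one,
    Complex.norm_real, Real.norm_eq_abs, abs_mul, abs_two]
  nlinarith [abs_nonneg w.im]

end Hk

end Pool.Agent.Lib.MP_bcfefa_nt
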