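import Pool.Agent.Lib.MP_bcfefa_nt.WSer

/-!
Formal Hecke operators.
-/

set_option autoImplicit false

noncomputable section

namespace Pool.Agent.Lib.MP_bcfefa_nt.W

open PowerSeries Finset

variable {K : Type*} [CommRing K] {L : Type*} [CommRing L] {ψ : ℕ → K}

lemma coeff_hk_symm (ψ : ℕ → K) (m n : ℕ) (φ : K⟦X⟧) :
    coeff n (hk ψ m φ) = coeff m (hk ψ n φ) := by
  rw [coeff_hk, coeff_hk, Nat.gcd_comm, mul_comm m]

lemma hk_one (h1 : ψ 1 = 1) : hk ψ 1 = LinearMap.id := by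
  ext φ n
  simp [coeff_hk, h1]

lemma hk_prime (h1 : ψ 1 = 1) {l : ℕ} (hl : l.Prime) : hk ψ l = UU l + ψ l • VV l := by
  ext φ n
  rw [coeff_hk, LinearMap.add_apply, LinearMap.smul_apply, map_add, map_smul, coeff_UU, coeff_VV]
  split_ifs with h
  · rw [Nat.gcd_eq_left h, hl.sum_divisors, h1, sq, Nat.mul_div_mul_left _ _ hl.pos]
    simp [add_comm]
  · rw [((Nat.Prime.coprime_iff_not_dvd hl).2 h).gcd_eq_one]
    simp [h1]

lemma coeff_zero_hk (m : ℕ) {φ : K⟦X⟧} (h : coeff 0 φ = 0) : coeff 0 (hk ψ m φ) = 0 := by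
  rw [coeff_hk]
  exact sum_eq_zero fun d _ => by rw [mul_zero, Nat.zero_div, h, mul_zero]

lemma coeff_hk_zero (φ : K⟦X⟧) (n : ℕ) :
    coeff n (hk ψ 0 φ) = (∑ d ∈ n.divisors, ψ d) * coeff 0 φ := by
  rw [coeff_hk, Nat.gcd_zero_left, sum_mul]
  exact sum_congr rfl fun d _ => by rw [zero_mul, Nat.zero_div]

lemma whk_split (f : ℕ → K) {l : ℕ} (hl : l.Prime) {m n : ℕ} (h : Nat.gcd m n ≠ 0) :
    ∑ d ∈ (Nat.gcd (l * m) n).divisors, f d =
      ∑ d ∈ (Nat.gcd m n).divisors with ¬ l ∣ d, f d +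
        if l ∣ n then ∑ e ∈ (Nat.gcd m (n / l)).divisors, f (l * e) else 0 := by
  have h' : Nat.gcd (l * m) n ≠ 0 := by
    simp only [ne_eq, Nat.gcd_eq_zero_iff, mul_eq_zero, hl.ne_zero, false_or] at h ⊢
    exact h
  rw [← sum_filter_add_sum_filter_not _ fun d => l ∣ d, add_comm]
  refine congrArg₂ (· + ·) (sum_congr ?_ fun _ _ => rfl) ?_
  · ext d
    simp only [mem_filter, Nat.mem_divisors, Nat.dvd_gcd_iff]
    exact ⟨fun ⟨⟨⟨a, b⟩, _⟩, c⟩ => ⟨⟨⟨((Nat.Prime.coprime_iff_not_dvd hl).2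
      c).symm.dvd_of_dvd_mul_left a, b⟩, h⟩, c⟩,
      fun ⟨⟨⟨a, b⟩, _⟩, c⟩ => ⟨⟨⟨a.mul_left l, b⟩, h'⟩, c⟩⟩
  · split_ifs with hn
    · obtain ⟨n, rfl⟩ := hn
      rw [Nat.mul_div_cancel_left _ hl.pos, ← sum_image (g := fun e => l * e)
        fun a _ b _ e => Nat.eq_of_mul_eq_mul_left hl.pos e]
      refine sum_congr ?_ fun _ _ => rfl
      ext d
      rw [Nat.gcd_mul_left] at h' ⊢
      simp only [mem_filter, mem_image, Nat.mem_divisors]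
      constructor
      · rintro ⟨⟨a, _⟩, e, rfl⟩
        exact ⟨e, ⟨Nat.dvd_of_mul_dvd_mul_left hl.pos a, right_ne_zero_of_mul h'⟩, rfl⟩
      · rintro ⟨e, ⟨a, _⟩, rfl⟩
        exact ⟨⟨Nat.mul_dvd_mul_left l a, h'⟩, dvd_mul_right l e⟩
    · refine sum_eq_zero fun d hd => (hn ?_).elim
      rw [mem_filter] at hd
      exact hd.2.trans ((Nat.dvd_of_mem_divisors hd.1).trans (Nat.gcd_dvd_right _ _))

lemma whk_key (hmul : ∀ a b, ψ (a * b) = ψ a * ψ b) {l : ℕ} (hl : l.Prime) {m n : ℕ}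
    (h : Nat.gcd m n ≠ 0) (φ : K⟦X⟧) : coeff n (hk ψ (l * m) φ) =
      ∑ d ∈ (Nat.gcd m n).divisors with ¬ l ∣ d, ψ d * coeff (l * (m * n) / d ^ 2) φ +
        if l ∣ n then ψ l * coeff (n / l) (hk ψ m φ) else 0 := by
  rw [coeff_hk, whk_split _ hl h, mul_assoc]
  refine congrArg (_ + ·) ?_
  split_ifs with hn
  · obtain ⟨n, rfl⟩ := hn
    rw [coeff_hk, mul_sum, Nat.mul_div_cancel_left _ hl.pos]
    refine sum_congr rfl fun e _ => ?_
    rw [hmul, mul_assoc, mul_pow, show l * (m * (l * n)) = l ^ 2 * (m * n) by ring,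
      Nat.mul_div_mul_left _ _ (pow_pos hl.pos 2)]
  · rfl

/-- The Hecke relation, for completely multiplicative `ψ`. -/
theorem hk_mul_prime (h1 : ψ 1 = 1) (hmul : ∀ a b, ψ (a * b) = ψ a * ψ b) {l : ℕ} (hl : l.Prime)
    {m : ℕ} (hm : m ≠ 0) :
    hk ψ l ∘ₗ hk ψ m = hk ψ (l * m) + if l ∣ m then ψ l • hk ψ (m / l) else 0 := by
  ext φ n
  have h : Nat.gcd m n ≠ 0 := Nat.gcd_ne_zero_left hm
  have e1 := whk_key hmul hl h φ
  have e2 := whk_key hmul hl (m := n) (n := m) (Nat.gcd_comm m n ▸ h) φ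
  rw [Nat.gcd_comm, mul_comm n, coeff_hk_symm, coeff_hk_symm ψ n] at e2
  rw [LinearMap.comp_apply, hk_prime h1 hl, LinearMap.add_apply, LinearMap.smul_apply, map_add,
    map_smul, coeff_UU, coeff_VV, LinearMap.add_apply, map_add, e1, e2]
  split_ifs <;> simp
  ring

theorem hk_stable (h1 : ψ 1 = 1) (hmul : ∀ a b, ψ (a * b) = ψ a * ψ b) (S : Submodule K K⟦X⟧)
    (hS : ∀ l : ℕ, l.Prime → ∀ φ ∈ S, hk ψ l φ ∈ S) {m : ℕ} (hm : m ≠ 0) :
    ∀ φ ∈ S, hk ψ m φ ∈ S := by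
  induction m using Nat.strong_induction_on with
  | _ m ih =>
    intro φ hφ
    by_cases hm1 : m = 1
    · rwa [hm1, hk_one h1]
    obtain ⟨l, hl, k, rfl⟩ := Nat.exists_prime_and_dvd hm1
    have hk0 : k ≠ 0 := right_ne_zero_of_mul hm
    have hlt : k < l * k := lt_mul_of_one_lt_left (Nat.pos_of_ne_zero hk0) hl.one_lt
    have e := LinearMap.congr_fun (hk_mul_prime h1 hmul hl hk0) φ
    rw [LinearMap.add_apply, ← sub_eq_iff_eq_add, LinearMap.comp_apply] at e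
    rw [← e]
    refine S.sub_mem (hS l hl _ (ih k hlt hk0 φ hφ)) ?_
    split_ifs with h
    · exact S.smul_mem _ (ih _ ((Nat.div_le_self _ _).trans_lt hlt)
        (Nat.div_pos (Nat.le_of_dvd (Nat.pos_of_ne_zero hk0) h) hl.pos).ne' φ hφ)
    · exact S.zero_mem

/-- Eigenvectors of all `hk ψ l` are eigenvectors of all `hk ψ m`. -/
theorem hk_eigen (h1 : ψ 1 = 1) (hmul : ∀ a b, ψ (a * b) = ψ a * ψ b) {φ : K⟦X⟧}
    (h : ∀ l : ℕ, l.Prime → ∃ μ : K, hk ψ l φ = μ • φ) {m : ℕ} (hm : m ≠ 0) :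
    ∃ μ : K, hk ψ m φ = μ • φ := by
  have H := hk_stable h1 hmul (Submodule.span K {φ}) (fun l hl x hx => by
    obtain ⟨c, rfl⟩ := Submodule.mem_span_singleton.1 hx
    obtain ⟨μ, hμ⟩ := h l hl
    rw [map_smul, hμ]
    exact Submodule.smul_mem _ _ (Submodule.smul_mem _ _ (Submodule.mem_span_singleton_self φ)))
    hm φ (Submodule.mem_span_singleton_self φ)
  obtain ⟨μ, hμ⟩ := Submodule.mem_span_singleton.1 H
  exact ⟨μ, hμ.symm⟩

lemma ψ3_one : ψ3 1 = 1 := by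
  simp [ψ3]

lemma ψ3_mul (a b : ℕ) : ψ3 (a * b) = ψ3 a * ψ3 b := by
  unfold ψ3
  rw [Nat.mul_mod]
  rcases Nat.mod_two_eq_zero_or_one a with ha | ha <;>
    rcases Nat.mod_two_eq_zero_or_one b with hb | hb <;> simp [ha, hb]

end Pool.Agent.Lib.MP_bcfefa_nt.W
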