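import Pool.Agent.Lib.MP_bcfefa_nt.WDup
import Pool.Agent.Lib.MP_bcfefa_nt.WHk

/-!
The twisted Hecke sums `adH` from the plain Hecke operators: a recursion in the exponent.
-/

set_option autoImplicit false

noncomputable section

namespace Pool.Agent.Lib.MP_bcfefa_nt.W

open PowerSeries Finset

section General

variable {K : Type*} [CommRing K]

variable (K) in
/-- The Eisenstein series of weight two. -/
def e2s : K⟦X⟧ := mk fun n => if n = 0 then 1 else -24 * ((ArithmeticFunction.sigma 1 n : ℕ) : K)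

theorem UU_mul_VV {m : ℕ} (h : m ≠ 0) (f g : K⟦X⟧) : UU m (f * VV m g) = UU m f * g := by
  ext n
  rw [coeff_UU, mul_comm f, mul_comm (UU m f), coeff_mul, coeff_mul,
    Nat.sum_antidiagonal_eq_sum_range_succ (fun i j => coeff i (VV m g) * coeff j f),
    Nat.sum_antidiagonal_eq_sum_range_succ (fun i j => coeff i g * coeff j (UU m f))]
  have hm := Nat.pos_of_ne_zero h
  symm
  refine sum_bij_ne_zero (fun s _ _ => m * s) (fun s hs _ => ?_)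
    (fun a _ _ b _ _ e => Nat.eq_of_mul_eq_mul_left hm e) (fun i hi h0 => ?_)
    fun s _ _ => by rw [coeff_VV_mul h, coeff_UU, Nat.mul_sub]
  · exact mem_range.2 (Nat.lt_succ_of_le (Nat.mul_le_mul_left m (Nat.le_of_lt_succ (mem_range.1 hs))))
  · obtain ⟨s, rfl⟩ : m ∣ i := by
      by_contra hd
      exact h0 (by rw [coeff_VV, if_neg hd, zero_mul])
    have h1 := Nat.le_of_mul_le_mul_left (Nat.le_of_lt_succ (mem_range.1 hi)) hm
    refine ⟨s, mem_range.2 (Nat.lt_succ_of_le h1), ?_, rfl⟩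
    rwa [coeff_VV_mul h, ← Nat.mul_sub, ← coeff_UU] at h0

theorem UU_DD (m : ℕ) (f : K⟦X⟧) : UU m (DD f) = (m : K⟦X⟧) * DD (UU m f) := by
  ext n
  rw [← nsmul_eq_mul, map_nsmul, coeff_UU, coeff_DD, coeff_DD, coeff_UU, nsmul_eq_mul, Nat.cast_mul,
    mul_assoc]

theorem wfac0_nat (T : K⟦X⟧ →ₗ[K] K⟦X⟧) (n : ℕ) (f : K⟦X⟧) : T ((n : K⟦X⟧) * f) = n * T f := by
  rw [← nsmul_eq_mul, map_nsmul, nsmul_eq_mul]

variable (K) in
/-- The difference of the logarithmic derivatives. -/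
def kk (l : ℕ) : K⟦X⟧ := QQ K - l * VV l (QQ K)

theorem adH_eq {l : ℕ} (hl : l ≠ 0) (e k : ℕ) (φ : K⟦X⟧) : adH l e k φ =
    l * UU l (φ * kk K l ^ k) +
      (if l = 2 then 0 else 1) * ((l : K⟦X⟧) ^ (2 * e + k) * (VV l φ * (-kk K l) ^ k)) := by
  have h1 : (l : K⟦X⟧) ^ (2 * e + k) * (VV l φ * (-kk K l) ^ k) =
      l ^ (2 * e) * VV l φ * ((l : K⟦X⟧) ^ 2 * VV l (QQ K) + -(l : K⟦X⟧) * QQ K) ^ k := by
    rw [show (l : K⟦X⟧) ^ 2 * VV l (QQ K) + -(l : K⟦X⟧) * QQ K = l * -kk K l by rw [kk]; ring,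
      mul_pow, pow_add]
    ring
  have h2 : kk K l = QQ K + VV l (-(l : K⟦X⟧) * QQ K) := by
    rw [kk, neg_mul, map_neg, wfac0_nat, sub_eq_add_neg]
  rw [h1, h2, add_pow, add_pow, adH, mul_sum, map_sum, mul_sum, mul_sum, mul_sum, ← sum_add_distrib]
  refine sum_congr rfl fun i _ => ?_
  rw [← VV_pow hl, mul_comm _ (k.choose i : K⟦X⟧), mul_left_comm φ, wfac0_nat, ← mul_assoc φ,
    UU_mul_VV hl, VV_mul hl, VV_pow hl]
  split_ifs <;> ring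

theorem wfac0_pow (x : K⟦X⟧) (k : ℕ) : (k : K⟦X⟧) * x ^ (k - 1) * x = k * x ^ k := by
  cases k with
  | zero => simp
  | succ k => rw [Nat.add_sub_cancel, mul_assoc, ← pow_succ]

/-- The recursion in the exponent. -/
theorem adH_rec {l : ℕ} (hl : l ≠ 0) {w : K⟦X⟧} (hw : 2 * DD (QQ K) = QQ K ^ 2 + w) (e k : ℕ)
    (φ : K⟦X⟧) : ((2 * e + k : ℕ) : K⟦X⟧) * adH l e (k + 1) φ =
      2 * (l * (DD (adH l e k φ) - ((e + k : ℕ) : K⟦X⟧) * QQ K * adH l e k φ)) -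
        2 * adH l (e + 1) k (DD φ - (e : K⟦X⟧) * QQ K * φ) - k * adH l (e + 2) (k - 1) (w * φ) +
        k * (l ^ 2 * (w * adH l e (k - 1) φ)) := by
  have hV : 2 * VV l (DD (QQ K)) = VV l (QQ K) ^ 2 + VV l w := by
    have h := congrArg (VV l) hw
    rwa [map_add, VV_pow hl, show (2 : K⟦X⟧) = (2 : ℕ) by norm_num, wfac0_nat, Nat.cast_ofNat] at h
  have hK : 2 * DD (kk K l) = kk K l * (QQ K + l * VV l (QQ K)) + w - l ^ 2 * VV l w := by
    rw [kk, map_sub, wfac0_nat, DD_VV hl]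
    linear_combination hw - (l : K⟦X⟧) ^ 2 * hV
  have hU : ((2 * e + k : ℕ) : K⟦X⟧) * UU l (φ * kk K l ^ (k + 1)) =
      2 * (l * (DD (UU l (φ * kk K l ^ k)) - ((e + k : ℕ) : K⟦X⟧) * QQ K * UU l (φ * kk K l ^ k))) -
        2 * UU l ((DD φ - (e : K⟦X⟧) * QQ K * φ) * kk K l ^ k) -
        k * UU l (w * φ * kk K l ^ (k - 1)) + k * (l ^ 2 * (w * UU l (φ * kk K l ^ (k - 1)))) := by
    have h : ((2 * e + k : ℕ) : K⟦X⟧) * (φ * kk K l ^ (k + 1)) =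
        (2 : ℕ) * DD (φ * kk K l ^ k) -
          (2 * (l * (e + k)) : ℕ) * (φ * kk K l ^ k * VV l (QQ K)) -
          (2 : ℕ) * ((DD φ - (e : K⟦X⟧) * QQ K * φ) * kk K l ^ k) -
          k * (w * φ * kk K l ^ (k - 1)) + (k * l ^ 2 : ℕ) * (φ * kk K l ^ (k - 1) * VV l w) := by
      have h3 : kk K l = QQ K - l * VV l (QQ K) := rfl
      rw [DD_mul, DD_pow]
      push_cast
      linear_combination (-φ * k * kk K l ^ (k - 1)) * hK -
        φ * (QQ K + l * VV l (QQ K)) * wfac0_pow (kk K l) k + (2 * e + k) * φ * kk K l ^ k * h3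
    have h4 := congrArg (UU l) h
    simp only [map_add, map_sub (UU l), wfac0_nat, UU_mul_VV hl, UU_DD] at h4
    rw [h4]
    push_cast
    ring
  have hM : ((2 * e + k : ℕ) : K⟦X⟧) * (VV l φ * (-kk K l) ^ (k + 1)) =
      2 * (DD (VV l φ * (-kk K l) ^ k) - ((e + k : ℕ) : K⟦X⟧) * QQ K * (VV l φ * (-kk K l) ^ k)) -
        2 * (l * (VV l (DD φ - (e : K⟦X⟧) * QQ K * φ) * (-kk K l) ^ k)) -
        l ^ 2 * (k * (VV l (w * φ) * (-kk K l) ^ (k - 1))) +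
        k * (w * (VV l φ * (-kk K l) ^ (k - 1))) := by
    have h3 : kk K l = QQ K - l * VV l (QQ K) := rfl
    rw [DD_mul, DD_pow, DD_VV hl, map_sub, mul_assoc (e : K⟦X⟧), wfac0_nat, VV_mul hl, VV_mul hl,
      map_neg]
    push_cast
    linear_combination (VV l φ * k * (-kk K l) ^ (k - 1)) * hK -
      VV l φ * (QQ K + l * VV l (QQ K)) * wfac0_pow (-kk K l) k -
      (2 * e + k) * VV l φ * (-kk K l) ^ k * h3
  have hc : ∀ (c : K⟦X⟧) (n : ℕ) (y : K⟦X⟧), c = 0 ∨ c = 1 →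
      DD (c * ((l : K⟦X⟧) ^ n * y)) = c * ((l : K⟦X⟧) ^ n * DD y) := by
    rintro c n y (rfl | rfl)
    · simp
    · rw [one_mul, one_mul, ← Nat.cast_pow, wfac0_nat]
  simp only [adH_eq hl]
  rw [map_add, wfac0_nat, hc _ _ _ (by split_ifs <;> simp)]
  generalize (if l = 2 then (0 : K⟦X⟧) else 1) = c
  cases k with
  | zero => linear_combination l * hU + c * (l : K⟦X⟧) ^ (2 * e + 1) * hM
  | succ k =>
    simp only [Nat.add_sub_cancel] at hU hM ⊢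
    linear_combination l * hU + c * (l : K⟦X⟧) ^ (2 * e + k + 2) * hM

end General

theorem wfac0_serre (h2 : DD (FF ℂ) - QQ ℂ * FF ℂ ∈ Hom ℂ 2) {e : ℕ} {φ : ℂ⟦X⟧} (h : φ ∈ Hom ℂ e) :
    DD φ - (e : ℂ⟦X⟧) * QQ ℂ * φ ∈ Hom ℂ (e + 1) := by
  have key : Hom ℂ e ≤ (Hom ℂ (e + 1)).comap
      (DD - LinearMap.mulLeft ℂ ((e : ℂ⟦X⟧) * QQ ℂ)) := by
    refine Submodule.span_le.2 ?_
    rintro _ ⟨⟨j, hj⟩, rfl⟩
    obtain ⟨a, rfl⟩ := Nat.exists_eq_add_of_le' (Nat.le_of_lt_succ hj)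
    show DD (uu ℂ ^ (a + j - j) * FF ℂ ^ j) -
      ((a + j : ℕ) : ℂ⟦X⟧) * QQ ℂ * (uu ℂ ^ (a + j - j) * FF ℂ ^ j) ∈ Hom ℂ (a + j + 1)
    rw [Nat.add_sub_cancel, DD_mul, wcoef_log DD_uu, DD_pow]
    cases j with
    | zero => simp
    | succ j =>
      have h3 := natCast_mul_mem_Hom (j + 1) (mul_mem_Hom
        (mul_mem_Hom (pow_mem_Hom uu_mem_Hom a) (pow_mem_Hom FF_mem_Hom j)) h2)
      rw [show 1 * a + 1 * j + 2 = a + (j + 1) + 1 by ring] at h3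
      convert h3 using 1
      rw [Nat.add_sub_cancel]
      push_cast
      ring
  exact key h

theorem wfac0_div {e n : ℕ} (hn : n ≠ 0) {φ : ℂ⟦X⟧} (h : (n : ℂ⟦X⟧) * φ ∈ Hom ℂ e) : φ ∈ Hom ℂ e := by
  rw [← nsmul_eq_mul, ← Nat.cast_smul_eq_nsmul ℂ] at h
  exact (Submodule.smul_mem_iff _ (Nat.cast_ne_zero.2 hn)).1 h

theorem wfac0_const {φ : ℂ⟦X⟧} (h : φ ∈ Hom ℂ 0) : ∃ c : ℂ, φ = c • 1 := by
  obtain ⟨p, rfl⟩ := mem_Hom_iff.1 h
  exact ⟨p 0, by simp [hom]⟩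

/-- All twisted sums from the plain ones and the first twisted sum of the constant. -/
theorem ty_of_hk (h2 : DD (FF ℂ) - QQ ℂ * FF ℂ ∈ Hom ℂ 2) (h3 : DD (qq ℂ) - 2 * qq ℂ ^ 2 ∈ Hom ℂ 2)
    {l : ℕ} (hl : l ≠ 0) (h0 : ∀ e, ∀ φ ∈ Hom ℂ e, adH l e 0 φ ∈ Hom ℂ e)
    (h1 : adH l 0 1 1 ∈ Hom ℂ 1) (e k : ℕ) : ∀ φ ∈ Hom ℂ e, adH l e k φ ∈ Hom ℂ (e + k) := by
  have hw := wcoef_mem 8 h3
  induction k using Nat.strong_induction_on generalizing e with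
  | _ k ih =>
    intro φ hφ
    rcases k with _ | k
    · exact h0 e φ hφ
    by_cases hz : 2 * e + k = 0
    · obtain rfl : e = 0 := by omega
      obtain rfl : k = 0 := by omega
      obtain ⟨c, rfl⟩ := wfac0_const hφ
      convert Submodule.smul_mem _ c h1 using 1
      simp only [adH_eq hl, smul_mul_assoc, map_smul, smul_add, mul_smul_comm]
    refine wfac0_div hz ?_
    rw [adH_rec hl (w := 8 * (DD (qq ℂ) - 2 * qq ℂ ^ 2)) (by
      rw [QQ, show (4 : ℂ⟦X⟧) = (4 : ℕ) by norm_num, wfac0_nat]; push_cast; ring)]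
    have a1 := wcoef_mem 2 (natCast_mul_mem_Hom l (wfac0_serre h2 (ih k k.lt_succ_self e φ hφ)))
    have a2 := wcoef_mem 2 (ih k k.lt_succ_self _ _ (wfac0_serre h2 hφ))
    rw [show e + 1 + k = e + k + 1 by ring] at a2
    rcases k with _ | k
    · simpa using Submodule.sub_mem _ a1 a2
    have a3 := natCast_mul_mem_Hom (k + 1)
      (ih k (by omega) (e + 2) _ (add_comm 2 e ▸ mul_mem_Hom hw hφ))
    have a4 := natCast_mul_mem_Hom (k + 1)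
      (natCast_mul_mem_Hom (l ^ 2) (mul_mem_Hom hw (ih k (by omega) e φ hφ)))
    rw [show e + 2 + k = e + (k + 1) + 1 by ring] at a3
    rw [show 2 + (e + k) = e + (k + 1) + 1 by ring, Nat.cast_pow] at a4
    exact Submodule.add_mem _ (Submodule.sub_mem _ (Submodule.sub_mem _ a1 a2) a3) a4

/-- The operator `UU 2` keeps the homogeneous polynomials. -/
theorem UU_two_mem {K : Type*} [CommRing K] {e : ℕ} {φ : K⟦X⟧} (h : φ ∈ Hom K e) :
    UU 2 φ ∈ Hom K e := by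
  have hA : uu K + 16 * FF K ∈ Hom K 1 := Submodule.add_mem _ uu_mem_Hom (wcoef_mem 16 FF_mem_Hom)
  have h8 : ∀ g : K⟦X⟧, UU 2 (8 * g) = 8 * UU 2 g := wfac0_nat _ 8
  have hF : ∀ {e : ℕ} {φ : K⟦X⟧}, UU 2 φ ∈ Hom K e → UU 2 (φ * FF K * FF K) ∈ Hom K (e + 2) :=
    fun h => by
      rw [mul_assoc, ← sq, FF_sq0, UU_mul_VV two_ne_zero]
      exact mul_mem_Hom h wcoef_uF
  have hu : ∀ {e : ℕ} {φ : K⟦X⟧}, UU 2 φ ∈ Hom K e → UU 2 (φ * FF K) ∈ Hom K (e + 1) →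
      UU 2 (φ * uu K) ∈ Hom K (e + 1) := fun h h' => by
    rw [uu_split0, mul_add, map_add, UU_mul_VV two_ne_zero, mul_left_comm, h8]
    exact Submodule.add_mem _ (mul_mem_Hom h hA) (wcoef_mem 8 h')
  have key : ∀ a j : ℕ, UU 2 (uu K ^ a * FF K ^ j) ∈ Hom K (a + j) ∧
      UU 2 (uu K ^ a * FF K ^ j * FF K) ∈ Hom K (a + j + 1) := fun a j => by
    induction a with
    | zero =>
      rw [pow_zero, one_mul, zero_add]
      induction j with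
      | zero =>
        rw [pow_zero, one_mul, UU_FF0, ← VV_one (K := K) two_ne_zero, UU_VV two_ne_zero]
        exact ⟨one_mem_Hom, Submodule.zero_mem _⟩
      | succ j ih => exact pow_succ (FF K) j ▸ ⟨ih.2, hF ih.1⟩
    | succ a ih =>
      rw [pow_succ, mul_right_comm, mul_right_comm _ (uu K), add_right_comm]
      exact ⟨hu ih.1 ih.2, hu ih.2 (hF ih.1)⟩
  have : Hom K e ≤ (Hom K e).comap (UU 2) := by
    refine Submodule.span_le.2 ?_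
    rintro _ ⟨j, rfl⟩
    have h1 := (key (e - j) j).1
    rwa [Nat.sub_add_cancel (Nat.le_of_lt_succ j.2)] at h1
  exact this h

theorem hk_e2s {l : ℕ} (hl : l.Prime) :
    UU l (e2s ℂ) + (l : ℂ⟦X⟧) * VV l (e2s ℂ) = (1 + l) * e2s ℂ := by
  have hs : ∀ m : ℕ, coeff 0 (hk (fun d => (d : ℂ)) m 1) = (ArithmeticFunction.sigma 1 m : ℕ) :=
    fun m => by simp [coeff_hk, ArithmeticFunction.sigma_one_apply]
  ext n
  rw [add_mul, one_mul, ← nsmul_eq_mul, ← nsmul_eq_mul, map_add, map_add, map_nsmul, map_nsmul,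
    coeff_UU, coeff_VV]
  rcases eq_or_ne n 0 with rfl | hn
  · simp
  have h := congrArg (fun T : ℂ⟦X⟧ →ₗ[ℂ] ℂ⟦X⟧ => coeff 0 (T 1))
    (hk_mul_prime (ψ := fun d => (d : ℂ)) Nat.cast_one Nat.cast_mul hl hn)
  rw [hk_prime (ψ := fun d => (d : ℂ)) Nat.cast_one hl] at h
  simp only [LinearMap.comp_apply, LinearMap.add_apply, LinearMap.smul_apply, map_add, map_smul,
    coeff_UU, coeff_VV, mul_zero, dvd_zero, if_true, Nat.zero_div, hs, smul_eq_mul] at h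
  simp only [e2s, coeff_mk, if_neg hn, if_neg (mul_ne_zero hl.ne_zero hn), nsmul_eq_mul]
  split_ifs at h ⊢ with hd h0
  · exact absurd h0 (Nat.div_ne_zero_iff_of_dvd hd |>.2 ⟨hn, hl.ne_zero⟩)
  · rw [LinearMap.smul_apply, map_smul, hs, smul_eq_mul] at h
    linear_combination 24 * h
  · rw [LinearMap.zero_apply, map_zero] at h
    linear_combination 24 * h

/-- The analytic input from modular forms of level four. -/
structure Facts0 : Prop where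
  s1 : DD (uu ℂ) - C (1 / 6 : ℂ) * e2s ℂ * uu ℂ ∈ Hom ℂ 2
  s2 : DD (FF ℂ) - C (1 / 6 : ℂ) * e2s ℂ * FF ℂ ∈ Hom ℂ 2
  ram : 12 * DD (e2s ℂ) = e2s ℂ ^ 2 - e4s ℂ
  m4 : e4s ℂ ∈ Hom ℂ 2
  hk0 : ∀ l : ℕ, l.Prime → l ≠ 2 → ∀ e : ℕ, 1 ≤ e → ∀ φ ∈ Hom ℂ e,
    UU l φ + (l : ℂ) ^ (2 * e - 1) • VV l φ ∈ Hom ℂ e

theorem Facts0.facts (H : Facts0) : Facts := by
  obtain ⟨f0, f1, f2, -⟩ := wcoef_F (K := ℂ)
  obtain ⟨a0, a1, a2, -⟩ := wcoef_a (K := ℂ)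
  obtain ⟨b0, b1, b2, -⟩ := wcoef_b (K := ℂ)
  obtain ⟨c0, c1, c2, -⟩ := wcoef_c (K := ℂ)
  obtain ⟨u0, u1, -⟩ := wcoef_u (K := ℂ)
  have u2 : coeff 2 (uu ℂ) = 24 := by simpa using coeff_uu (K := ℂ) 2
  have e0 : coeff 0 (e2s ℂ) = 1 := by simp [e2s]
  have e1 : coeff 1 (e2s ℂ) = -24 := by simp [e2s]
  have e2 : coeff 2 (e2s ℂ) = -72 := by
    rw [e2s, coeff_mk, show ArithmeticFunction.sigma 1 2 = 3 by decide]; norm_num
  have h6 : (6 : ℂ⟦X⟧) * C (1 / 6 : ℂ) = 1 := by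
    rw [← map_ofNat (C : ℂ →+* ℂ⟦X⟧) 6, ← map_mul]; norm_num
  have s1 : 6 * DD (uu ℂ) - e2s ℂ * uu ℂ = 80 * (uu ℂ * FF ℂ) - uu ℂ ^ 2 := by
    refine eq_of_mem_Hom (by convert wcoef_mem 6 H.s1 using 1; linear_combination e2s ℂ * uu ℂ * h6)
      (Submodule.sub_mem _ (wcoef_mem 80 wcoef_uF) wcoef_uu) fun n hn => ?_
    rw [map_sub, map_sub, wcoef_nat, wcoef_nat, coeff_DD]
    interval_cases n
    · rw [wcoef_mul0 (e2s ℂ), e0, u0, a0, b0]; norm_num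
    · rw [wcoef_mul1 (e2s ℂ), e0, e1, u0, u1, a1, b1]; norm_num
    · rw [wcoef_mul2 (e2s ℂ), e0, e1, e2, u0, u1, u2, a2, b2]; norm_num
  have s2 : 6 * DD (FF ℂ) - e2s ℂ * FF ℂ = 5 * (uu ℂ * FF ℂ) - 16 * FF ℂ ^ 2 := by
    refine eq_of_mem_Hom (by convert wcoef_mem 6 H.s2 using 1; linear_combination e2s ℂ * FF ℂ * h6)
      (Submodule.sub_mem _ (wcoef_mem 5 wcoef_uF) (wcoef_mem 16 wcoef_FF)) fun n hn => ?_
    rw [map_sub, map_sub, wcoef_nat, wcoef_nat, wcoef_nat, coeff_DD]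
    interval_cases n
    · rw [wcoef_mul0 (e2s ℂ), e0, f0, b0, c0]; norm_num
    · rw [wcoef_mul1 (e2s ℂ), e0, e1, f0, f1, b1, c1]; norm_num
    · rw [wcoef_mul2 (e2s ℂ), e0, e1, e2, f0, f1, f2, b2, c2]; norm_num
  have ne : ∀ g : ℂ⟦X⟧, coeff 0 g = 1 → g ≠ 0 := fun g hg h => by simp [h] at hg
  have hQ : 6 * QQ ℂ = e2s ℂ + (80 * FF ℂ - uu ℂ) := mul_right_cancel₀ (ne _ u0) (by
    rw [DD_uu] at s1; linear_combination s1)
  have n6 : (6 : ℂ⟦X⟧) ≠ 0 := left_ne_zero_of_mul_eq_one h6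
  have d2 : DD (FF ℂ) - QQ ℂ * FF ℂ = uu ℂ * FF ℂ - 16 * FF ℂ ^ 2 := mul_left_cancel₀ n6 (by
    linear_combination s2 - FF ℂ * hQ)
  have m2 : DD (FF ℂ) - QQ ℂ * FF ℂ ∈ Hom ℂ 2 :=
    d2 ▸ Submodule.sub_mem _ wcoef_uF (wcoef_mem 16 wcoef_FF)
  have hh : 80 * FF ℂ - uu ℂ ∈ Hom ℂ 1 := Submodule.sub_mem _ (wcoef_mem 80 FF_mem_Hom) uu_mem_Hom
  have on : ∀ (T : ℂ⟦X⟧ →ₗ[ℂ] ℂ⟦X⟧) (n : ℕ) [n.AtLeastTwo] (g : ℂ⟦X⟧),
      T (ofNat(n) * g) = ofNat(n) * T g := fun T n _ => wfac0_nat T n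
  have m3 : DD (qq ℂ) - 2 * qq ℂ ^ 2 ∈ Hom ℂ 2 := by
    refine wfac0_div (n := 288) (by norm_num) ?_
    have h1 := congrArg DD hQ
    rw [QQ, on, on, map_add] at h1
    convert Submodule.add_mem _ (Submodule.sub_mem _ (wcoef_mem 12 (wfac0_serre m2 hh)) H.m4)
      (pow_mem_Hom hh 2) using 1
    rw [QQ] at hQ ⊢
    push_cast
    linear_combination 12 * h1 + H.ram - (24 * qq ℂ + e2s ℂ - (80 * FF ℂ - uu ℂ)) * hQ
  refine ⟨m2, m3, H.m4, ?_, fun l hl => ty_of_hk m2 m3 hl.ne_zero (fun e φ hφ => ?_) ?_⟩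
  · convert Submodule.sub_mem _ uu_mem_Hom (wcoef_mem 16 (FF_mem_Hom (K := ℂ))) using 1
    rw [jac0, sub_sub_cancel]
  · rw [adH_eq hl.ne_zero, pow_zero, pow_zero, mul_one, mul_one, add_zero]
    split_ifs with h2
    · subst h2
      rw [zero_mul, add_zero]
      exact natCast_mul_mem_Hom _ (UU_two_mem hφ)
    rcases e with _ | e
    · obtain ⟨c, rfl⟩ := wfac0_const hφ
      rw [map_smul, map_smul, ← VV_one (K := ℂ) hl.ne_zero, UU_VV hl.ne_zero, VV_one hl.ne_zero,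
        VV_one hl.ne_zero]
      simpa using Submodule.add_mem _ (natCast_mul_mem_Hom l hφ) hφ
    · convert natCast_mul_mem_Hom l (H.hk0 l hl h2 _ e.succ_pos φ hφ) using 1
      rw [← Nat.cast_pow (α := ℂ), Nat.cast_smul_eq_nsmul, nsmul_eq_mul, Nat.cast_pow,
        show 2 * (e + 1) = 2 * (e + 1) - 1 + 1 by omega, Nat.add_sub_cancel]
      ring
  · rw [adH_eq hl.ne_zero, pow_one, pow_one, one_mul, VV_one hl.ne_zero, kk, map_sub, wfac0_nat,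
      UU_VV hl.ne_zero]
    split_ifs with h2
    · subst h2
      have h1 := congrArg DD (uu_split0 (K := ℂ))
      rw [map_add, DD_VV two_ne_zero, on, DD_uu] at h1
      have h3 : QQ ℂ * VV 2 (uu ℂ + 16 * FF ℂ) = 2 * VV 2 (DD (uu ℂ + 16 * FF ℂ)) +
          8 * (FF ℂ * VV 2 (uu ℂ + 16 * FF ℂ) - 8 * VV 2 (uu ℂ * FF ℂ)) := by
        rw [← FF_sq0]
        linear_combination h1 + 8 * d2 - (QQ ℂ - 8 * FF ℂ) * uu_split0 (K := ℂ)
      have h4 := congrArg (UU 2) h3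
      rw [UU_mul_VV two_ne_zero, map_add, on, on, map_sub, on, UU_mul_VV two_ne_zero,
        UU_VV two_ne_zero, UU_VV two_ne_zero, UU_FF0, map_add, on, DD_uu] at h4
      have h5 : UU 2 (QQ ℂ) = 2 * QQ ℂ - 32 * FF ℂ := mul_right_cancel₀
        (ne (uu ℂ + 16 * FF ℂ) (by rw [map_add, wcoef_nat, u0, f0]; norm_num)) (by
          linear_combination h4 + 32 * d2)
      convert Submodule.neg_mem _ (wcoef_mem 64 (FF_mem_Hom (K := ℂ))) using 1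
      rw [h5]
      push_cast
      ring
    · refine wfac0_div (n := 6) (by norm_num) ?_
      have h1 := H.hk0 l hl h2 1 le_rfl _ hh
      rw [pow_one, Nat.cast_smul_eq_nsmul, nsmul_eq_mul] at h1
      have h3 := congrArg (UU l) hQ
      have h4 := congrArg (VV l) hQ
      rw [on, map_add] at h3 h4
      convert natCast_mul_mem_Hom l (Submodule.sub_mem _ h1 (natCast_mul_mem_Hom (1 + l) hh)) using 1
      push_cast
      linear_combination l * h3 + (l : ℂ⟦X⟧) ^ 2 * h4 - l * (1 + l) * hQ + l * hk_e2s hl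

end Pool.Agent.Lib.MP_bcfefa_nt.W
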