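import Pool.Agent.Lib.MP_bcfefa_nt.WBr
import Pool.Agent.Lib.MP_bcfefa_nt.WFac0

/-!
The facts on level four, and the injectivity theorem.
-/

set_option autoImplicit false

noncomputable section

namespace Pool.Agent.Lib.MP_bcfefa_nt.W

open PowerSeries Finset CongruenceSubgroup UpperHalfPlane
open Pool.Agent.Lib.MP_88d29b_nt.G
open scoped MatrixGroups ModularForm Manifold

theorem facts0 : Facts0 where
  s1 := by simpa [e2s, e2c] using serre_mem_Hom (uu_mem_Hom (K := ℂ))
  s2 := by simpa [e2s, e2c] using serre_mem_Hom (FF_mem_Hom (K := ℂ))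
  ram := ram_e2c
  m4 := e4s_mem_Hom
  hk0 := fun l hl h2 e he φ hφ => by
    have h := hecke_mem_Hom hl h2 hφ
    rwa [show ((2 * e : ℕ) : ℤ) - 1 = ((2 * e - 1 : ℕ) : ℤ) by omega, zpow_natCast] at h

theorem inj {μ : ℕ} (hμ : Even μ) (h0 : 0 < μ) : B.Inj μ := inj_of_facts facts0.facts hμ h0

end Pool.Agent.Lib.MP_bcfefa_nt.W
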