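import Pool.Agent.Lib.MP_bcfefa_nt.HMain

set_option autoImplicit false

open Pool.Agent.Lib.MP_bcfefa_nt Complex

namespace Pool.Agent.Lib.MP_bcfefa_nt.Pid

theorem result (τ : ℂ) (a b : ℤ) (hτ : τ ^ 2 = a + b * τ) (him : 0 < τ.im)
    (hpid : IsPrincipalIdealRing (Zw τ)) (f : Zw τ) (hf : f ≠ 0)
    (χ : Ch f) (hprim : IsPrim f χ) (hneb : TrivNeb (b ^ 2 + 4 * a) f χ)
    (k₀ : ℕ) (hk : 2 ≤ k₀) (he : Even k₀) (hu : UnitOk f χ k₀)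
    (hW : HasSign (coef f χ k₀) (-((b ^ 2 + 4 * a : ℤ) : ℝ) * normSq (f : ℂ)) k₀ (-1))
    (m : ℕ) (hm : 0 < m) :
    ∃ c : ℝ, 0 < c ∧ ∃ X₀ : ℝ, ∀ X : ℝ, X₀ ≤ X →
      c * X ≤ ({k : ℕ | (k : ℝ) ≤ X ∧ k ≡ k₀ [MOD m] ∧ HasOrd (coef f χ k) k 1}.ncard : ℝ) := by
  obtain ⟨j, rfl⟩ := he
  rw [← two_mul] at *
  have hodd : ev χ (-1 : Zw τ) = -1 := by
    have h := hu (-1)
    have h2 : Odd (2 * j - 1) := ⟨j - 1, by omega⟩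
    rw [Units.val_neg, Units.val_one, Subring.coe_neg, Subring.coe_one, h2.neg_one_pow] at h
    linear_combination -h
  exact Hk.main ⟨τ, a, b, hτ, him, hpid, f, hf, χ, hprim, hneb, hodd⟩ (by omega) hu hW hm

end Pool.Agent.Lib.MP_bcfefa_nt.Pid
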