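import Mathlib

/-! Definitions used in the statement: the ring, primitive characters, theta coefficients, root number
and order of vanishing. -/

set_option autoImplicit false

noncomputable section

namespace Pool.Agent.Lib.MP_bcfefa_nt

open Complex
open scoped Real

/-- The subring `ℤ[τ]` of the complex numbers. -/
def Zw (τ : ℂ) : Subring ℂ := Subring.closure {τ}

/-- Characters modulo `f`, extended by zero to the classes that are not invertible. -/
abbrev Ch {R : Type} [CommRing R] (f : R) : Type := MulChar (R ⧸ Ideal.span {f}) ℂ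

/-- The value of `χ` at the class of `a`. -/
abbrev ev {R : Type} [CommRing R] {f : R} (χ : Ch f) (a : R) : ℂ := χ (Ideal.Quotient.mk _ a)

/-- The character `χ` modulo `f` is not induced from a proper divisor of `f`. -/
def IsPrim {R : Type} [CommRing R] (f : R) (χ : Ch f) : Prop :=
  ∀ g : R, g ∣ f → ¬f ∣ g → ∃ a : R, IsCoprime a f ∧ g ∣ a - 1 ∧ ev χ a ≠ 1

open Classical in
/-- The quadratic character of the field at the prime `p`: zero if `p` divides the discriminant `D`, minus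
one if `p` stays prime in `ℤ[τ]`, one otherwise. -/
def eps (τ : ℂ) (D : ℤ) (p : ℕ) : ℂ :=
  if (p : ℤ) ∣ D then 0 else if Prime (p : Zw τ) then -1 else 1

/-- The `m`-th coefficient of the theta series of weight `k` of the Hecke character
`(α) ↦ χ(α) α ^ (k - 1)`. -/
def coef {τ : ℂ} (f : Zw τ) (χ : Ch f) (k m : ℕ) : ℂ :=
  (Nat.card (Zw τ)ˣ : ℂ)⁻¹ * ∑ᶠ α ∈ {α : Zw τ | normSq (α : ℂ) = m}, ev χ α * (α : ℂ) ^ (k - 1)

/-- Trivial nebentype: at the primes `p` prime to `f` the character is the quadratic character. -/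
def TrivNeb {τ : ℂ} (D : ℤ) (f : Zw τ) (χ : Ch f) : Prop :=
  ∀ p : ℕ, p.Prime → IsCoprime (p : Zw τ) f → ev χ (p : Zw τ) = eps τ D p

/-- The function `α ↦ χ(α) α ^ (k - 1)` is trivial on the units. -/
def UnitOk {τ : ℂ} (f : Zw τ) (χ : Ch f) (k : ℕ) : Prop :=
  ∀ u : (Zw τ)ˣ, ev χ (u : Zw τ) * ((u : Zw τ) : ℂ) ^ (k - 1) = 1

/-- The completed `L`-series of level `N` and weight `k` is entire and has root number `w`. -/
def HasSign (a : ℕ → ℂ) (N : ℝ) (k : ℕ) (w : ℂ) : Prop :=
  ∃ Λ : ℂ → ℂ, Differentiable ℂ Λ ∧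
    (∀ s : ℂ, (k : ℝ) + 1 < s.re → Λ s = ((√N / (2 * π) : ℝ) : ℂ) ^ s * Gamma s * LSeries a s) ∧
    ∀ s : ℂ, Λ (k - s) = w * Λ s

/-- The `L`-series continues to an entire function that vanishes to order exactly `r` at `s = k / 2`. -/
def HasOrd (a : ℕ → ℂ) (k r : ℕ) : Prop :=
  ∃ F : ℂ → ℂ, Differentiable ℂ F ∧ (∀ s : ℂ, (k : ℝ) + 1 < s.re → F s = LSeries a s) ∧
    analyticOrderAt F (k / 2) = r

end Pool.Agent.Lib.MP_bcfefa_nt
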