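import Mathlib

/-!
Formal power series side of the level one non-vanishing theorem: definitions.
`q = X`, `th = ∑ q ^ (r ^ 2)`, `uu = th ^ 4`, `FF = ∑ σ(2 n + 1) q ^ (2 n + 1)`.
-/

set_option autoImplicit false

noncomputable section

namespace Pool.Agent.Lib.MP_bcfefa_nt.W

open PowerSeries Finset

section General

variable {K : Type*} [CommRing K]

/-- The derivation `q d/dq`. -/
def DD : K⟦X⟧ →ₗ[K] K⟦X⟧ where
  toFun φ := mk fun n => (n : K) * coeff n φ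
  map_add' φ ψ := by ext n; simp [mul_add]
  map_smul' c φ := by ext n; simp [mul_left_comm]

/-- `∑ a n q ^ n ↦ ∑ a (m n) q ^ n`. -/
def UU (m : ℕ) : K⟦X⟧ →ₗ[K] K⟦X⟧ where
  toFun φ := mk fun n => coeff (m * n) φ
  map_add' φ ψ := by ext n; simp
  map_smul' c φ := by ext n; simp

/-- `∑ a n q ^ n ↦ ∑ a n q ^ (m n)`. -/
def VV (m : ℕ) : K⟦X⟧ →ₗ[K] K⟦X⟧ where
  toFun φ := mk fun n => if m ∣ n then coeff (n / m) φ else 0
  map_add' φ ψ := by ext n; by_cases h : m ∣ n <;> simp [h]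
  map_smul' c φ := by ext n; by_cases h : m ∣ n <;> simp [h]

/-- The part with exponents `r` modulo `m`. -/
def pr (m r : ℕ) : K⟦X⟧ →ₗ[K] K⟦X⟧ where
  toFun φ := mk fun n => if n % m = r then coeff n φ else 0
  map_add' φ ψ := by ext n; by_cases h : n % m = r <;> simp [h]
  map_smul' c φ := by ext n; by_cases h : n % m = r <;> simp [h]

/-- All exponents are `r` modulo `m`. -/
def Cls (m r : ℕ) (φ : K⟦X⟧) : Prop := ∀ n, n % m ≠ r → coeff n φ = 0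

/-- Formal Hecke operator, `ψ d` playing the role of `χ(d) d ^ (k - 1)`. -/
def hk (ψ : ℕ → K) (m : ℕ) : K⟦X⟧ →ₗ[K] K⟦X⟧ where
  toFun φ := mk fun n => ∑ d ∈ (Nat.gcd m n).divisors, ψ d * coeff (m * n / d ^ 2) φ
  map_add' φ φ' := by ext n; simp [mul_add, sum_add_distrib]
  map_smul' c φ := by ext n; simp [mul_sum, mul_left_comm]

/-- Formal first Shimura lift (constant term `0`). -/
def shim (ψ : ℕ → K) : K⟦X⟧ →ₗ[K] K⟦X⟧ where
  toFun φ := mk fun M => ∑ d ∈ M.divisors, ψ d * coeff ((M / d) ^ 2) φ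
  map_add' φ φ' := by ext n; simp [mul_add, sum_add_distrib]
  map_smul' c φ := by ext n; simp [mul_sum, mul_left_comm]

/-- Twist by the Jacobi symbol modulo `l`. -/
def tw (l : ℕ) : K⟦X⟧ →ₗ[K] K⟦X⟧ where
  toFun φ := mk fun n => ((jacobiSym (n : ℤ) l : ℤ) : K) * coeff n φ
  map_add' φ ψ := by ext n; simp [mul_add]
  map_smul' c φ := by ext n; simp [mul_left_comm]

/-- Formal Hecke operator `T(l ^ 2)` in weight `lam + 1 / 2`, `lam` even. -/
def thk (l lam : ℕ) : K⟦X⟧ →ₗ[K] K⟦X⟧ :=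
  UU (l ^ 2) + ((l : K) ^ (lam - 1)) • tw l + ((l : K) ^ (2 * lam - 1)) • VV (l ^ 2)

end General

/-- Number of integers with square `n`. -/
def thc (n : ℕ) : ℤ := if IsSquare n then (if n = 0 then 1 else 2) else 0

/-- Indicator of odd squares. -/
def occ (n : ℕ) : ℤ := if IsSquare n ∧ n % 2 = 1 then 1 else 0

section Series

variable (K : Type*) [CommRing K]

/-- `1 + 2 q + 2 q ^ 4 + ...`. -/
def th : K⟦X⟧ := mk fun n => ((thc n : ℤ) : K)

/-- `q + q ^ 9 + q ^ 25 + ...`. -/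
def oc : K⟦X⟧ := mk fun n => ((occ n : ℤ) : K)

/-- `1 + q ^ 2 + q ^ 6 + ...`. -/
def psi : K⟦X⟧ := mk fun n => ((occ (4 * n + 1) : ℤ) : K)

/-- `1 - 2 q + 2 q ^ 4 - ...`. -/
def th' : K⟦X⟧ := rescale (-1) (th K)

/-- `1 + 8 q + 24 q ^ 2 + 32 q ^ 3 + ...`. -/
def uu : K⟦X⟧ := th K ^ 4

/-- `q + 4 q ^ 3 + 6 q ^ 5 + ...`. -/
def FF : K⟦X⟧ := X * psi K ^ 4

/-- The logarithmic derivative of `th`: `2 q - 4 q ^ 2 + 8 q ^ 3 - ...`. -/
def qq : K⟦X⟧ := DD (th K) * invOfUnit (th K) 1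

/-- The logarithmic derivative of `uu`. -/
def QQ : K⟦X⟧ := 4 * qq K

/-- The Eisenstein series of weight four. -/
def e4s : K⟦X⟧ := mk fun n => if n = 0 then 1 else 240 * ((ArithmeticFunction.sigma 3 n : ℕ) : K)

/-- Homogeneous polynomials of degree `e` in `uu` and `FF`. -/
def Hom (e : ℕ) : Submodule K K⟦X⟧ :=
  Submodule.span K (Set.range fun j : Fin (e + 1) => uu K ^ (e - (j : ℕ)) * FF K ^ (j : ℕ))

variable {K}

/-- The homogeneous polynomial with coefficients `p`. -/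
def hom (e : ℕ) (p : ℕ → K) : K⟦X⟧ := ∑ j ∈ range (e + 1), p j • (uu K ^ (e - j) * FF K ^ j)

/-- Expansion of `∑ δ, (f | δ) (Q | δ - Q) ^ k` over the Hecke representatives of level four,
for `f` of weight `2 e`, times `l ^ (e + k)`. -/
def adH (l e k : ℕ) (φ : K⟦X⟧) : K⟦X⟧ :=
  ∑ i ∈ range (k + 1), (k.choose i : K⟦X⟧) * (-(l : K⟦X⟧) * QQ K) ^ (k - i) *
    ((l : K⟦X⟧) * UU l (φ * QQ K ^ i) +
      if l = 2 then 0 else (l : K⟦X⟧) ^ (2 * e + 2 * i) * VV l (φ * QQ K ^ i))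

/-- Expansion of the plus form attached to a pair of level one forms of weights `μ + 2`, `μ`. -/
def pkc (μ : K) (a b : K⟦X⟧) : K⟦X⟧ :=
  th K * (VV 4 a + 2 * VV 4 (DD b)) - C μ * DD (th K) * VV 4 b

end Series

/-- The input from modular forms of level four. -/
structure Facts : Prop where
  m2 : DD (FF ℂ) - QQ ℂ * FF ℂ ∈ Hom ℂ 2
  m3 : DD (qq ℂ) - 2 * qq ℂ ^ 2 ∈ Hom ℂ 2
  m4 : e4s ℂ ∈ Hom ℂ 2
  mj : th' ℂ ^ 4 ∈ Hom ℂ 1
  ty : ∀ l : ℕ, l.Prime → ∀ e k : ℕ, ∀ φ ∈ Hom ℂ e, adH l e k φ ∈ Hom ℂ (e + k)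

section Three

/-- The field with three elements. -/
abbrev F3 : Type := ZMod 3

/-- Reduction modulo three. -/
def red : ℤ⟦X⟧ →+* F3⟦X⟧ := PowerSeries.map (Int.castRingHom F3)

/-- Evaluation of a polynomial at `uu`. -/
def ev : Polynomial F3 →ₐ[F3] F3⟦X⟧ := Polynomial.aeval (uu F3)

/-- Polynomials in `uu` of degree less than `n`. -/
def Rlt (n : ℕ) : Submodule F3 F3⟦X⟧ := (Polynomial.degreeLT F3 n).map ev.toLinearMap

/-- Polynomials in `uu` of degree less than `n` whose expansion has no constant term. -/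
def R0 (n : ℕ) : Submodule F3 F3⟦X⟧ := Rlt n ⊓ LinearMap.ker (coeff 0)

/-- `d` for odd `d`, `0` for even `d`. -/
def ψ3 (d : ℕ) : F3 := if d % 2 = 1 then (d : F3) else 0

/-- Hecke operators of level four modulo three. -/
def T3 (m : ℕ) : Module.End F3 F3⟦X⟧ := hk ψ3 m

/-- Multiplication by `qq`. -/
def mQ : Module.End F3 F3⟦X⟧ := LinearMap.mulLeft F3 (qq F3)

/-- Twisted commutator with `qq`. -/
def ad (χ : F3) (τ : Module.End F3 F3⟦X⟧) : Module.End F3 F3⟦X⟧ := τ * mQ - χ • (mQ * τ)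

/-- The `k`-th twisted commutator raises the degree by at most `e + k`. -/
def Ty (χ : F3) (e : ℕ) (τ : Module.End F3 F3⟦X⟧) : Prop :=
  ∀ k n : ℕ, ∀ x ∈ Rlt n, (ad χ)^[k] τ x ∈ Rlt (n + e + k)

/-- `u ^ 3 - u = q + ...`, all exponents `1` modulo three. -/
def NN : F3⟦X⟧ := uu F3 ^ 3 - uu F3

/-- A triangular family, `Em m = q ^ m + ...`, all exponents `m` modulo three. -/
def Em (m : ℕ) : F3⟦X⟧ := NN ^ (m % 3) * FF F3 ^ (3 * (m / 3))

/-- Defined by `T3 m = ∑ β ≤ m, coeff m (Em β) • tau β`. -/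
def tau : ℕ → Module.End F3 F3⟦X⟧
  | m => T3 m - ∑ β : Fin m, coeff m (Em β) • tau β
decreasing_by exact β.2

/-- `∑ m prime to 3, q ^ m VV 3 (T3 m b)`. -/
def Psi (b : F3⟦X⟧) : F3⟦X⟧ :=
  mk fun N => ∑ x ∈ antidiagonal N, if 3 ∣ x.1 then 0 else coeff x.2 (VV 3 (T3 x.1 b))

/-- `∑ r > 0 prime to 3, q ^ (r ^ 2)`. -/
def dl : F3⟦X⟧ := th F3 ^ 9 - th F3

end Three

section Two

/-- The class one part of `(1 + k) ^ (4 (e - j) + 1) (p + k) ^ (4 j)` divided by `k`, after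
replacing `k ^ 3` by `4 p (1 + p)`. -/
def sj (e j : ℕ) : Polynomial ℚ :=
  ∑ i ∈ range (4 * e + 2), if i % 3 = 1 then
    ((1 + Polynomial.X) ^ (4 * (e - j) + 1) *
      (Polynomial.C Polynomial.X + Polynomial.X) ^ (4 * j) : Polynomial (Polynomial ℚ)).coeff i *
      (4 * Polynomial.X * (1 + Polynomial.X)) ^ (i / 3) else 0

end Two

end Pool.Agent.Lib.MP_bcfefa_nt.W
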