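import Pool.Agent.Lib.MP_bcfefa_nt.WCoef

/-!
The modular equation of degree three, from `T3_one`, `T3_two` and Jacobi's identity.
-/

set_option autoImplicit false

noncomputable section

namespace Pool.Agent.Lib.MP_bcfefa_nt.W

open PowerSeries Finset

lemma wa2a_num {m : ℕ} (hm : m ≠ 0) (n : ℕ) [n.AtLeastTwo] (φ : ℚ⟦X⟧) :
    VV m ((OfNat.ofNat n : ℚ⟦X⟧) * φ) = (OfNat.ofNat n : ℚ⟦X⟧) * VV m φ := by
  rw [VV_mul hm, ← Nat.cast_ofNat, VV_natCast hm]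

lemma wa2a_cls (n : ℕ) [n.AtLeastTwo] : Cls 3 0 (OfNat.ofNat n : ℚ⟦X⟧) := by
  rw [← Nat.cast_ofNat]
  exact cls_natCast 3 _

lemma wa2a_ne (n : ℕ) [n.AtLeastTwo] : (OfNat.ofNat n : ℚ⟦X⟧) ≠ 0 := by
  have : CharZero ℚ⟦X⟧ := algebraRat.charZero _
  exact OfNat.ofNat_ne_zero n

lemma wa2a_pr0 {A B C : ℚ⟦X⟧} (hA : Cls 3 0 A) (hB : Cls 3 1 B) (hC : Cls 3 2 C) :
    pr 3 0 (A + B + C) = A := by
  rw [map_add, map_add, hA.pr_self, hB.pr_ne (by norm_num), hC.pr_ne (by norm_num), add_zero,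
    add_zero]

lemma wa2a_pr2 {A B C : ℚ⟦X⟧} (hA : Cls 3 0 A) (hB : Cls 3 1 B) (hC : Cls 3 2 C) :
    pr 3 2 (A + B + C) = C := by
  rw [map_add, map_add, hC.pr_self, hA.pr_ne (by norm_num), hB.pr_ne (by norm_num), zero_add,
    zero_add]

lemma wa2a_four {P R : ℚ⟦X⟧} (hP : Cls 3 0 P) (hR : Cls 3 1 R) :
    Cls 3 0 (P ^ 4 + 4 * P * R ^ 3) ∧ Cls 3 1 (4 * P ^ 3 * R + R ^ 4) ∧
      Cls 3 2 (6 * P ^ 2 * R ^ 2) :=
  ⟨Cls.add (hP.pow 4) (((wa2a_cls 4).mul hP).mul (hR.pow 3)),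
    Cls.add (((wa2a_cls 4).mul (hP.pow 3)).mul hR) (hR.pow 4),
    ((wa2a_cls 6).mul (hP.pow 2)).mul (hR.pow 2)⟩

lemma wa2a_exp (P R : ℚ⟦X⟧) :
    (P + R) ^ 4 = (P ^ 4 + 4 * P * R ^ 3) + (4 * P ^ 3 * R + R ^ 4) + 6 * P ^ 2 * R ^ 2 := by
  ring

lemma wa2a_T {φ : ℚ⟦X⟧} (c d : ℕ) [c.AtLeastTwo] [d.AtLeastTwo]
    (h : UU 3 φ + (OfNat.ofNat c : ℚ⟦X⟧) * VV 3 φ = (OfNat.ofNat d : ℚ⟦X⟧) * φ) :
    UU 3 (VV 4 φ) + (OfNat.ofNat c : ℚ⟦X⟧) * VV 3 (VV 4 φ) =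
      (OfNat.ofNat d : ℚ⟦X⟧) * VV 4 φ := by
  have h1 := congrArg (VV 4) h
  rw [map_add, wa2a_num (by norm_num), wa2a_num (by norm_num),
    ← UU_VV_comm (by norm_num) (by norm_num), VV_VV (by norm_num) (by norm_num)] at h1
  rw [VV_VV (by norm_num) (by norm_num)]
  exact h1

lemma wa2a_th : VV 4 (th ℚ) ^ 4 = VV 4 (uu ℚ) := by
  rw [uu, VV_pow (by norm_num)]

lemma wa2a_nine (φ : ℚ⟦X⟧) : VV 9 (VV 4 φ ^ 4) = VV 36 φ ^ 4 := by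
  rw [VV_pow (by norm_num), VV_VV (by norm_num) (by norm_num)]

/-- The class zero part of `(P + R) ^ 4` is `P ^ 4 + 4 P R ^ 3`; it is also
`VV 3 (UU 3 x) = 4 VV 3 x - 3 VV 9 x`. -/
lemma VV_three_pow_four {P R : ℚ⟦X⟧} (hP : Cls 3 0 P) (hR : Cls 3 1 R)
    (h9 : VV 9 ((P + R) ^ 4) = P ^ 4)
    (hT : UU 3 ((P + R) ^ 4) + 3 * VV 3 ((P + R) ^ 4) = 4 * (P + R) ^ 4) :
    VV 3 ((P + R) ^ 4) = P ^ 4 + P * R ^ 3 := by
  obtain ⟨h0, h1, h2⟩ := wa2a_four hP hR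
  have h := congrArg (VV 3) hT
  rw [map_add, wa2a_num (by norm_num), wa2a_num (by norm_num), VV_UU (by norm_num),
    VV_VV (by norm_num) (by norm_num), h9] at h
  have h3 : pr 3 0 ((P + R) ^ 4) = P ^ 4 + 4 * P * R ^ 3 := by
    rw [wa2a_exp, wa2a_pr0 h0 h1 h2]
  rw [h3] at h
  apply mul_left_cancel₀ (wa2a_ne 4)
  linear_combination -h

/-- Compare class zero parts in `hT''`. With `κ = R / P`, `κ' = R' / P'` one gets
`(κ - κ') ^ 2 (4 (κ + κ') - κ ^ 2 κ' ^ 2) = 0`. -/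
theorem modular_eq {P R P' R' : ℚ⟦X⟧} (hP : Cls 3 0 P) (hR : Cls 3 1 R) (hP' : Cls 3 0 P')
    (hR' : Cls 3 1 R') (h9 : VV 9 ((P + R) ^ 4) = P ^ 4) (h9' : VV 9 ((P' + R') ^ 4) = P' ^ 4)
    (hT : UU 3 ((P + R) ^ 4) + 3 * VV 3 ((P + R) ^ 4) = 4 * (P + R) ^ 4)
    (hT' : UU 3 ((P' + R') ^ 4) + 3 * VV 3 ((P' + R') ^ 4) = 4 * (P' + R') ^ 4)
    (hT'' : UU 3 ((P + R) ^ 4 * (P' + R') ^ 4) + 27 * VV 3 ((P + R) ^ 4 * (P' + R') ^ 4) =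
      28 * ((P + R) ^ 4 * (P' + R') ^ 4))
    (hne : R * P' ≠ R' * P) :
    R ^ 2 * R' ^ 2 = 4 * P * P' * (R * P' + R' * P) := by
  obtain ⟨a0, a1, a2⟩ := wa2a_four hP hR
  obtain ⟨b0, b1, b2⟩ := wa2a_four hP' hR'
  have h := congrArg (VV 3) hT''
  rw [map_add, wa2a_num (by norm_num), wa2a_num (by norm_num), VV_UU (by norm_num),
    VV_VV (by norm_num) (by norm_num), VV_mul (by norm_num), VV_mul (by norm_num), h9, h9',
    VV_three_pow_four hP hR h9 hT, VV_three_pow_four hP' hR' h9' hT'] at h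
  have h3 := wa2a_pr0 (((a0.mul b0).add (a1.mul b2)).add (a2.mul b1))
    (((a0.mul b1).add (a1.mul b0)).add (a2.mul b2))
    (((a0.mul b2).add (a1.mul b1)).add (a2.mul b0))
  have h4 : pr 3 0 ((P + R) ^ 4 * (P' + R') ^ 4) =
      (P ^ 4 + 4 * P * R ^ 3) * (P' ^ 4 + 4 * P' * R' ^ 3) +
        (4 * P ^ 3 * R + R ^ 4) * (6 * P' ^ 2 * R' ^ 2) +
        6 * P ^ 2 * R ^ 2 * (4 * P' ^ 3 * R' + R' ^ 4) := by
    rw [← h3]
    congr 1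
    ring
  rw [h4] at h
  apply mul_left_cancel₀ (mul_ne_zero (wa2a_ne 6) (pow_ne_zero 2 (sub_ne_zero.2 hne)))
  linear_combination h

/-- Pure algebra in a domain: `κ₁, κ'` are the two roots of `κ ^ 2 x ^ 2 - 4 x - 4 κ`. -/
theorem beta_eq {A : Type*} [CommRing A] [IsDomain A] [CharZero A] {P R P1 R1 P' R' : A}
    (hP : P ≠ 0) (hR : R ≠ 0) (hP1 : P1 ≠ 0) (hR1 : R1 ≠ 0) (hP' : P' ≠ 0)
    (h1 : R ^ 2 * R1 ^ 2 = 4 * P * P1 * (R * P1 + R1 * P))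
    (h2 : R ^ 2 * R' ^ 2 = 4 * P * P' * (R * P' + R' * P)) (hne : R1 * P' ≠ R' * P1)
    (h3 : P ^ 4 = P' ^ 4 + 16 * P1 ^ 4)
    (h4 : P ^ 2 * R ^ 2 = P' ^ 2 * R' ^ 2 + 16 * P1 ^ 2 * R1 ^ 2) :
    16 * P1 * R1 ^ 3 * (P * R1 + 2 * R * P1) = P * R ^ 3 * (2 * P * R1 + R * P1) := by
  have h5 : R ^ 2 * (R1 * P' + R' * P1) = 4 * P ^ 2 * P1 * P' := by
    apply mul_left_cancel₀ (sub_ne_zero.2 hne)
    linear_combination P' ^ 2 * h1 - P1 ^ 2 * h2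
  have h6 : R * R1 * R' = -4 * P * P1 * P' := by
    apply mul_left_cancel₀ (mul_ne_zero hR hP1)
    linear_combination R1 * h5 - P' * h1
  have h7 : P ^ 2 * (R ^ 2 * P' ^ 2 - P ^ 2 * R' ^ 2) =
      16 * P1 ^ 2 * (R1 ^ 2 * P' ^ 2 - P1 ^ 2 * R' ^ 2) := by
    linear_combination P' ^ 2 * h4 - R' ^ 2 * h3
  have h8 : P ^ 2 * (R ^ 4 * R1 ^ 2 - 16 * P ^ 4 * P1 ^ 2) =
      16 * P1 ^ 2 * (R ^ 2 * R1 ^ 4 - 16 * P ^ 2 * P1 ^ 4) := by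
    apply mul_left_cancel₀ (pow_ne_zero 2 hP')
    linear_combination R ^ 2 * R1 ^ 2 * h7 +
      (P ^ 4 - 16 * P1 ^ 4) * (R * R1 * R' - 4 * P * P1 * P') * h6
  apply mul_left_cancel₀
    (mul_ne_zero (mul_ne_zero hP hP1) (mul_ne_zero (pow_ne_zero 2 hR) (pow_ne_zero 2 hR1)))
  linear_combination -(R * P1 + R1 * P) ^ 2 * h8 +
    (P ^ 4 - 16 * P1 ^ 4) * (R ^ 2 * R1 ^ 2 + 4 * P * P1 * (R * P1 + R1 * P)) * h1

/-- `modular_eq` for `VV 4 th` and `oc` (`VV_FF`, `UU_VV_comm`, `VV_VV`); the two products in `hne`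
differ at `q ^ 1`. -/
theorem I1 (H : Facts) :
    (VV 4 (th ℚ) - VV 36 (th ℚ)) ^ 2 * (oc ℚ - VV 9 (oc ℚ)) ^ 2 =
      4 * VV 36 (th ℚ) * VV 9 (oc ℚ) * ((VV 4 (th ℚ) - VV 36 (th ℚ)) * VV 9 (oc ℚ) +
        (oc ℚ - VV 9 (oc ℚ)) * VV 36 (th ℚ)) := by
  have e1 : VV 36 (th ℚ) + (VV 4 (th ℚ) - VV 36 (th ℚ)) = VV 4 (th ℚ) := add_sub_cancel _ _
  have e2 : VV 9 (oc ℚ) + (oc ℚ - VV 9 (oc ℚ)) = oc ℚ := add_sub_cancel _ _
  refine modular_eq (cls_VV_of_dvd (by norm_num) _) cls_th_sub (cls_VV_of_dvd (by norm_num) _)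
    cls_oc_sub ?_ ?_ ?_ ?_ ?_ ?_
  · rw [e1, wa2a_nine]
  · rw [e2, VV_pow (by norm_num)]
  · rw [e1, wa2a_th]
    exact wa2a_T 3 4 (H.T3_one uu_mem_Hom)
  · rw [e2, ← VV_FF]
    exact wa2a_T 3 4 (H.T3_one FF_mem_Hom)
  · rw [e1, e2, wa2a_th, ← VV_FF, ← VV_mul four_ne_zero (uu ℚ) (FF ℚ)]
    exact wa2a_T 27 28 (H.T3_two (mul_mem_Hom (e := 1) (e' := 1) uu_mem_Hom FF_mem_Hom))
  · intro h
    have h1 := congrArg (coeff 1) h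
    simp [coeff_mul, Finset.Nat.antidiagonal_succ, coeff_VV, coeff_th, coeff_oc, thc, occ] at h1

/-- `modular_eq` for `VV 4 th` and `VV 4 th'` (`Facts.jac`; the products differ at `q ^ 4`), then
`beta_eq`; `h3`, `h4` come from `VV 4 th ^ 4 = VV 4 th' ^ 4 + 16 oc ^ 4` (apply `VV 9`, `pr 3 2`). -/
theorem I2 (H : Facts) :
    16 * VV 9 (oc ℚ) * (oc ℚ - VV 9 (oc ℚ)) ^ 3 *
        (VV 36 (th ℚ) * (oc ℚ - VV 9 (oc ℚ)) + 2 * (VV 4 (th ℚ) - VV 36 (th ℚ)) * VV 9 (oc ℚ)) =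
      VV 36 (th ℚ) * (VV 4 (th ℚ) - VV 36 (th ℚ)) ^ 3 *
        (2 * VV 36 (th ℚ) * (oc ℚ - VV 9 (oc ℚ)) + (VV 4 (th ℚ) - VV 36 (th ℚ)) * VV 9 (oc ℚ)) := by
  have e1 : VV 36 (th ℚ) + (VV 4 (th ℚ) - VV 36 (th ℚ)) = VV 4 (th ℚ) := add_sub_cancel _ _
  have e2 : VV 9 (oc ℚ) + (oc ℚ - VV 9 (oc ℚ)) = oc ℚ := add_sub_cancel _ _
  have e3 : VV 36 (th' ℚ) + (VV 4 (th' ℚ) - VV 36 (th' ℚ)) = VV 4 (th' ℚ) := add_sub_cancel _ _
  have hm : th' ℚ ^ 4 ∈ Hom ℚ 1 := by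
    rw [H.jac]
    exact Submodule.sub_mem _ uu_mem_Hom (by
      simpa using natCast_mul_mem_Hom 16 (FF_mem_Hom (K := ℚ)))
  have c0 : coeff 0 (th' ℚ) = 1 := by simp only [th', coeff_rescale, coeff_th]; simp [thc]
  have c1 : coeff 1 (th' ℚ) = -2 := by simp only [th', coeff_rescale, coeff_th]; simp [thc]
  have d0 : coeff 0 (th ℚ) = 1 := by rw [coeff_th]; simp [thc]
  have d1 : coeff 1 (th ℚ) = 2 := by rw [coeff_th]; simp [thc]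
  have o0 : coeff 0 (oc ℚ) = 0 := by rw [coeff_oc]; simp [occ]
  have o1 : coeff 1 (oc ℚ) = 1 := by rw [coeff_oc]; simp [occ]
  have hP0 : Cls 3 0 (VV 36 (th ℚ)) := cls_VV_of_dvd (by norm_num) _
  have hP1 : Cls 3 0 (VV 9 (oc ℚ)) := cls_VV_of_dvd (by norm_num) _
  have hP2 : Cls 3 0 (VV 36 (th' ℚ)) := cls_VV_of_dvd (by norm_num) _
  have h2 := modular_eq hP0 cls_th_sub hP2 cls_th'_sub (by rw [e1, wa2a_nine])
    (by rw [e3, wa2a_nine]) (by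
      rw [e1, wa2a_th]
      exact wa2a_T 3 4 (H.T3_one uu_mem_Hom)) (by
      rw [e3, ← VV_pow four_ne_zero (th' ℚ) 4]
      exact wa2a_T 3 4 (H.T3_one hm)) (by
      rw [e1, e3, wa2a_th, ← VV_pow four_ne_zero (th' ℚ) 4,
        ← VV_mul four_ne_zero (uu ℚ) (th' ℚ ^ 4)]
      exact wa2a_T 27 28 (H.T3_two (mul_mem_Hom (e := 1) (e' := 1) uu_mem_Hom hm))) (by
      intro h
      have h1 := congrArg (coeff 4) h
      simp only [coeff_mul, Finset.Nat.antidiagonal_succ, Finset.Nat.antidiagonal_zero,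
        Finset.sum_cons, Finset.map_cons, Finset.map_singleton, Finset.sum_singleton,
        Function.Embedding.coe_prodMap, Function.Embedding.coeFn_mk, Prod.map_apply,
        Function.Embedding.refl_apply, map_sub, coeff_VV] at h1
      norm_num [c0, c1, d0, d1] at h1)
  have hb : VV 4 (th ℚ) ^ 4 = VV 4 (th' ℚ) ^ 4 + 16 * oc ℚ ^ 4 := by
    rw [wa2a_th, ← VV_pow four_ne_zero (th' ℚ) 4, H.jac, map_sub, wa2a_num (by norm_num), VV_FF]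
    ring
  have : CharZero ℚ⟦X⟧ := algebraRat.charZero _
  refine beta_eq (P' := VV 36 (th' ℚ)) (R' := VV 4 (th' ℚ) - VV 36 (th' ℚ)) ?_ ?_ ?_ ?_ ?_ (I1 H)
    h2 ?_ ?_ ?_
  · intro h
    have h1 := congrArg (coeff 0) h
    rw [coeff_VV] at h1
    norm_num [d0] at h1
  · intro h
    have h1 := congrArg (coeff 4) h
    rw [map_sub, coeff_VV, coeff_VV] at h1
    norm_num [d1] at h1
  · intro h
    have h1 := congrArg (coeff 9) h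
    rw [coeff_VV] at h1
    norm_num [o1] at h1
  · intro h
    have h1 := congrArg (coeff 1) h
    rw [map_sub, coeff_VV] at h1
    norm_num [o1] at h1
  · intro h
    have h1 := congrArg (coeff 0) h
    rw [coeff_VV] at h1
    norm_num [c0] at h1
  · intro h
    have h1 := congrArg (coeff 1) h
    simp only [coeff_mul, Finset.Nat.antidiagonal_succ, Finset.Nat.antidiagonal_zero,
      Finset.sum_cons, Finset.map_singleton, Finset.sum_singleton,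
      Function.Embedding.coe_prodMap, Function.Embedding.coeFn_mk, Prod.map_apply,
      Function.Embedding.refl_apply, map_sub, coeff_VV] at h1
    norm_num [c0, o0, o1] at h1
  · have h1 := congrArg (VV 9) hb
    rw [map_add, wa2a_num (by norm_num), wa2a_nine, wa2a_nine, VV_pow (by norm_num)] at h1
    exact h1
  · obtain ⟨a0, a1, a2⟩ := wa2a_four hP0 cls_th_sub
    obtain ⟨b0, b1, b2⟩ := wa2a_four hP1 cls_oc_sub
    obtain ⟨g0, g1, g2⟩ := wa2a_four hP2 cls_th'_sub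
    have k1 := wa2a_pr2 a0 a1 a2
    have k2 := wa2a_pr2 b0 b1 b2
    have k3 := wa2a_pr2 g0 g1 g2
    rw [← wa2a_exp, e1] at k1
    rw [← wa2a_exp, e2] at k2
    rw [← wa2a_exp, e3] at k3
    have h1 := congrArg (pr 3 2) hb
    rw [map_add, (wa2a_cls 16).pr_mul, k1, k2, k3] at h1
    apply mul_left_cancel₀ (wa2a_ne 6)
    linear_combination h1

end Pool.Agent.Lib.MP_bcfefa_nt.W
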