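import Pool.Agent.Lib.MP_bcfefa_nt.WA0

/-!
The 2-adic evaluation.
-/

set_option autoImplicit false

noncomputable section

namespace Pool.Agent.Lib.MP_bcfefa_nt.W

open PowerSeries Finset

/-- In an ultrametric field, a finite sum of terms whose nonzero members have pairwise different
norms vanishes only if all terms vanish. -/
lemma eq_zero_of_norm_ne {E : Type*} [NormedField E] [IsUltrametricDist E] {s : Finset ℕ}
    {f : ℕ → E} (h : ∀ i ∈ s, ∀ j ∈ s, f i ≠ 0 → ‖f i‖ = ‖f j‖ → i = j)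
    (h0 : ∑ i ∈ s, f i = 0) : ∀ i ∈ s, f i = 0 := by
  classical
  intro i hi
  by_contra hne
  have hi' : i ∈ s.filter fun j => f j ≠ 0 := mem_filter.2 ⟨hi, hne⟩
  have h1 := IsUltrametricDist.norm_sum_eq_sup'_of_pairwise_ne (f := f) ⟨i, hi'⟩
    (fun a ha b hb hab e => hab (h a (mem_filter.1 ha).1 b (mem_filter.1 hb).1
      (mem_filter.1 ha).2 e))
  have h2 := le_sup' (fun j => ‖f j‖) hi'
  rw [← h1, sum_filter_ne_zero, h0, norm_zero] at h2
  exact hne (norm_le_zero_iff.1 h2)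

lemma wa2b_add {E : Type*} [NormedField E] [IsUltrametricDist E] {x y : E} (h : ‖y‖ < ‖x‖) :
    ‖x + y‖ = ‖x‖ := by
  rw [IsUltrametricDist.norm_add_eq_max_of_norm_ne_norm h.ne', max_eq_left h.le]

lemma wa2b_two : ‖(2 : PadicAlgCl 2)‖ = 2⁻¹ := by
  have h := PadicAlgCl.norm_extends 2 ((2 : ℕ) : ℚ_[2])
  rw [Padic.norm_p] at h
  simpa [map_ofNat] using h

lemma wa2b_r {e : ℕ} {p : PadicAlgCl 2} (hp : p ^ (4 * e + 2) = 2) : 0 < ‖p‖ ∧ ‖p‖ < 1 := by
  have h : ‖p‖ ^ (4 * e + 2) = 2⁻¹ := by rw [← norm_pow, hp, wa2b_two]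
  constructor
  · refine lt_of_le_of_ne (norm_nonneg p) fun h0 => ?_
    rw [← h0, zero_pow (by omega)] at h
    norm_num at h
  · by_contra h1
    have := one_le_pow₀ (not_lt.1 h1) (n := 4 * e + 2)
    rw [h] at this
    norm_num at this

lemma wa2b_coeff {E : Type*} [NormedField E] [IsUltrametricDist E] {p : E} (hp : ‖p‖ ≤ 1)
    (m n i : ℕ) : ‖((1 + Polynomial.X) ^ m * (Polynomial.C p + Polynomial.X) ^ n).coeff i‖ ≤
      ‖p‖ ^ (n - i) := by
  rw [Polynomial.coeff_mul]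
  refine IsUltrametricDist.norm_sum_le_of_forall_le_of_nonneg (by positivity) fun x hx => ?_
  have h := mem_antidiagonal.1 hx
  rw [Polynomial.coeff_one_add_X_pow, add_comm, Polynomial.coeff_X_add_C_pow, norm_mul, norm_mul,
    norm_pow]
  calc _ ≤ 1 * (‖p‖ ^ (n - x.2) * 1) := by
        gcongr <;> exact IsUltrametricDist.norm_natCast_le_one E _
    _ ≤ _ := by
        rw [one_mul, mul_one]
        exact pow_le_pow_of_le_one (norm_nonneg p) hp (by omega)

/-- The term `i = 1` is `(4 (e - j) + 1) p ^ (4 j) + 4 j p ^ (4 j - 1)`, of norm `‖p‖ ^ (4 j)`; a term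
`i = 3 i' + 1`, `i' ≥ 1`, has norm at most `‖p‖ ^ (4 j) ‖p‖ ^ (-(2 i' + 1)) 4 ^ (-i')`, which is
smaller since `‖p‖ ^ 2 ≥ 1 / 2`. -/
lemma norm_sj {e j : ℕ} (hj : j ≤ e) {p : PadicAlgCl 2} (hp : p ^ (4 * e + 2) = 2) :
    ‖Polynomial.aeval p (sj e j)‖ = ‖p‖ ^ (4 * j) := by
  obtain ⟨r0, r1⟩ := wa2b_r hp
  have h4 : ‖(4 : PadicAlgCl 2)‖ ≤ ‖p‖ ^ 4 := by
    rw [show (4 : PadicAlgCl 2) = 2 ^ 2 by norm_num, ← hp, ← pow_mul, norm_pow]
    exact pow_le_pow_of_le_one r0.le r1.le (by omega)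
  have hc : ∀ i, Polynomial.aeval p (((1 + Polynomial.X) ^ (4 * (e - j) + 1) *
      (Polynomial.C Polynomial.X + Polynomial.X) ^ (4 * j) : Polynomial (Polynomial ℚ)).coeff i) =
      ((1 + Polynomial.X) ^ (4 * (e - j) + 1) * (Polynomial.C p + Polynomial.X) ^ (4 * j)).coeff
        i := by
    intro i
    have := Polynomial.coeff_map (p := ((1 + Polynomial.X) ^ (4 * (e - j) + 1) *
      (Polynomial.C Polynomial.X + Polynomial.X) ^ (4 * j) : Polynomial (Polynomial ℚ)))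
      (Polynomial.aeval (R := ℚ) p).toRingHom i
    simpa using this.symm
  have hlt : ‖p‖ ^ (4 * j + 1) < ‖p‖ ^ (4 * j) := pow_lt_pow_right_of_lt_one₀ r0 r1 (by omega)
  have hn : ∀ k m : ℕ, 4 * j + 1 ≤ 4 + m →
      ‖((4 * k : ℕ) : PadicAlgCl 2) * p ^ m‖ ≤ ‖p‖ ^ (4 * j + 1) := by
    intro k m hm
    rw [Nat.cast_mul, Nat.cast_ofNat, norm_mul, norm_mul, norm_pow]
    calc _ ≤ ‖p‖ ^ 4 * 1 * ‖p‖ ^ m := by
          gcongr
          exact IsUltrametricDist.norm_natCast_le_one _ _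
      _ ≤ _ := by
          rw [mul_one, ← pow_add]
          exact pow_le_pow_of_le_one r0.le r1.le hm
  rw [sj, map_sum, ← add_sum_erase _ _ (show 1 ∈ range (4 * e + 2) from mem_range.2 (by omega)),
    if_pos rfl, map_mul, hc, Polynomial.mul_coeff_one, add_comm (Polynomial.C p)]
  simp only [Polynomial.coeff_one_add_X_pow, Polynomial.coeff_X_add_C_pow, Nat.choose_zero_right,
    Nat.choose_one_right, Nat.cast_one, one_mul, mul_one, Nat.reduceDiv, pow_zero, map_one,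
    Nat.sub_zero, Nat.cast_add, add_mul]
  rw [← add_assoc, add_comm _ (p ^ (4 * j)), add_assoc, wa2b_add, norm_pow]
  rw [norm_pow]
  refine lt_of_le_of_lt ((IsUltrametricDist.norm_add_le_max _ _).trans (max_le
    ((IsUltrametricDist.norm_add_le_max _ _).trans (max_le ?_ (hn _ _ (by omega)))) ?_)) hlt
  · rw [mul_comm]
    exact hn _ _ (by omega)
  refine IsUltrametricDist.norm_sum_le_of_forall_le_of_nonneg (by positivity) fun i hi => ?_
  split_ifs with h3
  swap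
  · rw [map_zero, norm_zero]
    positivity
  have h1 := ne_of_mem_erase hi
  have h5 : ‖Polynomial.aeval p (4 * Polynomial.X * (1 + Polynomial.X) : Polynomial ℚ)‖ ≤
      ‖p‖ ^ 5 := by
    simp only [map_mul, map_add, map_one, Polynomial.aeval_X, map_ofNat, norm_mul]
    rw [wa2b_add (by rwa [norm_one]), norm_one, mul_one, pow_succ]
    gcongr
  rw [map_mul, hc, map_pow, norm_mul, norm_pow]
  calc _ ≤ ‖p‖ ^ (4 * j - i) * (‖p‖ ^ 5) ^ (i / 3) := by
        gcongr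
        exact wa2b_coeff r1.le _ _ _
    _ ≤ _ := by
        rw [← pow_mul, ← pow_add]
        exact pow_le_pow_of_le_one r0.le r1.le (by omega)

/-- Evaluate at `p` with `p ^ (4 e + 2) = 2` in `PadicAlgCl 2`. The `j`-th term has norm
`‖c j‖ 16 ^ (j - e) ‖p‖ ^ (e + 4 j)`; raise to the power `4 e + 2` and compare exponents of `2`
modulo `4 e + 2`. -/
theorem two_adic (e : ℕ) (c : ℕ → ℚ)
    (h : ∑ j ∈ range (e + 1), Polynomial.C (c j) * (2 + Polynomial.X) ^ j *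
      (16 * Polynomial.X * (1 + 2 * Polynomial.X)) ^ (e - j) * sj e j = 0) :
    ∀ j ≤ e, c j = 0 := by
  obtain ⟨p, hp⟩ := IsAlgClosed.exists_pow_nat_eq (2 : PadicAlgCl 2) (n := 4 * e + 2) (by omega)
  obtain ⟨r0, r1⟩ := wa2b_r hp
  have h2 : ‖(2 : PadicAlgCl 2)‖ = ‖p‖ ^ (4 * e + 2) := by rw [← norm_pow, hp]
  have hA : ‖2 + p‖ = ‖p‖ := by
    rw [add_comm, wa2b_add]
    rw [h2]
    simpa using pow_lt_pow_right_of_lt_one₀ r0 r1 (show 1 < 4 * e + 2 by omega)
  have hB : ‖16 * p * (1 + 2 * p)‖ = ‖p‖ ^ (4 * (4 * e + 2) + 1) := by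
    rw [norm_mul, wa2b_add, norm_one, mul_one, show (16 : PadicAlgCl 2) = 2 ^ 4 by norm_num, ← hp,
      ← pow_mul, ← pow_succ, norm_pow, mul_comm]
    rw [norm_one, norm_mul, h2, ← pow_succ]
    exact pow_lt_one₀ r0.le r1 (by omega)
  have hf : ∀ j ≤ e, c j ≠ 0 → ∃ v : ℤ, ‖Polynomial.aeval p (Polynomial.C (c j) *
      (2 + Polynomial.X) ^ j * (16 * Polynomial.X * (1 + 2 * Polynomial.X)) ^ (e - j) * sj e j)‖ =
      ‖p‖ ^ ((4 * e + 2) * v + e + 4 * j : ℤ) := by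
    intro j hj hc
    obtain ⟨d, rfl⟩ := Nat.exists_eq_add_of_le hj
    have h1 : ‖algebraMap ℚ (PadicAlgCl 2) (c j)‖ =
        ‖p‖ ^ ((4 * (j + d : ℕ) + 2) * ((c j : ℚ_[2])).valuation : ℤ) := by
      have h3 := PadicAlgCl.norm_extends 2 (c j : ℚ_[2])
      rw [Padic.norm_eq_zpow_neg_valuation (Rat.cast_ne_zero.2 hc), map_ratCast] at h3
      rw [eq_ratCast, h3, zpow_mul, zpow_neg, ← inv_zpow]
      congr 1
      rw [Nat.cast_ofNat, ← wa2b_two, h2]
      norm_cast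
    refine ⟨((c j : ℚ_[2])).valuation + 4 * d, ?_⟩
    simp only [map_mul, map_pow, map_add, map_one, Polynomial.aeval_X, Polynomial.aeval_C,
      map_ofNat]
    rw [norm_mul, norm_mul, norm_mul, norm_pow, norm_pow, hA, hB, norm_sj hj hp, h1, ← pow_mul,
      ← zpow_natCast, ← zpow_natCast, ← zpow_natCast, ← zpow_add₀ r0.ne', ← zpow_add₀ r0.ne',
      ← zpow_add₀ r0.ne', Nat.add_sub_cancel_left]
    congr 1
    push_cast
    ring
  have h0 := congrArg (Polynomial.aeval p) h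
  rw [map_sum, map_zero] at h0
  have h3 := eq_zero_of_norm_ne (fun i hi j hj hne hn => by
    have hi' := Nat.lt_succ_iff.1 (mem_range.1 hi)
    have hj' := Nat.lt_succ_iff.1 (mem_range.1 hj)
    have hci : c i ≠ 0 := fun e0 => hne (by simp [e0])
    have hcj : c j ≠ 0 := fun e0 => hne (by
      rw [← norm_eq_zero, hn]
      simp [e0])
    obtain ⟨v, hv⟩ := hf i hi' hci
    obtain ⟨w, hw⟩ := hf j hj' hcj
    rw [hv, hw, zpow_right_inj₀ r0 r1.ne] at hn
    rcases lt_trichotomy v w with h4 | h4 | h4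
    · have := mul_le_mul_of_nonneg_left (show v + 1 ≤ w from h4)
        (show (0 : ℤ) ≤ 4 * e + 2 by positivity)
      rw [mul_add] at this
      omega
    · subst h4
      omega
    · have := mul_le_mul_of_nonneg_left (show w + 1 ≤ v from h4)
        (show (0 : ℤ) ≤ 4 * e + 2 by positivity)
      rw [mul_add] at this
      omega) h0
  intro j hj
  by_contra hc
  obtain ⟨v, hv⟩ := hf j hj hc
  rw [h3 j (mem_range.2 (Nat.lt_succ_of_le hj)), norm_zero] at hv
  exact (zpow_pos r0 _).ne hv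

end Pool.Agent.Lib.MP_bcfefa_nt.W
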