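import Pool.Agent.Lib.MP_bcfefa_nt.WA2a
import Pool.Agent.Lib.MP_bcfefa_nt.WA2b

/-!
The class one part of `th * φ` determines `φ`.
-/

set_option autoImplicit false

noncomputable section

namespace Pool.Agent.Lib.MP_bcfefa_nt.W

open PowerSeries Finset

theorem wa2c_div {a x : ℚ⟦X⟧} {r : ℕ} (ha : Cls 3 0 a) (h0 : a ≠ 0) (h : Cls 3 r (a * x)) :
    Cls 3 r x :=
  mul_left_cancel₀ h0 ((ha.pr_mul r x).symm.trans h.pr_self) ▸ cls_pr 3 r x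

theorem wa2c_alg {A : Type*} [CommRing A] [IsDomain A] {P P1 R1 κ p : A} (hP : P ≠ 0)
    (hκ : κ ≠ 0) (hP1 : P1 ≠ 0) (hp : p * R1 = κ * P1)
    (i1 : (P * κ) ^ 2 * R1 ^ 2 = 4 * P * P1 * (P * κ * P1 + R1 * P))
    (i2 : 16 * P1 * R1 ^ 3 * (P * R1 + 2 * (P * κ) * P1) =
      P * (P * κ) ^ 3 * (2 * P * R1 + P * κ * P1)) :
    κ ^ 3 = 4 * p * (1 + p) ∧ 16 * (1 + 2 * p) * P1 ^ 4 = P ^ 4 * p ^ 3 * (2 + p) := by
  have h1 : (P * κ) ^ 2 * (p * R1) ^ 2 = 4 * P ^ 2 * P1 * p * (p * κ * P1 + p * R1) := by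
    linear_combination p ^ 2 * i1
  have h2 : 16 * P1 * (p * R1) ^ 3 * P * (p * R1 + 2 * p * κ * P1) =
      P ^ 5 * (p * κ) ^ 3 * (2 * (p * R1) + p * κ * P1) := by
    linear_combination p ^ 4 * i2
  rw [hp] at h1 h2
  exact ⟨mul_left_cancel₀ (mul_ne_zero (mul_ne_zero (pow_ne_zero 2 hP) hκ) (pow_ne_zero 2 hP1))
      (by linear_combination h1),
    mul_left_cancel₀ (mul_ne_zero (mul_ne_zero hP (pow_ne_zero 4 hκ)) hP1)
      (by linear_combination h2)⟩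

theorem wa2c_term {A : Type*} [CommRing A] {P P1 o κ p : A} (e2 : p * o = P1 * (p + κ))
    (e4 : 16 * (1 + 2 * p) * P1 ^ 4 = P ^ 4 * p ^ 3 * (2 + p)) (j d : ℕ) :
    (16 * (1 + 2 * p)) ^ (j + d) * p ^ (4 * (j + d)) *
        (P * (1 + κ) * (((P * (1 + κ)) ^ 4) ^ d * (o ^ 4) ^ j)) =
      P ^ (4 * (j + d) + 1) * (p ^ (3 * (j + d)) * (2 + p) ^ j * (16 * p * (1 + 2 * p)) ^ d) *
        ((1 + κ) ^ (4 * d + 1) * (p + κ) ^ (4 * j)) := by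
  have h1 : (16 * (1 + 2 * p) * (p * o) ^ 4) ^ j = (P ^ 4 * p ^ 3 * (2 + p) * (p + κ) ^ 4) ^ j := by
    rw [e2, mul_pow P1, ← mul_assoc, e4]
  generalize 1 + 2 * p = a at h1 ⊢
  generalize 1 + κ = b
  generalize 2 + p = c at h1 ⊢
  generalize p + κ = s at h1 ⊢
  generalize (16 : A) = t at h1 ⊢
  linear_combination (t * a) ^ d * p ^ (4 * d) * P * b * ((P * b) ^ 4) ^ d * h1

/-- `κ = R / P`, `p = R P1 / (P R1)` with `P = VV 36 th` a unit, `P1 = VV 9 oc`, `R1 = X * unit`. -/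
theorem exists_param (H : Facts) : ∃ κ p : ℚ⟦X⟧, Cls 3 1 κ ∧ Cls 3 0 p ∧ κ ≠ 0 ∧ p ≠ 0 ∧
    coeff 0 p = 0 ∧ VV 4 (th ℚ) = VV 36 (th ℚ) * (1 + κ) ∧ p * oc ℚ = VV 9 (oc ℚ) * (p + κ) ∧
    κ ^ 3 = 4 * p * (1 + p) ∧
    16 * (1 + 2 * p) * VV 9 (oc ℚ) ^ 4 = VV 36 (th ℚ) ^ 4 * p ^ 3 * (2 + p) := by
  have i1 := I1 H
  have i2 := I2 H
  have cP : Cls 3 0 (VV 36 (th ℚ)) := cls_VV_of_dvd (by norm_num) _
  have cP1 : Cls 3 0 (VV 9 (oc ℚ)) := cls_VV_of_dvd (by norm_num) _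
  have cR := cls_th_sub (K := ℚ)
  have cR1 := cls_oc_sub (K := ℚ)
  have hP : IsUnit (VV 36 (th ℚ)) := by
    rw [isUnit_iff_constantCoeff, ← coeff_zero_eq_constantCoeff_apply, coeff_VV, coeff_th]
    simp [thc]
  have hR : VV 4 (th ℚ) - VV 36 (th ℚ) ≠ 0 := fun h => by
    have h1 := congrArg (coeff 4) h
    rw [map_sub, coeff_VV, coeff_VV, coeff_th] at h1
    simp [thc] at h1
  have hP1 : VV 9 (oc ℚ) ≠ 0 := fun h => by
    have h1 := congrArg (coeff 9) h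
    rw [coeff_VV, coeff_oc] at h1
    simp [occ] at h1
  have e1 : VV 9 (oc ℚ) = X ^ 9 * VV 9 (VV 4 (psi ℚ)) := by
    rw [oc_eq, VV_mul (by norm_num), VV_X (by norm_num)]
  obtain ⟨u, hu⟩ : ∃ u : ℚ⟦X⟧, (VV 4 (psi ℚ) - X ^ 8 * VV 9 (VV 4 (psi ℚ))) * u = 1 := by
    refine IsUnit.exists_right_inv ?_
    rw [isUnit_iff_constantCoeff, map_sub, ← coeff_zero_eq_constantCoeff_apply, coeff_VV,
      coeff_psi]
    simp [occ]
  obtain ⟨κ, hκ⟩ := hP.dvd (a := VV 4 (th ℚ) - VV 36 (th ℚ))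
  obtain ⟨p, hp, hp0⟩ : ∃ p : ℚ⟦X⟧, p * (oc ℚ - VV 9 (oc ℚ)) = κ * VV 9 (oc ℚ) ∧ coeff 0 p = 0 :=
    ⟨X ^ 8 * (κ * VV 9 (VV 4 (psi ℚ)) * u), by
      rw [e1, oc_eq]
      linear_combination κ * X ^ 9 * VV 9 (VV 4 (psi ℚ)) * hu, by simp⟩
  have hκ0 : κ ≠ 0 := fun h => hR (by rw [hκ, h, mul_zero])
  have cκ : Cls 3 1 κ := wa2c_div cP hP.ne_zero (hκ ▸ cR)
  have h1 := mul_ne_zero hκ0 hP1
  rw [← hp] at h1
  have cp : Cls 3 0 p := by
    refine wa2c_div (cR1.pow 3) (pow_ne_zero _ (right_ne_zero_of_mul h1)) ?_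
    have h2 : Cls 3 0 _ := (cκ.mul cP1).mul (cR1.pow 2)
    rwa [← hp, mul_assoc, ← pow_succ', mul_comm] at h2
  refine ⟨κ, p, cκ, cp, hκ0, left_ne_zero_of_mul h1, hp0, by linear_combination hκ,
    by linear_combination hp, ?_⟩
  rw [hκ] at i1 i2
  exact wa2c_alg hP.ne_zero hκ0 hP1 hp i1 i2

theorem pr_sj {κ p : ℚ⟦X⟧} (hκ : Cls 3 1 κ) (hp : Cls 3 0 p) (h3 : κ ^ 3 = 4 * p * (1 + p))
    {e j : ℕ} (hj : j ≤ e) :
    pr 3 1 ((1 + κ) ^ (4 * (e - j) + 1) * (p + κ) ^ (4 * j)) = κ * Polynomial.aeval p (sj e j) := by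
  have h1 : ((1 + Polynomial.X) ^ (4 * (e - j) + 1) * (Polynomial.C Polynomial.X + Polynomial.X) ^
      (4 * j) : Polynomial (Polynomial ℚ)).natDegree < 4 * e + 2 := by
    have h1 := Polynomial.natDegree_pow_le_of_le (4 * (e - j) + 1)
      (show (1 + Polynomial.X : Polynomial (Polynomial ℚ)).natDegree ≤ 1 by compute_degree)
    have h2 := Polynomial.natDegree_pow_le_of_le (4 * j) (show (Polynomial.C Polynomial.X +
      Polynomial.X : Polynomial (Polynomial ℚ)).natDegree ≤ 1 by compute_degree)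
    exact Polynomial.natDegree_mul_le.trans_lt (by omega)
  have h2 := Polynomial.eval₂_eq_sum_range'
    (Polynomial.aeval p : Polynomial ℚ →ₐ[ℚ] ℚ⟦X⟧).toRingHom h1 κ
  rw [Polynomial.eval₂_mul, Polynomial.eval₂_pow, Polynomial.eval₂_pow, Polynomial.eval₂_add,
    Polynomial.eval₂_add, Polynomial.eval₂_one, Polynomial.eval₂_X, Polynomial.eval₂_C] at h2
  simp only [AlgHom.toRingHom_eq_coe, RingHom.coe_coe, Polynomial.aeval_X] at h2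
  rw [h2, map_sum, sj, map_sum, mul_sum]
  refine sum_congr rfl fun i _ => ?_
  have h4 := hκ.pow i
  rw [one_mul] at h4
  rw [(hp.aeval _).pr_mul]
  split_ifs with h
  · rw [h] at h4
    rw [h4.pr_self, map_mul, map_pow, map_mul, map_mul, map_add, map_one, map_ofNat,
      Polynomial.aeval_X, ← h3, ← pow_mul, mul_left_comm, ← pow_succ']
    congr 3
    omega
  · rw [h4.pr_ne h, map_zero, mul_zero, mul_zero]

/-- With `φ = hom e c`: `(16 (1 + 2 p)) ^ e p ^ (4 e) VV 4 (th φ)` equals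
`P ^ (4 e + 1) p ^ (3 e) ∑ j, c j (2 + p) ^ j (16 p (1 + 2 p)) ^ (e - j) (1 + κ) ^ (4 (e - j) + 1)
(p + κ) ^ (4 j)`. Apply `pr 3 1` (`pr_VV`, `Cls.pr_mul`, `pr_sj`), `aeval_eq_zero`, `two_adic`. -/
theorem algA2 (H : Facts) {e : ℕ} {φ : ℚ⟦X⟧} (h : φ ∈ Hom ℚ e) (h0 : pr 3 1 (th ℚ * φ) = 0) :
    φ = 0 := by
  obtain ⟨c, rfl⟩ := mem_Hom_iff.1 h
  obtain ⟨κ, p, cκ, cp, hκ, hp, hp0, e1, e2, e3, e4⟩ := exists_param H
  have cP : Cls 3 0 (VV 36 (th ℚ)) := cls_VV_of_dvd (by norm_num) _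
  have hP : VV 36 (th ℚ) ≠ 0 := fun h1 => isUnit_th.ne_zero
    (VV_injective (by norm_num) (h1.trans (map_zero _).symm))
  have h1 : pr 3 1 (Polynomial.aeval p ((16 * (1 + 2 * Polynomial.X)) ^ e *
      Polynomial.X ^ (4 * e) : Polynomial ℚ) * VV 4 (th ℚ * hom e c)) = 0 := by
    rw [(cp.aeval _).pr_mul, pr_VV (by norm_num) (by norm_num), h0, map_zero, mul_zero]
  have h2 : VV 36 (th ℚ) ^ (4 * e + 1) * p ^ (3 * e) * κ * Polynomial.aeval p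
      (∑ j ∈ range (e + 1), Polynomial.C (c j) * (2 + Polynomial.X) ^ j *
        (16 * Polynomial.X * (1 + 2 * Polynomial.X)) ^ (e - j) * sj e j) = 0 := by
    rw [← h1, hom, mul_sum, map_sum, map_sum, mul_sum, mul_sum, map_sum]
    refine sum_congr rfl fun j hj => ?_
    have hj' : j ≤ e := Nat.lt_succ_iff.1 (mem_range.1 hj)
    have h2 := pr_sj cκ cp e3 hj'
    obtain ⟨d, rfl⟩ := Nat.exists_eq_add_of_le hj'
    have h3 : Cls 3 0 (VV 36 (th ℚ) ^ (4 * (j + d) + 1) * Polynomial.aeval p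
        (Polynomial.X ^ (3 * (j + d)) * (2 + Polynomial.X) ^ j *
          (16 * Polynomial.X * (1 + 2 * Polynomial.X)) ^ d : Polynomial ℚ)) :=
      (by simpa using cP.pow _ : Cls 3 0 _).mul (cp.aeval _)
    rw [Nat.add_sub_cancel_left] at h2 ⊢
    rw [mul_smul_comm, map_smul, mul_smul_comm, map_smul, VV_mul (by norm_num),
      VV_mul (by norm_num), VV_pow (by norm_num), VV_pow (by norm_num), VV_FF, uu,
      VV_pow (by norm_num), e1]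
    simp only [map_mul, map_pow, map_add, map_one, map_ofNat, Polynomial.aeval_X,
      Polynomial.aeval_C] at h3 ⊢
    rw [wa2c_term e2 e4, h3.pr_mul, h2, Algebra.smul_def]
    ring
  have h3 := two_adic e c (aeval_eq_zero hp0 hp ((mul_eq_zero.1 h2).resolve_left
    (mul_ne_zero (mul_ne_zero (pow_ne_zero _ hP) (pow_ne_zero _ hp)) hκ)))
  exact sum_eq_zero fun j hj => by rw [h3 j (Nat.lt_succ_iff.1 (mem_range.1 hj)), zero_smul]

end Pool.Agent.Lib.MP_bcfefa_nt.W
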