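import Pool.Agent.Lib.MP_bcfefa_nt.WA0
import Pool.Agent.Lib.MP_88d29b_nt.GQ2
import Pool.Agent.Lib.MP_88d29b_nt.GSturm

/-!
Modular forms of level four as functions and as power series: definitions.
-/

set_option autoImplicit false

noncomputable section

namespace Pool.Agent.Lib.MP_bcfefa_nt.W

open PowerSeries Finset CongruenceSubgroup UpperHalfPlane
open Pool.Agent.Lib.MP_88d29b_nt.G
open scoped MatrixGroups ModularForm Manifold

/-- Holomorphic and bounded at all cusps in weight `k`. -/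
structure Bdy (k : ℤ) (f : ℍ → ℂ) : Prop where
  holo : MDifferentiable 𝓘(ℂ) 𝓘(ℂ) f
  bdd : ∀ γ : SL(2, ℤ), IsBoundedAtImInfty (sl k f γ)

/-- The function `f` is a modular form of weight `k` for `Γ`. -/
structure MF (Γ : Subgroup SL(2, ℤ)) (k : ℤ) (f : ℍ → ℂ) : Prop where
  bdy : Bdy k f
  inv : Inv Γ k f

/-- The function `f` is the sum of the series `φ` at `q = exp (2 π i z)`. -/
def QP (f : ℍ → ℂ) (φ : ℂ⟦X⟧) : Prop := QS f fun n => coeff n φ

/-- `φ` is the expansion of a modular form. -/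
def InM (Γ : Subgroup SL(2, ℤ)) (k : ℤ) (φ : ℂ⟦X⟧) : Prop := ∃ f, MF Γ k f ∧ QP f φ

/-- The function `f(m z)`. -/
def dil (m : ℕ) (f : ℍ → ℂ) (z : ℍ) : ℂ := f (ofComplex (m * z))

/-- `∑ r even, q ^ (r ^ 2 / 4)`. -/
def t0 (z : ℍ) : ℂ := jacobiTheta (2 * z)

/-- `∑ r odd, q ^ (r ^ 2 / 4)`. -/
def t1 (z : ℍ) : ℂ := jacobiTheta (z / 2) - jacobiTheta (2 * z)

/-- The expansion of the quasimodular Eisenstein series of weight two. -/
def e2c : ℂ⟦X⟧ := mk fun n => if n = 0 then 1 else -24 * ((ArithmeticFunction.sigma 1 n : ℕ) : ℂ)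

/-- The matrix `(1, 0; 4, 1)`. -/
def L4 : SL(2, ℤ) := ⟨!![1, 0; 4, 1], by simp [Matrix.det_fin_two]⟩

end Pool.Agent.Lib.MP_bcfefa_nt.W
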