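import Pool.Agent.Lib.MP_bcfefa_nt.WSer

/-!
The theta series as formal power series.
-/

set_option autoImplicit false

noncomputable section

namespace Pool.Agent.Lib.MP_bcfefa_nt.W

open PowerSeries Finset

variable {K : Type*} [CommRing K] {L : Type*} [CommRing L]

lemma coeff_th (n : ℕ) : coeff n (th K) = ((thc n : ℤ) : K) := by simp [th]

lemma coeff_oc (n : ℕ) : coeff n (oc K) = ((occ n : ℤ) : K) := by simp [oc]

lemma coeff_psi (n : ℕ) : coeff n (psi K) = ((occ (4 * n + 1) : ℤ) : K) := by simp [psi]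

lemma wthf_sq {a : ℕ} (ha : a ≠ 0) (m : ℕ) : IsSquare (a * a * m) ↔ IsSquare m := by
  constructor
  · rintro ⟨r, hr⟩
    have h1 : a ^ 2 ∣ r ^ 2 := ⟨m, by rw [sq, sq, hr]⟩
    obtain ⟨t, rfl⟩ := (Nat.pow_dvd_pow_iff two_ne_zero).1 h1
    exact ⟨t, Nat.eq_of_mul_eq_mul_left (Nat.mul_pos (Nat.pos_of_ne_zero ha)
      (Nat.pos_of_ne_zero ha)) (by rw [hr]; ring)⟩
  · rintro ⟨t, rfl⟩
    exact ⟨a * t, by ring⟩

lemma wthf_thc4 (m : ℕ) : thc (4 * m) = thc m := by
  have h : IsSquare (4 * m) ↔ IsSquare m := wthf_sq two_ne_zero m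
  simp [thc, h]

lemma wthf_thc9 (m : ℕ) : thc (9 * m) = thc m := by
  have h : IsSquare (9 * m) ↔ IsSquare m := wthf_sq three_ne_zero m
  simp [thc, h]

lemma wthf_occ9 (m : ℕ) : occ (9 * m) = occ m := by
  have h : IsSquare (9 * m) ↔ IsSquare m := wthf_sq three_ne_zero m
  have h' : 9 * m % 2 = m % 2 := by omega
  simp only [occ, h, h']

lemma wthf_mod4 {n : ℕ} (h : IsSquare n) : n % 4 = 0 ∨ n % 4 = 1 := by
  obtain ⟨r, rfl⟩ := h
  have h1 : r % 4 < 4 := Nat.mod_lt _ (by norm_num)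
  rw [Nat.mul_mod]
  interval_cases r % 4 <;> simp

lemma wthf_mod3 {n : ℕ} (h : IsSquare n) (h' : n % 3 ≠ 1) : 9 ∣ n := by
  obtain ⟨r, rfl⟩ := h
  have h1 : r % 3 < 3 := Nat.mod_lt _ (by norm_num)
  have h2 : 3 ∣ r := by
    rw [Nat.mul_mod] at h'
    apply Nat.dvd_of_mod_eq_zero
    interval_cases r % 3 <;> simp at h' ⊢
  exact mul_dvd_mul h2 h2

lemma wthf_occ {n : ℕ} (h : n % 4 ≠ 1) : occ n = 0 :=
  if_neg fun h' => by
    have := wthf_mod4 h'.1
    omega

lemma wthf_split (n : ℕ) : thc n = (if 4 ∣ n then thc (n / 4) else 0) + (occ n + occ n) := by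
  split_ifs with h
  · obtain ⟨m, rfl⟩ := h
    rw [wthf_thc4, wthf_occ (by omega), Nat.mul_div_cancel_left _ (by norm_num)]
    simp
  · by_cases h1 : IsSquare n
    · have h2 := wthf_mod4 h1
      rw [thc, occ, if_pos h1, if_neg (by omega), if_pos ⟨h1, by omega⟩]
      norm_num
    · simp [thc, occ, h1]

lemma wthf_const : constantCoeff (th K) = ((1 : Kˣ) : K) := by
  rw [← coeff_zero_eq_constantCoeff_apply, coeff_th]
  simp [thc]

lemma wthf_sub {φ : K⟦X⟧} (h : ∀ m, coeff (9 * m) φ = coeff m φ)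
    (h' : ∀ m, ¬ IsSquare m → coeff m φ = 0) : Cls 3 1 (φ - VV 9 φ) := by
  intro n hn
  rw [map_sub, coeff_VV]
  split_ifs with h9
  · obtain ⟨m, rfl⟩ := h9
    rw [h, Nat.mul_div_cancel_left _ (by norm_num), sub_self]
  · rw [h' n fun hs => h9 (wthf_mod3 hs hn), sub_self]

lemma wthf_sub4 {φ : K⟦X⟧} (h : Cls 3 1 (φ - VV 9 φ)) : Cls 3 1 (VV 4 φ - VV 36 φ) := by
  intro n hn
  rw [← VV_VV (m := 4) (m' := 9) (by norm_num) (by norm_num), ← map_sub, coeff_VV]
  split_ifs with h4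
  · exact h _ (by omega)
  · rfl

lemma map_th (f : K →+* L) : map f (th K) = th L := by
  ext n
  rw [coeff_map, coeff_th, coeff_th, map_intCast]

lemma map_oc (f : K →+* L) : map f (oc K) = oc L := by
  ext n
  rw [coeff_map, coeff_oc, coeff_oc, map_intCast]

lemma map_th' (f : K →+* L) : map f (th' K) = th' L := by
  ext n
  simp [th', coeff_rescale, coeff_th]

lemma map_uu (f : K →+* L) : map f (uu K) = uu L := by
  rw [uu, map_pow, map_th, uu]

lemma map_FF (f : K →+* L) : map f (FF K) = FF L := by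
  have h : map f (psi K) = psi L := by
    ext n
    rw [coeff_map, coeff_psi, coeff_psi, map_intCast]
  rw [FF, map_mul, map_pow, map_X, h, FF]

lemma map_e4s (f : K →+* L) : map f (e4s K) = e4s L := by
  ext n
  simp only [e4s, coeff_map, coeff_mk, apply_ite f, map_one, map_mul, map_ofNat, map_natCast]

lemma isUnit_th : IsUnit (th K) := by
  exact IsUnit.of_mul_eq_one _ (mul_invOfUnit _ _ wthf_const)

lemma th_mul_qq : th K * qq K = DD (th K) := by
  rw [qq, mul_left_comm, mul_invOfUnit _ _ wthf_const, mul_one]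

lemma map_qq (f : K →+* L) : map f (qq K) = qq L := by
  apply isUnit_th.mul_left_cancel
  rw [th_mul_qq, ← map_th f, ← map_mul, th_mul_qq, map_DD]

lemma map_QQ (f : K →+* L) : map f (QQ K) = QQ L := by
  rw [QQ, map_mul, map_qq, map_ofNat, QQ]

lemma DD_uu : DD (uu K) = QQ K * uu K := by
  rw [uu, DD_pow, ← th_mul_qq, QQ]
  push_cast
  ring

lemma map_adH (f : K →+* L) (l e k : ℕ) (φ : K⟦X⟧) :
    map f (adH l e k φ) = adH l e k (map f φ) := by
  simp only [adH, map_sum, map_mul, map_add, map_pow, map_neg, map_natCast, apply_ite (map f),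
    map_zero, map_UU, map_VV, map_QQ]

/-- Even and odd squares. -/
lemma th_eq : th K = VV 4 (th K) + 2 * oc K := by
  ext n
  rw [two_mul, map_add, map_add, coeff_VV, coeff_th, coeff_th, coeff_oc, wthf_split n]
  split_ifs <;> simp

lemma cls_oc : Cls 4 1 (oc K) := by
  intro n hn
  rw [coeff_oc, wthf_occ hn, Int.cast_zero]

lemma oc_eq : oc K = X * VV 4 (psi K) := by
  ext n
  cases n with
  | zero => rw [cls_oc 0 (by norm_num), coeff_zero_X_mul]
  | succ n =>
    rw [coeff_succ_X_mul, coeff_VV]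
    split_ifs with h
    · rw [coeff_psi, coeff_oc, Nat.mul_div_cancel' h]
    · exact cls_oc _ (by omega)

lemma VV_FF : VV 4 (FF K) = oc K ^ 4 := by
  rw [FF, VV_mul four_ne_zero, VV_X four_ne_zero, VV_pow four_ne_zero, oc_eq, mul_pow]

lemma pr_th_zero : pr 4 0 (th K) = VV 4 (th K) := by
  conv_lhs => rw [th_eq]
  rw [map_add, (cls_VV 4 _).pr_self, two_mul, (cls_oc.add cls_oc).pr_ne one_ne_zero, add_zero]

lemma pr_th_one : pr 4 1 (th K) = 2 * oc K := by
  conv_lhs => rw [th_eq]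
  rw [map_add, (cls_VV 4 _).pr_ne zero_ne_one, two_mul, (cls_oc.add cls_oc).pr_self, zero_add]

/-- A sum over squares weighted by `thc` is a sum over integers. -/
lemma sum_thc {M : Type*} [AddCommGroup M] (N : ℕ) (g : ℕ → M) :
    ∑ n ∈ range (N ^ 2 + 1), thc n • g n = ∑ r ∈ Icc (-(N : ℤ)) N, g (r.natAbs ^ 2) := by
  induction N with
  | zero => simp [thc]
  | succ N ih =>
    have e1 : Icc (-((N + 1 : ℕ) : ℤ)) ((N + 1 : ℕ) : ℤ) =
        insert (-((N + 1 : ℕ) : ℤ)) (insert ((N + 1 : ℕ) : ℤ) (Icc (-(N : ℤ)) N)) := by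
      ext r
      simp only [mem_Icc, mem_insert]
      omega
    have e2 : ∑ n ∈ range (N ^ 2 + 1), thc n • g n = ∑ n ∈ range ((N + 1) ^ 2), thc n • g n := by
      refine sum_subset (range_subset_range.2 (by nlinarith [Nat.zero_le N])) fun n h1 h2 => ?_
      rw [mem_range] at h1 h2
      rw [thc, if_neg, zero_smul]
      rintro ⟨r, rfl⟩
      rcases le_or_gt r N with h | h
      · nlinarith
      · nlinarith
    have e3 : thc ((N + 1) ^ 2) = 2 := by
      rw [thc, if_pos (IsSquare.sq _), if_neg (by positivity)]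
    rw [e1, sum_insert (by simp only [mem_Icc, mem_insert]; omega),
      sum_insert (by simp only [mem_Icc]; omega), ← ih, sum_range_succ, ← e2, e3, Int.natAbs_neg,
      Int.natAbs_natCast, two_smul]
    abel

lemma coeff_dl (n : ℕ) : coeff n dl = if IsSquare n ∧ ¬ 3 ∣ n then 1 else 0 := by
  have e : th F3 ^ 9 = VV 9 (th F3) := by
    rw [show 9 = 3 * 3 from rfl, pow_mul, pow_three, pow_three, VV_VV three_ne_zero three_ne_zero]
  rw [dl, e, map_sub, coeff_VV, coeff_th, coeff_th]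
  by_cases h9 : 9 ∣ n
  · obtain ⟨m, rfl⟩ := h9
    rw [if_pos (dvd_mul_right 9 m), Nat.mul_div_cancel_left _ (by norm_num), wthf_thc9, sub_self,
      if_neg fun h => h.2 (by omega)]
  · rw [if_neg h9]
    by_cases hs : IsSquare n
    · have h1 : n % 3 = 1 := by
        by_contra h
        exact h9 (wthf_mod3 hs h)
      rw [thc, if_pos hs, if_neg (by omega), if_pos ⟨hs, by omega⟩]
      decide
    · simp [thc, hs]

lemma cls_dl : Cls 3 1 dl := by
  intro n hn
  rw [coeff_dl, if_neg]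
  rintro ⟨h1, h2⟩
  have := wthf_mod3 h1 hn
  omega

/-! The splitting of the theta series into a part in `q ^ 9` and a part of class one modulo 3. -/

lemma cls_th_sub : Cls 3 1 (VV 4 (th K) - VV 36 (th K)) := by
  exact wthf_sub4 (wthf_sub (fun m => by rw [coeff_th, coeff_th, wthf_thc9])
    fun m hm => by simp [coeff_th, thc, hm])

lemma cls_th'_sub : Cls 3 1 (VV 4 (th' K) - VV 36 (th' K)) := by
  refine wthf_sub4 (wthf_sub (fun m => ?_) fun m hm => by simp [th', coeff_th, thc, hm])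
  rw [th', coeff_rescale, coeff_rescale, coeff_th, coeff_th, wthf_thc9, pow_mul,
    Odd.neg_one_pow (by decide)]

lemma cls_oc_sub : Cls 3 1 (oc K - VV 9 (oc K)) := by
  exact wthf_sub (fun m => by rw [coeff_oc, coeff_oc, wthf_occ9])
    fun m hm => by simp [coeff_oc, occ, hm]

lemma cls_VV_of_dvd {m a : ℕ} (h : m ∣ a) (φ : K⟦X⟧) : Cls m 0 (VV a φ) := by
  intro n hn
  rw [coeff_VV, if_neg fun h' => hn (Nat.mod_eq_zero_of_dvd (h.trans h'))]

end Pool.Agent.Lib.MP_bcfefa_nt.W
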