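import Pool.Agent.Lib.MP_bcfefa_nt.WHk
import Pool.Agent.Lib.MP_bcfefa_nt.WThF

/-!
Selberg's identity and the Hecke relation of the formal Shimura lift.
-/

set_option autoImplicit false

noncomputable section

namespace Pool.Agent.Lib.MP_bcfefa_nt.W

open PowerSeries Finset

variable {K : Type*} [CommRing K]

/-- Pairs `m₁ + m₂ = N` correspond to `r = m₁ - m₂`, `N ^ 2 = r ^ 2 + 4 m₁ m₂` (`sum_thc`). -/
theorem coeff_sq_mul (w : ℕ → K) (a : K⟦X⟧) (N : ℕ) :
    coeff (N ^ 2) ((mk fun n => w n * ((thc n : ℤ) : K)) * VV 4 a) =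
      ∑ x ∈ antidiagonal N, w (((x.1 : ℤ) - x.2).natAbs ^ 2) * coeff (x.1 * x.2) a := by
  rw [coeff_mul, Nat.sum_antidiagonal_eq_sum_range_succ_mk]
  refine Eq.trans (sum_congr rfl fun n _ => ?_)
    ((sum_thc N fun n => w n * coeff (N ^ 2 - n) (VV 4 a)).trans (Eq.symm ?_))
  · rw [coeff_mk, zsmul_eq_mul]
    ring
  refine sum_of_injOn (fun x => (x.1 : ℤ) - x.2) ?_ ?_ ?_ ?_
  · intro x hx y hy h
    simp only [mem_coe, HasAntidiagonal.mem_antidiagonal] at hx hy h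
    ext <;> omega
  · intro x hx
    simp only [mem_coe, HasAntidiagonal.mem_antidiagonal, mem_Icc] at hx ⊢
    omega
  · intro r hr h
    rw [mem_Icc] at hr
    rw [coeff_VV, if_neg, mul_zero]
    intro h4
    have h1 : r.natAbs ^ 2 ≤ N ^ 2 := Nat.pow_le_pow_left (by omega) 2
    have h2 := (even_iff_two_dvd.2 (dvd_trans (by norm_num) h4))
    rw [Nat.even_sub h1, Nat.even_pow' two_ne_zero, Nat.even_pow' two_ne_zero, Nat.even_iff,
      Nat.even_iff] at h2
    refine h ⟨(((N + r) / 2).toNat, ((N - r) / 2).toNat), ?_, ?_⟩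
    · simp only [mem_coe, HasAntidiagonal.mem_antidiagonal]
      omega
    · simp only
      omega
  · intro x hx
    rw [HasAntidiagonal.mem_antidiagonal] at hx
    rw [← coeff_VV_mul (m := 4) (by norm_num)]
    congr 2
    refine congrArg coeff (Nat.sub_eq_of_eq_add ?_).symm
    zify
    rw [sq_abs, ← hx]
    push_cast
    ring

/-- Regrouping by the common divisor `d`. -/
theorem sum_antidiagonal_gcd {M : ℕ} (hM : M ≠ 0) (g : ℕ → ℕ → ℕ → K) :
    ∑ x ∈ antidiagonal M, ∑ d ∈ (Nat.gcd x.1 x.2).divisors, g d (x.1 / d) (x.2 / d) =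
      ∑ d ∈ M.divisors, ∑ x ∈ antidiagonal (M / d), g d x.1 x.2 := by
  rw [sum_comm' (s' := fun d => (antidiagonal M).filter fun x => d ∣ x.1 ∧ d ∣ x.2)
    (t' := M.divisors)]
  · refine sum_congr rfl fun d hd => Eq.symm ?_
    obtain ⟨e, rfl⟩ := Nat.dvd_of_mem_divisors hd
    have h0 : 0 < d := Nat.pos_of_mem_divisors hd
    rw [Nat.mul_div_cancel_left _ h0]
    refine sum_nbij' (fun y => (d * y.1, d * y.2)) (fun x => (x.1 / d, x.2 / d)) ?_ ?_ ?_ ?_ ?_
    · intro y hy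
      simp only [mem_filter, HasAntidiagonal.mem_antidiagonal] at hy ⊢
      exact ⟨by rw [← mul_add, hy], dvd_mul_right _ _, dvd_mul_right _ _⟩
    · rintro ⟨x, y⟩ hx
      simp only [mem_filter, HasAntidiagonal.mem_antidiagonal] at hx ⊢
      obtain ⟨h1, ⟨u, rfl⟩, v, rfl⟩ := hx
      rw [Nat.mul_div_cancel_left _ h0, Nat.mul_div_cancel_left _ h0]
      exact Nat.eq_of_mul_eq_mul_left h0 (by rw [mul_add, h1])
    · intro y _
      simp only [Nat.mul_div_cancel_left _ h0]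
    · intro x hx
      simp only [mem_filter] at hx
      rw [Nat.mul_div_cancel' hx.2.1, Nat.mul_div_cancel' hx.2.2]
    · intro y _
      simp only [Nat.mul_div_cancel_left _ h0]
  · intro x d
    simp only [mem_filter, HasAntidiagonal.mem_antidiagonal, Nat.mem_divisors, Nat.dvd_gcd_iff, ne_eq,
      Nat.gcd_eq_zero_iff]
    exact ⟨fun h => ⟨⟨h.1, h.2.1⟩, h.1 ▸ dvd_add h.2.1.1 h.2.1.2, hM⟩,
      fun h => ⟨h.1.1, h.1.2, by omega⟩⟩

theorem selberg (w : ℕ) (μ : K) (a b : K⟦X⟧) {M : ℕ} (hM : M ≠ 0) :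
    coeff M (shim (fun d => (d : K) ^ (w + 2)) (pkc μ a b)) = ∑ x ∈ antidiagonal M,
      (coeff x.2 (hk (fun d => (d : K) ^ (w + 2)) x.1 a) +
        (2 * x.1 * x.2 - μ * ((x.1 : K) - x.2) ^ 2) *
          coeff x.2 (hk (fun d => (d : K) ^ w) x.1 b)) := by
  have h1 : ∀ N, coeff (N ^ 2) (pkc μ a b) = ∑ x ∈ antidiagonal N, (coeff (x.1 * x.2) a +
      (2 * x.1 * x.2 - μ * ((x.1 : K) - x.2) ^ 2) * coeff (x.1 * x.2) b) := fun N => by
    have e1 : th K = mk fun n => (1 : K) * ((thc n : ℤ) : K) := by simp [th]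
    have e2 : DD (th K) = mk fun n => (n : K) * ((thc n : ℤ) : K) := by
      ext n
      simp [th]
    have e3 : pkc μ a b =
        th K * VV 4 a + C 2 * (th K * VV 4 (DD b)) - C μ * (DD (th K) * VV 4 b) := by
      rw [pkc, map_ofNat]
      ring
    rw [e3, map_sub, map_add, coeff_C_mul, coeff_C_mul, e2, e1, coeff_sq_mul fun _ => 1,
      coeff_sq_mul fun _ => 1, coeff_sq_mul fun n => (n : K), mul_sum, mul_sum, ← sum_add_distrib,
      ← sum_sub_distrib]
    refine sum_congr rfl fun x _ => ?_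
    rw [coeff_DD, ← Int.cast_natCast (_ ^ 2), Nat.cast_pow, Int.natAbs_pow_two]
    push_cast
    ring
  simp only [coeff_shim, h1, mul_sum]
  rw [← sum_antidiagonal_gcd hM fun d u v => (d : K) ^ (w + 2) * (coeff (u * v) a +
    (2 * u * v - μ * ((u : K) - v) ^ 2) * coeff (u * v) b)]
  refine sum_congr rfl fun x _ => ?_
  rw [coeff_hk, coeff_hk, mul_sum, ← sum_add_distrib]
  refine sum_congr rfl fun d hd => ?_
  have h0 : 0 < d := Nat.pos_of_mem_divisors hd
  obtain ⟨⟨u, hu⟩, v, hv⟩ := Nat.dvd_gcd_iff.1 (Nat.dvd_of_mem_divisors hd)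
  rw [hu, hv, Nat.mul_div_cancel_left _ h0, Nat.mul_div_cancel_left _ h0, mul_mul_mul_comm, ← sq,
    Nat.mul_div_cancel_left _ (pow_pos h0 2)]
  push_cast
  ring

lemma wsel_divisors_mul {l M : ℕ} (hl : l.Prime) (hM : M ≠ 0) (F : ℕ → K) :
    ∑ d ∈ (l * M).divisors, F d =
      ∑ d ∈ M.divisors, (F d + if l ∣ M / d then 0 else F (l * d)) := by
  have h0 : l * M ≠ 0 := mul_ne_zero hl.ne_zero hM
  rw [← sum_filter_add_sum_filter_not _ (· ∣ M),
    Nat.divisors_filter_dvd_of_dvd h0 (dvd_mul_left _ _), sum_add_distrib]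
  congr 1
  simp only [← ite_not (l ∣ _), ← sum_filter]
  refine (sum_nbij (fun d => l * d) ?_ ?_ ?_ fun _ _ => rfl).symm
  · intro d hd
    simp only [mem_filter, Nat.mem_divisors] at hd ⊢
    exact ⟨⟨mul_dvd_mul_left _ hd.1.1, h0⟩,
      fun h => hd.2 ((Nat.dvd_div_iff_mul_dvd hd.1.1).2 (mul_comm l d ▸ h))⟩
  · exact fun a _ b _ h => Nat.eq_of_mul_eq_mul_left hl.pos h
  · intro d hd
    simp only [coe_filter, Nat.mem_divisors, Set.mem_ofPred_eq] at hd
    obtain ⟨e, rfl⟩ : l ∣ d := by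
      by_contra h
      exact hd.2 (((Nat.Prime.coprime_iff_not_dvd hl).2 h).symm.dvd_of_dvd_mul_left hd.1.1)
    have h1 := Nat.dvd_of_mul_dvd_mul_left hl.pos hd.1.1
    refine ⟨e, ?_, rfl⟩
    simp only [coe_filter, Nat.mem_divisors, Set.mem_ofPred_eq]
    exact ⟨⟨h1, hM⟩, fun h => hd.2 (mul_comm e l ▸ (Nat.dvd_div_iff_mul_dvd h1).1 h)⟩

lemma wsel_divisors_div {l M : ℕ} (hl : l.Prime) (hM : M ≠ 0) (F : ℕ → K) :
    (if l ∣ M then ∑ d ∈ (M / l).divisors, F d else 0) =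
      ∑ d ∈ M.divisors, if l ∣ M / d then F d else 0 := by
  split_ifs with h
  · rw [← sum_filter]
    refine sum_congr ?_ fun _ _ => rfl
    ext d
    simp only [mem_filter, Nat.mem_divisors, Nat.dvd_div_iff_mul_dvd h]
    exact ⟨fun e => ⟨⟨(dvd_mul_left _ _).trans e.1, hM⟩,
        (Nat.dvd_div_iff_mul_dvd ((dvd_mul_left _ _).trans e.1)).2 (mul_comm l d ▸ e.1)⟩,
      fun e => ⟨mul_comm d l ▸ (Nat.dvd_div_iff_mul_dvd e.1.1).1 e.2,
        (Nat.div_pos (Nat.le_of_dvd (Nat.pos_of_ne_zero hM) h) hl.pos).ne'⟩⟩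
  · exact (sum_eq_zero fun d hd => if_neg fun e =>
      h (e.trans (Nat.div_dvd_of_dvd (Nat.dvd_of_mem_divisors hd)))).symm

/-- The divisors of `l M` are the divisors of `M` and the `l d` with `d ∣ M`, `l ∤ M / d`. -/
theorem shim_thk {l : ℕ} (hl : l.Prime) (hl2 : l ≠ 2) {lam : ℕ} (hlam : lam ≠ 0) (c : K⟦X⟧) :
    shim (fun d => (d : K) ^ (lam - 1)) (thk l lam c) =
      hk (fun d => (d : K) ^ (2 * lam - 1)) l (shim (fun d => (d : K) ^ (lam - 1)) c) := by
  ext M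
  rw [hk_prime (by simp) hl]
  simp only [LinearMap.add_apply, LinearMap.smul_apply, map_add, coeff_UU, coeff_VV,
    coeff_shim, thk, coeff_tw, smul_eq_mul, map_smul]
  rcases eq_or_ne M 0 with rfl | hM
  · simp
  rw [wsel_divisors_mul hl hM, wsel_divisors_div hl hM]
  simp only [mul_sum, ← sum_add_distrib]
  refine sum_congr rfl fun d hd => ?_
  have h0 : 0 < d := Nat.pos_of_mem_divisors hd
  obtain ⟨e, rfl⟩ := Nat.dvd_of_mem_divisors hd
  rw [Nat.mul_div_mul_left _ _ hl.pos, mul_left_comm l d, Nat.div_div_eq_div_mul, mul_comm l d,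
    ← Nat.div_div_eq_div_mul]
  simp only [Nat.mul_div_cancel_left _ h0, Nat.pow_dvd_pow_iff two_ne_zero, mul_pow, Nat.cast_mul]
  have : NeZero l := ⟨hl.ne_zero⟩
  split_ifs with h
  · rw [jacobiSym.eq_zero_iff_not_coprime.2, Nat.div_pow h]
    · simp
    · rw [Int.gcd_natCast_natCast]
      exact fun e => hl.coprime_iff_not_dvd.1 (Nat.Coprime.symm e) (dvd_pow h two_ne_zero)
  · rw [Nat.cast_pow, jacobiSym.sq_one']
    · push_cast
      ring
    · rw [Int.gcd_natCast_natCast]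
      exact ((Nat.Prime.coprime_iff_not_dvd hl).2 h).symm

theorem coeff_sq_of_shim {ψ : ℕ → K} (h1 : ψ 1 = 1) {c : K⟦X⟧} (h : shim ψ c = 0) {n : ℕ}
    (hn : n ≠ 0) : coeff (n ^ 2) c = 0 := by
  induction n using Nat.strong_induction_on with
  | _ n ih =>
    have h2 := coeff_shim ψ n c
    rw [h, map_zero, sum_eq_single_of_mem 1 (Nat.one_mem_divisors.2 hn), h1, one_mul,
      Nat.div_one] at h2
    · exact h2.symm
    · intro d hd hd1
      have h0 : 0 < d := Nat.pos_of_mem_divisors hd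
      rw [ih _ (Nat.div_lt_self (Nat.pos_of_ne_zero hn) (by omega))
        (Nat.div_pos (Nat.divisor_le hd) h0).ne', mul_zero]

end Pool.Agent.Lib.MP_bcfefa_nt.W
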