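import Pool.Agent.Lib.MP_bcfefa_nt.WM3c
import Pool.Agent.Lib.MP_bcfefa_nt.WA2c
import Pool.Agent.Lib.MP_bcfefa_nt.WSel

/-!
Injectivity of the formal Shimura lift on plus forms.
-/

set_option autoImplicit false

noncomputable section

namespace Pool.Agent.Lib.MP_bcfefa_nt.W

open PowerSeries Finset

theorem alg_inj_rat (H : Facts) {e : ℕ} {φ : ℚ⟦X⟧} (h : φ ∈ Hom ℚ e)
    (h2 : ∀ n, n % 4 = 2 → coeff n (th ℚ * φ) = 0)
    (hsq : ∀ n, ¬ 3 ∣ n → coeff (n ^ 2) (th ℚ * φ) = 0) : φ = 0 := by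
  obtain ⟨m, φ', hm, hφ', hmap⟩ := exists_int_of_rat h
  have key : map (Int.castRingHom ℚ) (th ℤ * φ') = m • (th ℚ * φ) := by
    rw [map_mul, map_th, hmap, mul_smul_comm]
  have hc : ∀ n, coeff n (th ℚ * φ) = 0 → coeff n (th ℤ * φ') = 0 := fun n hn => by
    have h1 := congrArg (coeff n) key
    rw [coeff_map, map_smul, hn, smul_zero, eq_intCast, Int.cast_eq_zero] at h1
    exact h1
  have h3 := congrArg (map (Int.castRingHom ℚ))
    (algA H hφ' (fun n hn => hc n (h2 n hn)) fun n hn => hc _ (hsq n hn))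
  rw [map_pr, key, map_zero, map_smul, smul_eq_zero] at h3
  exact algA2 H h (h3.resolve_left hm)

lemma winj_dual (f : ℂ →ₗ[ℚ] ℚ) (ψ : ℚ⟦X⟧) (e : ℕ) (p : ℕ → ℂ) (n : ℕ) :
    f (coeff n (map (algebraMap ℚ ℂ) ψ * hom e p)) = coeff n (ψ * hom e fun j => f (p j)) := by
  simp only [hom, mul_sum, mul_smul_comm, map_sum, map_smul]
  refine sum_congr rfl fun j _ => ?_
  rw [← map_uu (algebraMap ℚ ℂ), ← map_FF (algebraMap ℚ ℂ), ← map_pow, ← map_pow, ← map_mul,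
    ← map_mul, coeff_map, smul_eq_mul, mul_comm, ← Algebra.smul_def, map_smul, smul_eq_mul,
    smul_eq_mul, mul_comm]

/-- Apply `ℚ`-linear functionals `ℂ → ℚ` to the coefficients of `φ = hom e p`. -/
theorem alg_inj (H : Facts) {e : ℕ} {φ : ℂ⟦X⟧} (h : φ ∈ Hom ℂ e)
    (h2 : ∀ n, n % 4 = 2 → coeff n (th ℂ * φ) = 0)
    (hsq : ∀ n, ¬ 3 ∣ n → coeff (n ^ 2) (th ℂ * φ) = 0) : φ = 0 := by
  obtain ⟨p, rfl⟩ := mem_Hom_iff.1 h
  ext n
  rw [map_zero, ← Module.forall_dual_apply_eq_zero_iff ℚ]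
  intro f
  have hc : ∀ n, coeff n (th ℂ * hom e p) = 0 →
      coeff n (th ℚ * hom e fun j => f (p j)) = 0 := fun n hn => by
    rw [← winj_dual, map_th, hn, map_zero]
  have h0 := alg_inj_rat H (hom_mem e fun j => f (p j)) (fun n hn => hc n (h2 n hn))
    fun n hn => hc _ (hsq n hn)
  have h1 := winj_dual f 1 e p n
  rw [map_one, one_mul, one_mul, h0, map_zero] at h1
  exact h1

lemma winj_split {K : Type*} [CommRing K] (μ : K) (a b : K⟦X⟧) : pkc μ a b =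
    (VV 4 (th K) * (VV 4 a + 2 * VV 4 (DD b)) - C μ * DD (VV 4 (th K)) * VV 4 b) +
      2 * (oc K * (VV 4 a + 2 * VV 4 (DD b)) - C μ * DD (oc K) * VV 4 b) := by
  have h : DD (th K) = DD (VV 4 (th K)) + 2 * DD (oc K) := by
    conv_lhs => rw [th_eq, two_mul, map_add, map_add]
    ring
  rw [pkc, h]
  linear_combination (VV 4 a + 2 * VV 4 (DD b)) * th_eq (K := K)

lemma winj_clsA {K : Type*} [CommRing K] (a b : K⟦X⟧) : Cls 4 0 (VV 4 a + 2 * VV 4 (DD b)) := by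
  rw [two_mul]
  exact (cls_VV _ _).add ((cls_VV _ _).add (cls_VV _ _))

lemma winj_cls0 {K : Type*} [CommRing K] (μ : K) (a b : K⟦X⟧) :
    Cls 4 0 (VV 4 (th K) * (VV 4 a + 2 * VV 4 (DD b)) - C μ * DD (VV 4 (th K)) * VV 4 b) :=
  ((cls_VV 4 _).mul (winj_clsA a b)).sub (((cls_C 4 μ).mul (cls_VV 4 _).DD).mul (cls_VV 4 b))

lemma winj_cls1 {K : Type*} [CommRing K] (μ : K) (a b : K⟦X⟧) :
    Cls 4 1 (2 * (oc K * (VV 4 a + 2 * VV 4 (DD b)) - C μ * DD (oc K) * VV 4 b)) := by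
  have h : Cls 4 1 (oc K * (VV 4 a + 2 * VV 4 (DD b)) - C μ * DD (oc K) * VV 4 b) :=
    (cls_oc.mul (winj_clsA a b)).sub (((cls_C 4 μ).mul cls_oc.DD).mul (cls_VV 4 b))
  rw [two_mul]
  exact h.add h

lemma winj_const_DD {K : Type*} [CommRing K] (φ : K⟦X⟧) : constantCoeff (DD φ) = 0 := by
  rw [← coeff_zero_eq_constantCoeff_apply]
  simp [DD]

lemma coeff_pkc {K : Type*} [CommRing K] (μ : K) (a b : K⟦X⟧) {n : ℕ} (hn : 2 ≤ n % 4) :
    coeff n (pkc μ a b) = 0 := by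
  rw [winj_split, map_add, winj_cls0 μ a b n (by omega), winj_cls1 μ a b n (by omega), add_zero]

lemma coeff_zero_pkc {K : Type*} [CommRing K] (μ : K) (a b : K⟦X⟧) :
    coeff 0 (pkc μ a b) = coeff 0 a := by
  have h1 : constantCoeff (th K) = 1 := by
    rw [← coeff_zero_eq_constantCoeff_apply, coeff_th]
    simp [thc]
  have h2 : ∀ φ : K⟦X⟧, constantCoeff (VV 4 φ) = constantCoeff φ := fun φ => by
    rw [← coeff_zero_eq_constantCoeff_apply, coeff_VV]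
    simp
  rw [pkc, coeff_zero_eq_constantCoeff_apply, coeff_zero_eq_constantCoeff_apply]
  simp only [map_sub, map_mul, map_add, h1, h2, winj_const_DD]
  simp

/-- Classes `0` and `1` modulo four give two equations; the Wronskian of `VV 4 th` and `oc` is
not zero. -/
theorem pkc_eq_zero {μ : ℂ} (hμ : μ ≠ 0) {a b : ℂ⟦X⟧} (h : pkc μ a b = 0) : a = 0 ∧ b = 0 := by
  rw [winj_split] at h
  have h0 := congrArg (pr 4 0) h
  rw [map_add, map_zero, (winj_cls0 μ a b).pr_self, (winj_cls1 μ a b).pr_ne one_ne_zero,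
    add_zero] at h0
  rw [h0, zero_add] at h
  have h1 := (mul_eq_zero.1 h).resolve_left fun h2 => by
    have h3 := congrArg constantCoeff h2
    rw [map_ofNat, map_zero] at h3
    exact two_ne_zero h3
  have hT : constantCoeff (VV 4 (th ℂ)) = 1 := by
    rw [← coeff_zero_eq_constantCoeff_apply, coeff_VV, if_pos (dvd_zero _), coeff_th]
    simp [thc]
  have hO : constantCoeff (oc ℂ) = 0 := by
    rw [← coeff_zero_eq_constantCoeff_apply, coeff_oc]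
    simp [occ]
  have hD : coeff 1 (DD (oc ℂ)) = 1 := by
    simp [DD, coeff_oc, occ]
  have hW : DD (VV 4 (th ℂ)) * oc ℂ - VV 4 (th ℂ) * DD (oc ℂ) ≠ 0 := fun hW => by
    have h2 := congrArg (coeff 1) hW
    rw [map_sub, coeff_one_mul, coeff_one_mul, hT, hO, hD, winj_const_DD, winj_const_DD] at h2
    simp at h2
  have hB : C μ * VV 4 b * (DD (VV 4 (th ℂ)) * oc ℂ - VV 4 (th ℂ) * DD (oc ℂ)) = 0 := by
    linear_combination VV 4 (th ℂ) * h1 - oc ℂ * h0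
  have hC : (C μ : ℂ⟦X⟧) ≠ 0 := fun hC => hμ (by simpa using congrArg constantCoeff hC)
  have hb : b = 0 := VV_injective (m := 4) (by norm_num) (by
    rw [map_zero]
    exact (mul_eq_zero.1 ((mul_eq_zero.1 hB).resolve_right hW)).resolve_left hC)
  refine ⟨VV_injective (m := 4) (by norm_num) ?_, hb⟩
  rw [hb, map_zero, map_zero, mul_zero, mul_zero, add_zero, sub_zero] at h0
  rw [map_zero]
  refine (mul_eq_zero.1 h0).resolve_left fun h3 => ?_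
  rw [h3, map_zero] at hT
  exact zero_ne_one hT

/-- `pkc = th * (VV 4 a + (DD b' - e QQ b') / 2)` with `b' = VV 4 b`. -/
theorem pkc_eq_mul (H : Facts) {e : ℕ} {a b : ℂ⟦X⟧} (ha : VV 4 a ∈ Hom ℂ (e + 1))
    (hb : VV 4 b ∈ Hom ℂ e) : ∃ φ ∈ Hom ℂ (e + 1), pkc (2 * e : ℂ) a b = th ℂ * φ := by
  refine ⟨VV 4 a + (1 / 2 : ℂ) • (DD (VV 4 b) - (e : ℂ⟦X⟧) * QQ ℂ * VV 4 b),
    add_mem ha (Submodule.smul_mem _ _ (H.serre hb)), ?_⟩
  have h2 : (C (1 / 2 : ℂ) : ℂ⟦X⟧) * 2 = 1 := by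
    rw [← map_ofNat (C : ℂ →+* ℂ⟦X⟧) 2, ← map_mul]
    simp
  rw [pkc, smul_eq_C_mul, DD_VV (by norm_num), QQ, ← th_mul_qq, map_mul, map_natCast, map_ofNat]
  push_cast
  linear_combination (2 * (e : ℂ⟦X⟧) * th ℂ * qq ℂ * VV 4 b - 2 * th ℂ * VV 4 (DD b)) * h2

theorem shim_pkc_inj (H : Facts) {e : ℕ} (he : e ≠ 0) {a b : ℂ⟦X⟧} (ha : VV 4 a ∈ Hom ℂ (e + 1))
    (hb : VV 4 b ∈ Hom ℂ e) {ψ : ℕ → ℂ} (h1 : ψ 1 = 1) (h : shim ψ (pkc (2 * e : ℂ) a b) = 0) :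
    a = 0 ∧ b = 0 := by
  obtain ⟨φ, hφ, hp⟩ := pkc_eq_mul H ha hb
  have h0 : φ = 0 := alg_inj H hφ (fun n hn => by rw [← hp]; exact coeff_pkc _ _ _ hn.ge)
    fun n hn => by
      rw [← hp]
      exact coeff_sq_of_shim h1 h fun h0 => hn (h0 ▸ dvd_zero 3)
  rw [h0, mul_zero] at hp
  exact pkc_eq_zero (mul_ne_zero two_ne_zero (Nat.cast_ne_zero.2 he)) hp

end Pool.Agent.Lib.MP_bcfefa_nt.W
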