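import Pool.Agent.Lib.MP_bcfefa_nt.WL4b
import Pool.Agent.Lib.MP_bcfefa_nt.WInj
import Pool.Agent.Lib.MP_bcfefa_nt.B.Defs

/-!
The injectivity statement used by block B.
-/

set_option autoImplicit false

noncomputable section

namespace Pool.Agent.Lib.MP_bcfefa_nt.W

open PowerSeries Finset CongruenceSubgroup UpperHalfPlane
open Pool.Agent.Lib.MP_88d29b_nt.G
open scoped MatrixGroups ModularForm Manifold

theorem inM_of_mem_MS {k : ℕ} {a : ℕ → ℂ} (h : a ∈ B.MS k) : InM ⊤ (k : ℤ) (mk a) := by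
  obtain ⟨f, hf⟩ := h
  have hq : QP f (mk a) := by simpa only [QP, coeff_mk] using hf.qs
  have hi : ∀ γ : SL(2, ℤ), sl (k : ℤ) f (γ : Mat) = f := fun γ => by
    funext z
    have h0 : B.den γ z ≠ 0 := by
      have := UpperHalfPlane.denom_ne_zero (γ : GL (Fin 2) ℝ) z
      rwa [ModularGroup.denom_apply] at this
    rw [sl_SL, ModularForm.SL_slash_apply, hf.inv, ModularGroup.denom_apply]
    change B.den γ z ^ k * f z * B.den γ z ^ (-(k : ℤ)) = f z
    rw [zpow_neg, zpow_natCast]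
    field_simp
  exact ⟨f, ⟨⟨hq.holo, fun γ => by rw [hi]; exact hq.bdd⟩, fun γ _ => hi γ⟩, hq⟩

theorem coeff_pkc_mk (μ : ℕ) (a b : ℕ → ℂ) (n : ℕ) :
    coeff n (pkc (μ : ℂ) (mk a) (mk b)) = B.cf μ a b n := by
  rw [pkc, mul_assoc, map_sub, coeff_C_mul, coeff_mul, coeff_mul, mul_sum, ← sum_sub_distrib, B.cf]
  refine sum_congr rfl fun p _ => ?_
  have h1 : ((thc p.1 : ℤ) : ℂ) = B.thc p.1 := by
    by_cases h0 : p.1 = 0
    · simp [thc, B.thc, h0]
    · by_cases hs : IsSquare p.1 <;> simp [thc, B.thc, h0, hs]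
  rw [two_mul, map_add, map_add, coeff_DD, coeff_th, h1]
  simp only [coeff_VV, B.V4, coeff_DD, coeff_mk]
  split_ifs with h
  · obtain ⟨m, hm⟩ := h
    rw [hm, Nat.mul_div_cancel_left _ (by norm_num : 0 < 4)]
    push_cast
    ring
  · ring

/-- `VV_four_mem_Hom`, `pkc_eq_mul`, `coeff_pkc`, `alg_inj`, `pkc_eq_zero`. -/
theorem inj_of_facts (H : Facts) {μ : ℕ} (hμ : Even μ) (h0 : 0 < μ) : B.Inj μ := by
  obtain ⟨e, rfl⟩ := hμ.two_dvd
  intro a ha b hb h
  obtain ⟨φ, hφ, hp⟩ := pkc_eq_mul H (VV_four_mem_Hom (e := e + 1) (inM_of_mem_MS ha))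
    (VV_four_mem_Hom (inM_of_mem_MS hb))
  have h1 : φ = 0 := alg_inj H hφ (fun n hn => by rw [← hp]; exact coeff_pkc _ _ _ hn.ge)
    fun n hn => by
      have h2 := coeff_pkc_mk (2 * e) a b (n ^ 2)
      rw [h n (Nat.pos_of_ne_zero fun h0 => hn (h0 ▸ dvd_zero 3))] at h2
      rw [← hp]
      exact_mod_cast h2
  rw [h1, mul_zero] at hp
  obtain ⟨h2, h3⟩ := pkc_eq_zero (mul_ne_zero two_ne_zero (Nat.cast_ne_zero.2 (by omega))) hp
  exact ⟨funext fun n => by simpa using congrArg (coeff n) h2,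
    funext fun n => by simpa using congrArg (coeff n) h3⟩

end Pool.Agent.Lib.MP_bcfefa_nt.W
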