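import Pool.Agent.Lib.MP_bcfefa_nt.WTri

/-!
Identities obtained from `Facts` by comparing the first coefficients. Prove them over
`ℂ` with `eq_of_mem_Hom`, descend to `ℤ` (`PowerSeries.map_injective`), and map to `K`.
-/

set_option autoImplicit false

noncomputable section

namespace Pool.Agent.Lib.MP_bcfefa_nt.W

open PowerSeries Finset

variable {K : Type*} [CommRing K]

theorem wcoef_inj : Function.Injective (Int.castRingHom ℂ) := Int.cast_injective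

theorem wcoef_desc {a b : ℤ⟦X⟧}
    (h : map (Int.castRingHom ℂ) a = map (Int.castRingHom ℂ) b) :
    map (Int.castRingHom K) a = map (Int.castRingHom K) b :=
  congrArg _ (map_injective _ wcoef_inj h)

theorem wcoef_nat (m n : ℕ) [m.AtLeastTwo] (φ : K⟦X⟧) :
    coeff n (ofNat(m) * φ) = ofNat(m) * coeff n φ := by
  rw [← map_ofNat (C : K →+* K⟦X⟧) m, coeff_C_mul]

theorem wcoef_mem (m : ℕ) [m.AtLeastTwo] {e : ℕ} {φ : K⟦X⟧} (h : φ ∈ Hom K e) :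
    ofNat(m) * φ ∈ Hom K e := natCast_mul_mem_Hom m h

theorem wcoef_uF : uu K * FF K ∈ Hom K 2 :=
  mul_mem_Hom (e := 1) (e' := 1) uu_mem_Hom FF_mem_Hom

theorem wcoef_uu : uu K ^ 2 ∈ Hom K 2 := pow_mem_Hom uu_mem_Hom 2

theorem wcoef_FF : FF K ^ 2 ∈ Hom K 2 := pow_mem_Hom FF_mem_Hom 2

theorem wcoef_mul0 (φ ψ : K⟦X⟧) : coeff 0 (φ * ψ) = coeff 0 φ * coeff 0 ψ := by
  simp

theorem wcoef_mul1 (φ ψ : K⟦X⟧) :
    coeff 1 (φ * ψ) = coeff 0 φ * coeff 1 ψ + coeff 1 φ * coeff 0 ψ := by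
  simp [coeff_mul, Nat.antidiagonal_succ]

theorem wcoef_mul2 (φ ψ : K⟦X⟧) : coeff 2 (φ * ψ) =
    coeff 0 φ * coeff 2 ψ + coeff 1 φ * coeff 1 ψ + coeff 2 φ * coeff 0 ψ := by
  simp [coeff_mul, Nat.antidiagonal_succ, add_assoc]

theorem wcoef_q : coeff 0 (qq K) = 0 ∧ coeff 1 (qq K) = 2 ∧ coeff 2 (qq K) = -4 :=
  ⟨by simpa using coeff_qq (K := K) 0, by simpa using coeff_qq (K := K) 1,
    by simpa using coeff_qq (K := K) 2⟩

theorem wcoef_u : coeff 0 (uu K) = 1 ∧ coeff 1 (uu K) = 8 ∧ coeff 3 (uu K) = 32 :=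
  ⟨coeff_zero_uu, by simpa using coeff_uu (K := K) 1, by simpa using coeff_uu (K := K) 3⟩

theorem wcoef_F : coeff 0 (FF K) = 0 ∧ coeff 1 (FF K) = 1 ∧ coeff 2 (FF K) = 0 ∧
    coeff 3 (FF K) = 4 :=
  ⟨coeff_zero_FF, coeff_one_FF, by simpa using coeff_FF (K := K) 2,
    by simpa using coeff_FF (K := K) 3⟩

theorem wcoef_a : coeff 0 (uu K ^ 2) = 1 ∧ coeff 1 (uu K ^ 2) = 16 ∧ coeff 2 (uu K ^ 2) = 112 ∧
    coeff 3 (uu K ^ 2) = 448 ∧ coeff 6 (uu K ^ 2) = 3136 :=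
  ⟨by simpa using coeff_uu_sq (K := K) 0, by simpa using coeff_uu_sq (K := K) 1,
    by simpa using coeff_uu_sq (K := K) 2, by simpa using coeff_uu_sq (K := K) 3,
    by simpa using coeff_uu_sq (K := K) 6⟩

theorem wcoef_b : coeff 0 (uu K * FF K) = 0 ∧ coeff 1 (uu K * FF K) = 1 ∧
    coeff 2 (uu K * FF K) = 8 ∧ coeff 3 (uu K * FF K) = 28 ∧ coeff 6 (uu K * FF K) = 224 :=
  ⟨by simpa using coeff_uu_FF (K := K) 0, by simpa using coeff_uu_FF (K := K) 1,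
    by simpa using coeff_uu_FF (K := K) 2, by simpa using coeff_uu_FF (K := K) 3,
    by simpa using coeff_uu_FF (K := K) 6⟩

theorem wcoef_c : coeff 0 (FF K ^ 2) = 0 ∧ coeff 1 (FF K ^ 2) = 0 ∧ coeff 2 (FF K ^ 2) = 1 ∧
    coeff 3 (FF K ^ 2) = 0 ∧ coeff 6 (FF K ^ 2) = 28 :=
  ⟨by simpa using coeff_FF_sq (K := K) 0, by simpa using coeff_FF_sq (K := K) 1,
    by simpa using coeff_FF_sq (K := K) 2, by simpa using coeff_FF_sq (K := K) 3,
    by simpa using coeff_FF_sq (K := K) 6⟩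

theorem Facts.d2 (H : Facts) : DD (FF K) = QQ K * FF K + FF K * (uu K - 16 * FF K) := by
  have h : DD (FF ℂ) - QQ ℂ * FF ℂ = uu ℂ * FF ℂ - 16 * FF ℂ ^ 2 := by
    refine eq_of_mem_Hom H.m2 (Submodule.sub_mem _ wcoef_uF (wcoef_mem 16 wcoef_FF)) fun n hn => ?_
    obtain ⟨q0, q1, q2⟩ := wcoef_q (K := ℂ)
    obtain ⟨f0, f1, f2, -⟩ := wcoef_F (K := ℂ)
    obtain ⟨b0, b1, b2, -⟩ := wcoef_b (K := ℂ)
    obtain ⟨c0, c1, c2, -⟩ := wcoef_c (K := ℂ)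
    rw [QQ, mul_assoc, map_sub, map_sub, wcoef_nat, wcoef_nat, coeff_DD]
    interval_cases n
    · rw [wcoef_mul0, q0, f0, b0, c0]; norm_num
    · rw [wcoef_mul1, q0, q1, f0, f1, b1, c1]; norm_num
    · rw [wcoef_mul2, q0, q1, q2, f0, f1, f2, b2, c2]; norm_num
  have h1 := wcoef_desc (K := K) (a := DD (FF ℤ) - QQ ℤ * FF ℤ) (b := uu ℤ * FF ℤ - 16 * FF ℤ ^ 2)
    (by simpa only [map_sub, map_mul, map_pow, map_ofNat, map_DD, map_FF, map_QQ, map_uu] using h)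
  simp only [map_sub, map_mul, map_pow, map_ofNat, map_DD, map_FF, map_QQ, map_uu] at h1
  linear_combination h1

theorem Facts.d3 (H : Facts) : DD (qq K) = 2 * qq K ^ 2 + 2 * FF K * (uu K - 16 * FF K) := by
  have h : DD (qq ℂ) - 2 * qq ℂ ^ 2 = 2 * (uu ℂ * FF ℂ) - 32 * FF ℂ ^ 2 := by
    refine eq_of_mem_Hom H.m3 (Submodule.sub_mem _ (wcoef_mem 2 wcoef_uF) (wcoef_mem 32 wcoef_FF))
      fun n hn => ?_
    obtain ⟨q0, q1, q2⟩ := wcoef_q (K := ℂ)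
    obtain ⟨b0, b1, b2, -⟩ := wcoef_b (K := ℂ)
    obtain ⟨c0, c1, c2, -⟩ := wcoef_c (K := ℂ)
    rw [sq (qq ℂ), map_sub, map_sub, wcoef_nat, wcoef_nat, wcoef_nat, coeff_DD]
    interval_cases n
    · rw [wcoef_mul0, q0, b0, c0]; norm_num
    · rw [wcoef_mul1, q0, q1, b1, c1]; norm_num
    · rw [wcoef_mul2, q0, q1, q2, b2, c2]; norm_num
  have h1 := wcoef_desc (K := K) (a := DD (qq ℤ) - 2 * qq ℤ ^ 2)
    (b := 2 * (uu ℤ * FF ℤ) - 32 * FF ℤ ^ 2)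
    (by simpa only [map_sub, map_mul, map_pow, map_ofNat, map_DD, map_FF, map_qq, map_uu] using h)
  simp only [map_sub, map_mul, map_pow, map_ofNat, map_DD, map_FF, map_qq, map_uu] at h1
  linear_combination h1

theorem Facts.e4 (H : Facts) : e4s K = uu K ^ 2 + 224 * uu K * FF K + 256 * FF K ^ 2 := by
  have h : e4s ℂ = uu ℂ ^ 2 + 224 * (uu ℂ * FF ℂ) + 256 * FF ℂ ^ 2 := by
    refine eq_of_mem_Hom H.m4 (Submodule.add_mem _ (Submodule.add_mem _ wcoef_uu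
      (wcoef_mem 224 wcoef_uF)) (wcoef_mem 256 wcoef_FF)) fun n hn => ?_
    obtain ⟨a0, a1, a2, -⟩ := wcoef_a (K := ℂ)
    obtain ⟨b0, b1, b2, -⟩ := wcoef_b (K := ℂ)
    obtain ⟨c0, c1, c2, -⟩ := wcoef_c (K := ℂ)
    have s2 : ArithmeticFunction.sigma 3 2 = 9 := by decide
    rw [map_add, map_add, wcoef_nat, wcoef_nat, e4s, coeff_mk]
    interval_cases n
    · rw [a0, b0, c0]; norm_num
    · rw [a1, b1, c1]; norm_num
    · rw [a2, b2, c2, s2]; norm_num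
  have h1 := wcoef_desc (K := K) (a := e4s ℤ)
    (b := uu ℤ ^ 2 + 224 * (uu ℤ * FF ℤ) + 256 * FF ℤ ^ 2)
    (by simpa only [map_add, map_mul, map_pow, map_ofNat, map_e4s, map_FF, map_uu] using h)
  simp only [map_add, map_mul, map_pow, map_ofNat, map_e4s, map_FF, map_uu] at h1
  linear_combination h1

theorem Facts.jac (H : Facts) : th' K ^ 4 = uu K - 16 * FF K := by
  have h : th' ℂ ^ 4 = uu ℂ - 16 * FF ℂ := by
    refine eq_of_mem_Hom H.mj (Submodule.sub_mem _ uu_mem_Hom (wcoef_mem 16 FF_mem_Hom))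
      fun n hn => ?_
    obtain ⟨u0, u1, -⟩ := wcoef_u (K := ℂ)
    obtain ⟨f0, f1, -⟩ := wcoef_F (K := ℂ)
    rw [th', ← map_pow, ← uu, coeff_rescale, map_sub, wcoef_nat]
    interval_cases n
    · rw [u0, f0]; norm_num
    · rw [u1, f1]; norm_num
  have h1 := wcoef_desc (K := K) (a := th' ℤ ^ 4) (b := uu ℤ - 16 * FF ℤ)
    (by simpa only [map_sub, map_mul, map_pow, map_ofNat, map_th', map_FF, map_uu] using h)
  simpa only [map_sub, map_mul, map_pow, map_ofNat, map_th', map_FF, map_uu] using h1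

theorem wcoef_three : (3 : F3⟦X⟧) = 0 := by
  rw [← map_ofNat (C : F3 →+* F3⟦X⟧) 3, show (3 : F3) = 0 from rfl, map_zero]

/-- Modulo three `e4` reads `(uu + FF) ^ 2 = 1`; `F3⟦X⟧` is a domain. -/
theorem Facts.FF3 (H : Facts) : FF F3 = 1 - uu F3 := by
  have h1 : e4s F3 = 1 := by
    ext n
    rw [e4s, coeff_mk, coeff_one, show (240 : F3) = 0 from rfl, zero_mul]
  have h2 : (uu F3 + FF F3) * (uu F3 + FF F3) = 1 := by
    linear_combination h1 - H.e4 (K := F3) - (74 * uu F3 * FF F3 + 85 * FF F3 ^ 2) * wcoef_three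
  rcases mul_self_eq_one_iff.1 h2 with e | e
  · linear_combination e
  · have h3 := congrArg (coeff 0) e
    rw [map_add, coeff_zero_uu, coeff_zero_FF, map_neg, coeff_zero_one] at h3
    have h4 : ¬ (1 + 0 : F3) = -1 := by decide
    exact absurd h3 h4

theorem Facts.hs (H : Facts) : ∃ ψ : ℤ⟦X⟧, uu ℤ + 16 * FF ℤ = 1 + 3 * ψ := by
  have h1 : map (Int.castRingHom F3) (uu ℤ + 16 * FF ℤ - 1) = 0 := by
    simp only [map_sub, map_add, map_mul, map_ofNat, map_one, map_uu, map_FF]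
    linear_combination H.FF3 + 5 * FF F3 * wcoef_three
  have h2 : ∀ n, (3 : ℤ) ∣ coeff n (uu ℤ + 16 * FF ℤ - 1) := fun n => by
    have h3 := congrArg (coeff n) h1
    rw [coeff_map, map_zero] at h3
    exact (ZMod.intCast_zmod_eq_zero_iff_dvd _ 3).1 h3
  choose c hc using h2
  refine ⟨PowerSeries.mk c, sub_eq_iff_eq_add'.1 ?_⟩
  ext n
  rw [hc, wcoef_nat, coeff_mk]

theorem wcoef_log {φ a : K⟦X⟧} (h : DD φ = a * φ) (n : ℕ) :
    DD (φ ^ n) = (n : K⟦X⟧) * a * φ ^ n := by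
  induction n with
  | zero => simp [DD_one]
  | succ n ih =>
    rw [pow_succ, DD_mul, ih, h]
    push_cast
    ring

/-- The Serre derivative. Check on the generators with `DD_uu`, `d2`. -/
theorem Facts.serre (H : Facts) {e : ℕ} {φ : K⟦X⟧} (h : φ ∈ Hom K e) :
    DD φ - (e : K⟦X⟧) * QQ K * φ ∈ Hom K (e + 1) := by
  have key : Hom K e ≤ (Hom K (e + 1)).comap
      (DD - LinearMap.mulLeft K ((e : K⟦X⟧) * QQ K)) := by
    refine Submodule.span_le.2 ?_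
    rintro _ ⟨j, rfl⟩
    have h1 : DD (FF K) = (QQ K + (uu K - 16 * FF K)) * FF K := by rw [H.d2]; ring
    have h2 : uu K ^ (e - (j : ℕ)) * FF K ^ (j : ℕ) ∈ Hom K e := Submodule.subset_span ⟨j, rfl⟩
    have h3 := natCast_mul_mem_Hom j
      (mul_mem_Hom h2 (Submodule.sub_mem _ uu_mem_Hom (wcoef_mem 16 FF_mem_Hom)))
    have h4 : (e : K⟦X⟧) = ((e - (j : ℕ) : ℕ) : K⟦X⟧) + ((j : ℕ) : K⟦X⟧) := by
      rw [← Nat.cast_add, Nat.sub_add_cancel (Nat.le_of_lt_succ j.2)]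
    show DD (uu K ^ (e - (j : ℕ)) * FF K ^ (j : ℕ)) -
      (e : K⟦X⟧) * QQ K * (uu K ^ (e - (j : ℕ)) * FF K ^ (j : ℕ)) ∈ Hom K (e + 1)
    refine (congrArg (· ∈ Hom K (e + 1)) ?_).mpr h3
    rw [DD_mul, wcoef_log DD_uu, wcoef_log h1, h4]
    ring
  exact key h

theorem Facts.tyZ (H : Facts) {l : ℕ} (hl : l.Prime) {e : ℕ} (k : ℕ) {φ : ℤ⟦X⟧}
    (h : φ ∈ Hom ℤ e) : adH l e k φ ∈ Hom ℤ (e + k) := by
  refine mem_Hom_of_map _ wcoef_inj ?_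
  rw [map_adH]
  exact H.ty l hl e k _ (map_mem_Hom _ h)

/-- `ty` with `l = 3`, `k = 0`, divided by three. -/
theorem Facts.T3Z (H : Facts) {e : ℕ} {φ : ℤ⟦X⟧} (h : φ ∈ Hom ℤ (e + 1)) :
    UU 3 φ + 3 ^ (2 * e + 1) * VV 3 φ ∈ Hom ℤ (e + 1) := by
  refine mem_Hom_of_smul (m := 3) (by norm_num) ?_
  refine (congrArg (· ∈ Hom ℤ (e + 1)) ?_).mpr (H.tyZ Nat.prime_three 0 h)
  simp only [adH, zero_add, sum_range_one, Nat.choose_self, Nat.cast_one, Nat.sub_self, pow_zero,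
    mul_one, one_mul, if_neg (show (3 : ℕ) ≠ 2 by decide), zsmul_eq_mul]
  push_cast
  ring

theorem wcoef_T3 (H : Facts) (e c : ℕ) (hg : ∀ j : Fin (e + 1 + 1), ∀ n ≤ e + 1,
    coeff (3 * n) (uu ℤ ^ (e + 1 - (j : ℕ)) * FF ℤ ^ (j : ℕ)) + 3 ^ (2 * e + 1) *
      coeff n (VV 3 (uu ℤ ^ (e + 1 - (j : ℕ)) * FF ℤ ^ (j : ℕ))) =
        c * coeff n (uu ℤ ^ (e + 1 - (j : ℕ)) * FF ℤ ^ (j : ℕ))) {φ : K⟦X⟧}
    (h : φ ∈ Hom K (e + 1)) : UU 3 φ + 3 ^ (2 * e + 1) * VV 3 φ = c * φ := by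
  have key : Hom K (e + 1) ≤ LinearMap.eqLocus
      (UU 3 + LinearMap.mulLeft K (3 ^ (2 * e + 1)) ∘ₗ VV 3) (LinearMap.mulLeft K (c : K⟦X⟧)) := by
    refine Submodule.span_le.2 ?_
    rintro _ ⟨j, rfl⟩
    have h2 : uu ℤ ^ (e + 1 - (j : ℕ)) * FF ℤ ^ (j : ℕ) ∈ Hom ℤ (e + 1) :=
      Submodule.subset_span ⟨j, rfl⟩
    have h3 := eq_of_mem_Hom (H.T3Z h2) (natCast_mul_mem_Hom c h2) fun n hn => by
      rw [map_add, coeff_UU, ← map_ofNat (C : ℤ →+* ℤ⟦X⟧) 3, ← map_pow, coeff_C_mul,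
        ← map_natCast (C : ℤ →+* ℤ⟦X⟧) c, coeff_C_mul]
      exact hg j n hn
    have h4 := congrArg (map (Int.castRingHom K)) h3
    simp only [map_add, map_mul, map_pow, map_ofNat, map_natCast, map_UU, map_VV, map_uu,
      map_FF] at h4
    exact h4
  exact key h

theorem Facts.T3_one (H : Facts) {φ : K⟦X⟧} (h : φ ∈ Hom K 1) :
    UU 3 φ + 3 * VV 3 φ = 4 * φ := by
  obtain ⟨u0, u1, u3⟩ := wcoef_u (K := ℤ)
  obtain ⟨f0, f1, -, f3⟩ := wcoef_F (K := ℤ)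
  have key := wcoef_T3 H 0 4 (fun j n hn => by
    fin_cases j <;> interval_cases n <;>
      simp [coeff_VV, -coeff_zero_eq_constantCoeff, u0, u1, u3, f0, f1, f3]) h
  simpa using key

theorem Facts.T3_two (H : Facts) {φ : K⟦X⟧} (h : φ ∈ Hom K 2) :
    UU 3 φ + 27 * VV 3 φ = 28 * φ := by
  obtain ⟨a0, a1, a2, a3, a6⟩ := wcoef_a (K := ℤ)
  obtain ⟨b0, b1, b2, b3, b6⟩ := wcoef_b (K := ℤ)
  obtain ⟨c0, c1, c2, c3, c6⟩ := wcoef_c (K := ℤ)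
  have key := wcoef_T3 H 1 28 (fun j n hn => by
    fin_cases j <;> interval_cases n <;>
      simp [coeff_VV, -coeff_zero_eq_constantCoeff, a0, a1, a2, a3, a6, b0, b1, b2, b3, b6, c0,
        c1, c2, c3, c6]) h
  rw [show (27 : K⟦X⟧) = 3 ^ (2 * 1 + 1) by norm_num, key]
  norm_num

end Pool.Agent.Lib.MP_bcfefa_nt.W
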