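import Pool.Agent.Lib.MP_bcfefa_nt.WCoef

/-!
The ring of polynomials in `uu` modulo three.
-/

set_option autoImplicit false

noncomputable section

namespace Pool.Agent.Lib.MP_bcfefa_nt.W

open PowerSeries Finset

lemma ev_X : ev Polynomial.X = uu F3 := by simp [ev]

lemma wm3a_three : (3 : F3⟦X⟧) = 0 := by
  have h : (3 : F3⟦X⟧) = C (3 : F3) := (map_ofNat (C : F3 →+* F3⟦X⟧) 3).symm
  have h3 : (3 : F3) = 0 := by decide
  rw [h, h3, map_zero]

/-- `uu - 1` is nonzero without constant term (`coeff_uu`); `aeval_eq_zero` after `taylor`. -/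
theorem ev_injective : Function.Injective ev := by
  rw [injective_iff_map_eq_zero]
  intro P hP
  have h0 : coeff 0 (uu F3 - 1) = 0 := by
    rw [map_sub, coeff_zero_uu]
    simp
  have hne : uu F3 - 1 ≠ 0 := by
    intro h
    have h1 : coeff 1 (uu F3 - 1) = 0 := by rw [h, map_zero]
    have h2 : coeff 1 (uu F3) = ((8 : ℤ) : F3) := coeff_uu (K := F3) 1
    rw [map_sub, h2, coeff_one, if_neg one_ne_zero] at h1
    revert h1
    decide
  have hT : Polynomial.aeval (uu F3 - 1) (Polynomial.taylor (1 : F3) P) = 0 := by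
    rw [Polynomial.taylor_apply, Polynomial.aeval_comp]
    simpa [ev] using hP
  have h := aeval_eq_zero h0 hne hT
  exact Polynomial.taylor_injective (1 : F3) (by rw [h, map_zero])

lemma coeff_zero_ev (P : Polynomial F3) : coeff 0 (ev P) = P.eval 1 := by
  have hu : constantCoeff (uu F3) = 1 := by
    rw [← coeff_zero_eq_constantCoeff_apply]
    exact coeff_zero_uu
  rw [coeff_zero_eq_constantCoeff_apply]
  induction P using Polynomial.induction_on' with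
  | add p q hp hq => rw [map_add, map_add, hp, hq, Polynomial.eval_add]
  | monomial n a =>
    simp [ev, Polynomial.aeval_monomial, hu]

lemma mem_Rlt {n : ℕ} {x : F3⟦X⟧} : x ∈ Rlt n ↔ ∃ P : Polynomial F3, P.degree < n ∧ ev P = x := by
  unfold Rlt
  rw [Submodule.mem_map]
  constructor
  · rintro ⟨P, hP, rfl⟩
    exact ⟨P, Polynomial.mem_degreeLT.mp hP, rfl⟩
  · rintro ⟨P, hP, rfl⟩
    exact ⟨P, Polynomial.mem_degreeLT.mpr hP, rfl⟩

lemma ev_mem_Rlt {n : ℕ} {P : Polynomial F3} : ev P ∈ Rlt n ↔ P.degree < n := by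
  rw [mem_Rlt]
  constructor
  · rintro ⟨Q, hQ, h⟩
    rw [← ev_injective h]
    exact hQ
  · intro h
    exact ⟨P, h, rfl⟩

lemma mem_R0 {n : ℕ} {x : F3⟦X⟧} : x ∈ R0 n ↔ x ∈ Rlt n ∧ coeff 0 x = 0 := by
  unfold R0
  rw [Submodule.mem_inf, LinearMap.mem_ker]

lemma Rlt_zero : Rlt 0 = ⊥ := by
  rw [eq_bot_iff]
  intro x hx
  obtain ⟨P, hP, rfl⟩ := mem_Rlt.mp hx
  have h : P = 0 := by
    rw [← Polynomial.degree_eq_bot]
    exact Nat.WithBot.lt_zero_iff.mp (by simpa using hP)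
  rw [h, map_zero]
  exact Submodule.zero_mem _

lemma Rlt_mono {n n' : ℕ} (h : n ≤ n') : Rlt n ≤ Rlt n' := by
  intro x hx
  obtain ⟨P, hP, rfl⟩ := mem_Rlt.mp hx
  exact mem_Rlt.mpr ⟨P, lt_of_lt_of_le hP (by exact_mod_cast h), rfl⟩

lemma R0_mono {n n' : ℕ} (h : n ≤ n') : R0 n ≤ R0 n' := by
  intro x hx
  exact mem_R0.mpr ⟨Rlt_mono h (mem_R0.mp hx).1, (mem_R0.mp hx).2⟩

lemma wm3a_natDegree {a : ℕ} {P : Polynomial F3} :
    P.degree < ((a + 1 : ℕ) : WithBot ℕ) ↔ P.natDegree ≤ a := by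
  rw [Polynomial.natDegree_le_iff_degree_le]
  rcases eq_or_ne P 0 with rfl | hP
  · simp
  · rw [Polynomial.degree_eq_natDegree hP, Nat.cast_lt, Nat.cast_le, Nat.lt_succ_iff]

lemma mul_mem_Rlt {a b : ℕ} {x y : F3⟦X⟧} (hx : x ∈ Rlt (a + 1)) (hy : y ∈ Rlt b) :
    x * y ∈ Rlt (a + b) := by
  obtain ⟨P, hP, rfl⟩ := mem_Rlt.mp hx
  rcases b with _ | b
  · rw [Rlt_zero, Submodule.mem_bot] at hy
    rw [hy, mul_zero]
    exact Submodule.zero_mem _
  · obtain ⟨Q, hQ, rfl⟩ := mem_Rlt.mp hy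
    rw [← map_mul, ev_mem_Rlt, ← Nat.add_assoc, wm3a_natDegree]
    exact Polynomial.natDegree_mul_le.trans
      (Nat.add_le_add (wm3a_natDegree.mp hP) (wm3a_natDegree.mp hQ))

lemma pow_mem_Rlt {a : ℕ} {x : F3⟦X⟧} (hx : x ∈ Rlt (a + 1)) (k : ℕ) :
    x ^ k ∈ Rlt (a * k + 1) := by
  obtain ⟨P, hP, rfl⟩ := mem_Rlt.mp hx
  rw [← map_pow, ev_mem_Rlt, wm3a_natDegree, mul_comm]
  exact Polynomial.natDegree_pow_le.trans (Nat.mul_le_mul_left k (wm3a_natDegree.mp hP))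

lemma VV_ev (P : Polynomial F3) : VV 3 (ev P) = ev (Polynomial.expand F3 3 P) := by
  unfold ev
  rw [VV_aeval (by norm_num), ← pow_three, Polynomial.expand_aeval]

lemma VV_mem_Rlt {a : ℕ} {x : F3⟦X⟧} (hx : x ∈ Rlt (a + 1)) : VV 3 x ∈ Rlt (3 * a + 1) := by
  obtain ⟨P, hP, rfl⟩ := mem_Rlt.mp hx
  rw [VV_ev, ev_mem_Rlt, wm3a_natDegree, Polynomial.natDegree_expand, mul_comm]
  exact Nat.mul_le_mul_left 3 (wm3a_natDegree.mp hP)

lemma wm3a_QQ : QQ F3 = qq F3 := by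
  unfold QQ
  linear_combination (qq F3) * wm3a_three

lemma wm3a_qq (H : Facts) : qq F3 = 1 - uu F3 ^ 2 := by
  have h2 := H.d2 (K := F3)
  rw [H.FF3, map_sub, DD_one, DD_uu, wm3a_QQ] at h2
  linear_combination (-1 : F3⟦X⟧) * h2 +
    (5 - 11 * uu F3 + 6 * uu F3 ^ 2) * wm3a_three

theorem DD_uu3 (H : Facts) : DD (uu F3) = uu F3 - uu F3 ^ 3 := by
  rw [DD_uu, wm3a_QQ, wm3a_qq H]
  ring

/-- From `FF3`, `d2`, `DD_uu`: `qq = 1 - uu ^ 2`. -/
theorem qq3 (H : Facts) : qq F3 = 1 - uu F3 ^ 2 := by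
  exact wm3a_qq H

lemma QQ3 : QQ F3 = qq F3 := by
  exact wm3a_QQ

lemma qq_mem_Rlt (H : Facts) : qq F3 ∈ Rlt 3 := by
  have h : qq F3 = ev (1 - Polynomial.X ^ 2) := by
    rw [qq3 H, map_sub, map_one, map_pow, ev_X]
  rw [h, ev_mem_Rlt]
  refine (wm3a_natDegree (a := 2)).mpr ?_
  compute_degree

lemma FF_mem_Rlt (H : Facts) : FF F3 ∈ Rlt 2 := by
  have h : FF F3 = ev (1 - Polynomial.X) := by
    rw [H.FF3, map_sub, map_one, ev_X]
  rw [h, ev_mem_Rlt]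
  refine (wm3a_natDegree (a := 1)).mpr ?_
  compute_degree

end Pool.Agent.Lib.MP_bcfefa_nt.W
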