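import Pool.Agent.Lib.MP_bcfefa_nt.WRvz
import Pool.Agent.Lib.MP_bcfefa_nt.WCoef
import Pool.Agent.Lib.MP_bcfefa_nt.WM3a

/-!
Descent: the class one part of `th * φ`, divided by the largest power of three, is
`th` times a polynomial in `uu` modulo three.
-/

set_option autoImplicit false

noncomputable section

namespace Pool.Agent.Lib.MP_bcfefa_nt.W

open PowerSeries Finset

lemma wdesc_serre (d : ℕ) (φ : ℤ⟦X⟧) :
    DD (th ℤ * φ) - ((4 * d + 1 : ℕ) : ℤ⟦X⟧) * qq ℤ * (th ℤ * φ) =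
      th ℤ * (DD φ - (d : ℤ⟦X⟧) * QQ ℤ * φ) := by
  rw [DD_mul, ← th_mul_qq, QQ]
  push_cast
  ring

lemma wdesc_lin (c : ℤ) : uu ℤ + (c : ℤ⟦X⟧) * FF ℤ ∈ Hom ℤ 1 := by
  rw [← zsmul_eq_mul]
  exact add_mem uu_mem_Hom (Submodule.smul_mem _ c FF_mem_Hom)

lemma wdesc_w : uu ℤ + 16 * FF ℤ ∈ Hom ℤ 1 := by
  simpa using wdesc_lin 16

lemma wdesc_r : 2 * FF ℤ * (uu ℤ - 16 * FF ℤ) ∈ Hom ℤ 2 := by
  have h1 : uu ℤ - 16 * FF ℤ ∈ Hom ℤ 1 := by simpa [sub_eq_add_neg] using wdesc_lin (-16)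
  have h2 := natCast_mul_mem_Hom 2 (mul_mem_Hom (FF_mem_Hom (K := ℤ)) h1)
  rwa [Nat.cast_ofNat, ← mul_assoc] at h2

lemma wdesc_three : (3 : F3⟦X⟧) = 0 := by
  rw [← map_ofNat (C : F3 →+* F3⟦X⟧) 3, show (3 : F3) = 0 from rfl, map_zero]

lemma wdesc_red_three (y : ℤ⟦X⟧) : red (3 * y) = 0 := by
  rw [map_mul, map_ofNat, wdesc_three, zero_mul]

lemma wdesc_dvd {h : ℤ⟦X⟧} (h0 : red h = 0) : ∃ h', h = 3 * h' := by
  refine ⟨mk fun n => coeff n h / 3, PowerSeries.ext fun n => ?_⟩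
  have h1 : ((coeff n h : ℤ) : ZMod 3) = 0 := by
    simpa [red] using congrArg (coeff n) h0
  rw [← map_ofNat (C : ℤ →+* ℤ⟦X⟧) 3, coeff_C_mul, coeff_mk]
  exact (Int.mul_ediv_cancel' ((ZMod.intCast_zmod_eq_zero_iff_dvd _ 3).1 h1)).symm

/-- Two-step induction with `Facts.serre`, `th_mul_qq`. -/
theorem rvz_mem (H : Facts) {e : ℕ} {φ : ℤ⟦X⟧} (h : φ ∈ Hom ℤ e) (j : ℕ) :
    ∃ φ' ∈ Hom ℤ (e + j),
      rvz (4 * e + 1) (qq ℤ) (2 * FF ℤ * (uu ℤ - 16 * FF ℤ)) (th ℤ * φ) j = th ℤ * φ' := by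
  induction j using Nat.twoStepInduction with
  | zero => exact ⟨φ, h, rfl⟩
  | one => exact ⟨_, H.serre h, wdesc_serre e φ⟩
  | more j ih0 ih1 =>
    obtain ⟨φ0, h0, e0⟩ := ih0
    obtain ⟨φ1, h1, e1⟩ := ih1
    have h2 := H.serre h1
    have h3 := mul_mem_Hom h0 wdesc_r
    rw [add_assoc e, add_assoc j, one_add_one_eq_two] at h2
    rw [add_assoc e] at h3
    refine ⟨DD φ1 - ((e + (j + 1) : ℕ) : ℤ⟦X⟧) * QQ ℤ * φ1 +
      (((j + 1) * (4 * e + 1 + 2 * j) : ℕ) : ℤ⟦X⟧) * (φ0 * (2 * FF ℤ * (uu ℤ - 16 * FF ℤ))),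
      add_mem h2 (natCast_mul_mem_Hom _ h3), ?_⟩
    rw [rvz, e0, e1, show 4 * e + 1 + 4 * (j + 1) = 4 * (e + (j + 1)) + 1 by ring, wdesc_serre]
    ring

/-- `rvz_cong` for `n = 3 ^ t` and `2 * 3 ^ t`, `two_pr_cong`, and homogenisation with
`(uu + 16 FF) ^ (3 ^ t) ≡ 1`. -/
theorem pr_cong (H : Facts) {e : ℕ} {φ : ℤ⟦X⟧} (h : φ ∈ Hom ℤ e) (t : ℕ) :
    ∃ e' : ℕ, ∃ φ' ∈ Hom ℤ e', ∃ y : ℤ⟦X⟧, 2 * pr 3 1 (th ℤ * φ) = th ℤ * φ' + 3 ^ t * y := by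
  obtain ⟨φ1, h1, e1⟩ := rvz_mem H h (3 ^ t)
  obtain ⟨φ2, h2, e2⟩ := rvz_mem H h (2 * 3 ^ t)
  obtain ⟨y1, c1⟩ := rvz_cong (4 * e + 1) H.d3 (th ℤ * φ) (dvd_refl (3 ^ t))
  obtain ⟨y2, c2⟩ := rvz_cong (4 * e + 1) H.d3 (th ℤ * φ) (dvd_mul_left (3 ^ t) 2)
  obtain ⟨y0, c0⟩ := two_pr_cong (th ℤ * φ) t
  obtain ⟨ψ, hψ⟩ := H.hs
  obtain ⟨z, hz⟩ := dvd_sub_pow_of_dvd_sub (p := 3) (a := uu ℤ + 16 * FF ℤ) (b := 1)
    ⟨ψ, by rw [hψ, add_sub_cancel_left, Nat.cast_ofNat]⟩ t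
  have h3 := mul_mem_Hom h1 (pow_mem_Hom wdesc_w (3 ^ t))
  rw [show e + 3 ^ t + 1 * 3 ^ t = e + 2 * 3 ^ t by ring] at h3
  refine ⟨_, _, add_mem h2 h3, y2 + y1 - y0 - 3 * th ℤ * φ1 * z, ?_⟩
  rw [c1, c2, e1, e2] at c0
  rw [one_pow, Nat.cast_ofNat] at hz
  linear_combination -c0 - th ℤ * φ1 * hz

theorem red_mem_Rlt (H : Facts) {e : ℕ} {φ : ℤ⟦X⟧} (h : φ ∈ Hom ℤ e) : red φ ∈ Rlt (e + 1) := by
  obtain ⟨p, rfl⟩ := mem_Hom_iff.1 h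
  rw [red, map_hom, hom]
  refine Submodule.sum_mem _ fun j hj => Submodule.smul_mem _ _ ?_
  have hu : uu F3 ∈ Rlt (1 + 1) := by
    rw [← ev_X, ev_mem_Rlt, Polynomial.degree_X]
    decide
  have h1 := mul_mem_Rlt (pow_mem_Rlt hu (e - j)) (pow_mem_Rlt (a := 1) (FF_mem_Rlt H) j)
  have h2 := mem_range.1 hj
  rwa [show 1 * (e - j) + (1 * j + 1) = e + 1 by omega] at h1

theorem exists_lift (H : Facts) {e : ℕ} {x : F3⟦X⟧} (h : x ∈ Rlt (e + 1)) :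
    ∃ φ ∈ Hom ℤ e, red φ = x := by
  obtain ⟨P, hP, rfl⟩ := mem_Rlt.1 h
  choose c hc using fun i => ZMod.intCast_surjective (P.coeff i)
  obtain ⟨ψ, hψ⟩ := H.hs
  have hw : red (uu ℤ + 16 * FF ℤ) = 1 := by rw [hψ, map_add, map_one, wdesc_red_three, add_zero]
  have hd : P.natDegree < e + 1 := by
    rcases eq_or_ne P 0 with rfl | h0
    · simp
    · exact (Polynomial.natDegree_lt_iff_degree_lt h0).2 hP
  refine ⟨∑ i ∈ range (e + 1), c i • (uu ℤ ^ i * (uu ℤ + 16 * FF ℤ) ^ (e - i)),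
    Submodule.sum_mem _ fun i hi => Submodule.smul_mem _ _ ?_, ?_⟩
  · have h1 := mul_mem_Hom (pow_mem_Hom (uu_mem_Hom (K := ℤ)) i) (pow_mem_Hom wdesc_w (e - i))
    have h2 := mem_range.1 hi
    rwa [show 1 * i + 1 * (e - i) = e by omega] at h1
  · rw [ev, Polynomial.aeval_eq_sum_range' hd, map_sum]
    refine sum_congr rfl fun i _ => ?_
    rw [map_zsmul, map_mul, map_pow, map_pow, hw, one_pow, mul_one, red, map_uu, ← hc i,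
      Int.cast_smul_eq_zsmul]

theorem exists_primitive {g : ℤ⟦X⟧} (hg : g ≠ 0) :
    ∃ (m : ℕ) (h : ℤ⟦X⟧), g = 3 ^ m * h ∧ red h ≠ 0 := by
  obtain ⟨n, hn⟩ : ∃ n, coeff n g ≠ 0 := by
    by_contra hc
    exact hg (PowerSeries.ext fun n => not_not.1 fun h => hc ⟨n, h⟩)
  generalize hk : (coeff n g).natAbs = k
  induction k using Nat.strong_induction_on generalizing g with
  | _ k ih =>
    by_cases h0 : red g = 0
    · obtain ⟨g', rfl⟩ := wdesc_dvd h0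
      have h1 : coeff n (3 * g') = 3 * coeff n g' := by
        rw [← map_ofNat (C : ℤ →+* ℤ⟦X⟧) 3, coeff_C_mul]
      rw [h1] at hn hk
      obtain ⟨m, h, e1, e2⟩ := ih (coeff n g').natAbs (by omega) (right_ne_zero_of_mul hg)
        (right_ne_zero_of_mul hn) rfl
      exact ⟨m + 1, h, by rw [e1, pow_succ', mul_assoc], e2⟩
    · exact ⟨0, g, by rw [pow_zero, one_mul], h0⟩

/-- `pr_cong` with `t = m + 1`; `th` is a unit, so `φ' = 3 ^ m φ''`, and `mem_Hom_of_smul`. -/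
theorem descent (H : Facts) {e : ℕ} {φ : ℤ⟦X⟧} (h : φ ∈ Hom ℤ e) (hne : pr 3 1 (th ℤ * φ) ≠ 0) :
    ∃ (m : ℕ) (g : ℤ⟦X⟧) (P : Polynomial F3),
      pr 3 1 (th ℤ * φ) = 3 ^ m * g ∧ red g = th F3 * ev P ∧ P ≠ 0 := by
  obtain ⟨m, g, hg, hg0⟩ := exists_primitive hne
  obtain ⟨e', φ', h', y, hy⟩ := pr_cong H h (m + 1)
  obtain ⟨v, hv⟩ := (isUnit_th (K := ℤ)).exists_left_inv
  have h1 : φ' = ((3 : ℤ) ^ m) • (v * (2 * g - 3 * y)) := by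
    rw [zsmul_eq_mul, hg] at *
    push_cast
    linear_combination -v * hy - φ' * hv
  rw [h1] at h'
  obtain ⟨P, -, hP⟩ := mem_Rlt.1 (red_mem_Rlt H (mem_Hom_of_smul (by positivity) h'))
  have h2 : th ℤ * (v * (2 * g - 3 * y)) = 3 * (g - y) - g := by
    linear_combination (2 * g - 3 * y) * hv
  have h3 : red g = th F3 * ev (-P) := by
    have h4 := congrArg red h2
    rw [map_mul, ← hP, map_sub, wdesc_red_three, zero_sub, red, map_th] at h4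
    rw [map_neg, mul_neg, h4, neg_neg, red]
  refine ⟨m, g, -P, hg, h3, fun h0 => hg0 ?_⟩
  rw [h3, h0, map_zero, mul_zero]

end Pool.Agent.Lib.MP_bcfefa_nt.W
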