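import Pool.Agent.Lib.MP_bcfefa_nt.WCoef

/-!
Duplication identities for the theta series, from sums of two squares.
-/

set_option autoImplicit false

noncomputable section

namespace Pool.Agent.Lib.MP_bcfefa_nt.W

open PowerSeries Finset

/-- The series `∑ r, w r q ^ (r ^ 2)` over all integers `r`. -/
def wdupS (w : ℤ → ℤ) : ℤ⟦X⟧ :=
  mk fun n => ∑ r ∈ (Icc (-(n : ℤ)) n).filter fun r : ℤ => r ^ 2 = (n : ℤ), w r

theorem wdup_icc {r : ℤ} {n : ℕ} (h : r ^ 2 ≤ n) : r ∈ Icc (-(n : ℤ)) n := by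
  have h1 := Int.le_self_sq r
  have h2 := Int.le_self_sq (-r)
  rw [neg_sq] at h2
  exact mem_Icc.2 ⟨by linarith, by linarith⟩

theorem wdup_mem {r : ℤ} {n : ℕ} :
    r ∈ ((Icc (-(n : ℤ)) n).filter fun r : ℤ => r ^ 2 = (n : ℤ)) ↔ r ^ 2 = n :=
  mem_filter.trans ⟨fun h => h.2, fun h => ⟨wdup_icc h.le, h⟩⟩

theorem wdup_th : th ℤ = wdupS fun _ => 1 := by
  ext n
  rw [coeff_th, thc, wdupS, coeff_mk, Int.cast_id]
  symm
  split_ifs with h1 h0
  · subst h0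
    decide
  · obtain ⟨m, rfl⟩ := h1
    have hm : (m : ℤ) ≠ -m := by
      have : m ≠ 0 := fun h => h0 (by rw [h])
      omega
    have h2 : ((Icc (-((m * m : ℕ) : ℤ)) (m * m : ℕ)).filter
        fun r : ℤ => r ^ 2 = ((m * m : ℕ) : ℤ)) = {(m : ℤ), -(m : ℤ)} := by
      ext r
      rw [wdup_mem, Nat.cast_mul, ← sq, sq_eq_sq_iff_eq_or_eq_neg, mem_insert, mem_singleton]
    rw [h2, sum_pair hm]
    rfl
  · refine sum_eq_zero fun r hr => absurd ⟨r.natAbs, ?_⟩ h1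
    have h2 := wdup_mem.1 hr
    zify
    rw [abs_mul_abs_self, ← sq, h2]

theorem wdup_th' : th' ℤ = wdupS fun r => (r.negOnePow : ℤ) := by
  ext n
  rw [th', coeff_rescale, wdup_th, wdupS, wdupS, coeff_mk, coeff_mk, mul_sum]
  refine sum_congr rfl fun r hr => ?_
  rw [mul_one, ← Int.negOnePow_mul_self, ← sq, wdup_mem.1 hr, Int.coe_negOnePow_natCast]

/-- Representations as a sum of two squares. -/
def wdupB (n : ℕ) : Finset (ℤ × ℤ) :=
  (Icc (-(n : ℤ)) n ×ˢ Icc (-(n : ℤ)) n).filter fun p => p.1 ^ 2 + p.2 ^ 2 = n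

theorem wdup_memB {n : ℕ} {p : ℤ × ℤ} : p ∈ wdupB n ↔ p.1 ^ 2 + p.2 ^ 2 = n := by
  have h1 := sq_nonneg p.1
  have h2 := sq_nonneg p.2
  exact mem_filter.trans ⟨fun h => h.2, fun h =>
    ⟨mem_product.2 ⟨wdup_icc (by linarith), wdup_icc (by linarith)⟩, h⟩⟩

theorem wdup_mul (w w' : ℤ → ℤ) (n : ℕ) :
    coeff n (wdupS w * wdupS w') = ∑ p ∈ wdupB n, w p.1 * w' p.2 := by
  simp only [coeff_mul, wdupS, coeff_mk, sum_mul_sum, ← sum_product']
  rw [sum_sigma']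
  refine sum_nbij' (fun x => x.2) (fun p => ⟨((p.1 ^ 2).toNat, (p.2 ^ 2).toNat), p⟩)
    ?_ ?_ ?_ (fun _ _ => rfl) fun _ _ => rfl
  · rintro ⟨⟨i, j⟩, r⟩ h
    obtain ⟨h1, h2⟩ := mem_sigma.1 h
    have h3 : i + j = n := HasAntidiagonal.mem_antidiagonal.1 h1
    have h4 : r.1 ^ 2 = (i : ℤ) := wdup_mem.1 (mem_product.1 h2).1
    have h5 : r.2 ^ 2 = (j : ℤ) := wdup_mem.1 (mem_product.1 h2).2
    exact wdup_memB.2 (show r.1 ^ 2 + r.2 ^ 2 = (n : ℤ) by omega)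
  · intro r h
    have h1 := wdup_memB.1 h
    have h2 := sq_nonneg r.1
    have h3 := sq_nonneg r.2
    exact mem_sigma.2 ⟨HasAntidiagonal.mem_antidiagonal.2
      (show (r.1 ^ 2).toNat + (r.2 ^ 2).toNat = n by omega), mem_product.2
      ⟨wdup_mem.2 (Int.toNat_of_nonneg h2).symm, wdup_mem.2 (Int.toNat_of_nonneg h3).symm⟩⟩
  · rintro ⟨⟨i, j⟩, r⟩ h
    obtain ⟨-, h2⟩ := mem_sigma.1 h
    have h4 : r.1 ^ 2 = (i : ℤ) := wdup_mem.1 (mem_product.1 h2).1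
    have h5 : r.2 ^ 2 = (j : ℤ) := wdup_mem.1 (mem_product.1 h2).2
    simp only [h4, h5, Int.toNat_natCast]

theorem wdup_two (w w' : ℤ → ℤ) (n : ℕ) :
    coeff (2 * n) (wdupS w * wdupS w') = ∑ p ∈ wdupB n, w (p.1 + p.2) * w' (p.1 - p.2) := by
  have key : ∀ p ∈ wdupB (2 * n), ∃ s t, p = (s + t, s - t) := by
    rintro ⟨x, y⟩ h
    have h1 : x ^ 2 + y ^ 2 = ((2 * n : ℕ) : ℤ) := wdup_memB.1 h
    have h2 : Even (x ^ 2 + y ^ 2) := ⟨n, by rw [h1]; push_cast; ring⟩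
    obtain ⟨s, hs⟩ : Even (x + y) := by simpa [Int.even_add, Int.even_pow] using h2
    exact ⟨s, x - s, Prod.ext (by simp) (by simp only; omega)⟩
  rw [wdup_mul]
  symm
  refine sum_bij (fun p _ => (p.1 + p.2, p.1 - p.2)) (fun p h => wdup_memB.2 ?_)
    (fun p _ q _ h => ?_) (fun p h => ?_) fun _ _ => rfl
  · have h1 := wdup_memB.1 h
    push_cast
    linarith
  · have h1 := congrArg Prod.fst h
    have h2 := congrArg Prod.snd h
    simp only at h1 h2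
    exact Prod.ext (by omega) (by omega)
  · obtain ⟨s, t, rfl⟩ := key p h
    have h1 := wdup_memB.1 h
    push_cast at h1
    exact ⟨(s, t), wdup_memB.2 (by simp only; linarith), rfl⟩

theorem wdup_cancel {n : ℕ} [n.AtLeastTwo] {x y : ℤ⟦X⟧} (h : ofNat(n) * x = ofNat(n) * y) :
    x = y := by
  ext m
  have h1 := congrArg (coeff m) h
  rw [wcoef_nat, wcoef_nat] at h1
  exact mul_left_cancel₀ (OfNat.ofNat_ne_zero n) h1

theorem wdupZ : 16 * FF ℤ = uu ℤ - th' ℤ ^ 4 ∧ FF ℤ ^ 2 = VV 2 (uu ℤ * FF ℤ) ∧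
    uu ℤ = VV 2 (uu ℤ + 16 * FF ℤ) + 8 * FF ℤ ∧ UU 2 (FF ℤ) = 0 := by
  have t0 : (2 : ℕ) ≠ 0 := two_ne_zero
  have even : ∀ g : ℤ⟦X⟧, rescale (-1) g = g → g = VV 2 (UU 2 g) := fun g h => by
    ext n
    rw [coeff_VV]
    split_ifs with hd
    · rw [coeff_UU, Nat.mul_div_cancel' hd]
    · have h1 := congrArg (coeff n) h
      rw [coeff_rescale, (Nat.not_even_iff_odd.1 fun e => hd e.two_dvd).neg_one_pow] at h1
      omega
  have odd : ∀ g : ℤ⟦X⟧, rescale (-1) g = -g → UU 2 g = 0 := fun g h => by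
    ext n
    have h1 := congrArg (coeff (2 * n)) h
    rw [coeff_rescale, (even_two_mul n).neg_one_pow, map_neg] at h1
    rw [coeff_UU, map_zero]
    omega
  have ra : rescale (-1) (VV 4 (th ℤ)) = VV 4 (th ℤ) := by
    ext n
    rw [coeff_rescale, coeff_VV]
    split_ifs with hd
    · rw [(even_iff_two_dvd.2 (dvd_trans (by norm_num) hd)).neg_one_pow, one_mul]
    · rw [mul_zero]
  have ro : rescale (-1) (oc ℤ) = -oc ℤ := by
    ext n
    rw [coeff_rescale, map_neg]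
    by_cases hn : n % 4 = 1
    · rw [(Nat.odd_iff.2 (by omega)).neg_one_pow, neg_one_mul]
    · rw [cls_oc n hn, mul_zero, neg_zero]
  have e1 := th_eq (K := ℤ)
  have e2 : th' ℤ = VV 4 (th ℤ) - 2 * oc ℤ := by
    rw [th', congrArg (rescale (-1)) e1, map_add, map_mul, ra, ro, map_ofNat]
    ring
  have e3 := VV_FF (K := ℤ)
  have u1 : UU 2 (th ℤ ^ 2) = th ℤ ^ 2 := by
    ext n
    rw [coeff_UU, sq, wdup_th, wdup_two, wdup_mul]
  have u2 : UU 2 (th ℤ * th' ℤ) = th' ℤ ^ 2 := by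
    ext n
    rw [coeff_UU, sq, wdup_th', wdup_th, wdup_two, wdup_mul]
    refine sum_congr rfl fun p _ => ?_
    rw [one_mul, Int.negOnePow_sub, Units.val_mul]
  rw [← VV_VV t0 t0] at e3
  generalize VV 4 (th ℤ) = a at ra e1 e2
  generalize oc ℤ = o at ro e1 e2 e3
  have h1 : a ^ 2 + 4 * o ^ 2 = VV 2 (th ℤ ^ 2) := by
    have h3 : th ℤ ^ 2 = a ^ 2 + 4 * o ^ 2 + 4 * (a * o) := by rw [e1]; ring
    rw [even (a ^ 2 + 4 * o ^ 2) (by simp [ra, ro, map_ofNat]), ← u1, h3, map_add _ _ (4 * (a * o)),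
      odd (4 * (a * o)) (by simp [ra, ro, map_ofNat]), add_zero]
  have h2 : a ^ 2 - 4 * o ^ 2 = VV 2 (th' ℤ ^ 2) := by
    rw [even (a ^ 2 - 4 * o ^ 2) (by simp [ra, ro, map_ofNat]), ← u2, e1, e2]
    congr 2
    ring
  have vn : ∀ (n : ℕ) [n.AtLeastTwo] (g : ℤ⟦X⟧), VV 2 (ofNat(n) * g) = ofNat(n) * VV 2 g :=
    fun n _ g => by rw [VV_mul t0]; exact congrArg (· * _) (VV_natCast t0 n)
  have h3 : o ^ 2 = VV 2 (a * o) := wdup_cancel (n := 8) (by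
    rw [← vn, show 8 * (a * o) = th ℤ ^ 2 - th' ℤ ^ 2 by rw [e1, e2]; ring, map_sub, ← h1, ← h2]
    ring)
  have h4 : VV 2 (FF ℤ) = (a * o) ^ 2 := VV_injective t0 (by rw [e3, VV_pow t0, ← h3]; ring)
  have h5 : VV 2 (uu ℤ) = (a ^ 2 + 4 * o ^ 2) ^ 2 := by rw [h1, ← VV_pow t0, ← pow_mul, uu]
  have h6 : 16 * FF ℤ = uu ℤ - th' ℤ ^ 4 := VV_injective t0 (by
    rw [vn, map_sub, h4, h5, show th' ℤ ^ 4 = (th' ℤ ^ 2) ^ 2 by ring, VV_pow t0, ← h2]
    ring)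
  have h7 : FF ℤ = a * o * (a ^ 2 + 4 * o ^ 2) := wdup_cancel (n := 16) (by
    rw [h6, uu, e1, e2]; ring)
  refine ⟨h6, ?_, ?_, odd _ (by rw [h7]; simp [ra, ro, map_ofNat])⟩
  · rw [VV_mul t0, h4, h5, h7]
    ring
  · rw [map_add, vn, h4, h5, h7, uu, e1]
    ring

variable {K : Type*} [CommRing K]

/-- The identity of Jacobi, unconditionally. -/
theorem jac0 : 16 * FF K = uu K - th' K ^ 4 := by
  simpa only [map_sub, map_mul, map_pow, map_ofNat, map_th', map_FF, map_uu] using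
    congrArg (map (Int.castRingHom K)) wdupZ.1

theorem FF_sq0 : FF K ^ 2 = VV 2 (uu K * FF K) := by
  simpa only [map_mul, map_pow, map_VV, map_FF, map_uu] using
    congrArg (map (Int.castRingHom K)) wdupZ.2.1

theorem uu_split0 : uu K = VV 2 (uu K + 16 * FF K) + 8 * FF K := by
  have h := congrArg (map (Int.castRingHom K)) wdupZ.2.2.1
  rwa [map_add, map_VV, map_add (PowerSeries.map (Int.castRingHom K)), map_mul, map_mul, map_ofNat,
    map_ofNat, map_FF, map_uu] at h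

theorem UU_FF0 : UU 2 (FF K) = 0 := by
  simpa only [map_UU, map_FF, map_zero] using congrArg (map (Int.castRingHom K)) wdupZ.2.2.2

end Pool.Agent.Lib.MP_bcfefa_nt.W
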