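import Pool.Agent.Lib.MP_bcfefa_nt.WB0

/-!
The group `Γ_0(4)`.
-/

set_option autoImplicit false

noncomputable section

namespace Pool.Agent.Lib.MP_bcfefa_nt.W

open PowerSeries Finset CongruenceSubgroup UpperHalfPlane
open Pool.Agent.Lib.MP_88d29b_nt.G
open scoped MatrixGroups ModularForm Manifold

lemma wg4_mul (γ δ : SL(2, ℤ)) (j : Fin 2) : (γ * δ) 1 j = γ 1 0 * δ 0 j + γ 1 1 * δ 1 j := by
  rw [Matrix.SpecialLinearGroup.coe_mul, Matrix.mul_apply, Fin.sum_univ_two]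

lemma wg4_det (γ : SL(2, ℤ)) : γ 0 0 * γ 1 1 - γ 0 1 * γ 1 0 = 1 := by
  have := γ.det_coe
  rwa [Matrix.det_fin_two] at this

lemma wg4_Ti : (ModularGroup.T⁻¹ : SL(2, ℤ)).1 = !![1, -1; 0, 1] := ModularGroup.coe_T_inv

lemma wg4_L : L4.1 = !![1, 0; 4, 1] := rfl

lemma wg4_Li : (L4⁻¹).1 = !![1, 0; -4, 1] := by
  rw [Matrix.SpecialLinearGroup.coe_inv, wg4_L, Matrix.adjugate_fin_two]
  simp

lemma wg4_ind (H : Subgroup SL(2, ℤ)) (hT : ModularGroup.T ∈ H) (hL : L4 ∈ H) (hn : -1 ∈ H)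
    (n : ℕ) : ∀ γ : SL(2, ℤ), (γ 1 0).natAbs + (γ 1 1).natAbs = n → 4 ∣ γ 1 0 → γ ∈ H := by
  induction n using Nat.strong_induction_on with
  | h n ih =>
    intro γ hγ h4
    have hd := wg4_det γ
    have step : ∀ δ ∈ H, ∀ c d : ℤ, γ 1 0 * δ 0 0 + γ 1 1 * δ 1 0 = c →
        γ 1 0 * δ 0 1 + γ 1 1 * δ 1 1 = d → c.natAbs + d.natAbs < n → 4 ∣ c → γ ∈ H := by
      intro δ hδ c d hc hd hlt h4
      rw [← wg4_mul] at hc hd
      exact (H.mul_mem_cancel_right hδ).1 (ih _ hlt (γ * δ) (by rw [hc, hd]) (by rw [hc]; exact h4))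
    by_cases hc : γ 1 0 = 0
    · rw [hc, mul_zero, sub_zero] at hd
      rcases Int.eq_one_or_neg_one_of_mul_eq_one' hd with ⟨h1, h2⟩ | ⟨h1, h2⟩
      · have : γ = ModularGroup.T ^ γ 0 1 := by
          ext i j
          rw [ModularGroup.coe_T_zpow]
          fin_cases i <;> fin_cases j <;> simp [h1, h2, hc]
        rw [this]
        exact H.zpow_mem hT _
      · have : γ = -1 * ModularGroup.T ^ (-γ 0 1) := by
          ext i j
          rw [neg_one_mul, Matrix.SpecialLinearGroup.coe_neg, ModularGroup.coe_T_zpow]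
          fin_cases i <;> fin_cases j <;> simp [h1, h2, hc]
        rw [this]
        exact H.mul_mem hn (H.zpow_mem hT _)
    · have hodd : γ 1 1 % 2 = 1 := by
        obtain ⟨c, hc'⟩ := h4
        rcases Int.emod_two_eq_zero_or_one (γ 1 1) with h | h
        · obtain ⟨d, hd'⟩ := Int.dvd_of_emod_eq_zero h
          rw [hc', hd'] at hd
          have : 2 * (γ 0 0 * d - γ 0 1 * (2 * c)) = 1 := by linear_combination hd
          omega
        · exact h
      have s1 := step _ hT (γ 1 0) (γ 1 0 + γ 1 1) (by simp) (by simp)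
      have s2 := step _ (H.inv_mem hT) (γ 1 0) (γ 1 1 - γ 1 0) (by rw [wg4_Ti]; simp)
        (by rw [wg4_Ti]; simp; ring)
      have s3 := step _ hL (γ 1 0 + 4 * γ 1 1) (γ 1 1) (by rw [wg4_L]; simp; ring)
        (by rw [wg4_L]; simp)
      have s4 := step _ (H.inv_mem hL) (γ 1 0 - 4 * γ 1 1) (γ 1 1) (by rw [wg4_Li]; simp; ring)
        (by rw [wg4_Li]; simp)
      generalize γ 1 0 = c at *
      generalize γ 1 1 = d at *
      by_contra hcon
      have t1 := not_lt.1 fun h => hcon (s1 h h4)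
      have t2 := not_lt.1 fun h => hcon (s2 h h4)
      have t3 := not_lt.1 fun h => hcon (s3 h (by omega))
      have t4 := not_lt.1 fun h => hcon (s4 h (by omega))
      omega

/-- Representatives of the cosets. -/
def wg4_rep : Fin 6 → SL(2, ℤ) :=
  ![⟨!![1, 0; 0, 1], by simp [Matrix.det_fin_two]⟩, ⟨!![1, 0; 1, 1], by simp [Matrix.det_fin_two]⟩,
    ⟨!![1, 0; 2, 1], by simp [Matrix.det_fin_two]⟩, ⟨!![1, 0; 3, 1], by simp [Matrix.det_fin_two]⟩,
    ⟨!![0, -1; 1, 0], by simp [Matrix.det_fin_two]⟩, ⟨!![2, 1; 1, 1], by simp [Matrix.det_fin_two]⟩]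

lemma wg4_line : ∀ a b c d : ZMod 4, a * d - b * c = 1 → ∃ i : Fin 6,
    -(![0, 1, 2, 3, 1, 1] i) * a + ![1, 1, 1, 1, 0, 2] i * c = 0 := by
  decide

/-- Induction on `|c| + |d|`: if `c = 0` then `γ = ± T ^ n`; if `|c| < 2 |d|` multiply by `T ^ (± 1)`
on the right; if `|c| > 2 |d|` multiply by `L4 ^ (± 1)`; `|c| = 2 |d|` is impossible (`d` odd). -/
theorem Gamma0_four_le_closure :
    Gamma0 4 ≤ Subgroup.closure ({ModularGroup.T, L4, -1} : Set SL(2, ℤ)) := by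
  intro γ hγ
  refine wg4_ind _ (Subgroup.subset_closure (by simp)) (Subgroup.subset_closure (by simp))
    (Subgroup.subset_closure (by simp)) _ γ rfl ?_
  exact (ZMod.intCast_zmod_eq_zero_iff_dvd _ 4).1 (Gamma0_mem.1 hγ)

theorem inv_Gamma0_four {k : ℤ} (hk : Even k) {f : ℍ → ℂ}
    (hT : sl k f (ModularGroup.T : SL(2, ℤ)) = f) (hL : sl k f (L4 : SL(2, ℤ)) = f) :
    Inv (Gamma0 4) k f := by
  intro γ hγ
  have hd : ∀ g : SL(2, ℤ), (g : Mat).det ≠ 0 := fun g => inside_Snz ⊤ g trivial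
  refine Subgroup.closure_induction (p := fun (g : SL(2, ℤ)) _ => sl k f (g : Mat) = f) ?_ ?_ ?_ ?_
    (Gamma0_four_le_closure hγ)
  · rintro g (rfl | rfl | rfl)
    · exact hT
    · exact hL
    · funext z
      rw [sl_apply k f (by rw [Matrix.SpecialLinearGroup.det_coe]; exact one_pos), sm_SL,
        ModularGroup.SL_neg_smul, one_smul, Matrix.SpecialLinearGroup.det_coe]
      simp [hk.neg_one_zpow]
  · exact sl_one k f
  · intro g g' _ _ h h'
    rw [Matrix.SpecialLinearGroup.coe_mul, sl_mul k f (hd g) (hd g'), h, h']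
  · intro g _ h
    have h1 := sl_mul k f (hd g) (hd g⁻¹)
    rw [h, ← Matrix.SpecialLinearGroup.coe_mul, mul_inv_cancel,
      Matrix.SpecialLinearGroup.coe_one, sl_one] at h1
    exact h1.symm

lemma L4_eq : L4 = ModularGroup.S * (ModularGroup.T ^ 4)⁻¹ * ModularGroup.S⁻¹ := by
  decide

lemma L4_mem : L4 ∈ Gamma0 4 := by
  rw [Gamma0_mem]
  decide

lemma T_mem : ModularGroup.T ∈ Gamma0 4 := by
  rw [Gamma0_mem]
  decide

/-- The six points of the projective line over `ZMod 4`. -/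
theorem index_Gamma0_four : (Gamma0 4).index ≤ 6 := by
  have h : Function.Surjective fun i : Fin 6 => (wg4_rep i : SL(2, ℤ) ⧸ Gamma0 4) := by
    intro q
    obtain ⟨g, rfl⟩ := QuotientGroup.mk_surjective q
    have h1 : ((g 0 0 : ℤ) : ZMod 4) * (g 1 1 : ℤ) - (g 0 1 : ℤ) * (g 1 0 : ℤ) = 1 := by
      exact_mod_cast congrArg (Int.cast : ℤ → ZMod 4) (wg4_det g)
    obtain ⟨i, hi⟩ := wg4_line _ _ _ _ h1
    refine ⟨i, QuotientGroup.eq.2 ?_⟩
    rw [Gamma0_mem, wg4_mul, ← hi, Matrix.SpecialLinearGroup.coe_inv, Matrix.adjugate_fin_two]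
    fin_cases i <;> simp [wg4_rep]
  simpa [Subgroup.index] using Nat.card_le_card_of_surjective _ h

end Pool.Agent.Lib.MP_bcfefa_nt.W
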