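import Pool.Agent.Lib.MP_bcfefa_nt.WB0

/-!
Closure properties of modular forms (compare `Cuspy`, `IsCF` in `GSl`).
-/

set_option autoImplicit false

noncomputable section

namespace Pool.Agent.Lib.MP_bcfefa_nt.W

open PowerSeries Finset CongruenceSubgroup UpperHalfPlane
open Pool.Agent.Lib.MP_88d29b_nt.G
open scoped MatrixGroups ModularForm Manifold

variable {k k' : ℤ} {f g : ℍ → ℂ} {Γ Γ' : Subgroup SL(2, ℤ)}

lemma sl_mul_fun (k k' : ℤ) (f g : ℍ → ℂ) (γ : SL(2, ℤ)) :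
    sl (k + k') (f * g) γ = sl k f γ * sl k' g γ := by
  rw [sl_SL, sl_SL, sl_SL, ModularForm.mul_slash_SL2]

lemma bdy_zero (k : ℤ) : Bdy k 0 :=
  ⟨mdifferentiable_const, fun γ => by rw [sl_zero]; exact Filter.const_boundedAtFilter _ _⟩

lemma Bdy.add (h : Bdy k f) (h' : Bdy k g) : Bdy k (f + g) :=
  ⟨h.holo.add h'.holo, fun γ => by
    rw [sl_add]
    exact Filter.BoundedAtFilter.add (h.bdd γ) (h'.bdd γ)⟩

lemma Bdy.smul (c : ℂ) (h : Bdy k f) : Bdy k (c • f) :=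
  ⟨h.holo.const_smul c, fun γ => by
    rw [sl_smul k c f (by rw [γ.det_coe]; exact one_pos)]
    exact (h.bdd γ).smul c⟩

lemma Bdy.sum {ι : Type*} {s : Finset ι} {F : ι → ℍ → ℂ} (h : ∀ i ∈ s, Bdy k (F i)) :
    Bdy k (∑ i ∈ s, F i) :=
  Finset.sum_induction F (Bdy k) (fun _ _ => Bdy.add) (bdy_zero k) h

lemma Bdy.mul (h : Bdy k f) (h' : Bdy k' g) : Bdy (k + k') (f * g) :=
  ⟨h.holo.mul h'.holo, fun γ => by
    rw [sl_mul_fun]
    exact Filter.BoundedAtFilter.mul (h.bdd γ) (h'.bdd γ)⟩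

/-- As `Cuspy.sl`, with `exists_hermite`. -/
theorem Bdy.sl (h : Bdy k f) {δ : Mat} (hδ : δ.det ≠ 0) : Bdy k (sl k f δ) := by
  refine ⟨h.holo.slash k _, fun γ => ?_⟩
  have hγ : (γ : Mat).det ≠ 0 := inside_Snz ⊤ γ trivial
  obtain ⟨ε, a, b, d, ha, had, -, e⟩ := exists_hermite (δ * γ) (Snz.mul_mem hδ hγ)
  have hu : (!![a, b; 0, d] : Mat).det ≠ 0 := by
    rw [Matrix.det_fin_two_of, mul_zero, sub_zero, had]
    exact Snz.mul_mem hδ hγ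
  rw [← sl_mul k f hδ hγ, e, sl_mul k f (inside_Snz ⊤ ε trivial) hu]
  refine (h.bdd ε).slash k ?_
  rw [toGL_apply hu]
  simp

lemma MF.mono (h : MF Γ k f) (hle : Γ' ≤ Γ) : MF Γ' k f := ⟨h.bdy, h.inv.mono hle⟩

lemma mf_zero (Γ : Subgroup SL(2, ℤ)) (k : ℤ) : MF Γ k 0 := ⟨bdy_zero k, inv_zero Γ k⟩

lemma mf_one (Γ : Subgroup SL(2, ℤ)) : MF Γ 0 1 := by
  have h : ∀ γ : SL(2, ℤ), sl 0 1 γ = 1 := fun γ => by rw [sl_SL, ModularForm.is_invariant_one]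
  exact ⟨⟨mdifferentiable_const, fun γ => by rw [h]; exact Filter.const_boundedAtFilter _ _⟩,
    fun γ _ => h γ⟩

lemma MF.add (h : MF Γ k f) (h' : MF Γ k g) : MF Γ k (f + g) :=
  ⟨h.bdy.add h'.bdy, h.inv.add h'.inv⟩

lemma MF.smul (c : ℂ) (h : MF Γ k f) : MF Γ k (c • f) := ⟨h.bdy.smul c, h.inv.smul c⟩

lemma MF.sub (h : MF Γ k f) (h' : MF Γ k g) : MF Γ k (f - g) := by
  rw [sub_eq_add_neg, ← neg_one_smul ℂ g]
  exact h.add (h'.smul _)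

lemma MF.sum {ι : Type*} {s : Finset ι} {F : ι → ℍ → ℂ} (h : ∀ i ∈ s, MF Γ k (F i)) :
    MF Γ k (∑ i ∈ s, F i) :=
  Finset.sum_induction F (MF Γ k) (fun _ _ => MF.add) (mf_zero Γ k) h

lemma MF.mul (h : MF Γ k f) (h' : MF Γ k' g) : MF Γ (k + k') (f * g) :=
  ⟨h.bdy.mul h'.bdy, fun γ hγ => by rw [sl_mul_fun, h.inv γ hγ, h'.inv γ hγ]⟩

lemma MF.pow (h : MF Γ k f) (n : ℕ) : MF Γ (k * n) (f ^ n) := by
  induction n with
  | zero => simpa using mf_one Γ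
  | succ n ih =>
    rw [pow_succ, Nat.cast_succ, mul_add_one]
    exact ih.mul h

/-- As `IsCF.dc`. -/
theorem MF.dc {ι : Type*} [Fintype ι] {δ : ι → Mat} (h : MF Γ k f) (hc : Cov Γ Γ' δ) :
    MF Γ' k (∑ i, sl k f (δ i)) := by
  refine ⟨Bdy.sum fun i _ => h.bdy.sl (hc.det_ne i), fun γ hγ => ?_⟩
  rw [sl_sum, ← sum_step hc hγ (fun i => sl k f (δ i))]
  refine Finset.sum_congr rfl fun i _ => ?_
  rw [← sl_mul k f (hc.det_ne i) (inside_Snz ⊤ γ trivial), step_spec hc hγ i,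
    sl_mul k f (inside_Snz ⊤ _ trivial) (hc.det_ne _), h.inv _ (step Γ δ γ i).2.2]

lemma mf_coe (F : ModularForm 𝒮ℒ k) : MF ⊤ k F := by
  refine ⟨⟨F.holo', fun γ => ?_⟩, fun γ _ => ?_⟩
  · rw [sl_SL]
    exact ModularFormClass.bdd_at_infty_slash F γ
  · rw [sl_SL]
    exact F.slash_action_eq' _ ⟨γ, rfl⟩

/-- `dil 4 f` is a multiple of `sl k f !![4, 0; 0, 1]` (`sl_upper`). -/
theorem MF.dil_four (h : MF ⊤ k f) : MF (Gamma0 4) k (dil 4 f) := by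
  have h0 : (!![4, 0; 0, 1] : Mat).det ≠ 0 := by simp
  have e : dil 4 f = ((4 : ℂ) ^ (k - 1))⁻¹ • sl k f !![4, 0; 0, 1] := by
    ext z
    rw [Pi.smul_apply, sl_upper k f 0 (by norm_num) one_pos, smul_eq_mul, ← mul_assoc]
    simp [dil, inv_mul_cancel₀ (zpow_ne_zero (k - 1) (by norm_num : (4 : ℂ) ≠ 0))]
  rw [e]
  refine MF.smul _ ⟨h.bdy.sl h0, fun γ hγ => ?_⟩
  obtain ⟨c, hc⟩ := (ZMod.intCast_zmod_eq_zero_iff_dvd _ _).1 (Gamma0_mem.1 hγ)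
  have hd := γ.det_coe
  rw [Matrix.det_fin_two, hc] at hd
  let ε : SL(2, ℤ) := ⟨!![γ 0 0, 4 * γ 0 1; c, γ 1 1], by
    rw [Matrix.det_fin_two_of]
    push_cast at hd
    linear_combination hd⟩
  have e2 : !![4, 0; 0, 1] * (γ : Mat) = (ε : Mat) * !![4, 0; 0, 1] := by
    ext i j
    fin_cases i <;> fin_cases j <;> simp [ε, Matrix.mul_apply, Fin.sum_univ_two, hc, mul_comm]
  rw [← sl_mul k f h0 (inside_Snz ⊤ γ trivial), e2, sl_mul k f (inside_Snz ⊤ ε trivial) h0,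
    h.inv ε trivial]

end Pool.Agent.Lib.MP_bcfefa_nt.W
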