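import Pool.Agent.Lib.MP_bcfefa_nt.WTh
import Pool.Agent.Lib.MP_bcfefa_nt.WMF
import Pool.Agent.Lib.MP_bcfefa_nt.WG4

/-!
The generators of the ring of modular forms of level four.
-/

set_option autoImplicit false

noncomputable section

namespace Pool.Agent.Lib.MP_bcfefa_nt.W

open PowerSeries Finset CongruenceSubgroup UpperHalfPlane
open Pool.Agent.Lib.MP_88d29b_nt.G
open scoped MatrixGroups ModularForm Manifold

/-- `slash_action_generators_SL2Z` in weight zero. -/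
theorem norm_inv (γ : SL(2, ℤ)) (z : ℍ) :
    (‖t0 (γ • z)‖ ^ 2 + ‖t1 (γ • z)‖ ^ 2) ^ 2 * (γ • z).im = (‖t0 z‖ ^ 2 + ‖t1 z‖ ^ 2) ^ 2 * z.im := by
  have hγ : γ ∈ Subgroup.closure {ModularGroup.S, ModularGroup.T} := by
    simp [SpecialLinearGroup.SL2Z_generators]
  induction hγ using Subgroup.closure_induction generalizing z with
  | one => rw [one_smul]
  | mem g hg =>
    rcases hg with rfl | rfl
    · obtain ⟨r, hr, h0, h1⟩ := t_S z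
      have e1 : ‖r‖ ^ 2 = ‖(z : ℂ)‖ / 2 := by
        rw [← norm_pow, hr]
        simp
      have e2 := parallelogram_law_with_norm ℂ (t0 z) (t1 z)
      have e3 : ‖(z : ℂ)‖ ≠ 0 := norm_ne_zero_iff.2 z.ne_zero
      have e4 : ‖r * (t0 z + t1 z)‖ ^ 2 + ‖r * (t0 z - t1 z)‖ ^ 2 =
          ‖(z : ℂ)‖ * (‖t0 z‖ ^ 2 + ‖t1 z‖ ^ 2) := by
        rw [norm_mul, norm_mul, mul_pow, mul_pow, e1]
        linear_combination ‖(z : ℂ)‖ / 2 * e2
      rw [h0, h1, e4, ModularGroup.im_smul_eq_div_normSq, ModularGroup.denom_S,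
        Complex.normSq_eq_norm_sq]
      field_simp
    · rw [t0_T, t1_T, norm_mul, Complex.norm_I, one_mul, ModularGroup.im_T_smul]
  | mul a b _ _ ha hb => rw [mul_smul, ha, hb]
  | inv a _ ha => rw [← ha (a⁻¹ • z), smul_inv_smul]

theorem wl4a_bdd {f : ℍ → ℂ} (h : ∀ z, ‖f z‖ ≤ (‖t0 z‖ ^ 2 + ‖t1 z‖ ^ 2) ^ 2) (γ : SL(2, ℤ)) :
    IsBoundedAtImInfty (sl 2 f γ) := by
  obtain ⟨M0, A0, h0⟩ := isBoundedAtImInfty_iff.1 bdd_t0
  obtain ⟨M1, A1, h1⟩ := isBoundedAtImInfty_iff.1 bdd_t1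
  refine isBoundedAtImInfty_iff.2 ⟨(M0 ^ 2 + M1 ^ 2) ^ 2, max A0 A1, fun z hz => ?_⟩
  have e0 := h0 z ((le_max_left _ _).trans hz)
  have e1 := h1 z ((le_max_right _ _).trans hz)
  have e2 := norm_inv γ z
  have e3 : 0 < ‖denom γ z‖ := norm_pos_iff.2 (denom_ne_zero _ z)
  rw [ModularGroup.im_smul_eq_div_normSq, Complex.normSq_eq_norm_sq, div_eq_inv_mul,
    ← mul_assoc] at e2
  have e4 := mul_right_cancel₀ z.im_ne_zero e2
  rw [sl_SL, ModularForm.SL_slash_apply, norm_mul, norm_zpow, zpow_neg, zpow_ofNat]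
  calc ‖f (γ • z)‖ * (‖denom γ z‖ ^ 2)⁻¹
      ≤ (‖t0 (γ • z)‖ ^ 2 + ‖t1 (γ • z)‖ ^ 2) ^ 2 * (‖denom γ z‖ ^ 2)⁻¹ := by
        gcongr
        exact h _
    _ = (‖t0 z‖ ^ 2 + ‖t1 z‖ ^ 2) ^ 2 := e4
    _ ≤ (M0 ^ 2 + M1 ^ 2) ^ 2 := by gcongr

theorem wl4a_T (f : ℍ → ℂ) : f ∣[(2 : ℤ)] ModularGroup.T = fun z => f (ModularGroup.T • z) := by
  funext z
  have e : denom ModularGroup.T z = 1 := by simp [ModularGroup.T, ModularGroup.denom_apply]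
  rw [ModularForm.SL_slash_apply, e, one_zpow, mul_one]

theorem wl4a_L {f : ℍ → ℂ} (c : ℂ) (h : ∀ (z : ℍ) (r : ℂ),
    t0 (ModularGroup.S • z) = r * (t0 z + t1 z) → t1 (ModularGroup.S • z) = r * (t0 z - t1 z) →
    f (ModularGroup.S • z) = (r * (t0 z + c * t1 z)) ^ 4) : sl 2 f (L4 : SL(2, ℤ)) = f := by
  have e1 : f ∣[(2 : ℤ)] ModularGroup.S = fun z => -(t0 z + c * t1 z) ^ 4 / 4 := by
    funext z
    obtain ⟨r, hr, h0, h1⟩ := t_S z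
    have hz : (z : ℂ) ≠ 0 := z.ne_zero
    have e : r ^ 4 = -(z : ℂ) ^ 2 / 4 := by
      linear_combination (r ^ 2 - Complex.I * z / 2) * hr + (z : ℂ) ^ 2 / 4 * Complex.I_sq
    rw [ModularForm.SL_slash_apply, h z r h0 h1, ModularGroup.denom_S, mul_pow, e, zpow_neg,
      zpow_ofNat]
    field_simp
  have e2 : (f ∣[(2 : ℤ)] ModularGroup.S) ∣[(2 : ℤ)] (ModularGroup.T ^ 4) =
      f ∣[(2 : ℤ)] ModularGroup.S := by
    rw [e1, pow_succ, pow_succ, pow_succ, pow_one]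
    simp only [SlashAction.slash_mul, wl4a_T, t0_T, t1_T]
    funext z
    have e : Complex.I * (Complex.I * (Complex.I * (Complex.I * t1 z))) = t1 z := by
      linear_combination t1 z * Complex.I_pow_four
    rw [e]
  rw [sl_SL, L4_eq, SlashAction.slash_mul, SlashAction.slash_mul]
  conv_lhs => rw [← e2]
  rw [← SlashAction.slash_mul _ (ModularGroup.T ^ 4), mul_inv_cancel, SlashAction.slash_one,
    ← SlashAction.slash_mul, mul_inv_cancel, SlashAction.slash_one]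

/-- `‖sl 2 (t0 ^ 4) γ z‖ ≤ (‖t0 z‖ ^ 2 + ‖t1 z‖ ^ 2) ^ 2` by `norm_inv`. -/
theorem bdy_t0 : Bdy 2 (t0 ^ 4) := by
  refine ⟨holo_t0.pow 4, wl4a_bdd fun z => ?_⟩
  rw [Pi.pow_apply, norm_pow, show 4 = 2 * 2 from rfl, pow_mul]
  gcongr
  exact le_add_of_nonneg_right (by positivity)

theorem bdy_t1 : Bdy 2 (t1 ^ 4) := by
  refine ⟨holo_t1.pow 4, wl4a_bdd fun z => ?_⟩
  rw [Pi.pow_apply, norm_pow, show 4 = 2 * 2 from rfl, pow_mul]
  gcongr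
  exact le_add_of_nonneg_left (by positivity)

/-- `sl 2 (t0 ^ 4) S = -(t0 + t1) ^ 4 / 4` is fixed by `T ^ 4`; `L4_eq`. -/
theorem mf_t0 : MF (Gamma0 4) 2 (t0 ^ 4) := by
  refine ⟨bdy_t0, inv_Gamma0_four even_two ?_ (wl4a_L 1 fun z r h _ => ?_)⟩
  · rw [sl_SL, wl4a_T]
    funext z
    rw [Pi.pow_apply, Pi.pow_apply, t0_T]
  · rw [Pi.pow_apply, h, one_mul]

theorem mf_t1 : MF (Gamma0 4) 2 (t1 ^ 4) := by
  refine ⟨bdy_t1, inv_Gamma0_four even_two ?_ (wl4a_L (-1) fun z r _ h => ?_)⟩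
  · rw [sl_SL, wl4a_T]
    funext z
    rw [Pi.pow_apply, Pi.pow_apply, t1_T, mul_pow, Complex.I_pow_four, one_mul]
  · rw [Pi.pow_apply, h, neg_one_mul, sub_eq_add_neg]

theorem inM_uu : InM (Gamma0 4) 2 (uu ℂ) := by
  exact ⟨t0 ^ 4, mf_t0, qp_t0.pow 4⟩

/-- `VV_FF`, `QP.of_dil`. -/
theorem inM_FF : InM (Gamma0 4) 2 (FF ℂ) := by
  refine ⟨(16⁻¹ : ℂ) • t1 ^ 4, mf_t1.smul _, QP.of_dil (m := 4) (by norm_num) ?_⟩
  have e : VV 4 (FF ℂ) = (16⁻¹ : ℂ) • (2 * oc ℂ) ^ 4 := by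
    rw [VV_FF, show 2 * oc ℂ = (2 : ℂ) • oc ℂ by rw [two_mul, two_smul], smul_pow, smul_smul]
    norm_num
  rw [e]
  exact (qp_t1.pow 4).smul _

end Pool.Agent.Lib.MP_bcfefa_nt.W
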