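import Pool.Agent.Lib.MP_bcfefa_nt.WMF

/-!
Serre derivative and Sturm bound.
-/

set_option autoImplicit false

noncomputable section

namespace Pool.Agent.Lib.MP_bcfefa_nt.W

open PowerSeries Finset CongruenceSubgroup UpperHalfPlane
open Pool.Agent.Lib.MP_88d29b_nt.G
open scoped MatrixGroups ModularForm Manifold

variable {k : ℤ} {f : ℍ → ℂ} {Γ : Subgroup SL(2, ℤ)}

/-- Cauchy estimate on discs of radius one (`Complex.norm_deriv_le_of_forall_mem_sphere_norm_le`). -/
theorem bdd_deriv (hf : MDifferentiable 𝓘(ℂ) 𝓘(ℂ) f) (hb : IsBoundedAtImInfty f) :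
    IsBoundedAtImInfty (Derivative.normalizedDerivOfComplex f) := by
  rw [isBoundedAtImInfty_iff] at hb ⊢
  obtain ⟨M, A, hb⟩ := hb
  refine ⟨‖(2 * Real.pi * Complex.I : ℂ)⁻¹‖ * (M / 1), max A 1 + 1, fun z hz => ?_⟩
  have him : ∀ w ∈ Metric.closedBall (z : ℂ) 1, max A 1 ≤ w.im := by
    intro w hw
    have h1 := (Complex.abs_im_le_norm (w - z)).trans (mem_closedBall_iff_norm.1 hw)
    rw [Complex.sub_im, coe_im] at h1
    linarith [(abs_le.1 h1).1]
  have hpos : ∀ w ∈ Metric.closedBall (z : ℂ) 1, 0 < w.im := fun w hw =>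
    one_pos.trans_le ((le_max_right A 1).trans (him w hw))
  rw [Derivative.normalizedDerivOfComplex, norm_mul]
  refine mul_le_mul_of_nonneg_left ?_ (norm_nonneg _)
  refine Complex.norm_deriv_le_of_forall_mem_sphere_norm_le one_pos
    (DifferentiableOn.diffContOnCl ?_) fun w hw => ?_
  · rw [closure_ball _ one_ne_zero]
    exact (UpperHalfPlane.mdifferentiable_iff.1 hf).mono hpos
  · have hw' := Metric.sphere_subset_closedBall hw
    rw [Function.comp_apply, ofComplex_apply_of_im_pos (hpos w hw')]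
    exact hb _ ((le_max_left A 1).trans (him w hw'))

/-- `serreDerivative_slash_equivariant`, `bdd_deriv`, `isBoundedAtImInfty_E2`. -/
theorem MF.serre (h : MF Γ k f) : MF Γ (k + 2) (Derivative.serreDerivative k f) := by
  refine ⟨⟨Derivative.serreDerivative_mdifferentiable _ h.bdy.holo, fun γ => ?_⟩, fun γ hγ => ?_⟩
  · have h1 := h.bdy.bdd γ
    have h2 : MDifferentiable 𝓘(ℂ) 𝓘(ℂ) (sl k f γ) := h.bdy.holo.slash k _
    rw [sl_SL, Derivative.serreDerivative_slash_equivariant h.bdy.holo, ← sl_SL]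
    have h3 : Derivative.serreDerivative k (sl k f γ) =
        Derivative.normalizedDerivOfComplex (sl k f γ) +
          (-((k : ℂ) * 12⁻¹)) • (EisensteinSeries.E2 * sl k f γ) := by
      funext z
      simp only [Derivative.serreDerivative_apply, Pi.add_apply, Pi.smul_apply, Pi.mul_apply,
        smul_eq_mul]
      ring
    rw [h3]
    exact (bdd_deriv h2 h1).add ((EisensteinSeries.isBoundedAtImInfty_E2.mul h1).smul _)
  · have h1 := h.inv γ hγ
    rw [sl_SL] at h1 ⊢
    exact Derivative.serreDerivative_slash_invariant h.bdy.holo h1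

/-- As `IsCF.mk'`. -/
theorem MF.exists_coe [Γ.FiniteIndex] (h : MF Γ k f) : ∃ F : ModularForm Γ k, ⇑F = f :=
  ⟨{ toFun := f
     slash_action_eq' := fun A hA => by
      obtain ⟨γ, hγ, rfl⟩ := hA
      have := h.inv γ hγ
      rwa [sl_SL] at this
     holo' := h.bdy.holo
     bdd_at_cusps' := fun hc => by
      rw [Subgroup.IsArithmetic.isCusp_iff_isCusp_SL2Z] at hc
      rw [OnePoint.isBoundedAt_iff_forall_SL2Z hc]
      intro γ _
      have := h.bdy.bdd γ
      rwa [sl_SL] at this }, rfl⟩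

open Asymptotics in
lemma wmf2_norm [Γ.FiniteIndex] (F : ModularForm Γ k) (hF : Bdy k F) :
    ⇑(ModularForm.norm 𝒮ℒ F) =O[atImInfty] F := by
  classical
  rw [ModularForm.coe_norm]
  let := Fintype.ofFinite (𝒮ℒ ⧸ (Γ : Subgroup (GL (Fin 2) ℝ)).subgroupOf 𝒮ℒ)
  rw [← Finset.mul_prod_erase Finset.univ (SlashInvariantForm.quotientFunc F (ℋ := 𝒮ℒ))
    (Finset.mem_univ ⟦1⟧)]
  have h1 : SlashInvariantForm.quotientFunc F (ℋ := 𝒮ℒ) ⟦1⟧ = F := by
    rw [SlashInvariantForm.quotientFunc_mk]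
    simp
  rw [h1]
  have h2 : ∀ q : 𝒮ℒ ⧸ (Γ : Subgroup (GL (Fin 2) ℝ)).subgroupOf 𝒮ℒ,
      SlashInvariantForm.quotientFunc F q =O[atImInfty] fun _ => (1 : ℂ) := by
    intro q
    induction q using Quotient.inductionOn with
    | h r =>
      obtain ⟨r, γ, rfl⟩ := r
      rw [SlashInvariantForm.quotientFunc_mk]
      have h := hF.bdd γ⁻¹
      rw [sl, toGL_SL, map_inv] at h
      exact IsBigO.trans h (IsBigO.of_bound 1 (by simp))
  have h3 := IsBigO.finsetProd (s := Finset.univ.erase (Quotient.mk _ 1)) fun q _ => h2 q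
  have h4 := (isBigO_refl F atImInfty).mul h3
  simp only [Finset.prod_const_one, mul_one] at h4
  refine IsBigO.congr_left h4 fun z => ?_
  simp only [Pi.mul_apply, Finset.prod_apply]
  congr!

/-- The Sturm bound; as `sturm_decay`, `sturm_QS` in `GSturm` (norm to level one). -/
theorem MF.sturm [Γ.FiniteIndex] {n : ℕ} (h : MF Γ (n : ℤ) f) {φ : ℂ⟦X⟧} (hφ : QP f φ) {B : ℕ}
    (hB : n * Γ.index < 12 * B) (h0 : ∀ m < B, coeff m φ = 0) : f = 0 := by
  obtain ⟨F, rfl⟩ := h.exists_coe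
  have hd := QS.decay hφ h0
  have h1 : ModularForm.norm 𝒮ℒ F = 0 := by
    refine ModularForm.sturm_bound_levelOne ?_
    have e : ((n : ℤ) * (Nat.card (𝒮ℒ ⧸ (Γ : Subgroup (GL (Fin 2) ℝ)).subgroupOf 𝒮ℒ) : ℕ)).toNat =
        n * Γ.index := by
      rw [gsturm_card, ← Nat.cast_mul, Int.toNat_natCast]
    rw [e]
    refine lt_of_lt_of_le (b := ((n * Γ.index / 12 + 1 : ℕ) : ℕ∞)) ?_ ?_
    · exact_mod_cast Nat.lt_succ_self _
    · refine PowerSeries.nat_le_order _ _ fun m hm => ?_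
      refine (gsturm_QS _).coeff_eq_zero ((wmf2_norm F h.bdy).trans hd) ?_
      have h2 : m < B := by omega
      exact_mod_cast h2
  exact (ModularForm.norm_eq_zero_iff 𝒮ℒ F).mp h1

end Pool.Agent.Lib.MP_bcfefa_nt.W
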