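import Pool.Agent.Lib.MP_bcfefa_nt.WQP

/-!
Eisenstein series of weights two and four. Copy from
`outputs/live/Pool/Agent/Lib/MP_7e5527_ag/Ram` what is useful.
-/

set_option autoImplicit false

noncomputable section

namespace Pool.Agent.Lib.MP_bcfefa_nt.W

open PowerSeries Finset CongruenceSubgroup UpperHalfPlane
open Pool.Agent.Lib.MP_88d29b_nt.G
open scoped MatrixGroups ModularForm Manifold

variable {f : ℍ → ℂ} {φ : ℂ⟦X⟧}

theorem wram_iff : QP f φ ↔
    ∀ τ : ℍ, HasSum (fun m => coeff m φ • Function.Periodic.qParam 1 τ ^ m) (f τ) := by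
  have h : ∀ (τ : ℍ) (m : ℕ), Function.Periodic.qParam 1 τ ^ m =
      Complex.exp (2 * Real.pi * Complex.I * m * τ) := fun τ m => by
    rw [Function.Periodic.qParam, ← Complex.exp_nat_mul]
    congr 1
    push_cast
    ring
  simp only [h, smul_eq_mul]
  rfl

theorem qp_E2 : QP EisensteinSeries.E2 e2c := by
  refine wram_iff.2 fun τ => ?_
  simpa only [e2c, coeff_mk, Function.Periodic.qParam, Complex.ofReal_one, div_one]
    using EisensteinSeries.hasSum_qExpansion_E2 (z := τ)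

theorem qp_E4 : QP ModularForm.E₄ (e4s ℂ) := by
  have h : qExpansion 1 ModularForm.E₄ = e4s ℂ := by
    ext n
    rw [EisensteinSeries.E_qExpansion_coeff _ ⟨2, rfl⟩,
      show _root_.bernoulli (2 + 2) = -1 / 30 by decide +kernel]
    by_cases h : n = 0 <;> simp [e4s, h]
    norm_num
  refine wram_iff.2 fun τ => ?_
  rw [← h]
  exact ModularForm.hasSum_qExpansion ModularForm.E₄ one_pos one_mem_strictPeriods_SL τ

theorem wram_serre_eq (k : ℂ) (F : ℍ → ℂ) :
    Derivative.serreDerivative k F =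
      Derivative.normalizedDerivOfComplex F + (-(k * 12⁻¹)) • (EisensteinSeries.E2 * F) := by
  ext z
  simp only [Derivative.serreDerivative_apply, Pi.add_apply, Pi.smul_apply, Pi.mul_apply,
    smul_eq_mul]
  ring

theorem QP.serre (h : QP f φ) (k : ℂ) :
    QP (Derivative.serreDerivative k f) (DD φ - C (k / 12) * e2c * φ) := by
  have h1 := h.deriv.add ((qp_E2.mul h).smul (-(k * 12⁻¹)))
  rw [← wram_serre_eq, smul_eq_C_mul, map_neg, neg_mul, ← sub_eq_add_neg, ← mul_assoc,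
    ← div_eq_mul_inv] at h1
  exact h1

theorem wram_slash_E4 (γ : SL(2, ℤ)) :
    (ModularForm.E₄ : ℍ → ℂ) ∣[(4 : ℤ)] γ = ModularForm.E₄ :=
  SlashInvariantForm.slash_action_eqn ModularForm.E₄ (γ : GL (Fin 2) ℝ) ⟨γ, rfl⟩

theorem wram_D_D2 (γ : SL(2, ℤ)) (z : ℍ) :
    Derivative.normalizedDerivOfComplex (EisensteinSeries.D2 γ) z =
      -((γ 1 0 : ℂ) / denom γ z) ^ 2 := by
  have h1 := (hasDerivAt_denom_zpow (γ : GL (Fin 2) ℝ) (-1) z).const_mul
    (2 * Real.pi * Complex.I * (γ 1 0 : ℂ))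
  have h2 : EisensteinSeries.D2 γ ∘ ofComplex =ᶠ[nhds (z : ℂ)]
      fun w => (2 * Real.pi * Complex.I * (γ 1 0 : ℂ)) * denom (γ : GL (Fin 2) ℝ) w ^ (-1 : ℤ) := by
    filter_upwards [isOpen_upperHalfPlaneSet.mem_nhds z.im_pos] with w hw
    simp only [Function.comp_apply, ofComplex_apply_of_im_pos hw, EisensteinSeries.D2, zpow_neg_one,
      div_eq_mul_inv]
  rw [Derivative.normalizedDerivOfComplex, h2.deriv_eq, h1.deriv]
  have hpi : (2 * Real.pi * Complex.I : ℂ) ≠ 0 := Complex.two_pi_I_ne_zero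
  have hd := denom_ne_zero (γ : GL (Fin 2) ℝ) z
  have h3 : (((γ : GL (Fin 2) ℝ) 1 0 : ℝ) : ℂ) = (γ 1 0 : ℂ) := by simp
  rw [h3, show (-1 - 1 : ℤ) = -2 by norm_num, zpow_neg, zpow_ofNat]
  push_cast
  field_simp

theorem wram_mdiff_D2 (γ : SL(2, ℤ)) : MDiff (EisensteinSeries.D2 γ) := by
  have h : EisensteinSeries.D2 γ = (2 * Real.pi * Complex.I * (γ 1 0 : ℂ)) •
      fun z : ℍ => denom (γ : GL (Fin 2) ℝ) z ^ (-1 : ℤ) := by
    ext z
    simp only [EisensteinSeries.D2, Pi.smul_apply, smul_eq_mul, zpow_neg_one, div_eq_mul_inv]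
  rw [h]
  exact (mdifferentiable_denom_zpow _ _).const_smul _

theorem wram_slash_serre_E2 (γ : SL(2, ℤ)) :
    Derivative.serreDerivative 1 EisensteinSeries.E2 ∣[(4 : ℤ)] γ =
      Derivative.serreDerivative 1 EisensteinSeries.E2 := by
  have h1 := Derivative.normalizedDerivOfComplex_SL_slash (k := 2) (γ := γ) E2_mdifferentiable
  have h2 := ModularForm.mul_slash_SL2 2 2 γ EisensteinSeries.E2 EisensteinSeries.E2
  rw [EisensteinSeries.E2_slash_action] at h1 h2
  rw [Derivative.normalizedDerivOfComplex_sub _ _ E2_mdifferentiable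
    ((wram_mdiff_D2 γ).const_smul _),
    Derivative.normalizedDerivOfComplex_smul _ _ (wram_mdiff_D2 γ)] at h1
  rw [wram_serre_eq, SlashAction.add_slash, ModularForm.SL_smul_slash]
  ext z
  have h1z := congrFun h1 z
  have h2z := congrFun h2 z
  simp only [Pi.sub_apply, Pi.smul_apply, Pi.mul_apply, smul_eq_mul, wram_D_D2,
    show (2 + 2 : ℤ) = 4 by norm_num] at h1z h2z
  simp only [Pi.add_apply, Pi.smul_apply, Pi.mul_apply, smul_eq_mul]
  rw [h2z]
  have hD : EisensteinSeries.D2 γ z = 2 * Real.pi * Complex.I * ((γ 1 0 : ℂ) / denom γ z) := by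
    simp only [EisensteinSeries.D2, mul_div_assoc]
  rw [hD, riemannZeta_two] at h1z
  rw [hD, riemannZeta_two]
  have hpi : (Real.pi : ℂ) ≠ 0 := by exact_mod_cast Real.pi_ne_zero
  have hI : (2 * Real.pi * Complex.I : ℂ)⁻¹ = -Complex.I / (2 * Real.pi) := by
    field_simp
    simp
  rw [hI] at h1z
  generalize (γ 1 0 : ℂ) / denom γ z = a at h1z ⊢
  have hk : (1 / (2 * ((Real.pi : ℂ) ^ 2 / 6))) = 3 * (Real.pi : ℂ)⁻¹ ^ 2 := by
    field_simp
    norm_num
  have hk2 : -Complex.I / (2 * Real.pi) = -Complex.I * (Real.pi : ℂ)⁻¹ / 2 := by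
    field_simp
  rw [hk] at h1z ⊢
  rw [hk2] at h1z
  have hp : (Real.pi : ℂ) * (Real.pi : ℂ)⁻¹ = 1 := mul_inv_cancel₀ hpi
  have hI2 := Complex.I_mul_I
  generalize (Real.pi : ℂ)⁻¹ = r at h1z hp ⊢
  generalize (Real.pi : ℂ) = P at h1z hp ⊢
  push_cast at h1z
  grind

theorem wram_eq_zero (hf : QP f φ) {k : ℤ} (hk : k < 12) (hs : ∀ γ : SL(2, ℤ), f ∣[k] γ = f)
    (h0 : coeff 0 φ = 0) : φ = 0 := by
  let F : ModularForm 𝒮ℒ k :=
    { toFun := f
      slash_action_eq' := fun _ ⟨γ, hγ⟩ => hγ ▸ hs γ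
      holo' := hf.holo
      bdd_at_cusps' := fun {c} hc => by
        rw [OnePoint.isBoundedAt_iff_forall_SL2Z hc]
        intro γ _
        rw [hs γ]
        exact hf.bdd }
  have hq : qExpansion 1 F = φ := by
    ext m
    exact (ModularFormClass.qExpansion_coeff_unique (f := F) one_pos one_mem_strictPeriods_SL
      (wram_iff.1 hf) m).symm
  have hF : F = 0 := by
    apply ModularForm.sturm_bound_levelOne
    have : k.toNat / 12 = 0 := by omega
    rw [this, hq]
    simpa [PowerSeries.order_ne_zero_iff_constCoeff_eq_zero, pos_iff_ne_zero] using h0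
  rw [← hq, hF]
  exact qExpansion_zero 1

/-- Ramanujan; copy `ram_E2_C` and what it needs from the file named above. -/
theorem ram_e2c : 12 * DD e2c = e2c ^ 2 - e4s ℂ := by
  have h := wram_eq_zero (((qp_E2.serre 1).smul 12).add qp_E4) (k := 4) (by norm_num)
    (fun γ => by
      rw [SlashAction.add_slash, ModularForm.SL_smul_slash, wram_slash_E4, wram_slash_serre_E2])
    (by
      have h2 : constantCoeff e2c = 1 := by simp [e2c]
      have h4 : constantCoeff (e4s ℂ) = 1 := by simp [e4s]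
      have h0 : constantCoeff (DD e2c) = 0 := by simp [DD]
      simp [h0, h2, h4])
  rw [smul_eq_C_mul, mul_sub, ← mul_assoc, ← mul_assoc, ← map_mul,
    show (12 : ℂ) * (1 / 12) = 1 by norm_num, map_one, map_ofNat] at h
  linear_combination h

end Pool.Agent.Lib.MP_bcfefa_nt.W
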