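import Pool.Agent.Lib.MP_bcfefa_nt.WThC

/-!
Homogeneous polynomials in `uu`, `FF`: triangularity.
-/

set_option autoImplicit false

noncomputable section

namespace Pool.Agent.Lib.MP_bcfefa_nt.W

open PowerSeries Finset

variable {K : Type*} [CommRing K] {L : Type*} [CommRing L]

lemma wtri_mon (a j : ℕ) : uu K ^ a * FF K ^ j ∈ Hom K (a + j) :=
  Submodule.subset_span ⟨⟨j, Nat.lt_succ_of_le (Nat.le_add_left j a)⟩, by simp⟩

lemma wtri_eq (a j : ℕ) : uu K ^ a * FF K ^ j = X ^ j * (uu K ^ a * (psi K ^ 4) ^ j) := by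
  rw [FF, mul_pow, mul_left_comm]

lemma wtri_congr {e : ℕ} {p p' : ℕ → K} (h : ∀ j ≤ e, p j = p' j) : hom e p = hom e p' :=
  Finset.sum_congr rfl fun j hj => by rw [h j (Nat.lt_succ_iff.1 (mem_range.1 hj))]

lemma wtri_smul (e : ℕ) (c : K) (p : ℕ → K) : (hom e fun j => c * p j) = c • hom e p := by
  simp only [hom, Finset.smul_sum, mul_smul]

lemma hom_mem (e : ℕ) (p : ℕ → K) : hom e p ∈ Hom K e := by
  refine Submodule.sum_mem _ fun j hj => Submodule.smul_mem _ _ (Submodule.subset_span ?_)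
  exact ⟨⟨j, mem_range.1 hj⟩, rfl⟩

lemma mem_Hom_iff {e : ℕ} {φ : K⟦X⟧} : φ ∈ Hom K e ↔ ∃ p, φ = hom e p := by
  refine ⟨fun h => ?_, fun ⟨p, hp⟩ => hp ▸ hom_mem e p⟩
  obtain ⟨c, rfl⟩ := (Submodule.mem_span_range_iff_exists_fun K).1 h
  refine ⟨fun j => if hj : j < e + 1 then c ⟨j, hj⟩ else 0, ?_⟩
  rw [hom, Finset.sum_range]
  exact Finset.sum_congr rfl fun j _ => by rw [dif_pos j.2]

lemma one_mem_Hom : (1 : K⟦X⟧) ∈ Hom K 0 := by
  simpa using wtri_mon (K := K) 0 0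

lemma uu_mem_Hom : uu K ∈ Hom K 1 := by
  simpa using wtri_mon (K := K) 1 0

lemma FF_mem_Hom : FF K ∈ Hom K 1 := by
  simpa using wtri_mon (K := K) 0 1

lemma mul_mem_Hom {e e' : ℕ} {φ ψ : K⟦X⟧} (h : φ ∈ Hom K e) (h' : ψ ∈ Hom K e') :
    φ * ψ ∈ Hom K (e + e') := by
  obtain ⟨p, rfl⟩ := mem_Hom_iff.1 h
  obtain ⟨p', rfl⟩ := mem_Hom_iff.1 h'
  rw [hom, hom, Finset.sum_mul_sum]
  refine Submodule.sum_mem _ fun i hi => Submodule.sum_mem _ fun j hj => ?_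
  rw [smul_mul_smul_comm, mul_mul_mul_comm, ← pow_add, ← pow_add]
  have h1 : e + e' = e - i + (e' - j) + (i + j) := by
    have := mem_range.1 hi
    have := mem_range.1 hj
    omega
  rw [h1]
  exact Submodule.smul_mem _ _ (wtri_mon _ _)

lemma pow_mem_Hom {e : ℕ} {φ : K⟦X⟧} (h : φ ∈ Hom K e) (n : ℕ) : φ ^ n ∈ Hom K (e * n) := by
  induction n with
  | zero => simpa using one_mem_Hom
  | succ n ih =>
    rw [pow_succ, Nat.mul_succ]
    exact mul_mem_Hom ih h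

lemma natCast_mul_mem_Hom {e : ℕ} {φ : K⟦X⟧} (n : ℕ) (h : φ ∈ Hom K e) :
    (n : K⟦X⟧) * φ ∈ Hom K e := by
  rw [← nsmul_eq_mul]
  exact nsmul_mem h n

lemma map_hom (f : K →+* L) (e : ℕ) (p : ℕ → K) : map f (hom e p) = hom e fun j => f (p j) := by
  simp only [hom, map_sum]
  refine Finset.sum_congr rfl fun j _ => ?_
  rw [smul_eq_C_mul, smul_eq_C_mul, map_mul, map_mul, map_pow, map_pow, map_uu, map_FF, map_C]

lemma map_mem_Hom (f : K →+* L) {e : ℕ} {φ : K⟦X⟧} (h : φ ∈ Hom K e) : map f φ ∈ Hom L e := by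
  obtain ⟨p, rfl⟩ := mem_Hom_iff.1 h
  rw [map_hom]
  exact hom_mem _ _

/-- `uu ^ a * FF ^ j = q ^ j + ...`. -/
lemma coeff_mon_lt (a : ℕ) {j n : ℕ} (h : n < j) : coeff n (uu K ^ a * FF K ^ j) = 0 := by
  rw [wtri_eq, coeff_X_pow_mul', if_neg (not_le.2 h)]

lemma coeff_mon_self (a j : ℕ) : coeff j (uu K ^ a * FF K ^ j) = 1 := by
  have h1 : constantCoeff (uu K) = 1 := by simpa using coeff_zero_uu (K := K)
  have h2 : constantCoeff (psi K) = 1 := by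
    rw [← coeff_zero_eq_constantCoeff_apply, coeff_psi]
    simp [occ]
  rw [wtri_eq, coeff_X_pow_mul', if_pos le_rfl, Nat.sub_self, coeff_zero_eq_constantCoeff_apply,
    map_mul, map_pow, map_pow, map_pow, h1, h2]
  simp

lemma coeff_mon_int (a j n : ℕ) :
    coeff n (uu K ^ a * FF K ^ j) = ((coeff n (uu ℤ ^ a * FF ℤ ^ j) : ℤ) : K) := by
  rw [← map_uu (Int.castRingHom K), ← map_FF (Int.castRingHom K), ← map_pow, ← map_pow, ← map_mul,
    coeff_map, eq_intCast]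

/-- Triangularity: strong induction on `j`. -/
theorem tri (H : AddSubgroup K) {e : ℕ} {p : ℕ → K} (h : ∀ n ≤ e, coeff n (hom e p) ∈ H) :
    ∀ j ≤ e, p j ∈ H := by
  intro j
  induction j using Nat.strong_induction_on with
  | _ j ih =>
    intro hj
    have h1 := h j hj
    rw [hom, map_sum, ← Finset.add_sum_erase _ _ (mem_range.2 (Nat.lt_succ_of_le hj)), map_smul,
      coeff_mon_self, smul_eq_mul, mul_one] at h1
    refine (H.add_mem_cancel_right (H.sum_mem fun i hi => ?_)).1 h1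
    rw [map_smul, smul_eq_mul]
    rcases lt_or_gt_of_ne (mem_erase.1 hi).1 with h2 | h2
    · rw [coeff_mon_int, mul_comm, ← zsmul_eq_mul]
      exact H.zsmul_mem (ih i h2 (h2.le.trans hj)) _
    · rw [coeff_mon_lt _ h2, mul_zero]
      exact H.zero_mem

theorem eq_zero_of_mem_Hom {e : ℕ} {φ : K⟦X⟧} (h : φ ∈ Hom K e)
    (h0 : ∀ n ≤ e, coeff n φ = 0) : φ = 0 := by
  obtain ⟨p, rfl⟩ := mem_Hom_iff.1 h
  have h1 := tri ⊥ (fun n hn => AddSubgroup.mem_bot.2 (h0 n hn))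
  refine Finset.sum_eq_zero fun j hj => ?_
  rw [AddSubgroup.mem_bot.1 (h1 j (Nat.lt_succ_iff.1 (mem_range.1 hj))), zero_smul]

theorem eq_of_mem_Hom {e : ℕ} {φ ψ : K⟦X⟧} (h : φ ∈ Hom K e) (h' : ψ ∈ Hom K e)
    (h0 : ∀ n ≤ e, coeff n φ = coeff n ψ) : φ = ψ := by
  refine sub_eq_zero.1 (eq_zero_of_mem_Hom (Submodule.sub_mem _ h h') fun n hn => ?_)
  rw [map_sub, h0 n hn, sub_self]

/-- Descent along an injective ring map (`tri` with `H` the image). -/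
theorem mem_Hom_of_map (f : K →+* L) (hf : Function.Injective f) {e : ℕ} {φ : K⟦X⟧}
    (h : map f φ ∈ Hom L e) : φ ∈ Hom K e := by
  obtain ⟨p, hp⟩ := mem_Hom_iff.1 h
  have h1 := tri f.toAddMonoidHom.range (e := e) (p := p) fun n _ =>
    ⟨coeff n φ, by rw [← hp, coeff_map]; rfl⟩
  choose! p' hp' using h1
  refine mem_Hom_iff.2 ⟨p', PowerSeries.map_injective f hf ?_⟩
  rw [hp, map_hom]
  exact wtri_congr fun j hj => (hp' j hj).symm

theorem mem_Hom_of_smul {e : ℕ} {φ : ℤ⟦X⟧} {m : ℤ} (hm : m ≠ 0) (h : m • φ ∈ Hom ℤ e) :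
    φ ∈ Hom ℤ e := by
  obtain ⟨p, hp⟩ := mem_Hom_iff.1 h
  have h1 := tri (AddMonoidHom.mulLeft m).range (e := e) (p := p) fun n _ =>
    ⟨coeff n φ, by rw [← hp, map_smul]; rfl⟩
  choose! p' hp' using h1
  refine mem_Hom_iff.2 ⟨p', ?_⟩
  have h2 : hom e p = hom e fun j => m * p' j := wtri_congr fun j hj => (hp' j hj).symm
  rw [wtri_smul, ← hp] at h2
  ext n
  have h3 := congrArg (coeff n) h2
  rw [map_smul, map_smul] at h3
  exact mul_left_cancel₀ hm h3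

/-- Clearing denominators. -/
theorem exists_int_of_rat {e : ℕ} {φ : ℚ⟦X⟧} (h : φ ∈ Hom ℚ e) :
    ∃ (m : ℚ) (φ' : ℤ⟦X⟧), m ≠ 0 ∧ φ' ∈ Hom ℤ e ∧ map (Int.castRingHom ℚ) φ' = m • φ := by
  obtain ⟨p, rfl⟩ := mem_Hom_iff.1 h
  have h1 : ∀ j ≤ e, ∃ z : ℤ, (z : ℚ) = (∏ i ∈ range (e + 1), ((p i).den : ℚ)) * p j := by
    intro j hj
    refine ⟨(∏ i ∈ (range (e + 1)).erase j, ((p i).den : ℤ)) * (p j).num, ?_⟩
    rw [← Finset.prod_erase_mul _ _ (mem_range.2 (Nat.lt_succ_of_le hj)), mul_assoc,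
      Rat.den_mul_eq_num]
    push_cast
    rfl
  choose! z hz using h1
  refine ⟨∏ i ∈ range (e + 1), ((p i).den : ℚ), hom e z,
    Finset.prod_ne_zero_iff.2 fun i _ => Nat.cast_ne_zero.2 (p i).den_nz, hom_mem e z, ?_⟩
  rw [map_hom, ← wtri_smul]
  exact wtri_congr hz

end Pool.Agent.Lib.MP_bcfefa_nt.W
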