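import Pool.Agent.Lib.MP_bcfefa_nt.WL4a
import Pool.Agent.Lib.MP_bcfefa_nt.WRam
import Pool.Agent.Lib.MP_bcfefa_nt.WMF2
import Pool.Agent.Lib.MP_bcfefa_nt.WTri

/-!
The structure theorem in level four and its consequences.
-/

set_option autoImplicit false

noncomputable section

namespace Pool.Agent.Lib.MP_bcfefa_nt.W

open PowerSeries Finset CongruenceSubgroup UpperHalfPlane
open Pool.Agent.Lib.MP_88d29b_nt.G
open scoped MatrixGroups ModularForm Manifold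

lemma wl4b_zero (Γ : Subgroup SL(2, ℤ)) (k : ℤ) : InM Γ k 0 := ⟨0, mf_zero Γ k, qp_zero⟩

lemma wl4b_add {Γ : Subgroup SL(2, ℤ)} {k : ℤ} {φ ψ : ℂ⟦X⟧} (h : InM Γ k φ) (h' : InM Γ k ψ) :
    InM Γ k (φ + ψ) := by
  obtain ⟨f, hf, hq⟩ := h
  obtain ⟨g, hg, hq'⟩ := h'
  exact ⟨f + g, hf.add hg, hq.add hq'⟩

lemma wl4b_smul {Γ : Subgroup SL(2, ℤ)} {k : ℤ} {φ : ℂ⟦X⟧} (c : ℂ) (h : InM Γ k φ) :
    InM Γ k (c • φ) := by
  obtain ⟨f, hf, hq⟩ := h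
  exact ⟨c • f, hf.smul c, hq.smul c⟩

lemma wl4b_mon (a j : ℕ) : InM (Gamma0 4) ((2 * (a + j) : ℕ) : ℤ) (uu ℂ ^ a * FF ℂ ^ j) := by
  obtain ⟨f, hf, hq⟩ := inM_uu
  obtain ⟨g, hg, hq'⟩ := inM_FF
  refine ⟨f ^ a * g ^ j, ?_, (hq.pow a).mul (hq'.pow j)⟩
  have h := (hf.pow a).mul (hg.pow j)
  have h1 : ((2 * (a + j) : ℕ) : ℤ) = 2 * (a : ℤ) + 2 * (j : ℤ) := by
    push_cast
    ring
  rw [h1]
  exact h

lemma wl4b_coeff (e : ℕ) (φ : ℂ⟦X⟧) (m : ℕ) (hm : m ≤ e + 1) :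
    ∃ ψ ∈ Hom ℂ e, ∀ n < m, coeff n ψ = coeff n φ := by
  induction m with
  | zero => exact ⟨0, Submodule.zero_mem _, fun n hn => absurd hn (Nat.not_lt_zero n)⟩
  | succ m ih =>
    obtain ⟨ψ, hψ, h⟩ := ih (Nat.le_of_succ_le hm)
    have hme : m ≤ e := Nat.le_of_succ_le_succ hm
    have h1 : uu ℂ ^ (e - m) * FF ℂ ^ m ∈ Hom ℂ e := by
      have h2 := wtri_mon (K := ℂ) (e - m) m
      rwa [Nat.sub_add_cancel hme] at h2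
    refine ⟨ψ + (coeff m φ - coeff m ψ) • (uu ℂ ^ (e - m) * FF ℂ ^ m),
      Submodule.add_mem _ hψ (Submodule.smul_mem _ _ h1), fun n hn => ?_⟩
    rw [map_add, map_smul, smul_eq_mul]
    rcases Nat.lt_succ_iff_lt_or_eq.1 hn with h3 | rfl
    · rw [coeff_mon_lt _ h3, mul_zero, add_zero, h n h3]
    · rw [coeff_mon_self, mul_one, add_sub_cancel]

theorem exists_hom_coeff (e : ℕ) (φ : ℂ⟦X⟧) : ∃ p, ∀ n ≤ e, coeff n (hom e p) = coeff n φ := by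
  obtain ⟨ψ, hψ, h⟩ := wl4b_coeff e φ (e + 1) le_rfl
  obtain ⟨p, rfl⟩ := mem_Hom_iff.1 hψ
  exact ⟨p, fun n hn => h n (Nat.lt_succ_of_le hn)⟩

theorem inM_of_mem_Hom {e : ℕ} {φ : ℂ⟦X⟧} (h : φ ∈ Hom ℂ e) :
    InM (Gamma0 4) ((2 * e : ℕ) : ℤ) φ := by
  induction h using Submodule.span_induction with
  | mem x hx =>
    obtain ⟨j, rfl⟩ := hx
    have h1 := wl4b_mon (e - (j : ℕ)) j
    rwa [Nat.sub_add_cancel (Nat.le_of_lt_succ j.2)] at h1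
  | zero => exact wl4b_zero _ _
  | add x y _ _ hx hy => exact wl4b_add hx hy
  | smul c x _ hx => exact wl4b_smul c hx

/-- Subtract `hom e p` from `exists_hom_coeff`; `MF.sturm` with `B = e + 1`. -/
theorem mem_Hom_of_inM {e : ℕ} {φ : ℂ⟦X⟧} (h : InM (Gamma0 4) ((2 * e : ℕ) : ℤ) φ) :
    φ ∈ Hom ℂ e := by
  obtain ⟨p, hp⟩ := exists_hom_coeff e φ
  obtain ⟨f, hf, hq⟩ := h
  obtain ⟨g, hg, hq'⟩ := inM_of_mem_Hom (hom_mem e p)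
  have hB : 2 * e * (Gamma0 4).index < 12 * (e + 1) := by
    have h1 := Nat.mul_le_mul_left (2 * e) index_Gamma0_four
    omega
  have h0 := MF.sturm (n := 2 * e) (hf.sub hg) (hq.sub hq') hB fun m hm => by
    rw [map_sub, hp m (Nat.le_of_lt_succ hm), sub_self]
  rw [sub_eq_zero] at h0
  rw [h0] at hq
  rw [hq.unique hq']
  exact hom_mem e p

theorem serre_mem_Hom {e : ℕ} {φ : ℂ⟦X⟧} (h : φ ∈ Hom ℂ e) :
    DD φ - C ((e : ℂ) / 6) * e2c * φ ∈ Hom ℂ (e + 1) := by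
  obtain ⟨f, hf, hq⟩ := inM_of_mem_Hom h
  refine mem_Hom_of_inM ⟨Derivative.serreDerivative (((2 * e : ℕ) : ℤ) : ℂ) f, ?_, ?_⟩
  · have h1 : ((2 * (e + 1) : ℕ) : ℤ) = ((2 * e : ℕ) : ℤ) + 2 := by
      push_cast
      ring
    rw [h1]
    exact hf.serre
  · have h1 : (e : ℂ) / 6 = (((2 * e : ℕ) : ℤ) : ℂ) / 12 := by
      push_cast
      ring
    rw [h1]
    exact hq.serre _

theorem e4s_mem_Hom : e4s ℂ ∈ Hom ℂ 2 := by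
  exact mem_Hom_of_inM ⟨ModularForm.E₄, (mf_coe ModularForm.E₄).mono le_top, qp_E4⟩

/-- `MF.dc`, `cov_tRep`, `QP.hecke`. -/
theorem hecke_mem_Hom {l : ℕ} (hl : l.Prime) (h2 : l ≠ 2) {e : ℕ} {φ : ℂ⟦X⟧} (h : φ ∈ Hom ℂ e) :
    UU l φ + (l : ℂ) ^ (((2 * e : ℕ) : ℤ) - 1) • VV l φ ∈ Hom ℂ e := by
  obtain ⟨f, hf, hq⟩ := inM_of_mem_Hom h
  have hc : Nat.Coprime l 4 :=
    Nat.Coprime.pow_right 2 ((Nat.coprime_primes hl Nat.prime_two).2 h2)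
  exact mem_Hom_of_inM ⟨_, hf.dc (cov_tRep hl hc), hq.hecke hl.pos _⟩

theorem VV_four_mem_Hom {e : ℕ} {φ : ℂ⟦X⟧} (h : InM ⊤ ((2 * e : ℕ) : ℤ) φ) :
    VV 4 φ ∈ Hom ℂ e := by
  obtain ⟨f, hf, hq⟩ := h
  exact mem_Hom_of_inM ⟨dil 4 f, hf.dil_four, hq.dil (by norm_num)⟩

end Pool.Agent.Lib.MP_bcfefa_nt.W
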