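import Pool.Agent.Lib.MP_bcfefa_nt.WM3a

/-!
Parity of the degree. Put `a = VV 4 th` (class 0 modulo 4), `c = 2 * oc` (class 1),
`th = a + c`, `v = a ^ 4 = VV 4 uu`, `c ^ 4 = 1 - v` (from `VV_FF`, `FF3`), so
`uu = 1 + a ^ 3 c + a c ^ 3`.
-/

set_option autoImplicit false

noncomputable section

namespace Pool.Agent.Lib.MP_bcfefa_nt.W

open PowerSeries Finset

lemma wm3b_three : (3 : F3⟦X⟧) = 0 := by
  have h : (3 : F3⟦X⟧) = C (3 : F3) := (map_ofNat C 3).symm
  rw [h, show (3 : F3) = 0 from rfl, map_zero]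

lemma wm3b_v : VV 4 (uu F3) = VV 4 (th F3) ^ 4 := VV_pow (by norm_num) _ _

lemma wm3b_ev (p : Polynomial F3) : VV 4 (ev p) = Polynomial.aeval (VV 4 (th F3) ^ 4) p := by
  rw [← wm3b_v]
  exact VV_aeval (by norm_num) _ _

lemma wm3b_c (H : Facts) : (2 * oc F3) ^ 4 = 1 - VV 4 (th F3) ^ 4 := by
  have h := VV_FF (K := F3)
  rw [H.FF3, map_sub, VV_one (by norm_num), wm3b_v] at h
  linear_combination -h + 5 * oc F3 ^ 4 * wm3b_three

lemma wm3b_uu (H : Facts) :
    uu F3 = 1 + VV 4 (th F3) ^ 3 * (2 * oc F3) + VV 4 (th F3) * (2 * oc F3) ^ 3 := by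
  have h := wm3b_c H
  have h1 : uu F3 = (VV 4 (th F3) + 2 * oc F3) ^ 4 := by rw [← th_eq]; rfl
  rw [h1]
  generalize VV 4 (th F3) = a at h ⊢
  generalize 2 * oc F3 = c at h ⊢
  linear_combination h + (a ^ 3 * c + 2 * a ^ 2 * c ^ 2 + a * c ^ 3) * wm3b_three

lemma wm3b_main (H : Facts) (j : ℕ) : ∃ x y z w : Polynomial F3,
    (∀ n, j < n → x.coeff n = 0 ∧ y.coeff n = 0 ∧ (Polynomial.X * z).coeff n = 0 ∧
      (Polynomial.X * w).coeff n = 0) ∧
    ((j % 2 = 0 → x.coeff j = 1 ∧ y.coeff j = 1 ∧ (Polynomial.X * z).coeff j = 0 ∧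
      (Polynomial.X * w).coeff j = 0) ∧
    (j % 2 = 1 → x.coeff j = -1 ∧ y.coeff j = 1 ∧ (Polynomial.X * z).coeff j = 1 ∧
      (Polynomial.X * w).coeff j = 1)) ∧
    th F3 * uu F3 ^ j = VV 4 (th F3) * VV 4 (ev x) + 2 * oc F3 * VV 4 (ev y) +
      VV 4 (th F3) ^ 3 * (2 * oc F3) ^ 2 * VV 4 (ev z) +
      VV 4 (th F3) ^ 2 * (2 * oc F3) ^ 3 * VV 4 (ev w) := by
  induction j with
  | zero =>
    refine ⟨1, 1, 0, 0, fun n hn => ?_, ⟨fun _ => by simp, fun h => by omega⟩, ?_⟩
    · simp [Polynomial.coeff_one, hn.ne']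
    · simp only [map_one, map_zero, VV_one (show 4 ≠ 0 by norm_num), pow_zero, mul_one, mul_zero,
        add_zero]
      exact th_eq
  | succ j ih =>
    obtain ⟨x, y, z, w, h1, h2, h3⟩ := ih
    have e : ∀ m, j ≤ m →
        (x + (1 - Polynomial.X) * y + Polynomial.X * (1 - Polynomial.X) * w).coeff (m + 1) =
          -y.coeff m - (Polynomial.X * w).coeff m ∧
        (y + Polynomial.X * x + Polynomial.X * (1 - Polynomial.X) * z).coeff (m + 1) =
          x.coeff m - (Polynomial.X * z).coeff m ∧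
        (Polynomial.X * (z + y + (1 - Polynomial.X) * w)).coeff (m + 1) =
          y.coeff m - (Polynomial.X * w).coeff m ∧
        (Polynomial.X * (w + x + Polynomial.X * z)).coeff (m + 1) =
          x.coeff m + (Polynomial.X * z).coeff m := by
      intro m hm
      obtain ⟨a1, a2, a3, a4⟩ := h1 (m + 1) (by omega)
      have e1 : x + (1 - Polynomial.X) * y + Polynomial.X * (1 - Polynomial.X) * w =
        x + y + Polynomial.X * w - Polynomial.X * y - Polynomial.X * (Polynomial.X * w) := by ring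
      have e2 : y + Polynomial.X * x + Polynomial.X * (1 - Polynomial.X) * z =
        y + Polynomial.X * z + Polynomial.X * x - Polynomial.X * (Polynomial.X * z) := by ring
      have e3 : Polynomial.X * (z + y + (1 - Polynomial.X) * w) = Polynomial.X * z +
        Polynomial.X * w + Polynomial.X * y - Polynomial.X * (Polynomial.X * w) := by ring
      have e4 : Polynomial.X * (w + x + Polynomial.X * z) =
        Polynomial.X * w + Polynomial.X * x + Polynomial.X * (Polynomial.X * z) := by ring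
      rw [e1, e2, e3, e4]
      generalize Polynomial.X * z = Z at a3 ⊢
      generalize Polynomial.X * w = W at a4 ⊢
      simp only [Polynomial.coeff_add, Polynomial.coeff_sub, Polynomial.coeff_X_mul, a1, a2, a3, a4,
        zero_add, zero_sub, and_self]
    refine ⟨x + (1 - Polynomial.X) * y + Polynomial.X * (1 - Polynomial.X) * w,
      y + Polynomial.X * x + Polynomial.X * (1 - Polynomial.X) * z,
      z + y + (1 - Polynomial.X) * w, w + x + Polynomial.X * z, fun n hn => ?_,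
      ⟨fun hj => ?_, fun hj => ?_⟩, ?_⟩
    · obtain ⟨m, rfl⟩ : ∃ m, n = m + 1 := ⟨n - 1, by omega⟩
      obtain ⟨a1, a2, a3, a4⟩ := h1 m (by omega)
      obtain ⟨b1, b2, b3, b4⟩ := e m (by omega)
      rw [b1, b2, b3, b4, a1, a2, a3, a4]
      simp
    · obtain ⟨a1, a2, a3, a4⟩ := h2.2 (by omega)
      obtain ⟨b1, b2, b3, b4⟩ := e j le_rfl
      rw [b1, b2, b3, b4, a1, a2, a3, a4]
      decide
    · obtain ⟨a1, a2, a3, a4⟩ := h2.1 (by omega)
      obtain ⟨b1, b2, b3, b4⟩ := e j le_rfl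
      rw [b1, b2, b3, b4, a1, a2, a3, a4]
      decide
    · have hc := wm3b_c H
      rw [pow_succ, ← mul_assoc, h3, wm3b_uu H]
      simp only [wm3b_ev]
      simp only [map_add, map_mul, map_sub, map_one, Polynomial.aeval_X]
      generalize Polynomial.aeval (VV 4 (th F3) ^ 4) x = x'
      generalize Polynomial.aeval (VV 4 (th F3) ^ 4) y = y'
      generalize Polynomial.aeval (VV 4 (th F3) ^ 4) z = z'
      generalize Polynomial.aeval (VV 4 (th F3) ^ 4) w = w'
      generalize VV 4 (th F3) = a at hc ⊢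
      generalize 2 * oc F3 = c at hc ⊢
      linear_combination (a * y' + a ^ 4 * c * z' + a ^ 5 * w' + a ^ 3 * c ^ 2 * w') * hc

/-- `th * uu ^ j = a x(v) + c y(v) + a ^ 3 c ^ 2 z(v) + a ^ 2 c ^ 3 w(v)`; one step is
`x' = x + (1 - v) y + v (1 - v) w`, `y' = y + v x + v (1 - v) z`, `z' = z + y + (1 - v) w`,
`w' = w + x + v z`, from `(1, 1, 0, 0)`. The degrees are at most `j, j, j - 1, j - 1` and the top
coefficients alternate between `(1, 1, 0, 0)` (`j` even) and `(-1, 1, 1, 1)` (`j` odd). -/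
theorem pr_two_pow (H : Facts) (j : ℕ) : ∃ z : Polynomial F3, z.degree < j ∧
    (j % 2 = 1 → z.coeff (j - 1) = 1) ∧
    pr 4 2 (th F3 * uu F3 ^ j) =
      VV 4 (th F3) ^ 3 * (2 * oc F3) ^ 2 * VV 4 (ev z) := by
  obtain ⟨x, y, z, w, h1, h2, h3⟩ := wm3b_main H j
  refine ⟨z, (Polynomial.degree_lt_iff_coeff_zero _ _).2 fun m hm => ?_, fun hj => ?_, ?_⟩
  · have h4 := (h1 (m + 1) (by omega)).2.2.1
    rwa [Polynomial.coeff_X_mul] at h4
  · obtain ⟨k, rfl⟩ : ∃ k, j = k + 1 := ⟨j - 1, by omega⟩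
    have h4 := (h2.2 hj).2.2.1
    rwa [Polynomial.coeff_X_mul] at h4
  · have ha : Cls 4 0 (VV 4 (th F3)) := cls_VV 4 _
    have hc : Cls 4 1 (2 * oc F3) := (cls_natCast 4 2).mul cls_oc
    have hv : ∀ p, Cls 4 0 (VV 4 (ev p)) := fun p => cls_VV 4 _
    have c0 : Cls 4 0 (VV 4 (th F3) * VV 4 (ev x)) := ha.mul (hv x)
    have c1 : Cls 4 1 (2 * oc F3 * VV 4 (ev y)) := hc.mul (hv y)
    have c2 : Cls 4 2 (VV 4 (th F3) ^ 3 * (2 * oc F3) ^ 2 * VV 4 (ev z)) :=
      ((ha.pow 3).mul (hc.pow 2)).mul (hv z)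
    have c3 : Cls 4 3 (VV 4 (th F3) ^ 2 * (2 * oc F3) ^ 3 * VV 4 (ev w)) :=
      ((ha.pow 2).mul (hc.pow 3)).mul (hv w)
    rw [h3, map_add, map_add, map_add, c0.pr_ne (by norm_num), c1.pr_ne (by norm_num), c2.pr_self,
      c3.pr_ne (by norm_num), zero_add, zero_add, add_zero]

theorem even_natDegree (H : Facts) {P : Polynomial F3}
    (h2 : ∀ n, n % 4 = 2 → coeff n (th F3 * ev P) = 0) : Even P.natDegree := by
  by_contra hodd
  have hd : P.natDegree % 2 = 1 := Nat.odd_iff.1 (Nat.not_even_iff_odd.1 hodd)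
  have hP : P ≠ 0 := fun h => by simp [h] at hd
  choose z hz1 hz2 hz3 using pr_two_pow H
  have h0 : pr 4 2 (th F3 * ev P) = 0 := by
    ext n
    rw [coeff_pr, map_zero]
    split_ifs with hn
    · exact h2 n hn
    · rfl
  have h1 : pr 4 2 (th F3 * ev P) = VV 4 (th F3) ^ 3 * (2 * oc F3) ^ 2 *
      VV 4 (ev (∑ j ∈ range (P.natDegree + 1), P.coeff j • z j)) := by
    have e : ev P = ∑ j ∈ range (P.natDegree + 1), P.coeff j • uu F3 ^ j :=
      Polynomial.aeval_eq_sum_range _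
    rw [e, mul_sum, map_sum, map_sum, map_sum, mul_sum]
    refine sum_congr rfl fun j _ => ?_
    rw [mul_smul_comm, map_smul, hz3, map_smul, map_smul, mul_smul_comm]
  have ha : VV 4 (th F3) ≠ 0 := fun h => by
    have h3 := congrArg (coeff 0) h
    rw [coeff_VV, if_pos (dvd_zero 4), Nat.zero_div, coeff_th, map_zero] at h3
    simp [thc] at h3
  have hc : 2 * oc F3 ≠ 0 := fun h => by
    have h3 := congrArg (coeff 1) h
    rw [two_mul, map_add, coeff_oc, map_zero] at h3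
    have h4 : occ 1 = 1 := by simp [occ]
    rw [h4] at h3
    exact absurd h3 (by decide)
  rw [h0] at h1
  have h3 := (mul_eq_zero.1 h1.symm).resolve_left (mul_ne_zero (pow_ne_zero _ ha) (pow_ne_zero _ hc))
  have h4 : ev (∑ j ∈ range (P.natDegree + 1), P.coeff j • z j) = 0 :=
    VV_injective (by norm_num : 4 ≠ 0) (h3.trans (map_zero _).symm)
  have h5 : ∑ j ∈ range (P.natDegree + 1), P.coeff j • z j = 0 :=
    ev_injective (h4.trans (map_zero _).symm)
  have h6 := congrArg (fun p => Polynomial.coeff p (P.natDegree - 1)) h5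
  simp only [Polynomial.finsetSum_coeff, Polynomial.coeff_smul, Polynomial.coeff_zero] at h6
  rw [sum_range_succ, sum_eq_zero, zero_add, hz2 _ hd, smul_eq_mul, mul_one] at h6
  · exact hP (Polynomial.leadingCoeff_eq_zero.1 h6)
  · intro j hj
    have h7 := mem_range.1 hj
    rw [(Polynomial.degree_lt_iff_coeff_zero _ _).1 (hz1 j) _ (by omega), smul_zero]

end Pool.Agent.Lib.MP_bcfefa_nt.W
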