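import Pool.Agent.Lib.MP_bcfefa_nt.WSel

/-!
Selberg's identity modulo three.
-/

set_option autoImplicit false

noncomputable section

namespace Pool.Agent.Lib.MP_bcfefa_nt.W

open PowerSeries Finset

lemma wsel3_sq {a c n : ℕ} (h : a + c = 2 * n) : ((a : ℤ) - n).natAbs ^ 2 + a * c = n ^ 2 := by
  have h1 : (c : ℤ) = 2 * n - a := by omega
  zify
  rw [sq_abs, h1]
  ring

/-- Pairs `m + 3 m' = 2 n` correspond to `r = m - n`, `n ^ 2 = r ^ 2 + 3 m m'`; only one of `r`, `-r`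
is `n` modulo three. -/
theorem coeff_sq_dl (b : F3⟦X⟧) {n : ℕ} (hn : ¬ 3 ∣ n) :
    coeff (n ^ 2) (dl * VV 3 b) =
      ∑ x ∈ antidiagonal (2 * n), if 3 ∣ x.2 then coeff (x.1 * (x.2 / 3)) b else 0 := by
  have h1 : ∀ x : ℕ × ℕ, coeff x.1 dl * coeff x.2 (VV 3 b) =
      if (IsSquare x.1 ∧ ¬ 3 ∣ x.1) ∧ 3 ∣ x.2 then coeff (x.2 / 3) b else 0 := fun x => by
    rw [coeff_dl, coeff_VV]
    by_cases h : IsSquare x.1 ∧ ¬ 3 ∣ x.1 <;> by_cases h' : 3 ∣ x.2 <;> simp [h, h']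
  rw [coeff_mul, sum_congr rfl fun x _ => h1 x, ← sum_filter, ← sum_filter]
  symm
  refine sum_bij (fun x _ => (((x.1 : ℤ) - n).natAbs ^ 2, x.1 * x.2)) ?_ ?_ ?_ ?_
  · rintro ⟨a, c⟩ hx
    rw [mem_filter, HasAntidiagonal.mem_antidiagonal] at hx ⊢
    obtain ⟨hx, h3⟩ := hx
    dsimp only at hx h3 ⊢
    refine ⟨wsel3_sq hx, ⟨⟨_, sq _⟩, fun h => ?_⟩, h3.mul_left _⟩
    have h4 := Nat.prime_three.dvd_of_dvd_pow h
    omega
  · rintro ⟨a, c⟩ hx ⟨a', c'⟩ hx' h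
    rw [mem_filter, HasAntidiagonal.mem_antidiagonal] at hx hx'
    obtain ⟨hx, h3⟩ := hx
    obtain ⟨hx', h3'⟩ := hx'
    dsimp only at hx h3 hx' h3'
    have h4 : ((a : ℤ) - n).natAbs = ((a' : ℤ) - n).natAbs :=
      Nat.pow_left_injective two_ne_zero (congrArg Prod.fst h)
    refine Prod.ext ?_ ?_ <;> dsimp only <;> omega
  · rintro ⟨i, j⟩ hx
    rw [mem_filter, HasAntidiagonal.mem_antidiagonal] at hx
    obtain ⟨hx, ⟨⟨s, rfl⟩, h3⟩, -⟩ := hx
    dsimp only at hx h3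
    have hs : s ≤ n := by
      rw [← Nat.mul_self_le_mul_self_iff, ← sq n]
      omega
    have hs3 : ¬ 3 ∣ s := fun h => h3 (h.mul_left _)
    have key : ∀ a c : ℕ, a + c = 2 * n → ((a : ℤ) - n).natAbs = s →
        (((a : ℤ) - n).natAbs ^ 2, a * c) = (s * s, j) := fun a c hac h => by
      have h5 := wsel3_sq hac
      rw [h, sq s] at h5
      rw [h, sq s]
      exact Prod.ext rfl (by dsimp only; omega)
    have h6 : 3 ∣ n - s ∨ 3 ∣ n + s := by
      have h7 : n % 3 = 1 ∨ n % 3 = 2 := by omega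
      have h8 : s % 3 = 1 ∨ s % 3 = 2 := by omega
      rcases h7 with h7 | h7 <;> rcases h8 with h8 | h8 <;> omega
    rcases h6 with h | h
    · refine ⟨(n + s, n - s), mem_filter.2 ⟨?_, h⟩, key _ _ (by omega) (by omega)⟩
      exact HasAntidiagonal.mem_antidiagonal.2 (by dsimp only; omega)
    · refine ⟨(n - s, n + s), mem_filter.2 ⟨?_, h⟩, key _ _ (by omega) (by omega)⟩
      exact HasAntidiagonal.mem_antidiagonal.2 (by dsimp only; omega)
  · rintro ⟨a, c⟩ hx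
    rw [mem_filter] at hx
    dsimp only
    rw [Nat.mul_div_assoc _ hx.2]

lemma wsel3_term (b : F3⟦X⟧) {N a c : ℕ} (hN : ¬ 3 ∣ N) (h : a + c = 2 * N) :
    (if 3 ∣ a then 0 else coeff c (VV 3 (T3 a b))) = ∑ d ∈ (Nat.gcd a c).divisors,
      ψ3 d * if 3 ∣ c / d then coeff (a / d * (c / d / 3)) b else 0 := by
  by_cases hc : 3 ∣ c
  · have ha : ¬ 3 ∣ a := by omega
    obtain ⟨m, rfl⟩ := hc
    rw [if_neg ha, coeff_VV_mul three_ne_zero, T3, coeff_hk,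
      ((Nat.Prime.coprime_iff_not_dvd Nat.prime_three).2 ha).gcd_mul_left_cancel_right]
    refine sum_congr rfl fun d hd => ?_
    have hd0 : 0 < d := Nat.pos_of_mem_divisors hd
    obtain ⟨a', rfl⟩ := (Nat.dvd_of_mem_divisors hd).trans (Nat.gcd_dvd_left _ _)
    obtain ⟨m', rfl⟩ := (Nat.dvd_of_mem_divisors hd).trans (Nat.gcd_dvd_right _ _)
    have e1 : 3 * (d * m') / d = 3 * m' := by
      rw [mul_left_comm, Nat.mul_div_cancel_left _ hd0]
    have e2 : d * a' * (d * m') / d ^ 2 = a' * m' := by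
      rw [mul_mul_mul_comm, ← sq, Nat.mul_div_cancel_left _ (Nat.pow_pos hd0)]
    rw [e1, e2, if_pos (dvd_mul_right _ _), Nat.mul_div_cancel_left _ hd0,
      Nat.mul_div_cancel_left _ three_pos]
  · rw [coeff_VV, if_neg hc, ite_self]
    refine (sum_eq_zero fun d hd => ?_).symm
    have hd' : d ∣ c := (Nat.dvd_of_mem_divisors hd).trans (Nat.gcd_dvd_right _ _)
    rw [if_neg fun h3 => hc (h3.trans (Nat.div_dvd_of_dvd hd')), mul_zero]

/-- Only odd `d` prime to three contribute. -/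
theorem UU_Psi {b : F3⟦X⟧} (h : ∀ n, ¬ 3 ∣ n → coeff (n ^ 2) (dl * VV 3 b) = 0) :
    UU 2 (Psi b) = 0 := by
  ext N
  rw [coeff_UU, map_zero, Psi, coeff_mk]
  by_cases hN : 3 ∣ N
  · refine sum_eq_zero fun x hx => ?_
    rw [HasAntidiagonal.mem_antidiagonal] at hx
    split_ifs with h1
    · rfl
    · rw [coeff_VV, if_neg (by omega)]
  have hN0 : 2 * N ≠ 0 := by omega
  rw [sum_congr rfl fun x hx => wsel3_term b hN (HasAntidiagonal.mem_antidiagonal.1 hx),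
    sum_antidiagonal_gcd hN0 fun d a c => ψ3 d * if 3 ∣ c then coeff (a * (c / 3)) b else 0]
  refine sum_eq_zero fun d hd => ?_
  rw [← mul_sum]
  by_cases hd2 : d % 2 = 1
  · have h1 : d ∣ N :=
      (Nat.coprime_two_right.2 (Nat.odd_iff.2 hd2)).dvd_of_dvd_mul_left
        (Nat.dvd_of_mem_divisors hd)
    have h2 : ¬ 3 ∣ N / d := fun h3 => hN (h3.trans (Nat.div_dvd_of_dvd h1))
    rw [Nat.mul_div_assoc _ h1, ← coeff_sq_dl b h2, h _ h2, mul_zero]
  · rw [ψ3, if_neg hd2, zero_mul]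

end Pool.Agent.Lib.MP_bcfefa_nt.W
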