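import Pool.Agent.Lib.MP_bcfefa_nt.WPsi
import Pool.Agent.Lib.MP_bcfefa_nt.WSel3
import Pool.Agent.Lib.MP_bcfefa_nt.WM3b

/-!
The 3-adic step.
-/

set_option autoImplicit false

noncomputable section

namespace Pool.Agent.Lib.MP_bcfefa_nt.W

open PowerSeries Finset

lemma wm3c_C (c : F3) : ev (Polynomial.C c) = C c := by
  rw [ev, Polynomial.aeval_C]
  rfl

lemma wm3c_mon (c : F3) (n : ℕ) : ev (Polynomial.C c * Polynomial.X ^ n) = C c * uu F3 ^ n := by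
  rw [map_mul, map_pow, ev_X, wm3c_C]

lemma wm3c_top {P : Polynomial F3} {n : ℕ} (hP : P.degree < (n + 1 : ℕ)) :
    ev P - C (P.coeff n) * uu F3 ^ n ∈ Rlt n := by
  rw [← wm3c_mon, ← map_sub, ev_mem_Rlt, Polynomial.degree_lt_iff_coeff_zero]
  intro m hm
  rw [Polynomial.coeff_sub, Polynomial.coeff_C_mul_X_pow]
  split_ifs with h
  · rw [h, sub_self]
  · rw [sub_zero]
    exact (Polynomial.degree_lt_iff_coeff_zero _ _).1 hP m (by omega)

lemma wm3c_zero {c : F3} {n : ℕ} (h : C c * uu F3 ^ n ∈ Rlt n) : c = 0 := by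
  by_contra hc
  rw [← wm3c_mon, ev_mem_Rlt, Polynomial.degree_C_mul_X_pow _ hc] at h
  exact lt_irrefl _ h

lemma wm3c_UU (H : Facts) {n : ℕ} {x : F3⟦X⟧} (hx : x ∈ Rlt n) : UU 2 x ∈ Rlt n := by
  rw [← T3_two]
  exact T3_mem_Rlt H two_ne_zero hx

lemma wm3c_mul {n : ℕ} {x r : F3⟦X⟧} (hx : x ∈ Rlt 7) (hr : r ∈ Rlt n) :
    x * VV 3 r ∈ Rlt (3 * n + 4) := by
  cases n with
  | zero =>
    rw [Rlt_zero, Submodule.mem_bot] at hr
    rw [hr, map_zero, mul_zero x]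
    exact (Rlt _).zero_mem
  | succ n => exact Rlt_mono (by omega) (mul_mem_Rlt (a := 6) hx (VV_mem_Rlt hr))

lemma wm3c_VV (c : F3) (n : ℕ) : VV 3 (C c * uu F3 ^ n) = C c * uu F3 ^ (3 * n) := by
  rw [VV_mul three_ne_zero, VV_C three_ne_zero, ← pow_three, ← pow_mul, mul_comm n]

lemma wm3c_NN : NN = ev (Polynomial.X ^ 3 - Polynomial.X) := by
  rw [map_sub, map_pow, ev_X, NN]

lemma wm3c_three : (3 : F3⟦X⟧) = 0 := by
  have h : (3 : F3) = 0 := rfl
  rw [← map_ofNat (C : F3 →+* F3⟦X⟧) 3, h, map_zero]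

lemma wm3c_G (H : Facts) (k : ℕ) : ∃ G : Polynomial F3, G ≠ 0 ∧ 4 ≤ G.natDegree ∧
    Even G.natDegree ∧ C ((-1) ^ k) * NN ^ 2 + NN * FF F3 ^ 3 = ev G := by
  have hN : (Polynomial.X ^ 3 - Polynomial.X : Polynomial F3).natDegree = 3 := by compute_degree!
  have key : ∀ (A : Polynomial F3) (d : ℕ), A.natDegree = d → 1 ≤ d → Odd d →
      C ((-1) ^ k) * NN ^ 2 + NN * FF F3 ^ 3 = NN * ev A →
      ∃ G : Polynomial F3, G ≠ 0 ∧ 4 ≤ G.natDegree ∧
        Even G.natDegree ∧ C ((-1) ^ k) * NN ^ 2 + NN * FF F3 ^ 3 = ev G := by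
    intro A d hA h1 ho he
    have h2 : A ≠ 0 := Polynomial.ne_zero_of_natDegree_gt (n := 0) (by omega)
    have h3 : (Polynomial.X ^ 3 - Polynomial.X : Polynomial F3) ≠ 0 :=
      Polynomial.ne_zero_of_natDegree_gt (n := 0) (by omega)
    have h4 := Polynomial.natDegree_mul h3 h2
    refine ⟨_, mul_ne_zero h3 h2, by omega, ?_, by rw [he, map_mul, ← wm3c_NN]⟩
    rw [h4, hN, hA]
    exact Odd.add_odd (by decide) ho
  rcases neg_one_pow_eq_or F3 k with h | h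
  · refine key (1 - Polynomial.X) 1 (by compute_degree!) le_rfl (by decide) ?_
    rw [h, map_one, map_sub, map_one, ev_X, H.FF3, NN]
    linear_combination (uu F3 ^ 3 - uu F3) * (uu F3 ^ 2 - uu F3) * wm3c_three
  · refine key (Polynomial.X ^ 3 + Polynomial.X + 1) 3 (by compute_degree!) (by decide)
      (by decide) ?_
    rw [h, map_neg, map_one, map_add, map_add, map_pow, map_one, ev_X, H.FF3, NN]
    linear_combination (uu F3 ^ 3 - uu F3) * (uu F3 ^ 2 - uu F3 - uu F3 ^ 3) * wm3c_three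

/-- `Ty.top` for `UU 2 = T3 2`, `χ = 2 = -1`, and `T3_mem_Rlt`. -/
theorem UU_ev_top (H : Facts) {P : Polynomial F3} {k : ℕ} (hP : P.degree < (2 * k + 1 : ℕ)) :
    UU 2 (ev P) - C ((-1) ^ k * P.coeff (2 * k)) * uu F3 ^ (2 * k) ∈ Rlt (2 * k) := by
  have h1 := wm3c_UU H (wm3c_top hP)
  have h2 : Ty (-1) 0 (UU 2 : Module.End F3 F3⟦X⟧) := by
    have h := ty_prime H Nat.prime_two (by decide)
    rwa [T3_two] at h
  have h3 := Submodule.smul_mem _ (P.coeff (2 * k)) (h2.top H (by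
    ext n
    rw [coeff_UU, coeff_one, coeff_one]
    simp) k)
  have h4 := add_mem h1 h3
  rw [← smul_eq_C_mul, map_sub, map_smul, smul_sub, sub_add_sub_cancel, smul_eq_C_mul,
    ← mul_assoc, ← map_mul, mul_comm (P.coeff (2 * k))] at h4
  exact h4

theorem UU_ev_ne_zero (H : Facts) {P : Polynomial F3} (hP : P ≠ 0) (he : Even P.natDegree) :
    UU 2 (ev P) ≠ 0 := by
  obtain ⟨k, hk⟩ := he
  intro h0
  have h1 := UU_ev_top H (P := P) (k := k) (by
    rw [Polynomial.degree_eq_natDegree hP]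
    exact_mod_cast (by omega : P.natDegree < 2 * k + 1))
  rw [h0, zero_sub, neg_mem_iff, two_mul, ← hk] at h1
  exact mul_ne_zero (pow_ne_zero _ (by decide)) (Polynomial.leadingCoeff_ne_zero.2 hP)
    (wm3c_zero h1)

/-- With `n = deg b = 2 k`, `ε = (-1) ^ k`: modulo `Rlt (3 n + 4)`, `Psi (ev b)` is
`lc * uu ^ (3 n) * (ε NN ^ 2 + NN * FF ^ 3)`, of degree `3 n + 6` (`ε = -1`) or `3 n + 4` (`ε = 1`). -/
theorem Psi_ev (H : Facts) {b : Polynomial F3} (hb : b ≠ 0) (he : Even b.natDegree)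
    (h0 : coeff 0 (ev b) = 0) :
    ∃ P : Polynomial F3, P ≠ 0 ∧ Even P.natDegree ∧ Psi (ev b) = ev P := by
  obtain ⟨k, hk⟩ := he
  rw [← two_mul] at hk
  have hd : b.degree < (2 * k + 1 : ℕ) := by
    rw [Polynomial.degree_eq_natDegree hb]
    exact_mod_cast (by omega : b.natDegree < 2 * k + 1)
  have hc : b.coeff (2 * k) ≠ 0 := by
    rw [← hk]
    exact Polynomial.leadingCoeff_ne_zero.2 hb
  have h1 := UU_ev_top H hd
  obtain ⟨b1, hb1, e1⟩ := mem_Rlt.1 (wm3c_UU H (ev_mem_Rlt.2 hd))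
  have h2 := UU_ev_top H hb1
  have h3 : b1.coeff (2 * k) = (-1) ^ k * b.coeff (2 * k) := by
    have h := wm3c_top hb1
    rw [e1] at h
    replace h := Submodule.sub_mem _ h1 h
    rw [sub_sub_sub_cancel_left, ← sub_mul, ← map_sub] at h
    exact sub_eq_zero.1 (wm3c_zero h)
  rw [e1, h3, ← mul_assoc, ← mul_pow, neg_one_mul, neg_neg, one_pow, one_mul] at h2
  have hN : NN ∈ Rlt 4 := by
    rw [wm3c_NN, ev_mem_Rlt]
    compute_degree!
  have hN2 : NN ^ 2 ∈ Rlt 7 := Rlt_mono (by omega) (pow_mem_Rlt (a := 3) hN 2)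
  have hN3 : NN * FF F3 ^ 3 ∈ Rlt 7 :=
    Rlt_mono (by omega) (mul_mem_Rlt (a := 3) hN (pow_mem_Rlt (a := 1) (FF_mem_Rlt H) 3))
  have h4 := wm3c_mul hN2 h1
  have h5 := wm3c_mul hN3 h2
  obtain ⟨G, hG, hG4, hGe, eG⟩ := wm3c_G H k
  obtain ⟨R, hR, eR⟩ := mem_Rlt.1 (Submodule.add_mem _
    (Psi_sub_mem H (mem_R0.2 ⟨ev_mem_Rlt.2 hd, h0⟩)) (Submodule.add_mem _ h4 h5))
  have hM0 : Polynomial.C (b.coeff (2 * k)) * Polynomial.X ^ (3 * (2 * k)) ≠ 0 :=
    mul_ne_zero (Polynomial.C_ne_zero.2 hc) (pow_ne_zero _ Polynomial.X_ne_zero)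
  have hM := Polynomial.natDegree_mul hM0 hG
  rw [Polynomial.natDegree_C_mul_X_pow _ _ hc] at hM
  have hlt : R.degree <
      (Polynomial.C (b.coeff (2 * k)) * Polynomial.X ^ (3 * (2 * k)) * G).degree := by
    rw [Polynomial.degree_eq_natDegree (mul_ne_zero hM0 hG), hM]
    exact hR.trans_le (by exact_mod_cast (by omega))
  have hP := Polynomial.natDegree_add_eq_left_of_degree_lt hlt
  refine ⟨Polynomial.C (b.coeff (2 * k)) * Polynomial.X ^ (3 * (2 * k)) * G + R,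
    Polynomial.ne_zero_of_natDegree_gt (n := 0) (by rw [hP]; omega), ?_, ?_⟩
  · rw [hP, hM]
    exact Even.add ⟨3 * k, by ring⟩ hGe
  · rw [map_add, map_mul, wm3c_mon, ← eG, eR, map_sub, map_sub, wm3c_VV, wm3c_VV, map_mul]
    ring

theorem core3 (H : Facts) {P : Polynomial F3} (h1 : Cls 3 1 (th F3 * ev P))
    (h2 : ∀ n, n % 4 = 2 → coeff n (th F3 * ev P) = 0)
    (hsq : ∀ n, ¬ 3 ∣ n → coeff (n ^ 2) (th F3 * ev P) = 0) : P = 0 := by
  by_contra hP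
  have he := even_natDegree H h2
  obtain ⟨b, rfl⟩ := cls_one_th H h1
  have hb : b ≠ 0 := fun h => hP (by rw [h, map_zero, mul_zero])
  have hX : (Polynomial.X ^ 2 - 1 : Polynomial F3).natDegree = 2 := by compute_degree!
  rw [Polynomial.natDegree_mul (left_ne_zero_of_mul hP) (right_ne_zero_of_mul hP), hX,
    Polynomial.natDegree_expand] at he
  rw [th_mul_ev] at hsq
  have h0 : coeff 0 (ev b) = 0 := by
    have h := hsq 1 (by decide)
    rw [coeff_sq_dl _ (by decide)] at h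
    simpa [Finset.Nat.antidiagonal_succ] using h
  obtain ⟨Q, hQ, hQe, e⟩ := Psi_ev H hb (by
    rw [Nat.even_iff] at he ⊢
    omega) h0
  exact UU_ev_ne_zero H hQ hQe (e ▸ UU_Psi hsq)

theorem algA (H : Facts) {e : ℕ} {φ : ℤ⟦X⟧} (h : φ ∈ Hom ℤ e)
    (h2 : ∀ n, n % 4 = 2 → coeff n (th ℤ * φ) = 0)
    (hsq : ∀ n, ¬ 3 ∣ n → coeff (n ^ 2) (th ℤ * φ) = 0) : pr 3 1 (th ℤ * φ) = 0 := by
  by_contra hne
  obtain ⟨m, g, P, h1, h3, hP⟩ := descent H h hne
  have key : ∀ n, (n % 3 = 1 → coeff n (th ℤ * φ) = 0) → coeff n (th F3 * ev P) = 0 := by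
    intro n hn
    have h4 : coeff n (pr 3 1 (th ℤ * φ)) = 0 := by
      rw [coeff_pr]
      split_ifs with h5
      · exact hn h5
      · rfl
    rw [h1, ← map_ofNat (C : ℤ →+* ℤ⟦X⟧) 3, ← map_pow, coeff_C_mul] at h4
    rw [← h3, red, coeff_map, (mul_eq_zero.1 h4).resolve_left (pow_ne_zero _ three_ne_zero),
      map_zero]
  exact hP (core3 H (fun n hn => key n fun h => absurd h hn) (fun n hn => key n fun _ => h2 n hn)
    fun n hn => key _ fun _ => hsq n hn)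

end Pool.Agent.Lib.MP_bcfefa_nt.W
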