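import Pool.Agent.Lib.MP_bcfefa_nt.WM3a

/-!
Classes modulo three of polynomials in `uu`.
-/

set_option autoImplicit false

noncomputable section

namespace Pool.Agent.Lib.MP_bcfefa_nt.W

open PowerSeries Finset

lemma wm3d_three : (3 : Polynomial F3) = 0 := by
  exact_mod_cast CharP.cast_eq_zero (Polynomial F3) 3

lemma wm3d_ne : (Polynomial.X - Polynomial.X ^ 3 : Polynomial F3) ≠ 0 := fun h => by
  simpa [Polynomial.coeff_X_pow] using congrArg (Polynomial.coeff · 1) h

lemma wm3d_der :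
    Polynomial.derivative (Polynomial.X ^ 3 - Polynomial.X : Polynomial F3) = -1 := by
  rw [Polynomial.derivative_sub, pow_three', Polynomial.derivative_mul, Polynomial.derivative_mul,
    Polynomial.derivative_X]
  linear_combination Polynomial.X ^ 2 * wm3d_three

lemma wm3d_zero {P : Polynomial F3} (h : Polynomial.derivative P = 0) :
    ∃ b : Polynomial F3, P = Polynomial.expand F3 3 b :=
  ⟨_, (Polynomial.expand_contract 3 h (by norm_num)).symm⟩

lemma wm3d_step {P Q : Polynomial F3} {r : ℕ} (h1 : P = (Polynomial.X ^ 3 - Polynomial.X) * Q)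
    (h : Polynomial.derivative P * (Polynomial.X - Polynomial.X ^ 3) =
      ((r + 1 : ℕ) : Polynomial F3) * P) :
    Polynomial.derivative Q * (Polynomial.X - Polynomial.X ^ 3) = (r : Polynomial F3) * Q := by
  subst h1
  rw [Polynomial.derivative_mul, wm3d_der, Nat.cast_succ] at h
  exact mul_left_cancel₀ wm3d_ne (by linear_combination -h)

lemma wm3d_DD (H : Facts) (P : Polynomial F3) :
    DD (ev P) = ev (Polynomial.derivative P * (Polynomial.X - Polynomial.X ^ 3)) := by
  rw [map_mul, map_sub, map_pow, ev_X, ← DD_uu3 H]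
  exact DD_aeval _ _

lemma cls_iff_DD {r : ℕ} (hr : r < 3) {x : F3⟦X⟧} : Cls 3 r x ↔ DD x = (r : F3⟦X⟧) * x := by
  have h1 : ∀ n : ℕ, (n : F3) = r ↔ n % 3 = r := fun n => by
    rw [ZMod.natCast_eq_natCast_iff', Nat.mod_eq_of_lt hr]
  rw [PowerSeries.ext_iff, ← map_natCast (C (R := F3)) r]
  simp only [coeff_DD, coeff_C_mul]
  refine forall_congr' fun n => ?_
  rw [mul_eq_mul_right_iff, h1, or_iff_not_imp_left]

lemma wm3d_cls (H : Facts) {r : ℕ} (hr : r < 3) {P : Polynomial F3} : Cls 3 r (ev P) ↔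
    Polynomial.derivative P * (Polynomial.X - Polynomial.X ^ 3) = (r : Polynomial F3) * P := by
  rw [cls_iff_DD hr, wm3d_DD H, ← map_natCast ev r, ← map_mul, ev_injective.eq_iff]

lemma DD_mem_Rlt (H : Facts) {n : ℕ} {x : F3⟦X⟧} (hx : x ∈ Rlt n) : DD x ∈ Rlt (n + 2) := by
  obtain ⟨P, hP, rfl⟩ := mem_Rlt.1 hx
  rcases eq_or_ne P 0 with rfl | h0
  · rw [map_zero, map_zero]
    exact Submodule.zero_mem _
  obtain _ | m := n
  · exact absurd hP (not_lt.2 (Polynomial.zero_le_degree_iff.2 h0))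
  have h1 : ev (Polynomial.derivative P) ∈ Rlt m := by
    refine ev_mem_Rlt.2 ((Polynomial.degree_derivative_lt h0).trans_le ?_)
    rw [Polynomial.degree_eq_natDegree h0] at hP ⊢
    exact_mod_cast Nat.lt_succ_iff.1 (by exact_mod_cast hP)
  have h2 : ev (Polynomial.X - Polynomial.X ^ 3) ∈ Rlt (3 + 1) := by
    refine ev_mem_Rlt.2 (lt_of_le_of_lt (b := 3) (by compute_degree) (by norm_num))
  rw [wm3d_DD H, map_mul, mul_comm, show m + 1 + 2 = 3 + m by omega]
  exact mul_mem_Rlt h2 h1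

/-- `pr 3 1 = -(DD ^ 2 + DD)`, `pr 3 2 = DD - DD ^ 2`, `pr 3 0 = 1 - DD ^ 2`. -/
lemma pr_mem_Rlt (H : Facts) {n : ℕ} {x : F3⟦X⟧} (hx : x ∈ Rlt n) (r : ℕ) :
    pr 3 r x ∈ Rlt (n + 4) := by
  obtain ⟨a, b, c, h⟩ : ∃ a b c : F3, ∀ t < 3,
      (if t = r then 1 else 0 : F3) = a + b * (t : ℕ) + c * ((t : ℕ) * (t : ℕ)) := by
    obtain _ | _ | _ | r := r
    · exact ⟨1, 0, 2, by decide⟩
    · exact ⟨0, 2, 2, by decide⟩
    · exact ⟨0, 1, 2, by decide⟩
    · exact ⟨0, 0, 0, fun t ht => by rw [if_neg (by omega)]; simp⟩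
  have h1 : pr 3 r x = a • x + b • DD x + c • DD (DD x) := by
    ext k
    have h2 := h (k % 3) (Nat.mod_lt _ (by norm_num))
    rw [ZMod.natCast_mod] at h2
    simp only [coeff_pr, map_add, map_smul, coeff_DD, smul_eq_mul]
    split_ifs at h2 ⊢ <;> linear_combination coeff k x * h2
  rw [h1]
  exact add_mem (add_mem (Submodule.smul_mem _ _ (Rlt_mono (by omega) hx))
    (Submodule.smul_mem _ _ (Rlt_mono (by omega) (DD_mem_Rlt H hx))))
    (Submodule.smul_mem _ _ (DD_mem_Rlt H (DD_mem_Rlt H hx)))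

theorem cls_NN (H : Facts) : Cls 3 1 NN := by
  have e : NN = ev (Polynomial.X ^ 3 - Polynomial.X) := by rw [map_sub, map_pow, ev_X, NN]
  rw [e, wm3d_cls H (by norm_num), wm3d_der]
  push_cast
  ring

/-- A polynomial with zero derivative is a polynomial in `X ^ 3` (`Polynomial.expand_contract`). -/
theorem cls_zero_ev (H : Facts) {P : Polynomial F3} (h : Cls 3 0 (ev P)) :
    ∃ b : Polynomial F3, P = Polynomial.expand F3 3 b := by
  rw [wm3d_cls H (by norm_num), Nat.cast_zero, zero_mul] at h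
  exact wm3d_zero ((mul_eq_zero.1 h).resolve_right wm3d_ne)

/-- `P' (X - X ^ 3) = P`, so `X ^ 3 - X` divides `P`, and the quotient has class zero. -/
theorem cls_one_ev (H : Facts) {P : Polynomial F3} (h : Cls 3 1 (ev P)) :
    ∃ b : Polynomial F3, P = (Polynomial.X ^ 3 - Polynomial.X) * Polynomial.expand F3 3 b := by
  rw [wm3d_cls H (by norm_num)] at h
  have h1 : P = (Polynomial.X ^ 3 - Polynomial.X) * -Polynomial.derivative P := by
    rw [Nat.cast_one] at h
    linear_combination -h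
  obtain ⟨b, hb⟩ := cls_zero_ev H ((wm3d_cls H (by norm_num)).2 (wm3d_step (r := 0) h1 h))
  exact ⟨b, by rw [← hb, ← h1]⟩

theorem cls_two_ev (H : Facts) {P : Polynomial F3} (h : Cls 3 2 (ev P)) :
    ∃ b : Polynomial F3, P = (Polynomial.X ^ 3 - Polynomial.X) ^ 2 * Polynomial.expand F3 3 b := by
  rw [wm3d_cls H (by norm_num)] at h
  have h1 : P = (Polynomial.X ^ 3 - Polynomial.X) * Polynomial.derivative P := by
    rw [Nat.cast_two] at h
    linear_combination h + P * wm3d_three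
  obtain ⟨b, hb⟩ := cls_one_ev H ((wm3d_cls H (by norm_num)).2 (wm3d_step (r := 1) h1 h))
  exact ⟨b, by rw [pow_two, mul_assoc, ← hb, ← h1]⟩

/-- `X P = (1 - X ^ 2) P'`, so `X ^ 2 - 1` divides `P`; `dl = th * (uu ^ 2 - 1)` has class one. -/
theorem cls_one_th (H : Facts) {P : Polynomial F3} (h : Cls 3 1 (th F3 * ev P)) :
    ∃ b : Polynomial F3, P = (Polynomial.X ^ 2 - 1) * Polynomial.expand F3 3 b := by
  rw [cls_iff_DD (by norm_num), DD_mul, ← th_mul_qq, qq3 H, wm3d_DD H, Nat.cast_one, one_mul,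
    mul_assoc, ← mul_add] at h
  have h1 : (1 - Polynomial.X ^ 2) * P +
      Polynomial.derivative P * (Polynomial.X - Polynomial.X ^ 3) = P := ev_injective (by
    rw [map_add, map_mul, map_sub, map_one, map_pow, ev_X]
    exact isUnit_th.mul_left_cancel h)
  have h2 : Polynomial.X * P = (1 - Polynomial.X ^ 2) * Polynomial.derivative P :=
    mul_left_cancel₀ Polynomial.X_ne_zero (by linear_combination -h1)
  obtain ⟨Q, rfl⟩ : ∃ Q, P = (Polynomial.X ^ 2 - 1) * Q :=
    ⟨-P - Polynomial.X * Polynomial.derivative P, by linear_combination Polynomial.X * h2⟩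
  have h3 : (Polynomial.X ^ 2 - 1 : Polynomial F3) ≠ 0 := fun h0 =>
    wm3d_ne (by linear_combination -Polynomial.X * h0)
  have h4 : Polynomial.derivative (Polynomial.X ^ 2 - 1 : Polynomial F3) = 2 * Polynomial.X := by
    rw [Polynomial.derivative_sub, Polynomial.derivative_one, pow_two, Polynomial.derivative_mul,
      Polynomial.derivative_X]
    ring
  rw [Polynomial.derivative_mul, h4] at h2
  obtain ⟨b, hb⟩ := wm3d_zero (P := Q) (mul_left_cancel₀ (mul_ne_zero h3 h3) (by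
    linear_combination h2 - Polynomial.X * (Polynomial.X ^ 2 - 1) * Q * wm3d_three))
  exact ⟨b, by rw [← hb]⟩

lemma th_mul_ev (b : Polynomial F3) :
    th F3 * ev ((Polynomial.X ^ 2 - 1) * Polynomial.expand F3 3 b) = dl * VV 3 (ev b) := by
  rw [map_mul, map_sub, map_pow, map_one, ev_X, VV_ev, dl, uu]
  ring

end Pool.Agent.Lib.MP_bcfefa_nt.W
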