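import Pool.Agent.Lib.MP_bcfefa_nt.WT3

/-!
The operators `tau β` kill small degrees; expansion of `Psi`.
-/

set_option autoImplicit false

noncomputable section

namespace Pool.Agent.Lib.MP_bcfefa_nt.W

open PowerSeries Finset

lemma wpsi_range {M : Type*} [AddCommMonoid M] {g : ℕ → M} {A B : ℕ}
    (hA : ∀ β, A ≤ β → g β = 0) (hB : ∀ β, B ≤ β → g β = 0) :
    ∑ β ∈ range A, g β = ∑ β ∈ range B, g β := by
  rw [sum_subset (range_subset_range.2 (Nat.le_add_right A B)) fun β _ h =>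
      hA β (by simpa using h),
    sum_subset (range_subset_range.2 (Nat.le_add_left B A)) fun β _ h => hB β (by simpa using h)]

lemma wpsi_three {M : Type*} [AddCommMonoid M] (f : ℕ → M) {r : ℕ} (hr : r < 3) (K : ℕ) :
    ∑ β ∈ range (3 * K), (if β % 3 = r then f β else 0) = ∑ j ∈ range K, f (3 * j + r) := by
  induction K with
  | zero => simp
  | succ K ih =>
    rw [Nat.mul_succ, sum_range_succ, sum_range_succ, sum_range_succ, ih, sum_range_succ]
    have h0 : 3 * K % 3 = 0 := by omega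
    have h1 : (3 * K + 1) % 3 = 1 := by omega
    have h2 : (3 * K + 2) % 3 = 2 := by omega
    rw [h0, h1, h2]
    interval_cases r <;> simp

/-- `cls_one_ev`, `cls_two_ev`; expand `b` in powers of `1 - X` (`FF ^ 3 = 1 - uu ^ 3`). -/
theorem exists_Em_sum (H : Facts) {r n : ℕ} (hr : r = 1 ∨ r = 2) {y : F3⟦X⟧} (hy : y ∈ Rlt n)
    (hc : Cls 3 r y) : ∃ (B : ℕ) (s : ℕ → F3),
      (∀ β, s β ≠ 0 → β % 3 = r ∧ 3 * r + 3 * (β / 3) < n) ∧ (∀ β, B ≤ β → s β = 0) ∧
      y = ∑ β ∈ range B, s β • Em β := by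
  obtain ⟨P, hP, rfl⟩ := mem_Rlt.1 hy
  have hr3 : r < 3 := by omega
  obtain ⟨b, rfl⟩ : ∃ b : Polynomial F3,
      P = (Polynomial.X ^ 3 - Polynomial.X) ^ r * Polynomial.expand F3 3 b := by
    rcases hr with rfl | rfl
    · simpa using cls_one_ev H hc
    · exact cls_two_ev H hc
  set c : Polynomial F3 := b.comp (1 - Polynomial.X) with hcb
  have hdeg : c.natDegree = b.natDegree := by
    have : (1 - Polynomial.X : Polynomial F3).natDegree = 1 := by
      rw [← Polynomial.natDegree_neg, neg_sub]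
      exact Polynomial.natDegree_X_sub_C (x := (1 : F3))
    rw [hcb, Polynomial.natDegree_comp, this, mul_one]
  refine ⟨3 * (c.natDegree + 1), fun β => if β % 3 = r then c.coeff (β / 3) else 0, ?_, ?_, ?_⟩
  · intro β hβ
    by_cases h : β % 3 = r
    · simp only [if_pos h] at hβ
      refine ⟨h, ?_⟩
      have h1 := Polynomial.le_natDegree_of_ne_zero hβ
      have hb : b ≠ 0 := by
        rintro rfl
        simp [hcb] at hβ
      have hm : (Polynomial.X ^ 3 - Polynomial.X : Polynomial F3).Monic := by monicity!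
      have hd : (Polynomial.X ^ 3 - Polynomial.X : Polynomial F3).natDegree = 3 := by
        compute_degree!
      have he : Polynomial.expand F3 3 b ≠ 0 := (Polynomial.expand_ne_zero (by norm_num)).2 hb
      have h0 := mul_ne_zero (hm.pow r).ne_zero he
      have h2 := (Polynomial.natDegree_lt_iff_degree_lt h0).2 hP
      rw [Polynomial.natDegree_mul (hm.pow r).ne_zero he, Polynomial.natDegree_pow, hd,
        Polynomial.natDegree_expand] at h2
      omega
    · simp [h] at hβ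
  · intro β hβ
    simp only
    rw [Polynomial.coeff_eq_zero_of_natDegree_lt (by omega), ite_self]
  · simp only [ite_smul, zero_smul]
    rw [wpsi_three (fun β => c.coeff (β / 3) • Em β) hr3]
    have h3 : FF F3 ^ 3 = 1 - uu F3 ^ 3 := by
      rw [H.FF3, pow_three, pow_three, map_sub, VV_one (by norm_num)]
    have e1 : ev (Polynomial.expand F3 3 b) = Polynomial.aeval (FF F3 ^ 3) c := by
      rw [hcb, Polynomial.aeval_comp, ev, Polynomial.expand_aeval, h3]
      simp
    have e2 : ev (Polynomial.X ^ 3 - Polynomial.X) = NN := by simp [ev, NN]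
    rw [map_mul, map_pow, e1, e2, Polynomial.aeval_eq_sum_range, mul_sum]
    refine sum_congr rfl fun j _ => ?_
    have h4 : (3 * j + r) / 3 = j := by omega
    have h5 : (3 * j + r) % 3 = r := by omega
    rw [Em, h4, h5, mul_smul_comm, pow_mul]

/-- Fix `m₂`. For `m₂ = 0` use `coeff_zero_hk`. Otherwise `y = T3 m₂ x ∈ Rlt n`,
`coeff m y = coeff m₂ (T3 m x)`, `pr 3 r y ∈ Rlt (n + 4)`; with `exists_Em_sum` and strong induction
`coeff m₂ (tau m x) = s m` for all `m` of class `r`. -/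
theorem tau_kill (H : Facts) {β n : ℕ} (h3 : ¬ 3 ∣ β)
    (h : n + 4 ≤ 3 * (β % 3) + 3 * (β / 3)) {x : F3⟦X⟧} (hx : x ∈ R0 n) : tau β x = 0 := by
  ext m₂
  obtain ⟨hx, hx0⟩ := mem_R0.1 hx
  obtain ⟨y, hy, hy'⟩ : ∃ y ∈ Rlt n, ∀ m, coeff m y = coeff m₂ (T3 m x) := by
    by_cases h0 : m₂ = 0
    · refine ⟨0, Submodule.zero_mem _, fun m => ?_⟩
      rw [h0, T3, coeff_zero_hk m hx0, map_zero]
    · exact ⟨T3 m₂ x, T3_mem_Rlt H h0 hx, fun m => coeff_hk_symm _ _ _ _⟩
  obtain ⟨B, s, hs, hB, e⟩ := exists_Em_sum H (r := β % 3) (by omega)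
    (pr_mem_Rlt H hy (β % 3)) (cls_pr 3 _ y)
  have key : ∀ m, m % 3 = β % 3 → coeff m₂ (tau m x) = s m := by
    intro m
    induction m using Nat.strong_induction_on with
    | _ m ih =>
      intro hm
      have e1 := congrArg (coeff m) e
      rw [coeff_pr, if_pos hm, hy', T3_eq_sum H, LinearMap.sum_apply, map_sum, map_sum,
        wpsi_range (A := B) (B := m + 1) (fun γ hγ => by rw [hB γ hγ, zero_smul, map_zero])
          (fun γ hγ => by rw [map_smul, coeff_Em_lt H (by omega), smul_zero]),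
        sum_range_succ, sum_range_succ] at e1
      have e2 : ∑ γ ∈ range m, coeff m₂ ((coeff m (Em γ) • tau γ) x) =
          ∑ γ ∈ range m, coeff m (s γ • Em γ) := by
        refine sum_congr rfl fun γ hγ => ?_
        rw [LinearMap.smul_apply, map_smul, map_smul, smul_eq_mul, smul_eq_mul]
        by_cases h' : γ % 3 = β % 3
        · rw [ih γ (mem_range.1 hγ) h', mul_comm]
        · rw [cls_Em H γ m (by omega), zero_mul, mul_zero]
      rw [e2, add_right_inj, coeff_Em_self H, one_smul, map_smul, coeff_Em_self H, smul_eq_mul,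
        mul_one] at e1
      exact e1
  rw [key β rfl, map_zero]
  by_contra h0
  have := (hs β h0).2
  omega

theorem Psi_eq_sum (H : Facts) {b : F3⟦X⟧} {B : ℕ} (hB : ∀ β, B ≤ β → ¬ 3 ∣ β → tau β b = 0) :
    Psi b = ∑ β ∈ range B, if 3 ∣ β then 0 else Em β * VV 3 (tau β b) := by
  ext N
  rw [Psi, coeff_mk, map_sum]
  have e : ∀ β, coeff N (if 3 ∣ β then 0 else Em β * VV 3 (tau β b)) = ∑ x ∈ antidiagonal N,
      if 3 ∣ β then 0 else coeff x.1 (Em β) * coeff x.2 (VV 3 (tau β b)) := by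
    intro β
    split_ifs
    · simp
    · exact coeff_mul _ _ _
  simp only [e]
  rw [sum_comm]
  refine sum_congr rfl fun x _ => ?_
  rw [wpsi_range (A := B) (B := x.1 + 1)]
  · split_ifs with h
    · refine (sum_eq_zero fun β _ => ?_).symm
      split_ifs with h'
      · rfl
      · rw [cls_Em H β x.1 (by omega), zero_mul]
    · rw [T3_eq_sum H, LinearMap.sum_apply, map_sum, map_sum]
      refine sum_congr rfl fun β _ => ?_
      rw [LinearMap.smul_apply, map_smul, map_smul, smul_eq_mul]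
      split_ifs with h'
      · rw [cls_Em H β x.1 (by omega), zero_mul]
      · rfl
  · intro β hβ
    split_ifs with h'
    · rfl
    · rw [hB β hβ h', map_zero, map_zero, mul_zero]
  · intro β hβ
    rw [coeff_Em_lt H (by omega), zero_mul, ite_self]

/-- `tau_kill`, `Ty.drop`, `Em_mem_Rlt`, `VV_mem_Rlt`. -/
theorem term_mem_Rlt (H : Facts) {β n : ℕ} (h3 : ¬ 3 ∣ β) (h2 : β ≠ 2) (h4 : β ≠ 4) {b : F3⟦X⟧}
    (hb : b ∈ R0 (n + 1)) : Em β * VV 3 (tau β b) ∈ Rlt (3 * n + 4) := by
  by_cases h1 : β = 1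
  · subst h1
    rw [tau_one H, Module.End.one_apply]
    exact Rlt_mono (by omega) (mul_mem_Rlt (Em_mem_Rlt H 1) (VV_mem_Rlt (mem_R0.1 hb).1))
  have hd := Ty.drop H (ty_tau H h3) (d := 3 * (β % 3) + 3 * (β / 3) - 5)
    (fun x hx => tau_kill H h3 (by omega) hx) hb
  rcases h0 : n + 1 - (3 * (β % 3) + 3 * (β / 3) - 5) / 2 with _ | a
  · rw [h0, Rlt_zero, Submodule.mem_bot] at hd
    rw [hd, map_zero, mul_zero]
    exact Submodule.zero_mem _
  · rw [h0] at hd
    exact Rlt_mono (by omega) (mul_mem_Rlt (Em_mem_Rlt H β) (VV_mem_Rlt hd))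

theorem Psi_sub_mem (H : Facts) {n : ℕ} {b : F3⟦X⟧} (hb : b ∈ R0 (n + 1)) :
    Psi b - (NN ^ 2 * VV 3 (UU 2 b) + NN * FF F3 ^ 3 * VV 3 (UU 2 (UU 2 b))) ∈
      Rlt (3 * n + 4) := by
  rw [Psi_eq_sum H (B := n + 5) fun β hβ h3 => tau_kill H h3 (by omega) hb,
    ← add_sum_erase _ _ (a := 2) (mem_range.2 (by omega)),
    ← add_sum_erase _ _ (a := 4) (mem_erase.2 ⟨by norm_num, mem_range.2 (by omega)⟩),
    if_neg (by norm_num), if_neg (by norm_num), tau_two H, tau_four H, Module.End.mul_apply]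
  have e2 : Em 2 = NN ^ 2 := by simp [Em]
  have e4 : Em 4 = NN * FF F3 ^ 3 := by simp [Em]
  rw [e2, e4, ← add_assoc, add_sub_cancel_left]
  refine Submodule.sum_mem _ fun β hβ => ?_
  split_ifs with h3
  · exact Submodule.zero_mem _
  · exact term_mem_Rlt H h3 (mem_erase.1 (mem_erase.1 hβ).2).1 (mem_erase.1 hβ).1 hb

end Pool.Agent.Lib.MP_bcfefa_nt.W
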