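import Pool.Agent.Lib.MP_bcfefa_nt.WB0
import Pool.Agent.Lib.MP_bcfefa_nt.WThF

/-!
Expansions of functions on the upper half plane. For `mul` and `deriv` one can copy
`ramQE.mul`, `ramQE.deriv` from `outputs/live/Pool/Agent/Lib/MP_7e5527_ag/Ram`.
-/

set_option autoImplicit false

noncomputable section

namespace Pool.Agent.Lib.MP_bcfefa_nt.W

open PowerSeries Finset CongruenceSubgroup UpperHalfPlane
open Pool.Agent.Lib.MP_88d29b_nt.G
open scoped MatrixGroups ModularForm Manifold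

variable {f g : ℍ → ℂ} {φ ψ : ℂ⟦X⟧}

lemma wqp_congr {a : ℕ → ℂ} (h : QS f a) (ha : ∀ n, coeff n φ = a n) : QP f φ := by
  have e : (fun n => coeff n φ) = a := funext ha
  rw [QP, e]
  exact h

lemma QP.add (h : QP f φ) (h' : QP g ψ) : QP (f + g) (φ + ψ) := by
  intro z
  simpa only [map_add, add_mul, Pi.add_apply] using (h z).add (h' z)

lemma QP.smul (c : ℂ) (h : QP f φ) : QP (c • f) (c • φ) := by
  exact wqp_congr (QS.smul c h) fun n => by simp

lemma QP.sub (h : QP f φ) (h' : QP g ψ) : QP (f - g) (φ - ψ) := by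
  intro z
  simpa only [map_sub, sub_mul, Pi.sub_apply] using (h z).sub (h' z)

lemma qp_zero : QP 0 0 := by
  exact wqp_congr qs_zero fun n => by simp

lemma qp_one : QP 1 1 := by
  intro z
  have h := hasSum_single
    (f := fun n : ℕ => coeff n (1 : ℂ⟦X⟧) * Complex.exp (2 * Real.pi * Complex.I * n * z)) 0
    (fun m hm => by rw [coeff_one, if_neg hm, zero_mul])
  simpa using h

lemma QP.sum {ι : Type*} {s : Finset ι} {F : ι → ℍ → ℂ} {Φ : ι → ℂ⟦X⟧}
    (h : ∀ i ∈ s, QP (F i) (Φ i)) : QP (∑ i ∈ s, F i) (∑ i ∈ s, Φ i) := by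
  exact wqp_congr (QS.sum h) fun n => by simp

theorem QP.mul (h : QP f φ) (h' : QP g ψ) : QP (f * g) (φ * ψ) := by
  intro τ
  have h1 := (h τ).summable.norm
  have h2 := (h' τ).summable.norm
  have h3 := tsum_mul_tsum_eq_tsum_sum_antidiagonal_of_summable_norm h1 h2
  have h4 := (summable_norm_sum_mul_antidiagonal_of_summable_norm h1 h2).of_norm.hasSum
  rw [← h3, (h τ).tsum_eq, (h' τ).tsum_eq] at h4
  refine h4.congr fun s => Finset.sum_congr rfl fun m _ => ?_
  beta_reduce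
  rw [PowerSeries.coeff_mul, Finset.sum_mul]
  refine Finset.sum_congr rfl fun kl hkl => ?_
  rw [← Finset.HasAntidiagonal.mem_antidiagonal.mp hkl, mul_mul_mul_comm, ← Complex.exp_add]
  congr 2
  push_cast
  ring

lemma QP.pow (h : QP f φ) (n : ℕ) : QP (f ^ n) (φ ^ n) := by
  induction n with
  | zero => rw [pow_zero, pow_zero]; exact qp_one
  | succ n ih => rw [pow_succ, pow_succ]; exact ih.mul h

lemma QP.unique (h : QP f φ) (h' : QP f ψ) : φ = ψ := by
  ext n
  exact congrFun (QS.unique h h') n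

lemma QP.fun_eq (h : QP f φ) (h' : QP g φ) : f = g := by
  funext z
  exact (h z).unique (h' z)

lemma wqp_hasDerivAt (φ : ℂ⟦X⟧) (m : ℕ) (w : ℂ) :
    HasDerivAt (fun w : ℂ => coeff m φ * Complex.exp (2 * Real.pi * Complex.I * m * w))
      (coeff m φ * (Complex.exp (2 * Real.pi * Complex.I * m * w) *
        (2 * Real.pi * Complex.I * m))) w := by
  have h : HasDerivAt (fun w : ℂ => 2 * Real.pi * Complex.I * m * w)
      (2 * Real.pi * Complex.I * m) w := by
    simpa using (hasDerivAt_id w).const_mul (2 * Real.pi * Complex.I * m : ℂ)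
  exact h.cexp.const_mul _

lemma wqp_local (h : QP f φ) (τ : ℍ) : ∃ (U : Set ℂ) (u : ℕ → ℝ), IsOpen U ∧ (τ : ℂ) ∈ U ∧
    Summable u ∧ ∀ (m : ℕ) (w : ℂ), w ∈ U →
      ‖coeff m φ * Complex.exp (2 * Real.pi * Complex.I * m * w)‖ ≤ u m := by
  have hτ := τ.im_pos
  obtain ⟨τ', h1⟩ : ∃ z : ℍ, z.im = τ.im / 2 := ⟨⟨⟨0, τ.im / 2⟩, half_pos hτ⟩, rfl⟩
  refine ⟨{w | τ.im / 2 < w.im}, _, isOpen_lt continuous_const Complex.continuous_im, ?_,
    (h τ').summable.norm, fun m w hw => ?_⟩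
  · change τ.im / 2 < τ.im
    linarith
  · have h2 : τ.im / 2 < w.im := hw
    have h3 := gq1_norm m ⟨w, (half_pos hτ).trans h2⟩
    have h4 : ‖Complex.exp (2 * Real.pi * Complex.I * m * w)‖ =
        Real.exp (-2 * Real.pi * m * w.im) := h3
    rw [norm_mul, norm_mul, gq1_norm, h4, h1]
    refine mul_le_mul_of_nonneg_left (Real.exp_le_exp.mpr ?_) (norm_nonneg _)
    have h5 : 0 ≤ Real.pi * m * (w.im - τ.im / 2) :=
      mul_nonneg (mul_nonneg Real.pi_pos.le (Nat.cast_nonneg m)) (by linarith)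
    nlinarith

lemma wqp_eventually (h : QP f φ) (τ : ℍ) :
    (fun w : ℂ => ∑' m : ℕ, coeff m φ * Complex.exp (2 * Real.pi * Complex.I * m * w))
      =ᶠ[nhds (τ : ℂ)] f ∘ ofComplex := by
  filter_upwards [isOpen_upperHalfPlaneSet.mem_nhds τ.im_pos] with w hw
  exact (gq2_at h hw).tsum_eq

theorem QP.deriv (h : QP f φ) : QP (Derivative.normalizedDerivOfComplex f) (DD φ) := by
  intro τ
  obtain ⟨U, u, hUo, hτU, hu, hle⟩ := wqp_local h τ
  have key := Complex.hasSum_deriv_of_summable_norm hu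
    (fun m w _ => (wqp_hasDerivAt φ m w).differentiableAt.differentiableWithinAt) hUo hle hτU
  rw [(wqp_eventually h τ).deriv_eq] at key
  have key2 := key.mul_left (2 * Real.pi * Complex.I : ℂ)⁻¹
  refine key2.congr fun s => Finset.sum_congr rfl fun m _ => ?_
  beta_reduce
  rw [(wqp_hasDerivAt φ m τ).deriv]
  have hpi : (2 * Real.pi * Complex.I : ℂ) ≠ 0 := Complex.two_pi_I_ne_zero
  rw [coeff_DD]
  field_simp

theorem QP.holo (h : QP f φ) : MDifferentiable 𝓘(ℂ) 𝓘(ℂ) f := by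
  intro τ
  obtain ⟨U, u, hUo, hτU, hu, hle⟩ := wqp_local h τ
  have key := Complex.differentiableOn_tsum_of_summable_norm hu
    (fun m w _ => (wqp_hasDerivAt φ m w).differentiableAt.differentiableWithinAt) hUo hle
  exact UpperHalfPlane.mdifferentiableAt_iff.mpr
    ((key.differentiableAt (hUo.mem_nhds hτU)).congr_of_eventuallyEq (wqp_eventually h τ).symm)

theorem QP.bdd (h : QP f φ) : IsBoundedAtImInfty f := by
  have h1 := QS.decay h (B := 0) fun n hn => absurd hn (Nat.not_lt_zero n)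
  simp only [Nat.cast_zero, mul_zero, zero_mul, Real.exp_zero] at h1
  exact h1

theorem QP.dil (h : QP f φ) {m : ℕ} (hm : 0 < m) : QP (dil m f) (VV m φ) := by
  exact wqp_congr (QS.dil h hm) fun n => coeff_VV m n φ

theorem QP.of_dil {m : ℕ} (hm : 0 < m) (h : QP (W.dil m f) (VV m φ)) : QP f φ := by
  intro z
  have hm' : (m : ℂ) ≠ 0 := by exact_mod_cast hm.ne'
  have hw : 0 < ((z : ℂ) / m).im := by
    rw [Complex.div_natCast_im]
    exact div_pos z.im_pos (by exact_mod_cast hm)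
  have h1 := h ⟨(z : ℂ) / m, hw⟩
  have h2 : W.dil m f ⟨(z : ℂ) / m, hw⟩ = f z := by
    change f (ofComplex (m * ((z : ℂ) / m))) = f z
    rw [mul_div_cancel₀ _ hm', ofComplex_apply]
  have hinj : Function.Injective fun n : ℕ => m * n := fun x y e => Nat.eq_of_mul_eq_mul_left hm e
  rw [h2, ← hinj.hasSum_iff] at h1
  · refine h1.congr fun s => Finset.sum_congr rfl fun n _ => ?_
    simp only [Function.comp, coeff_VV, dvd_mul_right, if_true, Nat.mul_div_cancel_left n hm]
    congr 2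
    push_cast
    field_simp
  · intro n hn
    beta_reduce
    rw [coeff_VV, if_neg, zero_mul]
    rintro ⟨c, rfl⟩
    exact hn ⟨c, rfl⟩

theorem QP.hecke (h : QP f φ) {l : ℕ} (hl : 0 < l) (k : ℤ) :
    QP (∑ i, sl k f (tRep l i)) (UU l φ + (l : ℂ) ^ (k - 1) • VV l φ) := by
  rw [← heckeFun_eq hl]
  refine wqp_congr (QS.hecke h hl k) fun n => ?_
  rw [map_add, map_smul, coeff_VV, coeff_UU, smul_eq_mul, mul_ite, mul_zero]

end Pool.Agent.Lib.MP_bcfefa_nt.W
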