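import Pool.Agent.Lib.MP_bcfefa_nt.WSer

/-!
The Rodriguez Villegas - Zagier expansion of iterated derivatives, in a general setting.
-/

set_option autoImplicit false

noncomputable section

namespace Pool.Agent.Lib.MP_bcfefa_nt.W

open PowerSeries Finset

variable {K : Type*} [CommRing K]

/-- The sequence `g 0 = g`, `g (j + 1) = DD (g j) - (D + 4 j) x g j + j (D + 2 j - 2) r g (j - 1)`. -/
def rvz (D : ℕ) (x r g : K⟦X⟧) : ℕ → K⟦X⟧
  | 0 => g
  | 1 => DD g - (D : K⟦X⟧) * x * g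
  | j + 2 => DD (rvz D x r g (j + 1)) - ((D + 4 * (j + 1) : ℕ) : K⟦X⟧) * x * rvz D x r g (j + 1) +
      (((j + 1) * (D + 2 * j) : ℕ) : K⟦X⟧) * r * rvz D x r g j

lemma wrvz_DD (D : ℕ) (x r g : K⟦X⟧) (j : ℕ) : DD (rvz D x r g j) =
    rvz D x r g (j + 1) + ((D + 4 * j : ℕ) : K⟦X⟧) * x * rvz D x r g j -
      ((j * (D + 2 * (j - 1)) : ℕ) : K⟦X⟧) * r * rvz D x r g (j - 1) := by
  rcases j with _ | j
  · simp [rvz]
  · rw [rvz, Nat.add_sub_cancel]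
    ring

/-- The coefficients. -/
def wrvzC (D n j : ℕ) : ℕ := n.choose j * ∏ s ∈ Ico j n, (D + 2 * s)

lemma wrvz_A (D : ℕ) {n j : ℕ} (h : j ≤ n) : wrvzC D (n + 1) (j + 1) =
    wrvzC D n j + wrvzC D n (j + 1) * (2 * (n - (j + 1)) + D + 4 * (j + 1)) := by
  rcases h.eq_or_lt with rfl | h
  · simp [wrvzC]
  · have h1 := Nat.choose_succ_right_eq n j
    rw [wrvzC, wrvzC, wrvzC, prod_Ico_succ_top h, prod_eq_prod_Ico_succ_bot h, Nat.choose_succ_succ']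
    obtain ⟨t, rfl⟩ := Nat.exists_eq_add_of_le h
    rw [show j.succ + t - j = t + 1 by omega] at h1
    rw [show j.succ + t - (j + 1) = t by omega]
    generalize (j.succ + t).choose j = A at h1 ⊢
    generalize (j.succ + t).choose (j + 1) = B at h1 ⊢
    generalize ∏ s ∈ Ico (j + 1) (j.succ + t), (D + 2 * s) = P
    zify at h1 ⊢
    linear_combination (-2 * (P : ℤ)) * h1

lemma wrvz_B (D n : ℕ) : wrvzC D (n + 1) 0 = wrvzC D n 0 * (2 * (n - 0) + D + 4 * 0) := by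
  rw [wrvzC, wrvzC, prod_Ico_succ_top (Nat.zero_le n), Nat.choose_zero_right,
    Nat.choose_zero_right, Nat.sub_zero]
  ring

lemma wrvz_C (D : ℕ) {n j : ℕ} (h : j < n) : wrvzC D n j * (n - j) =
    wrvzC D n (j + 1) * ((j + 1) * (D + 2 * (j + 1 - 1))) := by
  have h1 := Nat.choose_succ_right_eq n j
  rw [wrvzC, wrvzC, prod_eq_prod_Ico_succ_bot h, Nat.add_sub_cancel, mul_right_comm, ← h1]
  ring

lemma wrvz_term (D : ℕ) {x r : K⟦X⟧} (hx : DD x = 2 * x ^ 2 + r) (g : K⟦X⟧) {n j : ℕ}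
    (h : j ≤ n) : DD ((wrvzC D n j : K⟦X⟧) * x ^ (n - j) * rvz D x r g j) =
      ((wrvzC D n j * (2 * (n - j) + D + 4 * j) : ℕ) : K⟦X⟧) * x ^ (n + 1 - j) * rvz D x r g j +
      (wrvzC D n j : K⟦X⟧) * x ^ (n - j) * rvz D x r g (j + 1) +
      (((wrvzC D n j * (n - j) : ℕ) : K⟦X⟧) * x ^ (n - (j + 1)) * r * rvz D x r g j -
        ((wrvzC D n j * (j * (D + 2 * (j - 1))) : ℕ) : K⟦X⟧) * x ^ (n - j) * r *
          rvz D x r g (j - 1)) := by
  rw [DD_mul, DD_mul, DD_natCast, DD_pow, hx, wrvz_DD, show n + 1 - j = n - j + 1 by omega,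
    show n - (j + 1) = n - j - 1 by omega]
  generalize n - j = t
  rcases t with _ | t
  · push_cast
    ring
  · rw [Nat.add_sub_cancel]
    push_cast
    ring

/-- Induction on `n`; use `DD_mul`, `DD_pow`, Pascal's rule and reindexing. With
`c n j = C(n, j) ∏ s ∈ Ico j n, (D + 2 s)` the coefficient identities are
`c (n + 1) j = c n (j - 1) + (2 (n - j) + D + 4 j) c n j` and
`(n - j) c n j = (j + 1) (D + 2 j) c n (j + 1)`. -/
theorem rvz_formula (D : ℕ) {x r : K⟦X⟧} (hx : DD x = 2 * x ^ 2 + r) (g : K⟦X⟧) (n : ℕ) :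
    DD^[n] g = ∑ j ∈ range (n + 1),
      ((n.choose j * ∏ s ∈ Ico j n, (D + 2 * s) : ℕ) : K⟦X⟧) * x ^ (n - j) * rvz D x r g j := by
  change _ = ∑ j ∈ range (n + 1), (wrvzC D n j : K⟦X⟧) * x ^ (n - j) * rvz D x r g j
  induction n with
  | zero => simp [wrvzC, rvz]
  | succ n ih =>
    rw [Function.iterate_succ_apply', ih, map_sum,
      sum_congr rfl fun j hj => wrvz_term D hx g (Nat.lt_succ_iff.1 (mem_range.1 hj)),
      sum_add_distrib, sum_add_distrib, sum_sub_distrib]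
    have h1 : ∑ j ∈ range (n + 1),
        ((wrvzC D n j * (n - j) : ℕ) : K⟦X⟧) * x ^ (n - (j + 1)) * r * rvz D x r g j =
        ∑ j ∈ range (n + 1), ((wrvzC D n j * (j * (D + 2 * (j - 1))) : ℕ) : K⟦X⟧) *
          x ^ (n - j) * r * rvz D x r g (j - 1) := by
      rw [sum_range_succ, sum_range_succ']
      simp only [Nat.sub_self, mul_zero, zero_mul, Nat.cast_zero, add_zero]
      refine sum_congr rfl fun j hj => ?_
      rw [wrvz_C D (mem_range.1 hj), Nat.add_sub_cancel]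
    have h2 : ∑ j ∈ range (n + 1), ((wrvzC D n j * (2 * (n - j) + D + 4 * j) : ℕ) : K⟦X⟧) *
        x ^ (n + 1 - j) * rvz D x r g j = ∑ j ∈ range (n + 1 + 1),
        ((wrvzC D n j * (2 * (n - j) + D + 4 * j) : ℕ) : K⟦X⟧) *
          x ^ (n + 1 - j) * rvz D x r g j := by
      rw [sum_range_succ _ (n + 1)]
      simp [wrvzC]
    rw [h1, sub_self, add_zero, h2, sum_range_succ' _ (n + 1), sum_range_succ' _ (n + 1),
      wrvz_B, add_right_comm, ← sum_add_distrib]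
    congr 1
    refine sum_congr rfl fun j hj => ?_
    rw [wrvz_A D (Nat.lt_succ_iff.1 (mem_range.1 hj)), Nat.add_sub_add_right, Nat.cast_add]
    ring

/-- Choose `a` with `2 a ≡ D + 2 j` modulo `3 ^ r`; the product is `2 ^ t` times an ascending
factorial, divisible by `t !` with `t = n - j`, and `C(n, j) t !` is divisible by `n`. -/
theorem rvz_dvd (D : ℕ) {r n j : ℕ} (hn : 3 ^ r ∣ n) (hj : j < n) :
    3 ^ r ∣ n.choose j * ∏ s ∈ Ico j n, (D + 2 * s) := by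
  obtain ⟨k, hk⟩ : Odd (3 ^ r) := Odd.pow (by decide)
  have h0 : (2 * k + 1 : ZMod (3 ^ r)) = 0 := by
    exact_mod_cast (ZMod.natCast_eq_zero_iff (2 * k + 1) (3 ^ r)).2 (dvd_of_eq hk)
  have h1 : ((∏ s ∈ Ico j n, (D + 2 * s) : ℕ) : ZMod (3 ^ r)) =
      ((2 ^ (n - j) * ((D + 2 * j) * (k + 1)).ascFactorial (n - j) : ℕ) : ZMod (3 ^ r)) := by
    rw [prod_Ico_eq_prod_range, Nat.ascFactorial_eq_prod_range]
    push_cast
    rw [← card_range (n - j), ← prod_const, card_range, ← prod_mul_distrib]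
    refine prod_congr rfl fun i _ => ?_
    linear_combination (-((D : ZMod (3 ^ r)) + 2 * j)) * h0
  have h2 : n ∣ n.choose j * (n - j).factorial := by
    rw [← Nat.choose_symm hj.le, mul_comm, ← Nat.descFactorial_eq_factorial_mul_choose]
    obtain ⟨t, ht⟩ : ∃ t, n - j = t + 1 := ⟨n - j - 1, by omega⟩
    obtain ⟨m, rfl⟩ : ∃ m, n = m + 1 := ⟨n - 1, by omega⟩
    rw [ht, Nat.succ_descFactorial_succ]
    exact dvd_mul_right _ _
  rw [← ZMod.natCast_eq_zero_iff, Nat.cast_mul, h1, ← Nat.cast_mul, ZMod.natCast_eq_zero_iff]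
  exact hn.trans (h2.trans (Nat.mul_dvd_mul_left _
    ((Nat.factorial_dvd_ascFactorial _ _).mul_left _)))

theorem rvz_cong (D : ℕ) {x r : K⟦X⟧} (hx : DD x = 2 * x ^ 2 + r) (g : K⟦X⟧) {t n : ℕ}
    (hn : 3 ^ t ∣ n) : ∃ y : K⟦X⟧, DD^[n] g = rvz D x r g n + 3 ^ t * y := by
  have h1 : (3 : K⟦X⟧) ^ t ∣ ∑ j ∈ range n,
      ((n.choose j * ∏ s ∈ Ico j n, (D + 2 * s) : ℕ) : K⟦X⟧) * x ^ (n - j) * rvz D x r g j := by
    refine dvd_sum fun j hj => Dvd.dvd.mul_right (Dvd.dvd.mul_right ?_ _) _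
    have h2 : ((3 ^ t : ℕ) : K⟦X⟧) ∣ _ := Nat.cast_dvd_cast (rvz_dvd D hn (mem_range.1 hj))
    rwa [Nat.cast_pow, Nat.cast_ofNat] at h2
  obtain ⟨y, hy⟩ := h1
  refine ⟨y, ?_⟩
  rw [rvz_formula D hx, sum_range_succ, hy, add_comm]
  simp

lemma coeff_DD_iterate (n N : ℕ) (g : K⟦X⟧) : coeff N (DD^[n] g) = (N : K) ^ n * coeff N g := by
  induction n with
  | zero => simp
  | succ n ih => rw [Function.iterate_succ_apply', coeff_DD, ih, pow_succ', mul_assoc]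

/-- `N ^ (2 * 3 ^ t) + N ^ (3 ^ t)` is `2` or `0` modulo `3 ^ t` (lifting the exponent, e.g.
`dvd_sub_pow_of_dvd_sub`). -/
theorem two_pr_cong (g : ℤ⟦X⟧) (t : ℕ) :
    ∃ y : ℤ⟦X⟧, DD^[2 * 3 ^ t] g + DD^[3 ^ t] g = 2 * pr 3 1 g + 3 ^ t * y := by
  have key : ∀ (N : ℕ) (ε : ℤ), (3 : ℤ) ∣ N - ε → (3 : ℤ) ^ t ∣
      (N : ℤ) ^ (2 * 3 ^ t) + (N : ℤ) ^ 3 ^ t - ((ε ^ 3 ^ t) ^ 2 + ε ^ 3 ^ t) := fun N ε h => by
    have h1 := dvd_sub_pow_of_dvd_sub (p := 3) (a := (N : ℤ)) (b := ε) h t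
    have h2 : (3 : ℤ) ^ t ∣ (N : ℤ) ^ 3 ^ t - ε ^ 3 ^ t :=
      (pow_dvd_pow 3 (Nat.le_succ t)).trans h1
    rw [pow_mul']
    refine (h2.mul_right ((N : ℤ) ^ 3 ^ t + ε ^ 3 ^ t + 1)).trans (dvd_of_eq ?_)
    ring
  have hodd : Odd (3 ^ t) := Odd.pow (by decide)
  have h3 : ∀ N : ℕ, (3 : ℤ) ^ t ∣
      (N : ℤ) ^ (2 * 3 ^ t) + (N : ℤ) ^ 3 ^ t - if N % 3 = 1 then 2 else 0 := fun N => by
    split_ifs with h
    · simpa [one_add_one_eq_two] using key N 1 (by omega)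
    · by_cases h' : N % 3 = 0
      · simpa using key N 0 (by omega)
      · simpa [hodd.neg_one_pow] using key N (-1) (by omega)
  choose k hk using h3
  refine ⟨mk fun N => k N * coeff N g, ?_⟩
  ext N
  have e1 : (2 : ℤ⟦X⟧) = C 2 := rfl
  have e2 : (3 : ℤ⟦X⟧) ^ t = C (3 ^ t) := by rw [map_pow]; rfl
  rw [map_add, map_add, coeff_DD_iterate, coeff_DD_iterate, e1, e2, coeff_C_mul, coeff_C_mul,
    coeff_mk, coeff_pr]
  have h4 := hk N
  split_ifs at h4 ⊢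
  · linear_combination coeff N g * h4
  · linear_combination coeff N g * h4

end Pool.Agent.Lib.MP_bcfefa_nt.W
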