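import Pool.Agent.Lib.MP_bcfefa_nt.WSerA

/-!
Residue classes of exponents.
-/

set_option autoImplicit false

noncomputable section

namespace Pool.Agent.Lib.MP_bcfefa_nt.W

open PowerSeries Finset

variable {K : Type*} [CommRing K] {L : Type*} [CommRing L]

section Classes

variable {m r s : ℕ} {φ ψ : K⟦X⟧}

lemma cls_zero (m r : ℕ) : Cls m r (0 : K⟦X⟧) := fun _ _ => map_zero _

lemma cls_C (m : ℕ) (c : K) : Cls m 0 (C c : K⟦X⟧) := fun n hn => by
  rw [coeff_C, if_neg]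
  rintro rfl
  exact hn (Nat.zero_mod m)

lemma cls_one (m : ℕ) : Cls m 0 (1 : K⟦X⟧) := by
  simpa using cls_C m (1 : K)

lemma cls_natCast (m n : ℕ) : Cls m 0 (n : K⟦X⟧) := by
  simpa using cls_C m (n : K)

lemma cls_pr (m r : ℕ) (φ : K⟦X⟧) : Cls m r (pr m r φ) := fun n hn => by
  rw [coeff_pr, if_neg hn]

lemma cls_VV (m : ℕ) (φ : K⟦X⟧) : Cls m 0 (VV m φ) := fun n hn => by
  rw [coeff_VV, if_neg fun h => hn (Nat.mod_eq_zero_of_dvd h)]

lemma Cls.add (h : Cls m r φ) (h' : Cls m r ψ) : Cls m r (φ + ψ) := fun n hn => by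
  rw [map_add, h n hn, h' n hn, add_zero]

lemma Cls.neg (h : Cls m r φ) : Cls m r (-φ) := fun n hn => by
  rw [map_neg, h n hn, neg_zero]

lemma Cls.sub (h : Cls m r φ) (h' : Cls m r ψ) : Cls m r (φ - ψ) := fun n hn => by
  rw [map_sub, h n hn, h' n hn, sub_zero]

lemma Cls.smul (c : K) (h : Cls m r φ) : Cls m r (c • φ) := fun n hn => by
  rw [map_smul, h n hn, smul_zero]

lemma Cls.sum {ι : Type*} {t : Finset ι} {f : ι → K⟦X⟧} (h : ∀ i ∈ t, Cls m r (f i)) :
    Cls m r (∑ i ∈ t, f i) := fun n hn => by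
  rw [map_sum]
  exact sum_eq_zero fun i hi => h i hi n hn

lemma Cls.mul (h : Cls m r φ) (h' : Cls m s ψ) : Cls m ((r + s) % m) (φ * ψ) := fun n hn => by
  rw [coeff_mul]
  refine sum_eq_zero fun x hx => ?_
  by_cases h1 : x.1 % m = r
  · rw [h' x.2, mul_zero]
    intro h2
    exact hn (by rw [← mem_antidiagonal.1 hx, Nat.add_mod, h1, h2])
  · rw [h x.1 h1, zero_mul]

lemma Cls.pow (h : Cls m r φ) (n : ℕ) : Cls m ((r * n) % m) (φ ^ n) := by
  induction n with
  | zero => simpa using cls_one m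
  | succ n ih =>
    have h1 := ih.mul h
    rwa [Nat.mod_add_mod, ← pow_succ] at h1

lemma Cls.DD (h : Cls m r φ) : Cls m r (DD φ) := fun n hn => by
  rw [coeff_DD, h n hn, mul_zero]

lemma Cls.aeval (h : Cls m 0 φ) (P : Polynomial K) : Cls m 0 (Polynomial.aeval φ P) := by
  rw [Polynomial.aeval_eq_sum_range]
  exact Cls.sum fun i _ => Cls.smul _ (by simpa using h.pow i)

lemma Cls.pr_self (h : Cls m r φ) : pr m r φ = φ := by
  ext n
  rw [coeff_pr]
  split_ifs with hn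
  exacts [rfl, (h n hn).symm]

lemma Cls.pr_ne (h : Cls m r φ) (hrs : r ≠ s) : pr m s φ = 0 := by
  ext n
  rw [coeff_pr, map_zero]
  split_ifs with hn
  exacts [h n fun h1 => hrs (h1.symm.trans hn), rfl]

lemma Cls.pr_mul (h : Cls m 0 φ) (r : ℕ) (ψ : K⟦X⟧) : pr m r (φ * ψ) = φ * pr m r ψ := by
  ext n
  rw [coeff_pr, coeff_mul, coeff_mul, ite_sum_zero]
  refine sum_congr rfl fun x hx => ?_
  by_cases h1 : x.1 % m = 0
  · rw [coeff_pr, ← mem_antidiagonal.1 hx, Nat.add_mod, h1, zero_add, Nat.mod_mod, mul_ite, mul_zero]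
  · rw [h x.1 h1, zero_mul, zero_mul, ite_self]

lemma Cls.map (f : K →+* L) (h : Cls m r φ) : Cls m r (map f φ) := fun n hn => by
  rw [coeff_map, h n hn, map_zero]

lemma sum_pr (hm : m ≠ 0) (φ : K⟦X⟧) : ∑ r ∈ range m, pr m r φ = φ := by
  ext n
  simp [coeff_pr, Nat.mod_lt n (Nat.pos_of_ne_zero hm)]

/-- Multiplying exponents by `a ≡ 1` keeps classes. -/
lemma pr_VV {a : ℕ} (ha : a ≠ 0) (ham : a % m = 1 % m) (r : ℕ) (φ : K⟦X⟧) :
    pr m r (VV a φ) = VV a (pr m r φ) := by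
  ext n
  rw [coeff_pr, coeff_VV, coeff_VV, coeff_pr]
  by_cases h : a ∣ n
  · obtain ⟨k, rfl⟩ := h
    rw [if_pos (dvd_mul_right a k), if_pos (dvd_mul_right a k),
      Nat.mul_div_cancel_left k (Nat.pos_of_ne_zero ha), Nat.mul_mod, ham, ← Nat.mul_mod, one_mul]
  · rw [if_neg h, if_neg h, ite_self]

end Classes

/-- Frobenius. -/
lemma pow_three (φ : F3⟦X⟧) : φ ^ 3 = VV 3 φ := by
  have : Fact (Nat.Prime 3) := ⟨by norm_num⟩
  have h := MvPowerSeries.map_frobenius_expand (σ := Unit) (R := F3) 3 (by norm_num) (f := φ)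
  rw [ZMod.frobenius_zmod, MvPowerSeries.map_id] at h
  refine h.symm.trans ?_
  ext n
  rw [coeff_VV]
  exact coeff_expand 3 (by norm_num) φ

/-- A nonzero series without constant term is transcendental (look at orders). -/
lemma aeval_eq_zero [IsDomain K] {φ : K⟦X⟧} (h0 : coeff 0 φ = 0) (hne : φ ≠ 0)
    {P : Polynomial K} (h : Polynomial.aeval φ P = 0) : P = 0 := by
  by_contra hP
  obtain ⟨Q, h1, h2⟩ := Polynomial.exists_eq_pow_rootMultiplicity_mul_and_not_dvd P hP 0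
  rw [h1, map_mul, map_pow, map_zero, sub_zero, Polynomial.aeval_X] at h
  have h3 := congrArg constantCoeff ((mul_eq_zero.1 h).resolve_left (pow_ne_zero _ hne))
  have h4 : (constantCoeff : K⟦X⟧ →+* K).comp (algebraMap K K⟦X⟧) = RingHom.id K := by
    ext c
    simp
  rw [Polynomial.aeval_def, Polynomial.hom_eval₂, h4, ← coeff_zero_eq_constantCoeff_apply φ, h0,
    map_zero] at h3
  exact h2 (Polynomial.dvd_iff_isRoot.2 h3)

end Pool.Agent.Lib.MP_bcfefa_nt.W
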