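import Pool.Agent.Lib.MP_bcfefa_nt.WA0

/-!
Basic operators on power series.
-/

set_option autoImplicit false

noncomputable section

namespace Pool.Agent.Lib.MP_bcfefa_nt.W

open PowerSeries Finset

variable {K : Type*} [CommRing K] {L : Type*} [CommRing L]

@[simp] lemma coeff_DD (n : ℕ) (φ : K⟦X⟧) : coeff n (DD φ) = (n : K) * coeff n φ := by
  simp [DD]

@[simp] lemma coeff_UU (m n : ℕ) (φ : K⟦X⟧) : coeff n (UU m φ) = coeff (m * n) φ := by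
  simp [UU]

lemma coeff_VV (m n : ℕ) (φ : K⟦X⟧) :
    coeff n (VV m φ) = if m ∣ n then coeff (n / m) φ else 0 := by
  simp [VV]

lemma coeff_pr (m r n : ℕ) (φ : K⟦X⟧) :
    coeff n (pr m r φ) = if n % m = r then coeff n φ else 0 := by
  simp [pr]

lemma coeff_hk (ψ : ℕ → K) (m n : ℕ) (φ : K⟦X⟧) :
    coeff n (hk ψ m φ) = ∑ d ∈ (Nat.gcd m n).divisors, ψ d * coeff (m * n / d ^ 2) φ := by
  simp [hk]

lemma coeff_shim (ψ : ℕ → K) (M : ℕ) (φ : K⟦X⟧) :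
    coeff M (shim ψ φ) = ∑ d ∈ M.divisors, ψ d * coeff ((M / d) ^ 2) φ := by
  simp [shim]

@[simp] lemma coeff_tw (l n : ℕ) (φ : K⟦X⟧) :
    coeff n (tw l φ) = ((jacobiSym (n : ℤ) l : ℤ) : K) * coeff n φ := by
  simp [tw]

lemma coeff_VV_mul {m : ℕ} (hm : m ≠ 0) (n : ℕ) (φ : K⟦X⟧) :
    coeff (m * n) (VV m φ) = coeff n φ := by
  rw [coeff_VV, if_pos (dvd_mul_right m n), Nat.mul_div_cancel_left _ (Nat.pos_of_ne_zero hm)]

lemma wsera_DD (φ : K⟦X⟧) : DD φ = X * d⁄dX K φ := by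
  ext n
  cases n with
  | zero => simp
  | succ n => rw [coeff_DD, coeff_succ_X_mul, coeff_derivative, mul_comm]; push_cast; rfl

lemma wsera_VV {m : ℕ} (hm : m ≠ 0) (φ : K⟦X⟧) : VV m φ = expand m hm φ := by
  ext n
  rw [coeff_VV, coeff_expand]

lemma DD_mul (φ ψ : K⟦X⟧) : DD (φ * ψ) = DD φ * ψ + φ * DD ψ := by
  simp only [wsera_DD, Derivation.leibniz, smul_eq_mul]
  ring

lemma DD_C (c : K) : DD (C c : K⟦X⟧) = 0 := by
  rw [wsera_DD, derivative_C, mul_zero]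

lemma DD_one : DD (1 : K⟦X⟧) = 0 := by
  rw [wsera_DD, derivative_one, mul_zero]

lemma DD_natCast (n : ℕ) : DD (n : K⟦X⟧) = 0 := by
  rw [wsera_DD, Derivation.map_natCast, mul_zero]

lemma DD_X : DD (X : K⟦X⟧) = X := by
  rw [wsera_DD, derivative_X, mul_one]

lemma DD_pow (φ : K⟦X⟧) (n : ℕ) : DD (φ ^ n) = (n : K⟦X⟧) * φ ^ (n - 1) * DD φ := by
  rw [wsera_DD, wsera_DD, derivative_pow]
  ring

lemma DD_aeval (φ : K⟦X⟧) (P : Polynomial K) :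
    DD (Polynomial.aeval φ P) = Polynomial.aeval φ (Polynomial.derivative P) * DD φ := by
  rw [wsera_DD, wsera_DD, Derivation.map_aeval, smul_eq_mul]
  ring

/-- Compare with `PowerSeries.expand`. -/
lemma VV_mul {m : ℕ} (hm : m ≠ 0) (φ ψ : K⟦X⟧) : VV m (φ * ψ) = VV m φ * VV m ψ := by
  simp only [wsera_VV hm, map_mul]

lemma VV_C {m : ℕ} (hm : m ≠ 0) (c : K) : VV m (C c : K⟦X⟧) = C c := by
  rw [wsera_VV hm, expand_C]

lemma VV_one {m : ℕ} (hm : m ≠ 0) : VV m (1 : K⟦X⟧) = 1 := by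
  rw [wsera_VV hm, map_one]

lemma VV_natCast {m : ℕ} (hm : m ≠ 0) (n : ℕ) : VV m (n : K⟦X⟧) = n := by
  rw [wsera_VV hm, map_natCast]

lemma VV_X {m : ℕ} (hm : m ≠ 0) : VV m (X : K⟦X⟧) = X ^ m := by
  rw [wsera_VV hm, expand_X]

lemma VV_pow {m : ℕ} (hm : m ≠ 0) (φ : K⟦X⟧) (n : ℕ) : VV m (φ ^ n) = VV m φ ^ n := by
  simp only [wsera_VV hm, map_pow]

lemma VV_aeval {m : ℕ} (hm : m ≠ 0) (φ : K⟦X⟧) (P : Polynomial K) :
    VV m (Polynomial.aeval φ P) = Polynomial.aeval (VV m φ) P := by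
  simp only [wsera_VV hm]
  exact (Polynomial.aeval_algHom_apply (expand m hm) φ P).symm

lemma VV_VV {m m' : ℕ} (hm : m ≠ 0) (hm' : m' ≠ 0) (φ : K⟦X⟧) :
    VV m (VV m' φ) = VV (m * m') φ := by
  rw [wsera_VV hm, wsera_VV hm', wsera_VV (mul_ne_zero hm hm'), expand_mul]

lemma VV_injective {m : ℕ} (hm : m ≠ 0) : Function.Injective (VV m : K⟦X⟧ → K⟦X⟧) := by
  intro φ ψ h
  ext n
  rw [← coeff_VV_mul hm, h, coeff_VV_mul hm]

lemma UU_VV {m : ℕ} (hm : m ≠ 0) (φ : K⟦X⟧) : UU m (VV m φ) = φ := by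
  ext n
  rw [coeff_UU, coeff_VV_mul hm]

lemma UU_UU (m m' : ℕ) (φ : K⟦X⟧) : UU m (UU m' φ) = UU (m * m') φ := by
  ext n
  rw [coeff_UU, coeff_UU, coeff_UU, mul_left_comm, mul_assoc]

lemma UU_VV_comm {m m' : ℕ} (h : m.Coprime m') (hm' : m' ≠ 0) (φ : K⟦X⟧) :
    UU m (VV m' φ) = VV m' (UU m φ) := by
  ext n
  rw [coeff_UU, coeff_VV, coeff_VV, coeff_UU]
  by_cases hd : m' ∣ n
  · rw [if_pos hd, if_pos (hd.mul_left m), Nat.mul_div_assoc _ hd]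
  · rw [if_neg hd, if_neg fun h' => hd (h.symm.dvd_of_dvd_mul_left h')]

lemma VV_UU {m : ℕ} (hm : m ≠ 0) (φ : K⟦X⟧) : VV m (UU m φ) = pr m 0 φ := by
  ext n
  rw [coeff_VV, coeff_pr, coeff_UU]
  by_cases hd : m ∣ n
  · rw [if_pos hd, if_pos (Nat.mod_eq_zero_of_dvd hd), Nat.mul_div_cancel' hd]
  · rw [if_neg hd, if_neg fun h' => hd (Nat.dvd_of_mod_eq_zero h')]

lemma DD_VV {m : ℕ} (hm : m ≠ 0) (φ : K⟦X⟧) : DD (VV m φ) = (m : K⟦X⟧) * VV m (DD φ) := by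
  ext n
  rw [← nsmul_eq_mul, map_nsmul, coeff_DD, coeff_VV, coeff_VV, coeff_DD, nsmul_eq_mul]
  by_cases hd : m ∣ n
  · obtain ⟨k, rfl⟩ := hd
    rw [if_pos (dvd_mul_right m k), if_pos (dvd_mul_right m k),
      Nat.mul_div_cancel_left _ (Nat.pos_of_ne_zero hm), Nat.cast_mul, mul_assoc]
  · rw [if_neg hd, if_neg hd, mul_zero, mul_zero]

lemma map_DD (f : K →+* L) (φ : K⟦X⟧) : map f (DD φ) = DD (map f φ) := by
  ext n
  simp

lemma map_UU (f : K →+* L) (m : ℕ) (φ : K⟦X⟧) : map f (UU m φ) = UU m (map f φ) := by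
  ext n
  simp

lemma map_VV (f : K →+* L) (m : ℕ) (φ : K⟦X⟧) : map f (VV m φ) = VV m (map f φ) := by
  ext n
  simp only [coeff_map, coeff_VV]
  split_ifs <;> simp

lemma map_pr (f : K →+* L) (m r : ℕ) (φ : K⟦X⟧) : map f (pr m r φ) = pr m r (map f φ) := by
  ext n
  simp only [coeff_map, coeff_pr]
  split_ifs <;> simp

end Pool.Agent.Lib.MP_bcfefa_nt.W
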