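import Pool.Agent.Lib.MP_bcfefa_nt.WTy
import Pool.Agent.Lib.MP_bcfefa_nt.WM3d
import Pool.Agent.Lib.MP_bcfefa_nt.WHk
import Pool.Agent.Lib.MP_bcfefa_nt.WDesc

/-!
The Hecke operators modulo three have a type.
-/

set_option autoImplicit false

noncomputable section

namespace Pool.Agent.Lib.MP_bcfefa_nt.W

open PowerSeries Finset

lemma wt3_sq {l : ℕ} (h : ¬ 3 ∣ l) : (l : F3) * (l : F3) = 1 :=
  (by decide : ∀ a : F3, a ≠ 0 → a * a = 1) _ fun h0 => h ((ZMod.natCast_eq_zero_iff l 3).1 h0)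

lemma wt3_prime {l : ℕ} (hl : l.Prime) (y : F3⟦X⟧) : T3 l y = UU l y + ψ3 l • VV l y := by
  rw [T3, hk_prime ψ3_one hl]
  rfl

theorem ty_prime (H : Facts) {l : ℕ} (hl : l.Prime) (h3 : l ≠ 3) : Ty (l : F3) 0 (T3 l) := by
  have h2 : (l : F3) * (l : F3) = 1 :=
    wt3_sq fun h => h3 ((Nat.prime_dvd_prime_iff_eq Nat.prime_three hl).1 h).symm
  have hc : (l : F3⟦X⟧) = C (l : F3) := (map_natCast _ _).symm
  intro k n x hx
  rcases n with _ | e
  · rw [Rlt_zero, Submodule.mem_bot] at hx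
    rw [hx, map_zero]
    exact Submodule.zero_mem _
  obtain ⟨φ, hφ, rfl⟩ := exists_lift H hx
  have h1 := red_mem_Rlt H (H.tyZ hl k hφ)
  have e1 : red (adH l e k φ) = (l : F3) • (ad (l : F3))^[k] (T3 l) (red φ) := by
    rw [red, map_adH, adH, ad_iterate, Finset.smul_sum]
    refine Finset.sum_congr rfl fun i _ => ?_
    rw [QQ3, hc, ← mul_smul_comm, wt3_prime hl, smul_add, smul_smul, smul_eq_C_mul, smul_eq_C_mul]
    congr 2
    split_ifs with h
    · simp [h, ψ3]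
    · have ho : l % 2 = 1 := hl.eq_two_or_odd.resolve_left h
      rw [ψ3, if_pos ho, ← mul_add, pow_mul, ← map_pow, sq, h2, map_one, one_pow]
  have e2 := (Rlt _).smul_mem (l : F3) h1
  rw [e1, smul_smul, h2, one_smul] at e2
  rwa [show e + 1 + 0 + k = e + k + 1 by ring]

lemma T3_one : T3 1 = 1 := hk_one ψ3_one

theorem ty_T3 (H : Facts) {m : ℕ} (hm : ¬ 3 ∣ m) : Ty (m : F3) 0 (T3 m) := by
  induction m using Nat.strong_induction_on with
  | _ m ih =>
    by_cases h1 : m = 1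
    · rw [h1, T3_one, Nat.cast_one]
      exact ty_one
    obtain ⟨l, hl, m', rfl⟩ := Nat.exists_prime_and_dvd h1
    have h0 : m' ≠ 0 := by
      rintro rfl
      exact hm (dvd_zero _)
    have hl3 : ¬ 3 ∣ l := fun h => hm (h.mul_right _)
    have hm3 : ¬ 3 ∣ m' := fun h => hm (h.mul_left _)
    have hlt : m' < l * m' := lt_mul_left (Nat.pos_of_ne_zero h0) hl.one_lt
    have e : T3 (l * m') = T3 l * T3 m' - if l ∣ m' then ψ3 l • T3 (m' / l) else 0 :=
      eq_sub_of_add_eq (hk_mul_prime ψ3_one ψ3_mul hl h0).symm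
    rw [e, Nat.cast_mul]
    have t1 := (ty_prime H hl fun h => hl3 (by rw [h])).mul (ih m' hlt hm3)
    rw [add_zero] at t1
    refine Ty.sub t1 ?_
    split_ifs with h
    · obtain ⟨c, rfl⟩ := h
      rw [Nat.mul_div_cancel_left _ hl.pos, Nat.cast_mul, ← mul_assoc, wt3_sq hl3, one_mul]
      exact Ty.smul _ (ih c ((Nat.le_mul_of_pos_left _ hl.pos).trans_lt hlt)
        fun h => hm3 (h.mul_left _))
    · exact ty_zero _ _

theorem T3_mem_Rlt (H : Facts) {m : ℕ} (hm : m ≠ 0) {n : ℕ} {x : F3⟦X⟧} (hx : x ∈ Rlt n) :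
    T3 m x ∈ Rlt n := by
  refine hk_stable ψ3_one ψ3_mul (Rlt n) (fun l hl y hy => ?_) hm x hx
  by_cases h3 : l = 3
  swap
  · exact ty_prime H hl h3 0 n y hy
  subst h3
  have h0 : ψ3 3 = 0 := by decide
  change T3 3 y ∈ _
  rw [wt3_prime hl, h0, zero_smul, add_zero]
  rcases n with _ | _ | e
  · rw [Rlt_zero, Submodule.mem_bot] at hy
    rw [hy, map_zero]
    exact Submodule.zero_mem _
  · obtain ⟨P, hP, rfl⟩ := mem_Rlt.1 hy
    have h1 : P = Polynomial.C (P.coeff 0) :=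
      Polynomial.eq_C_of_degree_le_zero (Nat.WithBot.lt_one_iff_le_zero.1 hP)
    have h2 : ev P = C (P.coeff 0) := by
      rw [h1, ev, Polynomial.aeval_C, Polynomial.coeff_C_zero]
      rfl
    have h4 : UU 3 (ev P) = ev P := by
      rw [h2]
      ext k
      simp [coeff_C]
    rwa [h4]
  · obtain ⟨φ, hφ, rfl⟩ := exists_lift H hy
    have h1 := red_mem_Rlt H (H.T3Z hφ)
    have h2 : (3 : F3⟦X⟧) = 0 := by
      rw [← map_ofNat (C : F3 →+* F3⟦X⟧) 3]
      exact (congrArg _ (by decide)).trans (map_zero _)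
    rw [map_add, map_mul, map_pow, map_ofNat, h2, zero_pow (Nat.succ_ne_zero _), zero_mul,
      add_zero, red, map_UU] at h1
    exact h1

lemma T3_two : T3 2 = UU 2 := by
  have h0 : ψ3 2 = 0 := by decide
  rw [T3, hk_prime ψ3_one Nat.prime_two, h0, zero_smul, add_zero]

lemma T3_four : T3 4 = UU 2 * UU 2 := by
  have h0 : ψ3 2 = 0 := by decide
  have h := hk_mul_prime ψ3_one ψ3_mul Nat.prime_two two_ne_zero
  rw [h0, zero_smul, ite_self, add_zero] at h
  rw [← T3_two]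
  exact h.symm

theorem cls_Em (H : Facts) (m : ℕ) : Cls 3 (m % 3) (Em m) := by
  have h := ((cls_NN H).pow (m % 3)).mul (cls_VV 3 (FF F3 ^ (m / 3)))
  rw [← pow_three, ← pow_mul'] at h
  simpa [Em] using h

lemma wt3_NN (H : Facts) (n : ℕ) : coeff n NN = -((n : F3) * coeff n (uu F3)) := by
  rw [← coeff_DD, DD_uu3 H, ← map_neg, neg_sub, NN]

lemma wt3_fac {φ : F3⟦X⟧} (h0 : coeff 0 φ = 0) (h1 : coeff 1 φ = 1) :
    ∃ y : F3⟦X⟧, φ = X * y ∧ constantCoeff y = 1 := by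
  obtain ⟨y, rfl⟩ := X_dvd_iff.2 (by simpa using h0)
  exact ⟨y, rfl, by simpa using h1⟩

lemma wt3_Em (H : Facts) (m : ℕ) : ∃ y : F3⟦X⟧, Em m = X ^ m * y ∧ constantCoeff y = 1 := by
  obtain ⟨a, ha, ha1⟩ := wt3_fac (φ := NN) (by rw [wt3_NN H]; simp) (by
    have := coeff_uu (K := F3) 1
    rw [wt3_NN H]
    exact (congrArg (fun t => -(((1 : ℕ) : F3) * t)) this).trans (by decide))
  obtain ⟨b, hb, hb1⟩ := wt3_fac (φ := FF F3) coeff_zero_FF coeff_one_FF
  refine ⟨a ^ (m % 3) * b ^ (3 * (m / 3)), ?_, by simp [ha1, hb1]⟩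
  rw [Em, ha, hb, mul_pow, mul_pow, mul_mul_mul_comm, ← pow_add, Nat.mod_add_div]

theorem coeff_Em_lt (H : Facts) {m n : ℕ} (h : n < m) : coeff n (Em m) = 0 := by
  obtain ⟨y, hy, -⟩ := wt3_Em H m
  rw [hy, coeff_X_pow_mul', if_neg h.not_ge]

theorem coeff_Em_self (H : Facts) (m : ℕ) : coeff m (Em m) = 1 := by
  obtain ⟨y, hy, h1⟩ := wt3_Em H m
  rw [hy, coeff_X_pow_mul', if_pos le_rfl, Nat.sub_self, coeff_zero_eq_constantCoeff_apply, h1]

theorem Em_mem_Rlt (H : Facts) (m : ℕ) : Em m ∈ Rlt (3 * (m % 3) + 3 * (m / 3) + 1) := by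
  have h1 : NN ∈ Rlt (3 + 1) := mem_Rlt.2 ⟨Polynomial.X ^ 3 - Polynomial.X,
    lt_of_le_of_lt (b := 3) (by compute_degree) (by norm_num), by simp [NN, ev]⟩
  have h := mul_mem_Rlt (pow_mem_Rlt h1 (m % 3)) (pow_mem_Rlt (a := 1) (FF_mem_Rlt H) (3 * (m / 3)))
  rwa [one_mul] at h

lemma wt3_tau (m : ℕ) : tau m = T3 m - ∑ β ∈ range m, coeff m (Em β) • tau β := by
  rw [tau, Fin.sum_univ_eq_sum_range fun β => coeff m (Em β) • tau β]

theorem T3_eq_sum (H : Facts) (m : ℕ) : T3 m = ∑ β ∈ range (m + 1), coeff m (Em β) • tau β := by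
  rw [sum_range_succ, coeff_Em_self H, one_smul, wt3_tau m, add_sub_cancel]

theorem ty_tau (H : Facts) {β : ℕ} (h : ¬ 3 ∣ β) : Ty (β : F3) 0 (tau β) := by
  induction β using Nat.strong_induction_on with
  | _ β ih =>
    rw [wt3_tau]
    refine (ty_T3 H h).sub (Ty.sum fun γ hγ => ?_)
    by_cases e : β % 3 = γ % 3
    · rw [(ZMod.natCast_eq_natCast_iff' β γ 3).2 e]
      exact Ty.smul _ (ih γ (mem_range.1 hγ) (by omega))
    · rw [cls_Em H γ β e, zero_smul]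
      exact ty_zero _ _

theorem tau_one (H : Facts) : tau 1 = 1 := by
  rw [wt3_tau, sum_range_one, cls_Em H 0 1 (by decide), zero_smul, sub_zero, T3_one]

theorem tau_two (H : Facts) : tau 2 = UU 2 := by
  rw [wt3_tau, sum_range_succ, sum_range_one, cls_Em H 0 2 (by decide), cls_Em H 1 2 (by decide),
    zero_smul, zero_smul, add_zero, sub_zero, T3_two]

theorem tau_four (H : Facts) : tau 4 = UU 2 * UU 2 := by
  have h : coeff 4 (Em 1) = 0 := by
    have := coeff_uu (K := F3) 4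
    rw [show Em 1 = NN by simp [Em], wt3_NN H]
    exact (congrArg (fun t => -(((4 : ℕ) : F3) * t)) this).trans (by decide)
  rw [wt3_tau, sum_range_succ, sum_range_succ, sum_range_succ, sum_range_one,
    cls_Em H 0 4 (by decide), cls_Em H 2 4 (by decide), cls_Em H 3 4 (by decide), h]
  simp only [zero_smul, add_zero, sub_zero, T3_four]

end Pool.Agent.Lib.MP_bcfefa_nt.W
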