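import Pool.Agent.Lib.MP_bcfefa_nt.WQP

/-!
The two theta constants.
-/

set_option autoImplicit false

noncomputable section

namespace Pool.Agent.Lib.MP_bcfefa_nt.W

open PowerSeries Finset CongruenceSubgroup UpperHalfPlane
open Pool.Agent.Lib.MP_88d29b_nt.G
open scoped MatrixGroups ModularForm Manifold

lemma wth_congr {F G : ℕ → ℂ} {a : ℂ} (h : HasSum F a) (e : ∀ n, G n = F n) : HasSum G a := by
  rwa [funext e]

lemma wth_im2 (z : ℍ) : 0 < (2 * (z : ℂ)).im := by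
  simpa using z.im_pos

lemma wth_imh (z : ℍ) : 0 < ((z : ℂ) / 2).im := by
  simpa using z.im_pos

/-- The point `z / 4`. -/
def wthQ (z : ℍ) : ℍ := ⟨(z : ℂ) / 4, by simpa using z.im_pos⟩

lemma wth_coe (z : ℍ) : ((wthQ z : ℍ) : ℂ) = z / 4 := rfl

lemma wth_dil (f : ℍ → ℂ) (z : ℍ) : dil 4 f (wthQ z) = f z := by
  have h : ((4 : ℕ) : ℂ) * (wthQ z : ℍ) = z := by
    rw [wth_coe]
    push_cast
    ring
  rw [dil, h, ofComplex_apply]

lemma wth_S {w : ℂ} (hw : 0 < w.im) :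
    jacobiTheta (-w)⁻¹ = (-Complex.I * w) ^ (1 / 2 : ℂ) * jacobiTheta w := by
  have h := jacobiTheta_S_smul ⟨w, hw⟩
  rwa [modular_S_smul] at h

lemma wth_root {x : ℂ} (hx : x ≠ 0) : (4 * x) ^ (1 / 2 : ℂ) = 2 * x ^ (1 / 2 : ℂ) := by
  have h1 : Complex.log (4 * x) = Complex.log 2 * 2 + Complex.log x := by
    have h2 := Complex.log_ofReal_mul (r := 2) two_pos hx
    have h3 := Complex.log_ofReal_mul (r := 2) two_pos (mul_ne_zero two_ne_zero hx)
    rw [Complex.ofReal_log zero_le_two, Complex.ofReal_ofNat] at h2 h3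
    rw [show 4 * x = 2 * (2 * x) by ring, h3, h2]
    ring
  rw [Complex.cpow_def_of_ne_zero (mul_ne_zero (by norm_num) hx), Complex.cpow_def_of_ne_zero hx, h1,
    add_mul, Complex.exp_add, mul_assoc, mul_one_div_cancel two_ne_zero, mul_one,
    Complex.exp_log two_ne_zero]

/-- `hasSum_nat_jacobiTheta`, reindexed along the injective map `n ↦ (n + 1) ^ 2`. -/
theorem qp_t0 : QP t0 (th ℂ) := by
  intro z
  have hinj : Function.Injective fun m : ℕ => m * m := fun _ _ h => Nat.mul_self_inj.1 h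
  refine (hinj.hasSum_iff fun n hn => ?_).1 ?_
  · have h : ¬ IsSquare n := fun ⟨r, hr⟩ => hn ⟨r, hr.symm⟩
    simp [coeff_th, thc, h]
  · rw [← hasSum_nat_add_iff' 1]
    have h := (hasSum_nat_jacobiTheta (wth_im2 z)).mul_left 2
    have e1 : t0 z - ∑ i ∈ range 1, ((fun n : ℕ => coeff n (th ℂ) *
        Complex.exp (2 * Real.pi * Complex.I * n * z)) ∘ fun m : ℕ => m * m) i =
        2 * ((jacobiTheta (2 * z) - 1) / 2) := by
      simp [coeff_th, thc, t0, mul_div_cancel₀]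
    rw [e1]
    refine wth_congr h fun n => ?_
    have h1 : IsSquare ((n + 1) * (n + 1)) := ⟨_, rfl⟩
    simp only [Function.comp_apply, coeff_th, thc, h1, if_true]
    rw [if_neg (by positivity)]
    push_cast
    congr 2
    ring

/-- `dil 4 t1 = t0 - dil 4 t0` and `th_eq`. -/
theorem qp_t1 : QP (dil 4 t1) (2 * oc ℂ) := by
  have h := qp_t0.sub (qp_t0.dil four_pos)
  have e1 : th ℂ - VV 4 (th ℂ) = 2 * oc ℂ := by
    rw [sub_eq_iff_eq_add', ← th_eq]
  have e2 : t0 - dil 4 t0 = dil 4 t1 := by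
    funext z
    have h1 : 0 < (((4 : ℕ) : ℂ) * z).im := by simpa using z.im_pos
    have h2 : ((4 : ℕ) : ℂ) * z / 2 = 2 * z := by
      push_cast
      ring
    simp only [Pi.sub_apply, dil, t0, t1, ofComplex_apply_of_im_pos h1, h2]
  rwa [e1, e2] at h

lemma holo_t0 : MDifferentiable 𝓘(ℂ) 𝓘(ℂ) t0 := by
  exact qp_t0.holo

lemma holo_t1 : MDifferentiable 𝓘(ℂ) 𝓘(ℂ) t1 := by
  intro z
  have h1 : DifferentiableAt ℂ (fun w : ℂ => jacobiTheta (w / 2)) z :=
    (differentiableAt_jacobiTheta (wth_imh z)).comp (z : ℂ) (f := fun w : ℂ => w / 2) (by fun_prop)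
  have h2 : DifferentiableAt ℂ (fun w : ℂ => jacobiTheta (2 * w)) z :=
    (differentiableAt_jacobiTheta (wth_im2 z)).comp (z : ℂ) (f := fun w : ℂ => 2 * w) (by fun_prop)
  exact (h1.sub h2).mdifferentiableAt.comp z z.mdifferentiable_coe

lemma bdd_t0 : IsBoundedAtImInfty t0 := by
  exact qp_t0.bdd

lemma bdd_t1 : IsBoundedAtImInfty t1 := by
  obtain ⟨M, A, h⟩ := isBoundedAtImInfty_iff.1 qp_t1.bdd
  refine isBoundedAtImInfty_iff.2 ⟨M, 4 * A, fun z hz => ?_⟩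
  rw [← wth_dil t1 z]
  refine h _ ?_
  have h1 : (wthQ z).im = z.im / 4 := by
    rw [← coe_im, wth_coe]
    simp
  rw [h1]
  linarith

lemma t0_T (z : ℍ) : t0 (ModularGroup.T • z) = t0 z := by
  rw [t0, t0, modular_T_smul, coe_vadd, Complex.ofReal_one, mul_add, mul_one, jacobiTheta_two_add]

/-- All exponents of `2 * oc` are `1` modulo four (`qp_t1`, `cls_oc`). -/
lemma t1_T (z : ℍ) : t1 (ModularGroup.T • z) = Complex.I * t1 z := by
  rw [← wth_dil t1 z, ← wth_dil t1 (ModularGroup.T • z)]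
  refine (qp_t1 _).unique (wth_congr ((qp_t1 (wthQ z)).mul_left Complex.I) fun n => ?_)
  by_cases hn : n % 4 = 1
  · have h1 : 2 * Real.pi * Complex.I * n * (wthQ (ModularGroup.T • z) : ℍ) =
        ((n / 4 : ℕ) : ℂ) * (2 * Real.pi * Complex.I) + Real.pi / 2 * Complex.I +
          2 * Real.pi * Complex.I * n * (wthQ z : ℍ) := by
      have h2 : (n : ℂ) = 4 * ((n / 4 : ℕ) : ℂ) + 1 := by
        exact_mod_cast (by omega : n = 4 * (n / 4) + 1)
      rw [wth_coe, wth_coe, modular_T_smul, coe_vadd, Complex.ofReal_one]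
      generalize ((n / 4 : ℕ) : ℂ) = m at h2
      rw [h2]
      ring
    rw [h1, Complex.exp_add, Complex.exp_add, Complex.exp_nat_mul_two_pi_mul_I,
      Complex.exp_pi_div_two_mul_I]
    ring
  · have h1 : coeff n (2 * oc ℂ) = 0 := by
      rw [two_mul, map_add, cls_oc n hn, add_zero]
    simp only [h1, zero_mul, mul_zero]

/-- `jacobiTheta_S_smul` at `z / 2` and `2 z`; `r = (- i z / 2) ^ (1 / 2)`,
`(- 2 i z) ^ (1 / 2) = 2 r`. -/
theorem t_S (z : ℍ) : ∃ r : ℂ, r ^ 2 = -Complex.I * z / 2 ∧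
    t0 (ModularGroup.S • z) = r * (t0 z + t1 z) ∧ t1 (ModularGroup.S • z) = r * (t0 z - t1 z) := by
  have hz : (z : ℂ) ≠ 0 := z.ne_zero
  have h0 : -Complex.I * ((z : ℂ) / 2) ≠ 0 :=
    mul_ne_zero (neg_ne_zero.2 Complex.I_ne_zero) (div_ne_zero hz two_ne_zero)
  have h1 := wth_S (wth_imh z)
  have h2 := wth_S (wth_im2 z)
  rw [show -Complex.I * (2 * (z : ℂ)) = 4 * (-Complex.I * (z / 2)) by ring, wth_root h0] at h2
  have e0 : ((ModularGroup.S • z : ℍ) : ℂ) = (-(z : ℂ))⁻¹ := by rw [modular_S_smul]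
  have e1 : 2 * (-(z : ℂ))⁻¹ = (-((z : ℂ) / 2))⁻¹ := by field_simp
  have e2 : (-(z : ℂ))⁻¹ / 2 = (-(2 * (z : ℂ)))⁻¹ := by field_simp
  refine ⟨(-Complex.I * (z / 2)) ^ (1 / 2 : ℂ), ?_, ?_, ?_⟩
  · rw [one_div, Complex.cpow_ofNat_inv_pow, mul_div_assoc]
  · rw [t0, e0, e1, h1, t0, t1, add_sub_cancel]
  · rw [t1, e0, e1, e2, h1, h2, t0, t1]
    ring

end Pool.Agent.Lib.MP_bcfefa_nt.W
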