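import Pool.Agent.Lib.MP_bcfefa_nt.WThF

/-!
Small coefficients of the theta series.
-/

set_option autoImplicit false

noncomputable section

namespace Pool.Agent.Lib.MP_bcfefa_nt.W

open PowerSeries Finset

variable {K : Type*} [CommRing K]

lemma wthc_mul {φ ψ : K⟦X⟧} {a b : List ℤ} (c : List ℤ)
    (ha : ∀ n < 7, coeff n φ = ((a.getD n 0 : ℤ) : K))
    (hb : ∀ n < 7, coeff n ψ = ((b.getD n 0 : ℤ) : K))
    (hc : ∀ n < 7, ∑ i ∈ range (n + 1), a.getD i 0 * b.getD (n - i) 0 = c.getD n 0) :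
    ∀ n < 7, coeff n (φ * ψ) = ((c.getD n 0 : ℤ) : K) := by
  intro n hn
  rw [coeff_mul, Nat.sum_antidiagonal_eq_sum_range_succ fun i j => coeff i φ * coeff j ψ,
    ← hc n hn, Int.cast_sum]
  refine sum_congr rfl fun i hi => ?_
  rw [mem_range] at hi
  rw [ha i (by omega), hb (n - i) (by omega), Int.cast_mul]

lemma wthc_th : ∀ n < 7, coeff n (th K) = (([1, 2, 0, 0, 2, 0, 0].getD n 0 : ℤ) : K) := by
  have h : ∀ n < 7, thc n = [1, 2, 0, 0, 2, 0, 0].getD n 0 := by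
    unfold thc
    decide +kernel
  intro n hn
  rw [coeff_th, h n hn]

lemma wthc_psi : ∀ n < 7, coeff n (psi K) = (([1, 0, 1, 0, 0, 0, 1].getD n 0 : ℤ) : K) := by
  have h : ∀ n < 7, occ (4 * n + 1) = [1, 0, 1, 0, 0, 0, 1].getD n 0 := by
    unfold occ
    decide +kernel
  intro n hn
  rw [coeff_psi, h n hn]

lemma wthc_X : ∀ n < 7, coeff n (X : K⟦X⟧) = (([0, 1, 0, 0, 0, 0, 0].getD n 0 : ℤ) : K) := by
  intro n hn
  rw [coeff_X]
  interval_cases n <;> simp

lemma wthc_uu : ∀ n < 7, coeff n (uu K) = (([1, 8, 24, 32, 24, 48, 96].getD n 0 : ℤ) : K) := by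
  have h := wthc_mul (K := K) [1, 4, 4, 0, 4, 8, 0] wthc_th wthc_th (by decide)
  have e : uu K = th K * th K * (th K * th K) := by rw [uu]; ring
  rw [e]
  exact wthc_mul _ h h (by decide)

lemma wthc_FF : ∀ n < 7, coeff n (FF K) = (([0, 1, 0, 4, 0, 6, 0].getD n 0 : ℤ) : K) := by
  have h := wthc_mul (K := K) [1, 0, 2, 0, 1, 0, 2] wthc_psi wthc_psi (by decide)
  have e : FF K = X * (psi K * psi K * (psi K * psi K)) := by rw [FF]; ring
  rw [e]
  exact wthc_mul _ wthc_X (wthc_mul [1, 0, 4, 0, 6, 0, 8] h h (by decide)) (by decide)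

lemma wthc_qq : coeff 0 (qq K) = 0 ∧ coeff 1 (qq K) = 2 ∧ coeff 2 (qq K) = -4 := by
  have h : ∀ n, ∑ i ∈ range (n + 1), coeff i (th K) * coeff (n - i) (qq K) =
      (n : K) * coeff n (th K) := fun n => by
    rw [← Nat.sum_antidiagonal_eq_sum_range_succ fun i j => coeff i (th K) * coeff j (qq K),
      ← coeff_mul, th_mul_qq]
    simp [DD]
  have t0 : coeff 0 (th K) = 1 := (wthc_th 0 (by norm_num)).trans (by simp)
  have t1 : coeff 1 (th K) = 2 := (wthc_th 1 (by norm_num)).trans (by simp)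
  have t2 : coeff 2 (th K) = 0 := (wthc_th 2 (by norm_num)).trans (by simp)
  have h0 := h 0
  have h1 := h 1
  have h2 := h 2
  simp only [sum_range_succ, sum_range_zero, t0, t1, t2, Nat.reduceSub, Nat.cast_zero,
    Nat.cast_one, Nat.cast_ofNat, Nat.sub_self] at h0 h1 h2
  refine ⟨?_, ?_, ?_⟩
  · linear_combination h0
  · linear_combination h1 - 2 * h0
  · linear_combination h2 - 2 * h1 + 4 * h0

lemma coeff_zero_uu : coeff 0 (uu K) = 1 := by
  exact (wthc_uu 0 (by norm_num)).trans (by simp)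

lemma coeff_zero_FF : coeff 0 (FF K) = 0 := by
  exact (wthc_FF 0 (by norm_num)).trans (by simp)

lemma coeff_one_FF : coeff 1 (FF K) = 1 := by
  exact (wthc_FF 1 (by norm_num)).trans (by simp)

lemma coeff_zero_qq : coeff 0 (qq K) = 0 := by
  exact wthc_qq.1

/-- Coefficients `0, ..., 6` of `uu`, `FF`, `uu ^ 2`, `uu * FF`, `FF ^ 2`, and `0, 1, 2` of `qq`.
Hint: truncate (`PowerSeries.trunc`, or `coeff_mul` with `Nat.antidiagonal_succ`). -/
lemma coeff_uu (n : Fin 7) : coeff n (uu K) = ((![1, 8, 24, 32, 24, 48, 96] n : ℤ) : K) := by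
  rw [wthc_uu n n.2]
  congr 1
  revert n
  decide

lemma coeff_FF (n : Fin 7) : coeff n (FF K) = ((![0, 1, 0, 4, 0, 6, 0] n : ℤ) : K) := by
  rw [wthc_FF n n.2]
  congr 1
  revert n
  decide

lemma coeff_uu_sq (n : Fin 7) :
    coeff n (uu K ^ 2) = ((![1, 16, 112, 448, 1136, 2016, 3136] n : ℤ) : K) := by
  rw [sq, wthc_mul [1, 16, 112, 448, 1136, 2016, 3136] wthc_uu wthc_uu (by decide) n n.2]
  congr 1
  revert n
  decide

lemma coeff_uu_FF (n : Fin 7) :
    coeff n (uu K * FF K) = ((![0, 1, 8, 28, 64, 126, 224] n : ℤ) : K) := by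
  rw [wthc_mul [0, 1, 8, 28, 64, 126, 224] wthc_uu wthc_FF (by decide) n n.2]
  congr 1
  revert n
  decide

lemma coeff_FF_sq (n : Fin 7) :
    coeff n (FF K ^ 2) = ((![0, 0, 1, 0, 8, 0, 28] n : ℤ) : K) := by
  rw [sq, wthc_mul [0, 0, 1, 0, 8, 0, 28] wthc_FF wthc_FF (by decide) n n.2]
  congr 1
  revert n
  decide

lemma coeff_qq (n : Fin 3) : coeff n (qq K) = ((![0, 2, -4] n : ℤ) : K) := by
  obtain ⟨h0, h1, h2⟩ := wthc_qq (K := K)
  fin_cases n
  · exact h0.trans (by simp)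
  · exact h1.trans (by simp)
  · exact h2.trans (by simp)

end Pool.Agent.Lib.MP_bcfefa_nt.W
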