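import Pool.Agent.Lib.MP_bcfefa_nt.WM3a

/-!
Operators of fixed type and the degree drop.
-/

set_option autoImplicit false

noncomputable section

namespace Pool.Agent.Lib.MP_bcfefa_nt.W

open PowerSeries Finset

variable {χ χ' : F3} {e e' : ℕ} {τ τ' : Module.End F3 F3⟦X⟧}

lemma ad_add (χ : F3) (τ τ' : Module.End F3 F3⟦X⟧) : ad χ (τ + τ') = ad χ τ + ad χ τ' := by
  simp only [ad, add_mul, mul_add, smul_add]
  abel

lemma ad_smul (χ c : F3) (τ : Module.End F3 F3⟦X⟧) : ad χ (c • τ) = c • ad χ τ := by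
  simp only [ad, smul_mul_assoc, mul_smul_comm, smul_sub, smul_comm χ c]

lemma ad_mul (χ χ' : F3) (τ τ' : Module.End F3 F3⟦X⟧) :
    ad (χ * χ') (τ * τ') = τ * ad χ' τ' + χ' • (ad χ τ * τ') := by
  simp only [ad, mul_sub, sub_mul, mul_smul_comm, smul_mul_assoc, smul_sub, smul_smul, mul_assoc,
    mul_comm χ χ']
  abel

lemma wty_ad_zero (χ : F3) : ad χ 0 = 0 := by
  simp [ad]

lemma wty_it_zero (χ : F3) (k : ℕ) : (ad χ)^[k] 0 = 0 :=
  Function.iterate_fixed (wty_ad_zero χ) k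

lemma wty_it_add (χ : F3) (k : ℕ) (τ τ' : Module.End F3 F3⟦X⟧) :
    (ad χ)^[k] (τ + τ') = (ad χ)^[k] τ + (ad χ)^[k] τ' := by
  induction k generalizing τ τ' with
  | zero => rfl
  | succ k ih => simp only [Function.iterate_succ_apply, ad_add, ih]

lemma wty_it_smul (χ c : F3) (k : ℕ) (τ : Module.End F3 F3⟦X⟧) :
    (ad χ)^[k] (c • τ) = c • (ad χ)^[k] τ := by
  induction k generalizing τ with
  | zero => rfl
  | succ k ih => simp only [Function.iterate_succ_apply, ad_smul, ih]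

lemma wty_ad_apply (χ : F3) (τ : Module.End F3 F3⟦X⟧) (x : F3⟦X⟧) :
    ad χ τ x = τ (x * qq F3) - C χ * qq F3 * τ x := by
  simp only [ad, mQ, LinearMap.sub_apply, LinearMap.smul_apply, Module.End.mul_apply,
    LinearMap.mulLeft_apply, smul_eq_C_mul, mul_comm (qq F3) x, mul_assoc]

lemma ty_zero (χ : F3) (e : ℕ) : Ty χ e 0 := by
  intro k n x _
  rw [wty_it_zero]
  exact Submodule.zero_mem _

lemma ty_one : Ty 1 0 1 := by
  intro k n x hx
  cases k with
  | zero => simpa using hx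
  | succ k =>
    have h1 : ad 1 (1 : Module.End F3 F3⟦X⟧) = 0 := by simp [ad]
    rw [Function.iterate_succ_apply, h1, wty_it_zero]
    exact Submodule.zero_mem _

lemma Ty.add (h : Ty χ e τ) (h' : Ty χ e τ') : Ty χ e (τ + τ') := by
  intro k n x hx
  rw [wty_it_add, LinearMap.add_apply]
  exact Submodule.add_mem _ (h k n x hx) (h' k n x hx)

lemma Ty.smul (c : F3) (h : Ty χ e τ) : Ty χ e (c • τ) := by
  intro k n x hx
  rw [wty_it_smul, LinearMap.smul_apply]
  exact Submodule.smul_mem _ _ (h k n x hx)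

lemma Ty.sub (h : Ty χ e τ) (h' : Ty χ e τ') : Ty χ e (τ - τ') := by
  have h1 : τ - τ' = τ + (-1 : F3) • τ' := by module
  rw [h1]
  exact h.add (h'.smul _)

lemma Ty.sum {ι : Type*} {s : Finset ι} {f : ι → Module.End F3 F3⟦X⟧} (h : ∀ i ∈ s, Ty χ e (f i)) :
    Ty χ e (∑ i ∈ s, f i) := by
  classical
  induction s using Finset.induction_on with
  | empty => rw [Finset.sum_empty]; exact ty_zero χ e
  | insert a s ha ih =>
    rw [Finset.sum_insert ha]
    exact (h a (Finset.mem_insert_self a s)).add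
      (ih fun i hi => h i (Finset.mem_insert_of_mem hi))

lemma Ty.ad (h : Ty χ e τ) : Ty χ (e + 1) (ad χ τ) := by
  intro k n x hx
  have h1 := h (k + 1) n x hx
  rw [Function.iterate_succ_apply] at h1
  have h2 : n + (e + 1) + k = n + e + (k + 1) := by ring
  rw [h2]
  exact h1

/-- Induction on `k`, for all `τ, τ', e, e'` at once, with `ad_mul`. -/
theorem Ty.mul (h : Ty χ e τ) (h' : Ty χ' e' τ') : Ty (χ * χ') (e + e') (τ * τ') := by
  intro k
  induction k generalizing τ τ' e e' with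
  | zero =>
    intro n x hx
    have h1 := h 0 _ _ (h' 0 n x hx)
    have h2 : n + (e + e') + 0 = n + e' + 0 + e + 0 := by ring
    rw [h2]
    exact h1
  | succ k ih =>
    intro n x hx
    rw [Function.iterate_succ_apply, ad_mul, wty_it_add, wty_it_smul, LinearMap.add_apply,
      LinearMap.smul_apply]
    have h1 := ih h h'.ad n x hx
    have h2 := ih h.ad h' n x hx
    have e1 : n + (e + (e' + 1)) + k = n + (e + e') + (k + 1) := by ring
    have e2 : n + (e + 1 + e') + k = n + (e + e') + (k + 1) := by ring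
    rw [e1] at h1
    rw [e2] at h2
    exact Submodule.add_mem _ h1 (Submodule.smul_mem _ _ h2)

/-- Left and right multiplication by `mQ` commute: binomial theorem. -/
theorem ad_iterate (χ : F3) (τ : Module.End F3 F3⟦X⟧) (k : ℕ) (x : F3⟦X⟧) :
    (ad χ)^[k] τ x = ∑ i ∈ range (k + 1),
      (k.choose i : F3⟦X⟧) * (-(C χ) * qq F3) ^ (k - i) * τ (x * qq F3 ^ i) := by
  induction k generalizing τ with
  | zero => simp
  | succ k ih =>
    have key := Finset.sum_choose_succ_mul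
      (fun i j => (-(C χ) * qq F3) ^ j * τ (x * qq F3 ^ i)) k
    simp only [← mul_assoc] at key
    rw [Function.iterate_succ_apply, ih, key, ← Finset.sum_add_distrib]
    refine Finset.sum_congr rfl fun i hi => ?_
    have hi' : i ≤ k := Nat.lt_succ_iff.1 (Finset.mem_range.1 hi)
    rw [wty_ad_apply, Nat.succ_sub hi', pow_succ, pow_succ, ← mul_assoc x]
    ring

theorem apply_mul_pow (χ : F3) (τ : Module.End F3 F3⟦X⟧) (k : ℕ) (x : F3⟦X⟧) :
    τ (x * qq F3 ^ k) = ∑ i ∈ range (k + 1),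
      (k.choose i : F3⟦X⟧) * (C χ * qq F3) ^ (k - i) * (ad χ)^[i] τ x := by
  induction k generalizing τ with
  | zero => simp
  | succ k ih =>
    have key := Finset.sum_choose_succ_mul
      (fun i j => (C χ * qq F3) ^ j * (ad χ)^[i] τ x) k
    simp only [← mul_assoc] at key
    have h1 : τ (x * qq F3 ^ (k + 1)) =
        C χ * qq F3 * τ (x * qq F3 ^ k) + ad χ τ (x * qq F3 ^ k) := by
      rw [wty_ad_apply, pow_succ, ← mul_assoc x]
      ring
    rw [key, h1, ih τ, ih (ad χ τ), Finset.mul_sum]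
    refine congrArg₂ (· + ·) ?_ ?_
    · refine Finset.sum_congr rfl fun i hi => ?_
      have hi' : i ≤ k := Nat.lt_succ_iff.1 (Finset.mem_range.1 hi)
      rw [Nat.succ_sub hi', pow_succ]
      ring
    · refine Finset.sum_congr rfl fun i _ => ?_
      rw [Function.iterate_succ_apply]

lemma wty_monic2 : (Polynomial.X ^ 2 - 1 : Polynomial F3).Monic := by
  have h := Polynomial.monic_X_pow_sub_C (1 : F3) (n := 2) (by norm_num)
  rwa [map_one] at h

lemma wty_natDegree2 : (Polynomial.X ^ 2 - 1 : Polynomial F3).natDegree = 2 := by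
  have h := Polynomial.natDegree_X_pow_sub_C (R := F3) (n := 2) (r := 1)
  rwa [map_one] at h

lemma wty_basis (H : Facts) (k ε : ℕ) : ∃ B : Polynomial F3, B.Monic ∧
    B.natDegree = 2 * k + 1 + ε ∧ B.eval 1 = 0 ∧
    ev B = ((-1 : F3) ^ (k + 1)) • (FF F3 * uu F3 ^ ε * qq F3 ^ k) := by
  have m1 : (Polynomial.X - 1 : Polynomial F3).Monic := by
    have h := Polynomial.monic_X_sub_C (1 : F3)
    rwa [map_one] at h
  have d1 : (Polynomial.X - 1 : Polynomial F3).natDegree = 1 := by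
    have h := Polynomial.natDegree_X_sub_C (1 : F3)
    rwa [map_one] at h
  have m2 : (Polynomial.X ^ ε : Polynomial F3).Monic := Polynomial.monic_X_pow ε
  have m3 := wty_monic2.pow k
  refine ⟨(Polynomial.X - 1) * Polynomial.X ^ ε * (Polynomial.X ^ 2 - 1) ^ k,
    (m1.mul m2).mul m3, ?_, by simp, ?_⟩
  · rw [(m1.mul m2).natDegree_mul m3, m1.natDegree_mul m2, wty_monic2.natDegree_pow, d1,
      wty_natDegree2, Polynomial.natDegree_X_pow]
    ring
  · have h1 : uu F3 ^ 2 - 1 = -1 * qq F3 := by rw [qq3 H]; ring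
    have h2 : uu F3 - 1 = -1 * FF F3 := by rw [H.FF3]; ring
    simp only [map_mul, map_sub, map_pow, map_one, ev_X]
    rw [h1, h2, smul_eq_C_mul, map_pow, map_neg, map_one, mul_pow]
    ring

/-- `R0 n` is spanned by the `FF * uu ^ ε * qq ^ k`, `ε ≤ 1`, of degree `2 k + 1 + ε < n`. -/
theorem R0_le_span (H : Facts) (n : ℕ) : R0 n ≤ Submodule.span F3
    {x | ∃ k ε : ℕ, ε ≤ 1 ∧ 2 * k + 1 + ε < n ∧ x = FF F3 * uu F3 ^ ε * qq F3 ^ k} := by
  induction n with
  | zero =>
    intro x hx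
    have h1 := (mem_R0.1 hx).1
    rw [Rlt_zero, Submodule.mem_bot] at h1
    rw [h1]
    exact Submodule.zero_mem _
  | succ n ih =>
    intro x hx
    obtain ⟨h1, h2⟩ := mem_R0.1 hx
    obtain ⟨P, hP, rfl⟩ := mem_Rlt.1 h1
    rw [coeff_zero_ev] at h2
    have hmono : Submodule.span F3
        {x | ∃ k ε : ℕ, ε ≤ 1 ∧ 2 * k + 1 + ε < n ∧ x = FF F3 * uu F3 ^ ε * qq F3 ^ k} ≤
        Submodule.span F3
        {x | ∃ k ε : ℕ, ε ≤ 1 ∧ 2 * k + 1 + ε < n + 1 ∧ x = FF F3 * uu F3 ^ ε * qq F3 ^ k} := by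
      refine Submodule.span_mono ?_
      rintro y ⟨k, ε, h3, h4, h5⟩
      exact ⟨k, ε, h3, by omega, h5⟩
    rcases Nat.eq_zero_or_pos n with rfl | hn
    · have h3 : P.degree ≤ 0 := by
        have : P.degree < 1 := by simpa using hP
        exact Nat.WithBot.lt_one_iff_le_zero.1 this
      rw [Polynomial.eq_C_of_degree_le_zero h3] at h2 ⊢
      rw [Polynomial.eval_C] at h2
      rw [h2, map_zero, map_zero]
      exact Submodule.zero_mem _
    · obtain ⟨k, ε, hε, hk⟩ : ∃ k ε : ℕ, ε ≤ 1 ∧ n = 2 * k + 1 + ε :=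
        ⟨(n - 1) / 2, (n - 1) % 2, by omega, by omega⟩
      obtain ⟨B, hB1, hB2, hB3, hB4⟩ := wty_basis H k ε
      rw [← hk] at hB2
      have hQ : (P - Polynomial.C (P.coeff n) * B).degree < n := by
        rw [Polynomial.degree_lt_iff_coeff_zero]
        intro m hm
        rw [Polynomial.coeff_sub, Polynomial.coeff_C_mul]
        rcases hm.eq_or_lt with rfl | hm
        · have : B.coeff n = 1 := by
            rw [← hB2]
            exact hB1.coeff_natDegree
          rw [this, mul_one, sub_self]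
        · have h5 : B.coeff m = 0 := Polynomial.coeff_eq_zero_of_natDegree_lt (by omega)
          have h6 : P.coeff m = 0 :=
            (Polynomial.degree_lt_iff_coeff_zero P (n + 1)).1 hP m (by omega)
          rw [h5, h6, mul_zero, sub_self]
      have hx' : ev (P - Polynomial.C (P.coeff n) * B) ∈ R0 n := by
        refine mem_R0.2 ⟨ev_mem_Rlt.2 hQ, ?_⟩
        rw [coeff_zero_ev, Polynomial.eval_sub, Polynomial.eval_mul, hB3, h2, mul_zero, sub_self]
      have h7 : ev P = ev (P - Polynomial.C (P.coeff n) * B) + P.coeff n • ev B := by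
        rw [← map_smul, ← map_add, Polynomial.smul_eq_C_mul, sub_add_cancel]
      rw [h7]
      refine Submodule.add_mem _ (hmono (ih hx')) (Submodule.smul_mem _ _ ?_)
      rw [hB4]
      exact Submodule.smul_mem _ _ (Submodule.subset_span ⟨k, ε, hε, by omega, rfl⟩)

lemma wty_gen_mem (H : Facts) (k ε : ℕ) :
    FF F3 * uu F3 ^ ε * qq F3 ^ k ∈ R0 (2 * k + 1 + ε + 1) := by
  obtain ⟨B, hB1, hB2, hB3, hB4⟩ := wty_basis H k ε
  have h1 : ev B ∈ R0 (2 * k + 1 + ε + 1) := by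
    refine mem_R0.2 ⟨ev_mem_Rlt.2 ?_, by rw [coeff_zero_ev, hB3]⟩
    rw [Polynomial.degree_eq_natDegree hB1.ne_zero, hB2]
    exact_mod_cast Nat.lt_succ_self _
  have h2 : FF F3 * uu F3 ^ ε * qq F3 ^ k = ((-1 : F3) ^ (k + 1)) • ev B := by
    rw [hB4, smul_smul, ← mul_pow, neg_one_mul, neg_neg, one_pow, one_smul]
  rw [h2]
  exact Submodule.smul_mem _ _ h1

lemma wty_coef_mem (H : Facts) (χ : F3) (m j : ℕ) :
    (m : F3⟦X⟧) * (C χ * qq F3) ^ j ∈ Rlt (2 * j + 1) := by
  have h1 : C χ * qq F3 ∈ Rlt (2 + 1) := by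
    rw [← smul_eq_C_mul]
    exact Submodule.smul_mem _ _ (qq_mem_Rlt H)
  rw [← nsmul_eq_mul]
  exact nsmul_mem (pow_mem_Rlt h1 j) m

/-- For `y = FF * uu ^ ε`, `ad_iterate` gives `ad ^ i τ y = 0` for `i < d / 2`; then
`apply_mul_pow`. -/
theorem Ty.drop (H : Facts) (h : Ty χ 0 τ) {d : ℕ} (hd : ∀ x ∈ R0 (d + 1), τ x = 0) {n : ℕ}
    {x : F3⟦X⟧} (hx : x ∈ R0 n) : τ x ∈ Rlt (n - d / 2) := by
  have hx' := R0_le_span H n hx
  clear hx
  induction hx' using Submodule.span_induction with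
  | zero => rw [map_zero]; exact Submodule.zero_mem _
  | add x y _ _ h1 h2 => rw [map_add]; exact Submodule.add_mem _ h1 h2
  | smul c x _ h1 => rw [map_smul]; exact Submodule.smul_mem _ _ h1
  | mem x hx =>
    obtain ⟨k, ε, hε, hk, rfl⟩ := hx
    rw [apply_mul_pow χ]
    refine Submodule.sum_mem _ fun i hi => ?_
    have hi' : i ≤ k := Nat.lt_succ_iff.1 (Finset.mem_range.1 hi)
    rcases lt_or_ge i (d / 2) with hid | hid
    · have h0 : (W.ad χ)^[i] τ (FF F3 * uu F3 ^ ε) = 0 := by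
        rw [ad_iterate]
        refine Finset.sum_eq_zero fun j hj => ?_
        have hj' : j ≤ i := Nat.lt_succ_iff.1 (Finset.mem_range.1 hj)
        rw [hd _ (R0_mono (by omega) (wty_gen_mem H j ε)), mul_zero]
      rw [h0, mul_zero]
      exact Submodule.zero_mem _
    · have h1 : FF F3 * uu F3 ^ ε ∈ Rlt (2 * 0 + 1 + ε + 1) := by
        have h2 := (mem_R0.1 (wty_gen_mem H 0 ε)).1
        rwa [pow_zero, mul_one] at h2
      exact Rlt_mono (by omega) (mul_mem_Rlt (wty_coef_mem H χ (k.choose i) (k - i)) (h i _ _ h1))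

/-- `apply_mul_pow` with `x = 1`; `uu ^ (2 k) = (1 - qq) ^ k`. -/
theorem Ty.top (H : Facts) (h : Ty χ 0 τ) (h1 : τ 1 = 1) (k : ℕ) :
    τ (uu F3 ^ (2 * k)) - C (χ ^ k) * uu F3 ^ (2 * k) ∈ Rlt (2 * k) := by
  have hA : uu F3 ^ (2 * k) - (-1 : F3) ^ k • qq F3 ^ k ∈ Rlt (2 * k) := by
    have h2 : uu F3 ^ (2 * k) - (-1 : F3) ^ k • qq F3 ^ k =
        ev (Polynomial.X ^ (2 * k) - (Polynomial.X ^ 2 - 1) ^ k) := by
      have h3 : uu F3 ^ 2 - 1 = -1 * qq F3 := by rw [qq3 H]; ring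
      simp only [map_sub, map_pow, map_one, ev_X]
      rw [h3, smul_eq_C_mul, map_pow, map_neg, map_one, mul_pow]
    rw [h2, ev_mem_Rlt]
    have m1 : (Polynomial.X ^ (2 * k) : Polynomial F3).Monic := Polynomial.monic_X_pow _
    have m2 := wty_monic2.pow k
    have d1 : (Polynomial.X ^ (2 * k) : Polynomial F3).degree = ((2 * k : ℕ) : WithBot ℕ) :=
      Polynomial.degree_X_pow _
    have d2 : ((Polynomial.X ^ 2 - 1) ^ k : Polynomial F3).degree = ((2 * k : ℕ) : WithBot ℕ) := by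
      rw [Polynomial.degree_eq_natDegree m2.ne_zero, wty_monic2.natDegree_pow, wty_natDegree2,
        mul_comm]
    rw [← d1]
    exact Polynomial.degree_sub_lt_left (d1.trans d2.symm) m1.ne_zero
      (m1.leadingCoeff.trans m2.leadingCoeff.symm)
  have hB : τ (qq F3 ^ k) - (χ ^ k) • qq F3 ^ k ∈ Rlt (2 * k) := by
    have h2 := apply_mul_pow χ τ k 1
    rw [one_mul, Finset.sum_range_succ'] at h2
    have h3 : τ (qq F3 ^ k) - (χ ^ k) • qq F3 ^ k = ∑ i ∈ range k,
        (k.choose (i + 1) : F3⟦X⟧) * (C χ * qq F3) ^ (k - (i + 1)) * (W.ad χ)^[i + 1] τ 1 := by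
      rw [h2, Function.iterate_zero_apply, h1, smul_eq_C_mul, map_pow, Nat.choose_zero_right,
        Nat.cast_one, Nat.sub_zero, mul_pow]
      ring
    rw [h3]
    refine Submodule.sum_mem _ fun i hi => ?_
    have hi' : i < k := Finset.mem_range.1 hi
    have h4 : (1 : F3⟦X⟧) ∈ Rlt 1 := by
      rw [← map_one ev, ev_mem_Rlt, Polynomial.degree_one]
      exact_mod_cast Nat.zero_lt_one
    exact Rlt_mono (by omega)
      (mul_mem_Rlt (wty_coef_mem H χ (k.choose (i + 1)) (k - (i + 1))) (h (i + 1) _ _ h4))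
  have hC : τ (uu F3 ^ (2 * k) - (-1 : F3) ^ k • qq F3 ^ k) ∈ Rlt (2 * k) := h 0 _ _ hA
  have hD : τ (uu F3 ^ (2 * k)) - C (χ ^ k) * uu F3 ^ (2 * k) =
      τ (uu F3 ^ (2 * k) - (-1 : F3) ^ k • qq F3 ^ k) +
        (-1 : F3) ^ k • (τ (qq F3 ^ k) - (χ ^ k) • qq F3 ^ k) -
        (χ ^ k) • (uu F3 ^ (2 * k) - (-1 : F3) ^ k • qq F3 ^ k) := by
    rw [map_sub, map_smul, ← smul_eq_C_mul]
    module
  rw [hD]
  exact Submodule.sub_mem _ (Submodule.add_mem _ hC (Submodule.smul_mem _ _ hB))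
    (Submodule.smul_mem _ _ hA)

end Pool.Agent.Lib.MP_bcfefa_nt.W
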